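import Pool.Agent.LibCOE.Defs

/-! Row B1. Proof sketch:
The Haar measure of a compact group is right invariant: `Measure.map (· * U) (haarU N)` is a left invariant probability
(Haar) measure (`isHaarMeasure_map` or `IsMulLeftInvariant` of the map), so it is haarU by uniqueness
(`MeasureTheory.Measure.haarMeasure_unique`, or isMulLeftInvariant_eq_smul with total mass 1). Then `integral_map` (the map is a
homeomorphism, `MeasurableEmbedding`/`Homeomorph.mulRight`: integral_map_equiv needs no measurability of F). -/

open MeasureTheory Set Filter Topology

namespace COE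

open QGr

theorem haar_right {N : ℕ} (U : Uni N) (F : Uni N → ℂ) :
    ∫ A, F (A * U) ∂(haarU N) = ∫ A, F A ∂(haarU N) := by
  have : Measure.IsHaarMeasure (haarU N) := by unfold haarU; infer_instance
  have huniv : haarU N univ = 1 := by
    unfold haarU
    exact Measure.haarMeasure_self (K₀ := ⟨⟨Set.univ, isCompact_univ⟩, by simp⟩)
  have : IsProbabilityMeasure (haarU N) := ⟨huniv⟩
  let e : Uni N ≃ₜ Uni N := Homeomorph.mulRight U
  have hmeas : Measurable (fun A : Uni N => A * U) := e.continuous.measurable
  have hP : IsProbabilityMeasure (Measure.map (fun A : Uni N => A * U) (haarU N)) :=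
    Measure.isProbabilityMeasure_map hmeas.aemeasurable
  have hL : Measure.IsMulLeftInvariant (Measure.map (fun A : Uni N => A * U) (haarU N)) :=
    isMulLeftInvariant_map_mul_right U
  have hO : Measure.IsOpenPosMeasure (Measure.map (fun A : Uni N => A * U) (haarU N)) :=
    e.continuous.isOpenPosMeasure_map e.surjective
  have hH : Measure.IsHaarMeasure (Measure.map (fun A : Uni N => A * U) (haarU N)) :=
    { }
  have h1 : Measure.map (fun A : Uni N => A * U) (haarU N) = haarU N :=
    Measure.isHaarMeasure_eq_of_isProbabilityMeasure _ _
  have h2 := (e.toMeasurableEquiv).measurableEmbedding.integral_map (μ := haarU N) F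
  have h3 : Measure.map (e.toMeasurableEquiv) (haarU N) = haarU N := h1
  rw [h3] at h2
  exact h2.symm

end COE
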