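import Pool.Agent.LibCOE.Defs
import Pool.Agent.LibCOE.CO_B1
import Pool.Agent.LibQGr.R_HRT

/-! Row B2. Proof sketch:
up_add: (1 + (a-1) P)(1 + (b-1) P) = 1 + (ab - 1) P for P = vv v, P^2 = P (`vv_sq`, `module`/noncomm_ring). haar_deriv:
φ(t) = ∫ F (A * up t) is constant by haar_right; its derivative at 0 is ∫ F' A by
`hasDerivAt_integral_of_dominated_loc_of_deriv_le` (derivative at t: F' (A * up t) by up_add; F' is bounded on the compact group;
haarU is a finite measure: `QGr` row: haarMeasure_self). -/

open MeasureTheory Set Filter Topology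


namespace COE

open QGr


theorem up_zero {N : ℕ} (v : Fin N → ℝ) (hv : ∑ i, v i ^ 2 = 1) : up v hv 0 = 1 := by
  apply Subtype.ext
  simp [up]

theorem up_add {N : ℕ} (v : Fin N → ℝ) (hv : ∑ i, v i ^ 2 = 1) (s t : ℝ) :
    up v hv (s + t) = up v hv s * up v hv t := by
  apply Subtype.ext
  change 1 + (Complex.exp (((s + t : ℝ) : ℂ) * Complex.I) - 1) • vv v =
    (1 + (Complex.exp ((s : ℂ) * Complex.I) - 1) • vv v) *
      (1 + (Complex.exp ((t : ℂ) * Complex.I) - 1) • vv v)
  have h1 : Complex.exp (((s + t : ℝ) : ℂ) * Complex.I)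
      = Complex.exp ((s : ℂ) * Complex.I) * Complex.exp ((t : ℂ) * Complex.I) := by
    rw [← Complex.exp_add]
    push_cast
    ring_nf
  rw [h1, add_mul, mul_add, mul_add, one_mul, one_mul, mul_one, smul_mul_smul_comm, vv_sq v hv]
  module

theorem up_cont {N : ℕ} (v : Fin N → ℝ) (hv : ∑ i, v i ^ 2 = 1) : Continuous (up v hv) := by
  refine Continuous.subtype_mk ?_ _
  have h1 : Continuous fun t : ℝ => Complex.exp ((t : ℂ) * Complex.I) - 1 := by fun_prop
  exact continuous_const.add (h1.smul (continuous_const (y := vv v)))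

theorem haar_deriv {N : ℕ} (v : Fin N → ℝ) (hv : ∑ i, v i ^ 2 = 1) (F F' : Uni N → ℂ)
    (hF : Continuous F) (hF' : Continuous F')
    (hd : ∀ A, HasDerivAt (fun t => F (A * up v hv t)) (F' A) 0) :
    ∫ A, F' A ∂(haarU N) = 0 := by
  have := haar_prob N
  obtain ⟨C, hC⟩ := isCompact_univ.exists_bound_of_continuousOn hF'.continuousOn
  obtain ⟨B, hB⟩ := isCompact_univ.exists_bound_of_continuousOn hF.continuousOn
  have hcm : ∀ t : ℝ, Continuous fun A : Uni N => A * up v hv t := fun t => by fun_prop
  have h1 := hasDerivAt_integral_of_dominated_loc_of_deriv_le (μ := haarU N)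
    (F := fun (t : ℝ) (A : Uni N) => F (A * up v hv t))
    (F' := fun (t : ℝ) (A : Uni N) => F' (A * up v hv t)) (x₀ := 0) (s := Set.univ)
    (bound := fun _ => C) Filter.univ_mem
    (Eventually.of_forall fun t => (hF.comp (hcm t)).aestronglyMeasurable)
    (Integrable.of_bound (hF.comp (hcm 0)).aestronglyMeasurable B
      (ae_of_all _ fun A => hB _ (Set.mem_univ _)))
    (hF'.comp (hcm 0)).aestronglyMeasurable
    (ae_of_all _ fun A t _ => hC _ (Set.mem_univ _)) (integrable_const _)
    (ae_of_all _ fun A t _ => by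
      have h2 := hd (A * up v hv t)
      have h3 : (fun s => F (A * up v hv t * up v hv s)) = fun s => F (A * up v hv (t + s)) := by
        funext s
        rw [up_add, mul_assoc]
      rw [h3] at h2
      have h4 : HasDerivAt (fun s => F (A * up v hv (t + s))) (F' (A * up v hv t)) (t - t) := by
        rw [sub_self]
        exact h2
      have h5 := HasDerivAt.comp_sub_const t t h4
      simpa using h5)
  have h6 : (fun t : ℝ => ∫ A, F (A * up v hv t) ∂(haarU N)) = fun _ => ∫ A, F A ∂(haarU N) := by
    funext t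
    exact haar_right (up v hv t) F
  have h7 := h1.2
  rw [h6] at h7
  have h8 := h7.unique (hasDerivAt_const (0 : ℝ) _)
  simpa [up_zero] using h8

end COE
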