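import Pool.Agent.LibCOE.Defs
import Pool.Agent.LibQGr.R_BAS

/-! Row B3. Proof sketch:
tW_cont: powers of a continuous map into a topological group (zpow: `Continuous.zpow`), sy is continuous (dep sy_cont).
tW_conj: the inverse of a unitary matrix is its star, so ((W^k)^-1).1 = star (W^k).1, trace of the conjugate transpose
(`Matrix.trace_conjTranspose`). sy_up: (A U)ᵀ (A U) = Uᵀ (Aᵀ A) U and Uᵀ = U since vv v is symmetric. -/

open MeasureTheory Set Filter Topology


namespace COE

open QGr

theorem tW_cont {N : ℕ} (k : ℤ) : Continuous fun A : Uni N => tW A k := by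
  unfold tW
  have h1 : Continuous fun A : Uni N => (sy A ^ k : Uni N) := sy_cont.zpow k
  exact (continuous_subtype_val.comp h1).matrix_trace

theorem tW_conj {N : ℕ} (A : Uni N) (k : ℤ) : (starRingEnd ℂ) (tW A k) = tW A (-k) := by
  unfold tW
  have h1 : ((sy A ^ (-k) : Uni N).1) = star ((sy A ^ k : Uni N).1) := by
    rw [zpow_neg]
    rfl
  rw [h1, Matrix.star_eq_conjTranspose, Matrix.trace_conjTranspose]
  rfl

theorem sy_up {N : ℕ} (v : Fin N → ℝ) (hv : ∑ i, v i ^ 2 = 1) (A : Uni N) (t : ℝ) :
    sy (A * up v hv t) = up v hv t * sy A * up v hv t := by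
  have hT : (up v hv t).1.transpose = (up v hv t).1 := by
    unfold up
    simp only [Matrix.transpose_add, Matrix.transpose_one, Matrix.transpose_smul]
    congr 2
    ext i j
    simp [vv, mul_comm]
  apply Subtype.ext
  show (A.1 * (up v hv t).1).transpose * (A.1 * (up v hv t).1) =
    (up v hv t).1 * (A.1.transpose * A.1) * (up v hv t).1
  rw [Matrix.transpose_mul, hT]
  simp only [Matrix.mul_assoc]

end COE
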