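import Pool.Agent.LibCOE.Defs
import Pool.Agent.LibCOE.CO_B2
import Pool.Agent.LibCOE.CO_B3

/-! Row B4. Proof sketch:
Entrywise derivatives of matrix valued curves (product rule for matrix products entrywise; see `PLP_mul` in
Pool/Agent/LibQGr/R_PLP.lean for the pattern). (up v t).1 has derivative I • vv v at 0. W(t) = U W U has derivative
I • (V W + W V), V = vv v; induction on k: (W^k)' = ∑_{a<k} W^a (I (V W + W V)) W^(k-1-a); trace against S gives tS_deriv.
With S = 1: trace (W^k)' = 2 I k trace (W^k V) (cyclicity). For negative k: (W^-1)(t) = U^-1 W^-1 U^-1 with derivative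
-I (V W^-1 + W^-1 V); or conjugate the formula for -k (tW_conj-like: trace ((W^k)^-1) = conj). Note tW uses the power in the
group Uni N; (x ^ (k:ℤ)).1 = x.1 ^ k for natural k (`SubmonoidClass.coe_pow`). -/

open MeasureTheory Set Filter Topology

namespace COE

open QGr


theorem B4_mul {N : ℕ} {A B : ℝ → Matrix (Fin N) (Fin N) ℂ} {A' B' : Matrix (Fin N) (Fin N) ℂ}
    {s : ℝ} (hA : ∀ i j, HasDerivAt (fun s => A s i j) (A' i j) s)
    (hB : ∀ i j, HasDerivAt (fun s => B s i j) (B' i j) s) (i j : Fin N) :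
    HasDerivAt (fun s => (A s * B s) i j) ((A' * B s + A s * B') i j) s := by
  have h := HasDerivAt.fun_sum (u := Finset.univ) fun a (_ : a ∈ Finset.univ) =>
    (hA i a).mul (hB a j)
  simp only [Matrix.mul_apply, Matrix.add_apply]
  rw [← Finset.sum_add_distrib]
  exact h

theorem B4_up {N : ℕ} (v : Fin N → ℝ) (hv : ∑ i, v i ^ 2 = 1) (i j : Fin N) :
    HasDerivAt (fun t => (up v hv t).1 i j) ((Complex.I • vv v) i j) 0 := by
  have h0 : (fun t : ℝ => (up v hv t).1 i j) = fun t : ℝ =>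
      (1 : Matrix (Fin N) (Fin N) ℂ) i j + (Complex.exp (t * Complex.I) - 1) * vv v i j := by
    funext t
    rfl
  rw [h0]
  have h1 : HasDerivAt (fun t : ℝ => (t : ℂ) * Complex.I) (1 * Complex.I) 0 :=
    (Complex.ofRealCLM.hasDerivAt (x := (0 : ℝ))).mul_const Complex.I
  have h2 := ((h1.cexp.sub_const 1).mul_const (vv v i j)).const_add
    ((1 : Matrix (Fin N) (Fin N) ℂ) i j)
  simpa using h2

theorem B4_W {N : ℕ} (v : Fin N → ℝ) (hv : ∑ i, v i ^ 2 = 1) (A : Uni N) (i j : Fin N) :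
    HasDerivAt (fun t => (sy (A * up v hv t)).1 i j)
      ((Complex.I • (vv v * (sy A).1 + (sy A).1 * vv v)) i j) 0 := by
  have h0 : (fun t : ℝ => (sy (A * up v hv t)).1 i j) = fun t : ℝ =>
      ((up v hv t).1 * (sy A).1 * (up v hv t).1) i j := by
    funext t
    rw [sy_up]
    rfl
  have hc : ∀ i j, HasDerivAt (fun _ : ℝ => (sy A).1 i j)
      ((0 : Matrix (Fin N) (Fin N) ℂ) i j) 0 := fun i j => hasDerivAt_const _ _
  have h1 := B4_mul (B4_mul (B4_up v hv) hc) (B4_up v hv) i j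
  rw [h0]
  have h2 : (up v hv 0).1 = 1 := by rw [up_zero]; rfl
  have h3 : (Complex.I • vv v * (sy A).1 + (up v hv 0).1 * 0) * (up v hv 0).1 +
      (up v hv 0).1 * (sy A).1 * (Complex.I • vv v) =
      Complex.I • (vv v * (sy A).1 + (sy A).1 * vv v) := by
    rw [h2, Matrix.mul_zero, add_zero, Matrix.mul_one, Matrix.one_mul, Matrix.smul_mul,
      Matrix.mul_smul, smul_add]
  rw [h3] at h1
  exact h1

theorem B4_pow {N : ℕ} {W : ℝ → Matrix (Fin N) (Fin N) ℂ} {W' : Matrix (Fin N) (Fin N) ℂ}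
    {s : ℝ} (hW : ∀ i j, HasDerivAt (fun s => W s i j) (W' i j) s) (k : ℕ) (i j : Fin N) :
    HasDerivAt (fun s => (W s ^ k) i j)
      ((∑ a ∈ Finset.range k, W s ^ a * W' * W s ^ (k - 1 - a)) i j) s := by
  induction k generalizing i j with
  | zero => simpa using hasDerivAt_const s ((1 : Matrix (Fin N) (Fin N) ℂ) i j)
  | succ k ih =>
    have h1 := B4_mul ih hW i j
    simp only [pow_succ (W _) k]
    have h2 : (∑ a ∈ Finset.range k, W s ^ a * W' * W s ^ (k - 1 - a)) * W s + W s ^ k * W' =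
        ∑ a ∈ Finset.range (k + 1), W s ^ a * W' * W s ^ (k + 1 - 1 - a) := by
      rw [Finset.sum_range_succ, Finset.sum_mul]
      congr 1
      · refine Finset.sum_congr rfl fun a ha => ?_
        have ha' := Finset.mem_range.1 ha
        rw [Matrix.mul_assoc _ (W s ^ (k - 1 - a)), ← pow_succ]
        congr 2
        omega
      · rw [Nat.add_sub_cancel, Nat.sub_self, pow_zero, Matrix.mul_one]
    rw [h2] at h1
    exact h1

theorem B4_trace {N : ℕ} {W : ℝ → Matrix (Fin N) (Fin N) ℂ} {W' : Matrix (Fin N) (Fin N) ℂ}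
    {s : ℝ} (hW : ∀ i j, HasDerivAt (fun s => W s i j) (W' i j) s)
    (S : Matrix (Fin N) (Fin N) ℂ) :
    HasDerivAt (fun s => Matrix.trace (S * W s)) (Matrix.trace (S * W')) s := by
  have hc : ∀ i j, HasDerivAt (fun _ : ℝ => S i j)
      ((0 : Matrix (Fin N) (Fin N) ℂ) i j) s := fun i j => hasDerivAt_const _ _
  have h1 := HasDerivAt.fun_sum (u := Finset.univ) fun a (_ : a ∈ Finset.univ) =>
    B4_mul hc hW a a
  rw [Matrix.zero_mul, zero_add] at h1
  exact h1

theorem tS_deriv {N : ℕ} (v : Fin N → ℝ) (hv : ∑ i, v i ^ 2 = 1) (A : Uni N) (k : ℕ)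
    (S : Matrix (Fin N) (Fin N) ℂ) :
    HasDerivAt (fun t => Matrix.trace (S * (sy (A * up v hv t)).1 ^ k)) (dS k S (vv v) A) 0 := by
  have h1 := B4_trace (B4_pow (B4_W v hv A) k) S
  rw [up_zero, mul_one] at h1
  have h2 : Matrix.trace (S * ∑ a ∈ Finset.range k, (sy A).1 ^ a *
      (Complex.I • (vv v * (sy A).1 + (sy A).1 * vv v)) * (sy A).1 ^ (k - 1 - a)) =
      dS k S (vv v) A := by
    unfold dS
    rw [Finset.mul_sum, Matrix.trace_sum, Finset.mul_sum]
    refine Finset.sum_congr rfl fun a ha => ?_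
    have ha' := Finset.mem_range.1 ha
    rw [Matrix.mul_smul, Matrix.smul_mul, Matrix.mul_smul, Matrix.trace_smul, smul_eq_mul,
      ← Matrix.trace_add]
    congr 2
    rw [Matrix.mul_add, Matrix.add_mul, Matrix.mul_add]
    congr 1
    · rw [show k - a = (k - 1 - a) + 1 by omega, pow_succ']
      simp only [Matrix.mul_assoc]
    · rw [pow_succ]
      simp only [Matrix.mul_assoc]
  rw [h2] at h1
  exact h1

theorem B4_nat {N : ℕ} (v : Fin N → ℝ) (hv : ∑ i, v i ^ 2 = 1) (A : Uni N) (k : ℕ) :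
    HasDerivAt (fun t => tW (A * up v hv t) k)
      (2 * Complex.I * k * Matrix.trace ((sy A).1 ^ k * vv v)) 0 := by
  have h1 := tS_deriv v hv A k 1
  have h2 : (fun t => Matrix.trace (1 * (sy (A * up v hv t)).1 ^ k)) =
      fun t => tW (A * up v hv t) k := by
    funext t
    unfold tW
    rw [Matrix.one_mul, zpow_natCast]
    rfl
  rw [h2] at h1
  have h3 : dS k 1 (vv v) A = 2 * Complex.I * k * Matrix.trace ((sy A).1 ^ k * vv v) := by
    unfold dS
    have h4 : ∀ a ∈ Finset.range k, Matrix.trace ((1 : Matrix (Fin N) (Fin N) ℂ) *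
        (sy A).1 ^ a * vv v * (sy A).1 ^ (k - a)) +
        Matrix.trace (1 * (sy A).1 ^ (a + 1) * vv v * (sy A).1 ^ (k - 1 - a)) =
        2 * Matrix.trace ((sy A).1 ^ k * vv v) := by
      intro a ha
      have ha' := Finset.mem_range.1 ha
      have h5 : ∀ b c : ℕ, b + c = k → Matrix.trace ((1 : Matrix (Fin N) (Fin N) ℂ) *
          (sy A).1 ^ b * vv v * (sy A).1 ^ c) = Matrix.trace ((sy A).1 ^ k * vv v) := by
        intro b c hbc
        rw [Matrix.one_mul, Matrix.trace_mul_comm, ← Matrix.mul_assoc, ← pow_add, add_comm c b,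
          hbc]
      rw [h5 a (k - a) (by omega), h5 (a + 1) (k - 1 - a) (by omega)]
      ring
    rw [Finset.sum_congr rfl h4, Finset.sum_const, Finset.card_range, nsmul_eq_mul]
    ring
  rw [h3] at h1
  exact h1

theorem B4_conj {N : ℕ} (B : Uni N) (k : ℕ) : tW B (-(k : ℤ)) = star (tW B k) := by
  unfold tW
  rw [zpow_neg, zpow_natCast, ← Matrix.trace_conjTranspose]
  rfl

theorem tW_deriv {N : ℕ} (v : Fin N → ℝ) (hv : ∑ i, v i ^ 2 = 1) (A : Uni N) (k : ℤ) :
    HasDerivAt (fun t => tW (A * up v hv t) k)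
      (2 * Complex.I * k * Matrix.trace ((sy A ^ k : Uni N).1 * vv v)) 0 := by
  obtain ⟨n, rfl | rfl⟩ := Int.eq_nat_or_neg k
  · have h1 := B4_nat v hv A n
    rw [zpow_natCast]
    exact_mod_cast h1
  · have h1 := (B4_nat v hv A n).star
    have h2 : (fun t => tW (A * up v hv t) (-(n : ℤ))) =
        fun t => star (tW (A * up v hv t) n) := by
      funext t
      exact B4_conj _ n
    rw [h2]
    have h3 : star (2 * Complex.I * n * Matrix.trace ((sy A).1 ^ n * vv v)) =
        2 * Complex.I * ((-(n : ℤ) : ℤ) : ℂ) *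
          Matrix.trace ((sy A ^ (-(n : ℤ)) : Uni N).1 * vv v) := by
      have h4 : (sy A ^ (-(n : ℤ)) : Uni N).1 = star ((sy A).1 ^ n) := by
        rw [zpow_neg, zpow_natCast]
        rfl
      rw [h4, star_mul', star_mul', star_mul', ← Matrix.trace_conjTranspose,
        Matrix.conjTranspose_mul, ← Matrix.star_eq_conjTranspose, ← Matrix.star_eq_conjTranspose,
        vv_star, Matrix.trace_mul_comm]
      simp
    rw [h3] at h1
    exact h1

end COE
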