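import Pool.Agent.LibCOE.Defs
import Pool.Agent.LibCOE.CO_B2
import Pool.Agent.LibCOE.CO_B3
import Pool.Agent.LibCOE.CO_B4
import Pool.Agent.LibQGr.R_HRT

/-! Row B5. Proof sketch:
dT_cont: finite sums/products of continuous functions (traces of products of continuous matrix functions). loop_vv:
haar_deriv with F A = trace (S W^k) * ∏_{i∈s} tW A (m i), F' = dT k s m S (vv v) (product rule, `HasDerivAt.mul`,
`HasDerivAt.finset_prod`). loop_Es: dT is linear in V: dT k s m S (a V + b V') = a dT .. V + b dT .. V'; for j ≠ l,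
Es j l = vv ((e_j + e_l)/√2) - vv ((e_j - e_l)/√2); for j = l, Es j j = 2 vv e_j. (Integrability: continuous on a compact
group.) -/

open MeasureTheory Set Filter Topology


namespace COE

open QGr


theorem B5_sy {N : ℕ} : Continuous (sy : Uni N → Uni N) := by
  refine Continuous.subtype_mk ?_ _
  exact (Continuous.matrix_transpose continuous_subtype_val).mul continuous_subtype_val

theorem B5_dS {N : ℕ} (k : ℕ) (S V : Matrix (Fin N) (Fin N) ℂ) : Continuous (dS k S V) := by
  have h : Continuous fun A : Uni N => (sy A).1 := continuous_subtype_val.comp B5_sy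
  unfold dS
  refine continuous_const.mul (continuous_finsetSum _ fun a _ => ?_)
  refine Continuous.add ?_ ?_
  · exact Continuous.matrix_trace
      (((continuous_const.mul (h.pow a)).mul continuous_const).mul (h.pow (k - a)))
  · exact Continuous.matrix_trace
      (((continuous_const.mul (h.pow (a + 1))).mul continuous_const).mul (h.pow (k - 1 - a)))

theorem dT_cont {N : ℕ} {ι : Type} [DecidableEq ι] (k : ℕ) (s : Finset ι) (m : ι → ℤ)
    (S V : Matrix (Fin N) (Fin N) ℂ) : Continuous (dT k s m S V) := by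
  have h : Continuous fun A : Uni N => (sy A).1 := continuous_subtype_val.comp B5_sy
  unfold dT
  refine Continuous.add ?_ ?_
  · exact (B5_dS k S V).mul (continuous_finsetProd _ fun i _ => tW_cont (m i))
  · refine (Continuous.matrix_trace (continuous_const.mul (h.pow k))).mul
      (continuous_finsetSum _ fun i _ => ?_)
    refine Continuous.mul ?_ (continuous_finsetProd _ fun l _ => tW_cont (m l))
    refine continuous_const.mul (Continuous.matrix_trace (Continuous.mul ?_ continuous_const))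
    exact continuous_subtype_val.comp (B5_sy.zpow (m i))

theorem B5_up {N : ℕ} (v : Fin N → ℝ) (hv : ∑ i, v i ^ 2 = 1) : up v hv 0 = 1 := by
  refine Subtype.ext ?_
  change (1 : Matrix (Fin N) (Fin N) ℂ) + (Complex.exp ((0 : ℝ) * Complex.I) - 1) • vv v = 1
  rw [Complex.ofReal_zero, zero_mul, Complex.exp_zero, sub_self, zero_smul, add_zero]

theorem loop_vv {N : ℕ} {ι : Type} [DecidableEq ι] (k : ℕ) (s : Finset ι) (m : ι → ℤ)
    (S : Matrix (Fin N) (Fin N) ℂ) (v : Fin N → ℝ) (hv : ∑ i, v i ^ 2 = 1) :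
    ∫ A, dT k s m S (vv v) A ∂(haarU N) = 0 := by
  have h : Continuous fun A : Uni N => (sy A).1 := continuous_subtype_val.comp B5_sy
  refine haar_deriv v hv (fun A => Matrix.trace (S * (sy A).1 ^ k) * ∏ i ∈ s, tW A (m i))
    (dT k s m S (vv v)) ?_ (dT_cont k s m S (vv v)) ?_
  · exact (Continuous.matrix_trace (continuous_const.mul (h.pow k))).mul
      (continuous_finsetProd _ fun i _ => tW_cont (m i))
  · intro A
    have h1 := tS_deriv v hv A k S
    have h2 : HasDerivAt (fun t => ∏ i ∈ s, tW (A * up v hv t) (m i))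
        (∑ i ∈ s, (∏ l ∈ s.erase i, tW (A * up v hv 0) (m l)) •
          (2 * Complex.I * (m i) * Matrix.trace ((sy A ^ m i : Uni N).1 * vv v))) 0 :=
      HasDerivAt.fun_finsetProd fun i _ => tW_deriv v hv A (m i)
    have h3 := h1.mul h2
    refine h3.congr_deriv ?_
    rw [B5_up, mul_one, dT]
    congr 1
    congr 1
    refine Finset.sum_congr rfl fun i _ => ?_
    rw [smul_eq_mul, mul_comm]

theorem B5_dS_lin {N : ℕ} (k : ℕ) (S V V' : Matrix (Fin N) (Fin N) ℂ) (a b : ℂ) (A : Uni N) :
    dS k S (a • V + b • V') A = a * dS k S V A + b * dS k S V' A := by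
  unfold dS
  rw [mul_left_comm a, mul_left_comm b, ← mul_add]
  congr 1
  rw [Finset.mul_sum, Finset.mul_sum, ← Finset.sum_add_distrib]
  refine Finset.sum_congr rfl fun i _ => ?_
  simp only [mul_add, add_mul, Matrix.trace_add, mul_smul_comm, smul_mul_assoc,
    Matrix.trace_smul, smul_eq_mul]
  ring

theorem B5_dT_lin {N : ℕ} {ι : Type} [DecidableEq ι] (k : ℕ) (s : Finset ι) (m : ι → ℤ)
    (S V V' : Matrix (Fin N) (Fin N) ℂ) (a b : ℂ) (A : Uni N) :
    dT k s m S (a • V + b • V') A = a * dT k s m S V A + b * dT k s m S V' A := by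
  unfold dT
  have h : ∑ i ∈ s, 2 * Complex.I * m i *
        Matrix.trace ((sy A ^ m i : Uni N).1 * (a • V + b • V')) * ∏ l ∈ s.erase i, tW A (m l)
      = a * (∑ i ∈ s, 2 * Complex.I * m i * Matrix.trace ((sy A ^ m i : Uni N).1 * V) *
          ∏ l ∈ s.erase i, tW A (m l))
        + b * (∑ i ∈ s, 2 * Complex.I * m i * Matrix.trace ((sy A ^ m i : Uni N).1 * V') *
          ∏ l ∈ s.erase i, tW A (m l)) := by
    rw [Finset.mul_sum, Finset.mul_sum, ← Finset.sum_add_distrib]
    refine Finset.sum_congr rfl fun i _ => ?_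
    rw [mul_add, Matrix.trace_add, mul_smul_comm, mul_smul_comm, Matrix.trace_smul,
      Matrix.trace_smul, smul_eq_mul, smul_eq_mul]
    ring
  rw [h, B5_dS_lin]
  ring

theorem B5_int {N : ℕ} {ι : Type} [DecidableEq ι] (k : ℕ) (s : Finset ι) (m : ι → ℤ)
    (S V : Matrix (Fin N) (Fin N) ℂ) : Integrable (dT k s m S V) (haarU N) := by
  have := haar_prob N
  exact (dT_cont k s m S V).integrable_of_hasCompactSupport (HasCompactSupport.of_compactSpace _)

theorem B5_comb {N : ℕ} {ι : Type} [DecidableEq ι] (k : ℕ) (s : Finset ι) (m : ι → ℤ)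
    (S V V' : Matrix (Fin N) (Fin N) ℂ) (a b : ℂ)
    (h : ∫ A, dT k s m S V A ∂(haarU N) = 0) (h' : ∫ A, dT k s m S V' A ∂(haarU N) = 0) :
    ∫ A, dT k s m S (a • V + b • V') A ∂(haarU N) = 0 := by
  have e : (fun A => dT k s m S (a • V + b • V') A)
      = fun A => a * dT k s m S V A + b * dT k s m S V' A := by
    funext A
    exact B5_dT_lin k s m S V V' a b A
  rw [e, integral_add ((B5_int k s m S V).const_mul a) ((B5_int k s m S V').const_mul b),
    integral_const_mul, integral_const_mul, h, h', mul_zero, mul_zero, add_zero]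

/-- the vectors of the polarisation -/
noncomputable def B5_v {N : ℕ} (j l : Fin N) (c : ℝ) : Fin N → ℝ := fun a =>
  ((if a = j then 1 else 0) + c * (if a = l then 1 else 0)) / √2

theorem B5_v_sq {N : ℕ} {j l : Fin N} (hjl : j ≠ l) (c : ℝ) (hc : c ^ 2 = 1) :
    ∑ a, B5_v j l c a ^ 2 = 1 := by
  have h2 : (√2 : ℝ) ^ 2 = 2 := Real.sq_sqrt (by norm_num)
  have h : ∀ a : Fin N, B5_v j l c a ^ 2
      = (if a = j then (1 / 2 : ℝ) else 0) + (if a = l then (1 / 2 : ℝ) else 0) := by
    intro a
    rw [B5_v, div_pow, h2]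
    by_cases h3 : a = j
    · have h4 : a ≠ l := fun h5 => hjl (h3.symm.trans h5)
      rw [if_pos h3, if_neg h4, if_pos h3, if_neg h4]
      norm_num
    · by_cases h4 : a = l
      · rw [if_neg h3, if_pos h4, if_neg h3, if_pos h4]
        rw [mul_one, zero_add, zero_add, hc]
      · rw [if_neg h3, if_neg h4, if_neg h3, if_neg h4]
        norm_num
  rw [Finset.sum_congr rfl fun a _ => h a, Finset.sum_add_distrib, Finset.sum_ite_eq',
    Finset.sum_ite_eq', if_pos (Finset.mem_univ j), if_pos (Finset.mem_univ l)]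
  norm_num

theorem B5_Es {N : ℕ} (j l : Fin N) :
    Es j l = (1 : ℂ) • vv (B5_v j l 1) + (-1 : ℂ) • vv (B5_v j l (-1)) := by
  have h2 : (√2 : ℝ) * √2 = 2 := Real.mul_self_sqrt (by norm_num)
  ext a b
  have h3 : B5_v j l 1 a * B5_v j l 1 b - B5_v j l (-1) a * B5_v j l (-1) b
      = (if a = j then 1 else 0) * (if b = l then 1 else 0)
        + (if a = l then 1 else 0) * (if b = j then 1 else 0) := by
    unfold B5_v
    rw [div_mul_div_comm, div_mul_div_comm, h2]
    ring
  have h4 : Es j l a b = ((if a = j then (1 : ℂ) else 0) * (if b = l then 1 else 0)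
        + (if a = l then 1 else 0) * (if b = j then 1 else 0)) := by
    unfold Es
    rw [Matrix.add_apply, Matrix.single_apply, Matrix.single_apply]
    congr 1
    · by_cases h5 : j = a <;> by_cases h6 : l = b <;> simp [h5, h6, eq_comm]
    · by_cases h5 : l = a <;> by_cases h6 : j = b <;> simp [h5, h6, eq_comm]
  have h5 : ((1 : ℂ) • vv (B5_v j l 1) + (-1 : ℂ) • vv (B5_v j l (-1))) a b
      = ((B5_v j l 1 a * B5_v j l 1 b - B5_v j l (-1) a * B5_v j l (-1) b : ℝ) : ℂ) := by
    rw [Matrix.add_apply, Matrix.smul_apply, Matrix.smul_apply, vv, vv, Matrix.of_apply,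
      Matrix.of_apply, smul_eq_mul, smul_eq_mul]
    push_cast
    ring
  have h6 : ∀ (x y : Fin N), ((if x = y then (1 : ℝ) else 0 : ℝ) : ℂ)
      = if x = y then (1 : ℂ) else 0 := by
    intro x y
    split_ifs
    · exact Complex.ofReal_one
    · exact Complex.ofReal_zero
  rw [h4, h5, h3, Complex.ofReal_add, Complex.ofReal_mul, Complex.ofReal_mul, h6, h6, h6, h6]

theorem B5_Es_self {N : ℕ} (j : Fin N) :
    Es j j = (1 : ℂ) • vv (fun a => if a = j then 1 else 0)
      + (1 : ℂ) • vv (fun a => if a = j then 1 else 0) := by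
  ext a b
  unfold Es vv
  rw [Matrix.add_apply, Matrix.add_apply, Matrix.smul_apply, Matrix.of_apply,
    Matrix.single_apply, smul_eq_mul, one_mul]
  beta_reduce
  by_cases h5 : a = j
  · by_cases h6 : b = j
    · rw [if_pos ⟨h5.symm, h6.symm⟩, if_pos h5, if_pos h6]
      simp
    · rw [if_neg (fun h => h6 h.2.symm), if_pos h5, if_neg h6]
      simp
  · rw [if_neg (fun h => h5 h.1.symm), if_neg h5]
    simp

theorem loop_Es {N : ℕ} {ι : Type} [DecidableEq ι] (k : ℕ) (s : Finset ι) (m : ι → ℤ)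
    (S : Matrix (Fin N) (Fin N) ℂ) (j l : Fin N) :
    ∫ A, dT k s m S (Es j l) A ∂(haarU N) = 0 := by
  by_cases hjl : j = l
  · subst hjl
    have hv : ∑ i : Fin N, (fun a => if a = j then (1 : ℝ) else 0) i ^ 2 = 1 := by
      have h : ∀ a : Fin N, (if a = j then (1 : ℝ) else 0) ^ 2 = if a = j then 1 else 0 := by
        intro a
        split_ifs <;> norm_num
      rw [Finset.sum_congr rfl fun a _ => h a, Finset.sum_ite_eq', if_pos (Finset.mem_univ j)]
    rw [B5_Es_self]
    exact B5_comb k s m S _ _ 1 1 (loop_vv k s m S _ hv) (loop_vv k s m S _ hv)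
  · rw [B5_Es]
    exact B5_comb k s m S _ _ 1 (-1) (loop_vv k s m S _ (B5_v_sq hjl 1 (by norm_num)))
      (loop_vv k s m S _ (B5_v_sq hjl (-1) (by norm_num)))

end COE
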