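import Pool.Agent.LibCOE.Defs

open MeasureTheory Set Filter Topology

namespace COE

open QGr

theorem sum_Es1 {N : ℕ} (P Q : Matrix (Fin N) (Fin N) ℂ) :
    ∑ j, ∑ l, Matrix.trace (Es j l * P * Es j l * Q)
      = 2 * (Matrix.trace (P * Q.transpose) + Matrix.trace P * Matrix.trace Q) := by
  have h1 : ∀ j l : Fin N, Matrix.trace (Es j l * P * Es j l * Q)
      = P l j * Q l j + P j l * Q j l + (P l l * Q j j + P j j * Q l l) := by
    intro j l
    unfold Es
    simp only [add_mul, mul_add, Matrix.single_mul_mul_single, Matrix.trace_add,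
      Matrix.trace_single_mul, one_mul, mul_one, smul_eq_mul]
    ring
  have h2 : Matrix.trace (P * Q.transpose) = ∑ j, ∑ l, P j l * Q j l := by
    simp [Matrix.trace, Matrix.mul_apply]
  have h3 : Matrix.trace P * Matrix.trace Q = ∑ j, ∑ l, P j j * Q l l := by
    simp only [Matrix.trace, Matrix.diag_apply, Finset.sum_mul_sum]
  simp_rw [h1, Finset.sum_add_distrib]
  rw [Finset.sum_comm (f := fun j l => P l j * Q l j),
    Finset.sum_comm (f := fun j l => P l l * Q j j), ← h2, ← h3]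
  ring

theorem sum_Es2 {N : ℕ} (P Q : Matrix (Fin N) (Fin N) ℂ) :
    ∑ j, ∑ l, Matrix.trace (Es j l * P) * Matrix.trace (Q * Es j l)
      = 2 * (Matrix.trace (P * Q.transpose) + Matrix.trace (P * Q)) := by
  have h1 : ∀ j l : Fin N, Matrix.trace (Es j l * P) * Matrix.trace (Q * Es j l)
      = P l j * Q l j + P j l * Q j l + (P l j * Q j l + P j l * Q l j) := by
    intro j l
    unfold Es
    simp only [add_mul, mul_add, Matrix.trace_add, MulOpposite.op_one, one_smul,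
      Matrix.trace_single_mul, Matrix.trace_mul_single]
    ring
  have h2 : Matrix.trace (P * Q.transpose) = ∑ j, ∑ l, P j l * Q j l := by
    simp [Matrix.trace, Matrix.mul_apply]
  have h3 : Matrix.trace (P * Q) = ∑ j, ∑ l, P j l * Q l j := by
    simp only [Matrix.trace, Matrix.diag_apply, Matrix.mul_apply]
  simp_rw [h1, Finset.sum_add_distrib]
  rw [Finset.sum_comm (f := fun j l => P l j * Q l j),
    Finset.sum_comm (f := fun j l => P l j * Q j l), ← h2, ← h3]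
  ring

theorem B6_symm {N : ℕ} (A : Uni N) : (sy A).1.transpose = (sy A).1 := by
  change (A.1.transpose * A.1).transpose = A.1.transpose * A.1
  rw [Matrix.transpose_mul, Matrix.transpose_transpose]

theorem B6_zsymm {N : ℕ} (A : Uni N) (m : ℤ) :
    ((sy A ^ m : Uni N).1).transpose = (sy A ^ m : Uni N).1 := by
  rcases m with m | m
  · rw [Int.ofNat_eq_natCast, zpow_natCast]
    change ((sy A).1 ^ m).transpose = (sy A).1 ^ m
    rw [Matrix.transpose_pow, B6_symm]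
  · rw [zpow_negSucc]
    change (star ((sy A).1 ^ (m + 1))).transpose = star ((sy A).1 ^ (m + 1))
    have h : ∀ M : Matrix (Fin N) (Fin N) ℂ, (star M).transpose = star M.transpose := by
      intro M
      ext i j
      simp [Matrix.star_apply]
    rw [h, Matrix.transpose_pow, B6_symm]

theorem B6_tW {N : ℕ} (A : Uni N) (a : ℕ) : tW A (a : ℤ) = Matrix.trace ((sy A).1 ^ a) := by
  unfold tW
  rw [zpow_natCast]
  rfl

theorem B6_dS {N : ℕ} (k : ℕ) (hk : 1 ≤ k) (A : Uni N) :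
    ∑ j, ∑ l, dS k (Es j l) (Es j l) A = 4 * Complex.I *
      (((N : ℂ) + k) * tW A k + ∑ a ∈ Finset.Ico 1 k, tW A a * tW A ((k : ℤ) - a)) := by
  have h1 : ∀ a b : ℕ, ∑ j, ∑ l, Matrix.trace (Es j l * (sy A).1 ^ a * Es j l * (sy A).1 ^ b)
      = 2 * (tW A ((a + b : ℕ) : ℤ) + tW A a * tW A b) := by
    intro a b
    rw [sum_Es1, Matrix.transpose_pow, B6_symm, ← pow_add, B6_tW, B6_tW, B6_tW]
  unfold dS
  simp_rw [← Finset.mul_sum]
  have h2 : ∑ j : Fin N, ∑ l : Fin N, ∑ a ∈ Finset.range k,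
      (Matrix.trace (Es j l * (sy A).1 ^ a * Es j l * (sy A).1 ^ (k - a))
    + Matrix.trace (Es j l * (sy A).1 ^ (a + 1) * Es j l * (sy A).1 ^ (k - 1 - a)))
      = ∑ a ∈ Finset.range k, (2 * (tW A k + tW A a * tW A ((k : ℤ) - a))
        + 2 * (tW A k + tW A ((a + 1 : ℕ) : ℤ) * tW A ((k : ℤ) - (a + 1 : ℕ)))) := by
    have h3 : ∀ j : Fin N, ∑ l : Fin N, ∑ a ∈ Finset.range k,
      (Matrix.trace (Es j l * (sy A).1 ^ a * Es j l * (sy A).1 ^ (k - a))
    + Matrix.trace (Es j l * (sy A).1 ^ (a + 1) * Es j l * (sy A).1 ^ (k - 1 - a)))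
      = ∑ a ∈ Finset.range k, ∑ l : Fin N,
      (Matrix.trace (Es j l * (sy A).1 ^ a * Es j l * (sy A).1 ^ (k - a))
    + Matrix.trace (Es j l * (sy A).1 ^ (a + 1) * Es j l * (sy A).1 ^ (k - 1 - a))) :=
      fun j => Finset.sum_comm
    simp_rw [h3]
    rw [Finset.sum_comm]
    refine Finset.sum_congr rfl fun a ha => ?_
    have ha' := Finset.mem_range.1 ha
    simp_rw [Finset.sum_add_distrib]
    rw [h1, h1]
    have e1 : a + (k - a) = k := by omega
    have e2 : a + 1 + (k - 1 - a) = k := by omega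
    have e3 : ((k - a : ℕ) : ℤ) = (k : ℤ) - a := by omega
    have e4 : ((k - 1 - a : ℕ) : ℤ) = (k : ℤ) - (a + 1 : ℕ) := by omega
    rw [e1, e2, e3, e4]
  rw [h2]
  have h0 : tW A 0 = (N : ℂ) := by
    have := B6_tW A 0
    rw [pow_zero, Matrix.trace_one, Fintype.card_fin] at this
    exact_mod_cast this
  obtain ⟨m, rfl⟩ : ∃ m, k = m + 1 := ⟨k - 1, by omega⟩
  have h5 : ∑ a ∈ Finset.range (m + 1), tW A a * tW A (((m + 1 : ℕ) : ℤ) - a)
      = (N : ℂ) * tW A ((m + 1 : ℕ) : ℤ)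
        + ∑ a ∈ Finset.Ico 1 (m + 1), tW A a * tW A (((m + 1 : ℕ) : ℤ) - a) := by
    rw [Finset.range_eq_Ico, Finset.sum_eq_sum_Ico_succ_bot (Nat.succ_pos m)]
    simp [h0]
  have h6 : ∑ a ∈ Finset.range (m + 1),
        tW A ((a + 1 : ℕ) : ℤ) * tW A (((m + 1 : ℕ) : ℤ) - (a + 1 : ℕ))
      = (∑ a ∈ Finset.Ico 1 (m + 1), tW A a * tW A (((m + 1 : ℕ) : ℤ) - a))
        + tW A ((m + 1 : ℕ) : ℤ) * N := by
    rw [Finset.sum_range_succ, sub_self, h0, Finset.sum_Ico_eq_sum_range]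
    congr 1
    refine Finset.sum_congr (by simp) fun a _ => ?_
    rw [add_comm a 1]
  simp_rw [Finset.sum_add_distrib, ← Finset.mul_sum, Finset.sum_add_distrib]
  rw [h5, h6, Finset.sum_const, Finset.card_range, nsmul_eq_mul]
  push_cast
  ring

theorem sum_dT {N : ℕ} {ι : Type} [DecidableEq ι] (k : ℕ) (hk : 1 ≤ k) (s : Finset ι)
    (m : ι → ℤ) (A : Uni N) :
    ∑ j, ∑ l, dT k s m (Es j l) (Es j l) A = 4 * Complex.I *
      ((((N : ℂ) + k) * tW A k + ∑ a ∈ Finset.Ico 1 k, tW A a * tW A ((k : ℤ) - a)) *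
        ∏ i ∈ s, tW A (m i)
      + 2 * ∑ i ∈ s, (m i : ℂ) * tW A (k + m i) * ∏ l ∈ s.erase i, tW A (m l)) := by
  unfold dT
  simp_rw [Finset.sum_add_distrib]
  have h1 : ∑ j : Fin N, ∑ l : Fin N, dS k (Es j l) (Es j l) A * ∏ i ∈ s, tW A (m i)
      = (∑ j : Fin N, ∑ l : Fin N, dS k (Es j l) (Es j l) A) * ∏ i ∈ s, tW A (m i) := by
    rw [Finset.sum_mul]
    refine Finset.sum_congr rfl fun j _ => ?_
    rw [Finset.sum_mul]
  have h2 : ∑ j : Fin N, ∑ l : Fin N, Matrix.trace (Es j l * (sy A).1 ^ k) *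
      ∑ i ∈ s, 2 * Complex.I * m i * Matrix.trace ((sy A ^ m i : Uni N).1 * Es j l) *
      ∏ l ∈ s.erase i, tW A (m l)
      = ∑ i ∈ s, 8 * Complex.I * m i * tW A (k + m i) * ∏ l ∈ s.erase i, tW A (m l) := by
    have h3 : ∀ j l : Fin N, Matrix.trace (Es j l * (sy A).1 ^ k) *
      ∑ i ∈ s, 2 * Complex.I * m i * Matrix.trace ((sy A ^ m i : Uni N).1 * Es j l) *
      ∏ l ∈ s.erase i, tW A (m l) = ∑ i ∈ s, (2 * Complex.I * m i * ∏ l ∈ s.erase i, tW A (m l)) *
        (Matrix.trace (Es j l * (sy A).1 ^ k) *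
          Matrix.trace ((sy A ^ m i : Uni N).1 * Es j l)) := by
      intro j l
      rw [Finset.mul_sum]
      refine Finset.sum_congr rfl fun i _ => ?_
      ring
    simp_rw [h3]
    have h4 : ∀ j : Fin N, ∑ l : Fin N, ∑ i ∈ s,
        (2 * Complex.I * m i * ∏ l ∈ s.erase i, tW A (m l)) *
        (Matrix.trace (Es j l * (sy A).1 ^ k) *
          Matrix.trace ((sy A ^ m i : Uni N).1 * Es j l))
        = ∑ i ∈ s, ∑ l : Fin N, (2 * Complex.I * m i * ∏ l ∈ s.erase i, tW A (m l)) *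
        (Matrix.trace (Es j l * (sy A).1 ^ k) *
          Matrix.trace ((sy A ^ m i : Uni N).1 * Es j l)) := fun j => Finset.sum_comm
    simp_rw [h4]
    rw [Finset.sum_comm]
    refine Finset.sum_congr rfl fun i _ => ?_
    simp_rw [← Finset.mul_sum]
    rw [sum_Es2, B6_zsymm]
    have h5 : (sy A).1 ^ k * (sy A ^ m i : Uni N).1 = (sy A ^ ((k : ℤ) + m i) : Uni N).1 := by
      rw [zpow_add, zpow_natCast]
      rfl
    rw [h5]
    change 2 * Complex.I * m i * (∏ l ∈ s.erase i, tW A (m l)) *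
      (2 * (tW A (k + m i) + tW A (k + m i))) = _
    ring
  rw [h1, h2, B6_dS k hk]
  have h6 : ∑ i ∈ s, 8 * Complex.I * m i * tW A (k + m i) * ∏ l ∈ s.erase i, tW A (m l)
      = 8 * Complex.I * ∑ i ∈ s, (m i : ℂ) * tW A (k + m i) * ∏ l ∈ s.erase i, tW A (m l) := by
    rw [Finset.mul_sum]
    refine Finset.sum_congr rfl fun i _ => ?_
    ring
  rw [h6]
  ring

end COE
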