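import Pool.Agent.LibCOE.Defs
import Pool.Agent.LibCOE.CO_B3
import Pool.Agent.LibCOE.CO_B5
import Pool.Agent.LibCOE.CO_B6
import Pool.Agent.LibQGr.R_HRT

/-! Row B7. Proof sketch:
loop_coe, k >= 1: sum loop_Es over j, l with S = Es j l, use sum_dT, divide by 4 I, multiply by k (spl with sign k = 1).
k = 0: trivial. k <= -1: apply the case -k to -m and conjugate (tW_conj, integral_conj, Int.sign, natAbs). coe_Q: sum over i of
loop_coe with k = m i, s = univ.erase i (integrability: continuous on the compact group; `integral_finsetSum`). -/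

open MeasureTheory Set Filter Topology


namespace COE

open QGr


theorem B7_int {N : ℕ} {f : Uni N → ℂ} (hf : Continuous f) : Integrable f (haarU N) := by
  have := haar_prob N
  exact hf.integrable_of_hasCompactSupport (HasCompactSupport.of_compactSpace f)

theorem B7_cont {N : ℕ} {ι : Type} [DecidableEq ι] (k : ℤ) (s : Finset ι) (m : ι → ℤ) :
    Continuous fun A : Uni N => spl N k (tW A) * ∏ i ∈ s, tW A (m i)
      + 2 * k * ∑ i ∈ s, (m i : ℂ) * tW A (k + m i) * ∏ l ∈ s.erase i, tW A (m l) := by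
  unfold spl
  refine Continuous.add (Continuous.mul (continuous_const.mul (Continuous.add
    (continuous_const.mul (tW_cont k)) ?_)) ?_) (continuous_const.mul ?_)
  · exact continuous_finsetSum _ fun a _ => (tW_cont _).mul (tW_cont _)
  · exact continuous_finsetProd _ fun i _ => tW_cont _
  · exact continuous_finsetSum _ fun i _ => (continuous_const.mul (tW_cont _)).mul
      (continuous_finsetProd _ fun l _ => tW_cont _)

theorem B7_pos {N : ℕ} {ι : Type} [DecidableEq ι] (n : ℕ) (hn : 1 ≤ n) (s : Finset ι)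
    (m : ι → ℤ) :
    ∫ A, (spl N n (tW A) * ∏ i ∈ s, tW A (m i)
      + 2 * ((n : ℤ) : ℂ) * ∑ i ∈ s, (m i : ℂ) * tW A (n + m i) * ∏ l ∈ s.erase i, tW A (m l))
        ∂(haarU N) = 0 := by
  have h0 : ∫ A, ∑ j, ∑ l, dT n s m (Es j l) (Es j l) A ∂(haarU N) = 0 := by
    rw [integral_finsetSum _ fun j _ => integrable_finsetSum _ fun l _ =>
      B7_int (dT_cont n s m (Es j l) (Es j l))]
    refine Finset.sum_eq_zero fun j _ => ?_
    rw [integral_finsetSum _ fun l _ => B7_int (dT_cont n s m (Es j l) (Es j l))]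
    exact Finset.sum_eq_zero fun l _ => loop_Es n s m (Es j l) j l
  have h1 : (fun A : Uni N => ∑ j, ∑ l, dT n s m (Es j l) (Es j l) A) = fun A =>
      4 * Complex.I *
      ((((N : ℂ) + n) * tW A n + ∑ a ∈ Finset.Ico 1 n, tW A a * tW A ((n : ℤ) - a)) *
        ∏ i ∈ s, tW A (m i)
      + 2 * ∑ i ∈ s, (m i : ℂ) * tW A (n + m i) * ∏ l ∈ s.erase i, tW A (m l)) :=
    funext fun A => sum_dT n hn s m A
  rw [h1] at h0
  have hI : (4 * Complex.I) ≠ 0 := mul_ne_zero (by norm_num) Complex.I_ne_zero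
  rw [integral_const_mul] at h0
  have h0' := (mul_eq_zero.1 h0).resolve_left hI
  have h2 : (fun A : Uni N => spl N n (tW A) * ∏ i ∈ s, tW A (m i)
      + 2 * ((n : ℤ) : ℂ) * ∑ i ∈ s, (m i : ℂ) * tW A (n + m i) * ∏ l ∈ s.erase i, tW A (m l)) =
      fun A => (n : ℂ) *
      ((((N : ℂ) + n) * tW A n + ∑ a ∈ Finset.Ico 1 n, tW A a * tW A ((n : ℤ) - a)) *
        ∏ i ∈ s, tW A (m i)
      + 2 * ∑ i ∈ s, (m i : ℂ) * tW A (n + m i) * ∏ l ∈ s.erase i, tW A (m l)) := by
    funext A
    have h3 : spl N n (tW A) = (n : ℂ) * (((N : ℂ) + n) * tW A n +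
        ∑ a ∈ Finset.Ico 1 n, tW A a * tW A ((n : ℤ) - a)) := by
      unfold spl
      rw [Int.natAbs_natCast, Int.sign_natCast_of_ne_zero (by omega)]
      simp only [one_mul]
    rw [h3, Int.cast_natCast]
    ring
  rw [h2, integral_const_mul, h0', mul_zero]

theorem loop_coe {N : ℕ} {ι : Type} [DecidableEq ι] (k : ℤ) (s : Finset ι) (m : ι → ℤ) :
    ∫ A, (spl N k (tW A) * ∏ i ∈ s, tW A (m i)
      + 2 * k * ∑ i ∈ s, (m i : ℂ) * tW A (k + m i) * ∏ l ∈ s.erase i, tW A (m l))
        ∂(haarU N) = 0 := by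
  rcases lt_trichotomy k 0 with hk | hk | hk
  · obtain ⟨n, hn⟩ : ∃ n : ℕ, k = -(n : ℤ) := ⟨k.natAbs, by omega⟩
    subst hn
    have hn : 1 ≤ n := by omega
    have h := B7_pos (N := N) n hn s fun i => -m i
    have h1 : (fun A : Uni N => spl N (-(n : ℤ)) (tW A) * ∏ i ∈ s, tW A (m i)
      + 2 * ((-(n : ℤ) : ℤ) : ℂ) * ∑ i ∈ s, (m i : ℂ) * tW A (-(n : ℤ) + m i) *
        ∏ l ∈ s.erase i, tW A (m l)) = fun A => (starRingEnd ℂ)
        (spl N n (tW A) * ∏ i ∈ s, tW A (-m i)
      + 2 * ((n : ℤ) : ℂ) * ∑ i ∈ s, ((-m i : ℤ) : ℂ) * tW A (n + -m i) *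
        ∏ l ∈ s.erase i, tW A (-m l)) := by
      funext A
      have h2 : (starRingEnd ℂ) (spl N n (tW A)) = spl N (-(n : ℤ)) (tW A) := by
        unfold spl
        rw [Int.natAbs_natCast, Int.natAbs_neg, Int.natAbs_natCast, Int.sign_neg,
          Int.sign_natCast_of_ne_zero (by omega)]
        simp only [map_mul, map_add, map_sum, map_natCast, tW_conj]
        congr 2
        refine Finset.sum_congr rfl fun a _ => ?_
        congr 2 <;> ring
      rw [map_add, map_mul, map_mul, map_sum, map_prod, h2]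
      congr 1
      · congr 1
        refine Finset.prod_congr rfl fun i _ => ?_
        rw [tW_conj, neg_neg]
      · rw [map_mul, Finset.mul_sum, Finset.mul_sum]
        refine Finset.sum_congr rfl fun i _ => ?_
        rw [map_mul, map_mul, map_prod, tW_conj]
        have e1 : -((n : ℤ) + -m i) = -(n : ℤ) + m i := by ring
        have e2 : ∏ l ∈ s.erase i, (starRingEnd ℂ) (tW A (-m l)) =
            ∏ l ∈ s.erase i, tW A (m l) :=
          Finset.prod_congr rfl fun l _ => by rw [tW_conj, neg_neg]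
        rw [e1, e2]
        simp only [map_ofNat, map_intCast]
        push_cast
        ring
    rw [h1, integral_conj, h, map_zero]
  · subst hk
    have h1 : (fun A : Uni N => spl N 0 (tW A) * ∏ i ∈ s, tW A (m i)
      + 2 * ((0 : ℤ) : ℂ) * ∑ i ∈ s, (m i : ℂ) * tW A (0 + m i) * ∏ l ∈ s.erase i, tW A (m l)) =
      fun _ => 0 := by
      funext A
      unfold spl
      simp
    rw [h1, integral_zero]
  · obtain ⟨n, hn⟩ : ∃ n : ℕ, k = (n : ℤ) := ⟨k.natAbs, by omega⟩
    subst hn
    exact B7_pos n (by omega) s m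

theorem coe_Q {N r : ℕ} (m : Fin r → ℤ) : ∫ A, Qf N m (tW A) ∂(haarU N) = 0 := by
  have h1 : (fun A : Uni N => Qf N m (tW A)) = fun A => ∑ i,
      (spl N (m i) (tW A) * ∏ j ∈ Finset.univ.erase i, tW A (m j)
      + 2 * (m i : ℂ) * ∑ j ∈ Finset.univ.erase i, (m j : ℂ) * tW A (m i + m j) *
        ∏ l ∈ (Finset.univ.erase i).erase j, tW A (m l)) := by
    funext A
    unfold Qf
    rw [Finset.sum_add_distrib, Finset.mul_sum]
    congr 1
    refine Finset.sum_congr rfl fun i _ => ?_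
    rw [Finset.mul_sum, Finset.mul_sum]
    refine Finset.sum_congr rfl fun j _ => ?_
    ring
  rw [h1, integral_finsetSum _ fun i _ => B7_int (B7_cont (m i) (Finset.univ.erase i) m)]
  exact Finset.sum_eq_zero fun i _ => loop_coe (m i) (Finset.univ.erase i) m

end COE
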