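import Pool.Agent.LibCOE.Defs

/-! Row Q1. Proof sketch:
Routine. `per_exp`: derivative in the variable j of `Function.update θ j t` at i (cases i = j); periodicity:
exp (2π k i) = 1. `per_ps` = sum of per_exp (Finset sum: prove a small `per_sum` by induction). `per_prod` by
`Finset.induction_on s` with per_mul (dF of insert), or by `HasDerivAt.finset_prod` directly. -/

open MeasureTheory Set Filter Topology

namespace COE

open QGr

theorem per_const {N : ℕ} (c : ℂ) : Per (fun _ : Fin N → ℝ => c) (fun _ _ => 0) :=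
  ⟨continuous_const, fun _ => continuous_const, fun _ _ => rfl,
    fun _ _ => hasDerivAt_const _ _⟩

theorem Q1_cont {N : ℕ} (k : ℤ) (i : Fin N) :
    Continuous fun θ : Fin N → ℝ => Complex.exp ((k * θ i : ℝ) * Complex.I) := by
  fun_prop

theorem per_exp {N : ℕ} (k : ℤ) (i : Fin N) :
    Per (fun θ : Fin N → ℝ => Complex.exp ((k * θ i : ℝ) * Complex.I))
      (fun j θ => if j = i then Complex.I * k * Complex.exp ((k * θ i : ℝ) * Complex.I) else 0) := by
  refine ⟨Q1_cont k i, fun j => ?_, fun θ j => ?_, fun θ j => ?_⟩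
  · by_cases h : j = i
    · simp only [h, if_true]
      exact continuous_const.mul (Q1_cont k i)
    · simp only [h, if_false]
      exact continuous_const
  · rcases eq_or_ne i j with rfl | h
    · simp only [Function.update_self]
      have h1 : (((k * (θ i + 2 * Real.pi) : ℝ) : ℂ)) * Complex.I
          = ((k * θ i : ℝ) : ℂ) * Complex.I + k * (2 * Real.pi * Complex.I) := by
        push_cast
        ring
      rw [h1, Complex.exp_add, Complex.exp_int_mul_two_pi_mul_I, mul_one]
    · simp only [Function.update_of_ne h]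
  · rcases eq_or_ne j i with rfl | h
    · simp only [Function.update_self, if_true]
      have h1 : HasDerivAt (fun t : ℝ => ((k * t : ℝ) : ℂ) * Complex.I)
          (((k * 1 : ℝ) : ℂ) * Complex.I) (θ j) :=
        (((hasDerivAt_id (θ j)).const_mul (k : ℝ)).ofReal_comp).mul_const Complex.I
      have h2 := h1.cexp
      have h3 : Complex.exp (((k * θ j : ℝ) : ℂ) * Complex.I) * (((k * 1 : ℝ) : ℂ) * Complex.I)
          = Complex.I * k * Complex.exp (((k * θ j : ℝ) : ℂ) * Complex.I) := by
        push_cast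
        ring
      rw [h3] at h2
      exact h2
    · simp only [Function.update_of_ne (Ne.symm h), h, if_false]
      exact hasDerivAt_const _ _

theorem Q1_sum {N : ℕ} {ι : Type} (s : Finset ι) (G : ι → (Fin N → ℝ) → ℂ)
    (G' : ι → Fin N → (Fin N → ℝ) → ℂ) (h : ∀ i, Per (G i) (G' i)) :
    Per (fun θ => ∑ i ∈ s, G i θ) (fun j θ => ∑ i ∈ s, G' i j θ) :=
  ⟨continuous_finsetSum _ fun i _ => (h i).cont,
    fun j => continuous_finsetSum _ fun i _ => (h i).cont' j,
    fun θ j => Finset.sum_congr rfl fun i _ => (h i).per θ j,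
    fun θ j => HasDerivAt.fun_sum fun i _ => (h i).der θ j⟩

theorem per_ps {N : ℕ} (k : ℤ) : Per (fun θ : Fin N → ℝ => ps k θ)
    (fun j θ => Complex.I * k * Complex.exp ((k * θ j : ℝ) * Complex.I)) := by
  have h := Q1_sum Finset.univ _ _ (fun i : Fin N => per_exp (N := N) k i)
  have h1 : (fun (j : Fin N) (θ : Fin N → ℝ) =>
      ∑ i, if j = i then Complex.I * k * Complex.exp ((k * θ i : ℝ) * Complex.I) else 0)
      = fun j θ => Complex.I * k * Complex.exp ((k * θ j : ℝ) * Complex.I) := by
    funext j θ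
    simp
  rw [h1] at h
  exact h

theorem per_add {N : ℕ} {G H : (Fin N → ℝ) → ℂ} {G' H' : Fin N → (Fin N → ℝ) → ℂ} (h : Per G G')
    (h2 : Per H H') : Per (fun θ => G θ + H θ) (fun j θ => G' j θ + H' j θ) :=
  ⟨h.cont.add h2.cont, fun j => (h.cont' j).add (h2.cont' j),
    fun θ j => by rw [h.per, h2.per], fun θ j => (h.der θ j).fun_add (h2.der θ j)⟩

theorem per_smul {N : ℕ} {G : (Fin N → ℝ) → ℂ} {G' : Fin N → (Fin N → ℝ) → ℂ} (h : Per G G')
    (c : ℂ) : Per (fun θ => c * G θ) (fun j θ => c * G' j θ) :=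
  ⟨continuous_const.mul h.cont, fun j => continuous_const.mul (h.cont' j),
    fun θ j => by rw [h.per], fun θ j => (h.der θ j).const_mul c⟩

theorem per_mul {N : ℕ} {G H : (Fin N → ℝ) → ℂ} {G' H' : Fin N → (Fin N → ℝ) → ℂ} (h : Per G G')
    (h2 : Per H H') : Per (fun θ => G θ * H θ) (fun j θ => G' j θ * H θ + G θ * H' j θ) :=
  ⟨h.cont.mul h2.cont, fun j => ((h.cont' j).mul h2.cont).add (h.cont.mul (h2.cont' j)),
    fun θ j => by rw [h.per, h2.per], fun θ j => by
      have h3 := (h.der θ j).fun_mul (h2.der θ j)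
      simp only [Function.update_eq_self] at h3
      exact h3⟩

theorem per_conj {N : ℕ} {G : (Fin N → ℝ) → ℂ} {G' : Fin N → (Fin N → ℝ) → ℂ} (h : Per G G') :
    Per (fun θ => (starRingEnd ℂ) (G θ)) (fun j θ => (starRingEnd ℂ) (G' j θ)) :=
  ⟨Complex.continuous_conj.comp h.cont, fun j => Complex.continuous_conj.comp (h.cont' j),
    fun θ j => by rw [h.per], fun θ j => (h.der θ j).star⟩

theorem conj_ps {N : ℕ} (k : ℤ) (θ : Fin N → ℝ) : (starRingEnd ℂ) (ps k θ) = ps (-k) θ := by
  unfold ps
  rw [map_sum]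
  refine Finset.sum_congr rfl fun j _ => ?_
  rw [← Complex.exp_conj, map_mul, Complex.conj_I, Complex.conj_ofReal]
  push_cast
  ring_nf

theorem per_prod {N : ℕ} {ι : Type} [DecidableEq ι] (s : Finset ι) (m : ι → ℤ) :
    Per (fun θ : Fin N → ℝ => ∏ i ∈ s, ps (m i) θ) (dF s m) := by
  refine ⟨continuous_finsetProd _ fun i _ => (per_ps (m i)).cont, fun j => ?_,
    fun θ j => Finset.prod_congr rfl fun i _ => (per_ps (m i)).per θ j, fun θ j => ?_⟩
  · unfold dF
    exact continuous_finsetSum _ fun i _ => ((per_ps (m i)).cont' j).mul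
      (continuous_finsetProd _ fun l _ => (per_ps (m l)).cont)
  · have h := HasDerivAt.fun_finsetProd (u := s) (fun i _ => (per_ps (m i)).der θ j)
    simp only [Function.update_eq_self, smul_eq_mul] at h
    have h1 : ∑ i ∈ s, (∏ l ∈ s.erase i, ps (m l) θ) *
        (Complex.I * (m i : ℂ) * Complex.exp (((m i * θ j : ℝ) : ℂ) * Complex.I)) = dF s m j θ := by
      unfold dF
      exact Finset.sum_congr rfl fun i _ => mul_comm _ _
    rw [h1] at h
    exact h

end COE
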