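import Pool.Agent.LibCOE.Defs
import Pool.Agent.LibCOE.CO_Q1

/-! Row C2. Proof sketch:
mem_Vd: reindex the finset by Fin r (`Finset.equivFin`). mul_Vd: span induction twice; product of two generating families =
family on Fin (r+r') (`Fin.append`/`Fin.addCases`, `Fin.prod_univ_add`) or via mem_Vd with the disjoint sum. spl_mem: constants
times ps k, ps a * ps (k - a) with |a| + |k-a| = |k| for a = sign k * a', 0 < a' < |k|; a constant (|k| = 0) is the empty product.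
Q_mem: spl_mem times the product over erase i (mul_Vd, degrees add up to <= d), and |m_i + m_j| <= |m_i| + |m_j|. (degree
monotone: Vd N d <= Vd N e for d <= e.) Vd_per: span induction. -/

open MeasureTheory Set Filter Topology

namespace COE

open QGr


theorem C2_mem {N d r : ℕ} (m : Fin r → ℤ) (h : ∑ i, (m i).natAbs ≤ d) :
    (fun θ : Fin N → ℝ => ∏ i, ps (m i) θ) ∈ Vd N d :=
  Submodule.subset_span ⟨r, m, h, rfl⟩

theorem C2_mono {N d e : ℕ} (h : d ≤ e) : Vd N d ≤ Vd N e := by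
  refine Submodule.span_mono ?_
  rintro f ⟨r, m, hm, hf⟩
  exact ⟨r, m, hm.trans h, hf⟩

theorem C2_add {N d : ℕ} {f g : (Fin N → ℝ) → ℂ} (hf : f ∈ Vd N d) (hg : g ∈ Vd N d) :
    (fun θ => f θ + g θ) ∈ Vd N d := (Vd N d).add_mem hf hg

theorem C2_smul {N d : ℕ} {f : (Fin N → ℝ) → ℂ} (hf : f ∈ Vd N d) (c : ℂ) :
    (fun θ => c * f θ) ∈ Vd N d := (Vd N d).smul_mem c hf

theorem C2_sum {N d : ℕ} {κ : Type} (s : Finset κ) (F : κ → (Fin N → ℝ) → ℂ)
    (h : ∀ i ∈ s, F i ∈ Vd N d) : (fun θ => ∑ i ∈ s, F i θ) ∈ Vd N d := by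
  have e : (fun θ => ∑ i ∈ s, F i θ) = ∑ i ∈ s, F i := by
    funext θ
    rw [Finset.sum_apply]
  rw [e]
  exact (Vd N d).sum_mem h

theorem mem_Vd {N d : ℕ} {ι : Type} (s : Finset ι) (m : ι → ℤ) (h : ∑ i ∈ s, (m i).natAbs ≤ d) :
    (fun θ : Fin N → ℝ => ∏ i ∈ s, ps (m i) θ) ∈ Vd N d := by
  have h1 : (fun θ : Fin N → ℝ => ∏ i ∈ s, ps (m i) θ)
      = fun θ : Fin N → ℝ => ∏ i : Fin s.card, ps (m (s.equivFin.symm i)) θ := by
    funext θ
    rw [← Finset.prod_coe_sort]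
    exact Fintype.prod_equiv s.equivFin _ _ fun x => by rw [Equiv.symm_apply_apply]
  rw [h1]
  refine C2_mem (fun i : Fin s.card => m (s.equivFin.symm i)) ?_
  refine le_trans (le_of_eq ?_) h
  rw [← Finset.sum_coe_sort s (fun i => (m i).natAbs)]
  exact Fintype.sum_equiv s.equivFin.symm _ _ fun x => rfl

theorem mul_Vd {N d e : ℕ} {f g : (Fin N → ℝ) → ℂ} (hf : f ∈ Vd N d) (hg : g ∈ Vd N e) :
    (fun θ => f θ * g θ) ∈ Vd N (d + e) := by
  have h1 : f * g ∈ Vd N d * Vd N e := Submodule.mul_mem_mul hf hg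
  have h2 : Vd N d * Vd N e ≤ Vd N (d + e) := by
    unfold Vd
    rw [Submodule.span_mul_span, Submodule.span_le]
    rintro _ ⟨_, ⟨r, m, hm, rfl⟩, _, ⟨r', m', hm', rfl⟩, rfl⟩
    have h3 := mem_Vd (N := N) (d := d + e) (Finset.univ : Finset (Fin r ⊕ Fin r'))
      (Sum.elim m m') (by
        rw [Fintype.sum_sum_type]
        exact Nat.add_le_add hm hm')
    have h4 : (fun θ : Fin N → ℝ => ∏ i : Fin r ⊕ Fin r', ps (Sum.elim m m' i) θ)
        = (fun θ : Fin N → ℝ => ∏ i, ps (m i) θ) * fun θ => ∏ i, ps (m' i) θ := by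
      funext θ
      rw [Fintype.prod_sum_type]
      rfl
    rw [h4] at h3
    exact h3
  exact h2 h1

theorem C2_ps {N : ℕ} (k : ℤ) : (fun θ : Fin N → ℝ => ps k θ) ∈ Vd N k.natAbs := by
  have h := C2_mem (N := N) (d := k.natAbs) (fun _ : Fin 1 => k) (by simp)
  simpa using h

theorem C2_deg (k : ℤ) (a : ℕ) (h1 : 1 ≤ a) (h2 : a < k.natAbs) :
    (k.sign * a).natAbs + (k - k.sign * a).natAbs = k.natAbs := by
  have hk : k ≠ 0 := by
    rintro rfl
    simp at h2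
  rcases lt_or_gt_of_ne hk with h | h
  · rw [Int.sign_eq_neg_one_of_neg h]
    omega
  · rw [Int.sign_eq_one_of_pos h]
    omega

theorem spl_mem {N : ℕ} (k : ℤ) : (fun θ : Fin N → ℝ => spl N k fun a => ps a θ) ∈ Vd N k.natAbs :=
  by
  unfold spl
  refine C2_smul (C2_add (C2_smul (C2_ps k) _) (C2_sum _ _ fun a ha => ?_)) _
  rw [Finset.mem_Ico] at ha
  have h := mul_Vd (C2_ps (N := N) (k.sign * a)) (C2_ps (N := N) (k - k.sign * a))
  rw [C2_deg k a ha.1 ha.2] at h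
  exact h

theorem Q_mem {N d r : ℕ} (m : Fin r → ℤ) (h : ∑ i, (m i).natAbs ≤ d) :
    (fun θ : Fin N → ℝ => Qf N m fun a => ps a θ) ∈ Vd N d := by
  unfold Qf
  refine C2_add (C2_sum _ _ fun i _ => ?_) (C2_smul (C2_sum _ _ fun i _ =>
    C2_sum _ _ fun j hj => ?_) _)
  · have h1 := mul_Vd (spl_mem (N := N) (m i))
      (mem_Vd (N := N) (Finset.univ.erase i) m le_rfl)
    refine C2_mono ?_ h1
    rw [Finset.add_sum_erase Finset.univ (fun i => (m i).natAbs) (Finset.mem_univ i)]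
    exact h
  · have h1 := mul_Vd (C2_smul (C2_ps (N := N) (m i + m j)) ((m i : ℂ) * (m j : ℂ)))
      (mem_Vd (N := N) ((Finset.univ.erase i).erase j) m le_rfl)
    refine C2_mono ?_ h1
    have h2 := Finset.add_sum_erase (Finset.univ.erase i) (fun i => (m i).natAbs) hj
    have h3 := Finset.add_sum_erase Finset.univ (fun i => (m i).natAbs) (Finset.mem_univ i)
    have h4 := Int.natAbs_add_le (m i) (m j)
    omega

theorem Vd_per {N d : ℕ} {g : (Fin N → ℝ) → ℂ} (hg : g ∈ Vd N d) : ∃ G', Per g G' := by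
  unfold Vd at hg
  induction hg using Submodule.span_induction with
  | mem f hf =>
    obtain ⟨r, m, _, rfl⟩ := hf
    exact ⟨_, per_prod Finset.univ m⟩
  | zero => exact ⟨_, per_const 0⟩
  | add f g _ _ hf hg =>
    obtain ⟨F, hF⟩ := hf
    obtain ⟨G, hG⟩ := hg
    exact ⟨_, per_add hF hG⟩
  | smul c f _ hf =>
    obtain ⟨F, hF⟩ := hf
    exact ⟨_, per_smul hF c⟩

end COE
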