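import Pool.Agent.LibCOE.Defs

/-! Row C1. Proof sketch:
The span is contained in the span of the finitely many functions θ ↦ exp (i ∑_j c_j θ_j), c : Fin N → ℤ with |c_j| <= d
(every product of r sums expands (`Finset.prod_univ_sum`) into such exponentials with ∑_j |c_j| <= ∑ |m_i| <= d), so it is
finite dimensional (`Submodule.finiteDimensional_of_le`). -/

open MeasureTheory Set Filter Topology

namespace COE

open QGr

/-- The exponential with frequencies `c`. -/
noncomputable def C1_E {N : ℕ} (c : Fin N → ℤ) : (Fin N → ℝ) → ℂ :=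
  fun θ => Complex.exp ((∑ j, (c j : ℝ) * θ j : ℝ) * Complex.I)

theorem C1_expand {N r : ℕ} (m : Fin r → ℤ) :
    (fun θ : Fin N → ℝ => ∏ i, ps (m i) θ) =
      ∑ p : Fin r → Fin N, C1_E (fun j => ∑ i, if p i = j then m i else 0) := by
  funext θ
  rw [Finset.sum_apply]
  unfold ps C1_E
  rw [Finset.prod_univ_sum, Fintype.piFinset_univ]
  refine Finset.sum_congr rfl fun p _ => ?_
  rw [← Complex.exp_sum]
  congr 1
  have h1 : ∑ j, (((∑ i, if p i = j then m i else 0 : ℤ) : ℤ) : ℝ) * θ j =
      ∑ i, (m i : ℝ) * θ (p i) := by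
    have h2 : ∀ j, (((∑ i, if p i = j then m i else 0 : ℤ) : ℤ) : ℝ) * θ j =
        ∑ i, if p i = j then (m i : ℝ) * θ j else 0 := by
      intro j
      push_cast
      rw [Finset.sum_mul]
      refine Finset.sum_congr rfl fun i _ => ?_
      split_ifs
      · rfl
      · rw [zero_mul]
    rw [Finset.sum_congr rfl fun j _ => h2 j, Finset.sum_comm]
    refine Finset.sum_congr rfl fun i _ => ?_
    rw [Finset.sum_ite_eq]
    simp
  rw [h1, Complex.ofReal_sum, Finset.sum_mul]

theorem C1_bound {N r d : ℕ} (m : Fin r → ℤ) (hm : ∑ i, (m i).natAbs ≤ d) (p : Fin r → Fin N)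
    (j : Fin N) : (∑ i, if p i = j then m i else 0) ∈ Finset.Icc (-(d : ℤ)) d := by
  have h1 : |∑ i, if p i = j then m i else 0| ≤ (d : ℤ) := by
    calc |∑ i, if p i = j then m i else 0| ≤ ∑ i, |if p i = j then m i else 0| :=
          Finset.abs_sum_le_sum_abs _ _
      _ ≤ ∑ i, |m i| := by
          refine Finset.sum_le_sum fun i _ => ?_
          split_ifs
          · exact le_refl _
          · rw [abs_zero]
            exact abs_nonneg _
      _ = ((∑ i, (m i).natAbs : ℕ) : ℤ) := by
          rw [Nat.cast_sum]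
          exact Finset.sum_congr rfl fun i _ => (Int.natCast_natAbs (m i)).symm
      _ ≤ d := by exact_mod_cast hm
  rw [Finset.mem_Icc]
  exact abs_le.1 h1

theorem fin_Vd (N d : ℕ) : FiniteDimensional ℂ (Vd N d) := by
  classical
  have hfin : FiniteDimensional ℂ (Submodule.span ℂ (C1_E '' ((Fintype.piFinset fun _ : Fin N =>
      Finset.Icc (-(d : ℤ)) d : Finset (Fin N → ℤ)) : Set (Fin N → ℤ)))) :=
    FiniteDimensional.span_of_finite ℂ ((Finset.finite_toSet _).image _)
  have hle : Vd N d ≤ Submodule.span ℂ (C1_E '' ((Fintype.piFinset fun _ : Fin N =>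
      Finset.Icc (-(d : ℤ)) d : Finset (Fin N → ℤ)) : Set (Fin N → ℤ))) := by
    refine Submodule.span_le.2 ?_
    rintro f ⟨r, m, hm, rfl⟩
    rw [SetLike.mem_coe, C1_expand]
    refine Submodule.sum_mem _ fun p _ => Submodule.subset_span ⟨_, ?_, rfl⟩
    rw [Finset.mem_coe, Fintype.mem_piFinset]
    exact fun j => C1_bound m hm p j
  exact Submodule.finiteDimensional_of_le hle

end COE
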