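import Pool.Agent.LibCOE.Defs

/-! Row W1. Proof sketch:
Elementary. `wt` is a finite product of continuous factors in `[0, 2]`; for `wt_le` the number of pairs is at most N*N
(bound each inner product by 2^card, card (Ioi i) <= N). `wt_per`: the change of one variable by 2π changes
`2 sin ((θ j - θ i)/2)` at most by the sign (`Real.sin_add_pi`), factor by factor (cases j = i, j = l, Function.update). -/

open MeasureTheory Set Filter Topology

namespace COE

open QGr

theorem wt_cont {N : ℕ} : Continuous (wt : (Fin N → ℝ) → ℝ) := by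
  unfold wt
  fun_prop

theorem wt_nonneg {N : ℕ} (θ : Fin N → ℝ) : 0 ≤ wt θ :=
  Finset.prod_nonneg fun _ _ => Finset.prod_nonneg fun _ _ => abs_nonneg _

theorem W1_le (x : ℝ) : |2 * Real.sin x| ≤ 2 := by
  rw [abs_mul, abs_of_pos (by norm_num : (0 : ℝ) < 2)]
  have := Real.abs_sin_le_one x
  linarith

theorem wt_le {N : ℕ} (θ : Fin N → ℝ) : wt θ ≤ 2 ^ (N * N) := by
  unfold wt
  calc ∏ i, ∏ j ∈ Finset.Ioi i, |2 * Real.sin ((θ j - θ i) / 2)|
      ≤ ∏ _i : Fin N, (2 : ℝ) ^ N := by
        refine Finset.prod_le_prod (fun i _ => Finset.prod_nonneg fun _ _ => abs_nonneg _)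
          fun i _ => ?_
        calc ∏ j ∈ Finset.Ioi i, |2 * Real.sin ((θ j - θ i) / 2)|
            ≤ ∏ _j ∈ Finset.Ioi i, (2 : ℝ) :=
              Finset.prod_le_prod (fun _ _ => abs_nonneg _) fun _ _ => W1_le _
          _ = 2 ^ (Finset.Ioi i).card := by rw [Finset.prod_const]
          _ ≤ 2 ^ N := by
              refine pow_le_pow_right₀ (by norm_num) ?_
              have := Finset.card_le_univ (Finset.Ioi i)
              simpa using this
    _ = 2 ^ (N * N) := by rw [Finset.prod_const, ← pow_mul]; simp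

theorem wt_pos {N : ℕ} (θ : Fin N → ℝ) (h : Dist θ) : 0 < wt θ := by
  unfold wt
  refine Finset.prod_pos fun i _ => Finset.prod_pos fun j hj => ?_
  have h1 := h i j (Finset.mem_Ioi.1 hj).ne
  exact abs_pos.2 (mul_ne_zero (by norm_num) h1)

theorem wt_per {N : ℕ} (θ : Fin N → ℝ) (j : Fin N) :
    wt (Function.update θ j (θ j + 2 * Real.pi)) = wt θ := by
  unfold wt
  refine Finset.prod_congr rfl fun i _ => Finset.prod_congr rfl fun l hl => ?_
  have hil := (Finset.mem_Ioi.1 hl).ne
  by_cases h1 : l = j
  · subst h1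
    rw [Function.update_self, Function.update_of_ne hil]
    have e : (θ l + 2 * Real.pi - θ i) / 2 = (θ l - θ i) / 2 + Real.pi := by ring
    rw [e, Real.sin_add_pi, mul_neg, abs_neg]
  · by_cases h2 : i = j
    · subst h2
      rw [Function.update_self, Function.update_of_ne h1]
      have e : (θ l - (θ i + 2 * Real.pi)) / 2 = (θ l - θ i) / 2 - Real.pi := by ring
      rw [e, Real.sin_sub_pi, mul_neg, abs_neg]
    · rw [Function.update_of_ne h1, Function.update_of_ne h2]

end COE
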