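import Pool.Agent.LibCOE.Defs
import Pool.Agent.LibCOE.CO_W1

/-! Row W2. Proof sketch:
`cube` is a product of finite measures. `ae_inj`: for i ≠ j the hyperplane {x i = x j} is null for volume (proper
subspace, `Measure.addHaar_submodule`, see Pool/Agent/LibQGr/R_GEN.lean `GEN_null` for the pattern) and cube = volume restricted to
a box (`Measure.restrict_pi_pi`), or by Fubini. `ae_dist`: inside (0, 2π]^N, sin ((θ j - θ i)/2) = 0 forces θ i = θ j
(|θ j - θ i| < 2π). `int_bdd`: a continuous function is bounded on [0, 2π]^N. `wt_int_pos`: wt >= 0, wt > 0 a.e.,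
cube ≠ 0 (N = 0: wt = 1). -/

open MeasureTheory Set Filter Topology

namespace COE

open QGr


theorem cube_fin (ι : Type) [Fintype ι] : IsFiniteMeasure (cube ι) := by
  unfold cube
  infer_instance

theorem W2_cube (ι : Type) [Fintype ι] : cube ι
    = (volume : Measure (ι → ℝ)).restrict (Set.univ.pi fun _ => Ioc 0 (2 * Real.pi)) := by
  rw [cube, volume_pi, Measure.restrict_pi_pi]

theorem W2_mem (ι : Type) [Fintype ι] :
    ∀ᵐ x ∂(cube ι), ∀ i, x i ∈ Ioc 0 (2 * Real.pi) := by
  rw [W2_cube]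
  have h := ae_restrict_mem (μ := (volume : Measure (ι → ℝ)))
    (s := Set.univ.pi fun _ => Ioc 0 (2 * Real.pi))
    (MeasurableSet.univ_pi fun _ => measurableSet_Ioc)
  filter_upwards [h] with x hx i
  exact hx i (Set.mem_univ i)

theorem W2_null {ι : Type} [Fintype ι] {i j : ι} (hij : i ≠ j) :
    (volume : Measure (ι → ℝ)) {x | x i = x j} = 0 := by
  classical
  obtain ⟨L, hL⟩ : ∃ L : (ι → ℝ) →ₗ[ℝ] ℝ, ∀ x, L x = x i - x j :=
    ⟨{ toFun := fun x => x i - x j
       map_add' := fun x y => by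
         simp only [Pi.add_apply]
         ring
       map_smul' := fun c x => by
         simp only [Pi.smul_apply, smul_eq_mul, RingHom.id_apply]
         ring }, fun x => rfl⟩
  have h1 := Measure.addHaar_submodule (volume : Measure (ι → ℝ)) (LinearMap.ker L) (by
      intro h
      have h2 : (Pi.single i 1 : ι → ℝ) ∈ LinearMap.ker L := by
        rw [h]
        exact Submodule.mem_top
      rw [LinearMap.mem_ker, hL, Pi.single_eq_same, Pi.single_eq_of_ne hij.symm] at h2
      norm_num at h2)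
  have h2 : {x : ι → ℝ | x i = x j}
      = ((LinearMap.ker L : Submodule ℝ (ι → ℝ)) : Set (ι → ℝ)) := by
    ext x
    rw [Set.mem_ofPred_eq, SetLike.mem_coe, LinearMap.mem_ker, hL, sub_eq_zero]
  rw [h2]
  exact h1

theorem ae_inj (ι : Type) [Fintype ι] : ∀ᵐ x ∂(cube ι), Function.Injective x := by
  rw [W2_cube]
  apply ae_restrict_of_ae
  have h : ∀ i j : ι, ∀ᵐ x ∂(volume : Measure (ι → ℝ)), x i = x j → i = j := by
    intro i j
    by_cases hij : i = j
    · exact Eventually.of_forall fun x _ => hij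
    · rw [ae_iff]
      have h1 : {x : ι → ℝ | ¬ (x i = x j → i = j)} = {x | x i = x j} := by
        ext x
        simp [hij]
      rw [h1]
      exact W2_null hij
  have h2 := ae_all_iff.2 fun i => ae_all_iff.2 (h i)
  filter_upwards [h2] with x hx i j hij
  exact hx i j hij

theorem ae_dist (N : ℕ) : ∀ᵐ θ ∂(cube (Fin N)), Dist θ := by
  filter_upwards [ae_inj (Fin N), W2_mem (Fin N)] with θ h1 h2 i j hij h3
  have h4 := h2 i
  have h5 := h2 j
  rw [Set.mem_Ioc] at h4 h5
  have h6 : (θ j - θ i) / 2 = 0 :=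
    (Real.sin_eq_zero_iff_of_lt_of_lt (by linarith) (by linarith)).1 h3
  apply hij
  apply h1
  linarith

theorem int_bdd {N : ℕ} (F : (Fin N → ℝ) → ℂ) (hF : Continuous F) :
    Integrable F (cube (Fin N)) := by
  rw [W2_cube]
  have h1 : IntegrableOn F (Set.univ.pi fun _ => Icc 0 (2 * Real.pi))
      (volume : Measure (Fin N → ℝ)) :=
    hF.continuousOn.integrableOn_compact (isCompact_univ_pi fun _ => isCompact_Icc)
  exact h1.mono_set (Set.pi_mono fun _ _ => Ioc_subset_Icc_self)

theorem wt_int_pos (N : ℕ) : 0 < ∫ θ, wt θ ∂(cube (Fin N)) := by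
  have h0 := cube_fin (Fin N)
  have h1 : Integrable (fun θ : Fin N → ℝ => wt θ) (cube (Fin N)) := by
    have h2 := int_bdd (fun θ : Fin N → ℝ => ((wt θ : ℝ) : ℂ))
      (Complex.continuous_ofReal.comp wt_cont)
    have h3 := h2.re
    exact h3
  rw [integral_pos_iff_support_of_nonneg (fun θ => wt_nonneg θ) h1]
  rw [pos_iff_ne_zero]
  intro h2
  have h3 : ∀ᵐ θ ∂(cube (Fin N)), wt θ = 0 := by
    rw [ae_iff]
    exact h2
  have h4 : ∀ᵐ θ ∂(cube (Fin N)), False := by
    filter_upwards [h3, ae_dist N] with θ h5 h6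
    have := wt_pos θ h6
    linarith
  have h5 : cube (Fin N) Set.univ = 0 := by
    rw [ae_iff] at h4
    have h6 : {a : Fin N → ℝ | ¬ False} = Set.univ := by
      ext x
      simp
    rw [h6] at h4
    exact h4
  rw [cube, Measure.pi_univ] at h5
  rw [Finset.prod_eq_zero_iff] at h5
  obtain ⟨i, _, hi⟩ := h5
  rw [Measure.restrict_apply MeasurableSet.univ, Set.univ_inter, Real.volume_Ioc, sub_zero,
    ENNReal.ofReal_eq_zero] at hi
  have := Real.pi_pos
  linarith

end COE
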