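import Pool.Agent.LibCOE.Defs
import Pool.Agent.LibCOE.CO_W1
import Pool.Agent.LibCOE.CO_W2

/-! Row C3. Proof sketch:
zero_of: the real integral ∫ wt |h|^2 = 0 with continuous nonnegative integrand, hence h = 0 a.e. on the cube
(wt > 0 a.e.), hence h = 0 on the open cube (0, 2π)^N by continuity (cube is positive on open subsets of the open cube), then on
[0, 2π)^N by closure and everywhere by periodicity (reduce each coordinate mod 2π; Per.per gives G(update θ j (θ j + 2π)) = G θ,
iterate, e.g. show h (θ) = h (fun j => toIcoMod ..)). const_of: the same for each continuous h' j (periodic? use: h' j is the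
derivative of a periodic function, so it is periodic too: differentiate Per.per), so all h' j = 0 everywhere and h is constant
(along coordinate segments, `is_const_of_deriv_eq_zero`, change the coordinates of θ to 0 one after the other). -/

open MeasureTheory Set Filter Topology

namespace COE

open QGr


theorem C3_shift {N : ℕ} {g : (Fin N → ℝ) → ℝ}
    (hper : ∀ θ j, g (Function.update θ j (θ j + 2 * Real.pi)) = g θ) (θ : Fin N → ℝ)
    (j : Fin N) : Function.Periodic (fun t => g (Function.update θ j t)) (2 * Real.pi) := by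
  intro t
  have h := hper (Function.update θ j t) j
  simpa using h

theorem C3_zero {N : ℕ} {g : (Fin N → ℝ) → ℝ} (hc : Continuous g) (h0 : ∀ θ, 0 ≤ g θ)
    (hper : ∀ θ j, g (Function.update θ j (θ j + 2 * Real.pi)) = g θ)
    (hint : ∫ θ, wt θ * g θ ∂(cube (Fin N)) = 0) : ∀ θ, g θ = 0 := by
  have := cube_fin (Fin N)
  have hi : Integrable (fun θ => wt θ * g θ) (cube (Fin N)) := by
    have h1 := int_bdd (fun θ : Fin N → ℝ => ((wt θ * g θ : ℝ) : ℂ))
      (Complex.continuous_ofReal.comp (wt_cont.mul hc))
    exact h1.re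
  have h1 : (fun θ => wt θ * g θ) =ᵐ[cube (Fin N)] 0 :=
    (integral_eq_zero_iff_of_nonneg (fun θ => mul_nonneg (wt_nonneg θ) (h0 θ)) hi).1 hint
  have h2 : g =ᵐ[cube (Fin N)] (fun _ => 0) := by
    filter_upwards [h1, ae_dist N] with θ hθ hd
    have h3 : wt θ * g θ = 0 := hθ
    rcases mul_eq_zero.1 h3 with h | h
    · exact absurd h (wt_pos θ hd).ne'
    · exact h
  have hcube : cube (Fin N) = (volume : Measure (Fin N → ℝ)).restrict
      (Set.pi Set.univ fun _ => Ioc 0 (2 * Real.pi)) := by
    rw [cube, volume_pi, Measure.restrict_pi_pi]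
  have h3 : g =ᵐ[(volume : Measure (Fin N → ℝ)).restrict
      (Set.pi Set.univ fun _ => Ioo 0 (2 * Real.pi))] (fun _ => 0) := by
    rw [hcube] at h2
    refine ae_restrict_of_ae_restrict_of_subset ?_ h2
    exact Set.pi_mono fun _ _ => Ioo_subset_Ioc_self
  have h4 : EqOn g (fun _ => 0) (Set.pi Set.univ fun _ : Fin N => Ioo 0 (2 * Real.pi)) :=
    Measure.eqOn_open_of_ae_eq h3 (isOpen_set_pi Set.finite_univ fun _ _ => isOpen_Ioo)
      hc.continuousOn continuousOn_const
  have h5 := h4.closure hc continuous_const
  have hpi : (0 : ℝ) < 2 * Real.pi := by positivity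
  rw [closure_pi_set] at h5
  have key : ∀ s : Finset (Fin N), ∀ θ : Fin N → ℝ,
      (∀ j, j ∉ s → θ j ∈ Ico 0 (2 * Real.pi)) → g θ = 0 := by
    intro s
    induction s using Finset.induction with
    | empty =>
      intro θ hθ
      refine h5 ?_
      intro j _
      rw [closure_Ioo hpi.ne]
      exact Ico_subset_Icc_self (hθ j (by simp))
    | insert a s ha ih =>
      intro θ hθ
      have h6 : g (Function.update θ a (toIcoMod hpi 0 (θ a))) = g θ := by
        have h7 := (C3_shift hper θ a).sub_zsmul_eq (x := θ a) (toIcoDiv hpi 0 (θ a))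
        simp only [Function.update_eq_self] at h7
        exact h7
      rw [← h6]
      refine ih _ fun j hj => ?_
      rcases eq_or_ne j a with rfl | hja
      · rw [Function.update_self]
        have h8 := toIcoMod_mem_Ico hpi 0 (θ j)
        rw [zero_add] at h8
        exact h8
      · rw [Function.update_of_ne hja]
        exact hθ j (by simp [hja, hj])
  intro θ
  exact key Finset.univ θ (by simp)

theorem C3_int {N : ℕ} (g : (Fin N → ℝ) → ℝ)
    (h0 : ∫ θ, (wt θ : ℂ) * ((g θ : ℝ) : ℂ) ∂(cube (Fin N)) = 0) :
    ∫ θ, wt θ * g θ ∂(cube (Fin N)) = 0 := by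
  have h1 : ∫ θ, ((wt θ * g θ : ℝ) : ℂ) ∂(cube (Fin N)) = 0 := by
    rw [← h0]
    refine integral_congr_ae (ae_of_all _ fun θ => ?_)
    push_cast
    ring
  rw [integral_complex_ofReal] at h1
  exact_mod_cast h1

theorem zero_of {N : ℕ} {h : (Fin N → ℝ) → ℂ} {h' : Fin N → (Fin N → ℝ) → ℂ} (hh : Per h h')
    (h0 : ∫ θ, (wt θ : ℂ) * (h θ * (starRingEnd ℂ) (h θ)) ∂(cube (Fin N)) = 0) : h = 0 := by
  have h1 : ∀ θ, Complex.normSq (h θ) = 0 := by
    refine C3_zero (g := fun θ => Complex.normSq (h θ)) (Complex.continuous_normSq.comp hh.cont)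
      (fun θ => Complex.normSq_nonneg _) (fun θ j => ?_) (C3_int _ ?_)
    · simp only [hh.per θ j]
    · rw [← h0]
      refine integral_congr_ae (ae_of_all _ fun θ => ?_)
      simp only [Complex.mul_conj]
  funext θ
  exact Complex.normSq_eq_zero.1 (h1 θ)

theorem C3_per {N : ℕ} {h : (Fin N → ℝ) → ℂ} {h' : Fin N → (Fin N → ℝ) → ℂ} (hh : Per h h')
    (j : Fin N) (θ : Fin N → ℝ) (i : Fin N) :
    h' j (Function.update θ i (θ i + 2 * Real.pi)) = h' j θ := by
  have h1 := hh.der θ j
  have h2 := hh.der (Function.update θ i (θ i + 2 * Real.pi)) j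
  rcases eq_or_ne j i with rfl | hji
  · simp only [Function.update_idem, Function.update_self] at h2
    have h3 : HasDerivAt (fun t => h (Function.update θ j (t + 2 * Real.pi)))
        (h' j (Function.update θ j (θ j + 2 * Real.pi))) (θ j) :=
      HasDerivAt.comp_add_const (θ j) (2 * Real.pi) h2
    have h4 : (fun t => h (Function.update θ j (t + 2 * Real.pi)))
        = fun t => h (Function.update θ j t) := by
      funext t
      have h5 := hh.per (Function.update θ j t) j
      simpa using h5
    rw [h4] at h3
    exact h3.unique h1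
  · rw [Function.update_of_ne hji] at h2
    have h4 : (fun t => h (Function.update (Function.update θ i (θ i + 2 * Real.pi)) j t))
        = fun t => h (Function.update θ j t) := by
      funext t
      have h5 := hh.per (Function.update θ j t) i
      rw [Function.update_of_ne (Ne.symm hji)] at h5
      rw [← h5, Function.update_comm hji]
    rw [h4] at h2
    exact h2.unique h1

theorem const_of {N : ℕ} {h : (Fin N → ℝ) → ℂ} {h' : Fin N → (Fin N → ℝ) → ℂ} (hh : Per h h')
    (h0 : ∫ θ, (wt θ : ℂ) * ∑ j, h' j θ * (starRingEnd ℂ) (h' j θ) ∂(cube (Fin N)) = 0) :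
    ∀ θ, h θ = h 0 := by
  have h1 : ∀ θ, ∑ j, Complex.normSq (h' j θ) = 0 := by
    refine C3_zero (g := fun θ => ∑ j, Complex.normSq (h' j θ))
      (continuous_finsetSum _ fun j _ => Complex.continuous_normSq.comp (hh.cont' j))
      (fun θ => Finset.sum_nonneg fun j _ => Complex.normSq_nonneg _) (fun θ i => ?_)
      (C3_int _ ?_)
    · simp only [C3_per hh _ θ i]
    · rw [← h0]
      refine integral_congr_ae (ae_of_all _ fun θ => ?_)
      simp only [Complex.mul_conj]
      push_cast
      rfl
  have h2 : ∀ j θ, h' j θ = 0 := by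
    intro j θ
    have h3 := (Finset.sum_eq_zero_iff_of_nonneg fun j _ => Complex.normSq_nonneg (h' j θ)).1
      (h1 θ) j (Finset.mem_univ j)
    exact Complex.normSq_eq_zero.1 h3
  have h3 : ∀ (θ : Fin N → ℝ) (j : Fin N) (t : ℝ),
      HasDerivAt (fun t => h (Function.update θ j t)) 0 t := by
    intro θ j t
    have h4 := hh.der (Function.update θ j t) j
    rw [h2] at h4
    simpa using h4
  have key : ∀ s : Finset (Fin N), ∀ θ : Fin N → ℝ, (∀ j, j ∉ s → θ j = 0) → h θ = h 0 := by
    intro s
    induction s using Finset.induction with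
    | empty =>
      intro θ hθ
      have : θ = 0 := by
        funext j
        exact hθ j (by simp)
      rw [this]
    | insert a s ha ih =>
      intro θ hθ
      have h5 : h (Function.update θ a (θ a)) = h (Function.update θ a 0) :=
        is_const_of_deriv_eq_zero (fun t => (h3 θ a t).differentiableAt)
          (fun t => (h3 θ a t).deriv) (θ a) 0
      rw [Function.update_eq_self] at h5
      rw [h5]
      refine ih _ fun j hj => ?_
      rcases eq_or_ne j a with rfl | hja
      · rw [Function.update_self]
      · rw [Function.update_of_ne hja]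
        exact hθ j (by simp [hja, hj])
  intro θ
  exact key Finset.univ θ (by simp)

end COE
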