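import Pool.Agent.LibCOE.Defs
import Pool.Agent.LibCOE.CO_C3
import Pool.Agent.LibCOE.CO_W1
import Pool.Agent.LibCOE.CO_W2

/-! Row C4. Proof sketch:
Positive form B(q,g) = ∫ wt q conj g on V (q, g in V are continuous by hV, so everything is integrable: int_bdd). Suppose
x ∈ V, x ∉ W. Either build an InnerProductSpace.Core on V and use Submodule.orthogonal_eq_bot_iff, or: the ℝ-linear map
J : V → Dual ℂ V, g ↦ (q ↦ B(q, g)) is injective by zero_of, so surjective by dimension
(`LinearMap.injective_iff_surjective_of_finrank_eq_finrank` over ℝ); a functional on V that vanishes on W and not at x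
(`Submodule.exists_le_ker_of_notMem` / `Submodule.exists_dual_map_eq_bot..`) is J g for some g ≠ 0 with B(q,g) = 0 for all q ∈ W:
contradiction with h. -/

open MeasureTheory Set Filter Topology

namespace COE

open QGr


theorem C4_abs (V : Type) [AddCommGroup V] [Module ℂ V] [FiniteDimensional ℂ V]
    (c : InnerProductSpace.Core ℂ V) (W : Submodule ℂ V)
    (h : ∀ g, (∀ q ∈ W, c.inner g q = 0) → g = 0) : W = ⊤ := by
  let _ : NormedAddCommGroup V := c.toNormedAddCommGroup
  let _ : InnerProductSpace ℂ V := InnerProductSpace.ofCore c.toCore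
  rw [← Submodule.orthogonal_eq_bot_iff, Submodule.eq_bot_iff]
  intro g hg
  refine h g fun q hq => ?_
  exact Submodule.inner_left_of_mem_orthogonal hq hg

theorem C4_wt_nonneg {N : ℕ} (θ : Fin N → ℝ) : 0 ≤ wt θ := by
  unfold wt
  exact Finset.prod_nonneg fun i _ => Finset.prod_nonneg fun j _ => abs_nonneg _

theorem lin_alg {N : ℕ} (V W : Submodule ℂ ((Fin N → ℝ) → ℂ)) [FiniteDimensional ℂ V]
    (hWV : W ≤ V) (hV : ∀ g ∈ V, ∃ G', Per g G')
    (h : ∀ g ∈ V, (∀ q ∈ W,
      ∫ θ, (wt θ : ℂ) * (q θ * (starRingEnd ℂ) (g θ)) ∂(cube (Fin N)) = 0) → g = 0) : V ≤ W := by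
  have hwt : Continuous fun θ : Fin N → ℝ => (wt θ : ℂ) := Complex.continuous_ofReal.comp wt_cont
  have hcV : ∀ g : V, Continuous (g : (Fin N → ℝ) → ℂ) := by
    intro g
    obtain ⟨G', hG⟩ := hV g.1 g.2
    exact hG.cont
  have hint : ∀ q g : V, Integrable (fun θ => (wt θ : ℂ) * ((q : (Fin N → ℝ) → ℂ) θ *
      (starRingEnd ℂ) ((g : (Fin N → ℝ) → ℂ) θ))) (cube (Fin N)) := by
    intro q g
    exact int_bdd _ (hwt.mul ((hcV q).mul (Complex.continuous_conj.comp (hcV g))))
  let c : InnerProductSpace.Core ℂ V :=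
    { inner := fun g q => ∫ θ, (wt θ : ℂ) * ((q : (Fin N → ℝ) → ℂ) θ *
        (starRingEnd ℂ) ((g : (Fin N → ℝ) → ℂ) θ)) ∂(cube (Fin N))
      conj_inner_symm := by
        intro x y
        show (starRingEnd ℂ) (∫ θ, (wt θ : ℂ) * ((x : (Fin N → ℝ) → ℂ) θ *
          (starRingEnd ℂ) ((y : (Fin N → ℝ) → ℂ) θ)) ∂(cube (Fin N))) = _
        rw [← integral_conj]
        refine integral_congr_ae (Filter.Eventually.of_forall fun θ => ?_)
        simp only [map_mul, Complex.conj_ofReal, Complex.conj_conj]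
        ring
      re_inner_nonneg := by
        intro x
        have h1 : (∫ θ, (wt θ : ℂ) * ((x : (Fin N → ℝ) → ℂ) θ *
            (starRingEnd ℂ) ((x : (Fin N → ℝ) → ℂ) θ)) ∂(cube (Fin N)))
            = ((∫ θ, wt θ * Complex.normSq ((x : (Fin N → ℝ) → ℂ) θ) ∂(cube (Fin N)) : ℝ) : ℂ) := by
          rw [← integral_complex_ofReal]
          refine integral_congr_ae (Filter.Eventually.of_forall fun θ => ?_)
          simp only [Complex.mul_conj]
          push_cast
          rfl
        show 0 ≤ RCLike.re (∫ θ, (wt θ : ℂ) * ((x : (Fin N → ℝ) → ℂ) θ *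
            (starRingEnd ℂ) ((x : (Fin N → ℝ) → ℂ) θ)) ∂(cube (Fin N)))
        rw [h1]
        have h2 : RCLike.re ((∫ θ, wt θ * Complex.normSq ((x : (Fin N → ℝ) → ℂ) θ)
            ∂(cube (Fin N)) : ℝ) : ℂ) = ∫ θ, wt θ * Complex.normSq ((x : (Fin N → ℝ) → ℂ) θ)
            ∂(cube (Fin N)) := RCLike.ofReal_re _
        rw [h2]
        exact integral_nonneg fun θ => mul_nonneg (C4_wt_nonneg θ) (Complex.normSq_nonneg _)
      add_left := by
        intro x y z
        show (∫ θ, (wt θ : ℂ) * ((z : (Fin N → ℝ) → ℂ) θ *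
            (starRingEnd ℂ) (((x + y : V) : (Fin N → ℝ) → ℂ) θ)) ∂(cube (Fin N))) =
            (∫ θ, (wt θ : ℂ) * ((z : (Fin N → ℝ) → ℂ) θ *
            (starRingEnd ℂ) ((x : (Fin N → ℝ) → ℂ) θ)) ∂(cube (Fin N))) +
            (∫ θ, (wt θ : ℂ) * ((z : (Fin N → ℝ) → ℂ) θ *
            (starRingEnd ℂ) ((y : (Fin N → ℝ) → ℂ) θ)) ∂(cube (Fin N)))
        rw [← integral_add (hint z x) (hint z y)]
        refine integral_congr_ae (Filter.Eventually.of_forall fun θ => ?_)
        have h1 : ((x + y : V) : (Fin N → ℝ) → ℂ) θ = (x : (Fin N → ℝ) → ℂ) θ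
            + (y : (Fin N → ℝ) → ℂ) θ := rfl
        simp only [h1, map_add]
        ring
      smul_left := by
        intro x y r
        show (∫ θ, (wt θ : ℂ) * ((y : (Fin N → ℝ) → ℂ) θ *
            (starRingEnd ℂ) (((r • x : V) : (Fin N → ℝ) → ℂ) θ)) ∂(cube (Fin N))) =
            (starRingEnd ℂ) r * (∫ θ, (wt θ : ℂ) * ((y : (Fin N → ℝ) → ℂ) θ *
            (starRingEnd ℂ) ((x : (Fin N → ℝ) → ℂ) θ)) ∂(cube (Fin N)))
        rw [← integral_const_mul]
        refine integral_congr_ae (Filter.Eventually.of_forall fun θ => ?_)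
        have h1 : ((r • x : V) : (Fin N → ℝ) → ℂ) θ = r * (x : (Fin N → ℝ) → ℂ) θ := rfl
        simp only [h1, map_mul]
        ring
      definite := by
        intro x hx
        obtain ⟨G', hG⟩ := hV x.1 x.2
        exact Subtype.ext (zero_of hG hx) }
  have htop := C4_abs V c (W.comap V.subtype) (by
    intro g hg
    have h1 : (g : (Fin N → ℝ) → ℂ) = 0 := by
      refine h g.1 g.2 fun q hq => ?_
      exact hg ⟨q, hWV hq⟩ hq
    exact Subtype.ext h1)
  intro x hx
  have h1 : (⟨x, hx⟩ : V) ∈ W.comap V.subtype := by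
    rw [htop]
    exact Submodule.mem_top
  exact h1

end COE
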