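import Pool.Agent.LibCOE.Defs

/-! Row W3. Proof sketch:
|wt θ * ct (θ j - θ l)| <= 2^(N*N): the factor |2 sin (x/2)| of the pair {j, l} times |cos (x/2) / (2 sin (x/2))| is at
most 1 (also when sin = 0, since x / 0 = 0), the other factors are at most 2; then sum over l. Take the factor out of the double
product by `Finset.mul_prod_erase` twice (case j < l and l < j), or bound by induction-free: write wt θ = |2 sin(..)| * rest,
0 <= rest <= 2^(N*N). `lw_meas`: finite sum of measurable functions (`fun_prop`/`measurability`). -/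

open MeasureTheory Set Filter Topology

namespace COE

open QGr

theorem W3_ct (x : ℝ) : |2 * Real.sin (x / 2)| * |ct x| ≤ 1 := by
  unfold ct
  by_cases h : Real.sin (x / 2) = 0
  · rw [h]
    simp
  · have h1 : |2 * Real.sin (x / 2)| ≠ 0 := by simpa using h
    rw [abs_div]
    have h2 : |2 * Real.sin (x / 2)| * (|Real.cos (x / 2)| / |2 * Real.sin (x / 2)|) =
        |Real.cos (x / 2)| := by field_simp
    rw [h2]
    exact Real.abs_cos_le_one _

theorem W3_odd (x : ℝ) : |ct (-x)| = |ct x| := by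
  unfold ct
  rw [neg_div, Real.cos_neg, Real.sin_neg, mul_neg, div_neg, abs_neg]

theorem W3_wt {N : ℕ} (θ : Fin N → ℝ) {a b : Fin N} (hab : a < b) :
    ∃ r : ℝ, 0 ≤ r ∧ r ≤ 2 ^ (N * N) ∧ wt θ = |2 * Real.sin ((θ b - θ a) / 2)| * r := by
  classical
  unfold wt
  rw [Finset.prod_sigma']
  have hm : (⟨a, b⟩ : Σ _ : Fin N, Fin N) ∈
      Finset.univ.sigma fun i : Fin N => Finset.Ioi i := by simp [hab]
  refine ⟨∏ p ∈ (Finset.univ.sigma fun i : Fin N => Finset.Ioi i).erase ⟨a, b⟩,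
    |2 * Real.sin ((θ p.2 - θ p.1) / 2)|, Finset.prod_nonneg fun _ _ => abs_nonneg _, ?_,
    (Finset.mul_prod_erase _ _ hm).symm⟩
  refine (Finset.prod_le_prod (g := fun _ => (2 : ℝ)) (fun _ _ => abs_nonneg _)
    fun p _ => ?_).trans ?_
  · rw [abs_mul, abs_of_pos two_pos]
    have := Real.abs_sin_le_one ((θ p.2 - θ p.1) / 2)
    linarith
  · rw [Finset.prod_const]
    exact pow_le_pow_right₀ one_le_two ((Finset.card_le_univ _).trans (by simp))

theorem wt_lw_le {N : ℕ} (θ : Fin N → ℝ) (j : Fin N) : |wt θ * lw θ j| ≤ N * 2 ^ (N * N) := by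
  classical
  unfold lw
  rw [Finset.mul_sum]
  refine (Finset.abs_sum_le_sum_abs _ _).trans ?_
  have key : ∀ x r : ℝ, 0 ≤ r → r ≤ 2 ^ (N * N) →
      |(|2 * Real.sin (x / 2)| * r) * ct x| ≤ 2 ^ (N * N) := by
    intro x r h0 h2
    rw [abs_mul, abs_mul, abs_abs, abs_of_nonneg h0]
    calc |2 * Real.sin (x / 2)| * r * |ct x| = (|2 * Real.sin (x / 2)| * |ct x|) * r := by ring
      _ ≤ 1 * r := mul_le_mul_of_nonneg_right (W3_ct x) h0
      _ ≤ 2 ^ (N * N) := by rw [one_mul]; exact h2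
  have h1 : ∀ l ∈ Finset.univ.erase j, |wt θ * ct (θ j - θ l)| ≤ 2 ^ (N * N) := by
    intro l hl
    rcases lt_or_gt_of_ne (Finset.ne_of_mem_erase hl) with h | h
    · obtain ⟨r, h0, h2, hw⟩ := W3_wt θ h
      rw [hw]
      exact key _ r h0 h2
    · obtain ⟨r, h0, h2, hw⟩ := W3_wt θ h
      rw [hw, abs_mul, ← neg_sub (θ l) (θ j), W3_odd, ← abs_mul]
      exact key _ r h0 h2
  refine (Finset.sum_le_card_nsmul _ _ _ h1).trans ?_
  rw [nsmul_eq_mul]
  have h3 : ((Finset.univ.erase j).card : ℝ) ≤ N := by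
    exact_mod_cast (Finset.card_le_univ _).trans (by simp)
  exact mul_le_mul_of_nonneg_right h3 (by positivity)

theorem lw_meas {N : ℕ} (j : Fin N) : Measurable fun θ : Fin N → ℝ => lw θ j := by
  unfold lw ct
  fun_prop

end COE
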