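import Pool.Agent.LibCOE.Defs

/-! Row W4. Proof sketch:
Along `Function.update θ j t` only the factors of the pairs {j, l} move. For l ≠ j, x = t - θ l near θ j - θ l with
sin ≠ 0: d/dt |2 sin (x/2)| = |2 sin (x/2)| * ct x (sign constant near the point: |s| = s or -s, `HasDerivAt.abs`-like lemmas or
`hasDerivAt_abs`). Then the derivative of a finite product: `HasDerivAt.finset_prod` or logarithmic: prove by writing
wt (update θ j t) = C * ∏_{l ≠ j} |2 sin ((t - θ l)/2)| with C independent of t (note |sin| is even), and induct over the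
finite set of l. -/

open MeasureTheory Set Filter Topology

namespace COE

open QGr

theorem W4_abs (c x : ℝ) (h : Real.sin ((x - c) / 2) ≠ 0) :
    HasDerivAt (fun t => |2 * Real.sin ((t - c) / 2)|)
      (|2 * Real.sin ((x - c) / 2)| * ct (x - c)) x := by
  have h1 : HasDerivAt (fun t : ℝ => (t - c) / 2) (1 / 2) x :=
    ((hasDerivAt_id x).sub_const c).div_const 2
  have h2 : HasDerivAt (fun t : ℝ => 2 * Real.sin ((t - c) / 2))
      (2 * (Real.cos ((x - c) / 2) * (1 / 2))) x := (h1.sin).const_mul 2
  have h3 : (2 * Real.sin ((x - c) / 2)) ≠ 0 := mul_ne_zero two_ne_zero h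
  have h4 := (hasDerivAt_abs h3).comp x h2
  refine h4.congr_deriv ?_
  have h5 : |2 * Real.sin ((x - c) / 2)|
      = (SignType.sign (2 * Real.sin ((x - c) / 2)) : ℝ) * (2 * Real.sin ((x - c) / 2)) :=
    (sign_mul_self _).symm
  rw [h5, ct]
  field_simp

theorem W4_prod {ι : Type} (s : Finset ι) (f : ι → ℝ → ℝ) (c : ι → ℝ) (x : ℝ)
    (h : ∀ i ∈ s, HasDerivAt (f i) (f i x * c i) x) :
    HasDerivAt (fun t => ∏ i ∈ s, f i t) ((∏ i ∈ s, f i x) * ∑ i ∈ s, c i) x := by
  classical
  induction s using Finset.induction_on with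
  | empty =>
    have h0 : HasDerivAt (fun _ : ℝ => (1 : ℝ)) 0 x := hasDerivAt_const x 1
    simpa using h0
  | insert a s ha ih =>
    have h1 := h a (Finset.mem_insert_self a s)
    have h2 := ih fun i hi => h i (Finset.mem_insert_of_mem hi)
    have h3 := h1.mul h2
    have h4 : (fun t => ∏ i ∈ insert a s, f i t) = fun t => f a t * ∏ i ∈ s, f i t := by
      funext t
      exact Finset.prod_insert ha
    rw [h4, Finset.prod_insert ha, Finset.sum_insert ha]
    refine h3.congr_deriv ?_
    ring

/-- the logarithmic derivatives of the factors -/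
noncomputable def W4_c {N : ℕ} (θ : Fin N → ℝ) (j i l : Fin N) : ℝ :=
  if i = j then ct (θ j - θ l) else if l = j then ct (θ j - θ i) else 0

theorem W4_factor {N : ℕ} (θ : Fin N → ℝ) (j : Fin N)
    (h : ∀ l, l ≠ j → Real.sin ((θ l - θ j) / 2) ≠ 0) (i l : Fin N) (hil : i < l) :
    HasDerivAt (fun t => |2 * Real.sin ((Function.update θ j t l - Function.update θ j t i) / 2)|)
      (|2 * Real.sin ((Function.update θ j (θ j) l - Function.update θ j (θ j) i) / 2)|
        * W4_c θ j i l) (θ j) := by
  have hodd : ∀ a b : ℝ, |2 * Real.sin ((a - b) / 2)| = |2 * Real.sin ((b - a) / 2)| := by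
    intro a b
    have e : (a - b) / 2 = -((b - a) / 2) := by ring
    rw [e, Real.sin_neg, mul_neg, abs_neg]
  by_cases hi : i = j
  · subst hi
    have hl : l ≠ i := ne_of_gt hil
    have hs : Real.sin ((θ i - θ l) / 2) ≠ 0 := by
      have e : (θ i - θ l) / 2 = -((θ l - θ i) / 2) := by ring
      rw [e, Real.sin_neg]
      exact neg_ne_zero.2 (h l hl)
    have h1 := W4_abs (θ l) (θ i) hs
    have e1 : (fun t => |2 * Real.sin ((Function.update θ i t l - Function.update θ i t i) / 2)|)
        = fun t => |2 * Real.sin ((t - θ l) / 2)| := by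
      funext t
      rw [Function.update_of_ne hl, Function.update_self, hodd]
    rw [e1, Function.update_eq_self, W4_c, if_pos rfl, hodd (θ l) (θ i)]
    exact h1
  · by_cases hl : l = j
    · subst hl
      have hs : Real.sin ((θ l - θ i) / 2) ≠ 0 := by
        have e : (θ l - θ i) / 2 = -((θ i - θ l) / 2) := by ring
        rw [e, Real.sin_neg]
        exact neg_ne_zero.2 (h i hi)
      have h1 := W4_abs (θ i) (θ l) hs
      have e1 : (fun t => |2 * Real.sin ((Function.update θ l t l - Function.update θ l t i) / 2)|)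
          = fun t => |2 * Real.sin ((t - θ i) / 2)| := by
        funext t
        rw [Function.update_of_ne hi, Function.update_self]
      rw [e1, Function.update_eq_self, W4_c, if_neg hi, if_pos rfl]
      exact h1
    · have e1 : (fun t => |2 * Real.sin ((Function.update θ j t l - Function.update θ j t i) / 2)|)
          = fun _ => |2 * Real.sin ((θ l - θ i) / 2)| := by
        funext t
        rw [Function.update_of_ne hi, Function.update_of_ne hl]
      rw [e1, Function.update_eq_self, W4_c, if_neg hi, if_neg hl, mul_zero]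
      exact hasDerivAt_const _ _

theorem W4_sum {N : ℕ} (θ : Fin N → ℝ) (j : Fin N) :
    ∑ i, ∑ l ∈ Finset.Ioi i, W4_c θ j i l = lw θ j := by
  have h1 : ∀ i : Fin N, ∑ l ∈ Finset.Ioi i, W4_c θ j i l
      = (if i = j then ∑ l ∈ Finset.Ioi j, ct (θ j - θ l) else 0)
        + (if i ∈ Finset.Iio j then ct (θ j - θ i) else 0) := by
    intro i
    by_cases hi : i = j
    · subst hi
      rw [if_pos rfl, if_neg (by simp), add_zero]
      refine Finset.sum_congr rfl fun l _ => ?_
      rw [W4_c, if_pos rfl]
    · rw [if_neg hi, zero_add]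
      have h2 : ∀ l ∈ Finset.Ioi i, W4_c θ j i l = if l = j then ct (θ j - θ i) else 0 := by
        intro l _
        rw [W4_c, if_neg hi]
      rw [Finset.sum_congr rfl h2, Finset.sum_ite_eq']
      by_cases hij : i < j
      · rw [if_pos (Finset.mem_Ioi.2 hij), if_pos (Finset.mem_Iio.2 hij)]
      · rw [if_neg (fun h => hij (Finset.mem_Ioi.1 h)), if_neg (fun h => hij (Finset.mem_Iio.1 h))]
  rw [Finset.sum_congr rfl fun i _ => h1 i, Finset.sum_add_distrib, Finset.sum_ite_eq',
    if_pos (Finset.mem_univ j), Finset.sum_ite_mem, Finset.univ_inter, lw]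
  have h3 : (Finset.univ : Finset (Fin N)).erase j = Finset.Ioi j ∪ Finset.Iio j := by
    ext l
    simp only [Finset.mem_erase, Finset.mem_univ, and_true, Finset.mem_union, Finset.mem_Ioi,
      Finset.mem_Iio]
    constructor
    · intro h
      exact (lt_or_gt_of_ne h).symm
    · rintro (h | h)
      · exact ne_of_gt h
      · exact ne_of_lt h
  have h4 : Disjoint (Finset.Ioi j) (Finset.Iio j) := by
    rw [Finset.disjoint_left]
    intro l hl hl'
    exact lt_asymm (Finset.mem_Ioi.1 hl) (Finset.mem_Iio.1 hl')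
  rw [h3, Finset.sum_union h4]

theorem wt_deriv {N : ℕ} (θ : Fin N → ℝ) (j : Fin N)
    (h : ∀ l, l ≠ j → Real.sin ((θ l - θ j) / 2) ≠ 0) :
    HasDerivAt (fun t => wt (Function.update θ j t)) (wt θ * lw θ j) (θ j) := by
  have h1 : ∀ i ∈ (Finset.univ : Finset (Fin N)), HasDerivAt
      (fun t => ∏ l ∈ Finset.Ioi i,
        |2 * Real.sin ((Function.update θ j t l - Function.update θ j t i) / 2)|)
      ((∏ l ∈ Finset.Ioi i,
        |2 * Real.sin ((Function.update θ j (θ j) l - Function.update θ j (θ j) i) / 2)|)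
        * ∑ l ∈ Finset.Ioi i, W4_c θ j i l) (θ j) := by
    intro i _
    exact W4_prod (Finset.Ioi i)
      (fun l t => |2 * Real.sin ((Function.update θ j t l - Function.update θ j t i) / 2)|)
      (fun l => W4_c θ j i l) (θ j)
      fun l hl => W4_factor θ j h i l (Finset.mem_Ioi.1 hl)
  have h2 := W4_prod Finset.univ (fun i t => ∏ l ∈ Finset.Ioi i,
    |2 * Real.sin ((Function.update θ j t l - Function.update θ j t i) / 2)|)
    (fun i => ∑ l ∈ Finset.Ioi i, W4_c θ j i l) (θ j) h1
  rw [W4_sum] at h2
  have h3 : wt θ = ∏ i, ∏ l ∈ Finset.Ioi i,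
      |2 * Real.sin ((Function.update θ j (θ j) l - Function.update θ j (θ j) i) / 2)| := by
    rw [Function.update_eq_self]
    rfl
  rw [h3]
  exact h2

end COE
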