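import Pool.Agent.LibCOE.Defs
import Pool.Agent.LibCOE.CO_W1
import Pool.Agent.LibCOE.CO_W2
import Pool.Agent.LibCOE.CO_W3
import Pool.Agent.LibCOE.CO_W4

/-! Row W5. -/

open MeasureTheory Set Filter Topology

namespace COE

open QGr


theorem W5_int {ι : Type} [Fintype ι] (f : (ι → ℝ) → ℂ) (hf : Continuous f) :
    Integrable f (cube ι) := by
  have h1 : cube ι = volume.restrict (Set.pi univ fun _ : ι => Ioc (0 : ℝ) (2 * Real.pi)) := by
    unfold cube
    rw [volume_pi, Measure.restrict_pi_pi]
  rw [h1]
  have h2 : IntegrableOn f (Icc (fun _ : ι => (0 : ℝ)) fun _ => 2 * Real.pi) volume :=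
    hf.continuousOn.integrableOn_compact isCompact_Icc
  refine h2.mono_set ?_
  intro x hx
  rw [Set.mem_pi] at hx
  exact ⟨fun i => (hx i (mem_univ i)).1.le, fun i => (hx i (mem_univ i)).2⟩

theorem W5_count (a : ℝ) : {t : ℝ | Real.sin ((a - t) / 2) = 0}.Countable := by
  have h : {t : ℝ | Real.sin ((a - t) / 2) = 0} ⊆ range fun n : ℤ => a - 2 * (n * Real.pi) := by
    intro t ht
    obtain ⟨n, hn⟩ := Real.sin_eq_zero_iff.1 ht
    exact ⟨n, by simp only; linarith⟩
  exact (countable_range _).mono h

/-- The integrand. -/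
noncomputable def W5_K {N : ℕ} (G : (Fin N → ℝ) → ℂ) (G' : Fin N → (Fin N → ℝ) → ℂ) (j : Fin N)
    (θ : Fin N → ℝ) : ℂ :=
  (wt θ : ℂ) * G' j θ + ((wt θ * lw θ j : ℝ) : ℂ) * G θ

theorem W5_Kint {N : ℕ} {G : (Fin N → ℝ) → ℂ} {G' : Fin N → (Fin N → ℝ) → ℂ} (h : Per G G')
    (j : Fin N) : Integrable (W5_K G G' j) (cube (Fin N)) := by
  have h1 : Integrable (fun θ : Fin N → ℝ => (wt θ : ℂ) * G' j θ) (cube (Fin N)) :=
    W5_int _ ((Complex.continuous_ofReal.comp wt_cont).mul (h.cont' j))
  have h2 : Integrable (fun θ : Fin N → ℝ => ((wt θ * lw θ j : ℝ) : ℂ) * G θ) (cube (Fin N)) := by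
    refine Integrable.bdd_mul (c := N * 2 ^ (N * N)) (W5_int _ h.cont) ?_ ?_
    · exact (Complex.measurable_ofReal.comp
        (wt_cont.measurable.mul (lw_meas j))).aestronglyMeasurable
    · refine Filter.Eventually.of_forall fun θ => ?_
      rw [Complex.norm_real, Real.norm_eq_abs]
      exact wt_lw_le θ j
  exact h1.add h2

theorem W5_inner {N : ℕ} {G : (Fin N → ℝ) → ℂ} {G' : Fin N → (Fin N → ℝ) → ℂ} (h : Per G G')
    (j : Fin N) (θ : Fin N → ℝ) :
    ∫ t, W5_K G G' j (Function.update θ j t) ∂(volume.restrict (Ioc 0 (2 * Real.pi))) = 0 := by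
  have hpi : (0 : ℝ) ≤ 2 * Real.pi := by positivity
  have hup : Continuous fun t : ℝ => Function.update θ j t := continuous_const.update j continuous_id
  have hint : Integrable (fun t => W5_K G G' j (Function.update θ j t))
      (volume.restrict (Ioc 0 (2 * Real.pi))) := by
    have h1 : Integrable (fun t => (wt (Function.update θ j t) : ℂ) *
        G' j (Function.update θ j t)) (volume.restrict (Ioc 0 (2 * Real.pi))) :=
      Continuous.integrableOn_Ioc ((Complex.continuous_ofReal.comp (wt_cont.comp hup)).mul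
        ((h.cont' j).comp hup))
    have h2 : Integrable (fun t => ((wt (Function.update θ j t) *
        lw (Function.update θ j t) j : ℝ) : ℂ) * G (Function.update θ j t))
        (volume.restrict (Ioc 0 (2 * Real.pi))) := by
      refine Integrable.bdd_mul (c := N * 2 ^ (N * N))
        (Continuous.integrableOn_Ioc (h.cont.comp hup)) ?_ ?_
      · exact (Complex.measurable_ofReal.comp ((wt_cont.comp hup).measurable.mul
          ((lw_meas j).comp hup.measurable))).aestronglyMeasurable
      · refine Filter.Eventually.of_forall fun t => ?_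
        rw [Complex.norm_real, Real.norm_eq_abs]
        exact wt_lw_le _ j
    exact h1.add h2
  rw [← intervalIntegral.integral_of_le hpi]
  set F : ℝ → ℂ := fun t => (wt (Function.update θ j t) : ℂ) * G (Function.update θ j t) with hF
  set s : Set ℝ := ⋃ l : Fin N, {t : ℝ | Real.sin ((θ l - t) / 2) = 0} with hs
  have hsc : s.Countable := countable_iUnion fun l => W5_count (θ l)
  have hFc : Continuous F := (Complex.continuous_ofReal.comp (wt_cont.comp hup)).mul
    (h.cont.comp hup)
  have key := integral_eq_of_hasDerivAt_off_countable_of_le F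
    (fun t => W5_K G G' j (Function.update θ j t)) hpi hsc hFc.continuousOn ?_ ?_
  · rw [key]
    have e1 : wt (Function.update θ j (2 * Real.pi)) = wt (Function.update θ j 0) := by
      have := wt_per (Function.update θ j 0) j
      rw [Function.update_self, Function.update_idem, zero_add] at this
      exact this
    have e2 : G (Function.update θ j (2 * Real.pi)) = G (Function.update θ j 0) := by
      have := h.per (Function.update θ j 0) j
      rw [Function.update_self, Function.update_idem, zero_add] at this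
      exact this
    simp only [hF, e1, e2, sub_self]
  · rintro t ⟨_, hts⟩
    have hd1 := wt_deriv (Function.update θ j t) j (by
      intro l hl
      rw [Function.update_self, Function.update_of_ne hl]
      intro h0
      exact hts (mem_iUnion.2 ⟨l, h0⟩))
    have hd2 := h.der (Function.update θ j t) j
    rw [Function.update_self] at hd1 hd2
    simp only [Function.update_idem] at hd1 hd2
    have hd3 := (hd1.ofReal_comp).mul hd2
    unfold W5_K
    have hd4 : HasDerivAt F (((wt (Function.update θ j t) * lw (Function.update θ j t) j : ℝ) : ℂ)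
        * G (Function.update θ j t) + (wt (Function.update θ j t) : ℂ)
        * G' j (Function.update θ j t)) t := hd3
    rw [add_comm] at hd4
    exact hd4
  · rw [intervalIntegrable_iff_integrableOn_Ioc_of_le hpi]
    exact hint

theorem ibp {N : ℕ} {G : (Fin N → ℝ) → ℂ} {G' : Fin N → (Fin N → ℝ) → ℂ} (h : Per G G')
    (j : Fin N) :
    ∫ θ, ((wt θ : ℂ) * G' j θ + ((wt θ * lw θ j : ℝ) : ℂ) * G θ) ∂(cube (Fin N)) = 0 := by
  change ∫ θ, W5_K G G' j θ ∂(cube (Fin N)) = 0
  have hK := W5_Kint h j
  rcases N with _ | n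
  · exact j.elim0
  have := cube_fin (Fin n)
  have h1 : MeasurePreserving (MeasurableEquiv.piFinSuccAbove (fun _ : Fin (n + 1) => ℝ) j)
      (cube (Fin (n + 1))) ((volume.restrict (Ioc 0 (2 * Real.pi))).prod (cube (Fin n))) :=
    measurePreserving_piFinSuccAbove (fun _ : Fin (n + 1) => volume.restrict (Ioc 0 (2 * Real.pi))) j
  have h2 := h1.symm
  rw [← h2.integral_comp']
  have h3 : Integrable (fun z : ℝ × (Fin n → ℝ) => W5_K G G' j
      ((MeasurableEquiv.piFinSuccAbove (fun _ : Fin (n + 1) => ℝ) j).symm z))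
      ((volume.restrict (Ioc 0 (2 * Real.pi))).prod (cube (Fin n))) :=
    (h2.integrable_comp_emb (MeasurableEquiv.measurableEmbedding _)).2 hK
  rw [integral_prod_symm _ h3]
  have h4 : ∀ y : Fin n → ℝ, ∀ t : ℝ,
      (MeasurableEquiv.piFinSuccAbove (fun _ : Fin (n + 1) => ℝ) j).symm (t, y)
        = Function.update ((MeasurableEquiv.piFinSuccAbove (fun _ : Fin (n + 1) => ℝ) j).symm
            (0, y)) j t := by
    intro y t
    ext i
    rcases Fin.eq_self_or_eq_succAbove j i with rfl | ⟨i', rfl⟩
    · rw [Function.update_self]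
      change (Fin.insertNth (α := fun _ => ℝ) i t y : Fin (n + 1) → ℝ) i = t
      rw [Fin.insertNth_apply_same]
    · rw [Function.update_of_ne (Fin.succAbove_ne j i')]
      change (Fin.insertNth (α := fun _ => ℝ) j t y : Fin (n + 1) → ℝ) (j.succAbove i')
        = (Fin.insertNth (α := fun _ => ℝ) j 0 y : Fin (n + 1) → ℝ) (j.succAbove i')
      rw [Fin.insertNth_apply_succAbove, Fin.insertNth_apply_succAbove]
  have h5 : (fun y : Fin n → ℝ => ∫ t, W5_K G G' j
      ((MeasurableEquiv.piFinSuccAbove (fun _ : Fin (n + 1) => ℝ) j).symm (t, y))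
      ∂(volume.restrict (Ioc 0 (2 * Real.pi)))) = fun _ => 0 := by
    funext y
    have h6 : (fun t : ℝ => W5_K G G' j
        ((MeasurableEquiv.piFinSuccAbove (fun _ : Fin (n + 1) => ℝ) j).symm (t, y)))
        = fun t => W5_K G G' j (Function.update
          ((MeasurableEquiv.piFinSuccAbove (fun _ : Fin (n + 1) => ℝ) j).symm (0, y)) j t) := by
      funext t
      exact congrArg _ (h4 y t)
    rw [h6]
    exact W5_inner h j _
  rw [h5, integral_zero]

end COE
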