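import Pool.Agent.LibCOE.Defs

/-! Row W6. Proof sketch:
z_j = e^{iθ_j}. ct is odd, so the sum over ordered pairs is 1/2 ∑_{j≠l} (z_j^k - z_l^k) ct(θ_j - θ_l), and
ct(θ_j - θ_l) = (i/2)(z_j + z_l)/(z_j - z_l) when sin ≠ 0; (z_j^k - z_l^k)(z_j + z_l)/(z_j - z_l) = z_j^k + z_l^k
+ 2 ∑_{0<a<k} z_j^a z_l^(k-a) (`Commute.geom_sum₂_mul`/`geom_sum₂` identities or induction on k). Sum over j ≠ l:
2 (N-1) p_k + 2 ∑_a (p_a p_{k-a} - p_k), times i/4. Everything is a finite sum identity. -/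

open MeasureTheory Set Filter Topology

namespace COE

open QGr

theorem W6_poly (z w : ℂ) (k : ℕ) (hk : 1 ≤ k) :
    (z ^ k - w ^ k) * (z + w) =
      (z - w) * (z ^ k + w ^ k + 2 * ∑ a ∈ Finset.Ico 1 k, z ^ a * w ^ (k - a)) := by
  induction k, hk using Nat.le_induction with
  | base => simp
  | succ k hk ih =>
    have h1 : ∑ a ∈ Finset.Ico 1 (k + 1), z ^ a * w ^ (k + 1 - a)
        = w * (∑ a ∈ Finset.Ico 1 k, z ^ a * w ^ (k - a)) + z ^ k * w := by
      rw [Finset.sum_Ico_succ_top hk, Finset.mul_sum]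
      congr 1
      · refine Finset.sum_congr rfl fun a ha => ?_
        have h2 : k + 1 - a = (k - a) + 1 := by
          have := (Finset.mem_Ico.mp ha).2
          omega
        rw [h2, pow_succ]
        ring
      · rw [Nat.add_sub_cancel_left, pow_one]
    rw [h1]
    linear_combination w * ih

theorem W6_ct (x y : ℝ) (h : Real.sin ((x - y) / 2) ≠ 0) :
    (Complex.exp (x * Complex.I) - Complex.exp (y * Complex.I)) * (ct (x - y) : ℂ)
      = Complex.I / 2 * (Complex.exp (x * Complex.I) + Complex.exp (y * Complex.I)) := by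
  have hs : Complex.sin (((x - y) / 2 : ℝ) : ℂ) ≠ 0 := by
    rw [← Complex.ofReal_sin]
    exact Complex.ofReal_ne_zero.mpr h
  have h1 : Complex.exp (x * Complex.I) = Complex.exp (((x + y) / 2 : ℝ) * Complex.I) *
      (Complex.cos (((x - y) / 2 : ℝ) : ℂ) + Complex.sin (((x - y) / 2 : ℝ) : ℂ) * Complex.I) := by
    rw [← Complex.exp_mul_I, ← Complex.exp_add]
    congr 1
    push_cast
    ring
  have h2 : Complex.exp (y * Complex.I) = Complex.exp (((x + y) / 2 : ℝ) * Complex.I) *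
      (Complex.cos (((x - y) / 2 : ℝ) : ℂ) - Complex.sin (((x - y) / 2 : ℝ) : ℂ) * Complex.I) := by
    have h3 : Complex.cos (((x - y) / 2 : ℝ) : ℂ) - Complex.sin (((x - y) / 2 : ℝ) : ℂ) * Complex.I
        = Complex.exp (-(((x - y) / 2 : ℝ) : ℂ) * Complex.I) := by
      rw [Complex.exp_mul_I, Complex.cos_neg, Complex.sin_neg]
      ring
    rw [h3, ← Complex.exp_add]
    congr 1
    push_cast
    ring
  have h4 : (ct (x - y) : ℂ) = Complex.cos (((x - y) / 2 : ℝ) : ℂ)
      / (2 * Complex.sin (((x - y) / 2 : ℝ) : ℂ)) := by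
    unfold ct
    push_cast
    rfl
  rw [h1, h2, h4]
  generalize Complex.exp (((x + y) / 2 : ℝ) * Complex.I) = e
  generalize Complex.cos (((x - y) / 2 : ℝ) : ℂ) = c at *
  generalize Complex.sin (((x - y) / 2 : ℝ) : ℂ) = s at *
  field_simp
  ring

theorem W6_ct0 : ct 0 = 0 := by
  unfold ct
  simp

theorem W6_ct_neg (x : ℝ) : ct (-x) = -ct x := by
  unfold ct
  rw [neg_div, Real.cos_neg, Real.sin_neg, mul_neg, div_neg]

theorem W6_pow (k : ℕ) (x : ℝ) :
    Complex.exp ((((k : ℤ) : ℝ) * x : ℝ) * Complex.I) = Complex.exp (x * Complex.I) ^ k := by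
  rw [← Complex.exp_nat_mul]
  congr 1
  push_cast
  ring

theorem W6_ps {N : ℕ} (k : ℕ) (θ : Fin N → ℝ) :
    ps (k : ℤ) θ = ∑ j, Complex.exp (θ j * Complex.I) ^ k := by
  unfold ps
  exact Finset.sum_congr rfl fun j _ => W6_pow k (θ j)

theorem alg {N : ℕ} (k : ℕ) (hk : 1 ≤ k) (θ : Fin N → ℝ) (h : Dist θ) :
    ∑ j, Complex.exp ((((k : ℤ) : ℝ) * θ j : ℝ) * Complex.I) * (lw θ j : ℂ) =
      Complex.I / 2 * (((N : ℂ) - k) * ps k θ
        + ∑ a ∈ Finset.Ico 1 k, ps a θ * ps ((k : ℤ) - a) θ) := by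
  set z : Fin N → ℂ := fun j => Complex.exp (θ j * Complex.I) with hz
  have hlw : ∀ j, (lw θ j : ℂ) = ∑ l, (ct (θ j - θ l) : ℂ) := by
    intro j
    have h1 : lw θ j = ∑ l, ct (θ j - θ l) := by
      unfold lw
      refine Finset.sum_subset (Finset.erase_subset _ _) ?_
      intro l _ hl
      have h2 : l = j := by
        by_contra h3
        exact hl (Finset.mem_erase.mpr ⟨h3, Finset.mem_univ _⟩)
      rw [h2, sub_self, W6_ct0]
    rw [h1]
    push_cast
    rfl
  have hS : ∑ j, Complex.exp ((((k : ℤ) : ℝ) * θ j : ℝ) * Complex.I) * (lw θ j : ℂ)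
      = ∑ j, ∑ l, z j ^ k * (ct (θ j - θ l) : ℂ) := by
    refine Finset.sum_congr rfl fun j _ => ?_
    rw [hlw, W6_pow, Finset.mul_sum]
  have hS2 : ∑ j, ∑ l, z j ^ k * (ct (θ j - θ l) : ℂ)
      = -∑ j, ∑ l, z l ^ k * (ct (θ j - θ l) : ℂ) := by
    rw [Finset.sum_comm, ← Finset.sum_neg_distrib]
    refine Finset.sum_congr rfl fun j _ => ?_
    rw [← Finset.sum_neg_distrib]
    refine Finset.sum_congr rfl fun l _ => ?_
    have h1 : ct (θ l - θ j) = -ct (θ j - θ l) := by
      rw [← W6_ct_neg]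
      congr 1
      ring
    rw [h1]
    push_cast
    ring
  have hpair : ∀ j l, (z j ^ k - z l ^ k) * (ct (θ j - θ l) : ℂ)
      = Complex.I / 2 * (z j ^ k + z l ^ k + 2 * ∑ a ∈ Finset.Ico 1 k, z j ^ a * z l ^ (k - a))
        - (if j = l then Complex.I * k * z j ^ k else 0) := by
    intro j l
    by_cases hjl : j = l
    · subst hjl
      rw [if_pos rfl, sub_self, zero_mul]
      have h1 : ∑ a ∈ Finset.Ico 1 k, z j ^ a * z j ^ (k - a) = ((k : ℂ) - 1) * z j ^ k := by
        have h2 : ∀ a ∈ Finset.Ico 1 k, z j ^ a * z j ^ (k - a) = z j ^ k := by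
          intro a ha
          rw [← pow_add]
          congr 1
          have := (Finset.mem_Ico.mp ha).2
          omega
        rw [Finset.sum_congr rfl h2, Finset.sum_const, Nat.card_Ico, nsmul_eq_mul,
          Nat.cast_sub hk, Nat.cast_one]
      rw [h1]
      ring
    · rw [if_neg hjl, sub_zero]
      have hs : Real.sin ((θ j - θ l) / 2) ≠ 0 := h l j (Ne.symm hjl)
      have h1 := W6_ct (θ j) (θ l) hs
      have h2 := W6_poly (z j) (z l) k hk
      have h3 : z j - z l ≠ 0 := by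
        intro h4
        have h5 : Complex.exp (θ j * Complex.I) - Complex.exp (θ l * Complex.I) = 0 := h4
        have h5' : Complex.exp (θ j * Complex.I) = Complex.exp (θ l * Complex.I) :=
          sub_eq_zero.mp h5
        rw [h5, zero_mul, h5'] at h1
        have h6 : Complex.exp (θ l * Complex.I) ≠ 0 := Complex.exp_ne_zero _
        have h7 : Complex.I * Complex.exp (θ l * Complex.I) = 0 := by
          linear_combination -h1
        exact (mul_ne_zero Complex.I_ne_zero h6) h7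
      apply mul_left_cancel₀ h3
      have h1' : (z j - z l) * (ct (θ j - θ l) : ℂ) = Complex.I / 2 * (z j + z l) := h1
      linear_combination (z j ^ k - z l ^ k) * h1' + Complex.I / 2 * h2
  have hsum : ∑ j, ∑ l, (z j ^ k - z l ^ k) * (ct (θ j - θ l) : ℂ)
      = Complex.I * (((N : ℂ) - k) * ps k θ
        + ∑ a ∈ Finset.Ico 1 k, ps a θ * ps ((k : ℤ) - a) θ) := by
    have e1 : ∑ j : Fin N, ∑ l : Fin N, z j ^ k = (N : ℂ) * ps k θ := by
      rw [W6_ps]
      simp only [Finset.sum_const, Finset.card_univ, Fintype.card_fin, nsmul_eq_mul]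
      rw [← Finset.mul_sum]
    have e2 : ∑ j : Fin N, ∑ l : Fin N, z l ^ k = (N : ℂ) * ps k θ := by
      rw [Finset.sum_comm, e1]
    have e3 : ∑ j : Fin N, ∑ l : Fin N, ∑ a ∈ Finset.Ico 1 k, z j ^ a * z l ^ (k - a)
        = ∑ a ∈ Finset.Ico 1 k, ps a θ * ps ((k : ℤ) - a) θ := by
      have e4 : ∀ a ∈ Finset.Ico 1 k, ps a θ * ps ((k : ℤ) - a) θ
          = ∑ j : Fin N, ∑ l : Fin N, z j ^ a * z l ^ (k - a) := by
        intro a ha
        have e5 : ((k : ℤ) - a) = ((k - a : ℕ) : ℤ) := by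
          have := (Finset.mem_Ico.mp ha).2
          push_cast [Nat.cast_sub this.le]
          rfl
        rw [e5, W6_ps, W6_ps, Finset.sum_mul_sum]
      rw [Finset.sum_congr rfl e4, Finset.sum_comm]
      rw [Finset.sum_comm]
      rw [Finset.sum_comm (s := Finset.Ico 1 k)]
      refine Finset.sum_congr rfl fun j _ => ?_
      rw [Finset.sum_comm]
    have e6 : ∑ j : Fin N, ∑ l : Fin N, (if j = l then Complex.I * k * z j ^ k else 0)
        = Complex.I * k * ps k θ := by
      rw [W6_ps, Finset.mul_sum]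
      refine Finset.sum_congr rfl fun j _ => ?_
      rw [Finset.sum_ite_eq Finset.univ j, if_pos (Finset.mem_univ _)]
    rw [Finset.sum_congr rfl fun j _ => Finset.sum_congr rfl fun l _ => hpair j l]
    simp only [Finset.sum_sub_distrib, ← Finset.mul_sum, Finset.sum_add_distrib]
    rw [e3, e6]
    have e1' : ∑ j : Fin N, ∑ l : Fin N, z l ^ k = (N : ℂ) * ps k θ := e2
    rw [e1]
    have e7 : (∑ j : Fin N, ∑ l : Fin N, z l ^ k) = (N : ℂ) * ps k θ := e2
    rw [e7]
    ring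
  have hfin : 2 * ∑ j, ∑ l, z j ^ k * (ct (θ j - θ l) : ℂ)
      = ∑ j, ∑ l, (z j ^ k - z l ^ k) * (ct (θ j - θ l) : ℂ) := by
    rw [two_mul]
    nth_rewrite 2 [hS2]
    rw [← sub_eq_add_neg, ← Finset.sum_sub_distrib]
    refine Finset.sum_congr rfl fun j _ => ?_
    rw [← Finset.sum_sub_distrib]
    refine Finset.sum_congr rfl fun l _ => ?_
    ring
  rw [hS]
  rw [hsum] at hfin
  linear_combination hfin / 2

end COE
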