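import Pool.Agent.LibCOE.Defs
import Pool.Agent.LibCOE.CO_Q1
import Pool.Agent.LibCOE.CO_W1
import Pool.Agent.LibCOE.CO_W2
import Pool.Agent.LibCOE.CO_W3
import Pool.Agent.LibCOE.CO_W5
import Pool.Agent.LibCOE.CO_W6

/-! Row Q2. Proof sketch:
k = 0: spl = 0 and the factor k = 0. k >= 1: apply `ibp` to z_j^k G (per_exp, per_mul) for every j and sum over j:
∫ [wt (∑_j i k z_j^k G + ∑_j z_j^k G'_j) + wt G ∑_j z_j^k lw_j] = 0; insert `alg` (a.e. by ae_dist):
∑_j z_j^k lw_j = (i/2)((N-k) p_k + ∑ p_a p_{k-a}); multiply by 2k/i: k [2k p_k + (N-k) p_k + ∑] = spl N k. For k <= -1 apply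
the case -k to the conjugates (per_conj, conj_ps), and conjugate the integral (`integral_conj`). -/

open MeasureTheory Set Filter Topology

namespace COE

open QGr


theorem Q2_int {N : ℕ} (j : Fin N) {G : (Fin N → ℝ) → ℂ} (hG : Continuous G) :
    Integrable (fun θ => ((wt θ * lw θ j : ℝ) : ℂ) * G θ) (cube (Fin N)) := by
  have h1 := int_bdd G hG
  refine h1.bdd_mul (c := N * 2 ^ (N * N)) ?_ ?_
  · exact (Complex.measurable_ofReal.comp (wt_cont.measurable.mul (lw_meas j))).aestronglyMeasurable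
  · refine Eventually.of_forall fun θ => ?_
    rw [Complex.norm_real, Real.norm_eq_abs]
    exact wt_lw_le θ j

theorem Q2_pos {N : ℕ} (n : ℕ) (hn : 1 ≤ n) {G : (Fin N → ℝ) → ℂ}
    {G' : Fin N → (Fin N → ℝ) → ℂ} (h : Per G G') :
    ∫ θ, (wt θ : ℂ) * (spl N n (fun a => ps a θ) * G θ + 2 * (n : ℤ) / Complex.I *
      ∑ j, Complex.exp ((((n : ℤ) : ℝ) * θ j : ℝ) * Complex.I) * G' j θ) ∂(cube (Fin N)) = 0 := by
  have e0 : ∀ j : Fin N, ∫ θ, ((wt θ : ℂ) * (Complex.I * (n : ℤ) *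
      Complex.exp ((((n : ℤ) : ℝ) * θ j : ℝ) * Complex.I) * G θ
      + Complex.exp ((((n : ℤ) : ℝ) * θ j : ℝ) * Complex.I) * G' j θ)
      + ((wt θ * lw θ j : ℝ) : ℂ) * (Complex.exp ((((n : ℤ) : ℝ) * θ j : ℝ) * Complex.I) * G θ))
        ∂(cube (Fin N)) = 0 := by
    intro j
    have := ibp (per_mul (per_exp (n : ℤ) j) h) j
    simpa using this
  have hexp : ∀ j : Fin N, Continuous fun θ : Fin N → ℝ =>
      Complex.exp ((((n : ℤ) : ℝ) * θ j : ℝ) * Complex.I) := by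
    intro j; fun_prop
  have hc := h.cont
  have hc' := h.cont'
  have hw : Continuous fun θ : Fin N → ℝ => (wt θ : ℂ) := Complex.continuous_ofReal.comp wt_cont
  have hint : ∀ j : Fin N, Integrable (fun θ => ((wt θ : ℂ) * (Complex.I * (n : ℤ) *
      Complex.exp ((((n : ℤ) : ℝ) * θ j : ℝ) * Complex.I) * G θ
      + Complex.exp ((((n : ℤ) : ℝ) * θ j : ℝ) * Complex.I) * G' j θ)
      + ((wt θ * lw θ j : ℝ) : ℂ) * (Complex.exp ((((n : ℤ) : ℝ) * θ j : ℝ) * Complex.I) * G θ)))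
        (cube (Fin N)) := by
    intro j
    have h1 := hexp j
    have h2 := hc' j
    exact (int_bdd _ (by fun_prop)).add (Q2_int j (h1.mul hc))
  have e1 := integral_finsetSum (μ := cube (Fin N)) Finset.univ fun j _ => hint j
  rw [Finset.sum_eq_zero fun j _ => e0 j] at e1
  have e2 : ∫ θ, (wt θ : ℂ) * (spl N n (fun a => ps a θ) * G θ + 2 * (n : ℤ) / Complex.I *
      ∑ j, Complex.exp ((((n : ℤ) : ℝ) * θ j : ℝ) * Complex.I) * G' j θ) ∂(cube (Fin N))
      = ∫ θ, (2 * (n : ℤ) / Complex.I) * ∑ j, ((wt θ : ℂ) * (Complex.I * (n : ℤ) *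
      Complex.exp ((((n : ℤ) : ℝ) * θ j : ℝ) * Complex.I) * G θ
      + Complex.exp ((((n : ℤ) : ℝ) * θ j : ℝ) * Complex.I) * G' j θ)
      + ((wt θ * lw θ j : ℝ) : ℂ) * (Complex.exp ((((n : ℤ) : ℝ) * θ j : ℝ) * Complex.I) * G θ))
        ∂(cube (Fin N)) := by
    refine integral_congr_ae ?_
    filter_upwards [ae_dist N] with θ hθ
    have h1 := alg n hn θ hθ
    have h2 : ∑ j, ((wt θ : ℂ) * (Complex.I * (n : ℤ) *
      Complex.exp ((((n : ℤ) : ℝ) * θ j : ℝ) * Complex.I) * G θ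
      + Complex.exp ((((n : ℤ) : ℝ) * θ j : ℝ) * Complex.I) * G' j θ)
      + ((wt θ * lw θ j : ℝ) : ℂ) * (Complex.exp ((((n : ℤ) : ℝ) * θ j : ℝ) * Complex.I) * G θ))
      = (wt θ : ℂ) * (Complex.I * (n : ℤ) * ps n θ * G θ
        + (∑ j, Complex.exp ((((n : ℤ) : ℝ) * θ j : ℝ) * Complex.I) * G' j θ)
        + (∑ j, Complex.exp ((((n : ℤ) : ℝ) * θ j : ℝ) * Complex.I) * (lw θ j : ℂ)) * G θ) := by
      have h3 : ps (n : ℤ) θ = ∑ j, Complex.exp ((((n : ℤ) : ℝ) * θ j : ℝ) * Complex.I) := rfl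
      have a1 : ∑ j, (wt θ : ℂ) * (Complex.I * (n : ℤ) *
          Complex.exp ((((n : ℤ) : ℝ) * θ j : ℝ) * Complex.I) * G θ)
          = (wt θ : ℂ) * (Complex.I * (n : ℤ) * ps n θ * G θ) := by
        rw [h3]
        simp only [Finset.mul_sum, Finset.sum_mul]
      have a2 : ∑ j, (wt θ : ℂ) * (Complex.exp ((((n : ℤ) : ℝ) * θ j : ℝ) * Complex.I) * G' j θ)
          = (wt θ : ℂ) * ∑ j, Complex.exp ((((n : ℤ) : ℝ) * θ j : ℝ) * Complex.I) * G' j θ :=
        (Finset.mul_sum _ _ _).symm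
      have a3 : ∑ j, (wt θ : ℂ) * (Complex.exp ((((n : ℤ) : ℝ) * θ j : ℝ) * Complex.I)
          * (lw θ j : ℂ) * G θ)
          = (wt θ : ℂ) * ((∑ j, Complex.exp ((((n : ℤ) : ℝ) * θ j : ℝ) * Complex.I)
            * (lw θ j : ℂ)) * G θ) := by
        rw [Finset.sum_mul, Finset.mul_sum]
      rw [mul_add, mul_add, ← a1, ← a2, ← a3, ← Finset.sum_add_distrib, ← Finset.sum_add_distrib]
      refine Finset.sum_congr rfl fun j _ => ?_
      push_cast
      ring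
    rw [h2, h1]
    have h4 : spl N (n : ℤ) (fun a => ps a θ) = (n : ℂ) * (((N : ℂ) + n) * ps n θ
        + ∑ a ∈ Finset.Ico 1 n, ps a θ * ps ((n : ℤ) - a) θ) := by
      unfold spl
      have h5 : (n : ℤ).sign = 1 := Int.sign_eq_one_of_pos (by exact_mod_cast hn)
      simp only [Int.natAbs_natCast, h5, one_mul]
    rw [h4]
    have hI : Complex.I ≠ 0 := Complex.I_ne_zero
    have hn1 : ((n : ℤ) : ℂ) = (n : ℂ) := by push_cast; rfl
    rw [hn1]
    field_simp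
    ring_nf
  rw [e2, integral_const_mul, e1, mul_zero]

theorem loop_w {N : ℕ} (k : ℤ) {G : (Fin N → ℝ) → ℂ} {G' : Fin N → (Fin N → ℝ) → ℂ}
    (h : Per G G') :
    ∫ θ, (wt θ : ℂ) * (spl N k (fun a => ps a θ) * G θ + 2 * k / Complex.I *
      ∑ j, Complex.exp ((k * θ j : ℝ) * Complex.I) * G' j θ) ∂(cube (Fin N)) = 0 := by
  rcases lt_trichotomy k 0 with hk | hk | hk
  · obtain ⟨n, hn, rfl⟩ : ∃ n : ℕ, 1 ≤ n ∧ k = -(n : ℤ) := ⟨k.natAbs, by omega, by omega⟩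
    have h1 := Q2_pos n hn (per_conj h)
    have h2 := congrArg (starRingEnd ℂ) h1
    rw [map_zero, ← integral_conj] at h2
    rw [← h2]
    refine integral_congr_ae (Eventually.of_forall fun θ => ?_)
    simp only [map_mul, map_add, map_sum, map_div₀, Complex.conj_I, Complex.conj_ofReal,
      Complex.conj_conj, map_ofNat]
    have h3 : (starRingEnd ℂ) (spl N (n : ℤ) fun a => ps a θ)
        = spl N (-(n : ℤ)) fun a => ps a θ := by
      unfold spl
      have h5 : (n : ℤ).sign = 1 := Int.sign_eq_one_of_pos (by exact_mod_cast hn)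
      have h6 : (-(n : ℤ)).sign = -1 := by rw [Int.sign_neg, h5]
      simp only [Int.natAbs_natCast, Int.natAbs_neg, h5, h6, one_mul, map_mul, map_add, map_sum,
        conj_ps, map_natCast, neg_mul, neg_sub, sub_neg_eq_add]
      congr 2
      refine Finset.sum_congr rfl fun a _ => ?_
      congr 2
      ring
    rw [h3]
    congr 2
    have h7 : (starRingEnd ℂ) (((n : ℤ) : ℂ)) = ((n : ℤ) : ℂ) := by
      simp
    rw [h7]
    have h8 : ∀ j : Fin N, (starRingEnd ℂ) (Complex.exp ((((n : ℤ) : ℝ) * θ j : ℝ) * Complex.I))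
        = Complex.exp ((((-(n : ℤ) : ℤ) : ℝ) * θ j : ℝ) * Complex.I) := by
      intro j
      rw [← Complex.exp_conj]
      congr 1
      simp
    simp only [h8]
    push_cast
    have hI : Complex.I ≠ 0 := Complex.I_ne_zero
    field_simp
  · subst hk
    have : ∀ θ : Fin N → ℝ, (wt θ : ℂ) * (spl N 0 (fun a => ps a θ) * G θ
      + 2 * ((0 : ℤ) : ℂ) / Complex.I *
      ∑ j, Complex.exp ((((0 : ℤ) : ℝ) * θ j : ℝ) * Complex.I) * G' j θ) = 0 := by
      intro θ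
      simp [spl]
    simp only [this, integral_zero]
  · obtain ⟨n, hn, rfl⟩ : ∃ n : ℕ, 1 ≤ n ∧ k = (n : ℤ) := ⟨k.natAbs, by omega, by omega⟩
    exact Q2_pos n hn h

end COE
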