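import Pool.Agent.LibCOE.Defs
import Pool.Agent.LibCOE.CO_Q1
import Pool.Agent.LibCOE.CO_Q2
import Pool.Agent.LibCOE.CO_W1
import Pool.Agent.LibCOE.CO_W2

/-! Row Q3. Proof sketch:
Apply loop_w with k = m i and G = (∏_{l ≠ i} ps (m l)) * conj h (per_prod on `univ.erase i`, per_conj, per_mul) and sum
over i. The terms: ∑_i spl (m i) ∏_{l≠i} conj h; (2 m_i/I) ∑_j e^{i m_i θ_j} dF (erase i) conj h = 2 ∑_{l≠i} m_i m_l ps (m_i + m_l)
∏ conj h (as ∑_j e^{i m_i θ_j} e^{i m_l θ_j} = ps (m_i + m_l)); and (2/I) ∑_i m_i e^{i m_i θ_j} ∏_{l≠i} conj h'_j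
= (2/I)(1/I) dF univ m j conj h'_j = -2 dF conj h'_j. -/

open MeasureTheory Set Filter Topology

namespace COE

open QGr


theorem Q3_exp (a b : ℤ) (x : ℝ) : Complex.exp ((a * x : ℝ) * Complex.I) *
    Complex.exp ((b * x : ℝ) * Complex.I) = Complex.exp ((((a + b : ℤ) : ℝ) * x : ℝ) * Complex.I) := by
  rw [← Complex.exp_add]
  congr 1
  push_cast
  ring

theorem Q3_ps {N : ℕ} (k : ℤ) : Continuous fun θ : Fin N → ℝ => ps k θ := (per_ps k).cont

theorem Q3_prod {N r : ℕ} (s : Finset (Fin r)) (m : Fin r → ℤ) :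
    Continuous fun θ : Fin N → ℝ => ∏ i ∈ s, ps (m i) θ := (per_prod s m).cont

theorem Q3_spl {N : ℕ} (k : ℤ) : Continuous fun θ : Fin N → ℝ => spl N k (fun a => ps a θ) := by
  unfold spl
  refine continuous_const.mul ((continuous_const.mul (Q3_ps k)).add ?_)
  exact continuous_finsetSum _ fun a _ => (Q3_ps _).mul (Q3_ps _)

theorem Q3_Qf {N r : ℕ} (m : Fin r → ℤ) :
    Continuous fun θ : Fin N → ℝ => Qf N m (fun a => ps a θ) := by
  unfold Qf
  refine (continuous_finsetSum _ fun i _ => (Q3_spl _).mul (Q3_prod _ m)).add ?_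
  refine continuous_const.mul (continuous_finsetSum _ fun i _ => continuous_finsetSum _ fun j _ => ?_)
  exact (continuous_const.mul (Q3_ps _)).mul (Q3_prod _ m)

theorem Q3_term {N r : ℕ} (m : Fin r → ℤ) (i : Fin r) (θ : Fin N → ℝ) :
    2 * (m i : ℂ) / Complex.I * ∑ j, Complex.exp ((m i * θ j : ℝ) * Complex.I) *
      dF (Finset.univ.erase i) m j θ
      = 2 * ∑ j ∈ Finset.univ.erase i, ((m i : ℂ) * (m j : ℂ)) * ps (m i + m j) θ
        * ∏ l ∈ (Finset.univ.erase i).erase j, ps (m l) θ := by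
  unfold dF
  simp only [Finset.mul_sum]
  rw [Finset.sum_comm]
  refine Finset.sum_congr rfl fun l _ => ?_
  have h1 : ps (m i + m l) θ = ∑ j, Complex.exp ((m i * θ j : ℝ) * Complex.I) *
      Complex.exp ((m l * θ j : ℝ) * Complex.I) := by
    unfold ps
    exact Finset.sum_congr rfl fun j _ => (Q3_exp (m i) (m l) (θ j)).symm
  rw [h1, Finset.mul_sum, Finset.sum_mul, Finset.mul_sum]
  refine Finset.sum_congr rfl fun j _ => ?_
  have hI := Complex.I_ne_zero
  field_simp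

theorem dirichlet {N r : ℕ} (m : Fin r → ℤ) {h : (Fin N → ℝ) → ℂ} {h' : Fin N → (Fin N → ℝ) → ℂ}
    (hh : Per h h') :
    ∫ θ, (wt θ : ℂ) * (Qf N m (fun a => ps a θ) * (starRingEnd ℂ) (h θ)) ∂(cube (Fin N)) =
      2 * ∫ θ, (wt θ : ℂ) * ∑ j, dF Finset.univ m j θ * (starRingEnd ℂ) (h' j θ)
        ∂(cube (Fin N)) := by
  have hwt : Continuous fun θ : Fin N → ℝ => (wt θ : ℂ) := Complex.continuous_ofReal.comp wt_cont
  have hconj := per_conj hh
  have hG : ∀ i : Fin r, Per (fun θ : Fin N → ℝ => (∏ l ∈ Finset.univ.erase i, ps (m l) θ) *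
      (starRingEnd ℂ) (h θ)) (fun j θ => dF (Finset.univ.erase i) m j θ * (starRingEnd ℂ) (h θ)
        + (∏ l ∈ Finset.univ.erase i, ps (m l) θ) * (starRingEnd ℂ) (h' j θ)) :=
    fun i => per_mul (per_prod (Finset.univ.erase i) m) hconj
  have hl : ∀ i : Fin r, ∫ θ, (wt θ : ℂ) * (spl N (m i) (fun a => ps a θ) *
      ((∏ l ∈ Finset.univ.erase i, ps (m l) θ) * (starRingEnd ℂ) (h θ)) + 2 * (m i) / Complex.I *
      ∑ j, Complex.exp ((m i * θ j : ℝ) * Complex.I) *
        (dF (Finset.univ.erase i) m j θ * (starRingEnd ℂ) (h θ)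
        + (∏ l ∈ Finset.univ.erase i, ps (m l) θ) * (starRingEnd ℂ) (h' j θ)))
          ∂(cube (Fin N)) = 0 := fun i => loop_w (m i) (hG i)
  have hcont : ∀ i : Fin r, Continuous fun θ : Fin N → ℝ =>
      (wt θ : ℂ) * (spl N (m i) (fun a => ps a θ) *
      ((∏ l ∈ Finset.univ.erase i, ps (m l) θ) * (starRingEnd ℂ) (h θ)) + 2 * (m i) / Complex.I *
      ∑ j, Complex.exp ((m i * θ j : ℝ) * Complex.I) *
        (dF (Finset.univ.erase i) m j θ * (starRingEnd ℂ) (h θ)
        + (∏ l ∈ Finset.univ.erase i, ps (m l) θ) * (starRingEnd ℂ) (h' j θ))) := by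
    intro i
    have hdF : ∀ j, Continuous fun θ : Fin N → ℝ => dF (Finset.univ.erase i) m j θ :=
      (per_prod (Finset.univ.erase i) m).cont'
    refine hwt.mul (((Q3_spl _).mul ((Q3_prod _ m).mul hconj.cont)).add ?_)
    refine continuous_const.mul (continuous_finsetSum _ fun j _ => ?_)
    refine Continuous.mul (by fun_prop) ?_
    exact ((hdF j).mul hconj.cont).add ((Q3_prod _ m).mul (hconj.cont' j))
  have hsum : ∫ θ, ∑ i : Fin r, (wt θ : ℂ) * (spl N (m i) (fun a => ps a θ) *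
      ((∏ l ∈ Finset.univ.erase i, ps (m l) θ) * (starRingEnd ℂ) (h θ)) + 2 * (m i) / Complex.I *
      ∑ j, Complex.exp ((m i * θ j : ℝ) * Complex.I) *
        (dF (Finset.univ.erase i) m j θ * (starRingEnd ℂ) (h θ)
        + (∏ l ∈ Finset.univ.erase i, ps (m l) θ) * (starRingEnd ℂ) (h' j θ)))
          ∂(cube (Fin N)) = 0 := by
    rw [integral_finsetSum]
    · exact Finset.sum_eq_zero fun i _ => hl i
    · intro i _
      exact int_bdd _ (hcont i)
  have hpt : ∀ θ : Fin N → ℝ, ∑ i : Fin r, (wt θ : ℂ) * (spl N (m i) (fun a => ps a θ) *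
      ((∏ l ∈ Finset.univ.erase i, ps (m l) θ) * (starRingEnd ℂ) (h θ)) + 2 * (m i) / Complex.I *
      ∑ j, Complex.exp ((m i * θ j : ℝ) * Complex.I) *
        (dF (Finset.univ.erase i) m j θ * (starRingEnd ℂ) (h θ)
        + (∏ l ∈ Finset.univ.erase i, ps (m l) θ) * (starRingEnd ℂ) (h' j θ)))
      = (wt θ : ℂ) * (Qf N m (fun a => ps a θ) * (starRingEnd ℂ) (h θ))
        - 2 * ((wt θ : ℂ) * ∑ j, dF Finset.univ m j θ * (starRingEnd ℂ) (h' j θ)) := by
    intro θ
    have h1 : ∀ i : Fin r, 2 * (m i : ℂ) / Complex.I *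
      ∑ j, Complex.exp ((m i * θ j : ℝ) * Complex.I) *
        (dF (Finset.univ.erase i) m j θ * (starRingEnd ℂ) (h θ)
        + (∏ l ∈ Finset.univ.erase i, ps (m l) θ) * (starRingEnd ℂ) (h' j θ))
        = (2 * ∑ j ∈ Finset.univ.erase i, ((m i : ℂ) * (m j : ℂ)) * ps (m i + m j) θ
        * ∏ l ∈ (Finset.univ.erase i).erase j, ps (m l) θ) * (starRingEnd ℂ) (h θ)
        - 2 * ∑ j, (Complex.I * m i * Complex.exp ((m i * θ j : ℝ) * Complex.I) *
          ∏ l ∈ Finset.univ.erase i, ps (m l) θ) * (starRingEnd ℂ) (h' j θ) := by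
      intro i
      rw [← Q3_term, mul_assoc (2 * (m i : ℂ) / Complex.I), Finset.sum_mul, Finset.mul_sum,
        Finset.mul_sum, Finset.mul_sum, ← Finset.sum_sub_distrib]
      refine Finset.sum_congr rfl fun j _ => ?_
      have hI := Complex.I_ne_zero
      field_simp
      linear_combination ((m i : ℂ) *
        (∏ l ∈ Finset.univ.erase i, ps (m l) θ) * (starRingEnd ℂ) (h' j θ)) * Complex.I_sq
    have h2 : ∑ j, dF Finset.univ m j θ * (starRingEnd ℂ) (h' j θ)
        = ∑ i : Fin r, ∑ j, (Complex.I * m i * Complex.exp ((m i * θ j : ℝ) * Complex.I) *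
          ∏ l ∈ Finset.univ.erase i, ps (m l) θ) * (starRingEnd ℂ) (h' j θ) := by
      rw [Finset.sum_comm]
      refine Finset.sum_congr rfl fun j _ => ?_
      unfold dF
      rw [Finset.sum_mul]
    rw [h2, ← Finset.mul_sum]
    unfold Qf
    rw [add_mul, Finset.sum_mul, Finset.mul_sum (s := Finset.univ) (a := (2 : ℂ)), Finset.sum_mul]
    rw [mul_left_comm (2 : ℂ) (wt θ : ℂ), ← mul_sub, Finset.mul_sum (s := Finset.univ) (a := (2 : ℂ)),
      ← Finset.sum_add_distrib, ← Finset.sum_sub_distrib]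
    congr 1
    refine Finset.sum_congr rfl fun i _ => ?_
    rw [h1 i]
    ring
  rw [integral_congr_ae (Filter.Eventually.of_forall hpt), integral_sub, integral_const_mul] at hsum
  · exact sub_eq_zero.mp hsum
  · exact int_bdd _ (hwt.mul ((Q3_Qf m).mul hconj.cont))
  · refine (int_bdd _ (hwt.mul ?_)).const_mul 2
    refine continuous_finsetSum _ fun j _ => ?_
    exact ((per_prod (Finset.univ) m).cont' j).mul (hconj.cont' j)

end COE
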