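import Pool.Agent.LibCOE.Defs
import Pool.Agent.LibCOE.CO_C1
import Pool.Agent.LibCOE.CO_C2
import Pool.Agent.LibCOE.CO_C3
import Pool.Agent.LibCOE.CO_C4
import Pool.Agent.LibCOE.CO_Q1
import Pool.Agent.LibCOE.CO_Q3
import Pool.Agent.LibCOE.CO_W1
import Pool.Agent.LibCOE.CO_W2

/-! Row C5. Proof sketch:
lin_alg with V = Vd N d, W = Wd N d (W <= V: Q_mem and the constant is the empty product). Let g ∈ Vd be orthogonal to Wd,
Per g g'. By dirichlet (h = g) and orthogonality, ∫ wt ∑_j dF univ m j conj (g' j) = 0 for every generating family m; by span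
induction ∫ wt ∑_j f' j conj (g' j) = 0 for every f ∈ Vd and every f' with Per f f' (derivatives are unique, `HasDerivAt.unique`;
use a statement ∃ f', Per f f' ∧ ∫ .. = 0 in the induction); f = g gives const_of, so g is the constant c; orthogonality to 1 gives
∫ wt g conj g = c̄... = 0 and zero_of. -/

open MeasureTheory Set Filter Topology

namespace COE

open QGr


theorem C5_uniq {N : ℕ} {f : (Fin N → ℝ) → ℂ} {F F' : Fin N → (Fin N → ℝ) → ℂ} (h : Per f F)
    (h' : Per f F') : F = F' := by
  funext j θ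
  exact (h.der θ j).unique (h'.der θ j)

theorem C5_cont {N : ℕ} {f g : (Fin N → ℝ) → ℂ} {f' g' : Fin N → (Fin N → ℝ) → ℂ}
    (hf : Per f f') (hg : Per g g') :
    Continuous fun θ => (wt θ : ℂ) * ∑ j, f' j θ * (starRingEnd ℂ) (g' j θ) :=
  (Complex.continuous_ofReal.comp wt_cont).mul (continuous_finsetSum _ fun j _ =>
    (hf.cont' j).mul (Complex.continuous_conj.comp (hg.cont' j)))

theorem span_all (N d : ℕ) : Vd N d ≤ Wd N d := by
  classical
  have := fin_Vd N d
  refine lin_alg (Vd N d) (Wd N d) ?_ (fun g hg => Vd_per hg) ?_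
  · unfold Wd
    rw [Submodule.span_le]
    rintro f (rfl | ⟨r, m, hm, rfl⟩)
    · have h := mem_Vd (N := N) (d := d) (∅ : Finset (Fin 0)) (fun _ => 0) (by simp)
      simpa using h
    · exact Q_mem m hm
  · intro g hg hort
    obtain ⟨g', hg'⟩ := Vd_per hg
    have hQ : ∀ (r : ℕ) (m : Fin r → ℤ), ∑ i, (m i).natAbs ≤ d →
        ∫ θ, (wt θ : ℂ) * ∑ j, dF Finset.univ m j θ * (starRingEnd ℂ) (g' j θ)
          ∂(cube (Fin N)) = 0 := by
      intro r m hm
      have h1 := hort _ (Submodule.subset_span (Or.inr ⟨r, m, hm, rfl⟩))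
      have h2 := dirichlet m hg'
      have h3 := h2.symm.trans h1
      exact (mul_eq_zero.1 h3).resolve_left two_ne_zero
    have hI : ∀ f ∈ Vd N d, ∃ f', Per f f' ∧
        ∫ θ, (wt θ : ℂ) * ∑ j, f' j θ * (starRingEnd ℂ) (g' j θ) ∂(cube (Fin N)) = 0 := by
      intro f hf
      unfold Vd at hf
      induction hf using Submodule.span_induction with
      | mem x hx =>
        obtain ⟨r, m, hm, rfl⟩ := hx
        exact ⟨_, per_prod Finset.univ m, hQ r m hm⟩
      | zero => exact ⟨_, per_const 0, by simp⟩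
      | add x y _ _ hx hy =>
        obtain ⟨x', hx', ix⟩ := hx
        obtain ⟨y', hy', iy⟩ := hy
        refine ⟨_, per_add hx' hy', ?_⟩
        have h4 : (fun θ => (wt θ : ℂ) * ∑ j, (x' j θ + y' j θ) * (starRingEnd ℂ) (g' j θ)) =
            fun θ => (wt θ : ℂ) * ∑ j, x' j θ * (starRingEnd ℂ) (g' j θ) +
              (wt θ : ℂ) * ∑ j, y' j θ * (starRingEnd ℂ) (g' j θ) := by
          funext θ
          rw [← mul_add, ← Finset.sum_add_distrib]
          congr 1
          exact Finset.sum_congr rfl fun j _ => add_mul _ _ _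
        rw [h4, integral_add (int_bdd _ (C5_cont hx' hg')) (int_bdd _ (C5_cont hy' hg')), ix, iy,
          add_zero]
      | smul c x _ hx =>
        obtain ⟨x', hx', ix⟩ := hx
        refine ⟨_, per_smul hx' c, ?_⟩
        have h4 : (fun θ => (wt θ : ℂ) * ∑ j, c * x' j θ * (starRingEnd ℂ) (g' j θ)) =
            fun θ => c * ((wt θ : ℂ) * ∑ j, x' j θ * (starRingEnd ℂ) (g' j θ)) := by
          funext θ
          rw [mul_left_comm, Finset.mul_sum _ _ c]
          refine congrArg _ (Finset.sum_congr rfl fun j _ => ?_)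
          ring
        rw [h4, integral_const_mul, ix, mul_zero]
    obtain ⟨f', hf', h0⟩ := hI g hg
    rw [C5_uniq hf' hg'] at h0
    have hc := const_of hg' h0
    have h1 := hort (fun _ => 1) (Submodule.subset_span (Or.inl rfl))
    apply zero_of hg'
    have h2 : (fun θ => (wt θ : ℂ) * (g θ * (starRingEnd ℂ) (g θ))) =
        fun θ => g 0 * ((wt θ : ℂ) * (1 * (starRingEnd ℂ) (g θ))) := by
      funext θ
      rw [hc θ]
      ring
    rw [h2, integral_const_mul, h1, mul_zero]

end COE
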