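import Pool.Agent.LibCOE.Defs
import Pool.Agent.LibCOE.CO_B3
import Pool.Agent.LibCOE.CO_B7
import Pool.Agent.LibCOE.CO_C2
import Pool.Agent.LibCOE.CO_C5
import Pool.Agent.LibCOE.CO_Q1
import Pool.Agent.LibCOE.CO_Q3
import Pool.Agent.LibCOE.CO_W1
import Pool.Agent.LibCOE.CO_W2
import Pool.Agent.LibQGr.R_HRT
import Pool.Agent.LibQGr.R_UDI

/-! Row B8. Proof sketch:
angles: uni_diag gives W = V diag(e^{iφ}) V^*, so W^k = V diag(e^{ikφ}) V^* (k natural by induction, negative by inverse)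
and the trace. weyl: choose φ(A) with tW A k = ps k (φ A) (angles for sy A). Both functionals g ↦ (∫ g (φ A) dHaar) * ∫ wt and
g ↦ ∫ wt g are additive on Vd (g ∘ φ is a combination of products of tW, so continuous; prove by span induction that g ∘ φ is
continuous for g ∈ Vd) and agree on the generators of Wd: on 1 (haar_prob) and on Qf (coe_Q and dirichlet with h = 1: both 0); by
span_all they agree on Vd, in particular on ∏ ps (m i) (d = ∑ |m i|). weyl2: r = 2, m = ![k, -k], |z|^2 = z conj z. -/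

open MeasureTheory Set Filter Topology


namespace COE

open QGr


theorem B8_one {N : ℕ} (φ : Fin N → ℝ) (k : ℤ) :
    (Matrix.diagonal fun a => Complex.exp ((k * φ a : ℝ) * Complex.I) : Matrix (Fin N) (Fin N) ℂ)
      ∈ Matrix.unitaryGroup (Fin N) ℂ := by
  rw [Matrix.mem_unitaryGroup_iff, Matrix.star_eq_conjTranspose,
    Matrix.diagonal_conjTranspose, Matrix.diagonal_mul_diagonal]
  ext i j
  by_cases h : i = j
  · subst h
    rw [Matrix.diagonal_apply_eq, Matrix.one_apply_eq]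
    simp only [Pi.star_apply, Complex.star_def]
    rw [Complex.mul_conj, Complex.normSq_eq_norm_sq, Complex.norm_exp_ofReal_mul_I]
    simp
  · rw [Matrix.diagonal_apply_ne _ h, Matrix.one_apply_ne h]

theorem B8_pow {N : ℕ} (φ : Fin N → ℝ) (k : ℤ) :
    (⟨Matrix.diagonal fun a => Complex.exp (((1 : ℤ) * φ a : ℝ) * Complex.I), B8_one φ 1⟩ : Uni N) ^ k
      = ⟨Matrix.diagonal fun a => Complex.exp ((k * φ a : ℝ) * Complex.I), B8_one φ k⟩ := by
  induction k using Int.induction_on with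
  | zero =>
    rw [zpow_zero]
    apply Subtype.ext
    ext i j
    by_cases h : i = j
    · subst h
      simp
    · simp [h]
  | succ i ih =>
    rw [zpow_add_one, ih]
    apply Subtype.ext
    rw [Submonoid.coe_mul, Matrix.diagonal_mul_diagonal]
    congr 1
    funext a
    rw [← Complex.exp_add]
    congr 1
    push_cast
    ring
  | pred i ih =>
    rw [zpow_sub_one, ih, mul_inv_eq_iff_eq_mul]
    apply Subtype.ext
    rw [Submonoid.coe_mul, Matrix.diagonal_mul_diagonal]
    have e : ∀ a, Complex.exp (((-(i : ℤ) : ℤ) * φ a : ℝ) * Complex.I)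
        = Complex.exp (((-(i : ℤ) - 1 : ℤ) * φ a : ℝ) * Complex.I)
          * Complex.exp (((1 : ℤ) * φ a : ℝ) * Complex.I) := by
      intro a
      rw [← Complex.exp_add]
      congr 1
      push_cast
      ring
    exact congrArg Matrix.diagonal (funext e)

theorem angles {N : ℕ} (W : Uni N) : ∃ φ : Fin N → ℝ, ∀ k : ℤ,
    Matrix.trace ((W ^ k : Uni N).1) = ps k φ := by
  obtain ⟨V, φ, h⟩ := uni_diag W
  refine ⟨φ, fun k => ?_⟩
  have h1 : W = V * ⟨Matrix.diagonal fun a => Complex.exp (((1 : ℤ) * φ a : ℝ) * Complex.I),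
      B8_one φ 1⟩ * V⁻¹ := by
    apply Subtype.ext
    rw [h]
    simp only [Int.cast_one, one_mul]
    rfl
  rw [h1, conj_zpow, B8_pow]
  have h2 : ∀ X : Uni N, Matrix.trace ((V * X * V⁻¹ : Uni N).1) = Matrix.trace X.1 := by
    intro X
    have h3 : ((V * X * V⁻¹ : Uni N).1 : Matrix (Fin N) (Fin N) ℂ) = (V * X : Uni N).1 * (V⁻¹ : Uni N).1 :=
      rfl
    rw [h3, Matrix.trace_mul_comm]
    have h4 : (V⁻¹ : Uni N).1 * (V * X : Uni N).1 = (V⁻¹ * (V * X) : Uni N).1 := rfl
    rw [h4, inv_mul_cancel_left]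
  rw [h2, Matrix.trace_diagonal]
  rfl

theorem B8_ps {N : ℕ} (k : ℤ) : Continuous fun θ : Fin N → ℝ => ps k θ := by
  unfold ps
  fun_prop

theorem B8_Q {X : Type} [TopologicalSpace X] {N r : ℕ} (m : Fin r → ℤ) (q : X → ℤ → ℂ)
    (hq : ∀ k, Continuous fun x => q x k) : Continuous fun x => Qf N m (q x) := by
  unfold Qf spl
  fun_prop

theorem B8_wd {N d : ℕ} (φ : Uni N → Fin N → ℝ) (hφ : ∀ A k, tW A k = ps k (φ A))
    {g : (Fin N → ℝ) → ℂ} (hg : g ∈ Wd N d) :
    Continuous (fun A => g (φ A)) ∧ Continuous g ∧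
      (∫ A, g (φ A) ∂(haarU N)) * ((∫ θ, wt θ ∂(cube (Fin N)) : ℝ) : ℂ)
        = ∫ θ, (wt θ : ℂ) * g θ ∂(cube (Fin N)) := by
  have hP : IsProbabilityMeasure (haarU N) := haar_prob N
  have hint : ∀ g : Uni N → ℂ, Continuous g → Integrable g (haarU N) := fun g hg =>
    hg.integrable_of_hasCompactSupport (HasCompactSupport.of_compactSpace g)
  have hw : Continuous fun θ : Fin N → ℝ => (wt θ : ℂ) := Complex.continuous_ofReal.comp wt_cont
  unfold Wd at hg
  induction hg using Submodule.span_induction with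
  | mem g hg =>
    rcases hg with hg | hg
    · have hg' : g = fun _ => 1 := hg
      subst hg'
      refine ⟨continuous_const, continuous_const, ?_⟩
      simp only [mul_one]
      rw [integral_const, integral_complex_ofReal]
      simp
    · obtain ⟨r, m, -, hg'⟩ := hg
      subst hg'
      have e : ∀ A, (fun a => ps a (φ A)) = tW A := fun A => funext fun a => (hφ A a).symm
      refine ⟨?_, ?_, ?_⟩
      · simp only [e]
        exact B8_Q m (fun A : Uni N => tW A) fun k => tW_cont k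
      · exact B8_Q m (fun θ : Fin N → ℝ => fun a => ps a θ) fun k => B8_ps k
      · simp only [e]
        rw [coe_Q m]
        have h1 := dirichlet m (per_const (N := N) 1)
        simp only [map_one, mul_one, map_zero, mul_zero, Finset.sum_const_zero,
          integral_zero] at h1
        rw [h1, zero_mul]
  | zero =>
    refine ⟨continuous_const, continuous_const, ?_⟩
    simp
  | add f g _ _ hf hg =>
    obtain ⟨f1, f2, f3⟩ := hf
    obtain ⟨g1, g2, g3⟩ := hg
    refine ⟨f1.add g1, f2.add g2, ?_⟩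
    simp only [Pi.add_apply, mul_add]
    rw [integral_add (hint _ f1) (hint _ g1),
      integral_add (int_bdd (fun θ : Fin N → ℝ => (wt θ : ℂ) * f θ) (hw.mul f2))
        (int_bdd (fun θ : Fin N → ℝ => (wt θ : ℂ) * g θ) (hw.mul g2)), add_mul, f3, g3]
  | smul c g _ hg =>
    obtain ⟨g1, g2, g3⟩ := hg
    refine ⟨g1.const_smul c, g2.const_smul c, ?_⟩
    simp only [Pi.smul_apply, smul_eq_mul]
    have e : ∀ θ : Fin N → ℝ, (wt θ : ℂ) * (c * g θ) = c * ((wt θ : ℂ) * g θ) := fun θ => by ring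
    simp only [e]
    rw [integral_const_mul, integral_const_mul, mul_assoc, g3]

theorem weyl {N r : ℕ} (m : Fin r → ℤ) :
    (∫ A, ∏ i, tW A (m i) ∂(haarU N)) * ((∫ θ, wt θ ∂(cube (Fin N)) : ℝ) : ℂ)
      = ∫ θ, (wt θ : ℂ) * ∏ i, ps (m i) θ ∂(cube (Fin N)) := by
  have h0 : ∀ A : Uni N, ∃ φ : Fin N → ℝ, ∀ k : ℤ, tW A k = ps k φ := fun A => angles (sy A)
  choose φ hφ using h0
  have h1 := span_all N _ (mem_Vd (N := N) Finset.univ m le_rfl)
  have h2 := (B8_wd φ hφ h1).2.2
  simp only [← hφ] at h2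
  exact h2

theorem weyl2 {N : ℕ} (k : ℤ) : (∫ A, ‖tW A k‖ ^ 2 ∂(haarU N)) * (∫ θ, wt θ ∂(cube (Fin N)))
      = ∫ θ, wt θ * ‖ps k θ‖ ^ 2 ∂(cube (Fin N)) := by
  have h := weyl (N := N) (r := 2) ![k, -k]
  have e1 : ∀ A : Uni N, ∏ i, tW A ((![k, -k] : Fin 2 → ℤ) i) = ((‖tW A k‖ ^ 2 : ℝ) : ℂ) := by
    intro A
    rw [Fin.prod_univ_two]
    simp only [Matrix.cons_val_zero, Matrix.cons_val_one]
    rw [← tW_conj, Complex.mul_conj, Complex.normSq_eq_norm_sq]
  have e2 : ∀ θ : Fin N → ℝ, (wt θ : ℂ) * ∏ i, ps ((![k, -k] : Fin 2 → ℤ) i) θ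
      = ((wt θ * ‖ps k θ‖ ^ 2 : ℝ) : ℂ) := by
    intro θ
    rw [Fin.prod_univ_two]
    simp only [Matrix.cons_val_zero, Matrix.cons_val_one]
    rw [← conj_ps, Complex.mul_conj, Complex.normSq_eq_norm_sq]
    push_cast
    ring
  simp only [e1, e2] at h
  rw [integral_complex_ofReal, integral_complex_ofReal] at h
  exact_mod_cast h

end COE
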