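import Pool.Agent.LibCOE.Defs

/-! Row P1. Proof sketch:
(Bᵀ A B)(σ(i,0), σ(i,1)) = ∑_{a,b} B(a, σ(i,0)) A(a,b) B(b, σ(i,1)). Expand the product over i (`Finset.prod_univ_sum` with
functions f : Ix n → Ix n, f (i,0) = a_i, f (i,1) = b_i): pf = ∑_f ∏_i A(f(i,0), f(i,1)) ∑_σ sign σ ∏_k B(f k, σ k)
and the inner sum is det (B.submatrix f id) = 0 unless f is a permutation τ (`Matrix.det_zero_of_row_eq`), then
sign τ * det B (`Matrix.det_permute'`, `Matrix.det_apply`, `det_transpose`). -/

open MeasureTheory Set Filter Topology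

namespace COE

open QGr

/-- Functions on the indices as pairs. -/
def P1_e (n : ℕ) : (Fin n → Ix n × Ix n) ≃ (Ix n → Ix n) where
  toFun p k := if k.2 = 0 then (p k.1).1 else (p k.1).2
  invFun f i := (f (i, 0), f (i, 1))
  left_inv p := by
    funext i
    simp
  right_inv f := by
    funext ⟨i, j⟩
    fin_cases j <;> simp

theorem P1_entry {R : Type} [CommRing R] {n : ℕ} (A B : Matrix (Ix n) (Ix n) R) (p q : Ix n) :
    (B.transpose * A * B) p q = ∑ x : Ix n × Ix n, B x.1 p * A x.1 x.2 * B x.2 q := by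
  conv_rhs => rw [Fintype.sum_prod_type_right]
  rw [Matrix.mul_apply]
  refine Finset.sum_congr rfl fun b _ => ?_
  rw [Matrix.mul_apply, Finset.sum_mul]
  exact Finset.sum_congr rfl fun a _ => rfl

theorem P1_prod {R : Type} [CommRing R] {n : ℕ} (A B : Matrix (Ix n) (Ix n) R)
    (σ : Equiv.Perm (Ix n)) :
    ∏ i, (B.transpose * A * B) (σ (i, 0)) (σ (i, 1)) =
      ∑ f : Ix n → Ix n, (∏ i, A (f (i, 0)) (f (i, 1))) * ∏ k, B (f k) (σ k) := by
  simp only [P1_entry]
  rw [Finset.prod_univ_sum, Fintype.piFinset_univ]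
  refine Fintype.sum_equiv (P1_e n) _ _ fun p => ?_
  rw [Fintype.prod_prod_type, ← Finset.prod_mul_distrib]
  refine Finset.prod_congr rfl fun i _ => ?_
  rw [Fin.prod_univ_two]
  simp only [P1_e, Equiv.coe_fn_mk, if_true, Fin.isValue, one_ne_zero, if_false]
  ring

theorem P1_det {R : Type} [CommRing R] {n : ℕ} (B : Matrix (Ix n) (Ix n) R) (f : Ix n → Ix n) :
    ∑ σ : Equiv.Perm (Ix n), (Equiv.Perm.sign σ : ℤ) • ∏ k, B (f k) (σ k) =
      (B.submatrix f id).det := by
  rw [← Matrix.det_transpose, Matrix.det_apply]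
  refine Finset.sum_congr rfl fun σ _ => ?_
  rfl

theorem P1_det_zero {R : Type} [CommRing R] {n : ℕ} (B : Matrix (Ix n) (Ix n) R) {f : Ix n → Ix n}
    (hf : ¬ Function.Bijective f) : (B.submatrix f id).det = 0 := by
  have h : ¬ Function.Injective f := fun h => hf (Finite.injective_iff_bijective.mp h)
  obtain ⟨a, b, hab, hne⟩ : ∃ a b, f a = f b ∧ a ≠ b := by
    unfold Function.Injective at h
    push Not at h
    exact h
  refine Matrix.det_zero_of_row_eq hne ?_
  funext k
  simp [Matrix.submatrix_apply, hab]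

theorem pf_mul {R : Type} [CommRing R] {n : ℕ} (A B : Matrix (Ix n) (Ix n) R) :
    pf (B.transpose * A * B) = B.det * pf A := by
  classical
  unfold pf
  calc ∑ σ : Equiv.Perm (Ix n), (Equiv.Perm.sign σ : ℤ) •
        ∏ i, (B.transpose * A * B) (σ (i, 0)) (σ (i, 1))
      = ∑ σ : Equiv.Perm (Ix n), ∑ f : Ix n → Ix n, (∏ i, A (f (i, 0)) (f (i, 1))) *
          ((Equiv.Perm.sign σ : ℤ) • ∏ k, B (f k) (σ k)) := by
        refine Finset.sum_congr rfl fun σ _ => ?_
        rw [P1_prod, Finset.smul_sum]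
        refine Finset.sum_congr rfl fun f _ => ?_
        rw [mul_smul_comm]
    _ = ∑ f : Ix n → Ix n, (∏ i, A (f (i, 0)) (f (i, 1))) * (B.submatrix f id).det := by
        rw [Finset.sum_comm]
        refine Finset.sum_congr rfl fun f _ => ?_
        rw [← Finset.mul_sum, P1_det]
    _ = ∑ f : Ix n → Ix n with Function.Bijective f,
          (∏ i, A (f (i, 0)) (f (i, 1))) * (B.submatrix f id).det := by
        refine (Finset.sum_subset (Finset.filter_subset _ _) fun f _ hbij => ?_).symm
        rw [P1_det_zero, mul_zero]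
        simpa only [true_and, Finset.mem_filter, Finset.mem_univ] using hbij
    _ = ∑ τ : Equiv.Perm (Ix n), (∏ i, A (τ (i, 0)) (τ (i, 1))) * (B.submatrix τ id).det :=
        Finset.sum_bij (fun p h => Equiv.ofBijective p (Finset.mem_filter.1 h).2)
          (fun _ _ => Finset.mem_univ _)
          (fun _ _ _ _ h => by injection h)
          (fun b _ => ⟨b, Finset.mem_filter.2 ⟨Finset.mem_univ _, b.bijective⟩,
            DFunLike.coe_injective rfl⟩) fun _ _ => rfl
    _ = B.det * ∑ τ : Equiv.Perm (Ix n), (Equiv.Perm.sign τ : ℤ) •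
          ∏ i, A (τ (i, 0)) (τ (i, 1)) := by
        rw [Finset.mul_sum]
        refine Finset.sum_congr rfl fun τ _ => ?_
        rw [Matrix.det_permute, zsmul_eq_mul]
        ring

end COE
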