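import Pool.Agent.LibCOE.Defs

/-! Row P10. Proof sketch:
hp (i,b) = 2 i + b - (2n-1)/2 is a half-integer: never 0, injective, odd under rv (Fin.rev). eps_int: split the interval at
y: ∫_0^y e^{ipx} - ∫_y^{2π} e^{ipx}, e^{2πip} = -1. sk_anti: swap the integrals (`intervalIntegral` Fubini:
`MeasureTheory.intervalIntegral_integral_interval_swap` or via set integrals; integrand bounded measurable), Real.sign (y - x) =
-Real.sign (x - y). sk_poly: linearity of the integrals. skew_M from sk_anti. -/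

open MeasureTheory Set Filter Topology

namespace COE

open QGr

theorem P10_two_hp {n : ℕ} (k : Ix n) : 2 * hp k = ((2 * (od k : ℤ) - 2 * (n : ℤ) + 1 : ℤ) : ℝ) := by
  unfold hp
  push_cast
  ring

theorem P10_od_inj {n : ℕ} {k l : Ix n} (h : od k = od l) : k = l := by
  obtain ⟨⟨a, ha⟩, ⟨b, hb⟩⟩ := k
  obtain ⟨⟨c, hc⟩, ⟨d, hd⟩⟩ := l
  simp only [od] at h
  simp only [Prod.mk.injEq, Fin.mk.injEq]
  omega

theorem hp_rv {n : ℕ} (k : Ix n) : hp (rv k) = -hp k := by
  obtain ⟨⟨a, ha⟩, ⟨b, hb⟩⟩ := k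
  have h1 : od (rv ((⟨a, ha⟩, ⟨b, hb⟩) : Ix n)) + od ((⟨a, ha⟩, ⟨b, hb⟩) : Ix n) + 1 = 2 * n := by
    simp only [od, rv, Fin.rev]
    omega
  have h2 : (od (rv ((⟨a, ha⟩, ⟨b, hb⟩) : Ix n)) : ℝ) + od ((⟨a, ha⟩, ⟨b, hb⟩) : Ix n) + 1 = 2 * n := by
    exact_mod_cast h1
  unfold hp
  linarith

theorem hp_ne {n : ℕ} (k : Ix n) : hp k ≠ 0 := by
  intro h
  have h1 := P10_two_hp k
  rw [h, mul_zero] at h1
  have h2 : (2 * (od k : ℤ) - 2 * (n : ℤ) + 1 : ℤ) = 0 := by exact_mod_cast h1.symm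
  omega

theorem hp_inj {n : ℕ} {k l : Ix n} (h : hp k = hp l) : k = l := by
  apply P10_od_inj
  unfold hp at h
  have h1 : (od k : ℝ) = od l := by linarith
  exact_mod_cast h1

theorem P10_ep_cont {n : ℕ} (k : Ix n) : Continuous (ep k) := by
  unfold ep
  fun_prop

theorem P10_ep_2pi {n : ℕ} (k : Ix n) : ep k (2 * Real.pi) = -1 := by
  unfold ep
  have h1 : ((hp k * (2 * Real.pi) : ℝ) : ℂ) * Complex.I
      = Real.pi * Complex.I + (((od k : ℤ) - (n : ℤ) : ℤ) : ℂ) * (2 * Real.pi * Complex.I) := by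
    unfold hp
    push_cast
    ring
  rw [h1, Complex.exp_add, Complex.exp_int_mul_two_pi_mul_I, Complex.exp_pi_mul_I]
  ring

theorem P10_ep_int {n : ℕ} (k : Ix n) (a b : ℝ) :
    ∫ x in a..b, ep k x = (ep k b - ep k a) / (Complex.I * hp k) := by
  have h0 : (Complex.I * hp k : ℂ) ≠ 0 := by
    apply mul_ne_zero Complex.I_ne_zero
    exact_mod_cast hp_ne k
  have h1 : ∀ x : ℝ, ep k x = Complex.exp ((Complex.I * hp k) * x) := by
    intro x
    unfold ep
    congr 1
    push_cast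
    ring
  simp_rw [h1]
  rw [integral_exp_mul_complex h0]

theorem P10_sign_meas : Measurable Real.sign := by
  unfold Real.sign
  exact Measurable.ite measurableSet_Iio measurable_const
    (Measurable.ite measurableSet_Ioi measurable_const measurable_const)

theorem P10_sign_norm (r : ℝ) : ‖((Real.sign r : ℝ) : ℂ)‖ ≤ 1 := by
  rcases Real.sign_apply_eq r with h | h | h <;> simp [h]

theorem eps_int {n : ℕ} (k : Ix n) (y : ℝ) (hy : y ∈ Icc 0 (2 * Real.pi)) :
    ∫ x in (0 : ℝ)..(2 * Real.pi), (Real.sign (y - x) : ℂ) * ep k x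
      = 2 / (Complex.I * hp k) * ep k y := by
  have hi : ∀ a b : ℝ, IntervalIntegrable (fun x => (Real.sign (y - x) : ℂ) * ep k x) volume a b := by
    intro a b
    have h1 : IntervalIntegrable (ep k) volume a b := (P10_ep_cont k).intervalIntegrable a b
    rw [intervalIntegrable_iff] at h1 ⊢
    refine Integrable.bdd_mul (c := 1) h1 ?_ ?_
    · exact (Complex.measurable_ofReal.comp
        (P10_sign_meas.comp (measurable_const.sub measurable_id))).aestronglyMeasurable
    · exact Filter.Eventually.of_forall fun x => P10_sign_norm _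
  rw [← intervalIntegral.integral_add_adjacent_intervals (hi 0 y) (hi y (2 * Real.pi))]
  have e1 : ∫ x in (0 : ℝ)..y, (Real.sign (y - x) : ℂ) * ep k x = ∫ x in (0 : ℝ)..y, ep k x := by
    apply intervalIntegral.integral_congr_ae
    have h2 : ∀ᵐ x : ℝ, x ≠ y := by
      simp [ae_iff]
    filter_upwards [h2] with x hx hx2
    rw [uIoc_of_le hy.1] at hx2
    have h3 : 0 < y - x := by
      have := lt_of_le_of_ne hx2.2 hx
      linarith
    rw [Real.sign_of_pos h3]
    simp
  have e2 : ∫ x in y..(2 * Real.pi), (Real.sign (y - x) : ℂ) * ep k x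
      = -∫ x in y..(2 * Real.pi), ep k x := by
    rw [← intervalIntegral.integral_neg]
    apply intervalIntegral.integral_congr_ae
    refine Filter.Eventually.of_forall fun x hx2 => ?_
    rw [uIoc_of_le hy.2] at hx2
    have h3 : y - x < 0 := by
      have := hx2.1
      linarith
    rw [Real.sign_of_neg h3]
    simp
  rw [e1, e2, P10_ep_int, P10_ep_int, P10_ep_2pi]
  have h4 : ep k 0 = 1 := by
    unfold ep
    simp
  rw [h4]
  ring

theorem P10_int2 (f g : ℝ → ℂ) (hf : Continuous f) (hg : Continuous g) :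
    IntegrableOn (fun p : ℝ × ℝ => (Real.sign (p.2 - p.1) : ℂ) * (f p.1 * g p.2))
      (Ioc 0 (2 * Real.pi) ×ˢ Ioc 0 (2 * Real.pi)) := by
  have h1 : IntegrableOn (fun p : ℝ × ℝ => f p.1 * g p.2)
      (Icc 0 (2 * Real.pi) ×ˢ Icc 0 (2 * Real.pi)) := by
    apply ContinuousOn.integrableOn_compact
    · exact isCompact_Icc.prod isCompact_Icc
    · fun_prop
  have h2 := h1.mono_set (prod_mono Ioc_subset_Icc_self Ioc_subset_Icc_self)
  refine Integrable.bdd_mul (c := 1) h2 ?_ ?_
  · exact (Complex.measurable_ofReal.comp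
      (P10_sign_meas.comp (measurable_snd.sub measurable_fst))).aestronglyMeasurable
  · exact Filter.Eventually.of_forall fun x => P10_sign_norm _

theorem P10_sk (f g : ℝ → ℂ) (hf : Continuous f) (hg : Continuous g) :
    sk f g = ∫ p : ℝ × ℝ in Ioc 0 (2 * Real.pi) ×ˢ Ioc 0 (2 * Real.pi),
      (Real.sign (p.2 - p.1) : ℂ) * (f p.1 * g p.2) := by
  have hp : (0 : ℝ) ≤ 2 * Real.pi := by positivity
  rw [Measure.volume_eq_prod, setIntegral_prod _ (by
    have := P10_int2 f g hf hg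
    rwa [Measure.volume_eq_prod] at this)]
  unfold sk
  simp_rw [intervalIntegral.integral_of_le hp]

theorem P10_left (f₁ f₂ g : ℝ → ℂ) (h₁ : Continuous f₁) (h₂ : Continuous f₂) (hg : Continuous g)
    (t : ℂ) : sk (fun x => f₁ x + t * f₂ x) g = sk f₁ g + t * sk f₂ g := by
  rw [P10_sk _ _ (by fun_prop) hg, P10_sk _ _ h₁ hg, P10_sk _ _ h₂ hg,
    ← integral_const_mul, ← integral_add (P10_int2 _ _ h₁ hg) ((P10_int2 _ _ h₂ hg).const_mul t)]
  congr 1
  ext p
  ring

theorem P10_right (f g₁ g₂ : ℝ → ℂ) (hf : Continuous f) (h₁ : Continuous g₁) (h₂ : Continuous g₂)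
    (t : ℂ) : sk f (fun x => g₁ x + t * g₂ x) = sk f g₁ + t * sk f g₂ := by
  rw [P10_sk _ _ hf (by fun_prop), P10_sk _ _ hf h₁, P10_sk _ _ hf h₂,
    ← integral_const_mul, ← integral_add (P10_int2 _ _ hf h₁) ((P10_int2 _ _ hf h₂).const_mul t)]
  congr 1
  ext p
  ring

theorem sk_anti (f g : ℝ → ℂ) (hf : Continuous f) (hg : Continuous g) : sk f g = -sk g f := by
  have h1 : sk g f = ∫ y in (0 : ℝ)..(2 * Real.pi), ∫ x in (0 : ℝ)..(2 * Real.pi),
      (Real.sign (x - y) : ℂ) * (g y * f x) := rfl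
  have h2 := intervalIntegral_intervalIntegral_swap
    (F := fun x y : ℝ => (Real.sign (y - x) : ℂ) * (f x * g y)) (a := 0) (b := 2 * Real.pi)
    (c := 0) (d := 2 * Real.pi) (by
      have hp : (0 : ℝ) ≤ 2 * Real.pi := by positivity
      rw [uIoc_of_le hp]
      exact P10_int2 f g hf hg)
  rw [h1]
  unfold sk
  rw [h2, ← intervalIntegral.integral_neg]
  congr 1
  ext y
  rw [← intervalIntegral.integral_neg]
  congr 1
  ext x
  have h3 : y - x = -(x - y) := by ring
  rw [h3, Real.sign_neg]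
  push_cast
  ring

theorem sk_poly {n : ℕ} (k l : Ix n) (u : ℝ → ℝ) (hu : Continuous u) (t : ℂ) :
    sk (fun x => (1 + t * u x) * ep k x) (fun x => (1 + t * u x) * ep l x)
      = sk (ep k) (ep l) + t * (sk (fun x => u x * ep k x) (ep l) + sk (ep k) (fun x => u x * ep l x))
        + t ^ 2 * sk (fun x => u x * ep k x) (fun x => u x * ep l x) := by
  have hk := P10_ep_cont k
  have hl := P10_ep_cont l
  have hu' : Continuous fun x => (u x : ℂ) := Complex.continuous_ofReal.comp hu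
  have hku : Continuous fun x => (u x : ℂ) * ep k x := hu'.mul hk
  have hlu : Continuous fun x => (u x : ℂ) * ep l x := hu'.mul hl
  have e1 : ∀ m : Ix n, (fun x => (1 + t * (u x : ℂ)) * ep m x)
      = fun x => ep m x + t * ((u x : ℂ) * ep m x) := by
    intro m
    ext x
    ring
  rw [e1 k, e1 l, P10_left (ep k) (fun x => (u x : ℂ) * ep k x) _ hk hku (by fun_prop) t,
    P10_right (ep k) (ep l) (fun x => (u x : ℂ) * ep l x) hk hl hlu t,
    P10_right (fun x => (u x : ℂ) * ep k x) (ep l) (fun x => (u x : ℂ) * ep l x) hku hl hlu t]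
  ring

theorem skew_M {n : ℕ} (u : ℝ → ℝ) (hu : Continuous u) : (M0 n).transpose = -M0 n ∧
    (M1 n u).transpose = -M1 n u ∧ (M2 n u).transpose = -M2 n u := by
  have hu' : Continuous fun x => (u x : ℂ) := Complex.continuous_ofReal.comp hu
  have hk := fun k : Ix n => P10_ep_cont k
  have hku : ∀ k : Ix n, Continuous (fun x => (u x : ℂ) * ep k x) := fun k =>
    hu'.mul (P10_ep_cont k)
  refine ⟨?_, ?_, ?_⟩
  · ext k l
    simp only [Matrix.transpose_apply, Matrix.neg_apply, M0]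
    exact sk_anti _ _ (hk l) (hk k)
  · ext k l
    simp only [Matrix.transpose_apply, Matrix.neg_apply, M1]
    rw [sk_anti _ _ (hku l) (hk k), sk_anti _ _ (hk l) (hku k)]
    ring
  · ext k l
    simp only [Matrix.transpose_apply, Matrix.neg_apply, M2]
    exact sk_anti _ _ (hku l) (hku k)

end COE
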