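import Pool.Agent.LibCOE.Defs
import Pool.Agent.LibCOE.CO_P10

/-! Row P11. Proof sketch:
sk (u ep_k) (ep_l) = ∫_x u ep_k(x) ∫_y sign (y - x) ep_l(y) = -2/(i hp l) ∫ u ep_k ep_l and sk (ep_k) (u ep_l) =
2/(i hp k) ∫ u ep_k ep_l (swap the integrals first, then eps_int). sk_ep: ∫_0^{2π} e^{i(hp k + hp l)x} = 2π if l = rv k, else 0
(hp k + hp l is an integer). Rm_mul: one nonzero term, rv (rv k) = k. -/

open MeasureTheory Set Filter Topology

namespace COE

open QGr


theorem P11_ep_cont {n : ℕ} (k : Ix n) : Continuous (ep k) := by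
  unfold ep
  fun_prop

theorem P11_sk {n : ℕ} (l : Ix n) (f : ℝ → ℂ) :
    sk f (ep l) = -(2 / (Complex.I * hp l)) * ∫ x in (0 : ℝ)..(2 * Real.pi), f x * ep l x := by
  have hp0 : (0 : ℝ) ≤ 2 * Real.pi := by positivity
  unfold sk
  rw [← intervalIntegral.integral_const_mul]
  apply intervalIntegral.integral_congr
  intro x hx
  rw [uIcc_of_le hp0] at hx
  have h1 : ∀ y : ℝ, (Real.sign (y - x) : ℂ) * (f x * ep l y)
      = -(f x) * ((Real.sign (x - y) : ℂ) * ep l y) := by
    intro y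
    have h3 : y - x = -(x - y) := by ring
    rw [h3, Real.sign_neg]
    push_cast
    ring
  simp_rw [h1]
  rw [intervalIntegral.integral_const_mul, eps_int l x hx]
  ring

theorem P11_exp {n : ℕ} (k l : Ix n) : ∫ x in (0 : ℝ)..(2 * Real.pi), ep k x * ep l x
    = if l = rv k then 2 * (Real.pi : ℂ) else 0 := by
  have h1 : ∀ x : ℝ, ep k x * ep l x = Complex.exp ((Complex.I * (hp k + hp l : ℝ)) * x) := by
    intro x
    unfold ep
    rw [← Complex.exp_add]
    congr 1
    push_cast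
    ring
  simp_rw [h1]
  by_cases h : l = rv k
  · rw [if_pos h, h, hp_rv]
    simp
  · rw [if_neg h]
    have h2 : hp k + hp l ≠ 0 := by
      intro h3
      apply h
      apply hp_inj
      rw [hp_rv]
      linarith
    have h0 : (Complex.I * (hp k + hp l : ℝ) : ℂ) ≠ 0 := by
      apply mul_ne_zero Complex.I_ne_zero
      exact_mod_cast h2
    rw [integral_exp_mul_complex h0]
    have h4 : Complex.I * ((hp k + hp l : ℝ) : ℂ) * ((2 * Real.pi : ℝ) : ℂ)
        = (((od k : ℤ) + (od l : ℤ) - 2 * (n : ℤ) + 1 : ℤ) : ℂ) * (2 * Real.pi * Complex.I) := by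
      unfold hp
      push_cast
      ring
    rw [h4, Complex.exp_int_mul_two_pi_mul_I]
    simp

theorem sk_ep {n : ℕ} (k l : Ix n) :
    sk (ep k) (ep l) = if l = rv k then 4 * Real.pi / (Complex.I * hp k) else 0 := by
  rw [P11_sk, P11_exp]
  by_cases h : l = rv k
  · rw [if_pos h, if_pos h, h, hp_rv]
    have h0 : (hp k : ℂ) ≠ 0 := by exact_mod_cast hp_ne k
    have h1 := Complex.I_ne_zero
    push_cast
    field_simp
    ring
  · rw [if_neg h, if_neg h, mul_zero]

theorem sk_u {n : ℕ} (k l : Ix n) (u : ℝ → ℂ) (hu : Continuous u) :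
    sk (fun x => u x * ep k x) (ep l) + sk (ep k) (fun x => u x * ep l x)
      = 2 / Complex.I * (1 / hp k - 1 / hp l) * ∫ x in (0 : ℝ)..(2 * Real.pi), u x * (ep k x * ep l x) := by
  have hk := P11_ep_cont k
  have hl := P11_ep_cont l
  rw [sk_anti (ep k) (fun x => u x * ep l x) hk (hu.mul hl), P11_sk, P11_sk]
  have e1 : ∀ x, u x * ep l x * ep k x = u x * (ep k x * ep l x) := fun x => by ring
  have e2 : ∀ x, u x * ep k x * ep l x = u x * (ep k x * ep l x) := fun x => by ring
  simp_rw [e1, e2]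
  have h0 : (hp k : ℂ) ≠ 0 := by exact_mod_cast hp_ne k
  have h0' : (hp l : ℂ) ≠ 0 := by exact_mod_cast hp_ne l
  have h1 := Complex.I_ne_zero
  generalize ∫ x in (0 : ℝ)..(2 * Real.pi), u x * (ep k x * ep l x) = J
  field_simp
  ring

theorem Rm_mul (n : ℕ) : Rm n * M0 n = 1 := by
  ext k m
  rw [Matrix.mul_apply]
  have hrr : ∀ k : Ix n, rv (rv k) = k := by
    intro k
    apply hp_inj
    rw [hp_rv, hp_rv, neg_neg]
  have h1 : ∀ l, Rm n k l * M0 n l m
      = if l = rv k then Complex.I * hp l / (4 * Real.pi) * sk (ep l) (ep m) else 0 := by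
    intro l
    unfold Rm M0
    by_cases h : l = rv k
    · rw [if_pos h, if_pos h]
    · rw [if_neg h, if_neg h, zero_mul]
  rw [Finset.sum_congr rfl fun l _ => h1 l, Finset.sum_ite_eq' Finset.univ (rv k),
    if_pos (Finset.mem_univ _), sk_ep, hrr, Matrix.one_apply]
  by_cases h : m = k
  · rw [if_pos h, if_pos h.symm]
    have h0 : (hp (rv k) : ℂ) ≠ 0 := by exact_mod_cast hp_ne (rv k)
    have h1 := Complex.I_ne_zero
    have h2 : (Real.pi : ℂ) ≠ 0 := by exact_mod_cast Real.pi_ne_zero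
    field_simp
  · rw [if_neg h, if_neg (fun h' => h h'.symm), mul_zero]

end COE
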