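import Pool.Agent.LibCOE.Defs
import Pool.Agent.LibCOE.CO_P10
import Pool.Agent.LibCOE.CO_P11

/-! Row P12. Proof sketch:
trace (R M) = ∑_k R(k, rv k) M(rv k, k), R(k, rv k) = i p/(4π), p = hp (rv k); reindex by rv. tr1: sk_u with ep(rv k) ep(k) =
1 gives (2/i)(2/p) ∫ u, each term (1/π) ∫ u. tr2: ∑_p (i p/4π) ∫∫ sign (y-x) u(x) u(y) e^{ip(x-y)}, and
(1/2π) ∑_p i p e^{ipr} = kD n r (imaginary parts cancel p ↔ -p), sign (y-x) = -sign (x-y). -/

open MeasureTheory Set Filter Topology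

namespace COE

open QGr


theorem P12_rr {n : ℕ} (k : Ix n) : rv (rv k) = k := by
  obtain ⟨a, b⟩ := k
  simp [rv]

theorem P12_tr {n : ℕ} (M : Matrix (Ix n) (Ix n) ℂ) :
    Matrix.trace (Rm n * M) = ∑ k : Ix n, Complex.I * hp (rv k) / (4 * Real.pi) * M (rv k) k := by
  unfold Matrix.trace
  apply Finset.sum_congr rfl
  intro k _
  rw [Matrix.diag_apply, Matrix.mul_apply]
  have h1 : ∀ l, Rm n k l * M l k
      = if l = rv k then Complex.I * hp l / (4 * Real.pi) * M l k else 0 := by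
    intro l
    unfold Rm
    by_cases h : l = rv k
    · rw [if_pos h, if_pos h]
    · rw [if_neg h, if_neg h, zero_mul]
  rw [Finset.sum_congr rfl fun l _ => h1 l, Finset.sum_ite_eq' Finset.univ (rv k),
    if_pos (Finset.mem_univ _)]

theorem P12_ep {n : ℕ} (k : Ix n) (x y : ℝ) : ep (rv k) x * ep k y
    = Complex.exp ((hp k * (y - x) : ℝ) * Complex.I) := by
  unfold ep
  rw [← Complex.exp_add, hp_rv]
  congr 1
  push_cast
  ring

theorem tr1 {n : ℕ} (u : ℝ → ℝ) (hu : Continuous u) : Matrix.trace (Rm n * M1 n u)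
      = ((2 * n / Real.pi * ∫ x in (0 : ℝ)..(2 * Real.pi), u x : ℝ) : ℂ) := by
  have hu' : Continuous fun x => (u x : ℂ) := Complex.continuous_ofReal.comp hu
  rw [P12_tr]
  have h2 : (Real.pi : ℂ) ≠ 0 := by exact_mod_cast Real.pi_ne_zero
  have h1 : ∀ k : Ix n, Complex.I * hp (rv k) / (4 * Real.pi) * M1 n u (rv k) k
      = 1 / Real.pi * ((∫ x in (0 : ℝ)..(2 * Real.pi), u x : ℝ) : ℂ) := by
    intro k
    unfold M1
    rw [sk_u (rv k) k (fun x => (u x : ℂ)) hu']
    have e1 : ∀ x, (u x : ℂ) * (ep (rv k) x * ep k x) = u x := by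
      intro x
      rw [P12_ep]
      simp
    simp_rw [e1]
    rw [intervalIntegral.integral_ofReal, hp_rv]
    have h0 : (hp k : ℂ) ≠ 0 := by exact_mod_cast hp_ne k
    have hI := Complex.I_ne_zero
    push_cast
    field_simp
    ring
  rw [Finset.sum_congr rfl fun k _ => h1 k, Finset.sum_const, nsmul_eq_mul]
  have h3 : (Finset.univ : Finset (Ix n)).card = n * 2 := by
    rw [Finset.card_univ, Fintype.card_prod, Fintype.card_fin, Fintype.card_fin]
  rw [h3]
  push_cast
  field_simp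

theorem P12_sum {n : ℕ} (r : ℝ) : ∑ k : Ix n, Complex.I * hp (rv k) / (4 * Real.pi)
    * Complex.exp ((hp k * r : ℝ) * Complex.I) = ((-(1 / 2) * kD n r : ℝ) : ℂ) := by
  have h2 : (Real.pi : ℂ) ≠ 0 := by exact_mod_cast Real.pi_ne_zero
  have hrv : Function.Involutive (rv : Ix n → Ix n) := fun k => P12_rr k
  have h1 : ∑ k : Ix n, Complex.I * hp (rv k) / (4 * Real.pi)
      * Complex.exp ((hp k * r : ℝ) * Complex.I)
      = ∑ k : Ix n, -(Complex.I * hp (rv k) / (4 * Real.pi)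
      * Complex.exp (-((hp k * r : ℝ) * Complex.I))) := by
    rw [← Equiv.sum_comp (Equiv.ofBijective _ hrv.bijective)]
    apply Finset.sum_congr rfl
    intro k _
    rw [Equiv.ofBijective_apply, P12_rr, hp_rv]
    have : ((-hp k * r : ℝ) : ℂ) * Complex.I = -((hp k * r : ℝ) * Complex.I) := by
      push_cast
      ring
    rw [this]
    push_cast
    ring
  have h3 : ∑ k : Ix n, Complex.I * hp (rv k) / (4 * Real.pi)
      * Complex.exp ((hp k * r : ℝ) * Complex.I)
      = (1 / 2) * ∑ k : Ix n, (Complex.I * hp (rv k) / (4 * Real.pi)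
      * Complex.exp ((hp k * r : ℝ) * Complex.I) + -(Complex.I * hp (rv k) / (4 * Real.pi)
      * Complex.exp (-((hp k * r : ℝ) * Complex.I)))) := by
    rw [Finset.sum_add_distrib, ← h1]
    ring
  rw [h3]
  unfold kD
  push_cast
  rw [Finset.mul_sum, Finset.mul_sum, Finset.mul_sum]
  apply Finset.sum_congr rfl
  intro k _
  rw [hp_rv]
  have h4 := Complex.exp_mul_I ((hp k : ℂ) * r)
  have h5 := Complex.exp_mul_I (-((hp k : ℂ) * r))
  rw [Complex.cos_neg, Complex.sin_neg] at h5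
  rw [h4, show -((hp k : ℂ) * r * Complex.I) = -((hp k : ℂ) * r) * Complex.I by ring, h5]
  have hI := Complex.I_sq
  push_cast
  field_simp
  linear_combination (-(4 : ℂ) * hp k * Complex.sin (hp k * r)) * hI

theorem tr2 {n : ℕ} (u : ℝ → ℝ) (hu : Continuous u) : Matrix.trace (Rm n * M2 n u)
      = ((-(1 / 2) * ∫ x in (0 : ℝ)..(2 * Real.pi), ∫ y in (0 : ℝ)..(2 * Real.pi),
        u x * u y * (Real.sign (x - y) * kD n (x - y)) : ℝ) : ℂ) := by
  have hu' : Continuous fun x => (u x : ℂ) := Complex.continuous_ofReal.comp hu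
  have hku : ∀ k : Ix n, Continuous (fun x => (u x : ℂ) * ep k x) := fun k =>
    hu'.mul (P10_ep_cont k)
  have hp0 : (0 : ℝ) ≤ 2 * Real.pi := by positivity
  have hint : IntegrableOn (fun p : ℝ × ℝ =>
      u p.1 * u p.2 * (Real.sign (p.1 - p.2) * kD n (p.1 - p.2)))
      (Ioc 0 (2 * Real.pi) ×ˢ Ioc 0 (2 * Real.pi)) := by
    have hkD : Continuous (kD n) := by
      unfold kD
      fun_prop
    have h1 : IntegrableOn (fun p : ℝ × ℝ => u p.1 * u p.2 * kD n (p.1 - p.2))
        (Icc 0 (2 * Real.pi) ×ˢ Icc 0 (2 * Real.pi)) := by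
      apply ContinuousOn.integrableOn_compact
      · exact isCompact_Icc.prod isCompact_Icc
      · fun_prop
    have h2 := h1.mono_set (prod_mono Ioc_subset_Icc_self Ioc_subset_Icc_self)
    have h3 := Integrable.bdd_mul (c := 1) (f := fun p : ℝ × ℝ => Real.sign (p.1 - p.2)) h2
      (P10_sign_meas.comp (measurable_fst.sub measurable_snd)).aestronglyMeasurable
      (Filter.Eventually.of_forall fun p => by
        rcases Real.sign_apply_eq (p.1 - p.2) with h | h | h <;> simp [h])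
    refine h3.congr (Filter.Eventually.of_forall fun p => ?_)
    simp only
    ring
  rw [P12_tr]
  have e1 : (∫ x in (0 : ℝ)..(2 * Real.pi), ∫ y in (0 : ℝ)..(2 * Real.pi),
        u x * u y * (Real.sign (x - y) * kD n (x - y)))
      = ∫ p : ℝ × ℝ in Ioc 0 (2 * Real.pi) ×ˢ Ioc 0 (2 * Real.pi),
        u p.1 * u p.2 * (Real.sign (p.1 - p.2) * kD n (p.1 - p.2)) := by
    rw [Measure.volume_eq_prod, setIntegral_prod _ (by rwa [Measure.volume_eq_prod] at hint)]
    simp_rw [intervalIntegral.integral_of_le hp0]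
  rw [e1, ← integral_const_mul, ← integral_complex_ofReal]
  have e2 : ∀ k : Ix n, Complex.I * hp (rv k) / (4 * Real.pi) * M2 n u (rv k) k
      = ∫ p : ℝ × ℝ in Ioc 0 (2 * Real.pi) ×ˢ Ioc 0 (2 * Real.pi),
        Complex.I * hp (rv k) / (4 * Real.pi) * ((Real.sign (p.2 - p.1) : ℂ) *
          ((u p.1 * ep (rv k) p.1) * (u p.2 * ep k p.2))) := by
    intro k
    unfold M2
    rw [P10_sk _ _ (hku (rv k)) (hku k), ← integral_const_mul]
  rw [Finset.sum_congr rfl fun k _ => e2 k, ← integral_finsetSum _ fun k _ =>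
    (P10_int2 _ _ (hku (rv k)) (hku k)).const_mul _]
  congr 1
  ext p
  have e3 : ∀ k : Ix n, Complex.I * hp (rv k) / (4 * Real.pi) * ((Real.sign (p.2 - p.1) : ℂ) *
      ((u p.1 * ep (rv k) p.1) * (u p.2 * ep k p.2)))
      = (Real.sign (p.2 - p.1) : ℂ) * (u p.1 * u p.2) * (Complex.I * hp (rv k) / (4 * Real.pi)
        * Complex.exp ((hp k * (p.2 - p.1) : ℝ) * Complex.I)) := by
    intro k
    rw [← P12_ep]
    ring
  rw [Finset.sum_congr rfl fun k _ => e3 k, ← Finset.mul_sum, P12_sum]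
  have h4 : kD n (p.2 - p.1) = -kD n (p.1 - p.2) := by
    unfold kD
    have : ∀ k : Ix n, hp k * Real.sin (hp k * (p.2 - p.1))
        = -(hp k * Real.sin (hp k * (p.1 - p.2))) := by
      intro k
      rw [show hp k * (p.2 - p.1) = -(hp k * (p.1 - p.2)) by ring, Real.sin_neg]
      ring
    rw [Finset.sum_congr rfl fun k _ => this k, Finset.sum_neg_distrib]
    ring
  have h5 : Real.sign (p.2 - p.1) = -Real.sign (p.1 - p.2) := by
    rw [show p.2 - p.1 = -(p.1 - p.2) by ring, Real.sign_neg]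
  rw [h4, h5]
  push_cast
  ring

end COE
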