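import Pool.Agent.LibCOE.Defs
import Pool.Agent.LibCOE.CO_P10
import Pool.Agent.LibCOE.CO_P11

/-! Row P13. Proof sketch:
trace = ∑_{k,l} R(k, rv k) M1(rv k, l) R(l, rv l) M1(rv l, k); with p = hp (rv k), q = hp (rv l): M1(rv k, l) =
(2/i)(1/p + 1/q) ∫ u e^{i(p-q)x}, M1(rv l, k) = (2/i)(1/p + 1/q) ∫ u e^{i(q-p)y}; (ip/4π)(iq/4π)(2/i)^2 (1/p+1/q)^2 =
(1/4π^2)(2 + p/q + q/p). Sum over p, q: (1/4π^2) ∑ (2 + p/q + q/p) e^{i(p-q)r} = 2 kS^2 - 2 kD kI, using ∑ e^{ipr} = 2π kS,
∑ p e^{ipr} = -2π i kD, ∑ (1/p) e^{ipr} = 2π i kI. -/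

open MeasureTheory Set Filter Topology

namespace COE

open QGr


theorem P13_sum {n : ℕ} (f : ℝ → ℂ) : ∑ k : Ix n, f (hp k) = ∑ k : Ix n, f (-hp k) := by
  refine Fintype.sum_equiv (Equiv.prodCongr Fin.revPerm Fin.revPerm) _ _ ?_
  intro k
  have h1 := hp_rv k
  have h2 : hp ((Equiv.prodCongr Fin.revPerm Fin.revPerm) k) = -hp k := h1
  rw [h2, neg_neg]

theorem P13_RM {n : ℕ} (u : ℝ → ℝ) (hu : Continuous u) (i j : Ix n) :
    (Rm n * M1 n u) i j = hp i / (2 * Real.pi) * (1 / hp i + 1 / hp j) *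
      ∫ x in (0 : ℝ)..(2 * Real.pi), (u x : ℂ) * Complex.exp (((hp j - hp i) * x : ℝ) * Complex.I) := by
  rw [Matrix.mul_apply, Finset.sum_eq_single (rv i)]
  · have h1 : M1 n u (rv i) j = 2 / Complex.I * (1 / hp (rv i) - 1 / hp j) *
        ∫ x in (0 : ℝ)..(2 * Real.pi), (u x : ℂ) * (ep (rv i) x * ep j x) :=
      sk_u (rv i) j (fun x => (u x : ℂ)) (Complex.continuous_ofReal.comp hu)
    have h2 : ∀ x : ℝ, ep (rv i) x * ep j x = Complex.exp (((hp j - hp i) * x : ℝ) * Complex.I) := by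
      intro x
      unfold ep
      rw [hp_rv, ← Complex.exp_add]
      congr 1
      push_cast
      ring
    have h3 : Rm n i (rv i) = Complex.I * hp (rv i) / (4 * Real.pi) := by
      unfold Rm
      rw [if_pos rfl]
    rw [h1, h3]
    simp only [h2]
    rw [hp_rv]
    generalize (∫ x in (0 : ℝ)..(2 * Real.pi),
      (u x : ℂ) * Complex.exp (((hp j - hp i) * x : ℝ) * Complex.I)) = X
    have hi : (hp i : ℂ) ≠ 0 := Complex.ofReal_ne_zero.mpr (hp_ne i)
    have hj : (hp j : ℂ) ≠ 0 := Complex.ofReal_ne_zero.mpr (hp_ne j)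
    have hpi : (Real.pi : ℂ) ≠ 0 := Complex.ofReal_ne_zero.mpr Real.pi_ne_zero
    have hI : Complex.I ≠ 0 := Complex.I_ne_zero
    push_cast
    field_simp
    ring
  · intro l _ hl
    unfold Rm
    rw [if_neg hl, zero_mul]
  · intro h
    exact absurd (Finset.mem_univ _) h

theorem P13_S {n : ℕ} (r : ℝ) :
    ∑ k : Ix n, Complex.exp ((hp k * r : ℝ) * Complex.I) = 2 * Real.pi * (kS n r : ℂ) := by
  have h1 := P13_sum (n := n) (fun p => Complex.exp ((p * r : ℝ) * Complex.I))
  have hpi : (Real.pi : ℂ) ≠ 0 := Complex.ofReal_ne_zero.mpr Real.pi_ne_zero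
  have h2 : 2 * ∑ k : Ix n, Complex.exp ((hp k * r : ℝ) * Complex.I)
      = 2 * (2 * Real.pi * (kS n r : ℂ)) := by
    rw [two_mul]
    nth_rewrite 2 [h1]
    rw [← Finset.sum_add_distrib]
    unfold kS
    push_cast
    have h3 : ∀ k : Ix n, Complex.exp (hp k * r * Complex.I) + Complex.exp (-hp k * r * Complex.I)
        = 2 * Complex.cos (hp k * r) := by
      intro k
      rw [Complex.cos]
      have : -(hp k : ℂ) * r * Complex.I = -(hp k * r) * Complex.I := by ring
      rw [this]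
      ring
    rw [Finset.sum_congr rfl fun k _ => h3 k, ← Finset.mul_sum]
    have h5 : (2 * Real.pi : ℂ) * (1 / (2 * Real.pi)) = 1 := by field_simp
    linear_combination (-2 * ∑ k : Ix n, Complex.cos (hp k * r)) * h5
  exact mul_left_cancel₀ two_ne_zero h2

theorem P13_S' {n : ℕ} (r : ℝ) :
    ∑ k : Ix n, Complex.exp ((-hp k * r : ℝ) * Complex.I) = 2 * Real.pi * (kS n r : ℂ) := by
  rw [← P13_S]
  exact (P13_sum (n := n) (fun p => Complex.exp ((p * r : ℝ) * Complex.I))).symm

theorem P13_D {n : ℕ} (r : ℝ) :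
    ∑ k : Ix n, (hp k : ℂ) * Complex.exp ((hp k * r : ℝ) * Complex.I)
      = -(2 * Real.pi * Complex.I * (kD n r : ℂ)) := by
  have h1 := P13_sum (n := n) (fun p => (p : ℂ) * Complex.exp ((p * r : ℝ) * Complex.I))
  have hpi : (Real.pi : ℂ) ≠ 0 := Complex.ofReal_ne_zero.mpr Real.pi_ne_zero
  have h2 : 2 * ∑ k : Ix n, (hp k : ℂ) * Complex.exp ((hp k * r : ℝ) * Complex.I)
      = 2 * (-(2 * Real.pi * Complex.I * (kD n r : ℂ))) := by
    rw [two_mul]
    nth_rewrite 2 [h1]
    rw [← Finset.sum_add_distrib]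
    unfold kD
    push_cast
    have h3 : ∀ k : Ix n, (hp k : ℂ) * Complex.exp (hp k * r * Complex.I)
        + -(hp k : ℂ) * Complex.exp (-hp k * r * Complex.I)
        = 2 * Complex.I * (hp k * Complex.sin (hp k * r)) := by
      intro k
      rw [Complex.sin]
      have : -(hp k : ℂ) * r * Complex.I = -(hp k * r) * Complex.I := by ring
      rw [this]
      linear_combination (-(hp k : ℂ) * (Complex.exp (-(hp k * r) * Complex.I)
        - Complex.exp (hp k * r * Complex.I))) * Complex.I_sq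
    rw [Finset.sum_congr rfl fun k _ => h3 k, ← Finset.mul_sum]
    have h5 : (2 * Real.pi : ℂ) * (1 / (2 * Real.pi)) = 1 := by field_simp
    linear_combination (-2 * Complex.I * ∑ k : Ix n, (hp k : ℂ) * Complex.sin (hp k * r)) * h5
  exact mul_left_cancel₀ two_ne_zero h2

theorem P13_I {n : ℕ} (r : ℝ) :
    ∑ k : Ix n, (1 / (hp k : ℂ)) * Complex.exp ((hp k * r : ℝ) * Complex.I)
      = 2 * Real.pi * Complex.I * (kI n r : ℂ) := by
  have h1 := P13_sum (n := n) (fun p => (1 / (p : ℂ)) * Complex.exp ((p * r : ℝ) * Complex.I))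
  have hpi : (Real.pi : ℂ) ≠ 0 := Complex.ofReal_ne_zero.mpr Real.pi_ne_zero
  have h2 : 2 * ∑ k : Ix n, (1 / (hp k : ℂ)) * Complex.exp ((hp k * r : ℝ) * Complex.I)
      = 2 * (2 * Real.pi * Complex.I * (kI n r : ℂ)) := by
    rw [two_mul]
    nth_rewrite 2 [h1]
    rw [← Finset.sum_add_distrib]
    unfold kI
    push_cast
    have h3 : ∀ k : Ix n, (1 / (hp k : ℂ)) * Complex.exp (hp k * r * Complex.I)
        + 1 / -(hp k : ℂ) * Complex.exp (-hp k * r * Complex.I)
        = 2 * Complex.I * (1 / hp k * Complex.sin (hp k * r)) := by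
      intro k
      rw [Complex.sin]
      have : -(hp k : ℂ) * r * Complex.I = -(hp k * r) * Complex.I := by ring
      rw [this]
      have h4 : 1 / -(hp k : ℂ) = -(1 / (hp k : ℂ)) := by rw [one_div_neg_eq_neg_one_div]
      rw [h4]
      linear_combination (-(1 / (hp k : ℂ)) * (Complex.exp (-(hp k * r) * Complex.I)
        - Complex.exp (hp k * r * Complex.I))) * Complex.I_sq
    rw [Finset.sum_congr rfl fun k _ => h3 k, ← Finset.mul_sum]
    have h5 : (2 * Real.pi : ℂ) * (1 / (2 * Real.pi)) = 1 := by field_simp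
    linear_combination (-2 * Complex.I * ∑ k : Ix n, 1 / (hp k : ℂ) * Complex.sin (hp k * r)) * h5
  exact mul_left_cancel₀ two_ne_zero h2

theorem P13_D' {n : ℕ} (r : ℝ) :
    ∑ k : Ix n, (hp k : ℂ) * Complex.exp ((-hp k * r : ℝ) * Complex.I)
      = 2 * Real.pi * Complex.I * (kD n r : ℂ) := by
  have h1 := P13_sum (n := n) (fun p => (p : ℂ) * Complex.exp ((-p * r : ℝ) * Complex.I))
  have h2 := P13_D (n := n) r
  rw [h1]
  have h3 : ∀ k : Ix n, ((-hp k : ℝ) : ℂ) * Complex.exp ((- -hp k * r : ℝ) * Complex.I)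
      = -((hp k : ℂ) * Complex.exp ((hp k * r : ℝ) * Complex.I)) := by
    intro k
    rw [neg_neg]
    push_cast
    ring
  rw [Finset.sum_congr rfl fun k _ => h3 k, Finset.sum_neg_distrib, h2]
  ring

theorem P13_I' {n : ℕ} (r : ℝ) :
    ∑ k : Ix n, (1 / (hp k : ℂ)) * Complex.exp ((-hp k * r : ℝ) * Complex.I)
      = -(2 * Real.pi * Complex.I * (kI n r : ℂ)) := by
  have h1 := P13_sum (n := n) (fun p => (1 / (p : ℂ)) * Complex.exp ((-p * r : ℝ) * Complex.I))
  have h2 := P13_I (n := n) r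
  rw [h1]
  have h3 : ∀ k : Ix n, (1 / ((-hp k : ℝ) : ℂ)) * Complex.exp ((- -hp k * r : ℝ) * Complex.I)
      = -((1 / (hp k : ℂ)) * Complex.exp ((hp k * r : ℝ) * Complex.I)) := by
    intro k
    rw [neg_neg, Complex.ofReal_neg, one_div_neg_eq_neg_one_div, neg_mul]
  rw [Finset.sum_congr rfl fun k _ => h3 k, Finset.sum_neg_distrib, h2]

theorem P13_ker {n : ℕ} (r : ℝ) :
    ∑ i : Ix n, ∑ j : Ix n, (hp i / (2 * Real.pi) * (1 / hp i + 1 / hp j)) *
      (hp j / (2 * Real.pi) * (1 / hp j + 1 / hp i)) *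
        Complex.exp (((hp j - hp i) * r : ℝ) * Complex.I)
      = 2 * (kS n r : ℂ) ^ 2 - 2 * kD n r * kI n r := by
  have hpi : (Real.pi : ℂ) ≠ 0 := Complex.ofReal_ne_zero.mpr Real.pi_ne_zero
  have h1 : ∀ i j : Ix n, (hp i / (2 * Real.pi) * (1 / hp i + 1 / hp j)) *
      (hp j / (2 * Real.pi) * (1 / hp j + 1 / hp i)) *
        Complex.exp (((hp j - hp i) * r : ℝ) * Complex.I)
      = 1 / (4 * (Real.pi : ℂ) ^ 2) * (2 * (Complex.exp ((-hp i * r : ℝ) * Complex.I)
        * Complex.exp ((hp j * r : ℝ) * Complex.I))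
        + (1 / (hp i : ℂ) * Complex.exp ((-hp i * r : ℝ) * Complex.I)) *
          ((hp j : ℂ) * Complex.exp ((hp j * r : ℝ) * Complex.I))
        + ((hp i : ℂ) * Complex.exp ((-hp i * r : ℝ) * Complex.I)) *
          (1 / (hp j : ℂ) * Complex.exp ((hp j * r : ℝ) * Complex.I))) := by
    intro i j
    have hi : (hp i : ℂ) ≠ 0 := Complex.ofReal_ne_zero.mpr (hp_ne i)
    have hj : (hp j : ℂ) ≠ 0 := Complex.ofReal_ne_zero.mpr (hp_ne j)
    have h2 : Complex.exp (((hp j - hp i) * r : ℝ) * Complex.I)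
        = Complex.exp ((-hp i * r : ℝ) * Complex.I) * Complex.exp ((hp j * r : ℝ) * Complex.I) := by
      rw [← Complex.exp_add]
      congr 1
      push_cast
      ring
    rw [h2]
    generalize Complex.exp ((-hp i * r : ℝ) * Complex.I) = X
    generalize Complex.exp ((hp j * r : ℝ) * Complex.I) = Y
    field_simp
    ring
  rw [Finset.sum_congr rfl fun i _ => Finset.sum_congr rfl fun j _ => h1 i j]
  simp only [← Finset.mul_sum, Finset.sum_add_distrib, ← Finset.sum_mul]
  rw [P13_S, P13_S', P13_D, P13_I, P13_D', P13_I']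
  field_simp
  linear_combination ((4 : ℂ) * kD n r * kI n r) * Complex.I_sq

theorem tr11 {n : ℕ} (u : ℝ → ℝ) (hu : Continuous u) :
    Matrix.trace (Rm n * M1 n u * (Rm n * M1 n u))
      = ((∫ x in (0 : ℝ)..(2 * Real.pi), ∫ y in (0 : ℝ)..(2 * Real.pi),
        u x * u y * (2 * kS n (x - y) ^ 2 - 2 * kD n (x - y) * kI n (x - y)) : ℝ) : ℂ) := by
  have huc : Continuous fun x => (u x : ℂ) := Complex.continuous_ofReal.comp hu
  have h1 : Matrix.trace (Rm n * M1 n u * (Rm n * M1 n u))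
      = ∑ i, ∑ j, (Rm n * M1 n u) i j * (Rm n * M1 n u) j i := by
    rw [Matrix.trace]
    refine Finset.sum_congr rfl fun i _ => ?_
    rw [Matrix.diag_apply, Matrix.mul_apply]
  have h2 : ∀ i j : Ix n, (Rm n * M1 n u) i j * (Rm n * M1 n u) j i
      = ∫ x in (0 : ℝ)..(2 * Real.pi), ∫ y in (0 : ℝ)..(2 * Real.pi),
        (u x : ℂ) * u y * ((hp i / (2 * Real.pi) * (1 / hp i + 1 / hp j)) *
      (hp j / (2 * Real.pi) * (1 / hp j + 1 / hp i)) *
        Complex.exp (((hp j - hp i) * (x - y) : ℝ) * Complex.I)) := by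
    intro i j
    rw [P13_RM u hu, P13_RM u hu]
    have h3 : ∀ x : ℝ, (∫ y in (0 : ℝ)..(2 * Real.pi),
        (u x : ℂ) * u y * ((hp i / (2 * Real.pi) * (1 / hp i + 1 / hp j)) *
      (hp j / (2 * Real.pi) * (1 / hp j + 1 / hp i)) *
        Complex.exp (((hp j - hp i) * (x - y) : ℝ) * Complex.I)))
        = ((hp i / (2 * Real.pi) * (1 / hp i + 1 / hp j)) *
      (hp j / (2 * Real.pi) * (1 / hp j + 1 / hp i)) *
        ∫ y in (0 : ℝ)..(2 * Real.pi), (u y : ℂ) * Complex.exp (((hp i - hp j) * y : ℝ) * Complex.I))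
        * ((u x : ℂ) * Complex.exp (((hp j - hp i) * x : ℝ) * Complex.I)) := by
      intro x
      rw [← intervalIntegral.integral_const_mul, ← intervalIntegral.integral_mul_const]
      refine intervalIntegral.integral_congr fun y _ => ?_
      have h4 : Complex.exp (((hp j - hp i) * (x - y) : ℝ) * Complex.I)
          = Complex.exp (((hp j - hp i) * x : ℝ) * Complex.I)
            * Complex.exp (((hp i - hp j) * y : ℝ) * Complex.I) := by
        rw [← Complex.exp_add]
        congr 1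
        push_cast
        ring
      simp only [h4]
      ring
    simp only [h3]
    rw [intervalIntegral.integral_const_mul]
    ring
  rw [h1, Finset.sum_congr rfl fun i _ => Finset.sum_congr rfl fun j _ => h2 i j]
  have hc : ∀ i j : Ix n, Continuous (Function.uncurry fun (x y : ℝ) =>
        (u x : ℂ) * u y * ((hp i / (2 * Real.pi) * (1 / hp i + 1 / hp j)) *
      (hp j / (2 * Real.pi) * (1 / hp j + 1 / hp i)) *
        Complex.exp (((hp j - hp i) * (x - y) : ℝ) * Complex.I))) := by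
    intro i j
    have a1 : Continuous fun z : ℝ × ℝ => (u z.1 : ℂ) := huc.comp continuous_fst
    have a2 : Continuous fun z : ℝ × ℝ => (u z.2 : ℂ) := huc.comp continuous_snd
    have a3 : Continuous fun z : ℝ × ℝ =>
        Complex.exp (((hp j - hp i) * (z.1 - z.2) : ℝ) * Complex.I) := by fun_prop
    exact (a1.mul a2).mul (continuous_const.mul a3)
  have hci : ∀ i j : Ix n, Continuous fun x : ℝ => ∫ y in (0 : ℝ)..(2 * Real.pi),
        (u x : ℂ) * u y * ((hp i / (2 * Real.pi) * (1 / hp i + 1 / hp j)) *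
      (hp j / (2 * Real.pi) * (1 / hp j + 1 / hp i)) *
        Complex.exp (((hp j - hp i) * (x - y) : ℝ) * Complex.I)) := by
    intro i j
    exact intervalIntegral.continuous_parametric_intervalIntegral_of_continuous' (hc i j) _ _
  have h5 : ∀ i : Ix n, (∑ j : Ix n, ∫ x in (0 : ℝ)..(2 * Real.pi), ∫ y in (0 : ℝ)..(2 * Real.pi),
        (u x : ℂ) * u y * ((hp i / (2 * Real.pi) * (1 / hp i + 1 / hp j)) *
      (hp j / (2 * Real.pi) * (1 / hp j + 1 / hp i)) *
        Complex.exp (((hp j - hp i) * (x - y) : ℝ) * Complex.I)))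
      = ∫ x in (0 : ℝ)..(2 * Real.pi), ∑ j : Ix n, ∫ y in (0 : ℝ)..(2 * Real.pi),
        (u x : ℂ) * u y * ((hp i / (2 * Real.pi) * (1 / hp i + 1 / hp j)) *
      (hp j / (2 * Real.pi) * (1 / hp j + 1 / hp i)) *
        Complex.exp (((hp j - hp i) * (x - y) : ℝ) * Complex.I)) := by
    intro i
    rw [intervalIntegral.integral_finsetSum]
    intro j _
    exact (hci i j).intervalIntegrable _ _
  rw [Finset.sum_congr rfl fun i _ => h5 i, ← intervalIntegral.integral_finsetSum]
  · rw [← intervalIntegral.integral_ofReal]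
    refine intervalIntegral.integral_congr fun x _ => ?_
    rw [← intervalIntegral.integral_ofReal]
    have h6 : ∀ i : Ix n, (∑ j : Ix n, ∫ y in (0 : ℝ)..(2 * Real.pi),
        (u x : ℂ) * u y * ((hp i / (2 * Real.pi) * (1 / hp i + 1 / hp j)) *
      (hp j / (2 * Real.pi) * (1 / hp j + 1 / hp i)) *
        Complex.exp (((hp j - hp i) * (x - y) : ℝ) * Complex.I)))
        = ∫ y in (0 : ℝ)..(2 * Real.pi), ∑ j : Ix n,
        (u x : ℂ) * u y * ((hp i / (2 * Real.pi) * (1 / hp i + 1 / hp j)) *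
      (hp j / (2 * Real.pi) * (1 / hp j + 1 / hp i)) *
        Complex.exp (((hp j - hp i) * (x - y) : ℝ) * Complex.I)) := by
      intro i
      rw [intervalIntegral.integral_finsetSum]
      intro j _
      exact ((hc i j).comp (Continuous.prodMk continuous_const continuous_id)).intervalIntegrable _ _
    rw [Finset.sum_congr rfl fun i _ => h6 i, ← intervalIntegral.integral_finsetSum]
    · refine intervalIntegral.integral_congr fun y _ => ?_
      have h7 := P13_ker (n := n) (x - y)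
      simp only [← Finset.mul_sum]
      rw [h7]
      push_cast
      ring
    · intro i _
      refine Continuous.intervalIntegrable ?_ _ _
      refine continuous_finsetSum _ fun j _ => ?_
      exact (hc i j).comp (Continuous.prodMk continuous_const continuous_id)
  · intro i _
    refine Continuous.intervalIntegrable ?_ _ _
    exact continuous_finsetSum _ fun j _ => hci i j

end COE
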