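import Pool.Agent.LibCOE.Defs

/-! Row P2. Proof sketch:
All terms of the sum are 0 or 1, and σ = 1 gives 1, so pf (Jm n) is a positive natural number. Claim: if
∏_i Jm (σ(i,0)) (σ(i,1)) ≠ 0 then σ maps pairs to pairs: σ(i,b) = (π i, ε_i b) with π a permutation of Fin n (injective), and
sign σ = ∏ sign ε_i = ∏ Jm(σ(i,0), σ(i,1)): σ = (prodCongrLeft / prodExtend of π on both copies, sign (sign π)^2 = 1) composed with
`Equiv.Perm.prodCongrRight ε` (`Equiv.Perm.sign_prodCongrRight`). Alternatively prove the recursion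
pf (Jm (n+1)) = 2 (n+1) pf (Jm n). -/

open MeasureTheory Set Filter Topology

namespace COE

open QGr

theorem P2_two : ∀ e : Equiv.Perm (Fin 2), (if e 0 = 0 ∧ e 1 = 1 then (1 : ℤ) else
    if e 0 = 1 ∧ e 1 = 0 then -1 else 0) = (Equiv.Perm.sign e : ℤ) := by
  decide

theorem P2_term {n : ℕ} (σ : Equiv.Perm (Ix n)) (h : ∀ i, (σ (i, 0)).1 = (σ (i, 1)).1) :
    (Equiv.Perm.sign σ : ℤ) • ∏ i, Jm n (σ (i, 0)) (σ (i, 1)) = 1 := by
  have h01 : ∀ i (b c : Fin 2), (σ (i, b)).1 = (σ (i, c)).1 := by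
    intro i b c
    fin_cases b <;> fin_cases c
    · rfl
    · exact h i
    · exact (h i).symm
    · rfl
  -- the permutation of the pairs
  have hinj : Function.Injective fun i : Fin n => (σ (i, 0)).1 := by
    intro i j hij
    by_contra hne
    have key : ∀ b c : Fin 2, (σ (i, b)).2 ≠ (σ (j, c)).2 := by
      intro b c hbc
      have h1 : σ (i, b) = σ (j, c) := by
        refine Prod.ext ?_ hbc
        rw [h01 i b 0, h01 j c 0]
        exact hij
      exact hne (Prod.ext_iff.1 (σ.injective h1)).1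
    have k0 : (σ (i, 0)).2 ≠ (σ (i, 1)).2 := by
      intro hbc
      have h1 : σ (i, 0) = σ (i, 1) := Prod.ext (h i) hbc
      have h2 := (Prod.ext_iff.1 (σ.injective h1)).2
      exact absurd (show (0 : Fin 2) = 1 from h2) (by decide)
    have k1 := key 0 0
    have k2 := key 1 0
    generalize (σ (i, 0)).2 = x at *
    generalize (σ (i, 1)).2 = y at *
    generalize (σ (j, 0)).2 = z at *
    revert x y z
    decide
  let π : Equiv.Perm (Fin n) := Equiv.ofBijective _ (Finite.injective_iff_bijective.1 hinj)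
  have hπ : ∀ i b, (σ (i, b)).1 = π i := fun i b => h01 i b 0
  have hε : ∀ i, Function.Injective fun b : Fin 2 => (σ (i, b)).2 := by
    intro i b c hbc
    have h1 : σ (i, b) = σ (i, c) := Prod.ext (h01 i b c) hbc
    exact (Prod.ext_iff.1 (σ.injective h1)).2
  let ε : Fin n → Equiv.Perm (Fin 2) := fun i =>
    Equiv.ofBijective _ (Finite.injective_iff_bijective.1 (hε i))
  have hε2 : ∀ i b, (σ (i, b)).2 = ε i b := fun i b => rfl
  have hσ : σ = (Equiv.prodCongrLeft fun _ : Fin 2 => π) * Equiv.prodCongrRight ε := by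
    ext1 ⟨i, b⟩
    exact Prod.ext (hπ i b) (hε2 i b)
  have hsign : Equiv.Perm.sign σ = ∏ i, Equiv.Perm.sign (ε i) := by
    rw [hσ, Equiv.Perm.sign_mul, Equiv.Perm.sign_prodCongrLeft, Equiv.Perm.sign_prodCongrRight,
      Fin.prod_univ_two, Int.units_mul_self, one_mul]
  have hJ : ∀ i, Jm n (σ (i, 0)) (σ (i, 1)) = (((Equiv.Perm.sign (ε i) : ℤˣ) : ℤ) : ℂ) := by
    intro i
    unfold Jm
    rw [if_pos (h i), hε2, hε2, ← P2_two (ε i)]
    split_ifs <;> simp
  have hprod : ∏ i, Jm n (σ (i, 0)) (σ (i, 1)) = (((Equiv.Perm.sign σ : ℤˣ) : ℤ) : ℂ) := by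
    rw [hsign, Finset.prod_congr rfl fun i _ => hJ i]
    push_cast
    rfl
  rw [hprod, zsmul_eq_mul, ← Int.cast_mul, ← Units.val_mul, Int.units_mul_self]
  simp

theorem P2_term' {n : ℕ} (σ : Equiv.Perm (Ix n)) (h : ¬ ∀ i, (σ (i, 0)).1 = (σ (i, 1)).1) :
    (Equiv.Perm.sign σ : ℤ) • ∏ i, Jm n (σ (i, 0)) (σ (i, 1)) = 0 := by
  obtain ⟨i, hi⟩ := not_forall.1 h
  rw [Finset.prod_eq_zero (Finset.mem_univ i), smul_zero]
  unfold Jm
  rw [if_neg hi]

theorem pf_Jm (n : ℕ) : pf (Jm n) ≠ 0 := by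
  classical
  have h1 : pf (Jm n) = ∑ σ : Equiv.Perm (Ix n),
      if (∀ i, (σ (i, 0)).1 = (σ (i, 1)).1) then (1 : ℂ) else 0 := by
    unfold pf
    refine Finset.sum_congr rfl fun σ _ => ?_
    split_ifs with h
    · exact P2_term σ h
    · exact P2_term' σ h
  rw [h1, Finset.sum_boole, Nat.cast_ne_zero]
  refine Finset.card_ne_zero_of_mem (a := (1 : Equiv.Perm (Ix n))) ?_
  simp

end COE
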