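import Pool.Agent.LibCOE.Defs
import Pool.Agent.LibCOE.CO_P1

/-! Row P3. Proof sketch:
Let B k a = (if k = a then 1 else 0) + (if k.1 < a.1 then (if k.2 = 0 then -1 else 1) else 0): unitriangular for the order od,
so det B = 1 (`Matrix.det_of_upperTriangular`, reindex by a linear order, e.g. lex order on Fin n ×ₗ Fin 2 or Fin (n*2)), and
(Bᵀ * Jm n * B) a b = [B (i,0) a * B (i,1) b - B (i,1) a * B (i,0) b summed over i] = the sign matrix (check: for a.1 < b.1 the sum
is 1; terms i < a.1 cancel: (-1)(1) - (1)(-1) = 0, i = a.1: a = (i,0): 1*1 - 0 = 1, a = (i,1): 0 - 1*(-1) = 1). Then pf_mul. -/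

open MeasureTheory Set Filter Topology

namespace COE

open QGr


/-- The unitriangular matrix. -/
def P3_B (n : ℕ) : Matrix (Ix n) (Ix n) ℂ := fun k a =>
  (if k = a then 1 else 0) + (if k.1 < a.1 then (if k.2 = 0 then -1 else 1) else 0)

theorem P3_det (n : ℕ) : (P3_B n).det = 1 := by
  have h : (P3_B n).BlockTriangular Prod.fst := by
    intro i j hij
    have h1 : i ≠ j := by
      rintro rfl
      exact lt_irrefl _ hij
    have h2 : ¬ i.1 < j.1 := not_lt.2 hij.le
    simp only [P3_B, if_neg h1, if_neg h2, add_zero]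
  rw [h.det_fintype]
  apply Finset.prod_eq_one
  intro k _
  have h3 : (P3_B n).toSquareBlock Prod.fst k = 1 := by
    ext i j
    obtain ⟨i, hi⟩ := i
    obtain ⟨j, hj⟩ := j
    have h2 : ¬ i.1 < j.1 := by
      rw [hi, hj]
      exact lt_irrefl _
    simp only [Matrix.toSquareBlock_def, Matrix.of_apply, P3_B, if_neg h2, add_zero,
      Matrix.one_apply, Subtype.mk.injEq]
  rw [h3, Matrix.det_one]

theorem P3_mul {n : ℕ} (B : Matrix (Ix n) (Ix n) ℂ) (a b : Ix n) :
    (B.transpose * Jm n * B) a b
      = ∑ m : Fin n, (B (m, 0) a * B (m, 1) b - B (m, 1) a * B (m, 0) b) := by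
  rw [Matrix.mul_apply, Fintype.sum_prod_type]
  apply Finset.sum_congr rfl
  intro l _
  rw [Fin.sum_univ_two, Matrix.mul_apply, Matrix.mul_apply, Fintype.sum_prod_type,
    Fintype.sum_prod_type]
  have h0 : ∑ x : Fin n, ∑ y : Fin 2, B.transpose a (x, y) * Jm n (x, y) (l, 0)
      = - B (l, 1) a := by
    rw [Finset.sum_eq_single l]
    · simp [Jm, Fin.sum_univ_two, Matrix.transpose_apply]
    · intro m _ hm
      simp [Jm, hm]
    · intro h
      exact absurd (Finset.mem_univ _) h
  have h1 : ∑ x : Fin n, ∑ y : Fin 2, B.transpose a (x, y) * Jm n (x, y) (l, 1)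
      = B (l, 0) a := by
    rw [Finset.sum_eq_single l]
    · simp [Jm, Fin.sum_univ_two, Matrix.transpose_apply]
    · intro m _ hm
      simp [Jm, hm]
    · intro h
      exact absurd (Finset.mem_univ _) h
  rw [h0, h1]
  ring

theorem P3_val {n : ℕ} (a b : Ix n) :
    ∑ m : Fin n, (P3_B n (m, 0) a * P3_B n (m, 1) b - P3_B n (m, 1) a * P3_B n (m, 0) b)
      = if od a < od b then (1 : ℂ) else if od b < od a then -1 else 0 := by
  obtain ⟨i, s⟩ := a
  obtain ⟨j, t⟩ := b
  rcases lt_trichotomy i j with hij | hij | hij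
  · have h1 : od (i, s) < od (j, t) := by
      simp only [od]
      have := Fin.lt_def.1 hij
      omega
    rw [if_pos h1, Finset.sum_eq_single i]
    · have h2 : i ≠ j := hij.ne
      fin_cases s <;> simp [P3_B, hij, h2]
    · intro m _ hm
      rcases lt_or_gt_of_ne hm with h3 | h3
      · have h4 : m < j := h3.trans hij
        simp [P3_B, h3, h4, hm, h4.ne]
      · have h4 : ¬ m < i := h3.le.not_gt
        simp [P3_B, h4, hm]
    · intro h
      exact absurd (Finset.mem_univ _) h
  · subst hij
    rw [Finset.sum_eq_single i]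
    · fin_cases s <;> fin_cases t <;> simp [P3_B, od]
    · intro m _ hm
      rcases lt_or_gt_of_ne hm with h3 | h3
      · simp [P3_B, h3, hm]
      · have h4 : ¬ m < i := h3.le.not_gt
        simp [P3_B, h4, hm]
    · intro h
      exact absurd (Finset.mem_univ _) h
  · have h1 : od (j, t) < od (i, s) := by
      simp only [od]
      have := Fin.lt_def.1 hij
      omega
    rw [if_neg h1.le.not_gt, if_pos h1, Finset.sum_eq_single j]
    · have h2 : j ≠ i := hij.ne
      fin_cases t <;> simp [P3_B, hij, h2]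
    · intro m _ hm
      rcases lt_or_gt_of_ne hm with h3 | h3
      · have h4 : m < i := h3.trans hij
        simp [P3_B, h3, h4, hm, h4.ne]
      · have h4 : ¬ m < j := h3.le.not_gt
        simp [P3_B, h4, hm]
    · intro h
      exact absurd (Finset.mem_univ _) h

theorem pf_sg (n : ℕ) : pf (fun a b : Ix n => if od a < od b then (1 : ℂ) else
    if od b < od a then -1 else 0) = pf (Jm n) := by
  have h := pf_mul (Jm n) (P3_B n)
  rw [P3_det, one_mul] at h
  rw [← h]
  congr 1
  ext a b
  rw [P3_mul, P3_val]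

end COE
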