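import Pool.Agent.LibCOE.Defs
import Pool.Agent.LibCOE.CO_P1
import Pool.Agent.LibCOE.CO_P3

/-! Row P4. Proof sketch:
Sort x: there is a permutation τ of Ix n with x ∘ τ increasing for od (Ix n is in order bijection with Fin (2n)). For
A a b = sign (x b - x a): A.submatrix τ τ = the sign matrix of P3, pf (A.submatrix τ τ) = sign τ * pf A (pf_mul with a permutation
matrix, or directly), and ∏_{od a < od b} sign (x (τ b) - x (τ a)) = 1 = sign τ * ∏_{od a < od b} sign (x b - x a) (e.g. from the
sign of the Vandermonde determinant `Matrix.det_vandermonde`, `Matrix.det_permute`, or `Equiv.Perm.sign` as product over pairs).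
Alternative: show both sides are alternating under swaps. -/

open MeasureTheory Set Filter Topology

namespace COE

open QGr


theorem P4_od {n : ℕ} (a : Ix n) : ((finProdFinEquiv a : Fin (n * 2)) : ℕ) = od a := by
  obtain ⟨a, b⟩ := a
  simp only [finProdFinEquiv_apply_val, od]
  ring

/-- Simultaneous permutation of the rows and columns. -/
theorem P4_perm {R : Type} [CommRing R] {n : ℕ} (A : Matrix (Ix n) (Ix n) R)
    (τ : Equiv.Perm (Ix n)) :
    pf (A.submatrix τ τ) = ((Equiv.Perm.sign τ : ℤ) : R) * pf A := by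
  have h := pf_mul A ((1 : Matrix (Ix n) (Ix n) R).submatrix id τ)
  rw [Matrix.det_permute', Matrix.det_one, mul_one] at h
  rw [← h]
  congr 1
  ext p q
  simp [Matrix.mul_apply, Matrix.submatrix_apply, Matrix.one_apply]

theorem P4_sign_neg (x y : ℝ) :
    ((Real.sign (y - x) : ℝ) : ℂ) = -((Real.sign (x - y) : ℝ) : ℂ) := by
  rw [← neg_sub x y, Real.sign_neg, Complex.ofReal_neg]

theorem pf_sign {n : ℕ} (x : Ix n → ℝ) (hx : Function.Injective x) :
    pf (fun a b => ((Real.sign (x b - x a) : ℝ) : ℂ)) = pf (Jm n) *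
      ∏ a, ∏ b ∈ Finset.univ.filter (fun b => od a < od b),
        ((Real.sign (x b - x a) : ℝ) : ℂ) := by
  classical
  set e : Ix n ≃ Fin (n * 2) := finProdFinEquiv with he
  set y : Fin (n * 2) → ℝ := x ∘ e.symm with hy
  have hyi : Function.Injective y := hx.comp e.symm.injective
  set σ : Equiv.Perm (Fin (n * 2)) := Tuple.sort y with hσ
  have hmono : StrictMono (y ∘ σ) :=
    (Tuple.monotone_sort y).strictMono_of_injective (hyi.comp σ.injective)
  set τ : Equiv.Perm (Ix n) := (e.trans σ).trans e.symm with hτ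
  have hxτ : ∀ a, x (τ a) = y (σ (e a)) := fun a => rfl
  have hlt : ∀ a b : Ix n, od a < od b → x (τ a) < x (τ b) := by
    intro a b hab
    rw [hxτ, hxτ]
    apply hmono
    rw [Fin.lt_def, he, P4_od, P4_od]
    exact hab
  have hodi : ∀ a b : Ix n, od a = od b → a = b := by
    intro a b hab
    apply e.injective
    apply Fin.ext
    rw [he, P4_od, P4_od, hab]
  -- the sorted matrix
  obtain ⟨A, hA⟩ : ∃ A : Matrix (Ix n) (Ix n) ℂ,
      A = fun a b => ((Real.sign (x b - x a) : ℝ) : ℂ) := ⟨_, rfl⟩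
  have hA' : ∀ a b, A a b = ((Real.sign (x b - x a) : ℝ) : ℂ) := fun a b => by rw [hA]
  rw [← hA]
  have h1 : pf (A.submatrix τ τ) = pf (Jm n) := by
    rw [← pf_sg n]
    have h0 : A.submatrix τ τ = fun a b : Ix n => if od a < od b then (1 : ℂ) else
        if od b < od a then -1 else 0 := by
      funext a b
      rw [Matrix.submatrix_apply, hA']
      rcases lt_trichotomy (od a) (od b) with h | h | h
      · rw [if_pos h, Real.sign_of_pos (sub_pos.mpr (hlt a b h)), Complex.ofReal_one]
      · have := hodi a b h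
        subst this
        simp
      · rw [if_neg (not_lt.mpr h.le), if_pos h, Real.sign_of_neg (sub_neg.mpr (hlt b a h))]
        simp
    rw [h0]
  rw [P4_perm] at h1
  -- the sign of the permutation
  have h2 : ∏ i, ∏ j ∈ Finset.Ioi i, ((Real.sign (y (σ j) - y (σ i)) : ℝ) : ℂ) = 1 := by
    refine Finset.prod_eq_one fun i _ => Finset.prod_eq_one fun j hj => ?_
    have hlt' : y (σ i) < y (σ j) := hmono (Finset.mem_Ioi.mp hj)
    rw [Real.sign_of_pos (sub_pos.mpr hlt'), Complex.ofReal_one]
  have h3 := Equiv.Perm.prod_Ioi_comp_eq_sign_mul_prod (R := ℂ) σ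
    (f := fun i j => ((Real.sign (y j - y i) : ℝ) : ℂ)) (fun i j => P4_sign_neg _ _)
  rw [h2] at h3
  have h4 : ∏ a, ∏ b ∈ Finset.univ.filter (fun b : Ix n => od a < od b),
      ((Real.sign (x b - x a) : ℝ) : ℂ) =
      ∏ i, ∏ j ∈ Finset.Ioi i, ((Real.sign (y j - y i) : ℝ) : ℂ) := by
    refine Fintype.prod_equiv e _ _ fun a => ?_
    refine Finset.prod_equiv e (fun b => ?_) (fun b _ => ?_)
    · rw [Finset.mem_filter, Finset.mem_Ioi, Fin.lt_def, he, P4_od, P4_od]
      simp
    · simp [hy]
  have h5 : Equiv.Perm.sign τ = Equiv.Perm.sign σ := by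
    rw [hτ]
    exact Equiv.Perm.sign_trans_trans_symm σ e
  rw [h4]
  rw [h5] at h1
  set P := ∏ i, ∏ j ∈ Finset.Ioi i, ((Real.sign (y j - y i) : ℝ) : ℂ) with hP
  rw [← h1]
  linear_combination pf A * h3

end COE
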