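import Pool.Agent.LibCOE.Defs

/-! Row P6. Proof sketch:
For x a, x b ∈ (0, 2π]: |2 sin ((x b - x a)/2)| = sign (x b - x a) * 2 sin ((x b - x a)/2) (argument in (-π, π)).
e^{ix_b} - e^{ix_a} = e^{i(x_a + x_b)/2} 2 i sin ((x_b - x_a)/2), so by Vandermonde (`Matrix.det_vandermonde` on Fin (n*2), reindexed
by finProdFinEquiv; od a = (finProdFinEquiv a : ℕ)): det (e^{i od(k) x_j}) = ∏_{a<b} (e^{ix_b} - e^{ix_a}) = i^{#pairs}
∏_j e^{i (2n-1) x_j / 2} ∏_{a<b} 2 sin(..), and det (ep k (x_j)) = ∏_j e^{-i(2n-1)x_j/2} det (e^{i od(k) x_j})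
(`Matrix.det_mul_column`/row). So C = i^{-#pairs}. -/

open MeasureTheory Set Filter Topology

namespace COE

open QGr

theorem P6_pairs {N : ℕ} (f : Fin N → ℂ) :
    ∏ i, ∏ j ∈ Finset.Ioi i, (f i * f j) = ∏ i, f i ^ (N - 1) := by
  have h1 : ∏ i, ∏ j ∈ Finset.Ioi i, (f i * f j)
      = (∏ i, ∏ _j ∈ Finset.Ioi i, f i) * ∏ i, ∏ j ∈ Finset.Ioi i, f j := by
    rw [← Finset.prod_mul_distrib]
    exact Finset.prod_congr rfl fun i _ => Finset.prod_mul_distrib
  have h2 : ∏ i, ∏ j ∈ Finset.Ioi i, f j = ∏ j, ∏ _i ∈ Finset.Iio j, f j := by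
    refine Finset.prod_comm' ?_
    intro i j
    simp
  rw [h1, h2, ← Finset.prod_mul_distrib]
  refine Finset.prod_congr rfl fun i _ => ?_
  rw [Finset.prod_const, Finset.prod_const, Fin.card_Ioi, Fin.card_Iio, ← pow_add]
  congr 1
  have := i.2
  omega

theorem P6_abs (s t : ℝ) (hs : s ∈ Ioc 0 (2 * Real.pi)) (ht : t ∈ Ioc 0 (2 * Real.pi)) :
    |2 * Real.sin ((t - s) / 2)| = Real.sign (t - s) * (2 * Real.sin ((t - s) / 2)) := by
  have hpi := Real.pi_pos
  obtain ⟨hs0, hs1⟩ := hs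
  obtain ⟨ht0, ht1⟩ := ht
  rcases lt_trichotomy s t with h | h | h
  · have h1 : 0 < Real.sin ((t - s) / 2) :=
      Real.sin_pos_of_pos_of_lt_pi (by linarith) (by linarith)
    rw [Real.sign_of_pos (by linarith), one_mul, abs_of_pos (by linarith)]
  · rw [h]
    simp
  · have h1 : 0 < Real.sin ((s - t) / 2) :=
      Real.sin_pos_of_pos_of_lt_pi (by linarith) (by linarith)
    have h2 : Real.sin ((t - s) / 2) = -Real.sin ((s - t) / 2) := by
      rw [← Real.sin_neg]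
      congr 1
      ring
    rw [Real.sign_of_neg (by linarith), h2, abs_of_neg (by linarith)]
    ring

theorem P6_diff (s t : ℝ) : Complex.exp ((t : ℂ) * Complex.I) - Complex.exp ((s : ℂ) * Complex.I)
    = (Complex.exp ((s / 2 : ℝ) * Complex.I) * Complex.exp ((t / 2 : ℝ) * Complex.I))
      * (Complex.I * ((2 * Real.sin ((t - s) / 2) : ℝ) : ℂ)) := by
  have h1 : Complex.exp ((t : ℂ) * Complex.I) = Complex.exp ((s / 2 : ℝ) * Complex.I)
      * Complex.exp ((t / 2 : ℝ) * Complex.I) * Complex.exp (((t - s) / 2 : ℝ) * Complex.I) := by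
    rw [← Complex.exp_add, ← Complex.exp_add]
    congr 1
    push_cast
    ring
  have h2 : Complex.exp ((s : ℂ) * Complex.I) = Complex.exp ((s / 2 : ℝ) * Complex.I)
      * Complex.exp ((t / 2 : ℝ) * Complex.I) * Complex.exp (-(((t - s) / 2 : ℝ) * Complex.I)) := by
    rw [← Complex.exp_add, ← Complex.exp_add]
    congr 1
    push_cast
    ring
  have h3 : Complex.exp (((t - s) / 2 : ℝ) * Complex.I)
      - Complex.exp (-(((t - s) / 2 : ℝ) * Complex.I))
      = Complex.I * ((2 * Real.sin ((t - s) / 2) : ℝ) : ℂ) := by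
    rw [← neg_mul, ← Complex.ofReal_neg, Complex.exp_mul_I, Complex.exp_mul_I,
      ← Complex.ofReal_cos, ← Complex.ofReal_sin, ← Complex.ofReal_cos, ← Complex.ofReal_sin,
      Real.cos_neg, Real.sin_neg]
    push_cast
    ring
  rw [h1, h2, ← mul_sub, h3]

theorem P6_od {n : ℕ} (a : Ix n) : ((finProdFinEquiv a : Fin (n * 2)) : ℕ) = od a := by
  unfold od
  rw [finProdFinEquiv_apply_val]
  ring

theorem P6_sign {n : ℕ} (g : Ix n → Ix n → ℂ) :
    ∏ a, ∏ b ∈ Finset.univ.filter (fun b => od a < od b), g a b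
      = ∏ i : Fin (n * 2), ∏ j ∈ Finset.Ioi i, g (finProdFinEquiv.symm i)
          (finProdFinEquiv.symm j) := by
  rw [← Equiv.prod_comp (finProdFinEquiv.symm : Fin (n * 2) ≃ Ix n)]
  refine Finset.prod_congr rfl fun i _ => ?_
  rw [Finset.prod_filter, ← Equiv.prod_comp (finProdFinEquiv.symm : Fin (n * 2) ≃ Ix n)]
  have h1 : Finset.Ioi i = Finset.univ.filter (fun j => i < j) := by
    ext j
    simp
  rw [h1, Finset.prod_filter]
  refine Finset.prod_congr rfl fun j _ => ?_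
  have h2 : od (finProdFinEquiv.symm i : Ix n) < od (finProdFinEquiv.symm j : Ix n) ↔ i < j := by
    rw [← P6_od, ← P6_od, Equiv.apply_symm_apply, Equiv.apply_symm_apply]
    exact Iff.rfl
  by_cases h : i < j
  · rw [if_pos (h2.2 h), if_pos h]
  · rw [if_neg (fun h3 => h (h2.1 h3)), if_neg h]

theorem P6_det {n : ℕ} (x : Ix n → ℝ) :
    Matrix.det (Matrix.of fun k j => ep k (x j))
      = ∏ i : Fin (n * 2), ∏ j ∈ Finset.Ioi i, (Complex.I *
        ((2 * Real.sin ((x (finProdFinEquiv.symm j) - x (finProdFinEquiv.symm i)) / 2) : ℝ) : ℂ)) := by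
  rw [← Matrix.det_submatrix_equiv_self (finProdFinEquiv.symm : Fin (n * 2) ≃ Ix n)]
  have h1 : (Matrix.of fun (k j : Ix n) => ep k (x j)).submatrix
      (finProdFinEquiv.symm : Fin (n * 2) ≃ Ix n) (finProdFinEquiv.symm : Fin (n * 2) ≃ Ix n)
      = Matrix.of fun (k j : Fin (n * 2)) =>
        Complex.exp (((-((2 * n - 1) / 2) * x (finProdFinEquiv.symm j) : ℝ) : ℂ) * Complex.I)
          * (Matrix.vandermonde fun j : Fin (n * 2) =>
            Complex.exp ((x (finProdFinEquiv.symm j) : ℂ) * Complex.I)).transpose k j := by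
    ext k j
    simp only [Matrix.submatrix_apply, Matrix.of_apply, Matrix.transpose_apply,
      Matrix.vandermonde_apply]
    unfold ep hp
    have h2 : (od (finProdFinEquiv.symm k : Ix n) : ℝ) = (k : ℕ) := by
      rw [← P6_od, Equiv.apply_symm_apply]
    rw [h2, ← Complex.exp_nat_mul, ← Complex.exp_add]
    congr 1
    push_cast
    ring
  rw [h1, Matrix.det_mul_row, Matrix.det_transpose, Matrix.det_vandermonde]
  have h3 : ∏ i : Fin (n * 2), ∏ j ∈ Finset.Ioi i,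
      (Complex.exp ((x (finProdFinEquiv.symm j) : ℂ) * Complex.I)
        - Complex.exp ((x (finProdFinEquiv.symm i) : ℂ) * Complex.I))
      = (∏ i : Fin (n * 2), ∏ j ∈ Finset.Ioi i,
        (Complex.exp ((x (finProdFinEquiv.symm i) / 2 : ℝ) * Complex.I)
          * Complex.exp ((x (finProdFinEquiv.symm j) / 2 : ℝ) * Complex.I)))
        * ∏ i : Fin (n * 2), ∏ j ∈ Finset.Ioi i, (Complex.I *
        ((2 * Real.sin ((x (finProdFinEquiv.symm j) - x (finProdFinEquiv.symm i)) / 2) : ℝ) : ℂ)) := by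
    rw [← Finset.prod_mul_distrib]
    refine Finset.prod_congr rfl fun i _ => ?_
    rw [← Finset.prod_mul_distrib]
    refine Finset.prod_congr rfl fun j _ => ?_
    exact P6_diff _ _
  rw [h3, P6_pairs (fun i : Fin (n * 2) =>
    Complex.exp ((x (finProdFinEquiv.symm i) / 2 : ℝ) * Complex.I)), ← mul_assoc,
    ← Finset.prod_mul_distrib]
  have h4 : ∏ i : Fin (n * 2),
      Complex.exp (((-((2 * n - 1) / 2) * x (finProdFinEquiv.symm i) : ℝ) : ℂ) * Complex.I)
        * Complex.exp ((x (finProdFinEquiv.symm i) / 2 : ℝ) * Complex.I) ^ (n * 2 - 1) = 1 := by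
    refine Finset.prod_eq_one fun i _ => ?_
    have hn : 1 ≤ n * 2 := by
      have := i.2
      omega
    rw [← Complex.exp_nat_mul, ← Complex.exp_add, Nat.cast_sub hn]
    rw [← Complex.exp_zero]
    congr 1
    push_cast
    ring
  rw [h4, one_mul]

theorem wt_rep (n : ℕ) : ∃ C : ℂ, C ≠ 0 ∧ ∀ x : Ix n → ℝ, (∀ a, x a ∈ Ioc 0 (2 * Real.pi)) →
    ((wt fun j : Fin (n * 2) => x (finProdFinEquiv.symm j) : ℝ) : ℂ) = C *
      (∏ a, ∏ b ∈ Finset.univ.filter (fun b => od a < od b), ((Real.sign (x b - x a) : ℝ) : ℂ)) *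
      Matrix.det (Matrix.of fun k j => ep k (x j)) := by
  have hI : (∏ i : Fin (n * 2), ∏ _j ∈ Finset.Ioi i, Complex.I) ≠ 0 :=
    Finset.prod_ne_zero_iff.2 fun i _ => Finset.prod_ne_zero_iff.2 fun j _ => Complex.I_ne_zero
  refine ⟨(∏ i : Fin (n * 2), ∏ _j ∈ Finset.Ioi i, Complex.I)⁻¹, inv_ne_zero hI, ?_⟩
  intro x hx
  rw [P6_det, P6_sign (fun a b => ((Real.sign (x b - x a) : ℝ) : ℂ))]
  have h1 : ∏ i : Fin (n * 2), ∏ j ∈ Finset.Ioi i, (Complex.I *
        ((2 * Real.sin ((x (finProdFinEquiv.symm j) - x (finProdFinEquiv.symm i)) / 2) : ℝ) : ℂ))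
      = (∏ i : Fin (n * 2), ∏ _j ∈ Finset.Ioi i, Complex.I) *
        ∏ i : Fin (n * 2), ∏ j ∈ Finset.Ioi i,
        ((2 * Real.sin ((x (finProdFinEquiv.symm j) - x (finProdFinEquiv.symm i)) / 2) : ℝ) : ℂ) := by
    rw [← Finset.prod_mul_distrib]
    exact Finset.prod_congr rfl fun i _ => Finset.prod_mul_distrib
  rw [h1]
  have h2 : ((wt fun j : Fin (n * 2) => x (finProdFinEquiv.symm j) : ℝ) : ℂ)
      = (∏ i : Fin (n * 2), ∏ j ∈ Finset.Ioi i,
          ((Real.sign (x (finProdFinEquiv.symm j) - x (finProdFinEquiv.symm i)) : ℝ) : ℂ))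
        * ∏ i : Fin (n * 2), ∏ j ∈ Finset.Ioi i,
        ((2 * Real.sin ((x (finProdFinEquiv.symm j) - x (finProdFinEquiv.symm i)) / 2) : ℝ) : ℂ) := by
    unfold wt
    rw [← Finset.prod_mul_distrib]
    rw [Complex.ofReal_prod]
    refine Finset.prod_congr rfl fun i _ => ?_
    rw [← Finset.prod_mul_distrib, Complex.ofReal_prod]
    refine Finset.prod_congr rfl fun j _ => ?_
    rw [← Complex.ofReal_mul, P6_abs _ _ (hx _) (hx _)]
  rw [h2]
  field_simp

end COE
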