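import Pool.Agent.LibCOE.Defs
import Pool.Agent.LibCOE.CO_P2
import Pool.Agent.LibCOE.CO_P4
import Pool.Agent.LibCOE.CO_P5
import Pool.Agent.LibCOE.CO_P6
import Pool.Agent.LibCOE.CO_W2

/-! Row P7. Proof sketch:
Transfer the integral over Fin (n*2) → ℝ to Ix n → ℝ by finProdFinEquiv (measure preserving for product measures,
`measurePreserving_piCongrLeft`). Insert wt_rep, replace the product of signs by pf (sign matrix) / pf (Jm n) (pf_sign, a.e. by
ae_inj), absorb ∏ h (x j) into the determinant: ∏_j h(x_j) det (ep k (x_j)) = det (h(x_j) ep k (x_j)) (det_mul_column), and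
de_bruijn with φ k x = h x * ep k x. -/

open MeasureTheory Set Filter Topology

namespace COE

open QGr


theorem P7_transfer (n : ℕ) (F : (Fin (n * 2) → ℝ) → ℂ) :
    ∫ θ : Fin (n * 2) → ℝ, F θ ∂(cube (Fin (n * 2)))
      = ∫ x : Ix n → ℝ, F (fun j => x (finProdFinEquiv.symm j)) ∂(cube (Ix n)) := by
  have h1 := measurePreserving_piCongrLeft
    (fun _ : Fin (n * 2) => (volume.restrict (Ioc (0 : ℝ) (2 * Real.pi)) : Measure ℝ))
    (finProdFinEquiv (m := n) (n := 2))
  have h2 := h1.integral_comp (MeasurableEquiv.measurableEmbedding _) F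
  unfold cube
  rw [← h2]
  refine integral_congr_ae (Filter.Eventually.of_forall fun x => ?_)
  show F _ = F _
  congr 1
  funext j
  obtain ⟨k, rfl⟩ := finProdFinEquiv.surjective j
  rw [Equiv.symm_apply_apply]
  exact MeasurableEquiv.piCongrLeft_apply_apply _ _ _

theorem P7_mem (n : ℕ) : ∀ᵐ x ∂(cube (Ix n)), ∀ a, x a ∈ Ioc (0 : ℝ) (2 * Real.pi) := by
  rw [MeasureTheory.ae_all_iff]
  intro a
  unfold cube
  have h1 : ∀ᵐ y ∂(volume.restrict (Ioc (0 : ℝ) (2 * Real.pi)) : Measure ℝ),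
      y ∈ Ioc (0 : ℝ) (2 * Real.pi) := ae_restrict_mem measurableSet_Ioc
  exact (Measure.quasiMeasurePreserving_eval
    (fun _ : Ix n => (volume.restrict (Ioc (0 : ℝ) (2 * Real.pi)) : Measure ℝ)) a).ae h1

theorem Z_pf (n : ℕ) : ∃ C : ℂ, ∀ h : ℝ → ℂ, Continuous h →
    ∫ θ : Fin (n * 2) → ℝ, (∏ j, h (θ j)) * (wt θ : ℂ) ∂(cube (Fin (n * 2)))
      = C * pf (fun k l : Ix n => sk (fun x => h x * ep k x) (fun x => h x * ep l x)) := by
  obtain ⟨C, hC, hwt⟩ := wt_rep n
  refine ⟨C / pf (Jm n) * (Nat.factorial (2 * n) : ℂ), fun h hh => ?_⟩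
  have hep : ∀ k : Ix n, Continuous (ep k) := by
    intro k
    unfold ep
    fun_prop
  have h1 := de_bruijn (fun k x => h x * ep k x) (fun k => hh.mul (hep k))
  rw [P7_transfer, mul_assoc, ← h1, ← integral_const_mul]
  refine integral_congr_ae ?_
  filter_upwards [P7_mem n, ae_inj (Ix n)] with x hx hinj
  have h2 : (∏ j : Fin (n * 2), h (x (finProdFinEquiv.symm j))) = ∏ a : Ix n, h (x a) :=
    Fintype.prod_equiv finProdFinEquiv.symm _ _ fun j => rfl
  have h3 : Matrix.det (Matrix.of fun k j => h (x j) * ep k (x j))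
      = (∏ a : Ix n, h (x a)) * Matrix.det (Matrix.of fun k j : Ix n => ep k (x j)) := by
    rw [← Matrix.det_mul_row]
    rfl
  simp only [h2]
  rw [hwt x hx, pf_sign x hinj, h3]
  have hpf := pf_Jm n
  field_simp

end COE
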