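import Pool.Agent.LibCOE.Defs
import Pool.Agent.LibCOE.CO_P1

/-! Row P8. -/

open MeasureTheory Set Filter Topology

namespace COE

open QGr


theorem P8_map_pf {R S : Type} [CommRing R] [CommRing S] (f : R →+* S) {n : ℕ}
    (A : Matrix (Ix n) (Ix n) R) : f (pf A) = pf (A.map f) := by
  unfold pf
  rw [map_sum]
  refine Finset.sum_congr rfl fun σ _ => ?_
  rw [map_zsmul, map_prod]
  rfl

theorem P8_dvd {p q : Polynomial ℂ} (h : (Polynomial.X ^ 3 : Polynomial ℂ) ∣ p - q) :
    p.coeff 2 = q.coeff 2 := by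
  have h1 := Polynomial.X_pow_dvd_iff.1 h 2 (by norm_num)
  rw [Polynomial.coeff_sub] at h1
  exact sub_eq_zero.1 h1

theorem P8_quot {n : ℕ} {A B : Matrix (Ix n) (Ix n) (Polynomial ℂ)}
    (E : Matrix (Ix n) (Ix n) (Polynomial ℂ))
    (h : A = B + (Polynomial.X ^ 3 : Polynomial ℂ) • E) :
    A.map (Ideal.Quotient.mk (Ideal.span {(Polynomial.X ^ 3 : Polynomial ℂ)}))
      = B.map (Ideal.Quotient.mk (Ideal.span {(Polynomial.X ^ 3 : Polynomial ℂ)})) := by
  ext i j
  rw [Matrix.map_apply, Matrix.map_apply, Ideal.Quotient.eq, h, Matrix.add_apply,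
    Matrix.smul_apply, smul_eq_mul, add_sub_cancel_left]
  exact Ideal.mul_mem_right _ _ (Ideal.mem_span_singleton_self _)

theorem P8_det_congr {n : ℕ} {A B : Matrix (Ix n) (Ix n) (Polynomial ℂ)}
    (E : Matrix (Ix n) (Ix n) (Polynomial ℂ))
    (h : A = B + (Polynomial.X ^ 3 : Polynomial ℂ) • E) :
    A.det.coeff 2 = B.det.coeff 2 := by
  refine P8_dvd (Ideal.mem_span_singleton.1 (Ideal.Quotient.eq.1 ?_))
  rw [RingHom.map_det, RingHom.map_det]
  exact congrArg Matrix.det (P8_quot E h)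

theorem P8_pf_congr {n : ℕ} {A B : Matrix (Ix n) (Ix n) (Polynomial ℂ)}
    (E : Matrix (Ix n) (Ix n) (Polynomial ℂ))
    (h : A = B + (Polynomial.X ^ 3 : Polynomial ℂ) • E) :
    (pf A).coeff 2 = (pf B).coeff 2 := by
  refine P8_dvd (Ideal.mem_span_singleton.1 (Ideal.Quotient.eq.1 ?_))
  rw [P8_map_pf, P8_map_pf]
  exact congrArg pf (P8_quot E h)

theorem P8_coeff_zero {n : ℕ} (Y : Matrix (Ix n) (Ix n) ℂ) :
    (Matrix.det (1 + (Polynomial.X : Polynomial ℂ) • Y.map Polynomial.C)).coeff 0 = 1 := by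
  rw [Polynomial.coeff_zero_eq_eval_zero, _root_.eval_det_add_X_smul, Matrix.det_one,
    Polynomial.eval_one]

theorem P8_coeff_neg {n : ℕ} (Y : Matrix (Ix n) (Ix n) ℂ) :
    (Matrix.det (1 + (Polynomial.X : Polynomial ℂ) • (-Y).map Polynomial.C)).coeff 2
      = (Matrix.det (1 + (Polynomial.X : Polynomial ℂ) • Y.map Polynomial.C)).coeff 2 := by
  rw [Matrix.coeff_det_one_add_X_smul_eq_sum_minors,
    Matrix.coeff_det_one_add_X_smul_eq_sum_minors]
  refine Finset.sum_congr rfl fun s hs => ?_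
  have h1 : ((-Y).submatrix (Subtype.val : s → Ix n) (Subtype.val : s → Ix n))
      = -(Y.submatrix (Subtype.val : s → Ix n) (Subtype.val : s → Ix n)) := rfl
  have h2 : s.card = 2 := (Finset.mem_powersetCard.1 hs).2
  rw [h1, Matrix.det_neg, Fintype.card_coe, h2]
  norm_num

theorem P8_e2 {n : ℕ} (Y : Matrix (Ix n) (Ix n) ℂ) :
    (Matrix.det (1 + (Polynomial.X : Polynomial ℂ) • Y.map Polynomial.C)).coeff 2
      = 1 / 2 * (Matrix.trace Y ^ 2 - Matrix.trace (Y * Y)) := by
  have h1 : (1 + (Polynomial.X : Polynomial ℂ) • Y.map Polynomial.C)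
      * (1 + (Polynomial.X : Polynomial ℂ) • (-Y).map Polynomial.C)
      = 1 + (Polynomial.X ^ 2 : Polynomial ℂ) • (-(Y * Y)).map Polynomial.C := by
    have e1 : (-Y).map Polynomial.C = -(Y.map Polynomial.C) := by
      ext1 i j
      simp
    have e2 : (-(Y * Y)).map Polynomial.C = -(Y.map Polynomial.C * Y.map Polynomial.C) := by
      ext1 i j
      simp [Matrix.mul_apply, map_sum]
    rw [e1, e2]
    simp only [add_mul, mul_add, one_mul, mul_one, smul_mul_assoc, mul_smul_comm, mul_neg,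
      smul_neg]
    module
  have h2 := congrArg (fun p => (Matrix.det p).coeff 2) h1
  beta_reduce at h2
  rw [Matrix.det_mul, Polynomial.coeff_mul,
    Matrix.det_one_add_smul (Polynomial.X ^ 2 : Polynomial ℂ)] at h2
  have ha : Finset.HasAntidiagonal.antidiagonal 2 = {(0, 2), (1, 1), (2, 0)} := rfl
  rw [ha, Finset.sum_insert (by decide), Finset.sum_insert (by decide), Finset.sum_singleton]
    at h2
  simp only [P8_coeff_zero, P8_coeff_neg, Matrix.coeff_det_one_add_X_smul_one] at h2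
  have h3 : ∀ p : Polynomial ℂ, (p * (Polynomial.X ^ 2) ^ 2).coeff 2 = 0 := by
    intro p
    rw [← pow_mul, Polynomial.coeff_mul_X_pow']
    norm_num
  have h4 : (Matrix.trace ((-(Y * Y)).map Polynomial.C) * (Polynomial.X ^ 2 : Polynomial ℂ)).coeff 2
      = -Matrix.trace (Y * Y) := by
    have e : Matrix.trace ((-(Y * Y)).map Polynomial.C)
        = Polynomial.C (-Matrix.trace (Y * Y)) := by
      rw [← Matrix.trace_neg, Matrix.trace, Matrix.trace, map_sum]
      rfl
    rw [e, Polynomial.coeff_C_mul, Polynomial.coeff_X_pow_self, mul_one]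
  rw [Polynomial.coeff_add, Polynomial.coeff_add, h3, h4, Matrix.trace_neg] at h2
  have h5 : (1 : Polynomial ℂ).coeff 2 = 0 := by
    rw [Polynomial.coeff_one]
    norm_num
  rw [h5] at h2
  linear_combination 1 / 2 * h2

theorem det_coeff {n : ℕ} (Y Z : Matrix (Ix n) (Ix n) ℂ) :
    (Matrix.det (1 + (Polynomial.X : Polynomial ℂ) • Y.map Polynomial.C
      + (Polynomial.X ^ 2 : Polynomial ℂ) • Z.map Polynomial.C)).coeff 2
      = Matrix.trace Z + 1 / 2 * (Matrix.trace Y ^ 2 - Matrix.trace (Y * Y)) := by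
  have h1 : 1 + (Polynomial.X : Polynomial ℂ) • Y.map Polynomial.C
      + (Polynomial.X ^ 2 : Polynomial ℂ) • Z.map Polynomial.C
      = (1 + (Polynomial.X : Polynomial ℂ) • Y.map Polynomial.C)
        * (1 + (Polynomial.X ^ 2 : Polynomial ℂ) • Z.map Polynomial.C)
        + (Polynomial.X ^ 3 : Polynomial ℂ) • (-(Y.map Polynomial.C * Z.map Polynomial.C)) := by
    simp only [add_mul, mul_add, one_mul, mul_one, smul_mul_assoc, mul_smul_comm, smul_neg]
    module
  rw [P8_det_congr _ h1, Matrix.det_mul, Polynomial.coeff_mul,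
    Matrix.det_one_add_smul (Polynomial.X ^ 2 : Polynomial ℂ)]
  have ha : Finset.HasAntidiagonal.antidiagonal 2 = {(0, 2), (1, 1), (2, 0)} := rfl
  rw [ha, Finset.sum_insert (by decide), Finset.sum_insert (by decide), Finset.sum_singleton]
  have e : Matrix.trace (Z.map Polynomial.C) = Polynomial.C (Matrix.trace Z) := by
    rw [Matrix.trace, Matrix.trace, map_sum]
    rfl
  simp only [P8_coeff_zero, P8_e2]
  rw [e]
  have h3 : ∀ (p : Polynomial ℂ) (k : ℕ), k < 4 → (p * (Polynomial.X ^ 2) ^ 2).coeff k = 0 := by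
    intro p k hk
    rw [← pow_mul, Polynomial.coeff_mul_X_pow', if_neg (by omega)]
  simp only [Polynomial.coeff_add, Polynomial.coeff_C_mul, Polynomial.coeff_X_pow,
    Polynomial.coeff_one]
  rw [h3 _ 2 (by norm_num), h3 _ 1 (by norm_num), h3 _ 0 (by norm_num)]
  norm_num

theorem pf_eval {n : ℕ} (M₀ M₁ M₂ : Matrix (Ix n) (Ix n) ℂ) (t : ℂ) :
    (pf (M₀.map Polynomial.C + (Polynomial.X : Polynomial ℂ) • M₁.map Polynomial.C
      + (Polynomial.X ^ 2 : Polynomial ℂ) • M₂.map Polynomial.C)).eval t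
      = pf (M₀ + t • M₁ + t ^ 2 • M₂) := by
  have h := P8_map_pf (Polynomial.evalRingHom t)
    (M₀.map Polynomial.C + (Polynomial.X : Polynomial ℂ) • M₁.map Polynomial.C
      + (Polynomial.X ^ 2 : Polynomial ℂ) • M₂.map Polynomial.C)
  rw [Polynomial.coe_evalRingHom] at h
  rw [h]
  congr 1
  ext i j
  simp [Matrix.map_apply, Matrix.add_apply, Matrix.smul_apply]
  ring

theorem P8_expand {S A : Type} [CommRing S] [Ring A] [Algebra S A] (x : S)
    (m₀ m₁ m₂ y z y' z' : A) (h1 : y' * m₀ + m₀ * y = m₁)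
    (h2 : z' * m₀ + m₀ * z + y' * m₀ * y = m₂) :
    (1 + x • y' + x ^ 2 • z') * m₀ * (1 + x • y + x ^ 2 • z)
      = (m₀ + x • m₁ + x ^ 2 • m₂)
        + x ^ 3 • (y' * m₀ * z + z' * m₀ * y + x • (z' * m₀ * z)) := by
  rw [← h1, ← h2]
  simp only [add_mul, mul_add, one_mul, mul_one, smul_mul_assoc, mul_smul_comm, smul_smul,
    smul_add]
  module

theorem pf_coeff {n : ℕ} (M₀ M₁ M₂ R : Matrix (Ix n) (Ix n) ℂ) (h0 : M₀.transpose = -M₀)
    (h1 : M₁.transpose = -M₁) (h2 : M₂.transpose = -M₂) (hR : R * M₀ = 1) :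
    (pf (M₀.map Polynomial.C + (Polynomial.X : Polynomial ℂ) • M₁.map Polynomial.C
      + (Polynomial.X ^ 2 : Polynomial ℂ) • M₂.map Polynomial.C)).coeff 2
      = pf M₀ * (1 / 2 * Matrix.trace (R * M₂) - 1 / 4 * Matrix.trace (R * M₁ * (R * M₁))
        + 1 / 8 * Matrix.trace (R * M₁) ^ 2) := by
  have hR' : M₀ * R = 1 := mul_eq_one_comm.1 hR
  have hRt : R.transpose = -R := by
    have e1 : M₀.transpose * R.transpose = 1 := by
      rw [← Matrix.transpose_mul, hR, Matrix.transpose_one]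
    rw [h0, Matrix.neg_mul] at e1
    have e2 : M₀ * (-R.transpose) = 1 := by rw [Matrix.mul_neg, e1]
    have e3 : -R.transpose = R := by
      calc -R.transpose = (R * M₀) * (-R.transpose) := by rw [hR, Matrix.one_mul]
        _ = R * (M₀ * (-R.transpose)) := Matrix.mul_assoc _ _ _
        _ = R := by rw [e2, Matrix.mul_one]
    have e4 := congrArg Neg.neg e3
    rwa [neg_neg] at e4
  set Y : Matrix (Ix n) (Ix n) ℂ := (1 / 2 : ℂ) • (R * M₁) with hY
  set Z : Matrix (Ix n) (Ix n) ℂ :=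
    (1 / 2 : ℂ) • (R * (M₂ - (1 / 4 : ℂ) • (M₁ * R * M₁))) with hZ
  have hYt : Y.transpose = (1 / 2 : ℂ) • (M₁ * R) := by
    rw [hY, Matrix.transpose_smul, Matrix.transpose_mul, h1, hRt, neg_mul_neg]
  have hZt : Z.transpose = (1 / 2 : ℂ) • ((M₂ - (1 / 4 : ℂ) • (M₁ * R * M₁)) * R) := by
    rw [hZ, Matrix.transpose_smul, Matrix.transpose_mul, Matrix.transpose_sub,
      Matrix.transpose_smul, Matrix.transpose_mul, Matrix.transpose_mul, h1, h2, hRt]
    congr 1
    simp only [Matrix.neg_mul, Matrix.mul_neg, Matrix.sub_mul, Matrix.mul_assoc, neg_neg,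
      smul_neg, neg_sub]
    abel_nf
  have hy : Y.transpose * M₀ + M₀ * Y = M₁ := by
    rw [hYt, hY, Matrix.smul_mul, Matrix.mul_smul, Matrix.mul_assoc, hR, Matrix.mul_one,
      ← Matrix.mul_assoc, hR', Matrix.one_mul]
    module
  have hz : Z.transpose * M₀ + M₀ * Z + Y.transpose * M₀ * Y = M₂ := by
    have e1 : Z.transpose * M₀ = (1 / 2 : ℂ) • (M₂ - (1 / 4 : ℂ) • (M₁ * R * M₁)) := by
      rw [hZt, Matrix.smul_mul, Matrix.mul_assoc, hR, Matrix.mul_one]
    have e2 : M₀ * Z = (1 / 2 : ℂ) • (M₂ - (1 / 4 : ℂ) • (M₁ * R * M₁)) := by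
      rw [hZ, Matrix.mul_smul, ← Matrix.mul_assoc, hR', Matrix.one_mul]
    have e3 : Y.transpose * M₀ * Y = (1 / 4 : ℂ) • (M₁ * R * M₁) := by
      rw [hYt, hY, Matrix.smul_mul, Matrix.mul_assoc M₁, hR, Matrix.mul_one, Matrix.smul_mul,
        Matrix.mul_smul, smul_smul, Matrix.mul_assoc]
      norm_num
    rw [e1, e2, e3]
    module
  have hmapm : ∀ A B : Matrix (Ix n) (Ix n) ℂ,
      A.map Polynomial.C * B.map Polynomial.C = (A * B).map Polynomial.C :=
    fun A B => (Matrix.map_mul (f := (Polynomial.C : ℂ →+* Polynomial ℂ))).symm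
  have hmapa : ∀ A B : Matrix (Ix n) (Ix n) ℂ,
      A.map Polynomial.C + B.map Polynomial.C = (A + B).map Polynomial.C := by
    intro A B
    ext1 i j
    simp
  have hy' : (Y.map Polynomial.C).transpose * M₀.map Polynomial.C
      + M₀.map Polynomial.C * Y.map Polynomial.C = M₁.map Polynomial.C := by
    rw [Matrix.transpose_map.symm, hmapm, hmapm, hmapa, hy]
  have hz' : (Z.map Polynomial.C).transpose * M₀.map Polynomial.C
      + M₀.map Polynomial.C * Z.map Polynomial.C
      + (Y.map Polynomial.C).transpose * M₀.map Polynomial.C * Y.map Polynomial.C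
      = M₂.map Polynomial.C := by
    rw [Matrix.transpose_map.symm, Matrix.transpose_map.symm, hmapm, hmapm, hmapm, hmapm, hmapa,
      hmapa, hz]
  have hexp := P8_expand (Polynomial.X : Polynomial ℂ) (M₀.map Polynomial.C)
    (M₁.map Polynomial.C) (M₂.map Polynomial.C) (Y.map Polynomial.C) (Z.map Polynomial.C)
    (Y.map Polynomial.C).transpose (Z.map Polynomial.C).transpose hy' hz'
  have hBt : (1 + (Polynomial.X : Polynomial ℂ) • Y.map Polynomial.C
      + (Polynomial.X ^ 2 : Polynomial ℂ) • Z.map Polynomial.C).transpose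
      = 1 + (Polynomial.X : Polynomial ℂ) • (Y.map Polynomial.C).transpose
        + (Polynomial.X ^ 2 : Polynomial ℂ) • (Z.map Polynomial.C).transpose := by
    rw [Matrix.transpose_add, Matrix.transpose_add, Matrix.transpose_one, Matrix.transpose_smul,
      Matrix.transpose_smul]
  rw [← hBt] at hexp
  have h3 := P8_pf_congr _ hexp
  rw [pf_mul] at h3
  rw [← h3, ← P8_map_pf, Polynomial.coeff_mul_C, det_coeff]
  have t1 : Matrix.trace Y = 1 / 2 * Matrix.trace (R * M₁) := by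
    rw [hY, Matrix.trace_smul, smul_eq_mul]
  have t2 : Matrix.trace (Y * Y) = 1 / 4 * Matrix.trace (R * M₁ * (R * M₁)) := by
    rw [hY, Matrix.smul_mul, Matrix.mul_smul, smul_smul, Matrix.trace_smul, smul_eq_mul]
    norm_num
  have t3 : Matrix.trace Z = 1 / 2 * Matrix.trace (R * M₂)
      - 1 / 8 * Matrix.trace (R * M₁ * (R * M₁)) := by
    have e : R * (M₁ * R * M₁) = R * M₁ * (R * M₁) := by simp only [Matrix.mul_assoc]
    rw [hZ, Matrix.trace_smul, Matrix.mul_sub, Matrix.mul_smul, Matrix.trace_sub,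
      Matrix.trace_smul, smul_eq_mul, smul_eq_mul, e]
    ring
  rw [t1, t2, t3]
  ring

end COE
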