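import Pool.Agent.LibCOE.Defs
import Pool.Agent.LibCOE.CO_W1
import Pool.Agent.LibCOE.CO_W2

/-! Row P9. Proof sketch:
∏_j (1 + t u_j) = ∑_{S ⊆ univ} t^|S| ∏_{j∈S} u_j (`Finset.prod_one_add` / prod_add_one). z = ∑_S C (∫ ∏_{j∈S} u_j wt) X^|S|.
coeff 0: S = ∅. coeff 2: ∑_{|S|=2} = 1/2 ∑_{i} ∑_{j≠i} (powersetCard 2; e.g. induct or use that the map (i,j) ↦ {i,j} is
2-to-1; or use (∑u)^2 identities). -/

open MeasureTheory Set Filter Topology

namespace COE

open QGr


/-- The sum of the products over the subsets with `k` elements. -/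
noncomputable def P9_g {ι : Type} (x : ι → ℂ) (k : ℕ) (s : Finset ι) : ℂ :=
  ∑ S ∈ s.powerset, if k = S.card then ∏ j ∈ S, x j else 0

theorem P9_succ {ι : Type} [DecidableEq ι] (x : ι → ℂ) (k : ℕ) {a : ι} {s : Finset ι}
    (ha : a ∉ s) : P9_g x (k + 1) (insert a s) = P9_g x (k + 1) s + x a * P9_g x k s := by
  unfold P9_g
  rw [Finset.sum_powerset_insert ha, Finset.mul_sum]
  congr 1
  refine Finset.sum_congr rfl fun t ht => ?_
  have hat : a ∉ t := fun h => ha (Finset.mem_powerset.1 ht h)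
  rw [Finset.card_insert_of_notMem hat]
  by_cases h : k = t.card
  · rw [if_pos h, if_pos (by omega), Finset.prod_insert hat]
  · rw [if_neg h, if_neg (by omega), mul_zero]

theorem P9_zero {ι : Type} [DecidableEq ι] (x : ι → ℂ) (s : Finset ι) : P9_g x 0 s = 1 := by
  unfold P9_g
  rw [Finset.sum_eq_single ∅]
  · simp
  · intro S _ hne
    rw [if_neg]
    intro h
    exact hne (Finset.card_eq_zero.1 h.symm)
  · intro h
    exact absurd (Finset.empty_mem_powerset s) h

theorem P9_one {ι : Type} [DecidableEq ι] (x : ι → ℂ) (s : Finset ι) :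
    P9_g x 1 s = ∑ i ∈ s, x i := by
  induction s using Finset.induction_on with
  | empty => simp [P9_g]
  | insert a s ha ih => rw [P9_succ x 0 ha, ih, P9_zero, mul_one, Finset.sum_insert ha, add_comm]

theorem P9_two {ι : Type} [DecidableEq ι] (x : ι → ℂ) (s : Finset ι) :
    2 * P9_g x 2 s = (∑ i ∈ s, x i) ^ 2 - ∑ i ∈ s, x i ^ 2 := by
  induction s using Finset.induction_on with
  | empty => simp [P9_g]
  | insert a s ha ih =>
    rw [P9_succ x 1 ha, P9_one, mul_add, ih, Finset.sum_insert ha, Finset.sum_insert ha]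
    ring

theorem P9_pairs {ι : Type} [DecidableEq ι] (x : ι → ℂ) (s : Finset ι) :
    P9_g x 2 s = 1 / 2 * ∑ i ∈ s, ∑ j ∈ s.erase i, x i * x j := by
  have h1 : ∑ i ∈ s, ∑ j ∈ s.erase i, x i * x j = (∑ i ∈ s, x i) ^ 2 - ∑ i ∈ s, x i ^ 2 := by
    rw [sq, Finset.sum_mul, ← Finset.sum_sub_distrib]
    refine Finset.sum_congr rfl fun i hi => ?_
    rw [← Finset.mul_sum, Finset.sum_erase_eq_sub hi]
    ring
  rw [h1, ← P9_two]
  ring

theorem Z_poly {N : ℕ} (u : ℝ → ℝ) (hu : Continuous u) : ∃ z : Polynomial ℂ,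
    (∀ t : ℂ, z.eval t = ∫ θ, (∏ j, (1 + t * u (θ j))) * (wt θ : ℂ) ∂(cube (Fin N))) ∧
    z.coeff 0 = ∫ θ, (wt θ : ℂ) ∂(cube (Fin N)) ∧
    z.coeff 2 = 1 / 2 * ∫ θ, ((∑ i, ∑ j ∈ Finset.univ.erase i, u (θ i) * u (θ j) : ℝ) : ℂ)
      * (wt θ : ℂ) ∂(cube (Fin N)) := by
  have hwt : Continuous fun θ : Fin N → ℝ => (wt θ : ℂ) := Complex.continuous_ofReal.comp wt_cont
  have hc : ∀ S : Finset (Fin N), Continuous fun θ : Fin N → ℝ =>
      (∏ j ∈ S, (u (θ j) : ℂ)) * (wt θ : ℂ) := by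
    intro S
    refine Continuous.mul ?_ hwt
    exact continuous_finsetProd _ fun j _ =>
      Complex.continuous_ofReal.comp (hu.comp (continuous_apply j))
  have hint : ∀ S : Finset (Fin N), Integrable (fun θ : Fin N → ℝ =>
      (∏ j ∈ S, (u (θ j) : ℂ)) * (wt θ : ℂ)) (cube (Fin N)) := fun S => int_bdd _ (hc S)
  have hcoeff : ∀ k : ℕ, (∑ S ∈ (Finset.univ : Finset (Fin N)).powerset,
      Polynomial.C (∫ θ, (∏ j ∈ S, (u (θ j) : ℂ)) * (wt θ : ℂ) ∂(cube (Fin N))) *
        Polynomial.X ^ S.card).coeff k =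
      ∫ θ, P9_g (fun j => (u (θ j) : ℂ)) k Finset.univ * (wt θ : ℂ) ∂(cube (Fin N)) := by
    intro k
    have h1 : ∀ θ : Fin N → ℝ, P9_g (fun j => (u (θ j) : ℂ)) k Finset.univ * (wt θ : ℂ) =
        ∑ S ∈ (Finset.univ : Finset (Fin N)).powerset, (if k = S.card then (1 : ℂ) else 0) *
          ((∏ j ∈ S, (u (θ j) : ℂ)) * (wt θ : ℂ)) := by
      intro θ
      unfold P9_g
      rw [Finset.sum_mul]
      refine Finset.sum_congr rfl fun S _ => ?_
      split_ifs
      · rw [one_mul]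
      · rw [zero_mul, zero_mul]
    simp only [h1]
    rw [integral_finsetSum _ fun S _ => (hint S).const_mul _, Polynomial.finsetSum_coeff]
    refine Finset.sum_congr rfl fun S _ => ?_
    rw [Polynomial.coeff_C_mul_X_pow, integral_const_mul]
    split_ifs
    · rw [one_mul]
    · rw [zero_mul]
  refine ⟨∑ S ∈ (Finset.univ : Finset (Fin N)).powerset,
    Polynomial.C (∫ θ, (∏ j ∈ S, (u (θ j) : ℂ)) * (wt θ : ℂ) ∂(cube (Fin N))) *
      Polynomial.X ^ S.card, ?_, ?_, ?_⟩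
  · intro t
    have h1 : ∀ θ : Fin N → ℝ, (∏ j, (1 + t * (u (θ j) : ℂ))) * (wt θ : ℂ) =
        ∑ S ∈ (Finset.univ : Finset (Fin N)).powerset, t ^ S.card *
          ((∏ j ∈ S, (u (θ j) : ℂ)) * (wt θ : ℂ)) := by
      intro θ
      rw [Finset.prod_one_add, Finset.sum_mul]
      refine Finset.sum_congr rfl fun S _ => ?_
      rw [Finset.prod_mul_distrib, Finset.prod_const, mul_assoc]
    simp only [h1]
    rw [integral_finsetSum _ fun S _ => (hint S).const_mul _, Polynomial.eval_finsetSum]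
    refine Finset.sum_congr rfl fun S _ => ?_
    rw [Polynomial.eval_mul, Polynomial.eval_C, Polynomial.eval_pow, Polynomial.eval_X,
      integral_const_mul, mul_comm]
  · rw [hcoeff 0]
    simp only [P9_zero, one_mul]
  · rw [hcoeff 2, ← integral_const_mul]
    refine integral_congr_ae (Eventually.of_forall fun θ => ?_)
    simp only [P9_pairs]
    push_cast
    ring

end COE
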