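import Pool.Agent.LibCOE.Defs
import Pool.Agent.LibCOE.CO_P10
import Pool.Agent.LibCOE.CO_P11
import Pool.Agent.LibCOE.CO_P12
import Pool.Agent.LibCOE.CO_P13
import Pool.Agent.LibCOE.CO_P7
import Pool.Agent.LibCOE.CO_P8
import Pool.Agent.LibCOE.CO_P9
import Pool.Agent.LibCOE.CO_W1
import Pool.Agent.LibCOE.CO_W2

/-! Row P14. Proof sketch:
z from Z_poly, f = the polynomial pf (M0.map C + X • M1.map C + X^2 • M2.map C), h_t x = 1 + t u x: Z_pf and sk_poly give
z.eval t = C * f.eval t for all t, so z = C f (Polynomial.funext). coeff 0: ∫ wt = C pf M0 (≠ 0). coeff 2: 1/2 ∫ ∑_{i≠j} u_i u_j wt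
= C pf M0 [1/2 tr2 - 1/4 tr11 + 1/8 tr1^2]; (∫u)^2 = ∫∫ u u; kS n 0 = n/π (1/2π ∑ 1 = 2n/2π); algebra gives
kS(0)^2 - kT. Everything is the cast of a real identity (take real parts / ofReal_injective). -/

open MeasureTheory Set Filter Topology

namespace COE

open QGr


/-- Bounded measurable functions. -/
def P14_B (g : ℝ → ℝ) : Prop := Measurable g ∧ ∃ K, ∀ r, |g r| ≤ K

theorem P14_int (u : ℝ → ℝ) (hu : Continuous u) (g : ℝ → ℝ) (hg : P14_B g) :
    Integrable (fun p : ℝ × ℝ => u p.1 * u p.2 * g (p.1 - p.2))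
      ((volume.restrict (Ioc 0 (2 * Real.pi))).prod (volume.restrict (Ioc 0 (2 * Real.pi)))) := by
  have h1 : Integrable u (volume.restrict (Ioc 0 (2 * Real.pi))) :=
    (hu.integrableOn_Icc (a := 0) (b := 2 * Real.pi)).mono_set Ioc_subset_Icc_self
  have h2 := h1.mul_prod h1
  obtain ⟨K, hK⟩ := hg.2
  refine (h2.bdd_mul (f := fun p : ℝ × ℝ => g (p.1 - p.2)) (c := K) ?_ ?_).congr ?_
  · exact (hg.1.comp (measurable_fst.sub measurable_snd)).aestronglyMeasurable
  · exact Eventually.of_forall fun p => by simpa using hK _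
  · exact Eventually.of_forall fun p => by simp only; ring

theorem P14_prod (u : ℝ → ℝ) (hu : Continuous u) (g : ℝ → ℝ) (hg : P14_B g) :
    ∫ x in (0 : ℝ)..(2 * Real.pi), ∫ y in (0 : ℝ)..(2 * Real.pi), u x * u y * g (x - y)
      = ∫ p : ℝ × ℝ, u p.1 * u p.2 * g (p.1 - p.2)
        ∂((volume.restrict (Ioc 0 (2 * Real.pi))).prod (volume.restrict (Ioc 0 (2 * Real.pi)))) := by
  have hpi : (0 : ℝ) ≤ 2 * Real.pi := by positivity
  rw [integral_prod _ (P14_int u hu g hg), intervalIntegral.integral_of_le hpi]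
  refine integral_congr_ae (Eventually.of_forall fun x => ?_)
  simp only
  rw [intervalIntegral.integral_of_le hpi]

theorem P14_cos (n : ℕ) (c : Ix n → ℝ) : P14_B fun r => ∑ k : Ix n, c k * Real.cos (hp k * r) := by
  refine ⟨by fun_prop, ∑ k, |c k|, fun r => ?_⟩
  refine (Finset.abs_sum_le_sum_abs _ _).trans (Finset.sum_le_sum fun k _ => ?_)
  rw [abs_mul]
  exact mul_le_of_le_one_right (abs_nonneg _) (Real.abs_cos_le_one _)

theorem P14_sin (n : ℕ) (c : Ix n → ℝ) : P14_B fun r => ∑ k : Ix n, c k * Real.sin (hp k * r) := by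
  refine ⟨by fun_prop, ∑ k, |c k|, fun r => ?_⟩
  refine (Finset.abs_sum_le_sum_abs _ _).trans (Finset.sum_le_sum fun k _ => ?_)
  rw [abs_mul]
  exact mul_le_of_le_one_right (abs_nonneg _) (Real.abs_sin_le_one _)

theorem P14_mul {g h : ℝ → ℝ} (hg : P14_B g) (hh : P14_B h) : P14_B fun r => g r * h r := by
  obtain ⟨K, hK⟩ := hg.2
  obtain ⟨L, hL⟩ := hh.2
  refine ⟨hg.1.mul hh.1, K * L, fun r => ?_⟩
  rw [abs_mul]
  exact mul_le_mul (hK r) (hL r) (abs_nonneg _) ((abs_nonneg _).trans (hK r))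

theorem P14_add {g h : ℝ → ℝ} (hg : P14_B g) (hh : P14_B h) : P14_B fun r => g r + h r := by
  obtain ⟨K, hK⟩ := hg.2
  obtain ⟨L, hL⟩ := hh.2
  refine ⟨hg.1.add hh.1, K + L, fun r => ?_⟩
  exact (abs_add_le _ _).trans (add_le_add (hK r) (hL r))

theorem P14_const (c : ℝ) : P14_B fun _ => c := ⟨measurable_const, |c|, fun _ => le_rfl⟩

theorem P14_smul {g : ℝ → ℝ} (hg : P14_B g) (c : ℝ) : P14_B fun r => c * g r :=
  P14_mul (P14_const c) hg

theorem P14_sign : P14_B Real.sign := by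
  refine ⟨?_, 1, fun r => ?_⟩
  · unfold Real.sign
    exact Measurable.ite measurableSet_Iio measurable_const
      (Measurable.ite measurableSet_Ioi measurable_const measurable_const)
  · rcases lt_trichotomy r 0 with h | h | h
    · rw [Real.sign_of_neg h]; norm_num
    · rw [h, Real.sign_zero]; norm_num
    · rw [Real.sign_of_pos h]; norm_num

theorem P14_kS (n : ℕ) : P14_B (kS n) := by
  have := P14_smul (P14_cos n fun _ => 1) (1 / (2 * Real.pi))
  have e : kS n = fun r => 1 / (2 * Real.pi) * ∑ k : Ix n, 1 * Real.cos (hp k * r) := by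
    funext r; simp [kS]
  rw [e]; exact this

theorem P14_kD (n : ℕ) : P14_B (kD n) := by
  exact P14_smul (P14_sin n fun k => hp k) (-(1 / (2 * Real.pi)))

theorem P14_kI (n : ℕ) : P14_B (kI n) := by
  exact P14_smul (P14_sin n fun k => 1 / hp k) (1 / (2 * Real.pi))

/-- Linearity of the double integral. -/
theorem P14_lin (u : ℝ → ℝ) (hu : Continuous u) (g₁ g₂ g₃ : ℝ → ℝ) (h₁ : P14_B g₁)
    (h₂ : P14_B g₂) (h₃ : P14_B g₃) (a b c : ℝ) (g : ℝ → ℝ)
    (hg : ∀ r, g r = a * g₁ r + b * g₂ r + c * g₃ r) :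
    ∫ x in (0 : ℝ)..(2 * Real.pi), ∫ y in (0 : ℝ)..(2 * Real.pi), u x * u y * g (x - y)
      = a * (∫ x in (0 : ℝ)..(2 * Real.pi), ∫ y in (0 : ℝ)..(2 * Real.pi), u x * u y * g₁ (x - y))
        + b * (∫ x in (0 : ℝ)..(2 * Real.pi), ∫ y in (0 : ℝ)..(2 * Real.pi), u x * u y * g₂ (x - y))
        + c * ∫ x in (0 : ℝ)..(2 * Real.pi), ∫ y in (0 : ℝ)..(2 * Real.pi),
          u x * u y * g₃ (x - y) := by
  have hgB : P14_B g := by
    have := P14_add (P14_add (P14_smul h₁ a) (P14_smul h₂ b)) (P14_smul h₃ c)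
    have e : g = fun r => a * g₁ r + b * g₂ r + c * g₃ r := funext hg
    rw [e]
    exact this
  rw [P14_prod u hu g hgB, P14_prod u hu g₁ h₁, P14_prod u hu g₂ h₂, P14_prod u hu g₃ h₃,
    ← integral_const_mul, ← integral_const_mul, ← integral_const_mul, ← integral_add,
    ← integral_add]
  · refine integral_congr_ae (Eventually.of_forall fun p => ?_)
    simp only [hg]
    ring
  · exact ((P14_int u hu g₁ h₁).const_mul a).add ((P14_int u hu g₂ h₂).const_mul b)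
  · exact (P14_int u hu g₃ h₃).const_mul c
  · exact (P14_int u hu g₁ h₁).const_mul a
  · exact (P14_int u hu g₂ h₂).const_mul b

theorem P14_S0 (n : ℕ) : kS n 0 = n / Real.pi := by
  unfold kS
  simp only [mul_zero, Real.cos_zero, Finset.sum_const, Finset.card_univ, Fintype.card_prod,
    Fintype.card_fin, nsmul_eq_mul, mul_one]
  push_cast
  have := Real.pi_ne_zero
  field_simp

theorem pair_w {n : ℕ} (u : ℝ → ℝ) (hu : Continuous u) :
    ∫ θ : Fin (n * 2) → ℝ, (∑ i, ∑ j ∈ Finset.univ.erase i, u (θ i) * u (θ j)) * wt θ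
        ∂(cube (Fin (n * 2)))
      = (∫ θ, wt θ ∂(cube (Fin (n * 2)))) * ∫ x in (0 : ℝ)..(2 * Real.pi),
        ∫ y in (0 : ℝ)..(2 * Real.pi), u x * u y * (kS n 0 ^ 2 - kT n (x - y)) := by
  obtain ⟨C, hC⟩ := Z_pf n
  obtain ⟨z, hz, hz0, hz2⟩ := Z_poly (N := n * 2) u hu
  set f := pf ((M0 n).map Polynomial.C + (Polynomial.X : Polynomial ℂ) • (M1 n u).map Polynomial.C
      + (Polynomial.X ^ 2 : Polynomial ℂ) • (M2 n u).map Polynomial.C) with hf
  obtain ⟨s0, s1, s2⟩ := skew_M (n := n) u hu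
  have hzf : z = Polynomial.C C * f := by
    refine Polynomial.funext fun t => ?_
    rw [hz, Polynomial.eval_mul, Polynomial.eval_C, hf, pf_eval]
    have hcont : Continuous fun x : ℝ => (1 : ℂ) + t * u x := by fun_prop
    have h1 := hC (fun x => 1 + t * u x) hcont
    rw [h1]
    congr 2
    funext k l
    rw [sk_poly k l u hu t]
    rfl
  have c0 : ((∫ θ, wt θ ∂(cube (Fin (n * 2))) : ℝ) : ℂ) = C * pf (M0 n) := by
    have h1 : z.coeff 0 = C * pf (M0 n) := by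
      rw [hzf, Polynomial.coeff_C_mul, Polynomial.coeff_zero_eq_eval_zero, hf, pf_eval]
      simp
    rw [← h1, hz0, ← integral_complex_ofReal]
  have c2 : z.coeff 2 = C * (pf (M0 n) * (1 / 2 * Matrix.trace (Rm n * M2 n u)
      - 1 / 4 * Matrix.trace (Rm n * M1 n u * (Rm n * M1 n u))
        + 1 / 8 * Matrix.trace (Rm n * M1 n u) ^ 2)) := by
    rw [hzf, Polynomial.coeff_C_mul, hf, pf_coeff _ _ _ (Rm n) s0 s1 s2 (Rm_mul n)]
  rw [hz2, ← mul_assoc, ← c0, tr1 u hu, tr2 u hu, tr11 u hu] at c2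
  have c3 : ∫ θ : Fin (n * 2) → ℝ, ((∑ i, ∑ j ∈ Finset.univ.erase i, u (θ i) * u (θ j) : ℝ) : ℂ)
      * (wt θ : ℂ) ∂(cube (Fin (n * 2)))
      = ((∫ θ : Fin (n * 2) → ℝ, (∑ i, ∑ j ∈ Finset.univ.erase i, u (θ i) * u (θ j)) * wt θ
        ∂(cube (Fin (n * 2))) : ℝ) : ℂ) := by
    rw [← integral_complex_ofReal]
    refine integral_congr_ae (Eventually.of_forall fun θ => ?_)
    simp only
    push_cast
    rfl
  rw [c3] at c2
  set X := ∫ θ : Fin (n * 2) → ℝ, (∑ i, ∑ j ∈ Finset.univ.erase i, u (θ i) * u (θ j)) * wt θ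
        ∂(cube (Fin (n * 2))) with hX
  set Wt := ∫ θ, wt θ ∂(cube (Fin (n * 2))) with hWt
  set U := ∫ x in (0 : ℝ)..(2 * Real.pi), u x with hU
  set I₂ := ∫ x in (0 : ℝ)..(2 * Real.pi), ∫ y in (0 : ℝ)..(2 * Real.pi),
        u x * u y * (Real.sign (x - y) * kD n (x - y)) with hI₂
  set I₁ := ∫ x in (0 : ℝ)..(2 * Real.pi), ∫ y in (0 : ℝ)..(2 * Real.pi),
        u x * u y * (2 * kS n (x - y) ^ 2 - 2 * kD n (x - y) * kI n (x - y)) with hI₁
  have c4 : 1 / 2 * X = Wt * (1 / 2 * (-(1 / 2) * I₂) - 1 / 4 * I₁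
      + 1 / 8 * (2 * n / Real.pi * U) ^ 2) := by
    have := c2
    apply Complex.ofReal_injective
    push_cast at this ⊢
    exact this
  have hB1 : P14_B fun r => 2 * kS n r ^ 2 - 2 * kD n r * kI n r := by
    have := P14_add (P14_smul (P14_mul (P14_kS n) (P14_kS n)) 2)
      (P14_smul (P14_mul (P14_kD n) (P14_kI n)) (-2))
    have e : (fun r => 2 * kS n r ^ 2 - 2 * kD n r * kI n r)
        = fun r => 2 * (kS n r * kS n r) + -2 * (kD n r * kI n r) := by
      funext r; ring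
    rw [e]; exact this
  have hB2 : P14_B fun r => Real.sign r * kD n r := P14_mul P14_sign (P14_kD n)
  have h5 := P14_lin u hu (fun _ => 1) _ _ (P14_const 1) hB1 hB2 (kS n 0 ^ 2) (-(1 / 2)) (-(1 / 2))
    (fun r => kS n 0 ^ 2 - kT n r) (fun r => by simp only [kT]; ring)
  have h6 : ∫ x in (0 : ℝ)..(2 * Real.pi), ∫ y in (0 : ℝ)..(2 * Real.pi), u x * u y * (1 : ℝ)
      = U ^ 2 := by
    simp only [mul_one, intervalIntegral.integral_const_mul, intervalIntegral.integral_mul_const]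
    rw [hU]; ring
  beta_reduce at h5
  rw [h6, ← hI₁, ← hI₂] at h5
  rw [h5, P14_S0]
  have hpi := Real.pi_ne_zero
  have h7 : X = 2 * (Wt * (1 / 2 * (-(1 / 2) * I₂) - 1 / 4 * I₁
      + 1 / 8 * (2 * n / Real.pi * U) ^ 2)) := by linarith
  rw [h7]
  field_simp
  ring

end COE
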