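import Pool.Agent.LibCOE.Defs
import Pool.Agent.LibCOE.CO_P14
import Pool.Agent.LibCOE.CO_W1
import Pool.Agent.LibCOE.CO_W2

/-! Row P15. Proof sketch:
kT_per: for p half-integer cos (p(r - 2π)) = -cos (pr), sin likewise; sign changes from 1 to -1. cos_w: ‖ps k θ‖^2 =
∑_{i,j} cos (k(θ_i - θ_j)) = N + ∑_{i≠j} (cos kθ_i cos kθ_j + sin kθ_i sin kθ_j); pair_w for u = cos (k ·) and u = sin (k ·), add:
∫∫ cos (k(x-y)) (kS 0^2 - kT (x-y)) dx dy over [0,2π]^2 = 2π ∫_{-π}^{π} (for fixed y substitute r = x - y ∈ [-y, 2π - y], an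
interval of length 2π of a 2π-periodic function (kT_per; kT is measurable and bounded): `Function.Periodic.intervalIntegral_add_eq`). -/

open MeasureTheory Set Filter Topology

namespace COE

open QGr


theorem P15_c {n : ℕ} (k : Ix n) (r : ℝ) :
    Real.cos (hp k * (r - 2 * Real.pi)) = - Real.cos (hp k * r) := by
  have h : hp k * (r - 2 * Real.pi) = (hp k * r + Real.pi)
      + (((n : ℤ) - 1 - (od k : ℤ) : ℤ) : ℝ) * (2 * Real.pi) := by
    unfold hp
    push_cast
    ring
  rw [h, Real.cos_add_int_mul_two_pi, Real.cos_add_pi]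

theorem P15_s {n : ℕ} (k : Ix n) (r : ℝ) :
    Real.sin (hp k * (r - 2 * Real.pi)) = - Real.sin (hp k * r) := by
  have h : hp k * (r - 2 * Real.pi) = (hp k * r + Real.pi)
      + (((n : ℤ) - 1 - (od k : ℤ) : ℤ) : ℝ) * (2 * Real.pi) := by
    unfold hp
    push_cast
    ring
  rw [h, Real.sin_add_int_mul_two_pi, Real.sin_add_pi]

theorem kT_per {n : ℕ} (r : ℝ) (h0 : 0 < r) (h1 : r < 2 * Real.pi) :
    kT n (r - 2 * Real.pi) = kT n r := by
  have hS : kS n (r - 2 * Real.pi) = - kS n r := by
    unfold kS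
    rw [Finset.sum_congr rfl fun k _ => P15_c k r, Finset.sum_neg_distrib]
    ring
  have hD : kD n (r - 2 * Real.pi) = - kD n r := by
    unfold kD
    rw [Finset.sum_congr rfl fun k _ => by rw [P15_s k r, mul_neg], Finset.sum_neg_distrib]
    ring
  have hI : kI n (r - 2 * Real.pi) = - kI n r := by
    unfold kI
    rw [Finset.sum_congr rfl fun k _ => by rw [P15_s k r, mul_neg], Finset.sum_neg_distrib]
    ring
  unfold kT
  rw [hS, hD, hI, Real.sign_of_neg (by linarith), Real.sign_of_pos h0]
  ring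

theorem P15_int {n : ℕ} (w : ℝ → ℝ) (hw : Continuous w) (a b : ℝ) :
    IntervalIntegrable (fun r => w r * (kS n 0 ^ 2 - kT n r)) volume a b := by
  have hS : Continuous (kS n) := by
    unfold kS
    fun_prop
  have hD : Continuous (kD n) := by
    unfold kD
    fun_prop
  have hI : Continuous (kI n) := by
    unfold kI
    fun_prop
  have hm : Measurable Real.sign := by
    unfold Real.sign
    exact Measurable.ite measurableSet_Iio measurable_const
      (Measurable.ite measurableSet_Ioi measurable_const measurable_const)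
  have hb : ∀ r : ℝ, ‖Real.sign r‖ ≤ 1 := by
    intro r
    rcases Real.sign_apply_eq r with h | h | h <;> rw [h] <;> norm_num
  have hs : IntervalIntegrable Real.sign volume a b := by
    rw [intervalIntegrable_iff]
    apply Measure.integrableOn_of_bounded (M := 1)
    · rw [uIoc, Real.volume_Ioc]
      exact ENNReal.ofReal_ne_top
    · exact hm.aestronglyMeasurable
    · exact Eventually.of_forall hb
  have h1 : IntervalIntegrable (fun r => w r * (kS n 0 ^ 2 - kS n r ^ 2 + kD n r * kI n r))
      volume a b := by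
    apply Continuous.intervalIntegrable
    fun_prop
  have h2 : IntervalIntegrable (fun r => Real.sign r * (w r * kD n r / 2)) volume a b := by
    apply hs.mul_continuousOn
    apply Continuous.continuousOn
    fun_prop
  have h3 := h1.sub h2
  refine h3.congr ?_
  intro r _
  simp only [kT]
  ring

theorem P15_shift (g : ℝ → ℝ) (hg : ∀ a b, IntervalIntegrable g volume a b)
    (hp : ∀ r, 0 < r → r < 2 * Real.pi → g (r - 2 * Real.pi) = g r) {x : ℝ} (h0 : 0 ≤ x)
    (h1 : x ≤ 2 * Real.pi) :
    ∫ r in (x - 2 * Real.pi)..x, g r = ∫ r in (0 : ℝ)..(2 * Real.pi), g r := by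
  have h2 : ∫ r in x..(2 * Real.pi), g (r - 2 * Real.pi)
      = ∫ r in (x - 2 * Real.pi)..0, g r := by
    rw [intervalIntegral.integral_comp_sub_right, sub_self]
  have h3 : ∫ r in x..(2 * Real.pi), g (r - 2 * Real.pi) = ∫ r in x..(2 * Real.pi), g r := by
    apply intervalIntegral.integral_congr_ae
    have h4 : ∀ᵐ r : ℝ, r ≠ 2 * Real.pi := by
      rw [ae_iff]
      have h5 : {a : ℝ | ¬ a ≠ 2 * Real.pi} = {2 * Real.pi} := by
        ext a
        simp
      rw [h5]
      exact Real.volume_singleton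
    filter_upwards [h4] with r hr hr2
    rw [uIoc_of_le h1, mem_Ioc] at hr2
    exact hp r (by linarith) (lt_of_le_of_ne hr2.2 hr)
  rw [← intervalIntegral.integral_add_adjacent_intervals (hg (x - 2 * Real.pi) 0) (hg 0 x),
    ← h2, h3, add_comm, intervalIntegral.integral_add_adjacent_intervals (hg 0 x)
      (hg x (2 * Real.pi))]

theorem P15_ir {N : ℕ} (f : (Fin N → ℝ) → ℝ) (hf : Continuous f) :
    Integrable f (cube (Fin N)) := by
  have h2 := int_bdd (fun θ : Fin N → ℝ => ((f θ : ℝ) : ℂ)) (Complex.continuous_ofReal.comp hf)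
  have h3 := h2.re
  exact h3

theorem P15_sq {N : ℕ} (a : Fin N → ℝ) :
    (∑ i, a i) ^ 2 = ∑ i, a i ^ 2 + ∑ i, ∑ j ∈ Finset.univ.erase i, a i * a j := by
  rw [sq, Finset.sum_mul_sum, ← Finset.sum_add_distrib]
  apply Finset.sum_congr rfl
  intro i _
  rw [← Finset.add_sum_erase Finset.univ (fun j => a i * a j) (Finset.mem_univ i), sq]

theorem P15_norm {n : ℕ} (k : ℤ) (θ : Fin (n * 2) → ℝ) :
    ‖ps k θ‖ ^ 2 = 2 * n
      + ∑ i, ∑ j ∈ Finset.univ.erase i, Real.cos (k * θ i) * Real.cos (k * θ j)
      + ∑ i, ∑ j ∈ Finset.univ.erase i, Real.sin (k * θ i) * Real.sin (k * θ j) := by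
  have hre : (ps k θ).re = ∑ i, Real.cos (k * θ i) := by
    unfold ps
    rw [Complex.re_sum]
    apply Finset.sum_congr rfl
    intro i _
    rw [Complex.exp_ofReal_mul_I_re]
  have him : (ps k θ).im = ∑ i, Real.sin (k * θ i) := by
    unfold ps
    rw [Complex.im_sum]
    apply Finset.sum_congr rfl
    intro i _
    rw [Complex.exp_ofReal_mul_I_im]
  have h1 : ∑ i : Fin (n * 2), Real.cos (k * θ i) ^ 2 + ∑ i, Real.sin (k * θ i) ^ 2
      = 2 * n := by
    rw [← Finset.sum_add_distrib, Finset.sum_congr rfl fun i _ => Real.cos_sq_add_sin_sq (k * θ i)]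
    simp
    ring
  rw [Complex.sq_norm, Complex.normSq_apply, hre, him, ← sq, ← sq, P15_sq, P15_sq, ← h1]
  ring

theorem cos_w {n : ℕ} (k : ℤ) :
    ∫ θ : Fin (n * 2) → ℝ, wt θ * ‖ps k θ‖ ^ 2 ∂(cube (Fin (n * 2)))
      = (∫ θ, wt θ ∂(cube (Fin (n * 2)))) * (2 * n + 2 * Real.pi *
        ∫ r in (-Real.pi)..Real.pi, Real.cos (k * r) * (kS n 0 ^ 2 - kT n r)) := by
  have hc := pair_w (n := n) (fun x => Real.cos (k * x)) (by fun_prop)
  have hs := pair_w (n := n) (fun x => Real.sin (k * x)) (by fun_prop)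
  have hwt : Continuous (wt : (Fin (n * 2) → ℝ) → ℝ) := wt_cont
  have hl : ∫ θ : Fin (n * 2) → ℝ, wt θ * ‖ps k θ‖ ^ 2 ∂(cube (Fin (n * 2)))
      = (∫ θ, wt θ ∂(cube (Fin (n * 2)))) * (2 * n)
        + ∫ θ : Fin (n * 2) → ℝ, (∑ i, ∑ j ∈ Finset.univ.erase i,
          Real.cos (k * θ i) * Real.cos (k * θ j)) * wt θ ∂(cube (Fin (n * 2)))
        + ∫ θ : Fin (n * 2) → ℝ, (∑ i, ∑ j ∈ Finset.univ.erase i,
          Real.sin (k * θ i) * Real.sin (k * θ j)) * wt θ ∂(cube (Fin (n * 2))) := by
    rw [← integral_mul_const, ← integral_add, ← integral_add]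
    · apply integral_congr_ae
      filter_upwards with θ
      rw [P15_norm]
      ring
    · apply P15_ir
      fun_prop
    · apply P15_ir
      fun_prop
    · apply P15_ir
      fun_prop
    · apply P15_ir
      fun_prop
  set A : ℝ := ∫ r in (0 : ℝ)..(2 * Real.pi), Real.cos (k * r) * (kS n 0 ^ 2 - kT n r) with hA
  set B : ℝ := ∫ r in (0 : ℝ)..(2 * Real.pi), Real.sin (k * r) * (kS n 0 ^ 2 - kT n r) with hB
  have hcper : ∀ r, Real.cos (k * (r - 2 * Real.pi)) = Real.cos (k * r) := by
    intro r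
    rw [mul_sub, Real.cos_sub_int_mul_two_pi]
  have hsper : ∀ r, Real.sin (k * (r - 2 * Real.pi)) = Real.sin (k * r) := by
    intro r
    rw [mul_sub, Real.sin_sub_int_mul_two_pi]
  have hAx : ∀ x, 0 ≤ x → x ≤ 2 * Real.pi →
      ∫ r in (x - 2 * Real.pi)..x, Real.cos (k * r) * (kS n 0 ^ 2 - kT n r) = A := by
    intro x h0 h1
    refine P15_shift _ (P15_int _ (by fun_prop)) ?_ h0 h1
    intro r h2 h3
    rw [hcper, kT_per r h2 h3]
  have hBx : ∀ x, 0 ≤ x → x ≤ 2 * Real.pi →
      ∫ r in (x - 2 * Real.pi)..x, Real.sin (k * r) * (kS n 0 ^ 2 - kT n r) = B := by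
    intro x h0 h1
    refine P15_shift _ (P15_int _ (by fun_prop)) ?_ h0 h1
    intro r h2 h3
    rw [hsper, kT_per r h2 h3]
  have hpi := Real.pi_pos
  have hApi : ∫ r in (-Real.pi)..Real.pi, Real.cos (k * r) * (kS n 0 ^ 2 - kT n r) = A := by
    have := hAx Real.pi hpi.le (by linarith)
    rw [show Real.pi - 2 * Real.pi = -Real.pi by ring] at this
    exact this
  have hFc : ∫ x in (0 : ℝ)..(2 * Real.pi), ∫ y in (0 : ℝ)..(2 * Real.pi),
      Real.cos (k * x) * Real.cos (k * y) * (kS n 0 ^ 2 - kT n (x - y))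
      = ∫ x in (0 : ℝ)..(2 * Real.pi),
        Real.cos (k * x) * (Real.cos (k * x) * A + Real.sin (k * x) * B) := by
    apply intervalIntegral.integral_congr
    intro x hx
    rw [uIcc_of_le (by linarith), mem_Icc] at hx
    have h1 : ∫ y in (0 : ℝ)..(2 * Real.pi),
        Real.cos (k * x) * Real.cos (k * y) * (kS n 0 ^ 2 - kT n (x - y))
        = ∫ r in (x - 2 * Real.pi)..x, Real.cos (k * x) * Real.cos (k * (x - r))
          * (kS n 0 ^ 2 - kT n r) := by
      have h2 := intervalIntegral.integral_comp_sub_left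
        (fun r => Real.cos (k * x) * Real.cos (k * (x - r)) * (kS n 0 ^ 2 - kT n r)) x
        (a := 0) (b := 2 * Real.pi)
      rw [sub_zero] at h2
      rw [← h2]
      apply intervalIntegral.integral_congr
      intro y _
      simp only [sub_sub_cancel]
    have h3 : ∫ r in (x - 2 * Real.pi)..x, Real.cos (k * x) * Real.cos (k * (x - r))
          * (kS n 0 ^ 2 - kT n r)
        = Real.cos (k * x) * (Real.cos (k * x) * A + Real.sin (k * x) * B) := by
      rw [← hAx x hx.1 hx.2, ← hBx x hx.1 hx.2, ← intervalIntegral.integral_const_mul,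
        ← intervalIntegral.integral_const_mul, ← intervalIntegral.integral_add,
        ← intervalIntegral.integral_const_mul]
      · apply intervalIntegral.integral_congr
        intro r _
        simp only [mul_sub, Real.cos_sub]
        ring
      · exact (P15_int _ (by fun_prop) _ _).const_mul _
      · exact (P15_int _ (by fun_prop) _ _).const_mul _
    simp only
    rw [h1, h3]
  have hFs : ∫ x in (0 : ℝ)..(2 * Real.pi), ∫ y in (0 : ℝ)..(2 * Real.pi),
      Real.sin (k * x) * Real.sin (k * y) * (kS n 0 ^ 2 - kT n (x - y))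
      = ∫ x in (0 : ℝ)..(2 * Real.pi),
        Real.sin (k * x) * (Real.sin (k * x) * A - Real.cos (k * x) * B) := by
    apply intervalIntegral.integral_congr
    intro x hx
    rw [uIcc_of_le (by linarith), mem_Icc] at hx
    have h1 : ∫ y in (0 : ℝ)..(2 * Real.pi),
        Real.sin (k * x) * Real.sin (k * y) * (kS n 0 ^ 2 - kT n (x - y))
        = ∫ r in (x - 2 * Real.pi)..x, Real.sin (k * x) * Real.sin (k * (x - r))
          * (kS n 0 ^ 2 - kT n r) := by
      have h2 := intervalIntegral.integral_comp_sub_left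
        (fun r => Real.sin (k * x) * Real.sin (k * (x - r)) * (kS n 0 ^ 2 - kT n r)) x
        (a := 0) (b := 2 * Real.pi)
      rw [sub_zero] at h2
      rw [← h2]
      apply intervalIntegral.integral_congr
      intro y _
      simp only [sub_sub_cancel]
    have h3 : ∫ r in (x - 2 * Real.pi)..x, Real.sin (k * x) * Real.sin (k * (x - r))
          * (kS n 0 ^ 2 - kT n r)
        = Real.sin (k * x) * (Real.sin (k * x) * A - Real.cos (k * x) * B) := by
      rw [← hAx x hx.1 hx.2, ← hBx x hx.1 hx.2, ← intervalIntegral.integral_const_mul,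
        ← intervalIntegral.integral_const_mul, ← intervalIntegral.integral_sub,
        ← intervalIntegral.integral_const_mul]
      · apply intervalIntegral.integral_congr
        intro r _
        simp only [mul_sub, Real.sin_sub]
        ring
      · exact (P15_int _ (by fun_prop) _ _).const_mul _
      · exact (P15_int _ (by fun_prop) _ _).const_mul _
    simp only
    rw [h1, h3]
  have hsum : (∫ x in (0 : ℝ)..(2 * Real.pi),
        Real.cos (k * x) * (Real.cos (k * x) * A + Real.sin (k * x) * B))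
      + ∫ x in (0 : ℝ)..(2 * Real.pi),
        Real.sin (k * x) * (Real.sin (k * x) * A - Real.cos (k * x) * B) = 2 * Real.pi * A := by
    rw [← intervalIntegral.integral_add]
    · have h1 : ∫ x in (0 : ℝ)..(2 * Real.pi),
          (Real.cos (k * x) * (Real.cos (k * x) * A + Real.sin (k * x) * B)
          + Real.sin (k * x) * (Real.sin (k * x) * A - Real.cos (k * x) * B))
          = ∫ x in (0 : ℝ)..(2 * Real.pi), A := by
        apply intervalIntegral.integral_congr
        intro x _
        have := Real.cos_sq_add_sin_sq (k * x)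
        simp only
        linear_combination A * this
      rw [h1, intervalIntegral.integral_const, smul_eq_mul, sub_zero]
    · apply Continuous.intervalIntegrable
      fun_prop
    · apply Continuous.intervalIntegrable
      fun_prop
  rw [hl, hApi, hc, hs, hFc, hFs, ← hsum]
  ring

end COE
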