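import Pool.Agent.LibCOE.Defs
import Pool.Agent.LibCOE.CO_B8
import Pool.Agent.LibCOE.CO_P15
import Pool.Agent.LibCOE.CO_W2

/-! Row R1. Proof sketch:
Divide by ∫ wt > 0. -/

open MeasureTheory Set Filter Topology

namespace COE

open QGr


theorem coe_cos {n : ℕ} (hn : 0 < n) (k : ℤ) :
    ∫ A, ‖tW A k‖ ^ 2 ∂(haarU (n * 2)) = 2 * n + 2 * Real.pi *
        ∫ r in (-Real.pi)..Real.pi, Real.cos (k * r) * (kS n 0 ^ 2 - kT n r) := by
  have _ := hn
  have h1 := weyl2 (N := n * 2) k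
  have h2 := cos_w (n := n) k
  have h3 := wt_int_pos (n * 2)
  rw [h2, mul_comm] at h1
  exact mul_left_cancel₀ h3.ne' h1

end COE
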