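import Pool.Agent.LibCOE.Defs
import Pool.Agent.LibCOE.CO_B8
import Pool.Agent.LibQGr.R_DEX
import Pool.Agent.LibQGr.R_ENU
import Pool.Agent.LibQGr.R_PHS

/-! Row R2. Proof sketch:
det W = e^{iS} (|det| = 1), dia_exists: F with Dia W F; φ a = F a. W^k = V diag (e^{ik F a}) V^* gives the traces.
dia_phases: y p = -(N/2π) F(-p) is IsPhases; phases_unique/phases_spec: phases W.1 = y shifted by an integer s; the sum pcorr N 0 is
invariant under the shift (shift the base index by periodicity y(p+N) = y p + N; see loc_shift in Pool/Agent/LibQGr/R_ENU.lean, or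
use pcorr_loc + loc_phases with Far for M large). Then pcorr N 0 f' y = (1/N) ∑_{j0 ∈ [0,N)} ∑_{j1 ≠ j0} f (y j1 - y j0), y j1 - y j0 =
(N/2π)(F(-j0) - F(-j1)); write -j0 = a + N q, -j1 = b + N n, sum over n: pz; the term j1 = j0 is f 0. All finsums have finite
support since f vanishes outside [-B, B]. -/

open MeasureTheory Set Filter Topology


namespace COE

open QGr


theorem R2_per {N : ℕ} (y : ℤ → ℝ) (c : ℝ) (hy : ∀ p, y (p + N) = y p + c) (p k : ℤ) :
    y (p + k * N) = y p + k * c := by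
  induction k using Int.induction_on with
  | zero => simp
  | succ i ih =>
    have h2 : p + ((i : ℤ) + 1) * N = (p + (i : ℤ) * N) + N := by ring
    rw [h2, hy, ih]
    push_cast
    ring
  | pred i ih =>
    have h1 := hy (p + (-(i : ℤ) - 1) * N)
    have h2 : p + (-(i : ℤ) - 1) * N + N = p + -(i : ℤ) * N := by ring
    rw [h2, ih] at h1
    push_cast at h1 ⊢
    linarith

theorem R2_shift1 {N : ℕ} (g : ℤ → ℝ) (hg : ∀ p, g (p + N) = g p) (s : ℤ) :
    ∑ a ∈ Finset.range N, g ((a : ℤ) + (s + 1)) = ∑ a ∈ Finset.range N, g ((a : ℤ) + s) := by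
  have h1 := Finset.sum_range_succ (fun a : ℕ => g ((a : ℤ) + s)) N
  have h2 := Finset.sum_range_succ' (fun a : ℕ => g ((a : ℤ) + s)) N
  have h3 : g ((N : ℤ) + s) = g ((0 : ℕ) + s) := by
    rw [add_comm, hg]
    simp
  have h4 : ∑ a ∈ Finset.range N, g ((a : ℤ) + (s + 1)) =
      ∑ a ∈ Finset.range N, g (((a + 1 : ℕ) : ℤ) + s) := by
    apply Finset.sum_congr rfl
    intro a _
    congr 1
    push_cast
    ring
  rw [h4]
  linarith

theorem R2_shift {N : ℕ} (g : ℤ → ℝ) (hg : ∀ p, g (p + N) = g p) (s : ℤ) :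
    ∑ a ∈ Finset.range N, g ((a : ℤ) + s) = ∑ a ∈ Finset.range N, g (a : ℤ) := by
  induction s using Int.induction_on with
  | zero => simp
  | succ i ih => rw [R2_shift1 g hg, ih]
  | pred i ih =>
    have h1 := R2_shift1 g hg (-(i : ℤ) - 1)
    have h2 : -(i : ℤ) - 1 + 1 = -(i : ℤ) := by ring
    rw [h2] at h1
    rw [← h1, ih]

theorem R2_refl {N : ℕ} (g : ℤ → ℝ) (hg : ∀ p, g (p + N) = g p) :
    ∑ a ∈ Finset.range N, g (-(a : ℤ)) = ∑ a ∈ Finset.range N, g (a : ℤ) := by
  rw [← Finset.sum_range_reflect (fun a : ℕ => g (-(a : ℤ))) N, ← R2_shift g hg (1 - N)]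
  apply Finset.sum_congr rfl
  intro a ha
  rw [Finset.mem_range] at ha
  congr 1
  omega

theorem R2_bd {N : ℕ} (hN : 0 < N) (y : ℤ → ℝ) (hm : Monotone y)
    (hy : ∀ p, y (p + N) = y p + N) (f : ℝ → ℝ) (B : ℝ) (hf : ∀ x, B < |x| → f x = 0) :
    ∃ K : ℤ, ∀ p j : ℤ, f (y j - y p) ≠ 0 → p - K ≤ j ∧ j ≤ p + K := by
  have hNr : (0 : ℝ) < N := by exact_mod_cast hN
  obtain ⟨k, hk⟩ := exists_int_gt (B / N)
  rw [div_lt_iff₀ hNr] at hk
  refine ⟨k * N, fun p j hj => ?_⟩
  have h1 : |y j - y p| ≤ B := by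
    by_contra hlt
    push Not at hlt
    exact hj (hf _ hlt)
  rw [abs_le] at h1
  constructor
  · by_contra hlt
    push Not at hlt
    have h2 := hm hlt.le
    have h3 := R2_per y N hy p (-k)
    have h4 : p + -k * (N : ℤ) = p - k * N := by ring
    rw [h4] at h3
    rw [h3] at h2
    push_cast at h2
    linarith
  · by_contra hlt
    push Not at hlt
    have h2 := hm hlt.le
    rw [R2_per y N hy p k] at h2
    linarith

theorem R2_fs {N : ℕ} (hN : 0 < N) (y : ℤ → ℝ) (hm : Monotone y)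
    (hy : ∀ p, y (p + N) = y p + N) (f : ℝ → ℝ) (B : ℝ) (hf : ∀ x, B < |x| → f x = 0) (p : ℤ) :
    (Function.support fun j : ℤ => f (y j - y p)).Finite := by
  obtain ⟨K, hK⟩ := R2_bd hN y hm hy f B hf
  exact (Set.finite_Icc (p - K) (p + K)).subset fun j hj => hK p j hj

theorem R2_corr {N : ℕ} (hN : 0 < N) (y : ℤ → ℝ) (hm : Monotone y)
    (hy : ∀ p, y (p + N) = y p + N) (f : ℝ → ℝ) (B : ℝ) (hf : ∀ x, B < |x| → f x = 0) :
    pcorr N 0 (fun v => f (v 0)) y
      = (1 / N) * ∑ a ∈ Finset.range N, (∑ᶠ b : ℤ, f (y b - y a)) - f 0 := by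
  have hNr : (0 : ℝ) < N := by exact_mod_cast hN
  obtain ⟨K, hK⟩ := R2_bd hN y hm hy f B hf
  have h1 : ∀ a : ℤ, ∑ᶠ b : ℤ, (if b ≠ a then f (y b - y a) else 0)
      = (∑ᶠ b : ℤ, f (y b - y a)) - f 0 := by
    intro a
    have h2 : ∀ b : ℤ, f (y b - y a) = (if b ≠ a then f (y b - y a) else 0)
        + (if b = a then f 0 else 0) := by
      intro b
      by_cases hb : b = a
      · subst hb
        simp
      · simp [hb]
    have h3 : (Function.support fun b : ℤ => if b ≠ a then f (y b - y a) else 0).Finite := by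
      apply (R2_fs hN y hm hy f B hf a).subset
      intro b hb
      simp only [Function.mem_support] at hb ⊢
      intro h0
      apply hb
      rw [h0]
      simp
    have h4 : (Function.support fun b : ℤ => if b = a then f 0 else 0).Finite := by
      apply (Set.finite_singleton a).subset
      intro b hb
      simp only [Function.mem_support] at hb
      by_contra hne
      apply hb
      rw [if_neg (show ¬ b = a from hne)]
    have h5 : ∑ᶠ b : ℤ, f (y b - y a) = ∑ᶠ b : ℤ, ((if b ≠ a then f (y b - y a) else 0)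
        + (if b = a then f 0 else 0)) := finsum_congr h2
    rw [h5, finsum_add_distrib h3 h4]
    have h6 : ∑ᶠ b : ℤ, (if b = a then f 0 else 0) = f 0 := by
      rw [finsum_eq_single _ a]
      · simp
      · intro b hb
        rw [if_neg hb]
    rw [h6]
    ring
  have h7 : ∑ᶠ j : {j : Fin (0 + 2) → ℤ // Function.Injective j ∧ 0 ≤ j 0 ∧ j 0 < N},
      (fun v : Fin (0 + 1) → ℝ => f (v 0)) (fun i => y (j.1 i.succ) - y (j.1 0))
      = ∑ᶠ ab : ℤ × ℤ, (if 0 ≤ ab.1 ∧ ab.1 < N then
          (if ab.2 ≠ ab.1 then f (y ab.2 - y ab.1) else 0) else 0) := by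
    have h8 := finsum_set_coe_eq_finsum_mem
      {j : Fin (0 + 2) → ℤ | Function.Injective j ∧ 0 ≤ j 0 ∧ j 0 < N}
      (f := fun j : Fin (0 + 2) → ℤ => f (y (j 1) - y (j 0)))
    refine Eq.trans h8 ?_
    rw [finsum_mem_def, ← finsum_comp_equiv (finTwoArrowEquiv ℤ)]
    apply finsum_congr
    intro j
    rw [Set.indicator_apply]
    have h9 : Function.Injective j ↔ j 1 ≠ j 0 := by
      constructor
      · intro h h0
        exact absurd (h h0) (by decide)
      · intro h a b hab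
        fin_cases a <;> fin_cases b
        · rfl
        · exact absurd hab.symm h
        · exact absurd hab h
        · rfl
    have h10 : (finTwoArrowEquiv ℤ) j = (j 0, j 1) := rfl
    rw [h10]
    simp only [Set.mem_ofPred_eq, h9]
    by_cases c1 : j 1 ≠ j 0
    · by_cases c2 : 0 ≤ j 0 ∧ j 0 < N
      · rw [if_pos ⟨c1, c2⟩, if_pos c2, if_pos c1]
      · rw [if_neg (fun h => c2 h.2), if_neg c2]
    · rw [if_neg (fun h => c1 h.1), if_neg c1]
      simp
  unfold pcorr
  rw [h7, finsum_curry]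
  · have h11 : ∑ᶠ a : ℤ, ∑ᶠ b : ℤ, (if 0 ≤ (a, b).1 ∧ (a, b).1 < (N : ℤ) then
          (if (a, b).2 ≠ (a, b).1 then f (y (a, b).2 - y (a, b).1) else 0) else 0)
        = ∑ a ∈ Finset.range N, ((∑ᶠ b : ℤ, f (y b - y a)) - f 0) := by
      have h12 : ∀ a : ℤ, ∑ᶠ b : ℤ, (if 0 ≤ (a, b).1 ∧ (a, b).1 < (N : ℤ) then
          (if (a, b).2 ≠ (a, b).1 then f (y (a, b).2 - y (a, b).1) else 0) else 0)
          = if 0 ≤ a ∧ a < (N : ℤ) then (∑ᶠ b : ℤ, f (y b - y a)) - f 0 else 0 := by
        intro a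
        by_cases c : 0 ≤ a ∧ a < (N : ℤ)
        · simp only [c, and_self, if_true]
          rw [← h1 a]
        · simp only [c, if_false]
          exact finsum_zero
      rw [finsum_congr h12]
      have h13 : (Function.support fun a : ℤ => if 0 ≤ a ∧ a < (N : ℤ) then
          (∑ᶠ b : ℤ, f (y b - y a)) - f 0 else 0) ⊆
          ((Finset.range N).map Nat.castEmbedding : Finset ℤ) := by
        intro a ha
        simp only [Function.mem_support] at ha
        have c : 0 ≤ a ∧ a < (N : ℤ) := by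
          by_contra hc
          apply ha
          rw [if_neg hc]
        simp only [Finset.coe_map, Set.mem_image, Finset.coe_range, Set.mem_Iio]
        refine ⟨a.toNat, by omega, ?_⟩
        change ((a.toNat : ℕ) : ℤ) = a
        exact Int.toNat_of_nonneg c.1
      rw [finsum_eq_sum_of_support_subset _ h13, Finset.sum_map]
      apply Finset.sum_congr rfl
      intro a ha
      rw [Finset.mem_range] at ha
      have c : 0 ≤ ((Nat.castEmbedding a : ℤ)) ∧ ((Nat.castEmbedding a : ℤ)) < (N : ℤ) := by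
        change 0 ≤ (a : ℤ) ∧ (a : ℤ) < (N : ℤ)
        omega
      rw [if_pos c]
      rfl
    rw [h11, Finset.sum_sub_distrib, Finset.sum_const, Finset.card_range, nsmul_eq_mul, mul_sub]
    congr 1
    field_simp
  · apply ((Set.finite_Icc (0 : ℤ) N).prod (Set.finite_Icc (0 - K) (N + K))).subset
    rintro ⟨a, b⟩ hab
    simp only [Function.mem_support] at hab
    have c : 0 ≤ a ∧ a < (N : ℤ) := by
      by_contra hc
      apply hab
      rw [if_neg hc]
    rw [if_pos c] at hab
    have c2 : b ≠ a := by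
      intro hc
      apply hab
      simp [hc]
    rw [if_pos c2] at hab
    have h14 := hK a b hab
    simp only [Set.mem_prod, Set.mem_Icc]
    omega

theorem R2_one {N : ℕ} (φ : Fin N → ℝ) (k : ℤ) :
    (Matrix.diagonal fun a => Complex.exp ((k * φ a : ℝ) * Complex.I) : Matrix (Fin N) (Fin N) ℂ)
      ∈ Matrix.unitaryGroup (Fin N) ℂ := by
  rw [Matrix.mem_unitaryGroup_iff, Matrix.star_eq_conjTranspose,
    Matrix.diagonal_conjTranspose, Matrix.diagonal_mul_diagonal]
  ext i j
  by_cases h : i = j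
  · subst h
    rw [Matrix.diagonal_apply_eq, Matrix.one_apply_eq]
    simp only [Pi.star_apply, Complex.star_def]
    rw [Complex.mul_conj, Complex.normSq_eq_norm_sq, Complex.norm_exp_ofReal_mul_I]
    simp
  · rw [Matrix.diagonal_apply_ne _ h, Matrix.one_apply_ne h]

theorem R2_pow {N : ℕ} (φ : Fin N → ℝ) (k : ℤ) :
    (⟨Matrix.diagonal fun a => Complex.exp (((1 : ℤ) * φ a : ℝ) * Complex.I), R2_one φ 1⟩ : Uni N) ^ k
      = ⟨Matrix.diagonal fun a => Complex.exp ((k * φ a : ℝ) * Complex.I), R2_one φ k⟩ := by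
  induction k using Int.induction_on with
  | zero =>
    rw [zpow_zero]
    apply Subtype.ext
    ext i j
    by_cases h : i = j
    · subst h
      simp
    · simp [h]
  | succ i ih =>
    rw [zpow_add_one, ih]
    apply Subtype.ext
    rw [Submonoid.coe_mul, Matrix.diagonal_mul_diagonal]
    congr 1
    funext a
    rw [← Complex.exp_add]
    congr 1
    push_cast
    ring
  | pred i ih =>
    rw [zpow_sub_one, ih, mul_inv_eq_iff_eq_mul]
    apply Subtype.ext
    rw [Submonoid.coe_mul, Matrix.diagonal_mul_diagonal]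
    have e : ∀ a, Complex.exp (((-(i : ℤ) : ℤ) * φ a : ℝ) * Complex.I)
        = Complex.exp (((-(i : ℤ) - 1 : ℤ) * φ a : ℝ) * Complex.I)
          * Complex.exp (((1 : ℤ) * φ a : ℝ) * Complex.I) := by
      intro a
      rw [← Complex.exp_add]
      congr 1
      push_cast
      ring
    exact congrArg Matrix.diagonal (funext e)

theorem R2_trace {N : ℕ} (W V : Uni N) (φ : Fin N → ℝ)
    (h : W.1 = V.1 * (Matrix.diagonal fun a => Complex.exp (φ a * Complex.I)) * V.1.conjTranspose)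
    (k : ℤ) : Matrix.trace ((W ^ k : Uni N).1) = ps k φ := by
  have h1 : W = V * ⟨Matrix.diagonal fun a => Complex.exp (((1 : ℤ) * φ a : ℝ) * Complex.I),
      R2_one φ 1⟩ * V⁻¹ := by
    apply Subtype.ext
    rw [h]
    simp only [Int.cast_one, one_mul]
    rfl
  rw [h1, conj_zpow, R2_pow]
  have h2 : ∀ X : Uni N, Matrix.trace ((V * X * V⁻¹ : Uni N).1) = Matrix.trace X.1 := by
    intro X
    have h3 : ((V * X * V⁻¹ : Uni N).1 : Matrix (Fin N) (Fin N) ℂ) = (V * X : Uni N).1 * (V⁻¹ : Uni N).1 :=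
      rfl
    rw [h3, Matrix.trace_mul_comm]
    have h4 : (V⁻¹ : Uni N).1 * (V * X : Uni N).1 = (V⁻¹ * (V * X) : Uni N).1 := rfl
    rw [h4, inv_mul_cancel_left]
  rw [h2, Matrix.trace_diagonal]
  rfl

theorem R2_pz {N : ℕ} (hN : 0 < N) (F : ℤ → ℝ) (hm : Monotone F)
    (hF : ∀ p, F (p + N) = F p + 2 * Real.pi)
    (f : ℝ → ℝ) (B : ℝ) (hf : ∀ x, B < |x| → f x = 0) (a : ℤ) :
    ∑ᶠ b : ℤ, f (N / (2 * Real.pi) * (F a - F b))
      = ∑ b : Fin N, pz N f (N / (2 * Real.pi) * (F a - F (b : ℕ))) := by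
  have hNr : (0 : ℝ) < N := by exact_mod_cast hN
  have hpi : (0 : ℝ) < 2 * Real.pi := by positivity
  have : NeZero N := ⟨hN.ne'⟩
  have hfin : (Function.support fun b : ℤ => f (N / (2 * Real.pi) * (F a - F b))).Finite := by
    have h1 : Monotone fun p : ℤ => N / (2 * Real.pi) * F p := fun p q h =>
      mul_le_mul_of_nonneg_left (hm h) (by positivity)
    have h2 : ∀ p : ℤ, (fun p : ℤ => N / (2 * Real.pi) * F p) (p + N)
        = (fun p : ℤ => N / (2 * Real.pi) * F p) p + N := by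
      intro p
      simp only
      rw [hF]
      field_simp
    have h3 := R2_fs hN _ h1 h2 (fun x => f (-x)) B (fun x hx => hf _ (by rwa [abs_neg])) a
    apply h3.subset
    intro b hb
    simp only [Function.mem_support] at hb ⊢
    intro h0
    apply hb
    rw [← h0]
    congr 1
    ring
  let e : Fin N × ℤ ≃ ℤ := (Equiv.prodComm _ _).trans (Int.divModEquiv N).symm
  have he : ∀ x : Fin N × ℤ, e x = ((x.1 : ℕ) : ℤ) + x.2 * N := by
    intro x
    change x.2 * (N : ℤ) + ((x.1 : ℕ) : ℤ) = _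
    ring
  rw [← finsum_comp_equiv e, finsum_curry, finsum_eq_sum_of_fintype]
  · apply Finset.sum_congr rfl
    intro b _
    unfold pz
    rw [← finsum_comp_equiv (Equiv.neg ℤ)]
    apply finsum_congr
    intro n
    rw [he]
    simp only
    rw [R2_per F (2 * Real.pi) hF]
    congr 1
    have h5 : (Equiv.neg ℤ) n = -n := rfl
    rw [h5]
    push_cast
    field_simp
    ring
  · exact hfin.preimage e.injective.injOn

theorem link {N : ℕ} (hN : 0 < N) (W : Uni N) : ∃ φ : Fin N → ℝ,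
    (∀ k : ℤ, Matrix.trace ((W ^ k : Uni N).1) = ps k φ) ∧
    ∀ (f : ℝ → ℝ) (B : ℝ), (∀ x, B < |x| → f x = 0) →
      pcorr N 0 (fun v => f (v 0)) (phases W.1)
        = (1 / N) * ∑ a, ∑ b, pz N f (N / (2 * Real.pi) * (φ a - φ b)) - f 0 := by
  have hNr : (0 : ℝ) < N := by exact_mod_cast hN
  have hdet : W.1.det = Complex.exp ((Complex.arg W.1.det : ℝ) * Complex.I) := by
    have h1 := Matrix.det_of_mem_unitary W.2
    have h2 : ‖W.1.det‖ = 1 := by
      rw [Unitary.mem_iff] at h1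
      have h3 : ‖W.1.det‖ * ‖W.1.det‖ = 1 := by
        have h4 := congrArg (fun z : ℂ => ‖z‖) h1.2
        simpa using h4
      nlinarith [norm_nonneg W.1.det]
    have h5 := Complex.norm_mul_exp_arg_mul_I W.1.det
    rw [h2] at h5
    simpa using h5.symm
  obtain ⟨F, hF, -⟩ := dia_exists hN W _ hdet
  obtain ⟨V, hV⟩ := hF.dia
  refine ⟨fun a => F (a : ℕ), R2_trace W V _ hV, ?_⟩
  intro f B hf
  obtain ⟨s, hs⟩ := phases_unique hN W.1 _ _ (dia_phases hN W F hF) (phases_spec hN W)
  have hP := phases_spec hN W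
  have hY := dia_phases hN W F hF
  rw [R2_corr hN (phases W.1) hP.mono hP.per f B hf]
  congr 2
  let y : ℤ → ℝ := fun p => -(N / (2 * Real.pi)) * F (-p)
  let G : ℤ → ℝ := fun p => ∑ᶠ b : ℤ, f (y b - y p)
  have hG : ∀ p, G (p + N) = G p := by
    intro p
    change ∑ᶠ b : ℤ, f (y b - y (p + N)) = ∑ᶠ b : ℤ, f (y b - y p)
    rw [← finsum_comp_equiv (Equiv.addRight (N : ℤ))]
    apply finsum_congr
    intro b
    change f (y (b + N) - y (p + N)) = _
    have e1 : y (b + N) = y b + N := hY.per b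
    have e2 : y (p + N) = y p + N := hY.per p
    rw [e1, e2]
    congr 1
    ring
  have h1 : ∀ a : ℤ, ∑ᶠ b : ℤ, f (phases W.1 b - phases W.1 a) = G (a + s) := by
    intro a
    refine Eq.trans ?_ (finsum_comp_equiv (f := fun b : ℤ => f (y b - y (a + s)))
      (Equiv.addRight s))
    apply finsum_congr
    intro b
    rw [hs b, hs a]
    rfl
  rw [Finset.sum_congr rfl fun (a : ℕ) _ => h1 (a : ℤ), R2_shift G hG s, ← R2_refl G hG,
    Finset.sum_range]
  apply Finset.sum_congr rfl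
  intro a _
  rw [← R2_pz hN F hF.mono hF.per f B hf]
  change ∑ᶠ b : ℤ, f (y b - y (-((a : ℕ) : ℤ))) = _
  rw [← finsum_comp_equiv (Equiv.neg ℤ)]
  apply finsum_congr
  intro b
  change f (-(N / (2 * Real.pi)) * F (- -b) - -(N / (2 * Real.pi)) * F (- -((a : ℕ) : ℤ))) = _
  rw [neg_neg, neg_neg]
  congr 1
  ring

end COE
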