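import Pool.Agent.LibCOE.Defs

/-! Row R3. Proof sketch:
pz_cont: locally only finitely many n matter (|x + nN| <= B), so pz is locally a finite sum of continuous functions; shift n
for the period. trig_approx: Stone-Weierstrass on the circle: `span_fourier_closure_eq_top` for AddCircle (2π) (F as a continuous
function on the circle), take real parts and the even part (F x + F(-x)) to get cosines only; or the algebra generated by cos on
[-1,1]: an even periodic continuous function is a continuous function of cos x (G (cos x), G = F ∘ arccos + ..), Weierstrass on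
[-1,1], and powers of cos x are combinations of cos kx (Chebyshev `Polynomial.Chebyshev.T_real_cos`). -/

open MeasureTheory Set Filter Topology

namespace COE

open QGr

theorem pz_cont {N : ℕ} (hN : 0 < N) (f : ℝ → ℝ) (hf : Continuous f) (B : ℝ)
    (hB : ∀ x, B < |x| → f x = 0) : Continuous (pz N f) ∧ ∀ x, pz N f (x + N) = pz N f x := by
  have hN0 : (0 : ℝ) < N := by exact_mod_cast hN
  refine ⟨?_, ?_⟩
  · unfold pz
    refine continuous_finsum (fun n => by fun_prop) ?_
    intro x
    refine ⟨Metric.ball x 1, Metric.ball_mem_nhds x one_pos, ?_⟩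
    refine (Set.finite_Icc (-⌈(B + |x| + 1) / N⌉) ⌈(B + |x| + 1) / N⌉).subset ?_
    rintro n ⟨y, hy1, hy2⟩
    have h1 : |y + n * N| ≤ B := by
      by_contra h
      exact hy1 (hB _ (not_le.1 h))
    have h2 : |y - x| < 1 := by simpa [Real.dist_eq] using hy2
    have h3 : |(n : ℝ)| * N ≤ B + |x| + 1 := by
      have h4 : |(n : ℝ) * N| = |(n : ℝ)| * N := by rw [abs_mul, abs_of_pos hN0]
      rw [← h4]
      have h5 : (n : ℝ) * N = (y + n * N) - (y - x) - x := by ring
      rw [h5]
      have h6 := abs_sub (y + n * N - (y - x)) x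
      have h7 := abs_sub (y + n * N) (y - x)
      linarith
    have h4 : |(n : ℝ)| ≤ (B + |x| + 1) / N := by rwa [le_div_iff₀ hN0]
    have h5 := Int.le_ceil ((B + |x| + 1) / N)
    have h6 : |(n : ℝ)| ≤ (⌈(B + |x| + 1) / N⌉ : ℝ) := h4.trans h5
    rw [abs_le] at h6
    constructor
    · exact_mod_cast h6.1
    · exact_mod_cast h6.2
  · intro x
    unfold pz
    rw [← finsum_comp_equiv (Equiv.addRight (1 : ℤ)) (f := fun n : ℤ => f (x + n * N))]
    refine finsum_congr fun n => ?_
    congr 1
    simp only [Equiv.coe_addRight]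
    push_cast
    ring

private lemma R3_cos_mem (p : Polynomial ℝ) : (fun x : ℝ => p.eval (Real.cos x)) ∈
    Submodule.span ℝ (Set.range fun k : ℕ => fun x : ℝ => Real.cos (k * x)) := by
  have hmul : ∀ g : ℝ → ℝ,
      g ∈ Submodule.span ℝ (Set.range fun k : ℕ => fun x : ℝ => Real.cos (k * x)) →
      (fun x : ℝ => Real.cos x * g x) ∈
        Submodule.span ℝ (Set.range fun k : ℕ => fun x : ℝ => Real.cos (k * x)) := by
    intro g hg
    induction hg using Submodule.span_induction with
    | mem g hg =>
      obtain ⟨k, rfl⟩ := hg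
      rcases Nat.eq_zero_or_pos k with h | h
      · subst h
        refine Submodule.subset_span ⟨1, ?_⟩
        funext x
        simp
      · have h1 : (fun x : ℝ => Real.cos x * Real.cos (k * x)) =
            (1 / 2 : ℝ) • (fun x : ℝ => Real.cos (((k + 1 : ℕ) : ℝ) * x)) +
              (1 / 2 : ℝ) • (fun x : ℝ => Real.cos (((k - 1 : ℕ) : ℝ) * x)) := by
          funext x
          simp only [Pi.add_apply, Pi.smul_apply, smul_eq_mul]
          rw [Nat.cast_sub h]
          push_cast
          rw [add_mul, sub_mul, one_mul, Real.cos_add, Real.cos_sub]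
          ring
        simp only
        rw [h1]
        exact Submodule.add_mem _ (Submodule.smul_mem _ _ (Submodule.subset_span ⟨k + 1, rfl⟩))
          (Submodule.smul_mem _ _ (Submodule.subset_span ⟨k - 1, rfl⟩))
    | zero =>
      have : (fun x : ℝ => Real.cos x * (0 : ℝ → ℝ) x) = 0 := by funext x; simp
      rw [this]
      exact Submodule.zero_mem _
    | add g1 g2 _ _ h1 h2 =>
      have : (fun x : ℝ => Real.cos x * (g1 + g2) x) =
          (fun x : ℝ => Real.cos x * g1 x) + fun x : ℝ => Real.cos x * g2 x := by
        funext x; simp [mul_add]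
      rw [this]
      exact Submodule.add_mem _ h1 h2
    | smul a g _ h1 =>
      have : (fun x : ℝ => Real.cos x * (a • g) x) = a • fun x : ℝ => Real.cos x * g x := by
        funext x; simp only [Pi.smul_apply, smul_eq_mul]; ring
      rw [this]
      exact Submodule.smul_mem _ _ h1
  induction p using Polynomial.induction_on' with
  | add p q hp hq =>
    have : (fun x : ℝ => (p + q).eval (Real.cos x)) =
        (fun x : ℝ => p.eval (Real.cos x)) + fun x : ℝ => q.eval (Real.cos x) := by
      funext x; simp
    rw [this]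
    exact Submodule.add_mem _ hp hq
  | monomial n a =>
    have h0 : ∀ n : ℕ, (fun x : ℝ => Real.cos x ^ n) ∈
        Submodule.span ℝ (Set.range fun k : ℕ => fun x : ℝ => Real.cos (k * x)) := by
      intro n
      induction n with
      | zero =>
        refine Submodule.subset_span ⟨0, ?_⟩
        funext x
        simp
      | succ n ih =>
        have := hmul _ ih
        have h2 : (fun x : ℝ => Real.cos x ^ (n + 1)) =
            fun x : ℝ => Real.cos x * (fun x : ℝ => Real.cos x ^ n) x := by
          funext x; simp only; ring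
        rw [h2]
        exact this
    have : (fun x : ℝ => ((Polynomial.monomial n) a).eval (Real.cos x)) =
        a • fun x : ℝ => Real.cos x ^ n := by
      funext x; simp
    rw [this]
    exact Submodule.smul_mem _ _ (h0 n)

private lemma R3_sum (p : Polynomial ℝ) : ∃ (K : ℕ) (c : ℕ → ℝ), ∀ x : ℝ,
    p.eval (Real.cos x) = ∑ k ∈ Finset.range K, c k * Real.cos (k * x) := by
  obtain ⟨c, hc⟩ := (Finsupp.mem_span_range_iff_exists_finsupp).1 (R3_cos_mem p)
  refine ⟨c.support.sup id + 1, c, fun x => ?_⟩
  have h1 : p.eval (Real.cos x) = (c.sum fun i a => a • fun x : ℝ => Real.cos (i * x)) x := by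
    rw [hc]
  rw [h1, Finsupp.sum, Finset.sum_apply]
  have hsub : c.support ⊆ Finset.range (c.support.sup id + 1) := by
    intro i hi
    rw [Finset.mem_range]
    exact Nat.lt_succ_of_le (Finset.le_sup (f := id) hi)
  rw [Finset.sum_subset hsub (fun i _ hi => by
    have : c i = 0 := by simpa using hi
    simp [this])]
  rfl

theorem trig_approx (F : ℝ → ℝ) (hF : Continuous F) (hp : ∀ x, F (x + 2 * Real.pi) = F x) (δ : ℝ)
    (hδ : 0 < δ) : ∃ (K : ℕ) (c : ℕ → ℝ), ∀ x,
      |F x + F (-x) - ∑ k ∈ Finset.range K, c k * Real.cos (k * x)| ≤ δ := by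
  have hper : Function.Periodic F (2 * Real.pi) := hp
  have hE : ∀ x y : ℝ, Real.cos x = Real.cos y → F x + F (-x) = F y + F (-y) := by
    intro x y hxy
    obtain ⟨k, hk⟩ := Real.cos_eq_cos_iff.1 hxy
    have e1 : ∀ (k : ℤ) (z : ℝ), F (2 * k * Real.pi + z) = F z := by
      intro k z
      have := hper.int_mul k z
      rw [← this]
      congr 1
      ring
    rcases hk with hk | hk
    · rw [hk, e1]
      have : -(2 * (k : ℝ) * Real.pi + x) = 2 * ((-k : ℤ) : ℝ) * Real.pi + -x := by
        push_cast; ring
      rw [this, e1]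
    · rw [hk, sub_eq_add_neg, e1]
      have : -(2 * (k : ℝ) * Real.pi + -x) = 2 * ((-k : ℤ) : ℝ) * Real.pi + x := by
        push_cast; ring
      rw [this, e1, add_comm]
  obtain ⟨p, hp2⟩ := exists_polynomial_near_of_continuousOn (-1) 1
    (fun y => F (Real.arccos y) + F (-Real.arccos y))
    (Continuous.continuousOn (by
      have := Real.continuous_arccos
      fun_prop)) δ hδ
  obtain ⟨K, c, hc⟩ := R3_sum p
  refine ⟨K, c, fun x => ?_⟩
  rw [← hc x]
  have h1 := hp2 (Real.cos x) ⟨Real.neg_one_le_cos x, Real.cos_le_one x⟩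
  rw [hE (Real.arccos (Real.cos x)) x
    (Real.cos_arccos (Real.neg_one_le_cos x) (Real.cos_le_one x))] at h1
  rw [abs_sub_comm]
  exact h1.le

end COE
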