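import Pool.Agent.LibCOE.Defs
import Pool.Agent.LibCOE.CO_B3
import Pool.Agent.LibCOE.CO_R1
import Pool.Agent.LibCOE.CO_R3
import Pool.Agent.LibQGr.R_HRT

/-! Row R4. Proof sketch:
∑_{a,b} F(φ_a - φ_b) = 1/2 ∑_{a,b} (F(x) + F(-x)), x = φ_a - φ_b. For cosines: ∑_{a,b} cos (k(φ_a - φ_b)) = ‖ps k φ‖^2 =
‖tW A k‖^2, coe_cos. For δ > 0 approximate F x + F(-x) by ∑ c_k cos (k x) uniformly: both sides of the identity change by at most
C δ (kT is bounded: finite sums; haarU is a probability). Let δ → 0. (2nF(0): half of (F 0 + F 0); kT even in r so that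
∫ F(r) K(r) = 1/2 ∫ (F(r) + F(-r)) K(r).) -/

open MeasureTheory Set Filter Topology


namespace COE

open QGr


theorem R4_sign_mono : Monotone Real.sign := by
  intro a b hab
  rcases lt_trichotomy b 0 with hb | hb | hb
  · rw [Real.sign_of_neg hb, Real.sign_of_neg (lt_of_le_of_lt hab hb)]
  · rw [hb, Real.sign_zero]
    rcases lt_trichotomy a 0 with ha | ha | ha
    · rw [Real.sign_of_neg ha]
      norm_num
    · rw [ha, Real.sign_zero]
    · exact absurd (lt_of_lt_of_le ha hab) (by rw [hb]; exact lt_irrefl _)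
  · rw [Real.sign_of_pos hb]
    rcases Real.sign_apply_eq a with h | h | h <;> rw [h] <;> norm_num

theorem R4_kS (n : ℕ) : Continuous (kS n) := by
  unfold kS
  refine continuous_const.mul (continuous_finsetSum _ fun k _ => ?_)
  fun_prop

theorem R4_kD (n : ℕ) : Continuous (kD n) := by
  unfold kD
  refine continuous_const.mul (continuous_finsetSum _ fun k _ => ?_)
  fun_prop

theorem R4_kI (n : ℕ) : Continuous (kI n) := by
  unfold kI
  refine continuous_const.mul (continuous_finsetSum _ fun k _ => ?_)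
  fun_prop

theorem R4_H (n : ℕ) (a b : ℝ) :
    IntervalIntegrable (fun r => kS n 0 ^ 2 - kT n r) volume a b := by
  have h1 : IntervalIntegrable (fun r => Real.sign r) volume a b :=
    R4_sign_mono.monotoneOn _ |>.intervalIntegrable
  have h2 : IntervalIntegrable (fun r => Real.sign r / 2 - kI n r) volume a b := by
    refine IntervalIntegrable.sub ?_ ((R4_kI n).intervalIntegrable _ _)
    exact h1.div_const 2
  have h3 : IntervalIntegrable (fun r => kD n r * (Real.sign r / 2 - kI n r)) volume a b :=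
    h2.continuousOn_mul (R4_kD n).continuousOn
  have h4 : IntervalIntegrable (fun r => kS n r ^ 2) volume a b :=
    ((R4_kS n).pow 2).intervalIntegrable _ _
  exact intervalIntegrable_const.sub (h4.add h3)

theorem R4_even (n : ℕ) (r : ℝ) : kT n (-r) = kT n r := by
  have h1 : kS n (-r) = kS n r := by
    unfold kS
    congr 1
    refine Finset.sum_congr rfl fun k _ => ?_
    rw [mul_neg, Real.cos_neg]
  have h2 : kD n (-r) = -kD n r := by
    unfold kD
    rw [← mul_neg, ← Finset.sum_neg_distrib]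
    congr 1
    refine Finset.sum_congr rfl fun k _ => ?_
    rw [mul_neg, Real.sin_neg, mul_neg]
  have h3 : kI n (-r) = -kI n r := by
    unfold kI
    rw [← mul_neg, ← Finset.sum_neg_distrib]
    congr 1
    refine Finset.sum_congr rfl fun k _ => ?_
    rw [mul_neg, Real.sin_neg, mul_neg]
  have h4 : Real.sign (-r) = -Real.sign r := by
    rcases lt_trichotomy r 0 with hr | hr | hr
    · rw [Real.sign_of_neg hr, Real.sign_of_pos (neg_pos.mpr hr)]
      norm_num
    · rw [hr, neg_zero, Real.sign_zero, neg_zero]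
    · rw [Real.sign_of_pos hr, Real.sign_of_neg (neg_lt_zero.mpr hr)]
  unfold kT
  rw [h1, h2, h3, h4]
  ring

theorem R4_sq {N : ℕ} (k : ℤ) (θ : Fin N → ℝ) :
    ∑ a, ∑ b, Real.cos (k * (θ a - θ b)) = ‖ps k θ‖ ^ 2 := by
  have h1 : ps k θ = ((∑ a, Real.cos (k * θ a) : ℝ) : ℂ)
      + ((∑ a, Real.sin (k * θ a) : ℝ) : ℂ) * Complex.I := by
    unfold ps
    push_cast
    rw [Finset.sum_mul, ← Finset.sum_add_distrib]
    refine Finset.sum_congr rfl fun a _ => ?_
    rw [Complex.exp_mul_I]
  rw [h1, ← Complex.normSq_eq_norm_sq, Complex.normSq_add_mul_I, sq, sq, Finset.sum_mul_sum,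
    Finset.sum_mul_sum, ← Finset.sum_add_distrib]
  refine Finset.sum_congr rfl fun a _ => ?_
  rw [← Finset.sum_add_distrib]
  refine Finset.sum_congr rfl fun b _ => ?_
  rw [mul_sub, Real.cos_sub]

theorem R4_sym {N : ℕ} (F : ℝ → ℝ) (θ : Fin N → ℝ) :
    ∑ a, ∑ b, (F (θ a - θ b) + F (-(θ a - θ b))) = 2 * ∑ a, ∑ b, F (θ a - θ b) := by
  have h1 : ∑ a, ∑ b, F (-(θ a - θ b)) = ∑ a, ∑ b, F (θ a - θ b) := by
    rw [Finset.sum_comm]
    refine Finset.sum_congr rfl fun a _ => Finset.sum_congr rfl fun b _ => ?_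
    rw [neg_sub]
  simp only [Finset.sum_add_distrib]
  rw [h1, two_mul]

theorem R4_int {Y : Type} [TopologicalSpace Y] [CompactSpace Y] [MeasurableSpace Y]
    [OpensMeasurableSpace Y] (μ : Measure Y) [IsFiniteMeasure μ] (F : Y → ℝ) (hF : Continuous F) :
    Integrable F μ :=
  hF.integrable_of_hasCompactSupport (HasCompactSupport.of_compactSpace F)

theorem coe_F {n : ℕ} (hn : 0 < n) (F : ℝ → ℝ) (hF : Continuous F)
    (hp : ∀ x, F (x + 2 * Real.pi) = F x) (φ : Uni (n * 2) → Fin (n * 2) → ℝ)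
    (hφ : ∀ A (k : ℤ), tW A k = ps k (φ A)) (hc : Continuous fun A => ∑ a, ∑ b, F (φ A a - φ A b)) :
    ∫ A, ∑ a, ∑ b, F (φ A a - φ A b) ∂(haarU (n * 2)) = 2 * n * F 0 + 2 * Real.pi *
        ∫ r in (-Real.pi)..Real.pi, F r * (kS n 0 ^ 2 - kT n r) := by
  have hprob := haar_prob (n * 2)
  have hpi := Real.pi_pos
  set L : ℝ := ∫ A, ∑ a, ∑ b, F (φ A a - φ A b) ∂(haarU (n * 2)) with hL
  set I1 : ℝ := ∫ r in (-Real.pi)..Real.pi, F r * (kS n 0 ^ 2 - kT n r) with hI1
  have hHi := R4_H n (-Real.pi) Real.pi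
  have hI2 : ∫ r in (-Real.pi)..Real.pi, (F r + F (-r)) * (kS n 0 ^ 2 - kT n r) = 2 * I1 := by
    have h1 : ∫ r in (-Real.pi)..Real.pi, F (-r) * (kS n 0 ^ 2 - kT n r) = I1 := by
      have h2 := intervalIntegral.integral_comp_neg (a := -Real.pi) (b := Real.pi)
        (fun r => F r * (kS n 0 ^ 2 - kT n r))
      rw [neg_neg] at h2
      rw [hI1, ← h2]
      refine intervalIntegral.integral_congr fun r _ => ?_
      simp only [R4_even]
    have h3 : ∫ r in (-Real.pi)..Real.pi, (F r + F (-r)) * (kS n 0 ^ 2 - kT n r)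
        = (∫ r in (-Real.pi)..Real.pi, F r * (kS n 0 ^ 2 - kT n r))
          + ∫ r in (-Real.pi)..Real.pi, F (-r) * (kS n 0 ^ 2 - kT n r) := by
      rw [← intervalIntegral.integral_add]
      · refine intervalIntegral.integral_congr fun r _ => ?_
        simp only [add_mul]
      · exact hHi.continuousOn_mul hF.continuousOn
      · exact hHi.continuousOn_mul (hF.comp continuous_neg).continuousOn
    rw [h3, h1, ← hI1, two_mul]
  set M : ℝ := ∫ r in (-Real.pi)..Real.pi, |kS n 0 ^ 2 - kT n r| with hM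
  have hkey : ∀ δ : ℝ, 0 < δ → |2 * L - 2 * (2 * n * F 0 + 2 * Real.pi * I1)|
      ≤ δ * (((n * 2 : ℕ) : ℝ) * ((n * 2 : ℕ) : ℝ) + 2 * n + 2 * Real.pi * M) := by
    intro δ hδ
    obtain ⟨K, c, hKc⟩ := trig_approx F hF hp δ hδ
    set P : ℝ → ℝ := fun x => ∑ k ∈ Finset.range K, c k * Real.cos (k * x) with hP
    have hPc : Continuous P := by
      rw [hP]
      refine continuous_finsetSum _ fun k _ => ?_
      fun_prop
    -- the identity for `P`
    have hsum : ∀ A, ∑ a, ∑ b, P (φ A a - φ A b)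
        = ∑ k ∈ Finset.range K, c k * ‖tW A (k : ℤ)‖ ^ 2 := by
      intro A
      simp only [hP]
      have h1 : ∀ k : ℕ, c k * ‖tW A (k : ℤ)‖ ^ 2
          = ∑ a, ∑ b, c k * Real.cos (k * (φ A a - φ A b)) := by
        intro k
        rw [hφ A k, ← R4_sq, Finset.mul_sum]
        refine Finset.sum_congr rfl fun a _ => ?_
        rw [Finset.mul_sum]
        refine Finset.sum_congr rfl fun b _ => ?_
        push_cast
        rfl
      have h2 : ∑ k ∈ Finset.range K, c k * ‖tW A (k : ℤ)‖ ^ 2
          = ∑ k ∈ Finset.range K, ∑ a, ∑ b, c k * Real.cos (k * (φ A a - φ A b)) :=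
        Finset.sum_congr rfl fun k _ => h1 k
      rw [h2, Finset.sum_comm (s := Finset.range K)]
      refine Finset.sum_congr rfl fun a _ => ?_
      rw [Finset.sum_comm (s := Finset.range K)]
    have hPid : ∫ A, ∑ a, ∑ b, P (φ A a - φ A b) ∂(haarU (n * 2))
        = 2 * n * P 0 + 2 * Real.pi *
          ∫ r in (-Real.pi)..Real.pi, P r * (kS n 0 ^ 2 - kT n r) := by
      rw [integral_congr_ae (Filter.Eventually.of_forall hsum), integral_finsetSum]
      · have h1 : ∀ k : ℕ, ∫ A, c k * ‖tW A (k : ℤ)‖ ^ 2 ∂(haarU (n * 2))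
            = 2 * n * (c k * Real.cos (k * 0)) + 2 * Real.pi *
              ∫ r in (-Real.pi)..Real.pi, c k * Real.cos (k * r) * (kS n 0 ^ 2 - kT n r) := by
          intro k
          rw [integral_const_mul, coe_cos hn (k : ℤ)]
          have h2 : ∫ r in (-Real.pi)..Real.pi, c k * Real.cos (k * r) * (kS n 0 ^ 2 - kT n r)
              = c k * ∫ r in (-Real.pi)..Real.pi,
                Real.cos (((k : ℤ) : ℝ) * r) * (kS n 0 ^ 2 - kT n r) := by
            rw [← intervalIntegral.integral_const_mul]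
            refine intervalIntegral.integral_congr fun r _ => ?_
            simp only [Int.cast_natCast, mul_assoc]
          rw [h2, mul_zero, Real.cos_zero]
          ring
        rw [Finset.sum_congr rfl fun k _ => h1 k, Finset.sum_add_distrib, ← Finset.mul_sum,
          ← Finset.mul_sum, ← intervalIntegral.integral_finsetSum]
        · congr 2
          refine intervalIntegral.integral_congr fun r _ => ?_
          simp only [hP, Finset.sum_mul]
        · intro k _
          refine hHi.continuousOn_mul (Continuous.continuousOn ?_)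
          fun_prop
      · intro k _
        refine R4_int _ _ ?_
        exact continuous_const.mul ((tW_cont (k : ℤ)).norm.pow 2)
    have hPcont : Continuous fun A : Uni (n * 2) => ∑ a, ∑ b, P (φ A a - φ A b) := by
      have h1 : (fun A : Uni (n * 2) => ∑ a, ∑ b, P (φ A a - φ A b))
          = fun A => ∑ k ∈ Finset.range K, c k * ‖tW A (k : ℤ)‖ ^ 2 := funext hsum
      rw [h1]
      exact continuous_finsetSum _ fun k _ => continuous_const.mul ((tW_cont (k : ℤ)).norm.pow 2)
    -- first error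
    have e1 : |2 * L - ∫ A, ∑ a, ∑ b, P (φ A a - φ A b) ∂(haarU (n * 2))|
        ≤ δ * (((n * 2 : ℕ) : ℝ) * ((n * 2 : ℕ) : ℝ)) := by
      have h1 : 2 * L - ∫ A, ∑ a, ∑ b, P (φ A a - φ A b) ∂(haarU (n * 2))
          = ∫ A, (2 * ∑ a, ∑ b, F (φ A a - φ A b) - ∑ a, ∑ b, P (φ A a - φ A b))
            ∂(haarU (n * 2)) := by
        rw [integral_sub, integral_const_mul]
        · exact (R4_int _ _ hc).const_mul 2
        · exact R4_int _ _ hPcont
      rw [h1, ← Real.norm_eq_abs]
      have h2 : ∀ A : Uni (n * 2), ‖2 * ∑ a, ∑ b, F (φ A a - φ A b)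
          - ∑ a, ∑ b, P (φ A a - φ A b)‖ ≤ δ * (((n * 2 : ℕ) : ℝ) * ((n * 2 : ℕ) : ℝ)) := by
        intro A
        rw [← R4_sym, ← Finset.sum_sub_distrib]
        simp only [← Finset.sum_sub_distrib]
        refine (norm_sum_le _ _).trans ?_
        have h3 : ∀ a ∈ (Finset.univ : Finset (Fin (n * 2))), ‖∑ b, (F (φ A a - φ A b)
            + F (-(φ A a - φ A b)) - P (φ A a - φ A b))‖ ≤ ((n * 2 : ℕ) : ℝ) * δ := by
          intro a _
          refine (norm_sum_le _ _).trans ?_
          have h4 : ∀ b ∈ (Finset.univ : Finset (Fin (n * 2))), ‖F (φ A a - φ A b)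
              + F (-(φ A a - φ A b)) - P (φ A a - φ A b)‖ ≤ δ := fun b _ => hKc _
          refine (Finset.sum_le_sum h4).trans (le_of_eq ?_)
          rw [Finset.sum_const, Finset.card_univ, Fintype.card_fin, nsmul_eq_mul]
        refine (Finset.sum_le_sum h3).trans (le_of_eq ?_)
        rw [Finset.sum_const, Finset.card_univ, Fintype.card_fin, nsmul_eq_mul]
        ring
      have h5 := norm_integral_le_of_norm_le_const (μ := haarU (n * 2))
        (Filter.Eventually.of_forall h2)
      refine h5.trans (le_of_eq ?_)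
      rw [probReal_univ, mul_one]
    -- second error
    have e2 : |P 0 - 2 * F 0| ≤ δ := by
      have h1 := hKc 0
      rw [neg_zero] at h1
      rw [abs_sub_comm, two_mul]
      exact h1
    -- third error
    have e3 : |(∫ r in (-Real.pi)..Real.pi, P r * (kS n 0 ^ 2 - kT n r)) - 2 * I1| ≤ δ * M := by
      rw [← hI2, ← intervalIntegral.integral_sub, ← Real.norm_eq_abs, hM,
        ← intervalIntegral.integral_const_mul]
      · refine intervalIntegral.norm_integral_le_of_norm_le (by linarith) ?_ ?_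
        · refine Filter.Eventually.of_forall fun r _ => ?_
          rw [← sub_mul, norm_mul, Real.norm_eq_abs, Real.norm_eq_abs, abs_sub_comm]
          exact mul_le_mul_of_nonneg_right (hKc r) (abs_nonneg _)
        · exact hHi.abs.const_mul δ
      · exact hHi.continuousOn_mul hPc.continuousOn
      · exact hHi.continuousOn_mul (hF.add (hF.comp continuous_neg)).continuousOn
    rw [hPid] at e1
    set J : ℝ := ∫ r in (-Real.pi)..Real.pi, P r * (kS n 0 ^ 2 - kT n r) with hJ
    have h1 : 2 * L - 2 * (2 * n * F 0 + 2 * Real.pi * I1)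
        = (2 * L - (2 * n * P 0 + 2 * Real.pi * J)) + 2 * n * (P 0 - 2 * F 0)
          + 2 * Real.pi * (J - 2 * I1) := by ring
    rw [h1]
    have h2 : |2 * n * (P 0 - 2 * F 0)| ≤ 2 * n * δ := by
      rw [abs_mul, abs_of_nonneg (by positivity : (0 : ℝ) ≤ 2 * n)]
      exact mul_le_mul_of_nonneg_left e2 (by positivity)
    have h3 : |2 * Real.pi * (J - 2 * I1)| ≤ 2 * Real.pi * (δ * M) := by
      rw [abs_mul, abs_of_nonneg (by positivity : (0 : ℝ) ≤ 2 * Real.pi)]
      exact mul_le_mul_of_nonneg_left e3 (by positivity)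
    have h4 := abs_add_le (2 * L - (2 * n * P 0 + 2 * Real.pi * J) + 2 * n * (P 0 - 2 * F 0))
      (2 * Real.pi * (J - 2 * I1))
    have h5 := abs_add_le (2 * L - (2 * n * P 0 + 2 * Real.pi * J)) (2 * n * (P 0 - 2 * F 0))
    calc _ ≤ _ := h4
      _ ≤ δ * (((n * 2 : ℕ) : ℝ) * ((n * 2 : ℕ) : ℝ)) + 2 * n * δ + 2 * Real.pi * (δ * M) := by
          linarith
      _ = _ := by ring
  have hzero : |2 * L - 2 * (2 * n * F 0 + 2 * Real.pi * I1)| ≤ 0 := by
    set B : ℝ := ((n * 2 : ℕ) : ℝ) * ((n * 2 : ℕ) : ℝ) + 2 * n + 2 * Real.pi * M with hB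
    have hM0 : 0 ≤ M := by
      rw [hM]
      exact intervalIntegral.integral_nonneg (by linarith) fun r _ => abs_nonneg _
    have hB0 : 0 ≤ B := by positivity
    refine le_of_forall_pos_le_add fun ε hε => ?_
    rw [zero_add]
    have h1 := hkey (ε / (B + 1)) (by positivity)
    refine h1.trans ?_
    rw [div_mul_eq_mul_div, div_le_iff₀ (by positivity)]
    nlinarith
  have h6 := abs_nonpos_iff.mp hzero
  linarith

end COE
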