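import Pool.Agent.LibCOE.Defs
import Pool.Agent.LibCOE.CO_R2
import Pool.Agent.LibCOE.CO_R3
import Pool.Agent.LibCOE.CO_R4
import Pool.Agent.LibQGr.R_BAS
import Pool.Agent.LibQGr.R_SPA

/-! Row R5. Proof sketch:
N = n*2. coeCorr = ∫ pcorr N 0 f' (phases (sy A).1) (definition: phases (A.1.transpose * A.1)); choose φ(A) by link for
sy A; F x = pz N f (N x/(2π)) is continuous and 2π-periodic; A ↦ ∑∑ F = N (pcorr + f 0) is continuous by pcorr_lip (with Q > B).
coe_F: coeCorr = (1/N)(2n F 0 + 2π ∫_{-π}^{π} F (kS 0^2 - kT)) - f 0; F 0 = f 0 and F r = f (N r/2π) for |r| <= π since B < n = N/2;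
substitute r = π s/n: (2π/N)(π/n) (kS 0^2 - kT(πs/n)) = 1 - yN n s with kS n 0 = n/π. The integral over ℝ is over [-n, n] as f
vanishes outside. -/

open MeasureTheory Set Filter Topology


namespace COE

open QGr


theorem R5_pz {N : ℕ} (hN : 0 < N) (f : ℝ → ℝ) (B : ℝ) (hB : ∀ x, B < |x| → f x = 0)
    (hBn : 2 * B < N) (x : ℝ) (hx : 2 * |x| ≤ N) : pz N f x = f x := by
  unfold pz
  have hN' : (0 : ℝ) < N := by exact_mod_cast hN
  rw [finsum_eq_single _ (0 : ℤ)]
  · simp
  · intro k hk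
    apply hB
    have h1 : (1 : ℝ) ≤ |(k : ℝ)| := by
      have h := Int.one_le_abs hk
      exact_mod_cast h
    have h2 : |(k : ℝ) * N| ≤ |x + k * N| + |x| := by
      have h := abs_sub (x + k * N) x
      have h3 : x + (k : ℝ) * N - x = k * N := by ring
      rw [h3] at h
      exact h
    rw [abs_mul, abs_of_pos hN'] at h2
    nlinarith

theorem R5_kS0 {n : ℕ} : kS n 0 = n / Real.pi := by
  unfold kS
  have hp := Real.pi_ne_zero
  simp only [mul_zero, Real.cos_zero, Finset.sum_const, Finset.card_univ, Fintype.card_prod,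
    Fintype.card_fin, nsmul_eq_mul, mul_one]
  push_cast
  field_simp

theorem coe_pair {n : ℕ} (hn : 0 < n) (f : ℝ → ℝ) (L : ℝ) (hL0 : 0 ≤ L)
    (hL : ∀ x y, |f x - f y| ≤ L * dist x y) (B : ℝ)
    (hB : ∀ x, B < |x| → f x = 0) (hBn : B < n) :
    coeCorr (n * 2) 0 (fun v => f (v 0)) = ∫ r, f r * (1 - yN n r) := by
  have hN : 0 < n * 2 := by positivity
  have hn' : (0 : ℝ) < n := by exact_mod_cast hn
  have hpi := Real.pi_pos
  have hfc : Continuous f := by
    have h : LipschitzWith ⟨L, hL0⟩ f := by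
      apply LipschitzWith.of_dist_le_mul
      intro x y
      rw [Real.dist_eq]
      exact hL x y
    exact h.continuous
  choose φ hφ1 hφ2 using fun A : Uni (n * 2) => link hN (sy A)
  set F : ℝ → ℝ := fun x => pz (n * 2) f (((n * 2 : ℕ) : ℝ) / (2 * Real.pi) * x) with hF
  have hpz := pz_cont hN f hfc B hB
  have hFc : Continuous F := by
    have h : Continuous fun x : ℝ => ((n * 2 : ℕ) : ℝ) / (2 * Real.pi) * x := by fun_prop
    exact hpz.1.comp h
  have hFp : ∀ x, F (x + 2 * Real.pi) = F x := by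
    intro x
    have h : ((n * 2 : ℕ) : ℝ) / (2 * Real.pi) * (x + 2 * Real.pi)
        = ((n * 2 : ℕ) : ℝ) / (2 * Real.pi) * x + ((n * 2 : ℕ) : ℝ) := by
      field_simp
    rw [hF]
    simp only []
    rw [h, hpz.2]
  have hps : ∀ A : Uni (n * 2), pcorr (n * 2) 0 (fun v => f (v 0)) (phases (sy A).1)
      = (1 / ((n * 2 : ℕ) : ℝ)) * ∑ a, ∑ b, F (φ A a - φ A b) - f 0 := fun A => hφ2 A f B hB
  have hNr : (0 : ℝ) < ((n * 2 : ℕ) : ℝ) := by exact_mod_cast hN
  have hSum : ∀ A : Uni (n * 2), ∑ a, ∑ b, F (φ A a - φ A b)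
      = ((n * 2 : ℕ) : ℝ) * (pcorr (n * 2) 0 (fun v => f (v 0)) (phases (sy A).1) + f 0) := by
    intro A
    rw [hps A]
    field_simp
    ring
  have hcont : Continuous fun A : Uni (n * 2) =>
      pcorr (n * 2) 0 (fun v => f (v 0)) (phases (sy A).1) := by
    have h := (pcorr_lip (Q := n) hN 0 (fun v => f (v 0)) L B hL0
      (fun u v => (hL _ _).trans (mul_le_mul_of_nonneg_left (dist_le_pi_dist u v 0) hL0))
      (fun v hv => by
        obtain ⟨i, hi⟩ := hv
        have h0 : i = 0 := Fin.eq_zero i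
        rw [h0] at hi
        exact hB _ hi) hBn).1
    exact h.comp sy_cont
  have hSc : Continuous fun A : Uni (n * 2) => ∑ a, ∑ b, F (φ A a - φ A b) := by
    have h : (fun A : Uni (n * 2) => ∑ a, ∑ b, F (φ A a - φ A b))
        = fun A => ((n * 2 : ℕ) : ℝ) *
          (pcorr (n * 2) 0 (fun v => f (v 0)) (phases (sy A).1) + f 0) := funext hSum
    rw [h]
    exact (hcont.add continuous_const).const_mul _
  have hmain := coe_F hn F hFc hFp φ (fun A k => hφ1 A k) hSc
  have : IsProbabilityMeasure (haarU (n * 2)) := by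
    unfold haarU
    constructor
    have h := Measure.haarMeasure_self (K₀ := (⟨⟨Set.univ, isCompact_univ⟩, by simp⟩ :
      TopologicalSpace.PositiveCompacts (Uni (n * 2))))
    exact h
  have hI : coeCorr (n * 2) 0 (fun v => f (v 0))
      = (1 / ((n * 2 : ℕ) : ℝ)) * ∫ A, ∑ a, ∑ b, F (φ A a - φ A b) ∂(haarU (n * 2)) - f 0 := by
    have h1 : coeCorr (n * 2) 0 (fun v => f (v 0))
        = ∫ A : Uni (n * 2), ((1 / ((n * 2 : ℕ) : ℝ)) * ∑ a, ∑ b, F (φ A a - φ A b) - f 0)
            ∂(haarU (n * 2)) := by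
      unfold coeCorr
      apply integral_congr_ae
      exact Filter.Eventually.of_forall fun A => hps A
    rw [h1, integral_sub, integral_const_mul, integral_const]
    · simp
    · apply Integrable.const_mul
      exact hSc.integrable_of_hasCompactSupport (HasCompactSupport.of_compactSpace _)
    · exact integrable_const _
  have hBn2 : 2 * B < ((n * 2 : ℕ) : ℝ) := by
    push_cast
    linarith
  have hF0 : F 0 = f 0 := by
    rw [hF]
    simp only [mul_zero]
    exact R5_pz hN f B hB hBn2 0 (by simp)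
  have hFr : ∀ r ∈ uIcc (-Real.pi) Real.pi, F r * (kS n 0 ^ 2 - kT n r)
      = f (n / Real.pi * r) * (kS n 0 ^ 2 - kT n (Real.pi * (n / Real.pi * r) / n)) := by
    intro r hr
    rw [uIcc_of_le (by linarith)] at hr
    have h1 : ((n * 2 : ℕ) : ℝ) / (2 * Real.pi) * r = n / Real.pi * r := by
      push_cast
      field_simp
    have h2 : Real.pi * (n / Real.pi * r) / n = r := by
      field_simp
    rw [h2, hF]
    simp only []
    rw [h1, R5_pz hN f B hB hBn2]
    rw [abs_mul, abs_of_pos (by positivity : 0 < (n : ℝ) / Real.pi)]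
    have h3 : |r| ≤ Real.pi := abs_le.2 ⟨hr.1, hr.2⟩
    push_cast
    have h4 : (n : ℝ) / Real.pi * |r| ≤ n / Real.pi * Real.pi :=
      mul_le_mul_of_nonneg_left h3 (by positivity)
    have h5 : (n : ℝ) / Real.pi * Real.pi = n := by field_simp
    rw [h5] at h4
    linarith
  rw [hI, hmain, hF0, intervalIntegral.integral_congr hFr]
  have hsub := intervalIntegral.integral_comp_mul_left (a := -Real.pi) (b := Real.pi)
    (fun s : ℝ => f s * (kS n 0 ^ 2 - kT n (Real.pi * s / n)))
    (c := (n : ℝ) / Real.pi) (by positivity)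
  have e1 : (n : ℝ) / Real.pi * -Real.pi = -n := by field_simp
  have e2 : (n : ℝ) / Real.pi * Real.pi = n := by field_simp
  rw [e1, e2, smul_eq_mul] at hsub
  rw [hsub]
  have hlast : ∫ r, f r * (1 - yN n r)
      = ∫ r in (-n : ℝ)..n, f r * (1 - yN n r) := by
    rw [intervalIntegral.integral_of_le (by linarith), ← integral_Icc_eq_integral_Ioc,
      setIntegral_eq_integral_of_forall_compl_eq_zero]
    intro x hx
    rw [hB x, zero_mul]
    by_contra hcon
    rw [not_lt] at hcon
    apply hx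
    have h := abs_le.1 (hcon.trans hBn.le)
    exact ⟨h.1, h.2⟩
  rw [hlast]
  have hyN : ∀ r, f r * (1 - yN n r)
      = (Real.pi / n) ^ 2 * (f r * (kS n 0 ^ 2 - kT n (Real.pi * r / n))) := by
    intro r
    unfold yN
    rw [R5_kS0]
    field_simp
  simp_rw [hyN]
  rw [intervalIntegral.integral_const_mul]
  push_cast
  field_simp
  ring

end COE
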