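import Pool.Agent.LibCOE.Defs

/-! Row R6. Proof sketch:
gS_int: ∫_{-1/2}^{1/2} cos (2πxr) dx = sin (πr)/(πr) (r = 0 separately). gS_deriv: differentiate gS_int under the integral
(`hasDerivAt_integral_of_dominated_loc_of_deriv_le` / intervalIntegral version). riemann: the points x_k = hp k/(2n) are the midpoints
of the 2n intervals of length 1/(2n) that partition [-1/2, 1/2] (`intervalIntegral.sum_integral_adjacent_intervals`, index od k); on
each |g x - g x_k| <= K/(2n). -/

open MeasureTheory Set Filter Topology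

namespace COE

open QGr

theorem gS_int (r : ℝ) : gS r = ∫ x in (-(1 / 2) : ℝ)..(1 / 2), Real.cos (2 * Real.pi * x * r) := by
  unfold gS
  by_cases hr : r = 0
  · subst hr
    simp
    norm_num
  · have hc : 2 * Real.pi * r ≠ 0 := by positivity
    have h1 : (fun x : ℝ => Real.cos (2 * Real.pi * x * r))
        = fun x : ℝ => Real.cos (2 * Real.pi * r * x) := by
      funext x
      ring_nf
    rw [h1, intervalIntegral.integral_comp_mul_left (fun x => Real.cos x) hc, integral_cos,
      Real.sinc_of_ne_zero (by positivity)]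
    have h2 : 2 * Real.pi * r * (1 / 2) = Real.pi * r := by ring
    have h3 : 2 * Real.pi * r * -(1 / 2) = -(Real.pi * r) := by ring
    rw [h2, h3, Real.sin_neg, smul_eq_mul]
    have hp := Real.pi_ne_zero
    field_simp
    ring

theorem gS_deriv (r : ℝ) : deriv gS r
    = ∫ x in (-(1 / 2) : ℝ)..(1 / 2), -(2 * Real.pi * x * Real.sin (2 * Real.pi * x * r)) := by
  have h0 : gS = fun r => ∫ x in (-(1 / 2) : ℝ)..(1 / 2), Real.cos (2 * Real.pi * x * r) := by
    funext r
    exact gS_int r
  have h1 := intervalIntegral.hasDerivAt_integral_of_dominated_loc_of_deriv_le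
    (μ := volume) (a := (-(1 / 2) : ℝ)) (b := 1 / 2) (x₀ := r) (s := univ)
    (F := fun r x => Real.cos (2 * Real.pi * x * r))
    (F' := fun r x => -(2 * Real.pi * x * Real.sin (2 * Real.pi * x * r)))
    (bound := fun x => 2 * Real.pi * |x|)
    Filter.univ_mem
    (Filter.Eventually.of_forall fun r => by
      apply Continuous.aestronglyMeasurable
      fun_prop)
    (by
      apply Continuous.intervalIntegrable
      fun_prop)
    (by
      apply Continuous.aestronglyMeasurable
      fun_prop)
    (Filter.Eventually.of_forall fun x _ s _ => by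
      rw [norm_neg, norm_mul, norm_mul, norm_mul]
      have h2 : ‖Real.sin (2 * Real.pi * x * s)‖ ≤ 1 := by
        rw [Real.norm_eq_abs]
        exact Real.abs_sin_le_one _
      have h3 : ‖(2 : ℝ)‖ * ‖Real.pi‖ * ‖x‖ = 2 * Real.pi * |x| := by
        rw [Real.norm_eq_abs, Real.norm_eq_abs, Real.norm_eq_abs, abs_of_pos Real.pi_pos]
        norm_num
      rw [h3]
      have h4 : 0 ≤ 2 * Real.pi * |x| := by positivity
      nlinarith)
    (by
      apply Continuous.intervalIntegrable
      fun_prop)
    (Filter.Eventually.of_forall fun x _ s _ => by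
      have h2 : HasDerivAt (fun s : ℝ => 2 * Real.pi * x * s) (2 * Real.pi * x) s := by
        simpa using (hasDerivAt_id s).const_mul (2 * Real.pi * x)
      have h3 := h2.cos
      have h4 : -(2 * Real.pi * x * Real.sin (2 * Real.pi * x * s))
          = -Real.sin (2 * Real.pi * x * s) * (2 * Real.pi * x) := by ring
      rw [h4]
      exact h3)
  rw [h0]
  exact h1.2.deriv

theorem riemann {n : ℕ} (hn : 0 < n) (g : ℝ → ℝ) (hg : Continuous g) (K : ℝ)
    (hK : ∀ x y : ℝ, |x| ≤ 1 → |y| ≤ 1 → |g x - g y| ≤ K * |x - y|) :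
    |1 / (2 * n) * ∑ k : Ix n, g (hp k / (2 * n)) - ∫ x in (-(1 / 2) : ℝ)..(1 / 2), g x| ≤ K / n := by
  have hn' : (0 : ℝ) < n := by exact_mod_cast hn
  have hK0 : 0 ≤ K := by
    have h := hK 0 1 (by norm_num) (by norm_num)
    have h2 := (abs_nonneg _).trans h
    norm_num at h2
    exact h2
  -- the sum over Ix n is a sum over range (2 n)
  have hsum : ∑ k : Ix n, g (hp k / (2 * n))
      = ∑ m ∈ Finset.range (2 * n), g (((m : ℝ) - (2 * n - 1) / 2) / (2 * n)) := by
    unfold hp od
    rw [Fintype.sum_prod_type, Finset.sum_comm' (s := Finset.univ) (t := fun _ => Finset.univ)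
      (s' := fun _ => Finset.univ) (t' := Finset.univ) (by simp)]
    rw [Fin.sum_univ_two]
    have h1 : ∀ (u : ℕ → ℝ) (n : ℕ), ∑ m ∈ Finset.range (2 * n), u m
        = ∑ i : Fin n, u (2 * i) + ∑ i : Fin n, u (2 * i + 1) := by
      intro u n
      rw [← Finset.sum_add_distrib, ← Fin.sum_univ_eq_sum_range (fun m => u m)]
      induction n with
      | zero => simp
      | succ n ih =>
        rw [Fin.sum_univ_castSucc (n := n), Fin.sum_univ_eq_sum_range (fun m => u m)] 
        rw [Fin.sum_univ_eq_sum_range (fun m => u m)] at ih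
        have h2 : 2 * (n + 1) = 2 * n + 1 + 1 := by ring
        rw [h2, Finset.sum_range_succ, Finset.sum_range_succ, ih]
        simp only [Fin.val_castSucc, Fin.val_last]
        ring
    rw [h1 (fun m => g (((m : ℝ) - (2 * n - 1) / 2) / (2 * n)))]
    simp
  have hint : ∫ x in (-(1 / 2) : ℝ)..(1 / 2), g x
      = ∑ m ∈ Finset.range (2 * n), ∫ x in (-(1 / 2) + (m : ℝ) / (2 * n))..(-(1 / 2) + ((m + 1 : ℕ) : ℝ) / (2 * n)), g x := by
    have h := intervalIntegral.sum_integral_adjacent_intervals (μ := volume) (f := g)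
      (a := fun m : ℕ => -(1 / 2) + (m : ℝ) / (2 * n)) (n := 2 * n)
      (fun k _ => hg.intervalIntegrable _ _)
    rw [h]
    congr 1
    · simp
    · push_cast
      field_simp
      ring
  have hterm : ∀ m ∈ Finset.range (2 * n),
      |1 / (2 * n) * g (((m : ℝ) - (2 * n - 1) / 2) / (2 * n))
        - ∫ x in (-(1 / 2) + (m : ℝ) / (2 * n))..(-(1 / 2) + ((m + 1 : ℕ) : ℝ) / (2 * n)), g x|
      ≤ K / (2 * n) * (1 / (2 * n)) := by
    intro m hm
    rw [Finset.mem_range] at hm
    have hm' : (m : ℝ) + 1 ≤ 2 * n := by exact_mod_cast hm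
    have hm0 : (0 : ℝ) ≤ m := Nat.cast_nonneg m
    set c := ((m : ℝ) - (2 * n - 1) / 2) / (2 * n) with hc
    set a := -(1 / 2) + (m : ℝ) / (2 * n) with ha
    set b := -(1 / 2) + ((m + 1 : ℕ) : ℝ) / (2 * n) with hb
    have hab : b - a = 1 / (2 * n) := by
      rw [ha, hb]
      push_cast
      field_simp
      ring
    have hca : c - a = 1 / (4 * n) := by
      rw [hc, ha]
      field_simp
      ring
    have hbc : b - c = 1 / (4 * n) := by
      rw [hc, hb]
      push_cast
      field_simp
      ring
    have hp4 : (0 : ℝ) < 1 / (4 * n) := by positivity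
    have hle : a ≤ b := by
      have : (0 : ℝ) < 1 / (2 * n) := by positivity
      linarith
    have ha1 : -(1 / 2) ≤ a := by
      rw [ha]
      have : (0 : ℝ) ≤ (m : ℝ) / (2 * n) := by positivity
      linarith
    have hb1 : b ≤ 1 / 2 := by
      rw [hb]
      have : ((m + 1 : ℕ) : ℝ) / (2 * n) ≤ 1 := by
        rw [div_le_one (by positivity)]
        push_cast
        exact hm'
      linarith
    have h1 : 1 / (2 * n) * g c - ∫ x in a..b, g x = ∫ x in a..b, (g c - g x) := by
      rw [intervalIntegral.integral_sub (by simp) (hg.intervalIntegrable _ _),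
        intervalIntegral.integral_const, hab, smul_eq_mul]
    rw [h1]
    have h2 := intervalIntegral.norm_integral_le_of_norm_le_const (a := a) (b := b)
      (f := fun x => g c - g x) (C := K / (2 * n)) (by
        intro x hx
        rw [uIoc_of_le hle] at hx
        have h3 := hK c x (by rw [abs_le]; constructor <;> linarith)
          (by rw [abs_le]; constructor <;> linarith [hx.1, hx.2])
        rw [Real.norm_eq_abs]
        refine h3.trans ?_
        have h4 : |c - x| ≤ 1 / (2 * n) := by
          rw [abs_le]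
          constructor <;> linarith [hx.1, hx.2]
        calc K * |c - x| ≤ K * (1 / (2 * n)) := mul_le_mul_of_nonneg_left h4 hK0
          _ = K / (2 * n) := by ring)
    rw [hab, abs_of_pos (by positivity), Real.norm_eq_abs] at h2
    exact h2
  rw [hsum, hint, Finset.mul_sum, ← Finset.sum_sub_distrib]
  refine (Finset.abs_sum_le_sum_abs _ _).trans ?_
  refine (Finset.sum_le_sum hterm).trans ?_
  rw [Finset.sum_const, Finset.card_range, nsmul_eq_mul]
  push_cast
  have h5 : 2 * (n : ℝ) * (K / (2 * n) * (1 / (2 * n))) = K / (2 * n) := by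
    field_simp
  rw [h5]
  apply div_le_div_of_nonneg_left hK0 hn'
  linarith

end COE
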