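import Pool.Agent.LibCOE.Defs
import Pool.Agent.LibCOE.CO_P10
import Pool.Agent.LibCOE.CO_R6

/-! Row R7. Proof sketch:
Put s_N(r) = (π/n) kS n (πr/n) = 1/(2n) ∑_k cos (2π x_k r), x_k = hp k/(2n); (π/n)^2 kD n (πr/n) = -1/(2n) ∑ 2π x_k sin (2πx_k r);
kI n (πr/n) = 1/(2n) ∑ sin (2πx_k r)/(2πx_k) = 1/(2n) ∑ r sinc (2π x_k r). Apply riemann to g(x) = cos (2πxr), -2πx sin (2πxr),
r sinc (2πxr) (Lipschitz with constants depending on B; for sinc write ∫_0^r cos (2πxt) dt instead). The last integral is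
∫_0^r gS (swap the integrals). All quantities are bounded by constants depending on B, so products differ by C/n.
(π/n)^2 kT = s_N^2 + D_N (sign/2 - I_N), Real.sign (πr/n) = Real.sign r. -/

open MeasureTheory Set Filter Topology

namespace COE

open QGr


theorem R7_kS {n : ℕ} (hn : 0 < n) {r B : ℝ} (hr : |r| ≤ B) :
    |Real.pi / n * kS n (Real.pi * r / n) - gS r| ≤ (2 * Real.pi * B) / n := by
  have hn' : (n : ℝ) ≠ 0 := by positivity
  have hB : 0 ≤ B := (abs_nonneg r).trans hr
  have h := riemann hn (fun x => Real.cos (2 * Real.pi * x * r)) (by fun_prop) (2 * Real.pi * B) ?_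
  · rw [gS_int]
    have e : Real.pi / n * kS n (Real.pi * r / n) =
        1 / (2 * n) * ∑ k : Ix n, Real.cos (2 * Real.pi * (hp k / (2 * n)) * r) := by
      unfold kS
      rw [← mul_assoc]
      congr 1
      · field_simp
      · refine Finset.sum_congr rfl fun k _ => ?_
        congr 1
        field_simp
    rw [e]
    exact h
  · intro x y _ _
    refine (Real.abs_cos_sub_cos_le _ _).trans ?_
    have e : 2 * Real.pi * x * r - 2 * Real.pi * y * r = 2 * Real.pi * r * (x - y) := by ring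
    rw [e, abs_mul, abs_mul, abs_of_pos (by positivity : (0 : ℝ) < 2 * Real.pi)]
    gcongr

theorem R7_kD {n : ℕ} (hn : 0 < n) {r B : ℝ} (hr : |r| ≤ B) :
    |(Real.pi / n) ^ 2 * kD n (Real.pi * r / n) - deriv gS r| ≤
      (2 * Real.pi * (1 + 2 * Real.pi * B)) / n := by
  have hn' : (n : ℝ) ≠ 0 := by positivity
  have hB : 0 ≤ B := (abs_nonneg r).trans hr
  have h := riemann hn (fun x => -(2 * Real.pi * x * Real.sin (2 * Real.pi * x * r)))
    (by fun_prop) (2 * Real.pi * (1 + 2 * Real.pi * B)) ?_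
  · rw [gS_deriv]
    have e : (Real.pi / n) ^ 2 * kD n (Real.pi * r / n) =
        1 / (2 * n) * ∑ k : Ix n, -(2 * Real.pi * (hp k / (2 * n)) *
          Real.sin (2 * Real.pi * (hp k / (2 * n)) * r)) := by
      unfold kD
      rw [← mul_assoc, Finset.mul_sum, Finset.mul_sum]
      refine Finset.sum_congr rfl fun k _ => ?_
      have e2 : hp k * (Real.pi * r / n) = 2 * Real.pi * (hp k / (2 * n)) * r := by
        field_simp
      rw [e2]
      field_simp
    rw [e]
    exact h
  · intro x y hx hy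
    have e : -(2 * Real.pi * x * Real.sin (2 * Real.pi * x * r)) -
        -(2 * Real.pi * y * Real.sin (2 * Real.pi * y * r)) =
        -(2 * Real.pi * ((x - y) * Real.sin (2 * Real.pi * x * r) +
          y * (Real.sin (2 * Real.pi * x * r) - Real.sin (2 * Real.pi * y * r)))) := by ring
    rw [e, abs_neg, abs_mul, abs_of_pos (by positivity : (0 : ℝ) < 2 * Real.pi),
      show 2 * Real.pi * (1 + 2 * Real.pi * B) * |x - y| =
        2 * Real.pi * ((1 + 2 * Real.pi * B) * |x - y|) by ring]
    refine mul_le_mul_of_nonneg_left ?_ (by positivity)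
    have h1 : |(x - y) * Real.sin (2 * Real.pi * x * r)| ≤ |x - y| := by
      rw [abs_mul]
      exact mul_le_of_le_one_right (abs_nonneg _) (Real.abs_sin_le_one _)
    have h2 : |y * (Real.sin (2 * Real.pi * x * r) - Real.sin (2 * Real.pi * y * r))| ≤
        2 * Real.pi * B * |x - y| := by
      rw [abs_mul]
      have h3 : |Real.sin (2 * Real.pi * x * r) - Real.sin (2 * Real.pi * y * r)| ≤
          2 * Real.pi * B * |x - y| := by
        refine (Real.abs_sin_sub_sin_le _ _).trans ?_
        have e : 2 * Real.pi * x * r - 2 * Real.pi * y * r = 2 * Real.pi * r * (x - y) := by ring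
        rw [e, abs_mul, abs_mul, abs_of_pos (by positivity : (0 : ℝ) < 2 * Real.pi)]
        gcongr
      calc |y| * |Real.sin (2 * Real.pi * x * r) - Real.sin (2 * Real.pi * y * r)| ≤
          1 * (2 * Real.pi * B * |x - y|) := by gcongr
        _ = _ := one_mul _
    calc _ ≤ _ := abs_add_le _ _
      _ ≤ |x - y| + 2 * Real.pi * B * |x - y| := add_le_add h1 h2
      _ = _ := by ring

theorem R7_g (x r : ℝ) (hx : x ≠ 0) :
    ∫ t in (0 : ℝ)..r, Real.cos (2 * Real.pi * x * t) =
      Real.sin (2 * Real.pi * x * r) / (2 * Real.pi * x) := by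
  have hc : 2 * Real.pi * x ≠ 0 := by positivity
  rw [intervalIntegral.integral_comp_mul_left (fun u => Real.cos u) hc, integral_cos]
  simp only [mul_zero, Real.sin_zero, sub_zero, smul_eq_mul]
  rw [div_eq_inv_mul]

theorem R7_lip (r x y : ℝ) : |(∫ t in (0 : ℝ)..r, Real.cos (2 * Real.pi * x * t)) -
    ∫ t in (0 : ℝ)..r, Real.cos (2 * Real.pi * y * t)| ≤ 2 * Real.pi * |r| * |r| * |x - y| := by
  rw [← intervalIntegral.integral_sub
    ((by fun_prop : Continuous fun t => Real.cos (2 * Real.pi * x * t)).intervalIntegrable _ _)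
    ((by fun_prop : Continuous fun t => Real.cos (2 * Real.pi * y * t)).intervalIntegrable _ _)]
  have h := intervalIntegral.norm_integral_le_of_norm_le_const (a := (0 : ℝ)) (b := r)
    (f := fun t => Real.cos (2 * Real.pi * x * t) - Real.cos (2 * Real.pi * y * t))
    (C := 2 * Real.pi * |r| * |x - y|) ?_
  · rw [Real.norm_eq_abs] at h
    refine h.trans (le_of_eq ?_)
    rw [sub_zero]
    ring
  · intro t ht
    have ht2 : |t| ≤ |r| := by
      rw [Set.mem_uIoc] at ht
      rcases ht with ⟨h1, h2⟩ | ⟨h1, h2⟩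
      · rw [abs_of_pos h1]
        exact h2.trans (le_abs_self r)
      · rw [abs_of_nonpos h2, abs_of_nonpos (h1.le.trans h2)]
        linarith
    rw [Real.norm_eq_abs]
    refine (Real.abs_cos_sub_cos_le _ _).trans ?_
    have e : 2 * Real.pi * x * t - 2 * Real.pi * y * t = 2 * Real.pi * t * (x - y) := by ring
    rw [e, abs_mul, abs_mul, abs_of_pos (by positivity : (0 : ℝ) < 2 * Real.pi)]
    gcongr

theorem R7_kI {n : ℕ} (hn : 0 < n) {r B : ℝ} (hr : |r| ≤ B) :
    |kI n (Real.pi * r / n) - ∫ t in (0 : ℝ)..r, gS t| ≤ (2 * Real.pi * B * B) / n := by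
  have hn' : (n : ℝ) ≠ 0 := by positivity
  have hB : 0 ≤ B := (abs_nonneg r).trans hr
  have hcont : Continuous fun x => ∫ t in (0 : ℝ)..r, Real.cos (2 * Real.pi * x * t) := by
    have hL : LipschitzWith (Real.toNNReal (2 * Real.pi * |r| * |r|))
        fun x => ∫ t in (0 : ℝ)..r, Real.cos (2 * Real.pi * x * t) := by
      refine LipschitzWith.of_dist_le_mul fun x y => ?_
      rw [Real.dist_eq, Real.dist_eq, Real.coe_toNNReal _ (by positivity)]
      exact R7_lip r x y
    exact hL.continuous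
  have h := riemann hn (fun x => ∫ t in (0 : ℝ)..r, Real.cos (2 * Real.pi * x * t)) hcont
    (2 * Real.pi * B * B) ?_
  · have e : kI n (Real.pi * r / n) = 1 / (2 * n) * ∑ k : Ix n,
        ∫ t in (0 : ℝ)..r, Real.cos (2 * Real.pi * (hp k / (2 * n)) * t) := by
      unfold kI
      rw [Finset.mul_sum, Finset.mul_sum]
      refine Finset.sum_congr rfl fun k _ => ?_
      have hk := hp_ne k
      have hk2 : hp k / (2 * n) ≠ 0 := by positivity
      rw [R7_g _ _ hk2]
      have e2 : hp k * (Real.pi * r / n) = 2 * Real.pi * (hp k / (2 * n)) * r := by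
        field_simp
      rw [e2]
      field_simp
    have e3 : ∫ x in (-(1 / 2) : ℝ)..(1 / 2), ∫ t in (0 : ℝ)..r, Real.cos (2 * Real.pi * x * t) =
        ∫ t in (0 : ℝ)..r, gS t := by
      rw [MeasureTheory.intervalIntegral_intervalIntegral_swap]
      · simp_rw [gS_int]
      · refine IntegrableOn.mono_set (t := (Set.uIcc (-(1 / 2) : ℝ) (1 / 2)) ×ˢ (Set.uIcc 0 r)) ?_
          (Set.prod_mono Set.uIoc_subset_uIcc Set.uIoc_subset_uIcc)
        refine ContinuousOn.integrableOn_compact ?_ ?_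
        · exact isCompact_uIcc.prod isCompact_uIcc
        · refine Continuous.continuousOn ?_
          show Continuous fun p : ℝ × ℝ => Real.cos (2 * Real.pi * p.1 * p.2)
          fun_prop
    rw [e, ← e3]
    exact h
  · intro x y _ _
    refine (R7_lip r x y).trans ?_
    gcongr

theorem R7_gS_le (r : ℝ) : |gS r| ≤ 1 := Real.abs_sinc_le_one _

theorem R7_dS_le (r : ℝ) : |deriv gS r| ≤ 2 * Real.pi := by
  rw [gS_deriv]
  have h := intervalIntegral.norm_integral_le_of_norm_le_const (a := (-(1 / 2) : ℝ)) (b := 1 / 2)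
    (f := fun x => -(2 * Real.pi * x * Real.sin (2 * Real.pi * x * r)))
    (C := 2 * Real.pi) ?_
  · rw [Real.norm_eq_abs] at h
    refine h.trans (le_of_eq ?_)
    norm_num
  · intro x hx
    have hx2 : |x| ≤ 1 := by
      rw [Set.uIoc_of_le (by norm_num)] at hx
      rw [abs_le]
      constructor <;> linarith [hx.1, hx.2]
    rw [Real.norm_eq_abs, abs_neg, abs_mul, abs_mul,
      abs_of_pos (by positivity : (0 : ℝ) < 2 * Real.pi)]
    calc 2 * Real.pi * |x| * |Real.sin (2 * Real.pi * x * r)| ≤ 2 * Real.pi * 1 * 1 := by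
          gcongr
          exact Real.abs_sin_le_one _
      _ = _ := by ring

theorem R7_iS_le (r : ℝ) : |∫ t in (0 : ℝ)..r, gS t| ≤ |r| := by
  have h := intervalIntegral.norm_integral_le_of_norm_le_const (a := (0 : ℝ)) (b := r)
    (f := gS) (C := 1) (fun t _ => R7_gS_le t)
  rw [Real.norm_eq_abs, one_mul, sub_zero] at h
  exact h

theorem R7_sign (x : ℝ) : |Real.sign x| ≤ 1 := by
  rcases Real.sign_apply_eq x with h | h | h <;> rw [h] <;> norm_num

theorem yN_lim (B : ℝ) : ∃ C, ∀ n : ℕ, 0 < n → ∀ r, |r| ≤ B → |yN n r - gY r| ≤ C / n := by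
  set K1 : ℝ := 2 * Real.pi * B with hK1
  set K2 : ℝ := 2 * Real.pi * (1 + 2 * Real.pi * B) with hK2
  set K3 : ℝ := 2 * Real.pi * B * B with hK3
  refine ⟨K1 * (2 + K1) + K2 * (1 / 2 + B) + (2 * Real.pi + K2) * K3, ?_⟩
  intro n hn r hr
  have hn0 : (0 : ℝ) < n := by exact_mod_cast hn
  have hn1 : (1 : ℝ) ≤ n := by exact_mod_cast hn
  have hB : 0 ≤ B := (abs_nonneg r).trans hr
  have hK1' : 0 ≤ K1 := by positivity
  have hK2' : 0 ≤ K2 := by positivity
  have hK3' : 0 ≤ K3 := by positivity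
  have h1 := R7_kS hn hr
  have h2 := R7_kD hn hr
  have h3 := R7_kI hn hr
  rw [← hK1] at h1
  rw [← hK2] at h2
  rw [← hK3] at h3
  set s := Real.pi / n * kS n (Real.pi * r / n) with hs
  set D := (Real.pi / n) ^ 2 * kD n (Real.pi * r / n) with hD
  set I := kI n (Real.pi * r / n) with hI
  set s0 := gS r with hs0
  set D0 := deriv gS r with hD0
  set I0 := ∫ t in (0 : ℝ)..r, gS t with hI0
  have hsg : Real.sign (Real.pi * r / n) = Real.sign r := by
    have e : Real.pi * r / n = (Real.pi / n) * r := by ring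
    have hp : 0 < Real.pi / n := by positivity
    rw [e]
    rcases lt_trichotomy r 0 with h | h | h
    · rw [Real.sign_of_neg h, Real.sign_of_neg (mul_neg_of_pos_of_neg hp h)]
    · rw [h, mul_zero]
    · rw [Real.sign_of_pos h, Real.sign_of_pos (mul_pos hp h)]
  have e : yN n r - gY r = (s - s0) * (s + s0) + (D - D0) * (Real.sign r / 2 - I0) +
      D * (I0 - I) := by
    unfold yN gY kT
    rw [hsg, hs, hD, hI]
    ring
  have b1 : |s + s0| ≤ 2 + K1 := by
    have : |s + s0| ≤ |s - s0| + 2 * |s0| := by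
      calc |s + s0| = |(s - s0) + 2 * s0| := by ring_nf
        _ ≤ |s - s0| + |2 * s0| := abs_add_le _ _
        _ = _ := by rw [abs_mul, abs_two]
    have h4 : K1 / n ≤ K1 := div_le_self hK1' hn1
    have h5 := R7_gS_le r
    rw [← hs0] at h5
    linarith
  have b2 : |Real.sign r / 2 - I0| ≤ 1 / 2 + B := by
    have h4 := R7_sign r
    have h5 := (R7_iS_le r).trans hr
    rw [← hI0] at h5
    calc |Real.sign r / 2 - I0| ≤ |Real.sign r / 2| + |I0| := abs_sub _ _
      _ ≤ 1 / 2 + B := by
        rw [abs_div, abs_two]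
        linarith
  have b3 : |D| ≤ 2 * Real.pi + K2 := by
    have : |D| ≤ |D - D0| + |D0| := by
      calc |D| = |(D - D0) + D0| := by ring_nf
        _ ≤ _ := abs_add_le _ _
    have h4 : K2 / n ≤ K2 := div_le_self hK2' hn1
    have h5 := R7_dS_le r
    rw [← hD0] at h5
    linarith
  rw [e]
  calc _ ≤ |(s - s0) * (s + s0)| + |(D - D0) * (Real.sign r / 2 - I0)| + |D * (I0 - I)| :=
        abs_add_three _ _ _
    _ ≤ K1 / n * (2 + K1) + K2 / n * (1 / 2 + B) + (2 * Real.pi + K2) * (K3 / n) := by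
        rw [abs_mul, abs_mul, abs_mul, abs_sub_comm I0 I]
        gcongr
    _ = _ := by ring

end COE
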