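import Pool.Agent.LibCOE.Defs
import Pool.Agent.LibCOE.CO_R5
import Pool.Agent.LibCOE.CO_R7

/-! Row R8. Proof sketch:
For n > B: coe_pair and yN_lim: |∫ f (yN - gY)| <= (sup|f|) 2B C/n (f vanishes outside [-B,B]; integrability of yN, gY on
[-B,B]: bounded measurable). For the finitely many 0 < n <= B enlarge C (C >= n * |difference| for each). -/

open MeasureTheory Set Filter Topology

namespace COE

open QGr


theorem R8_meas_sign : Measurable Real.sign := by
  unfold Real.sign
  refine Measurable.ite measurableSet_Iio measurable_const ?_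
  exact Measurable.ite measurableSet_Ioi measurable_const measurable_const

theorem R8_sign_le (x : ℝ) : |Real.sign x| ≤ 1 := by
  rcases Real.sign_apply_eq x with h | h | h <;> rw [h] <;> norm_num

theorem R8_cont_f {f : ℝ → ℝ} {L : ℝ} (hL0 : 0 ≤ L)
    (hL : ∀ x y, |f x - f y| ≤ L * dist x y) : Continuous f := by
  have : LipschitzWith (Real.toNNReal L) f := by
    refine LipschitzWith.of_dist_le_mul fun x y => ?_
    rw [Real.dist_eq, Real.coe_toNNReal _ hL0]
    exact hL x y
  exact this.continuous

theorem R8_supp {f g : ℝ → ℝ} {B : ℝ} (hB : ∀ x, B < |x| → f x = 0) :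
    HasCompactSupport fun r => f r * g r := by
  refine HasCompactSupport.intro (K := Set.Icc (-B) B) isCompact_Icc ?_
  intro x hx
  have : B < |x| := by
    by_contra h
    push Not at h
    exact hx (abs_le.mp h)
  simp [hB x this]

theorem R8_int_yN {f : ℝ → ℝ} (hf : Continuous f) {B : ℝ} (hB : ∀ x, B < |x| → f x = 0) (n : ℕ) :
    Integrable fun r => f r * (1 - yN n r) := by
  have hS : Continuous fun r => kS n (Real.pi * r / n) := by
    unfold kS; fun_prop
  have hD : Continuous fun r => kD n (Real.pi * r / n) := by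
    unfold kD; fun_prop
  have hI : Continuous fun r => kI n (Real.pi * r / n) := by
    unfold kI; fun_prop
  have h1 : Integrable fun r => f r * (1 - (Real.pi / n) ^ 2 * (kS n (Real.pi * r / n) ^ 2 -
      kD n (Real.pi * r / n) * kI n (Real.pi * r / n))) := by
    refine Continuous.integrable_of_hasCompactSupport ?_ (R8_supp hB)
    fun_prop
  have h2 : Integrable fun r => f r * ((Real.pi / n) ^ 2 * kD n (Real.pi * r / n) / 2) := by
    refine Continuous.integrable_of_hasCompactSupport ?_ (R8_supp hB)
    fun_prop
  have h3 : Integrable fun r => Real.sign (Real.pi * r / n) *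
      (f r * ((Real.pi / n) ^ 2 * kD n (Real.pi * r / n) / 2)) := by
    refine h2.bdd_mul (c := 1) ?_ ?_
    · exact (R8_meas_sign.comp (by fun_prop)).aestronglyMeasurable
    · exact Filter.Eventually.of_forall fun x => by
        rw [Real.norm_eq_abs]
        exact R8_sign_le _
  refine (h1.sub h3).congr (Filter.Eventually.of_forall fun r => ?_)
  simp only [Pi.sub_apply, yN, kT]
  ring

theorem R8_meas_yN (n : ℕ) : Measurable (yN n) := by
  have hS : Continuous fun r => kS n (Real.pi * r / n) := by
    unfold kS; fun_prop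
  have hD : Continuous fun r => kD n (Real.pi * r / n) := by
    unfold kD; fun_prop
  have hI : Continuous fun r => kI n (Real.pi * r / n) := by
    unfold kI; fun_prop
  unfold yN kT
  refine Measurable.mul measurable_const (Measurable.add ?_ ?_)
  · exact (hS.pow 2).measurable
  · refine hD.measurable.mul (Measurable.sub ?_ hI.measurable)
    exact (R8_meas_sign.comp (by fun_prop)).div_const 2

theorem R8_cont_gS : Continuous gS := by
  unfold gS
  exact Real.continuous_sinc.comp (by fun_prop)

theorem R8_meas_gY : Measurable gY := by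
  unfold gY
  refine Measurable.add ?_ ?_
  · exact (R8_cont_gS.pow 2).measurable
  · refine (measurable_deriv gS).mul (Measurable.sub ?_ ?_)
    · exact R8_meas_sign.div_const 2
    · exact (intervalIntegral.continuous_primitive
        (fun a b => R8_cont_gS.intervalIntegrable a b) 0).measurable

theorem goe_pair (f : ℝ → ℝ) (L : ℝ) (hL0 : 0 ≤ L)
    (hL : ∀ x y, |f x - f y| ≤ L * dist x y) (B : ℝ) (hB : ∀ x, B < |x| → f x = 0) :
    ∃ C, ∀ n : ℕ, 0 < n →
      |coeCorr (n * 2) 0 (fun v => f (v 0)) - ∫ r, f r * (1 - gY r)| ≤ C / n := by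
  have hf := R8_cont_f hL0 hL
  obtain ⟨C, hC⟩ := yN_lim B
  have hfi : Integrable f := by
    have h := Continuous.integrable_of_hasCompactSupport (μ := volume)
      (f := fun r => f r * (1 : ℝ)) (by fun_prop) (R8_supp hB)
    simpa using h
  -- the remainder
  set E : ℕ → ℝ := fun n => |coeCorr (n * 2) 0 (fun v => f (v 0)) - ∫ r, f r * (1 - gY r)|
    with hE
  have hE0 : ∀ n, 0 ≤ E n := fun n => abs_nonneg _
  have main : ∀ n : ℕ, 0 < n → B < n → E n ≤ |C| * (∫ r, |f r|) / n := by
    intro n hn hBn
    have hn0 : (0 : ℝ) < n := by exact_mod_cast hn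
    have hb : ∀ r, ‖f r * (yN n r - gY r)‖ ≤ ‖|f r| * (|C| / n)‖ := by
      intro r
      rw [Real.norm_eq_abs, Real.norm_eq_abs, abs_mul]
      rw [abs_of_nonneg (by positivity : (0 : ℝ) ≤ |f r| * (|C| / n))]
      by_cases hr : |r| ≤ B
      · refine mul_le_mul_of_nonneg_left ?_ (abs_nonneg _)
        refine (hC n hn r hr).trans ?_
        gcongr
        exact le_abs_self C
      · rw [hB r (lt_of_not_ge hr)]
        simp
    have hi1 : Integrable fun r => |f r| * (|C| / n) := hfi.abs.mul_const _
    have hi2 : Integrable fun r => f r * (yN n r - gY r) := by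
      refine hi1.mono ?_ (Filter.Eventually.of_forall hb)
      exact (hf.measurable.mul ((R8_meas_yN n).sub R8_meas_gY)).aestronglyMeasurable
    have hi3 := R8_int_yN hf hB n
    have e1 : (∫ r, f r * (1 - gY r)) = (∫ r, f r * (1 - yN n r)) +
        ∫ r, f r * (yN n r - gY r) := by
      rw [← integral_add hi3 hi2]
      congr 1
      funext r
      ring
    rw [hE]
    simp only
    rw [coe_pair hn f L hL0 hL B hB hBn, e1, sub_add_cancel_left, abs_neg]
    calc |∫ r, f r * (yN n r - gY r)| ≤ ∫ r, |f r| * (|C| / n) := by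
          have h := norm_integral_le_of_norm_le (μ := volume) (f := fun r => f r * (yN n r - gY r))
            hi1 (Filter.Eventually.of_forall fun r => ?_)
          · rwa [Real.norm_eq_abs] at h
          · have h2 := hb r
            rwa [Real.norm_eq_abs (|f r| * (|C| / n)),
              abs_of_nonneg (by positivity : (0 : ℝ) ≤ |f r| * (|C| / n))] at h2
      _ = |C| * (∫ r, |f r|) / n := by
          rw [integral_mul_const]
          ring
  obtain ⟨M, hM⟩ := exists_nat_gt B
  refine ⟨|C| * (∫ r, |f r|) + ∑ m ∈ Finset.range (M + 1), m * E m, ?_⟩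
  intro n hn
  have hn0 : (0 : ℝ) < n := by exact_mod_cast hn
  have hI0 : 0 ≤ ∫ r, |f r| := integral_nonneg fun r => abs_nonneg _
  have hS0 : 0 ≤ ∑ m ∈ Finset.range (M + 1), (m : ℝ) * E m :=
    Finset.sum_nonneg fun m _ => mul_nonneg (by positivity) (hE0 m)
  show E n ≤ _
  by_cases h : B < n
  · refine (main n hn h).trans ?_
    gcongr
    linarith
  · push Not at h
    have hnM : n < M + 1 := by
      have : (n : ℝ) < M := h.trans_lt hM
      have : n < M := by exact_mod_cast this
      omega
    rw [le_div_iff₀ hn0]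
    have h1 : (n : ℝ) * E n ≤ ∑ m ∈ Finset.range (M + 1), (m : ℝ) * E m :=
      Finset.single_le_sum (f := fun m : ℕ => (m : ℝ) * E m)
        (fun m _ => mul_nonneg (by positivity) (hE0 m)) (Finset.mem_range.mpr hnM)
    have h2 : 0 ≤ |C| * ∫ r, |f r| := by positivity
    linarith

end COE
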