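import Pool.Agent.LibCOE.Def2
import Pool.Agent.LibCOE.CO_P1

/-! Row A1. Proof sketch:
pf_map: push f through the sum, the sign (zsmul) and the product. pf_coeff1: as the proof of pf_coeff (see
Pool/Agent/LibCOE/CO_P8.lean) one order lower: put Y = R M₁; B = 1 + X • (1/2 Y) satisfies Bᵀ M₀ B = M₀ + X M₁ + X^2 (..) (use
M₀ R = 1, Yᵀ M₀ = M₁ᵀ Rᵀ M₀ = (-M₁)(-R) M₀ ... = M₁), so modulo X^2 the Pfaffian is det B * pf M₀ (pf_mul; pf of two matrices that
agree modulo X^2 agree modulo X^2), det B = 1 + X/2 tr Y + ... (`Matrix.det_one_add_X_smul`, `Matrix.coeff_det_one_add_X_smul_one`). -/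

open MeasureTheory Set Filter Topology

namespace COE

open QGr


theorem pf_map {R T : Type} [CommRing R] [CommRing T] (f : R →+* T) {n : ℕ}
    (A : Matrix (Ix n) (Ix n) R) : pf (A.map f) = f (pf A) := by
  unfold pf
  rw [map_sum]
  refine Finset.sum_congr rfl fun σ _ => ?_
  rw [map_zsmul, map_prod]
  rfl

theorem A1_dvd {p q : Polynomial ℂ} (h : (Polynomial.X ^ 2 : Polynomial ℂ) ∣ p - q) :
    p.coeff 1 = q.coeff 1 := by
  have h1 := Polynomial.X_pow_dvd_iff.1 h 1 (by norm_num)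
  rw [Polynomial.coeff_sub] at h1
  exact sub_eq_zero.1 h1

theorem A1_quot {n : ℕ} {A B : Matrix (Ix n) (Ix n) (Polynomial ℂ)}
    (E : Matrix (Ix n) (Ix n) (Polynomial ℂ))
    (h : A = B + (Polynomial.X ^ 2 : Polynomial ℂ) • E) :
    A.map (Ideal.Quotient.mk (Ideal.span {(Polynomial.X ^ 2 : Polynomial ℂ)}))
      = B.map (Ideal.Quotient.mk (Ideal.span {(Polynomial.X ^ 2 : Polynomial ℂ)})) := by
  ext i j
  rw [Matrix.map_apply, Matrix.map_apply, Ideal.Quotient.eq, h, Matrix.add_apply,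
    Matrix.smul_apply, smul_eq_mul, add_sub_cancel_left]
  exact Ideal.mul_mem_right _ _ (Ideal.mem_span_singleton_self _)

theorem A1_pf_congr {n : ℕ} {A B : Matrix (Ix n) (Ix n) (Polynomial ℂ)}
    (E : Matrix (Ix n) (Ix n) (Polynomial ℂ))
    (h : A = B + (Polynomial.X ^ 2 : Polynomial ℂ) • E) :
    (pf A).coeff 1 = (pf B).coeff 1 := by
  refine A1_dvd (Ideal.mem_span_singleton.1 (Ideal.Quotient.eq.1 ?_))
  rw [← pf_map, ← pf_map]
  exact congrArg pf (A1_quot E h)

theorem pf_coeff1 {n : ℕ} (M₀ M₁ M₂ R : Matrix (Ix n) (Ix n) ℂ) (h0 : M₀.transpose = -M₀)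
    (h1 : M₁.transpose = -M₁) (h2 : M₂.transpose = -M₂) (hR : R * M₀ = 1) :
    (pf (M₀.map Polynomial.C + (Polynomial.X : Polynomial ℂ) • M₁.map Polynomial.C
      + (Polynomial.X ^ 2 : Polynomial ℂ) • M₂.map Polynomial.C)).coeff 1
      = pf M₀ * (1 / 2 * Matrix.trace (R * M₁)) := by
  have hR' : M₀ * R = 1 := mul_eq_one_comm.1 hR
  have hRt : R.transpose = -R := by
    have e1 : M₀.transpose * R.transpose = 1 := by
      rw [← Matrix.transpose_mul, hR, Matrix.transpose_one]
    rw [h0, Matrix.neg_mul] at e1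
    have e2 : M₀ * (-R.transpose) = 1 := by rw [Matrix.mul_neg, e1]
    have e3 : -R.transpose = R := by
      calc -R.transpose = (R * M₀) * (-R.transpose) := by rw [hR, Matrix.one_mul]
        _ = R * (M₀ * (-R.transpose)) := Matrix.mul_assoc _ _ _
        _ = R := by rw [e2, Matrix.mul_one]
    have e4 := congrArg Neg.neg e3
    rwa [neg_neg] at e4
  set Y : Matrix (Ix n) (Ix n) ℂ := (1 / 2 : ℂ) • (R * M₁) with hY
  have hYt : Y.transpose = (1 / 2 : ℂ) • (M₁ * R) := by
    rw [hY, Matrix.transpose_smul, Matrix.transpose_mul, h1, hRt, neg_mul_neg]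
  have hy : Y.transpose * M₀ + M₀ * Y = M₁ := by
    rw [hYt, hY, Matrix.smul_mul, Matrix.mul_smul, Matrix.mul_assoc, hR, Matrix.mul_one,
      ← Matrix.mul_assoc, hR', Matrix.one_mul]
    module
  have hmapm : ∀ A B : Matrix (Ix n) (Ix n) ℂ,
      A.map Polynomial.C * B.map Polynomial.C = (A * B).map Polynomial.C :=
    fun A B => (Matrix.map_mul (f := (Polynomial.C : ℂ →+* Polynomial ℂ))).symm
  have hmapa : ∀ A B : Matrix (Ix n) (Ix n) ℂ,
      A.map Polynomial.C + B.map Polynomial.C = (A + B).map Polynomial.C := by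
    intro A B
    ext1 i j
    simp
  have hy' : (Y.map Polynomial.C).transpose * M₀.map Polynomial.C
      + M₀.map Polynomial.C * Y.map Polynomial.C = M₁.map Polynomial.C := by
    rw [Matrix.transpose_map.symm, hmapm, hmapm, hmapa, hy]
  have hBt : (1 + (Polynomial.X : Polynomial ℂ) • Y.map Polynomial.C).transpose
      = 1 + (Polynomial.X : Polynomial ℂ) • (Y.map Polynomial.C).transpose := by
    rw [Matrix.transpose_add, Matrix.transpose_one, Matrix.transpose_smul]
  have hexp : M₀.map Polynomial.C + (Polynomial.X : Polynomial ℂ) • M₁.map Polynomial.C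
      + (Polynomial.X ^ 2 : Polynomial ℂ) • M₂.map Polynomial.C
      = (1 + (Polynomial.X : Polynomial ℂ) • Y.map Polynomial.C).transpose * M₀.map Polynomial.C
        * (1 + (Polynomial.X : Polynomial ℂ) • Y.map Polynomial.C)
        + (Polynomial.X ^ 2 : Polynomial ℂ) • (M₂.map Polynomial.C
          - (Y.map Polynomial.C).transpose * M₀.map Polynomial.C * Y.map Polynomial.C) := by
    rw [hBt, ← hy']
    simp only [add_mul, mul_add, one_mul, mul_one, smul_mul_assoc, mul_smul_comm, smul_add,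
      smul_sub, smul_smul, pow_two]
    module
  have h3 := A1_pf_congr _ hexp
  rw [pf_mul] at h3
  have t1 : Matrix.trace Y = 1 / 2 * Matrix.trace (R * M₁) := by
    rw [hY, Matrix.trace_smul, smul_eq_mul]
  rw [h3]
  have h4 : pf (M₀.map Polynomial.C) = Polynomial.C (pf M₀) := pf_map (Polynomial.C : ℂ →+* Polynomial ℂ) M₀
  rw [h4, Polynomial.coeff_mul_C, Matrix.coeff_det_one_add_X_smul_one, t1]
  ring

end COE
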