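import Pool.Agent.LibCOE.Def2
import Pool.Agent.LibCOE.CO_P2
import Pool.Agent.LibCOE.CO_P8
import Pool.Agent.LibCOE.CP_A1

/-! Row A2. Proof sketch:
Put P(X) = pf (J + X (A - J)) and D(X) = det (J + X (A - J)) as polynomials (J = Jm n, P by pf (J.map C + X • (A-J).map C + X^2 • 0),
evaluation by pf_eval; D similarly, `Polynomial.eval_det`/RingHom.map_det). For every t with D(t) ≠ 0: M = J + t(A-J) is skew and
invertible; expanding around t (P(t + X) = pf (M.map C + X • (A-J).map C), by evaluation at all points) pf_coeff1 gives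
P'(t) = P(t) * 1/2 tr (M⁻¹ (A-J)), and D'(t) = D(t) tr (M⁻¹(A-J)) (`Matrix.det_one_add_X_smul` for det (1 + X M⁻¹(A-J)), or
`Matrix.derivative_det_one_add_X_smul`). So with p = P^2: p' D = p D' at all t with D(t) ≠ 0, hence as polynomials (D ≠ 0 since
D(0) = det J = 1 ≠ 0; multiply by D, infinitely many points). Then p = c D: the polynomial r = D(0) p - p(0) D satisfies r' D = r D'
and r(0) = 0; if r ≠ 0 let X^k be the exact power of X in r (k >= 1): r'D has exact power k-1, rD' at least k, contradiction. So
D(0) p = p(0) D; evaluate at 1: pf A^2 = pf J^2 det A. (det (Jm n) = 1: Jm = block diagonal `Matrix.det_blockDiagonal`, or avoid it: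
only det J ≠ 0 and J * (-J) = 1 ⇒ det J ^ 2 = 1 .. then fix det J = 1 by `Matrix.det_blockDiagonal`.) -/

open MeasureTheory Set Filter Topology

namespace COE

open QGr


theorem A2_detJ (n : ℕ) : (Jm n).det = 1 := by
  have h : Jm n = (Matrix.blockDiagonal fun _ : Fin n => (!![0, 1; -1, 0] : Matrix (Fin 2) (Fin 2) ℂ)).submatrix
      (Equiv.prodComm (Fin n) (Fin 2)) (Equiv.prodComm (Fin n) (Fin 2)) := by
    ext ⟨a, i⟩ ⟨b, j⟩
    by_cases hab : a = b
    · subst hab
      fin_cases i <;> fin_cases j <;> simp [Jm, Matrix.blockDiagonal_apply]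
    · simp [Jm, Matrix.blockDiagonal_apply, hab]
  rw [h, Matrix.det_submatrix_equiv_self, Matrix.det_blockDiagonal]
  simp [Matrix.det_fin_two]

theorem A2_Jskew (n : ℕ) : (Jm n).transpose = -Jm n := by
  ext ⟨a, i⟩ ⟨b, j⟩
  by_cases hab : a = b
  · subst hab
    fin_cases i <;> fin_cases j <;> simp [Jm]
  · simp [Jm, hab, Ne.symm hab]

theorem A2_poly {r D : Polynomial ℂ} (h0 : r.coeff 0 = 0) (hD : D.coeff 0 ≠ 0)
    (h : Polynomial.derivative r * D = r * Polynomial.derivative D) : r = 0 := by
  have key : ∀ k, r.coeff k = 0 := by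
    intro k
    induction k using Nat.strong_induction_on with
    | _ k ih =>
      rcases Nat.eq_zero_or_pos k with hk | hk
      · rw [hk]; exact h0
      · obtain ⟨l, rfl⟩ : ∃ l, k = l + 1 := ⟨k - 1, by omega⟩
        have h1 := congrArg (fun p => Polynomial.coeff p l) h
        beta_reduce at h1
        rw [Polynomial.coeff_mul, Polynomial.coeff_mul] at h1
        have h2 : ∑ x ∈ Finset.HasAntidiagonal.antidiagonal l, r.coeff x.1 * (Polynomial.derivative D).coeff x.2
            = 0 := by
          refine Finset.sum_eq_zero fun x hx => ?_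
          have hx' := Finset.HasAntidiagonal.mem_antidiagonal.1 hx
          rw [ih x.1 (by omega), zero_mul]
        rw [h2, Finset.sum_eq_single (l, 0)] at h1
        · rw [Polynomial.coeff_derivative] at h1
          have h3 : ((l : ℂ) + 1) ≠ 0 := by exact_mod_cast Nat.succ_ne_zero l
          rcases mul_eq_zero.1 h1 with h4 | h4
          · rcases mul_eq_zero.1 h4 with h5 | h5
            · exact h5
            · exact absurd h5 h3
          · exact absurd h4 hD
        · intro x hx hne
          have hx' := Finset.HasAntidiagonal.mem_antidiagonal.1 hx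
          have hlt : x.1 < l := by
            rcases lt_or_ge x.1 l with h5 | h5
            · exact h5
            · exfalso
              apply hne
              have h6 : x.1 = l := by omega
              have h7 : x.2 = 0 := by omega
              exact Prod.ext h6 h7
          rw [Polynomial.coeff_derivative, ih (x.1 + 1) (by omega), zero_mul, zero_mul]
        · intro hx
          exact absurd (Finset.HasAntidiagonal.mem_antidiagonal.2 (by simp)) hx
  ext k
  rw [key k, Polynomial.coeff_zero]

theorem pf_sq {n : ℕ} (A : Matrix (Ix n) (Ix n) ℂ) (h : A.transpose = -A) :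
    pf A ^ 2 = pf (Jm n) ^ 2 * A.det := by
  classical
  set B := A - Jm n with hB
  have hBs : B.transpose = -B := by
    rw [hB, Matrix.transpose_sub, h, A2_Jskew]; abel
  have hz : (0 : Matrix (Ix n) (Ix n) ℂ).transpose = -0 := by simp
  set F : Matrix (Ix n) (Ix n) ℂ → Polynomial ℂ := fun M =>
    pf (M.map Polynomial.C + (Polynomial.X : Polynomial ℂ) • B.map Polynomial.C
      + (Polynomial.X ^ 2 : Polynomial ℂ) • (0 : Matrix (Ix n) (Ix n) ℂ).map Polynomial.C) with hF
  set G : Matrix (Ix n) (Ix n) ℂ → Polynomial ℂ := fun M =>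
    Matrix.det (M.map Polynomial.C + (Polynomial.X : Polynomial ℂ) • B.map Polynomial.C) with hG
  have eF : ∀ M t, (F M).eval t = pf (M + t • B) := by
    intro M t
    rw [hF]
    simp only
    rw [pf_eval, smul_zero, add_zero]
  have eG : ∀ M t, (G M).eval t = (M + t • B).det := by
    intro M t
    rw [hG]
    simp only
    have h1 := RingHom.map_det (Polynomial.evalRingHom t)
      (M.map Polynomial.C + (Polynomial.X : Polynomial ℂ) • B.map Polynomial.C)
    rw [Polynomial.coe_evalRingHom] at h1
    rw [h1]
    congr 1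
    ext i j
    simp only [RingHom.mapMatrix_apply, Matrix.map_apply, Matrix.add_apply, Matrix.smul_apply,
      smul_eq_mul, map_add, Polynomial.coe_evalRingHom, Polynomial.eval_C]
    rw [Polynomial.eval_mul, Polynomial.eval_X, Polynomial.eval_C]
  have tF : ∀ t, Polynomial.taylor t (F (Jm n)) = F (Jm n + t • B) := by
    intro t
    refine Polynomial.funext fun s => ?_
    rw [Polynomial.taylor_eval, eF, eF]
    congr 1
    module
  have tG : ∀ t, Polynomial.taylor t (G (Jm n)) = G (Jm n + t • B) := by
    intro t
    refine Polynomial.funext fun s => ?_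
    rw [Polynomial.taylor_eval, eG, eG]
    congr 1
    module
  have dF : ∀ t, (Jm n + t • B).det ≠ 0 → (Polynomial.derivative (F (Jm n))).eval t
      = (F (Jm n)).eval t * (1 / 2 * Matrix.trace ((Jm n + t • B)⁻¹ * B)) := by
    intro t ht
    rw [← Polynomial.taylor_coeff_one, tF, hF]
    simp only
    rw [pf_coeff1 (Jm n + t • B) B 0 (Jm n + t • B)⁻¹ ?_ hBs hz
      (Matrix.nonsing_inv_mul _ (isUnit_iff_ne_zero.2 ht)), pf_eval, smul_zero, add_zero]
    rw [Matrix.transpose_add, Matrix.transpose_smul, hBs, A2_Jskew]
    module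
  have dG : ∀ t, (Jm n + t • B).det ≠ 0 → (Polynomial.derivative (G (Jm n))).eval t
      = (G (Jm n)).eval t * Matrix.trace ((Jm n + t • B)⁻¹ * B) := by
    intro t ht
    rw [← Polynomial.taylor_coeff_one, tG, eG, hG]
    simp only
    set M := Jm n + t • B with hM
    have e : M.map Polynomial.C + (Polynomial.X : Polynomial ℂ) • B.map Polynomial.C
        = M.map Polynomial.C * (1 + (Polynomial.X : Polynomial ℂ) • (M⁻¹ * B).map Polynomial.C) := by
      have h1 : (M⁻¹ * B).map Polynomial.C = (M⁻¹).map Polynomial.C * B.map Polynomial.C := by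
        have := (Polynomial.C : ℂ →+* Polynomial ℂ).mapMatrix.map_mul M⁻¹ B
        simpa using this
      have h2 : M.map Polynomial.C * (M⁻¹).map Polynomial.C = 1 := by
        have := (Polynomial.C : ℂ →+* Polynomial ℂ).mapMatrix.map_mul M M⁻¹
        rw [Matrix.mul_nonsing_inv _ (isUnit_iff_ne_zero.2 ht), map_one] at this
        simpa using this.symm
      rw [h1, mul_add, mul_one, mul_smul_comm, ← mul_assoc, h2, one_mul]
    rw [e, Matrix.det_mul]
    have h3 : (M.map Polynomial.C).det = Polynomial.C M.det := by
      have := RingHom.map_det (Polynomial.C : ℂ →+* Polynomial ℂ) M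
      simpa using this.symm
    rw [h3, Polynomial.coeff_C_mul, Matrix.coeff_det_one_add_X_smul_one]
  set P := F (Jm n) with hP
  set D := G (Jm n) with hD
  have hD0 : D.eval 0 = 1 := by
    rw [hD, eG, zero_smul, add_zero, A2_detJ]
  have hDne : D ≠ 0 := by
    intro h0
    rw [h0, Polynomial.eval_zero] at hD0
    exact zero_ne_one hD0
  have hQ : Polynomial.derivative (P ^ 2) * D = P ^ 2 * Polynomial.derivative D := by
    have h1 : (Polynomial.derivative (P ^ 2) * D - P ^ 2 * Polynomial.derivative D) * D = 0 := by
      refine Polynomial.funext fun t => ?_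
      rw [Polynomial.eval_mul, Polynomial.eval_zero]
      by_cases ht : (Jm n + t • B).det = 0
      · rw [hD, eG, ht, mul_zero]
      · have h2 := dF t ht
        have h3 := dG t ht
        rw [Polynomial.eval_sub, Polynomial.eval_mul, Polynomial.eval_mul, Polynomial.derivative_sq,
          Polynomial.eval_mul, Polynomial.eval_mul, Polynomial.eval_pow, h2, h3]
        simp only [Polynomial.eval_C]
        ring
    rcases mul_eq_zero.1 h1 with h2 | h2
    · exact sub_eq_zero.1 h2
    · exact absurd h2 hDne
  have hr : P ^ 2 - Polynomial.C ((P ^ 2).eval 0) * D = 0 := by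
    refine A2_poly (D := D) ?_ ?_ ?_
    · rw [Polynomial.coeff_zero_eq_eval_zero, Polynomial.eval_sub, Polynomial.eval_mul, hD0,
        Polynomial.eval_C]
      ring
    · rw [Polynomial.coeff_zero_eq_eval_zero, hD0]; exact one_ne_zero
    · rw [Polynomial.derivative_sub, Polynomial.derivative_C_mul]
      linear_combination hQ
  have h1 := congrArg (Polynomial.eval 1) (sub_eq_zero.1 hr)
  rw [Polynomial.eval_mul, Polynomial.eval_pow, Polynomial.eval_pow, Polynomial.eval_C, hP, eF, eF,
    hD, eG, one_smul, zero_smul, add_zero, hB] at h1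
  rw [show Jm n + (A - Jm n) = A by abel] at h1
  exact h1

end COE
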