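import Pool.Agent.LibCOE.Def2
import Pool.Agent.LibCOE.CO_P2
import Pool.Agent.LibCOE.CO_P8
import Pool.Agent.LibCOE.CP_A2

/-! Row A3. Proof sketch:
f(s) = pf (A + s • WᵀTW) * pf C and g(s) = pf A * pf (C + s • W R Wᵀ) are polynomials in s (pf_eval with M₂ = 0). T, R are skew
(inverses of skew matrices: R A = 1 ⇒ A R = 1, Rᵀ = -R). pf_sq: f² = c² det (A + s WᵀTW) det C, g² = c² det A det (C + s W R Wᵀ),
c = pf J ^ 2; det (A + s WᵀTW) = det A det (1 + s R Wᵀ T W), det (C + s W R Wᵀ) = det C det (1 + s T W R Wᵀ), equal by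
`Matrix.det_one_add_mul_comm` (R Wᵀ and T W). So (f - g)(f + g) = 0 as polynomials, and f(0) = g(0) = pf A pf C ≠ 0 (pf_sq, det ≠ 0,
pf_Jm) so f + g ≠ 0, hence f = g; evaluate at s = 1. -/

open MeasureTheory Set Filter Topology

namespace COE

open QGr


theorem pf_sylv {n q : ℕ} (A R : Matrix (Ix n) (Ix n) ℂ) (C T : Matrix (Ix q) (Ix q) ℂ)
    (W : Matrix (Ix q) (Ix n) ℂ) (hA : A.transpose = -A) (hC : C.transpose = -C) (hR : R * A = 1)
    (hT : T * C = 1) :
    pf (A + W.transpose * T * W) * pf C = pf A * pf (C + W * R * W.transpose) := by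
  classical
  have hR' : A * R = 1 := mul_eq_one_comm.1 hR
  have hT' : C * T = 1 := mul_eq_one_comm.1 hT
  have hRs : R.transpose = -R := by
    have h1 : R.transpose * A = -1 := by
      have h2 := congrArg Matrix.transpose hR'
      rw [Matrix.transpose_mul, Matrix.transpose_one, hA, mul_neg] at h2
      rw [← h2, neg_neg]
    calc R.transpose = R.transpose * (A * R) := by rw [hR', mul_one]
      _ = (R.transpose * A) * R := by rw [mul_assoc]
      _ = -R := by rw [h1, neg_mul, one_mul]
  have hTs : T.transpose = -T := by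
    have h1 : T.transpose * C = -1 := by
      have h2 := congrArg Matrix.transpose hT'
      rw [Matrix.transpose_mul, Matrix.transpose_one, hC, mul_neg] at h2
      rw [← h2, neg_neg]
    calc T.transpose = T.transpose * (C * T) := by rw [hT', mul_one]
      _ = (T.transpose * C) * T := by rw [mul_assoc]
      _ = -T := by rw [h1, neg_mul, one_mul]
  have hX : (W.transpose * T * W).transpose = -(W.transpose * T * W) := by
    rw [Matrix.transpose_mul, Matrix.transpose_mul, Matrix.transpose_transpose, hTs]
    simp [Matrix.mul_assoc]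
  have hY : (W * R * W.transpose).transpose = -(W * R * W.transpose) := by
    rw [Matrix.transpose_mul, Matrix.transpose_mul, Matrix.transpose_transpose, hRs]
    simp [Matrix.mul_assoc]
  have hdA : A.det ≠ 0 := by
    intro h0
    have h1 := congrArg Matrix.det hR
    rw [Matrix.det_mul, h0, mul_zero, Matrix.det_one] at h1
    exact zero_ne_one h1
  have hdC : C.det ≠ 0 := by
    intro h0
    have h1 := congrArg Matrix.det hT
    rw [Matrix.det_mul, h0, mul_zero, Matrix.det_one] at h1
    exact zero_ne_one h1
  have hpA : pf A ≠ 0 := by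
    intro h0
    have h1 := pf_sq A hA
    rw [h0, zero_pow two_ne_zero] at h1
    rcases mul_eq_zero.1 h1.symm with h2 | h2
    · exact pf_Jm n (pow_eq_zero_iff two_ne_zero |>.1 h2)
    · exact hdA h2
  have hpC : pf C ≠ 0 := by
    intro h0
    have h1 := pf_sq C hC
    rw [h0, zero_pow two_ne_zero] at h1
    rcases mul_eq_zero.1 h1.symm with h2 | h2
    · exact pf_Jm q (pow_eq_zero_iff two_ne_zero |>.1 h2)
    · exact hdC h2
  set f : Polynomial ℂ := pf (A.map Polynomial.C + (Polynomial.X : Polynomial ℂ) •
    (W.transpose * T * W).map Polynomial.C + (Polynomial.X ^ 2 : Polynomial ℂ) •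
      (0 : Matrix (Ix n) (Ix n) ℂ).map Polynomial.C) * Polynomial.C (pf C) with hf
  set g : Polynomial ℂ := Polynomial.C (pf A) * pf (C.map Polynomial.C +
    (Polynomial.X : Polynomial ℂ) • (W * R * W.transpose).map Polynomial.C +
      (Polynomial.X ^ 2 : Polynomial ℂ) • (0 : Matrix (Ix q) (Ix q) ℂ).map Polynomial.C) with hg
  have ef : ∀ t, f.eval t = pf (A + t • (W.transpose * T * W)) * pf C := by
    intro t
    rw [hf, Polynomial.eval_mul, pf_eval, smul_zero, add_zero, Polynomial.eval_C]
  have eg : ∀ t, g.eval t = pf A * pf (C + t • (W * R * W.transpose)) := by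
    intro t
    rw [hg, Polynomial.eval_mul, pf_eval, smul_zero, add_zero, Polynomial.eval_C]
  have sq : ∀ t, f.eval t ^ 2 = g.eval t ^ 2 := by
    intro t
    rw [ef, eg, mul_pow, mul_pow, pf_sq C hC, pf_sq A hA, pf_sq (A + t • (W.transpose * T * W)),
      pf_sq (C + t • (W * R * W.transpose))]
    · have h1 : (A + t • (W.transpose * T * W)).det = A.det * (1 + (t • (R * W.transpose)) * (T * W)).det := by
        rw [← Matrix.det_mul]
        congr 1
        rw [mul_add, mul_one, Matrix.smul_mul, Matrix.mul_smul]
        congr 2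
        rw [← Matrix.mul_assoc, ← Matrix.mul_assoc, ← Matrix.mul_assoc, hR', Matrix.one_mul]
      have h2 : (C + t • (W * R * W.transpose)).det
          = C.det * (1 + (T * W) * (t • (R * W.transpose))).det := by
        rw [← Matrix.det_mul]
        congr 1
        rw [mul_add, mul_one, Matrix.mul_smul, Matrix.mul_smul]
        congr 2
        rw [← Matrix.mul_assoc, ← Matrix.mul_assoc, ← Matrix.mul_assoc, hT', Matrix.one_mul]
      rw [h1, h2, Matrix.det_one_add_mul_comm]
      ring
    · rw [Matrix.transpose_add, Matrix.transpose_smul, hC, hY, smul_neg]; abel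
    · rw [Matrix.transpose_add, Matrix.transpose_smul, hA, hX, smul_neg]; abel
  have hprod : (f - g) * (f + g) = 0 := by
    refine Polynomial.funext fun t => ?_
    rw [Polynomial.eval_mul, Polynomial.eval_sub, Polynomial.eval_add, Polynomial.eval_zero]
    linear_combination sq t
  rcases mul_eq_zero.1 hprod with h1 | h1
  · have h2 := congrArg (Polynomial.eval 1) (sub_eq_zero.1 h1)
    rw [ef, eg, one_smul, one_smul] at h2
    exact h2
  · exfalso
    have h2 := congrArg (Polynomial.eval 0) h1
    rw [Polynomial.eval_add, ef, eg, zero_smul, zero_smul, add_zero, add_zero,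
      Polynomial.eval_zero] at h2
    have h3 : pf A * pf C = 0 := by linear_combination 1 / 2 * h2
    rcases mul_eq_zero.1 h3 with h4 | h4
    · exact hpA h4
    · exact hpC h4

end COE
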