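import Pool.Agent.LibCOE.Def2
import Pool.Agent.LibCOE.CO_P1

/-! Row A4. Proof sketch:
Tm_mul: entrywise, `Fintype.sum_prod_type`, `Fin.sum_univ_two`; block form [t²s, -t; t, 0] [0, 1/t; -1/t, s] = 1. pf_Cm: Cm u s =
Bᵀ (Jm q) B with B the block matrix [u, -s/2; 0, 1] (B ((a,0),(b,0)) = u δ, B ((a,0),(b,1)) = -s a b / 2, B ((a,1),(b,1)) = δ): check
entrywise using sᵀ = -s (for [u, X; 0, 1]: Bᵀ J B = [0, u; -u, Xᵀ - X]; Xᵀ - X = s). det B = u^q: block triangular
(`Matrix.det_of_upperTriangular` / reindex to Sum and `Matrix.det_fromBlocks_zero₂₁`: Ix q = Fin q × Fin 2 ≃ Fin q ⊕ Fin q). -/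

open MeasureTheory Set Filter Topology

namespace COE

open QGr


theorem Tm_mul {q : ℕ} (t : ℂ) (ht : t ≠ 0) (s : Matrix (Fin q) (Fin q) ℂ) :
    Tm t s * Cm t⁻¹ s = 1 := by
  have h : ∀ c d : ℂ, t ^ 2 * c * t⁻¹ - t * c = 0 := by
    intro c _
    field_simp
    ring
  ext ⟨a, i⟩ ⟨b, j⟩
  rw [Matrix.mul_apply, Fintype.sum_prod_type]
  simp only [Fin.sum_univ_two]
  by_cases hab : a = b
  · subst hab
    fin_cases i <;> fin_cases j <;>
      simp [Tm, Cm, Finset.sum_add_distrib, ht]
    have := h (s a a) 0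
    linear_combination this
  · have hba : ¬ b = a := fun h => hab h.symm
    fin_cases i <;> fin_cases j <;>
      simp [Tm, Cm, Finset.sum_add_distrib, ht, hab]
    have := h (s a b) 0
    linear_combination this

/-- the pairs as a sum type -/
def A4_e (q : ℕ) : Fin q ⊕ Fin q ≃ Ix q where
  toFun := Sum.elim (fun a => (a, 0)) (fun a => (a, 1))
  invFun p := if p.2 = 0 then Sum.inl p.1 else Sum.inr p.1
  left_inv x := by rcases x with a | a <;> simp
  right_inv p := by
    obtain ⟨a, i⟩ := p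
    fin_cases i <;> simp

/-- the change of basis -/
noncomputable def A4_B {q : ℕ} (u : ℂ) (s : Matrix (Fin q) (Fin q) ℂ) : Matrix (Ix q) (Ix q) ℂ := fun a b =>
  if a.2 = 0 then (if b.2 = 0 then (if a.1 = b.1 then u else 0) else -s a.1 b.1 / 2)
  else (if b.2 = 0 then 0 else if a.1 = b.1 then 1 else 0)

theorem A4_det {q : ℕ} (u : ℂ) (s : Matrix (Fin q) (Fin q) ℂ) : (A4_B u s).det = u ^ q := by
  rw [← Matrix.det_submatrix_equiv_self (A4_e q)]
  have h : (A4_B u s).submatrix (A4_e q) (A4_e q) =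
      Matrix.fromBlocks (u • (1 : Matrix (Fin q) (Fin q) ℂ)) (Matrix.of fun a b => -s a b / 2) 0 1 := by
    ext x y
    rcases x with a | a <;> rcases y with b | b <;> by_cases hab : a = b <;>
      simp [A4_e, A4_B, Matrix.one_apply, hab]
  rw [h, Matrix.det_fromBlocks_zero₂₁, Matrix.det_one, mul_one, Matrix.det_smul, Matrix.det_one,
    mul_one, Fintype.card_fin]

theorem pf_Cm {q : ℕ} (u : ℂ) (s : Matrix (Fin q) (Fin q) ℂ) (hs : s.transpose = -s) :
    pf (Cm u s) = u ^ q * pf (Jm q) := by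
  have hs' : ∀ a b, s b a = -s a b := by
    intro a b
    have := congrFun (congrFun hs a) b
    simpa using this
  have h : Cm u s = (A4_B u s).transpose * Jm q * A4_B u s := by
    ext ⟨a, i⟩ ⟨b, j⟩
    rw [Matrix.mul_apply, Fintype.sum_prod_type]
    simp only [Fin.sum_univ_two, Matrix.mul_apply, Fintype.sum_prod_type, Matrix.transpose_apply]
    by_cases hab : a = b
    · subst hab
      have h0 : s a a = 0 := by
        have := hs' a a
        linear_combination (1 / 2) * this
      fin_cases i <;> fin_cases j <;>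
        simp [A4_B, Jm, Cm, h0]
    · have hba : ¬ b = a := fun h => hab h.symm
      fin_cases i <;> fin_cases j <;>
        simp [A4_B, Jm, Cm, Finset.sum_add_distrib, hab, hba]
      rw [hs' a b]
      ring
  rw [h, pf_mul, A4_det]

end COE
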