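import Pool.Agent.LibCOE.Def2
import Pool.Agent.LibCOE.CO_P2
import Pool.Agent.LibCOE.CP_A3
import Pool.Agent.LibCOE.CP_A4

/-! Row A5. Proof sketch:
For t > 0 pf_sylv with T = Tm t s, C = Cm t⁻¹ s: pf (A + WᵀTW) pf (Cm t⁻¹ s) = pf A pf (Cm t⁻¹ s + W R Wᵀ), and pf (Cm t⁻¹ s) =
t⁻¹^q pf (Jm q). So the quotient equals pf A * pf (Cm t⁻¹ s + W R Wᵀ) / pf (Jm q), and it tends to the value at u = 0 because
u ↦ pf (Cm u s + K) is continuous (a finite sum of products; entries continuous in u), t⁻¹ → 0. (Cm u s is skew since s is.) -/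

open MeasureTheory Set Filter Topology

namespace COE

open QGr


theorem A5_Cm_skew {q : ℕ} (u : ℂ) (s : Matrix (Fin q) (Fin q) ℂ) (hs : s.transpose = -s) :
    (Cm u s).transpose = -Cm u s := by
  ext a b
  rw [Matrix.transpose_apply, Matrix.neg_apply]
  have hs' : s b.1 a.1 = -s a.1 b.1 := by
    have := congrFun (congrFun hs a.1) b.1
    rwa [Matrix.transpose_apply, Matrix.neg_apply] at this
  unfold Cm
  by_cases ha : a.2 = 0 <;> by_cases hb : b.2 = 0
  · simp [ha, hb]
  · by_cases h : a.1 = b.1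
    · simp [ha, hb, h]
    · simp [ha, hb, h, Ne.symm h]
  · by_cases h : a.1 = b.1
    · simp [ha, hb, h]
    · simp [ha, hb, h, Ne.symm h]
  · simp [ha, hb, hs']

theorem A5_cont {q : ℕ} (s : Matrix (Fin q) (Fin q) ℂ) (K : Matrix (Ix q) (Ix q) ℂ) :
    Continuous fun u : ℂ => pf (Cm u s + K) := by
  have hent : ∀ a b : Ix q, Continuous fun u : ℂ => (Cm u s + K) a b := by
    intro a b
    have h1 : Continuous fun u : ℂ => Cm u s a b := by
      unfold Cm
      by_cases ha : a.2 = 0 <;> by_cases hb : b.2 = 0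
      · simp only [ha, hb, if_true]
        exact continuous_const
      · by_cases h : a.1 = b.1
        · simp only [ha, hb, h, if_true, if_false]
          exact continuous_id
        · simp only [ha, hb, h, if_true, if_false]
          exact continuous_const
      · by_cases h : a.1 = b.1
        · simp only [ha, hb, h, if_true, if_false]
          exact continuous_neg
        · simp only [ha, hb, h, if_true, if_false]
          exact continuous_const
      · simp only [ha, hb, if_false]
        exact continuous_const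
    simp only [Matrix.add_apply]
    exact h1.add continuous_const
  unfold pf
  apply continuous_finsetSum
  intro σ _
  apply Continuous.const_smul
  apply continuous_finsetProd
  intro i _
  exact hent _ _

theorem pf_lim {n q : ℕ} (A R : Matrix (Ix n) (Ix n) ℂ) (W : Matrix (Ix q) (Ix n) ℂ)
    (s : Matrix (Fin q) (Fin q) ℂ) (hA : A.transpose = -A) (hR : R * A = 1)
    (hs : s.transpose = -s) :
    Tendsto (fun t : ℝ => pf (A + W.transpose * Tm (t : ℂ) s * W) / (t : ℂ) ^ q) atTop
      (𝓝 (pf A * pf (Cm 0 s + W * R * W.transpose) / pf (Jm q))) := by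
  have heq : ∀ t : ℝ, 0 < t → pf (A + W.transpose * Tm (t : ℂ) s * W) / (t : ℂ) ^ q
      = pf A * pf (Cm ((t:ℂ)⁻¹) s + W * R * W.transpose) / pf (Jm q) := by
    intro t ht
    have ht' : (t:ℂ) ≠ 0 := by exact_mod_cast ht.ne'
    have h := pf_sylv A R (Cm (t:ℂ)⁻¹ s) (Tm (t:ℂ) s) W hA (A5_Cm_skew _ s hs) hR (Tm_mul _ ht' s)
    rw [pf_Cm _ s hs] at h
    have hJ := pf_Jm q
    rw [div_eq_div_iff (pow_ne_zero _ ht') hJ, ← h, inv_pow]
    field_simp
  have hlim : Tendsto (fun t : ℝ => pf A * pf (Cm ((t:ℂ)⁻¹) s + W * R * W.transpose) / pf (Jm q))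
      atTop (𝓝 (pf A * pf (Cm 0 s + W * R * W.transpose) / pf (Jm q))) := by
    apply Tendsto.div_const
    apply Tendsto.const_mul
    have hinv : Tendsto (fun t : ℝ => ((t:ℂ)⁻¹)) atTop (𝓝 0) := by
      have h1 : Tendsto (fun t : ℝ => ((t⁻¹ : ℝ) : ℂ)) atTop (𝓝 ((0:ℝ) : ℂ)) :=
        (Complex.continuous_ofReal.tendsto 0).comp tendsto_inv_atTop_zero
      refine (h1.congr fun t => ?_)
      push_cast
      rfl
    exact ((A5_cont s (W * R * W.transpose)).tendsto 0).comp hinv
  refine hlim.congr' ?_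
  filter_upwards [eventually_gt_atTop 0] with t ht
  exact (heq t ht).symm

end COE
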