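import Pool.Agent.LibCOE.Def2
import Pool.Agent.LibCOE.CO_P1
import Pool.Agent.LibCOE.CO_P10
import Pool.Agent.LibCOE.CP_A1

/-! Row A6. Proof sketch:
Let r = x a - x b. Entrywise, using Rm k l = 0 unless l = rv k, Rm k (rv k) = I * hp (rv k)/(4π) = -I hp k/(4π), sum over k
(rv is an involution, hp (rv k) = - hp k, reindex by k ↦ rv k to cancel the odd parts): (W Rm Wᵀ)((a,0),(b,0)) = ∑ e^{i hp k r} (-i hp k)/(4π)
= -1/2 kD n r; ((a,0),(b,1)) = 1/(2π) ∑ e^{i hp k r} = kS n r; ((a,1),(b,0)) = -kS n r; ((a,1),(b,1)) = 1/π ∑ sin (hp k r)/hp k =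
2 kI n r, and Cm 0 (sg x) adds Real.sign (x b - x a) = -sign r to the (1,1) block, total -2 kJ n r: for x a, x b in (0, 2π] |r| < 2π
so sign (sin (r/2)) = sign r. Hence the matrix is Eᵀ (KM ..).map ofReal E with E diagonal, 1/√2 on (a,0) and √2 on (a,1), det E = 1
(`Matrix.det_diagonal`, product over Fin q × Fin 2), then pf_mul and pf_map (Complex.ofRealHom). -/

open MeasureTheory Set Filter Topology

namespace COE

open QGr


theorem A6_rv {n : ℕ} (k : Ix n) : rv (rv k) = k := by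
  obtain ⟨a, i⟩ := k
  simp [rv]

theorem A6_odd {n : ℕ} (f : Ix n → ℂ) (hf : ∀ k, f (rv k) = -f k) : ∑ k, f k = 0 := by
  have h1 : ∑ k, f (rv k) = ∑ k, f k :=
    Equiv.sum_comp (Function.Involutive.toPerm (rv (n := n)) A6_rv) f
  simp only [hf] at h1
  rw [Finset.sum_neg_distrib] at h1
  linear_combination (-1 / 2) * h1

theorem A6_ep {n : ℕ} (k : Ix n) (s t : ℝ) :
    ep k s * ep (rv k) t = ((Real.cos (hp k * (s - t)) : ℝ) : ℂ)
      + ((Real.sin (hp k * (s - t)) : ℝ) : ℂ) * Complex.I := by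
  unfold ep
  rw [hp_rv, ← Complex.exp_add, show ((hp k * s : ℝ) : ℂ) * Complex.I + ((-hp k * t : ℝ) : ℂ) * Complex.I
    = ((hp k * (s - t) : ℝ) : ℂ) * Complex.I by push_cast; ring, Complex.exp_mul_I,
    ← Complex.ofReal_cos, ← Complex.ofReal_sin]

theorem A6_entry {n q : ℕ} (x : Fin q → ℝ) (a b : Ix q) :
    (Wx n x * Rm n * (Wx n x).transpose) a b =
      ∑ k, Wx n x a k * (Complex.I * hp (rv k) / (4 * Real.pi)) * Wx n x b (rv k) := by
  simp only [Matrix.mul_apply, Matrix.transpose_apply, Rm, Finset.sum_mul]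
  rw [Finset.sum_comm]
  refine Finset.sum_congr rfl fun k _ => ?_
  rw [Finset.sum_eq_single (rv k)]
  · rw [if_pos rfl]
  · intro l _ hl
    rw [if_neg hl]
    ring
  · intro h
    exact absurd (Finset.mem_univ _) h

theorem A6_sign {r : ℝ} (h1 : -(2 * Real.pi) < r) (h2 : r < 2 * Real.pi) :
    Real.sign (Real.sin (r / 2)) = Real.sign r := by
  rcases lt_trichotomy r 0 with h | h | h
  · rw [Real.sign_of_neg h, Real.sign_of_neg]
    exact Real.sin_neg_of_neg_of_neg_pi_lt (by linarith) (by linarith)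
  · subst h
    simp
  · rw [Real.sign_of_pos h, Real.sign_of_pos]
    exact Real.sin_pos_of_pos_of_lt_pi (by linarith) (by linarith)

theorem A6_00 {n q : ℕ} (x : Fin q → ℝ) (a b : Fin q) :
    (Wx n x * Rm n * (Wx n x).transpose) (a, 0) (b, 0) = ((-(1 / 2) * kD n (x a - x b) : ℝ) : ℂ) := by
  rw [A6_entry]
  have hpi : (Real.pi : ℂ) ≠ 0 := by exact_mod_cast Real.pi_ne_zero
  have h1 : ∀ k : Ix n, Wx n x (a, 0) k * (Complex.I * hp (rv k) / (4 * Real.pi)) * Wx n x (b, 0) (rv k) =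
      ((1 / (4 * Real.pi) * (hp k * Real.sin (hp k * (x a - x b))) : ℝ) : ℂ) +
      (-Complex.I * hp k * ((Real.cos (hp k * (x a - x b)) : ℝ) : ℂ) / (4 * Real.pi)) := by
    intro k
    have h2 := A6_ep k (x a) (x b)
    unfold Wx
    simp only [if_true]
    rw [show ep k (x a) * (Complex.I * hp (rv k) / (4 * Real.pi)) * ep (rv k) (x b) =
      (ep k (x a) * ep (rv k) (x b)) * (Complex.I * hp (rv k) / (4 * Real.pi)) by ring, h2, hp_rv]
    push_cast
    field_simp
    ring_nf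
    rw [Complex.I_sq]
    ring
  rw [Finset.sum_congr rfl fun k _ => h1 k, Finset.sum_add_distrib, A6_odd (fun k =>
    (-Complex.I * hp k * ((Real.cos (hp k * (x a - x b)) : ℝ) : ℂ) / (4 * Real.pi))), add_zero,
    ← Complex.ofReal_sum]
  · congr 1
    unfold kD
    rw [← Finset.mul_sum]
    generalize (∑ k : Ix n, hp k * Real.sin (hp k * (x a - x b))) = S
    field_simp
    ring
  · intro k
    rw [hp_rv, neg_mul (hp k) (x a - x b), Real.cos_neg]
    push_cast
    ring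

theorem A6_cos {n : ℕ} (r : ℝ) : ∑ k : Ix n, (((Real.cos (hp k * r) : ℝ) : ℂ)
      + ((Real.sin (hp k * r) : ℝ) : ℂ) * Complex.I) = ((2 * Real.pi * kS n r : ℝ) : ℂ) := by
  rw [Finset.sum_add_distrib, A6_odd (fun k => ((Real.sin (hp k * r) : ℝ) : ℂ) * Complex.I), add_zero,
    ← Complex.ofReal_sum]
  · congr 1
    unfold kS
    generalize (∑ k : Ix n, Real.cos (hp k * r)) = S
    field_simp
  · intro k
    rw [hp_rv, neg_mul, Real.sin_neg]
    push_cast
    ring

theorem A6_01 {n q : ℕ} (x : Fin q → ℝ) (a b : Fin q) :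
    (Wx n x * Rm n * (Wx n x).transpose) (a, 0) (b, 1) = ((kS n (x a - x b) : ℝ) : ℂ) := by
  rw [A6_entry]
  have hpi : (Real.pi : ℂ) ≠ 0 := by exact_mod_cast Real.pi_ne_zero
  have h1 : ∀ k : Ix n, Wx n x (a, 0) k * (Complex.I * hp (rv k) / (4 * Real.pi)) * Wx n x (b, 1) (rv k) =
      1 / (2 * Real.pi) * (((Real.cos (hp k * (x a - x b)) : ℝ) : ℂ)
      + ((Real.sin (hp k * (x a - x b)) : ℝ) : ℂ) * Complex.I) := by
    intro k
    have h2 := A6_ep k (x a) (x b)
    have h3 : (hp (rv k) : ℂ) ≠ 0 := by exact_mod_cast hp_ne (rv k)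
    unfold Wx
    simp only [if_true, one_ne_zero, if_false]
    rw [← h2]
    field_simp
    ring
  rw [Finset.sum_congr rfl fun k _ => h1 k, ← Finset.mul_sum, A6_cos]
  push_cast
  field_simp

theorem A6_10 {n q : ℕ} (x : Fin q → ℝ) (a b : Fin q) :
    (Wx n x * Rm n * (Wx n x).transpose) (a, 1) (b, 0) = ((-kS n (x a - x b) : ℝ) : ℂ) := by
  rw [A6_entry]
  have hpi : (Real.pi : ℂ) ≠ 0 := by exact_mod_cast Real.pi_ne_zero
  have h1 : ∀ k : Ix n, Wx n x (a, 1) k * (Complex.I * hp (rv k) / (4 * Real.pi)) * Wx n x (b, 0) (rv k) =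
      -(1 / (2 * Real.pi)) * (((Real.cos (hp k * (x a - x b)) : ℝ) : ℂ)
      + ((Real.sin (hp k * (x a - x b)) : ℝ) : ℂ) * Complex.I) := by
    intro k
    have h2 := A6_ep k (x a) (x b)
    have h3 : (hp k : ℂ) ≠ 0 := by exact_mod_cast hp_ne k
    unfold Wx
    simp only [if_true, one_ne_zero, if_false]
    rw [← h2, hp_rv]
    push_cast
    field_simp
    ring
  rw [Finset.sum_congr rfl fun k _ => h1 k, ← Finset.mul_sum, A6_cos]
  push_cast
  field_simp

theorem A6_11 {n q : ℕ} (x : Fin q → ℝ) (a b : Fin q) :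
    (Wx n x * Rm n * (Wx n x).transpose) (a, 1) (b, 1) = ((2 * kI n (x a - x b) : ℝ) : ℂ) := by
  rw [A6_entry]
  have hpi : (Real.pi : ℂ) ≠ 0 := by exact_mod_cast Real.pi_ne_zero
  have h1 : ∀ k : Ix n, Wx n x (a, 1) k * (Complex.I * hp (rv k) / (4 * Real.pi)) * Wx n x (b, 1) (rv k) =
      ((1 / Real.pi * (1 / hp k * Real.sin (hp k * (x a - x b))) : ℝ) : ℂ) +
      (-Complex.I / hp k * ((Real.cos (hp k * (x a - x b)) : ℝ) : ℂ) / Real.pi) := by
    intro k
    have h2 := A6_ep k (x a) (x b)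
    have h3 : (hp k : ℂ) ≠ 0 := by exact_mod_cast hp_ne k
    unfold Wx
    simp only [one_ne_zero, if_false]
    rw [show 2 / (Complex.I * (hp k : ℂ)) * ep k (x a) * (Complex.I * hp (rv k) / (4 * Real.pi)) *
        (2 / (Complex.I * hp (rv k)) * ep (rv k) (x b)) =
      (ep k (x a) * ep (rv k) (x b)) * (2 / (Complex.I * (hp k : ℂ)) * (Complex.I * hp (rv k) / (4 * Real.pi)) *
        (2 / (Complex.I * hp (rv k)))) by ring, h2, hp_rv]
    push_cast
    field_simp
    ring_nf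
    rw [Complex.I_sq]
    ring
  rw [Finset.sum_congr rfl fun k _ => h1 k, Finset.sum_add_distrib, A6_odd (fun k =>
    (-Complex.I / hp k * ((Real.cos (hp k * (x a - x b)) : ℝ) : ℂ) / Real.pi)), add_zero,
    ← Complex.ofReal_sum]
  · congr 1
    unfold kI
    rw [← Finset.mul_sum]
    generalize (∑ k : Ix n, 1 / hp k * Real.sin (hp k * (x a - x b))) = S
    field_simp
  · intro k
    rw [hp_rv, neg_mul (hp k) (x a - x b), Real.cos_neg]
    push_cast
    ring

theorem ker_eq {n q : ℕ} (x : Fin q → ℝ) (hx : ∀ a, x a ∈ Ioc 0 (2 * Real.pi)) :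
    pf (Cm 0 (sg x) + Wx n x * Rm n * (Wx n x).transpose)
      = ((pf (KM (kD n) (kS n) (kJ n) x) : ℝ) : ℂ) := by
  have h2 : ((√2 : ℝ) : ℂ) ^ 2 = 2 := by
    rw [← Complex.ofReal_pow, Real.sq_sqrt (by norm_num)]
    norm_num
  have h20 : ((√2 : ℝ) : ℂ) ≠ 0 := by
    intro h
    rw [h] at h2
    norm_num at h2
  set E : Matrix (Ix q) (Ix q) ℂ := Matrix.diagonal (fun a => if a.2 = 0 then ((√2 : ℝ) : ℂ)⁻¹ else ((√2 : ℝ) : ℂ))
    with hE
  have hdet : E.det = 1 := by
    rw [hE, Matrix.det_diagonal, Fintype.prod_prod_type]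
    refine Finset.prod_eq_one fun a _ => ?_
    rw [Fin.prod_univ_two]
    simp [h20]
  have hM : Cm 0 (sg x) + Wx n x * Rm n * (Wx n x).transpose =
      E.transpose * (KM (kD n) (kS n) (kJ n) x).map Complex.ofRealHom * E := by
    ext ⟨a, i⟩ ⟨b, j⟩
    rw [hE, Matrix.diagonal_transpose, Matrix.mul_diagonal, Matrix.diagonal_mul, Matrix.add_apply,
      Matrix.map_apply]
    fin_cases i <;> fin_cases j
    · change Cm 0 (sg x) (a, 0) (b, 0) + (Wx n x * Rm n * (Wx n x).transpose) (a, 0) (b, 0) = _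
      rw [A6_00]
      simp [Cm, KM]
      field_simp
      rw [h2]
      ring
    · change Cm 0 (sg x) (a, 0) (b, 1) + (Wx n x * Rm n * (Wx n x).transpose) (a, 0) (b, 1) = _
      rw [A6_01]
      simp [Cm, KM]
      field_simp
    · change Cm 0 (sg x) (a, 1) (b, 0) + (Wx n x * Rm n * (Wx n x).transpose) (a, 1) (b, 0) = _
      rw [A6_10]
      simp [Cm, KM]
      field_simp
    · change Cm 0 (sg x) (a, 1) (b, 1) + (Wx n x * Rm n * (Wx n x).transpose) (a, 1) (b, 1) = _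
      rw [A6_11]
      have hs : Real.sign (Real.sin ((x a - x b) / 2)) = Real.sign (x a - x b) := by
        have ha := hx a
        have hb := hx b
        exact A6_sign (by linarith [ha.1, hb.2]) (by linarith [ha.2, hb.1])
      have hs2 : Real.sign (x b - x a) = -Real.sign (x a - x b) := by
        rw [← Real.sign_neg, neg_sub]
      simp [Cm, KM, sg, kJ, hs, hs2]
      linear_combination (-((Real.sign (x a - x b) : ℝ) : ℂ) / 2 + (kI n (x a - x b) : ℂ)) * (-h2)
  rw [hM, pf_mul, hdet, one_mul, pf_map]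
  rfl

end COE
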