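import Pool.Agent.LibCOE.Def2
import Pool.Agent.LibCOE.CO_P10

/-! Row A7. Proof sketch:
KM_skew: entrywise; r ↦ -r under transposition; cases a.2, b.2 (Fin 2: `Fin.forall_fin_two`, simp [Matrix.of_apply, Matrix.cons_val]).
Parities: sin is odd, cos even, Real.sign odd (`Real.sign_neg`), ∫_0^{-r} gS = -∫_0^r gS since gS = sinc(π ·) is even
(`intervalIntegral.integral_comp_neg`), the derivative of an even function is odd (`deriv.comp_neg`/`deriv_comp_neg`). -/

open MeasureTheory Set Filter Topology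

namespace COE

open QGr


theorem KM_skew {q : ℕ} {D S J : ℝ → ℝ} (hD : ∀ r, D (-r) = -D r) (hS : ∀ r, S (-r) = S r)
    (hJ : ∀ r, J (-r) = -J r) (x : Fin q → ℝ) : (KM D S J x).transpose = -KM D S J x := by
  ext ⟨a, i⟩ ⟨b, j⟩
  have h : x b - x a = -(x a - x b) := by ring
  simp only [Matrix.transpose_apply, Matrix.neg_apply]
  unfold KM
  simp only [h, hD, hS, hJ]
  fin_cases i <;> fin_cases j <;> simp

theorem A7_kI (n : ℕ) (r : ℝ) : kI n (-r) = -kI n r := by
  unfold kI
  rw [← mul_neg, ← Finset.sum_neg_distrib]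
  congr 1
  refine Finset.sum_congr rfl fun k _ => ?_
  rw [mul_neg, Real.sin_neg, mul_neg]

theorem par_k (n : ℕ) (r : ℝ) : kD n (-r) = -kD n r ∧ kS n (-r) = kS n r ∧ kJ n (-r) = -kJ n r := by
  refine ⟨?_, ?_, ?_⟩
  · unfold kD
    rw [← mul_neg, ← Finset.sum_neg_distrib]
    congr 1
    refine Finset.sum_congr rfl fun k _ => ?_
    rw [mul_neg, Real.sin_neg, mul_neg]
  · unfold kS
    congr 1
    refine Finset.sum_congr rfl fun k _ => ?_
    rw [mul_neg, Real.cos_neg]
  · unfold kJ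
    rw [A7_kI, neg_div, Real.sin_neg, Real.sign_neg]
    ring

theorem par_s (n : ℕ) (r : ℝ) : sD n (-r) = -sD n r ∧ sS n (-r) = sS n r ∧ sJ n (-r) = -sJ n r := by
  have h : Real.pi * (-r) / n = -(Real.pi * r / n) := by ring
  refine ⟨?_, ?_, ?_⟩
  · unfold sD
    rw [h, (par_k n _).1]
    ring
  · unfold sS
    rw [h, (par_k n _).2.1]
  · unfold sJ
    rw [h, A7_kI, Real.sign_neg]
    ring

theorem par_g (r : ℝ) : deriv gS (-r) = -deriv gS r ∧ gS (-r) = gS r ∧ gJ (-r) = -gJ r := by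
  have hg : ∀ t : ℝ, gS (-t) = gS t := by
    intro t
    unfold gS
    rw [mul_neg, Real.sinc_neg]
  refine ⟨?_, hg r, ?_⟩
  · have h1 : (fun t => gS (-t)) = gS := funext hg
    have h2 := deriv_comp_neg gS r
    rw [h1] at h2
    linarith
  · unfold gJ
    have h1 : ∫ t in (0 : ℝ)..(-r), gS t = -∫ t in (0 : ℝ)..r, gS t := by
      have h2 := intervalIntegral.integral_comp_neg (a := 0) (b := r) gS
      simp only [hg, neg_zero] at h2
      rw [h2, intervalIntegral.integral_symm]
    rw [h1, Real.sign_neg]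
    ring

end COE
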