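import Pool.Agent.LibCOE.Def2
import Pool.Agent.LibCOE.CO_P2
import Pool.Agent.LibCOE.CP_A1
import Pool.Agent.LibCOE.CP_A2

/-! Row A8. Proof sketch:
Map K to ℂ (Complex.ofRealHom): pf_map and pf_sq: (pf K : ℂ)^2 = pf (Jm q)^2 (det K : ℂ). pf (Jm q) is real: Jm q is the image of a
real matrix (entries 0, 1, -1), so pf (Jm q) = (c : ℂ), c real, c ≠ 0, ‖pf (Jm q)‖ = |c|. So pf K^2 = c^2 det K in ℝ and
√det K = √((pf K / c)^2) = |pf K| / |c|. -/

open MeasureTheory Set Filter Topology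

namespace COE

open QGr


theorem sqrt_det {q : ℕ} (K : Matrix (Ix q) (Ix q) ℝ) (hK : K.transpose = -K) :
    √K.det = |pf K| / ‖pf (Jm q)‖ := by
  set c : ℝ := pf (Matrix.of fun a b : Ix q =>
    if a.1 = b.1 then (if a.2 = 0 ∧ b.2 = 1 then (1 : ℝ) else if a.2 = 1 ∧ b.2 = 0 then -1 else 0) else 0)
    with hc
  have h1 : pf (Jm q) = (c : ℂ) := by
    have e1 : Jm q = (Matrix.of fun a b : Ix q =>
        if a.1 = b.1 then (if a.2 = 0 ∧ b.2 = 1 then (1 : ℝ) else if a.2 = 1 ∧ b.2 = 0 then -1 else 0)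
          else 0).map Complex.ofRealHom := by
      ext a b
      unfold Jm
      simp only [Matrix.map_apply, Matrix.of_apply]
      split_ifs <;> simp
    rw [e1, pf_map]
    rfl
  have h2 : pf (K.map Complex.ofRealHom) = ((pf K : ℝ) : ℂ) := by
    rw [pf_map]
    rfl
  have h3 := pf_sq (K.map Complex.ofRealHom) (by
    ext a b
    have e2 := congrFun (congrFun hK a) b
    simp only [Matrix.transpose_apply, Matrix.neg_apply, Matrix.map_apply] at e2 ⊢
    rw [e2]
    simp)
  have h4 : (K.map Complex.ofRealHom).det = ((K.det : ℝ) : ℂ) := by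
    have := RingHom.map_det Complex.ofRealHom K
    rw [RingHom.mapMatrix_apply] at this
    exact this.symm
  rw [h2, h1, h4] at h3
  have h5 : pf K ^ 2 = c ^ 2 * K.det := by exact_mod_cast h3
  have hc0 : c ≠ 0 := by
    intro h
    apply pf_Jm q
    rw [h1, h, Complex.ofReal_zero]
  have h6 : K.det = (pf K / c) ^ 2 := by
    rw [div_pow, h5]
    field_simp
  rw [h6, Real.sqrt_sq_eq_abs, abs_div, h1, Complex.norm_real, Real.norm_eq_abs]

end COE
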