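import Pool.Agent.LibCOE.Def2

/-! Row G1. Proof sketch:
`MeasureTheory.Measure.pi_eq` (uniqueness on boxes): (∑ s, pi (μ ∘ s)) (univ.pi B) = ∑ s, ∏ j, μ (s j) (B j) = ∏ j, ∑ c, μ c (B j)
(`Finset.prod_univ_sum`, `Fintype.piFinset_univ`), `Measure.coe_finset_sum`, `Measure.pi_pi`. -/

open MeasureTheory Set Filter Topology

namespace COE

open QGr

theorem pi_sum {ι C : Type} [Fintype ι] [DecidableEq ι] [Fintype C] [DecidableEq C]
    (μ : C → Measure ℝ) [∀ c, IsFiniteMeasure (μ c)] :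
    Measure.pi (fun _ : ι => ∑ c, μ c) = ∑ s : ι → C, Measure.pi fun j => μ (s j) := by
  have hfin : IsFiniteMeasure (∑ c, μ c) := inferInstance
  refine Measure.pi_eq fun B hB => ?_
  rw [Measure.coe_finsetSum, Finset.sum_apply]
  simp only [Measure.pi_pi, Measure.coe_finsetSum, Finset.sum_apply]
  rw [Finset.prod_univ_sum, Fintype.piFinset_univ]

end COE
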