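import Pool.Agent.LibCOE.Def2

/-! Row G2. Proof sketch:
Same proof as de_bruijn, Pool/Agent/LibCOE/CO_P5.lean (in the tar), with `volume.restrict (Ioc 0 (2π))` replaced by a finite measure
μ and the interval integrals by ∫ ∂μ; the functions are continuous and bounded by K, so everything is integrable. -/

open MeasureTheory Set Filter Topology

namespace COE

open QGr

variable (μ : Measure ℝ) [IsFiniteMeasure μ]

theorem G2_sign_meas : Measurable Real.sign := by
  unfold Real.sign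
  exact Measurable.ite measurableSet_Iio measurable_const
    (Measurable.ite measurableSet_Ioi measurable_const measurable_const)

theorem G2_sign_norm (x : ℝ) : ‖((Real.sign x : ℝ) : ℂ)‖ ≤ 1 := by
  rcases Real.sign_apply_eq x with h | h | h <;> rw [h] <;> simp

theorem G2_curry (n : ℕ) : MeasurePreserving (MeasurableEquiv.curry (Fin n) (Fin 2) ℝ).symm
    (Measure.pi fun _ : Fin n => Measure.pi fun _ : Fin 2 => μ) (Measure.pi fun _ : Ix n => μ) := by
  refine ⟨(MeasurableEquiv.curry (Fin n) (Fin 2) ℝ).symm.measurable, ?_⟩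
  symm
  apply Measure.pi_eq
  intro s hs
  rw [MeasurableEquiv.map_apply]
  have h1 : (MeasurableEquiv.curry (Fin n) (Fin 2) ℝ).symm ⁻¹' (Set.pi univ s)
      = Set.pi univ fun i => Set.pi univ fun b => s (i, b) := by
    ext z
    simp only [mem_preimage, Set.mem_pi, mem_univ, true_imp_iff, MeasurableEquiv.coe_curry_symm]
    constructor
    · intro h i b
      exact h (i, b)
    · rintro h ⟨i, b⟩
      exact h i b
  rw [h1, Measure.pi_pi]
  rw [Fintype.prod_prod_type]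
  refine Finset.prod_congr rfl fun i _ => ?_
  rw [Measure.pi_pi]

theorem G2_integrable {f : ℝ → ℂ} (hf : Continuous f) {K : ℝ} (hK : ∀ x, ‖f x‖ ≤ K) :
    Integrable f μ :=
  Integrable.of_bound hf.aestronglyMeasurable K (Filter.Eventually.of_forall hK)

theorem G2_two (f g : ℝ → ℂ) (hf : Continuous f) (hg : Continuous g) (K : ℝ)
    (hfK : ∀ x, ‖f x‖ ≤ K) (hgK : ∀ x, ‖g x‖ ≤ K) :
    ∫ w, ((Real.sign (w 1 - w 0) : ℝ) : ℂ) * (f (w 0) * g (w 1)) ∂(Measure.pi fun _ : Fin 2 => μ)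
      = skm μ f g := by
  have h1 := measurePreserving_finTwoArrow μ
  have h2 := h1.integral_comp' (f := MeasurableEquiv.finTwoArrow)
    (g := fun z : ℝ × ℝ => ((Real.sign (z.2 - z.1) : ℝ) : ℂ) * (f z.1 * g z.2))
  have h3 : ∫ w, ((Real.sign (w 1 - w 0) : ℝ) : ℂ) * (f (w 0) * g (w 1))
        ∂(Measure.pi fun _ : Fin 2 => μ)
      = ∫ z : ℝ × ℝ, ((Real.sign (z.2 - z.1) : ℝ) : ℂ) * (f z.1 * g z.2) ∂(μ.prod μ) := by
    rw [← h2]
    rfl
  rw [h3, integral_prod]
  · rfl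
  · have hfi : Integrable f μ := G2_integrable μ hf hfK
    have hgi : Integrable g μ := G2_integrable μ hg hgK
    refine Integrable.bdd_mul (c := 1) (hfi.mul_prod hgi) ?_ ?_
    · apply Measurable.aestronglyMeasurable
      exact Complex.measurable_ofReal.comp
        (G2_sign_meas.comp (measurable_snd.sub measurable_fst))
    · exact Filter.Eventually.of_forall fun z => G2_sign_norm _

theorem G2_int {n : ℕ} (φ : Ix n → ℝ → ℂ) (hφ : ∀ k, Continuous (φ k)) (K : ℝ)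
    (hK : ∀ k x, ‖φ k x‖ ≤ K) (τ : Ix n → Ix n)
    (P : (Ix n → ℝ) → ℂ) (hP : Measurable P) (hP1 : ∀ x, ‖P x‖ ≤ 1) :
    Integrable (fun x => P x * ∏ j, φ (τ j) (x j)) (Measure.pi fun _ : Ix n => μ) := by
  have h1 : Integrable (fun x : Ix n → ℝ => ∏ j, φ (τ j) (x j)) (Measure.pi fun _ : Ix n => μ) :=
    Integrable.fintype_prod (f := fun j => φ (τ j)) fun j => G2_integrable μ (hφ (τ j)) (hK (τ j))
  exact Integrable.bdd_mul (c := 1) h1 hP.aestronglyMeasurable
    (Filter.Eventually.of_forall hP1)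

theorem G2_meas {n : ℕ} (u v : Fin n → Ix n) :
    Measurable fun x : Ix n → ℝ => ∏ i, ((Real.sign (x (u i) - x (v i)) : ℝ) : ℂ) := by
  apply Finset.measurable_prod
  intro i _
  exact Complex.measurable_ofReal.comp
    (G2_sign_meas.comp ((measurable_pi_apply _).sub (measurable_pi_apply _)))

theorem G2_bd {n : ℕ} (u v : Fin n → Ix n) (x : Ix n → ℝ) :
    ‖∏ i, ((Real.sign (x (u i) - x (v i)) : ℝ) : ℂ)‖ ≤ 1 := by
  rw [norm_prod]
  exact Finset.prod_le_one (fun _ _ => norm_nonneg _) fun i _ => G2_sign_norm _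

theorem G2_det {n : ℕ} (φ : Ix n → ℝ → ℂ) (x : Ix n → ℝ) :
    Matrix.det (Matrix.of fun k j => φ k (x j))
      = ∑ τ : Equiv.Perm (Ix n), ((Equiv.Perm.sign τ : ℤ) : ℂ) * ∏ j, φ (τ j) (x j) := by
  rw [Matrix.det_apply]
  refine Finset.sum_congr rfl fun τ _ => ?_
  rw [Units.smul_def, zsmul_eq_mul]
  rfl

theorem G2_intD {n : ℕ} (φ : Ix n → ℝ → ℂ) (hφ : ∀ k, Continuous (φ k)) (K : ℝ)
    (hK : ∀ k x, ‖φ k x‖ ≤ K)
    (P : (Ix n → ℝ) → ℂ) (hP : Measurable P) (hP1 : ∀ x, ‖P x‖ ≤ 1) :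
    Integrable (fun x => P x * Matrix.det (Matrix.of fun k j => φ k (x j)))
      (Measure.pi fun _ : Ix n => μ) := by
  have h : (fun x => P x * Matrix.det (Matrix.of fun k j => φ k (x j)))
      = fun x => ∑ τ : Equiv.Perm (Ix n), ((Equiv.Perm.sign τ : ℤ) : ℂ) *
        (P x * ∏ j, φ (τ j) (x j)) := by
    funext x
    rw [G2_det, Finset.mul_sum]
    refine Finset.sum_congr rfl fun τ _ => by ring
  rw [h]
  exact integrable_finsetSum _ fun τ _ => (G2_int μ φ hφ K hK τ P hP hP1).const_mul _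

theorem G2_main {n : ℕ} (φ : Ix n → ℝ → ℂ) (hφ : ∀ k, Continuous (φ k)) (K : ℝ)
    (hK : ∀ k x, ‖φ k x‖ ≤ K) :
    ∫ x, (∏ i : Fin n, ((Real.sign (x (i, 1) - x (i, 0)) : ℝ) : ℂ)) *
        Matrix.det (Matrix.of fun k j => φ k (x j)) ∂(Measure.pi fun _ : Ix n => μ)
      = pf (fun k l => skm μ (φ k) (φ l)) := by
  have h : (fun x : Ix n → ℝ => (∏ i : Fin n, ((Real.sign (x (i, 1) - x (i, 0)) : ℝ) : ℂ)) *
        Matrix.det (Matrix.of fun k j => φ k (x j)))
      = fun x => ∑ τ : Equiv.Perm (Ix n), ((Equiv.Perm.sign τ : ℤ) : ℂ) *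
        ((∏ i : Fin n, ((Real.sign (x (i, 1) - x (i, 0)) : ℝ) : ℂ)) * ∏ j, φ (τ j) (x j)) := by
    funext x
    rw [G2_det, Finset.mul_sum]
    refine Finset.sum_congr rfl fun τ _ => by ring
  rw [h, integral_finsetSum]
  · unfold pf
    refine Finset.sum_congr rfl fun τ _ => ?_
    rw [integral_const_mul, zsmul_eq_mul]
    congr 1
    have h2 := (G2_curry μ n).integral_comp' (f := (MeasurableEquiv.curry (Fin n) (Fin 2) ℝ).symm)
      (g := fun x : Ix n → ℝ => (∏ i : Fin n, ((Real.sign (x (i, 1) - x (i, 0)) : ℝ) : ℂ)) *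
        ∏ j, φ (τ j) (x j))
    rw [← h2]
    have h3 : (fun z : Fin n → Fin 2 → ℝ =>
        (∏ i : Fin n, ((Real.sign (((MeasurableEquiv.curry (Fin n) (Fin 2) ℝ).symm z) (i, 1)
          - ((MeasurableEquiv.curry (Fin n) (Fin 2) ℝ).symm z) (i, 0)) : ℝ) : ℂ)) *
        ∏ j, φ (τ j) (((MeasurableEquiv.curry (Fin n) (Fin 2) ℝ).symm z) j))
        = fun z => ∏ i : Fin n, ((Real.sign (z i 1 - z i 0) : ℝ) : ℂ) *
          (φ (τ (i, 0)) (z i 0) * φ (τ (i, 1)) (z i 1)) := by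
      funext z
      rw [Fintype.prod_prod_type, ← Finset.prod_mul_distrib]
      refine Finset.prod_congr rfl fun i _ => ?_
      rw [Fin.prod_univ_two]
      rfl
    rw [h3]
    have h4 := integral_fintype_prod_eq_prod (𝕜 := ℂ) (ι := Fin n)
      (μ := fun _ => Measure.pi fun _ : Fin 2 => μ)
      (fun i (w : Fin 2 → ℝ) => ((Real.sign (w 1 - w 0) : ℝ) : ℂ) *
          (φ (τ (i, 0)) (w 0) * φ (τ (i, 1)) (w 1)))
    rw [h4]
    refine Finset.prod_congr rfl fun i _ => ?_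
    exact G2_two μ _ _ (hφ _) (hφ _) K (hK _) (hK _)
  · intro τ _
    refine (G2_int μ φ hφ K hK τ _ ?_ ?_).const_mul _
    · exact G2_meas (fun i => (i, 1)) (fun i => (i, 0))
    · intro x
      exact G2_bd (fun i => (i, 1)) (fun i => (i, 0)) x

theorem G2_perm {n : ℕ} (φ : Ix n → ℝ → ℂ) (σ : Equiv.Perm (Ix n)) :
    ∫ x, (((Equiv.Perm.sign σ : ℤ) : ℂ) *
        ∏ i : Fin n, ((Real.sign (x (σ (i, 1)) - x (σ (i, 0))) : ℝ) : ℂ)) *
        Matrix.det (Matrix.of fun k j => φ k (x j)) ∂(Measure.pi fun _ : Ix n => μ)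
      = ∫ x, (∏ i : Fin n, ((Real.sign (x (i, 1) - x (i, 0)) : ℝ) : ℂ)) *
        Matrix.det (Matrix.of fun k j => φ k (x j)) ∂(Measure.pi fun _ : Ix n => μ) := by
  have h1 : MeasurePreserving (MeasurableEquiv.piCongrLeft (fun _ : Ix n => ℝ) σ)
      (Measure.pi fun _ : Ix n => μ) (Measure.pi fun _ : Ix n => μ) :=
    measurePreserving_piCongrLeft (fun _ : Ix n => μ) σ
  have h2 := h1.integral_comp' (g := fun x : Ix n → ℝ => (((Equiv.Perm.sign σ : ℤ) : ℂ) *
        ∏ i : Fin n, ((Real.sign (x (σ (i, 1)) - x (σ (i, 0))) : ℝ) : ℂ)) *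
        Matrix.det (Matrix.of fun k j => φ k (x j)))
  rw [← h2]
  refine integral_congr_ae (Filter.Eventually.of_forall fun y => ?_)
  simp only
  have h3 : ∀ j, (MeasurableEquiv.piCongrLeft (fun _ : Ix n => ℝ) σ) y (σ j) = y j :=
    fun j => MeasurableEquiv.piCongrLeft_apply_apply (β := fun _ : Ix n => ℝ) σ y j
  have h4 : (Matrix.of fun k j => φ k (y j))
      = (Matrix.of fun k j => φ k ((MeasurableEquiv.piCongrLeft (fun _ : Ix n => ℝ) σ) y j)).submatrix
        id σ := by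
    ext k j
    simp only [Matrix.of_apply, Matrix.submatrix_apply, id]
    rw [h3]
  rw [h4, Matrix.det_permute']
  simp only [h3]
  ring

end COE

namespace COE

theorem de_bruijn_gen {n : ℕ} (μ : Measure ℝ) [IsFiniteMeasure μ] (φ : Ix n → ℝ → ℂ)
    (hφ : ∀ k, Continuous (φ k)) (K : ℝ) (hK : ∀ k x, ‖φ k x‖ ≤ K) :
    ∫ x, pf (fun a b => ((Real.sign (x b - x a) : ℝ) : ℂ)) *
        Matrix.det (Matrix.of fun k j => φ k (x j)) ∂(Measure.pi fun _ : Ix n => μ)
      = (Nat.factorial (2 * n) : ℂ) * pf (fun k l => skm μ (φ k) (φ l)) := by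
  have h : (fun x : Ix n → ℝ => pf (fun a b => ((Real.sign (x b - x a) : ℝ) : ℂ)) *
        Matrix.det (Matrix.of fun k j => φ k (x j)))
      = fun x => ∑ σ : Equiv.Perm (Ix n), (((Equiv.Perm.sign σ : ℤ) : ℂ) *
        ∏ i : Fin n, ((Real.sign (x (σ (i, 1)) - x (σ (i, 0))) : ℝ) : ℂ)) *
        Matrix.det (Matrix.of fun k j => φ k (x j)) := by
    funext x
    unfold pf
    rw [Finset.sum_mul]
    refine Finset.sum_congr rfl fun σ _ => ?_
    rw [zsmul_eq_mul]
  rw [h, integral_finsetSum]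
  · rw [Finset.sum_congr rfl fun σ _ => G2_perm μ φ σ, Finset.sum_const, G2_main μ φ hφ K hK,
      Finset.card_univ, Fintype.card_perm, nsmul_eq_mul]
    congr 3
    simp [Fintype.card_prod, mul_comm]
  · intro σ _
    have h5 := (G2_intD μ φ hφ K hK (fun x : Ix n → ℝ =>
      ∏ i : Fin n, ((Real.sign (x (σ (i, 1)) - x (σ (i, 0))) : ℝ) : ℂ))
      (G2_meas (fun i => σ (i, 1)) (fun i => σ (i, 0)))
      (fun x => G2_bd (fun i => σ (i, 1)) (fun i => σ (i, 0)) x)).const_mul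
      ((Equiv.Perm.sign σ : ℤ) : ℂ)
    refine h5.congr (Filter.Eventually.of_forall fun x => ?_)
    simp only
    ring

end COE
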