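import Pool.Agent.LibCOE.Def2
import Pool.Agent.LibCOE.CO_P2
import Pool.Agent.LibCOE.CO_P4
import Pool.Agent.LibCOE.CO_P6
import Pool.Agent.LibCOE.CO_W2
import Pool.Agent.LibCOE.CP_G2

/-! Row G3. Proof sketch:
skm_leb: unfold, `intervalIntegral.integral_of_le`. wt_gen: for x with all x a ∈ (0, 2π]: wt (x ∘ e) = C₀ * (product of signs) *
det (wt_rep); if x is injective the product of signs is pf (sign) / pf (Jm n) (pf_sign); if not, det has two equal columns
(`Matrix.det_zero_of_column_eq`). So wt (x ∘ finProdFinEquiv.symm) = C₀ / pf (Jm n) * pf (sign) * det for all such x. The pi measure of μ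
is carried by the box (each coordinate is a.e. in Ioc: `Measure.ae_eval..`/`Measure.pi` of the complement; a.e. for all j by
`Filter.eventually_all`), change variables Fin (n*2) ≃ Ix n by `measurePreserving_piCongrLeft`, then de_bruijn_gen with φ = ep
(‖ep k x‖ = 1). C = C₀ / pf (Jm n) * (2n)!. n = 0 is fine. -/

open MeasureTheory Set Filter Topology

namespace COE

open QGr


theorem skm_leb (f g : ℝ → ℂ) : skm (volume.restrict (Ioc 0 (2 * Real.pi))) f g = sk f g := by
  have hpi : (0 : ℝ) ≤ 2 * Real.pi := by positivity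
  unfold sk skm
  rw [intervalIntegral.integral_of_le hpi]
  refine integral_congr_ae (Filter.Eventually.of_forall fun x => ?_)
  simp only
  rw [intervalIntegral.integral_of_le hpi]

theorem G3_transfer {n : ℕ} (μ : Measure ℝ) [IsFiniteMeasure μ] (F : (Fin (n * 2) → ℝ) → ℂ) :
    ∫ θ, F θ ∂(Measure.pi fun _ : Fin (n * 2) => μ)
      = ∫ x : Ix n → ℝ, F (fun j => x (finProdFinEquiv.symm j)) ∂(Measure.pi fun _ : Ix n => μ) := by
  have h1 : MeasurePreserving (MeasurableEquiv.piCongrLeft (fun _ : Fin (n * 2) => ℝ)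
      (finProdFinEquiv (m := n) (n := 2))) (Measure.pi fun _ : Ix n => μ)
      (Measure.pi fun _ : Fin (n * 2) => μ) :=
    measurePreserving_piCongrLeft (fun _ : Fin (n * 2) => μ) (finProdFinEquiv (m := n) (n := 2))
  rw [← h1.integral_comp' (g := F)]
  refine integral_congr_ae (Filter.Eventually.of_forall fun x => ?_)
  simp only
  congr 1
  funext j
  obtain ⟨k, rfl⟩ := finProdFinEquiv.surjective j
  rw [MeasurableEquiv.piCongrLeft_apply_apply (β := fun _ : Fin (n * 2) => ℝ), Equiv.symm_apply_apply]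

theorem G3_mem (n : ℕ) (μ : Measure ℝ) [IsFiniteMeasure μ] (h : μ (Ioc 0 (2 * Real.pi))ᶜ = 0) :
    ∀ᵐ x ∂(Measure.pi fun _ : Ix n => μ), ∀ a, x a ∈ Ioc 0 (2 * Real.pi) := by
  rw [ae_all_iff]
  intro a
  have h1 : ∀ᵐ y ∂μ, y ∈ Ioc 0 (2 * Real.pi) := h
  exact (Measure.tendsto_eval_ae_ae (μ := fun _ : Ix n => μ) (i := a)) h1

theorem G3_all (n : ℕ) : ∃ C : ℂ, ∀ x : Ix n → ℝ, (∀ a, x a ∈ Ioc 0 (2 * Real.pi)) →
    ((wt fun j : Fin (n * 2) => x (finProdFinEquiv.symm j) : ℝ) : ℂ) = C *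
      (pf (fun a b => ((Real.sign (x b - x a) : ℝ) : ℂ)) *
        Matrix.det (Matrix.of fun k j => ep k (x j))) := by
  obtain ⟨C, hC, hwt⟩ := wt_rep n
  refine ⟨C / pf (Jm n), fun x hx => ?_⟩
  rw [hwt x hx]
  by_cases hinj : Function.Injective x
  · rw [pf_sign x hinj]
    have hpf := pf_Jm n
    field_simp
  · have h0 : Matrix.det (Matrix.of fun k j => ep k (x j)) = 0 := by
      unfold Function.Injective at hinj
      push Not at hinj
      obtain ⟨a, b, hab, hne⟩ := hinj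
      refine Matrix.det_zero_of_column_eq hne fun k => ?_
      simp only [Matrix.of_apply]
      rw [hab]
    rw [h0]
    ring

theorem wt_gen (n : ℕ) : ∃ C : ℂ, ∀ μ : Measure ℝ, IsFiniteMeasure μ →
    μ (Ioc 0 (2 * Real.pi))ᶜ = 0 →
    ((∫ θ : Fin (n * 2) → ℝ, wt θ ∂(Measure.pi fun _ => μ) : ℝ) : ℂ)
      = C * pf (fun k l : Ix n => skm μ (ep k) (ep l)) := by
  obtain ⟨C, hC⟩ := G3_all n
  refine ⟨C * (Nat.factorial (2 * n) : ℂ), fun μ hμ h0 => ?_⟩
  have hep : ∀ k : Ix n, Continuous (ep k) := by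
    intro k
    unfold ep
    fun_prop
  have hb : ∀ (k : Ix n) x, ‖ep k x‖ ≤ 1 := by
    intro k x
    unfold ep
    rw [Complex.norm_exp_ofReal_mul_I]
  have h1 := de_bruijn_gen μ ep hep 1 hb
  rw [← integral_complex_ofReal, G3_transfer μ (fun θ => ((wt θ : ℝ) : ℂ)), mul_assoc, ← h1,
    ← integral_const_mul]
  refine integral_congr_ae ?_
  filter_upwards [G3_mem n μ h0] with x hx
  exact hC x hx

end COE
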