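import Pool.Agent.LibCOE.Def2
import Pool.Agent.LibCOE.CO_P10
import Pool.Agent.LibCOE.CP_G3

/-! Row G4. Proof sketch:
mt t x = λ + ∑ t δ_{x a}. Integrals against a sum of measures: `integral_add_measure`, `integral_finset_sum_measure`,
`integral_smul_measure`, `integral_dirac`; (integrands bounded, measurable, measures finite). skm = sk (ep k) (ep l)
+ t ∑_a [ep l (x a) ∫ sign (x a - x) ep k x dx + ep k (x a) ∫ sign (y - x a) ep l y dy] + t² ∑_{a,b} sign (x b - x a) ep k (x a) ep l (x b);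
∫ sign (x a - x) ep k x dx = 2/(I hp k) ep k (x a) =: E_k (eps_int, x a ∈ [0, 2π]), the other one is -E_l (sign odd). This is
M0 k l + ∑_{α β} W α k T α β W β l: expand Matrix.mul_apply over Ix q = Fin q × Fin 2 (`Fintype.sum_prod_type`, `Fin.sum_univ_two`). -/

open MeasureTheory Set Filter Topology

namespace COE

open QGr


theorem G4_int {q : ℕ} (x : Fin q → ℝ) (t : ℝ) (ht : 0 ≤ t) (h : ℝ → ℂ) (hm : Measurable h)
    (K : ℝ) (hK : ∀ y, ‖h y‖ ≤ K) :
    ∫ y, h y ∂(mt t x) = (∫ y, h y ∂(volume.restrict (Ioc 0 (2 * Real.pi)))) + t * ∑ a, h (x a) := by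
  have hf1 : IsFiniteMeasure (volume.restrict (Ioc 0 (2 * Real.pi)) : Measure ℝ) :=
    ⟨by rw [Measure.restrict_apply_univ]; exact measure_Ioc_lt_top⟩
  have hf2 : ∀ a, IsFiniteMeasure (ENNReal.ofReal t • Measure.dirac (x a)) := by
    intro a
    refine ⟨?_⟩
    rw [Measure.smul_apply, smul_eq_mul]
    exact ENNReal.mul_lt_top ENNReal.ofReal_lt_top (measure_lt_top _ _)
  have hf3 : IsFiniteMeasure (∑ a, ENNReal.ofReal t • Measure.dirac (x a)) := by
    refine ⟨?_⟩
    rw [Measure.finsetSum_apply]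
    exact ENNReal.sum_lt_top.2 fun a _ => (hf2 a).measure_univ_lt_top
  have hi : ∀ μ : Measure ℝ, IsFiniteMeasure μ → Integrable h μ := fun μ hμ =>
    Integrable.of_bound hm.aestronglyMeasurable K (Filter.Eventually.of_forall hK)
  unfold mt
  rw [integral_add_measure (hi _ hf1) (hi _ hf3), integral_finsetSum_measure fun a _ => hi _ (hf2 a)]
  congr 1
  rw [Finset.mul_sum]
  refine Finset.sum_congr rfl fun a _ => ?_
  rw [integral_smul_measure, integral_dirac, ENNReal.toReal_ofReal ht, Complex.real_smul]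

theorem G4_sign_meas : Measurable Real.sign := by
  unfold Real.sign
  exact Measurable.ite measurableSet_Iio measurable_const
    (Measurable.ite measurableSet_Ioi measurable_const measurable_const)

theorem G4_sign_norm (x : ℝ) : ‖((Real.sign x : ℝ) : ℂ)‖ ≤ 1 := by
  rcases Real.sign_apply_eq x with h | h | h <;> rw [h] <;> simp

theorem G4_ep_norm {n : ℕ} (k : Ix n) (x : ℝ) : ‖ep k x‖ = 1 := by
  unfold ep
  rw [Complex.norm_exp_ofReal_mul_I]

theorem G4_ep_cont {n : ℕ} (k : Ix n) : Continuous (ep k) := by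
  unfold ep
  fun_prop

theorem G4_k_meas {n : ℕ} (k l : Ix n) : Measurable fun p : ℝ × ℝ =>
    ((Real.sign (p.2 - p.1) : ℝ) : ℂ) * (ep k p.1 * ep l p.2) := by
  refine Measurable.mul ?_ ?_
  · exact Complex.measurable_ofReal.comp (G4_sign_meas.comp (measurable_snd.sub measurable_fst))
  · exact ((G4_ep_cont k).measurable.comp measurable_fst).mul
      ((G4_ep_cont l).measurable.comp measurable_snd)

theorem G4_k_norm {n : ℕ} (k l : Ix n) (u y : ℝ) :
    ‖((Real.sign (y - u) : ℝ) : ℂ) * (ep k u * ep l y)‖ ≤ 1 := by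
  rw [norm_mul, norm_mul, G4_ep_norm, G4_ep_norm, mul_one, mul_one]
  exact G4_sign_norm _

theorem G4_eps {n : ℕ} (k : Ix n) (y : ℝ) (hy : y ∈ Ioc 0 (2 * Real.pi)) :
    ∫ u, ((Real.sign (y - u) : ℝ) : ℂ) * ep k u ∂(volume.restrict (Ioc 0 (2 * Real.pi)))
      = 2 / (Complex.I * hp k) * ep k y := by
  rw [← eps_int k y ⟨hy.1.le, hy.2⟩, intervalIntegral.integral_of_le (by positivity)]

theorem G4_val {n q : ℕ} (x : Fin q → ℝ) (hx : ∀ a, x a ∈ Ioc 0 (2 * Real.pi)) (t : ℝ)
    (ht : 0 ≤ t) (k l : Ix n) : skm (mt t x) (ep k) (ep l) = sk (ep k) (ep l)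
      + t * ∑ a, (2 / (Complex.I * hp k) * ep k (x a)) * ep l (x a)
      - t * ∑ a, ep k (x a) * (2 / (Complex.I * hp l) * ep l (x a))
      + t ^ 2 * ∑ b, ∑ a, ((Real.sign (x a - x b) : ℝ) : ℂ) * (ep k (x b) * ep l (x a)) := by
  set lam : Measure ℝ := volume.restrict (Ioc 0 (2 * Real.pi)) with hlam
  have hf1 : IsFiniteMeasure lam :=
    ⟨by rw [hlam, Measure.restrict_apply_univ]; exact measure_Ioc_lt_top⟩
  have hin : ∀ u, ∫ y, ((Real.sign (y - u) : ℝ) : ℂ) * (ep k u * ep l y) ∂(mt t x)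
      = (∫ y, ((Real.sign (y - u) : ℝ) : ℂ) * (ep k u * ep l y) ∂lam)
        + t * ∑ a, ((Real.sign (x a - u) : ℝ) : ℂ) * (ep k u * ep l (x a)) := by
    intro u
    refine G4_int x t ht (fun y => ((Real.sign (y - u) : ℝ) : ℂ) * (ep k u * ep l y)) ?_ 1
      fun y => G4_k_norm k l u y
    exact (G4_k_meas k l).comp (measurable_const.prodMk measurable_id)
  have hm1 : Measurable fun u => ∫ y, ((Real.sign (y - u) : ℝ) : ℂ) * (ep k u * ep l y) ∂lam :=
    (G4_k_meas k l).stronglyMeasurable.integral_prod_right'.measurable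
  have hm2 : Measurable fun u => (t : ℂ) * ∑ a, ((Real.sign (x a - u) : ℝ) : ℂ) * (ep k u * ep l (x a)) := by
    refine Measurable.const_mul (Finset.measurable_fun_sum _ fun a _ => ?_) _
    exact (G4_k_meas k l).comp (measurable_id.prodMk measurable_const)
  have hb1 : ∀ u, ‖∫ y, ((Real.sign (y - u) : ℝ) : ℂ) * (ep k u * ep l y) ∂lam‖
      ≤ 1 * lam.real univ := fun u =>
    norm_integral_le_of_norm_le_const (Filter.Eventually.of_forall fun y => G4_k_norm k l u y)
  have hb2 : ∀ u, ‖(t : ℂ) * ∑ a, ((Real.sign (x a - u) : ℝ) : ℂ) * (ep k u * ep l (x a))‖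
      ≤ t * q := by
    intro u
    rw [norm_mul, Complex.norm_real, Real.norm_eq_abs, abs_of_nonneg ht]
    refine mul_le_mul_of_nonneg_left ?_ ht
    refine (norm_sum_le _ _).trans ?_
    refine (Finset.sum_le_sum fun a _ => G4_k_norm k l u (x a)).trans ?_
    simp
  have hE : ∀ u ∈ Ioc 0 (2 * Real.pi), ∫ y, ((Real.sign (y - u) : ℝ) : ℂ) * (ep k u * ep l y) ∂lam
      = -(ep k u * (2 / (Complex.I * hp l) * ep l u)) := by
    intro u hu
    rw [← G4_eps l u hu, ← integral_const_mul, ← integral_neg]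
    refine integral_congr_ae (Filter.Eventually.of_forall fun y => ?_)
    simp only
    rw [← neg_sub u y, Real.sign_neg]
    push_cast
    ring
  have hE2 : ∀ a, ∫ u, ((Real.sign (x a - u) : ℝ) : ℂ) * (ep k u * ep l (x a)) ∂lam
      = (2 / (Complex.I * hp k) * ep k (x a)) * ep l (x a) := by
    intro a
    rw [← G4_eps k (x a) (hx a), ← integral_mul_const]
    refine integral_congr_ae (Filter.Eventually.of_forall fun y => ?_)
    simp only
    ring
  have hsk : ∫ u, ∫ y, ((Real.sign (y - u) : ℝ) : ℂ) * (ep k u * ep l y) ∂lam ∂lam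
      = sk (ep k) (ep l) := skm_leb (ep k) (ep l)
  unfold skm
  rw [integral_congr_ae (Filter.Eventually.of_forall hin)]
  have hout := G4_int x t ht (fun u => (∫ y, ((Real.sign (y - u) : ℝ) : ℂ) * (ep k u * ep l y) ∂lam)
    + t * ∑ a, ((Real.sign (x a - u) : ℝ) : ℂ) * (ep k u * ep l (x a))) (hm1.add hm2)
    (1 * lam.real univ + t * q)
    (fun u => (norm_add_le _ _).trans (add_le_add (hb1 u) (hb2 u)))
  rw [hout]
  rw [integral_add (Integrable.of_bound hm1.aestronglyMeasurable _ (Filter.Eventually.of_forall hb1))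
    (Integrable.of_bound hm2.aestronglyMeasurable _ (Filter.Eventually.of_forall hb2)), hsk,
    integral_const_mul, integral_finsetSum]
  · rw [Finset.sum_congr rfl fun a _ => hE2 a, Finset.sum_add_distrib,
      Finset.sum_congr rfl fun a _ => hE (x a) (hx a), Finset.sum_neg_distrib, ← Finset.mul_sum]
    ring
  · intro a _
    refine Integrable.of_bound (C := 1) ?_ (Filter.Eventually.of_forall fun u => G4_k_norm k l u (x a))
    exact ((G4_k_meas k l).comp (measurable_id.prodMk measurable_const)).aestronglyMeasurable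

theorem skm_mt {n q : ℕ} (x : Fin q → ℝ) (hx : ∀ a, x a ∈ Ioc 0 (2 * Real.pi)) (t : ℝ)
    (ht : 0 ≤ t) : (fun k l : Ix n => skm (mt t x) (ep k) (ep l) : Matrix (Ix n) (Ix n) ℂ)
      = M0 n + (Wx n x).transpose * Tm (t : ℂ) (sg x) * Wx n x := by
  ext k l
  rw [Matrix.add_apply, Matrix.mul_apply, G4_val x hx t ht k l]
  simp only [Matrix.mul_apply, Matrix.transpose_apply, Fintype.sum_prod_type, Fin.sum_univ_two]
  simp only [Wx, Tm, sg, M0, Fin.isValue, if_true, one_ne_zero, if_false, mul_ite, mul_zero,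
    add_zero, Finset.sum_add_distrib, Finset.sum_ite_eq', Finset.mem_univ]
  have r1 : ∑ b, (∑ a, ep k (x a) * ((t : ℂ) ^ 2 * ((Real.sign (x b - x a) : ℝ) : ℂ))
      + 2 / (Complex.I * hp k) * ep k (x b) * t) * ep l (x b)
      = (t : ℂ) ^ 2 * ∑ b, ∑ a, ((Real.sign (x b - x a) : ℝ) : ℂ) * (ep k (x a) * ep l (x b))
        + t * ∑ b, (2 / (Complex.I * hp k) * ep k (x b)) * ep l (x b) := by
    rw [Finset.mul_sum, Finset.mul_sum, ← Finset.sum_add_distrib]
    refine Finset.sum_congr rfl fun b _ => ?_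
    rw [add_mul, Finset.sum_mul, Finset.mul_sum]
    congr 1
    · exact Finset.sum_congr rfl fun a _ => by ring
    · ring
  have r2 : ∑ b, ep k (x b) * -(t : ℂ) * (2 / (Complex.I * hp l) * ep l (x b))
      = -(t * ∑ b, ep k (x b) * (2 / (Complex.I * hp l) * ep l (x b))) := by
    rw [Finset.mul_sum, ← Finset.sum_neg_distrib]
    exact Finset.sum_congr rfl fun b _ => by ring
  have r3 : ∑ b, ∑ a, ((Real.sign (x a - x b) : ℝ) : ℂ) * (ep k (x b) * ep l (x a))
      = ∑ b, ∑ a, ((Real.sign (x b - x a) : ℝ) : ℂ) * (ep k (x a) * ep l (x b)) :=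
    Finset.sum_comm
  rw [r1, r2, r3]
  ring

end COE
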