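import Pool.Agent.LibCOE.Def2
import Pool.Agent.LibCOE.CO_W1
import Pool.Agent.LibCOE.CP_G1

/-! Row G5. Proof sketch:
Iw_zero: under pi (nu x ∘ s) the coordinates j and l are a.e. equal to x a (the coordinate projection pushes the measure to a
multiple of the dirac, or the set {θ j ≠ x a} is a box with a null side: `Measure.pi_pi`/`Measure.pi_hyperplane`-like), so wt θ = 0 a.e.
(the factor 2 sin 0 of the pair). Iw_exp: mt t x = ∑_{c : Option (Fin q)} μ c with μ none = λ, μ (some a) = ofReal t • δ_{x a}
(`Fintype.sum_option`); pi_sum; pi of (c_j • ν_j) = (∏ c_j) • pi ν (`Measure.pi_eq` again); `integral_finset_sum_measure`,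
`integral_smul_measure`; ∏_j (if s j = none then 1 else t) = t ^ card. -/

open MeasureTheory Set Filter Topology

namespace COE

open QGr


theorem G5_fin {q : ℕ} (x : Fin q → ℝ) (c : Option (Fin q)) : IsFiniteMeasure (nu x c) := by
  cases c with
  | none =>
    refine ⟨?_⟩
    show (volume.restrict (Ioc 0 (2 * Real.pi))) univ < ⊤
    rw [Measure.restrict_apply_univ]
    exact measure_Ioc_lt_top
  | some a =>
    show IsFiniteMeasure (Measure.dirac (x a))
    infer_instance

theorem Iw_nonneg {N q : ℕ} (x : Fin q → ℝ) (s : Fin N → Option (Fin q)) : 0 ≤ Iw x s :=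
  integral_nonneg fun θ => wt_nonneg θ

theorem G5_wt_zero {N : ℕ} (θ : Fin N → ℝ) {j l : Fin N} (hjl : j ≠ l) (h : θ j = θ l) :
    wt θ = 0 := by
  have key : ∀ {a b : Fin N}, a < b → θ a = θ b → wt θ = 0 := by
    intro a b hab h
    unfold wt
    refine Finset.prod_eq_zero (Finset.mem_univ a) ?_
    refine Finset.prod_eq_zero (Finset.mem_Ioi.2 hab) ?_
    rw [h, sub_self, zero_div, Real.sin_zero, mul_zero, abs_zero]
  rcases lt_or_gt_of_ne hjl with h1 | h1
  · exact key h1 h
  · exact key h1 h.symm

theorem Iw_zero {N q : ℕ} (x : Fin q → ℝ) (s : Fin N → Option (Fin q)) {j l : Fin N}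
    (hjl : j ≠ l) {a : Fin q} (hj : s j = some a) (hl : s l = some a) : Iw x s = 0 := by
  have := fun c => G5_fin x c
  unfold Iw
  have key : ∀ i : Fin N, s i = some a →
      ∀ᵐ θ ∂(Measure.pi fun j => nu x (s j)), θ i = x a := by
    intro i hi
    have h1 : ∀ᵐ y ∂(nu x (s i)), y = x a := by
      rw [hi]
      show ∀ᵐ y ∂(Measure.dirac (x a)), y = x a
      rw [ae_dirac_eq]
      exact Filter.eventually_pure.2 rfl
    exact (Measure.tendsto_eval_ae_ae (μ := fun j => nu x (s j)) (i := i)) h1
  rw [integral_eq_zero_of_ae]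
  filter_upwards [key j hj, key l hl] with θ h1 h2
  exact G5_wt_zero θ hjl (h1.trans h2.symm)

theorem Iw_exp {N q : ℕ} (x : Fin q → ℝ) (t : ℝ) (ht : 0 ≤ t) :
    ∫ θ : Fin N → ℝ, wt θ ∂(Measure.pi fun _ => mt t x)
      = ∑ s : Fin N → Option (Fin q),
        t ^ (Finset.univ.filter fun j => (s j).isSome).card * Iw x s := by
  classical
  have hfin := fun c => G5_fin x c
  let w : Option (Fin q) → ENNReal := fun c => if c.isSome then ENNReal.ofReal t else 1
  have hw : ∀ c, w c ≠ ⊤ := by
    intro c
    simp only [w]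
    split_ifs
    · exact ENNReal.ofReal_ne_top
    · exact ENNReal.one_ne_top
  have hfin2 : ∀ c, IsFiniteMeasure (w c • nu x c) := by
    intro c
    refine ⟨?_⟩
    rw [Measure.smul_apply, smul_eq_mul]
    exact ENNReal.mul_lt_top (hw c).lt_top (measure_lt_top _ _)
  have h1 : mt t x = ∑ c, w c • nu x c := by
    rw [Fintype.sum_option]
    unfold mt
    congr 1
    show _ = (1 : ENNReal) • (volume.restrict (Ioc 0 (2 * Real.pi)) : Measure ℝ)
    rw [one_smul]
  have h2 : (Measure.pi fun _ : Fin N => mt t x)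
      = ∑ s : Fin N → Option (Fin q), Measure.pi fun j => w (s j) • nu x (s j) := by
    have h3 := pi_sum (ι := Fin N) (fun c => w c • nu x c)
    rw [← h3]
    congr 1
    funext _
    exact h1
  have h3 : ∀ s : Fin N → Option (Fin q), (Measure.pi fun j => w (s j) • nu x (s j))
      = (∏ j, w (s j)) • Measure.pi fun j => nu x (s j) := by
    intro s
    refine Measure.pi_eq fun B hB => ?_
    rw [Measure.smul_apply, Measure.pi_pi, smul_eq_mul, ← Finset.prod_mul_distrib]
    rfl
  have h4 : ∀ s : Fin N → Option (Fin q), ∏ j, w (s j)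
      = ENNReal.ofReal (t ^ (Finset.univ.filter fun j => (s j).isSome).card) := by
    intro s
    simp only [w]
    rw [Finset.prod_ite, Finset.prod_const, Finset.prod_const_one, mul_one,
      ENNReal.ofReal_pow ht]
  have hint : ∀ s : Fin N → Option (Fin q), Integrable (wt : (Fin N → ℝ) → ℝ)
      (Measure.pi fun j => w (s j) • nu x (s j)) := by
    intro s
    refine Integrable.of_bound wt_cont.aestronglyMeasurable (2 ^ (N * N))
      (Filter.Eventually.of_forall fun θ => ?_)
    rw [Real.norm_eq_abs, abs_of_nonneg (wt_nonneg θ)]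
    exact wt_le θ
  rw [h2, integral_finsetSum_measure fun s _ => hint s]
  refine Finset.sum_congr rfl fun s _ => ?_
  rw [h3 s, integral_smul_measure, h4 s, ENNReal.toReal_ofReal (pow_nonneg ht _), smul_eq_mul]
  rfl

end COE
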