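import Pool.Agent.LibCOE.Def2
import Pool.Agent.LibCOE.CP_G5

/-! Row G6. Proof sketch:
By Iw_exp, for t > 0 the quotient is ∑_s t^(|supp s|) / t^q Iw x s. If Iw x s ≠ 0 then s is injective on its support (Iw_zero), so
|supp s| <= q; if |supp s| < q the term tends to 0; if |supp s| = q the term is constant Iw x s, and the s that are injective on
their support of size q are exactly the partial inverses of the embeddings e : Fin q ↪ Fin N, each of one e (bijection
e ↦ Function.partialInv e; e is recovered from s: e a = the unique j with s j = some a; `Function.partialInv_of_injective`,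
`Function.Injective.. partialInv_left`). `tendsto_finset_sum`, then `Finset.sum_bij`/`sum_nbij'` on the filtered sum. -/

open MeasureTheory Set Filter Topology

namespace COE

open QGr


/-- The number of point masses used. -/
def G6_c {N q : ℕ} (s : Fin N → Option (Fin q)) : ℕ :=
  (Finset.univ.filter fun j => (s j).isSome).card

theorem G6_inj {N q : ℕ} (x : Fin q → ℝ) (s : Fin N → Option (Fin q)) (h : Iw x s ≠ 0) :
    Function.Injective fun j : {j : Fin N // (s j).isSome} => (s j.1).get j.2 := by
  intro j l hjl
  by_contra hne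
  have hne' : j.1 ≠ l.1 := fun h1 => hne (Subtype.ext h1)
  refine h (Iw_zero x s hne' (a := (s j.1).get j.2) ?_ ?_)
  · simp
  · simp only at hjl
    rw [hjl]
    simp

theorem G6_card {N q : ℕ} (s : Fin N → Option (Fin q)) :
    Fintype.card {j : Fin N // (s j).isSome} = G6_c s := by
  rw [Fintype.card_subtype]
  rfl

theorem G6_le {N q : ℕ} (x : Fin q → ℝ) (s : Fin N → Option (Fin q)) (h : Iw x s ≠ 0) :
    G6_c s ≤ q := by
  have h1 := Fintype.card_le_of_injective _ (G6_inj x s h)
  rwa [G6_card, Fintype.card_fin] at h1

theorem G6_surj {N q : ℕ} (x : Fin q → ℝ) (s : Fin N → Option (Fin q)) (h : Iw x s ≠ 0)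
    (hc : G6_c s = q) : ∃ e : Fin q ↪ Fin N, Function.partialInv e = s := by
  have hb : Function.Bijective fun j : {j : Fin N // (s j).isSome} => (s j.1).get j.2 := by
    rw [Fintype.bijective_iff_injective_and_card]
    exact ⟨G6_inj x s h, by rw [G6_card, hc, Fintype.card_fin]⟩
  choose g hg using hb.2
  simp only at hg
  have hs : ∀ a, s (g a).1 = some a := by
    intro a
    have h1 := hg a
    have h2 : s (g a).1 = some ((s (g a).1).get (g a).2) := by simp
    rw [h2, h1]
  have hi : Function.Injective fun a => (g a).1 := by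
    intro a b hab
    simp only at hab
    have h1 := hs a
    rw [hab, hs b] at h1
    exact (Option.some.inj h1).symm
  refine ⟨⟨fun a => (g a).1, hi⟩, ?_⟩
  funext j
  refine Option.ext fun a => ?_
  have h1 := Function.Injective.isPartialInv hi a j
  rw [show Function.partialInv (⇑(⟨fun a => (g a).1, hi⟩ : Fin q ↪ Fin N)) j
    = Function.partialInv (fun a => (g a).1) j from rfl, h1]
  constructor
  · intro h2
    rw [← h2]
    exact hs a
  · intro h2
    have h3 : (s j).isSome := by rw [h2]; rfl
    have h4 : (⟨j, h3⟩ : {j : Fin N // (s j).isSome}) = g a := by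
      apply hb.1
      simp only
      rw [hg a]
      simp [h2]
    rw [← h4]

theorem G6_inv_card {N q : ℕ} (e : Fin q ↪ Fin N) :
    G6_c (Function.partialInv e : Fin N → Option (Fin q)) = q := by
  classical
  have h : (Finset.univ.filter fun j => (Function.partialInv e j).isSome) = Finset.univ.map e := by
    ext j
    rw [Finset.mem_filter, Finset.mem_map, Option.isSome_iff_exists]
    constructor
    · rintro ⟨-, a, ha⟩
      exact ⟨a, Finset.mem_univ _, (Function.Injective.isPartialInv e.injective a j).1 ha⟩
    · rintro ⟨a, -, ha⟩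
      exact ⟨Finset.mem_univ _, a, (Function.Injective.isPartialInv e.injective a j).2 ha⟩
  unfold G6_c
  rw [h, Finset.card_map, Finset.card_univ, Fintype.card_fin]

theorem G6_inv_inj {N q : ℕ} :
    Function.Injective fun e : Fin q ↪ Fin N => (Function.partialInv e : Fin N → Option (Fin q)) := by
  intro e e' h
  simp only at h
  ext a
  have h1 := (Function.Injective.isPartialInv e.injective a (e a)).2 rfl
  rw [h] at h1
  have h2 := (Function.Injective.isPartialInv e'.injective a (e a)).1 h1
  rw [h2]

theorem Iw_top {N q : ℕ} (x : Fin q → ℝ) :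
    Tendsto (fun t : ℝ => (∫ θ : Fin N → ℝ, wt θ ∂(Measure.pi fun _ => mt t x)) / t ^ q) atTop
      (𝓝 (∑ e : Fin q ↪ Fin N, Iw x (Function.partialInv e))) := by
  classical
  have h1 : ∑ e : Fin q ↪ Fin N, Iw x (Function.partialInv e)
      = ∑ s : Fin N → Option (Fin q), if G6_c s = q then Iw x s else 0 := by
    have h5 : ∑ e : Fin q ↪ Fin N, Iw x (Function.partialInv e)
        = ∑ s ∈ Finset.univ.map (⟨_, G6_inv_inj⟩ : (Fin q ↪ Fin N) ↪ (Fin N → Option (Fin q))),
          if G6_c s = q then Iw x s else 0 := by
      rw [Finset.sum_map]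
      refine Finset.sum_congr rfl fun e _ => ?_
      simp only [Function.Embedding.coeFn_mk]
      rw [if_pos (G6_inv_card e)]
    rw [h5]
    refine Finset.sum_subset (Finset.subset_univ _) fun s _ hs => ?_
    by_contra h0
    by_cases hc : G6_c s = q
    · rw [if_pos hc] at h0
      obtain ⟨e, he⟩ := G6_surj x s h0 hc
      exact hs (Finset.mem_map.2 ⟨e, Finset.mem_univ _, he⟩)
    · rw [if_neg hc] at h0
      exact h0 rfl
  rw [h1]
  have h2 : Tendsto (fun t : ℝ => ∑ s : Fin N → Option (Fin q), t ^ G6_c s * Iw x s / t ^ q) atTop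
      (𝓝 (∑ s : Fin N → Option (Fin q), if G6_c s = q then Iw x s else 0)) := by
    refine tendsto_finsetSum _ fun s _ => ?_
    by_cases h0 : Iw x s = 0
    · simp [h0]
    · have hle := G6_le x s h0
      by_cases hc : G6_c s = q
      · rw [if_pos hc]
        refine tendsto_const_nhds.congr' ?_
        filter_upwards [eventually_gt_atTop 0] with t ht
        rw [hc]
        field_simp
      · rw [if_neg hc]
        have hlt : G6_c s < q := lt_of_le_of_ne hle hc
        have h3 : Tendsto (fun t : ℝ => Iw x s * (t ^ (q - G6_c s))⁻¹) atTop (𝓝 (Iw x s * 0)) :=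
          ((tendsto_pow_atTop (by omega)).inv_tendsto_atTop).const_mul _
        rw [mul_zero] at h3
        refine h3.congr' ?_
        filter_upwards [eventually_gt_atTop 0] with t ht
        have h4 : t ^ q = t ^ (q - G6_c s) * t ^ G6_c s := by
          rw [← pow_add]
          congr 1
          omega
        rw [h4]
        field_simp
  refine h2.congr' ?_
  filter_upwards [eventually_ge_atTop 0] with t ht
  rw [Iw_exp x t ht, Finset.sum_div]
  rfl

end COE
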