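import Pool.Agent.LibCOE.Def2
import Pool.Agent.LibCOE.CO_P10
import Pool.Agent.LibCOE.CO_P11
import Pool.Agent.LibCOE.CO_P2
import Pool.Agent.LibCOE.CO_W2
import Pool.Agent.LibCOE.CP_A5
import Pool.Agent.LibCOE.CP_A6
import Pool.Agent.LibCOE.CP_A7
import Pool.Agent.LibCOE.CP_A8
import Pool.Agent.LibCOE.CP_G3
import Pool.Agent.LibCOE.CP_G4
import Pool.Agent.LibCOE.CP_G5
import Pool.Agent.LibCOE.CP_G6

/-! Row G7. Proof sketch:
C from wt_gen. mt t x is finite and carried by (0, 2π]. For t >= 0: ∫ wt d(pi mt) = C * pf (M0 + WᵀTW) (skm_mt); for μ = λ: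
∫ wt ∂cube = C * pf (M0 n) (skm_leb; fun k l => sk (ep k) (ep l) is M0). Divide by t^q, let t → ∞: Iw_top on the left (cast to ℂ), pf_lim
(A = M0, R = Rm n, s = sg x skew) on the right; uniqueness of limits: (∑_e Iw : ℂ) = C pf M0 pf (Cm 0 (sg x) + ..) / pf (Jm q) =
(∫ wt) * pf (KM ..) / pf (Jm q) (ker_eq). Take norms: the left side is real >= 0, ∫ wt > 0, so ∑ Iw = (∫ wt) |pf KM| / ‖pf Jm‖ =
(∫ wt) √det (sqrt_det, KM_skew, par_k). -/

open MeasureTheory Set Filter Topology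

namespace COE

open QGr


theorem G7_mt_fin {q : ℕ} (t : ℝ) (x : Fin q → ℝ) : IsFiniteMeasure (mt t x) := by
  unfold mt
  have h1 : ∀ a, IsFiniteMeasure (ENNReal.ofReal t • Measure.dirac (x a)) := by
    intro a
    refine ⟨?_⟩
    rw [Measure.smul_apply, smul_eq_mul]
    exact ENNReal.mul_lt_top ENNReal.ofReal_lt_top (measure_lt_top _ _)
  have h2 : IsFiniteMeasure (∑ a, ENNReal.ofReal t • Measure.dirac (x a)) := by
    refine ⟨?_⟩
    rw [Measure.finset_sum_apply]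
    exact ENNReal.sum_lt_top.2 fun a _ => (h1 a).measure_univ_lt_top
  infer_instance

theorem G7_mt_supp {q : ℕ} (t : ℝ) (x : Fin q → ℝ) (hx : ∀ a, x a ∈ Ioc 0 (2 * Real.pi)) :
    mt t x (Ioc 0 (2 * Real.pi))ᶜ = 0 := by
  unfold mt
  rw [Measure.add_apply, Measure.finset_sum_apply]
  have h1 : (volume.restrict (Ioc 0 (2 * Real.pi))) (Ioc 0 (2 * Real.pi))ᶜ = 0 := by
    rw [Measure.restrict_apply measurableSet_Ioc.compl]
    simp
  rw [h1, zero_add]
  refine Finset.sum_eq_zero fun a _ => ?_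
  rw [Measure.smul_apply, Measure.dirac_apply' _ measurableSet_Ioc.compl]
  simp [hx a]

theorem dens {q : ℕ} (n : ℕ) (x : Fin q → ℝ) (hx : ∀ a, x a ∈ Ioc 0 (2 * Real.pi)) :
    ∑ e : Fin q ↪ Fin (n * 2), Iw x (Function.partialInv e)
      = (∫ θ, wt θ ∂(cube (Fin (n * 2)))) * rq n x := by
  obtain ⟨C, hC⟩ := wt_gen n
  have hleb : ((∫ θ : Fin (n * 2) → ℝ, wt θ ∂(cube (Fin (n * 2))) : ℝ) : ℂ) = C * pf (M0 n) := by
    have h1 := hC (volume.restrict (Ioc 0 (2 * Real.pi)))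
      ⟨by rw [Measure.restrict_apply_univ]; exact measure_Ioc_lt_top⟩
      (by rw [Measure.restrict_apply measurableSet_Ioc.compl]; simp)
    have h2 : (fun k l : Ix n => skm (volume.restrict (Ioc 0 (2 * Real.pi))) (ep k) (ep l)) = M0 n := by
      funext k l
      rw [skm_leb]
      rfl
    rw [h2] at h1
    exact h1
  have hs : (sg x).transpose = -sg x := by
    ext a b
    simp only [sg, Matrix.transpose_apply, Matrix.neg_apply]
    rw [← Complex.ofReal_neg, ← Real.sign_neg, neg_sub]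
  have hM := (skew_M (n := n) (fun _ => 0) continuous_const).1
  have h1 := pf_lim (M0 n) (Rm n) (Wx n x) (sg x) hM (Rm_mul n) hs
  rw [ker_eq x hx] at h1
  have h2 : Tendsto (fun t : ℝ => (((∫ θ : Fin (n * 2) → ℝ, wt θ ∂(Measure.pi fun _ => mt t x)) / t ^ q
      : ℝ) : ℂ)) atTop (𝓝 ((∑ e : Fin q ↪ Fin (n * 2), Iw x (Function.partialInv e) : ℝ) : ℂ)) :=
    (Complex.continuous_ofReal.tendsto _).comp (Iw_top x)
  have h3 : Tendsto (fun t : ℝ => (((∫ θ : Fin (n * 2) → ℝ, wt θ ∂(Measure.pi fun _ => mt t x)) / t ^ q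
      : ℝ) : ℂ)) atTop
      (𝓝 (C * (pf (M0 n) * ((pf (KM (kD n) (kS n) (kJ n) x) : ℝ) : ℂ) / pf (Jm q)))) := by
    refine (h1.const_mul C).congr' ?_
    filter_upwards [eventually_ge_atTop 0] with t ht
    have h4 := hC (mt t x) (G7_mt_fin t x) (G7_mt_supp t x hx)
    rw [skm_mt x hx t ht] at h4
    rw [Complex.ofReal_div, Complex.ofReal_pow, h4, mul_div_assoc]
  have h4 := tendsto_nhds_unique h2 h3
  have hZ := wt_int_pos (n * 2)
  have h5 : ((∑ e : Fin q ↪ Fin (n * 2), Iw x (Function.partialInv e) : ℝ) : ℂ)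
      = ((∫ θ : Fin (n * 2) → ℝ, wt θ ∂(cube (Fin (n * 2))) : ℝ) : ℂ) *
        (((pf (KM (kD n) (kS n) (kJ n) x) : ℝ) : ℂ) / pf (Jm q)) := by
    rw [h4, hleb]
    ring
  have h6 := congrArg norm h5
  rw [norm_mul, norm_div, Complex.norm_real, Complex.norm_real, Complex.norm_real, Real.norm_eq_abs,
    Real.norm_eq_abs, Real.norm_eq_abs, abs_of_pos hZ,
    abs_of_nonneg (Finset.sum_nonneg fun e _ => Iw_nonneg _ _)] at h6
  rw [h6, rq, sqrt_det _ (KM_skew (fun r => (par_k n r).1) (fun r => (par_k n r).2.1)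
    (fun r => (par_k n r).2.2) x)]

end COE
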