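import Pool.Agent.LibCOE.Def2
import Pool.Agent.LibCOE.CO_W1
import Pool.Agent.LibCOE.CO_W2

/-! Row G8. Proof sketch:
ext_map: write the constant multiple on the other side: for boxes B the preimage of univ.pi B under (x, θ) ↦ extend e x θ is the
product of the boxes {x a ∈ B (e a)} and {θ j ∈ B j for j ∉ range e} (univ for j ∈ range e), measure ∏_a μ(B (e a)) * ∏_{j ∉ range} μ (B j)
* (2π)^q = (2π)^q ∏_j μ (B j) (`Finset.prod` over range e and complement). Use `Measure.pi_eq` for the measure
(ofReal ((2π)^q))⁻¹ • map, or `Measure.ext_of_generateFrom..`/ `Measure.pi_eq_generateFrom`. Iw_ext: the same for fixed x: the map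
θ ↦ extend e x θ pushes cube (Fin N) to (2π)^q • pi (nu x ∘ partialInv e) (partialInv e (e a) = some a, none off the range), then
`integral_map` and `integral_smul_measure`. Measurability of the maps: coordinatewise (cases j ∈ range e, `Function.Injective.extend_apply`,
`Function.extend_apply'`). -/

open MeasureTheory Set Filter Topology

namespace COE

open QGr


theorem G8_prod {N q : ℕ} (e : Fin q ↪ Fin N) (f : Fin N → ENNReal) :
    ∏ j, f j = (∏ a, f (e a)) * ∏ j, (open Classical in if j ∈ Set.range e then 1 else f j) := by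
  classical
  have h1 : ∏ a, f (e a) = ∏ j, (if j ∈ Set.range e then f j else 1) := by
    rw [← Finset.prod_map Finset.univ e f, Finset.prod_ite, Finset.prod_const_one, mul_one]
    refine Finset.prod_congr ?_ fun _ _ => rfl
    ext j
    simp
  rw [h1, ← Finset.prod_mul_distrib]
  refine Finset.prod_congr rfl fun j _ => ?_
  by_cases h : j ∈ Set.range e <;> simp [h]

theorem G8_univ : (volume.restrict (Ioc 0 (2 * Real.pi)) : Measure ℝ) univ
    = ENNReal.ofReal (2 * Real.pi) := by
  rw [Measure.restrict_apply_univ, Real.volume_Ioc, sub_zero]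

open Classical in
theorem G8_box {N q : ℕ} (e : Fin q ↪ Fin N) (s : Fin N → Set ℝ) :
    cube (Fin N) (univ.pi fun j => if j ∈ Set.range e then univ else s j) =
      ENNReal.ofReal ((2 * Real.pi) ^ q) * ∏ j, (if j ∈ Set.range e then 1 else
        (volume.restrict (Ioc 0 (2 * Real.pi)) : Measure ℝ) (s j)) := by
  unfold cube
  rw [Measure.pi_pi, G8_prod e]
  congr 1
  · have : ∀ a, (volume.restrict (Ioc 0 (2 * Real.pi)) : Measure ℝ)
        (if e a ∈ Set.range e then univ else s (e a)) = ENNReal.ofReal (2 * Real.pi) := by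
      intro a
      rw [if_pos (Set.mem_range_self a), G8_univ]
    simp only [this, Finset.prod_const, Finset.card_univ, Fintype.card_fin]
    rw [ENNReal.ofReal_pow (by positivity)]
  · refine Finset.prod_congr rfl fun j _ => ?_
    by_cases h : j ∈ Set.range e
    · rw [if_pos h, if_pos h]
    · rw [if_neg h, if_neg h, if_neg h]

open Classical in
theorem G8_pre {N q : ℕ} (e : Fin q ↪ Fin N) (s : Fin N → Set ℝ) (x : Fin q → ℝ)
    (θ : Fin N → ℝ) :
    Function.extend e x θ ∈ univ.pi s ↔ (∀ a, x a ∈ s (e a)) ∧
      θ ∈ univ.pi fun j => if j ∈ Set.range e then univ else s j := by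
  simp only [Set.mem_univ_pi]
  constructor
  · intro h
    refine ⟨fun a => ?_, fun j => ?_⟩
    · have := h (e a)
      rwa [e.injective.extend_apply] at this
    · by_cases hj : j ∈ Set.range e
      · rw [if_pos hj]; exact mem_univ _
      · rw [if_neg hj]
        have := h j
        rwa [Function.extend_apply' _ _ _ hj] at this
  · rintro ⟨h1, h2⟩ j
    by_cases hj : j ∈ Set.range e
    · obtain ⟨a, rfl⟩ := hj
      rw [e.injective.extend_apply]
      exact h1 a
    · rw [Function.extend_apply' _ _ _ hj]
      have := h2 j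
      rwa [if_neg hj] at this

theorem G8_meas {N q : ℕ} (e : Fin q ↪ Fin N) :
    Measurable (fun p : (Fin q → ℝ) × (Fin N → ℝ) => Function.extend e p.1 p.2) := by
  refine measurable_pi_lambda _ fun j => ?_
  by_cases hj : j ∈ Set.range e
  · obtain ⟨a, rfl⟩ := hj
    simp only [e.injective.extend_apply]
    exact (measurable_pi_apply a).comp measurable_fst
  · simp only [Function.extend_apply' _ _ _ hj]
    exact (measurable_pi_apply j).comp measurable_snd

theorem G8_c0 (q : ℕ) : ENNReal.ofReal ((2 * Real.pi) ^ q) ≠ 0 := by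
  rw [Ne, ENNReal.ofReal_eq_zero, not_le]
  positivity

theorem ext_map {N q : ℕ} (e : Fin q ↪ Fin N) :
    Measure.map (fun p : (Fin q → ℝ) × (Fin N → ℝ) => Function.extend e p.1 p.2)
      ((cube (Fin q)).prod (cube (Fin N))) = ENNReal.ofReal ((2 * Real.pi) ^ q) • cube (Fin N) := by
  classical
  have := cube_fin (Fin q)
  have := cube_fin (Fin N)
  set c := ENNReal.ofReal ((2 * Real.pi) ^ q) with hc
  have hc0 : c ≠ 0 := G8_c0 q
  have hct : c ≠ ⊤ := ENNReal.ofReal_ne_top
  have h1 : cube (Fin N) = c⁻¹ • Measure.map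
      (fun p : (Fin q → ℝ) × (Fin N → ℝ) => Function.extend e p.1 p.2)
      ((cube (Fin q)).prod (cube (Fin N))) := by
    conv_lhs => unfold cube
    refine Measure.pi_eq fun s hs => ?_
    rw [Measure.smul_apply, Measure.map_apply (G8_meas e) (MeasurableSet.univ_pi hs)]
    have hpre : (fun p : (Fin q → ℝ) × (Fin N → ℝ) => Function.extend e p.1 p.2) ⁻¹'
        (univ.pi s) = (univ.pi fun a => s (e a)) ×ˢ
          (univ.pi fun j => if j ∈ Set.range e then univ else s j) := by
      ext p
      rw [Set.mem_preimage, G8_pre, Set.mem_prod]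
      exact ⟨fun h => ⟨fun a _ => h.1 a, h.2⟩, fun h => ⟨fun a => h.1 a (mem_univ a), h.2⟩⟩
    rw [hpre, Measure.prod_prod, G8_box, ← hc]
    have h2 : cube (Fin q) (univ.pi fun a => s (e a)) =
        ∏ a, (volume.restrict (Ioc 0 (2 * Real.pi)) : Measure ℝ) (s (e a)) := by
      unfold cube
      rw [Measure.pi_pi]
    rw [h2, smul_eq_mul, G8_prod e
      (fun j => (volume.restrict (Ioc 0 (2 * Real.pi)) : Measure ℝ) (s j)),
      mul_left_comm _ c, ← mul_assoc, ENNReal.inv_mul_cancel hc0 hct, one_mul]
  conv_rhs => rw [h1]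
  rw [smul_smul, ENNReal.mul_inv_cancel hc0 hct, one_smul]

instance G8_sf {q : ℕ} (x : Fin q → ℝ) (o : Option (Fin q)) : SigmaFinite (nu x o) := by
  cases o with
  | none => unfold nu; infer_instance
  | some a => unfold nu; infer_instance

theorem Iw_ext {N q : ℕ} (x : Fin q → ℝ) (e : Fin q ↪ Fin N) :
    (2 * Real.pi) ^ q * Iw x (Function.partialInv e)
      = ∫ θ, wt (Function.extend e x θ) ∂(cube (Fin N)) := by
  classical
  have := cube_fin (Fin N)
  set c := ENNReal.ofReal ((2 * Real.pi) ^ q) with hc
  have hc0 : c ≠ 0 := G8_c0 q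
  have hct : c ≠ ⊤ := ENNReal.ofReal_ne_top
  have hF : Measurable (fun θ : Fin N → ℝ => Function.extend e x θ) :=
    (G8_meas e).comp (measurable_const.prodMk measurable_id)
  have h1 : (Measure.pi fun j => nu x (Function.partialInv e j)) = c⁻¹ • Measure.map
      (fun θ : Fin N → ℝ => Function.extend e x θ) (cube (Fin N)) := by
    refine Measure.pi_eq fun s hs => ?_
    rw [Measure.smul_apply, Measure.map_apply hF (MeasurableSet.univ_pi hs), smul_eq_mul]
    have h2 : ∏ j, nu x (Function.partialInv e j) (s j) =
        (∏ a, Measure.dirac (x a) (s (e a))) * ∏ j, (if j ∈ Set.range e then 1 else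
        (volume.restrict (Ioc 0 (2 * Real.pi)) : Measure ℝ) (s j)) := by
      rw [G8_prod e]
      congr 1
      · refine Finset.prod_congr rfl fun a _ => ?_
        rw [Function.partialInv_left e.injective a]
        rfl
      · refine Finset.prod_congr rfl fun j _ => ?_
        by_cases hj : j ∈ Set.range e
        · rw [if_pos hj, if_pos hj]
        · rw [if_neg hj, if_neg hj]
          have h3 : Function.partialInv e j = none := by
            unfold Function.partialInv
            exact dif_neg fun ⟨a, ha⟩ => hj ⟨a, ha⟩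
          rw [h3]
          rfl
    rw [h2]
    by_cases hx : ∀ a, x a ∈ s (e a)
    · have hpre : (fun θ : Fin N → ℝ => Function.extend e x θ) ⁻¹' (univ.pi s) =
          univ.pi fun j => if j ∈ Set.range e then univ else s j := by
        ext θ
        rw [Set.mem_preimage, G8_pre]
        exact ⟨fun h => h.2, fun h => ⟨hx, h⟩⟩
      have h3 : ∏ a, Measure.dirac (x a) (s (e a)) = 1 := by
        refine Finset.prod_eq_one fun a _ => ?_
        rw [Measure.dirac_apply' _ (hs (e a)), Set.indicator_of_mem (hx a), Pi.one_apply]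
      rw [hpre, G8_box, ← hc, h3, one_mul, ← mul_assoc, ENNReal.inv_mul_cancel hc0 hct, one_mul]
    · have hpre : (fun θ : Fin N → ℝ => Function.extend e x θ) ⁻¹' (univ.pi s) = ∅ := by
        ext θ
        rw [Set.mem_preimage, G8_pre]
        exact ⟨fun h => absurd h.1 hx, fun h => absurd h (Set.notMem_empty _)⟩
      push Not at hx
      obtain ⟨a, ha⟩ := hx
      have h3 : ∏ a, Measure.dirac (x a) (s (e a)) = 0 := by
        refine Finset.prod_eq_zero (Finset.mem_univ a) ?_
        rw [Measure.dirac_apply' _ (hs (e a)), Set.indicator_of_notMem ha]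
      rw [hpre, measure_empty, h3, mul_zero, zero_mul]
  have h4 : Measure.map (fun θ : Fin N → ℝ => Function.extend e x θ) (cube (Fin N)) =
      c • (Measure.pi fun j => nu x (Function.partialInv e j)) := by
    rw [h1, smul_smul, ENNReal.mul_inv_cancel hc0 hct, one_smul]
  rw [← integral_map (f := wt) hF.aemeasurable wt_cont.aestronglyMeasurable, h4,
    integral_smul_measure, hc, ENNReal.toReal_ofReal (by positivity), smul_eq_mul]
  rfl

end COE
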