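import Pool.Agent.LibCOE.Def2
import Pool.Agent.LibCOE.CO_W1
import Pool.Agent.LibCOE.CO_W2
import Pool.Agent.LibCOE.CP_G8

/-! Row G9. Proof sketch:
(2π)^q ∫ F(x) Iw x = ∫∫ F(x) wt (extend e x θ) dθ dx = ∫∫ G (extend e x θ), G θ = F (θ ∘ e) wt θ (F (extend e x θ ∘ e) = F x by
injectivity), = ∫ G d(map of the product measure) = (2π)^q ∫ G ∂cube (ext_map; `integral_prod`, `integral_map`,
`integral_smul_measure`); all integrands bounded and measurable on finite measures. -/

open MeasureTheory Set Filter Topology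

namespace COE

open QGr


theorem G9_ext_meas {N q : ℕ} (e : Fin q ↪ Fin N) :
    Measurable fun p : (Fin q → ℝ) × (Fin N → ℝ) => Function.extend e p.1 p.2 := by
  rw [measurable_pi_iff]
  intro j
  by_cases h : ∃ a, e a = j
  · obtain ⟨a, rfl⟩ := h
    have h1 : (fun p : (Fin q → ℝ) × (Fin N → ℝ) => Function.extend e p.1 p.2 (e a))
        = fun p => p.1 a := by
      funext p
      exact e.injective.extend_apply _ _ _
    rw [h1]
    exact (measurable_pi_apply a).comp measurable_fst
  · have h1 : (fun p : (Fin q → ℝ) × (Fin N → ℝ) => Function.extend e p.1 p.2 j)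
        = fun p => p.2 j := by
      funext p
      exact Function.extend_apply' _ _ _ h
    rw [h1]
    exact (measurable_pi_apply j).comp measurable_snd

theorem Iw_fub {N q : ℕ} (e : Fin q ↪ Fin N) (F : (Fin q → ℝ) → ℝ) (hF : Measurable F) (K : ℝ)
    (hK : ∀ x, |F x| ≤ K) :
    ∫ x, F x * Iw x (Function.partialInv e) ∂(cube (Fin q))
      = ∫ θ, F (fun a => θ (e a)) * wt θ ∂(cube (Fin N)) := by
  have := cube_fin (Fin q)
  have := cube_fin (Fin N)
  have hpi : (0 : ℝ) < (2 * Real.pi) ^ q := by positivity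
  set G : (Fin N → ℝ) → ℝ := fun θ => F (fun a => θ (e a)) * wt θ with hG
  have hGm : Measurable G := by
    refine Measurable.mul (hF.comp ?_) wt_cont.measurable
    rw [measurable_pi_iff]
    exact fun a => measurable_pi_apply (e a)
  have hGb : ∀ θ, ‖G θ‖ ≤ K * 2 ^ (N * N) := by
    intro θ
    rw [hG, norm_mul, Real.norm_eq_abs, Real.norm_eq_abs, abs_of_nonneg (wt_nonneg θ)]
    exact mul_le_mul (hK _) (wt_le θ) (wt_nonneg θ) ((abs_nonneg _).trans (hK fun a => θ (e a)))
  have h1 : ∫ p, G (Function.extend e p.1 p.2) ∂((cube (Fin q)).prod (cube (Fin N)))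
      = (2 * Real.pi) ^ q * ∫ θ, G θ ∂(cube (Fin N)) := by
    have h2 := integral_map (μ := (cube (Fin q)).prod (cube (Fin N))) (G9_ext_meas e).aemeasurable
      (f := G) hGm.aestronglyMeasurable
    rw [← h2, ext_map e, integral_smul_measure, ENNReal.toReal_ofReal hpi.le, smul_eq_mul]
  have h2 : ∫ p, G (Function.extend e p.1 p.2) ∂((cube (Fin q)).prod (cube (Fin N)))
      = ∫ x, ∫ θ, G (Function.extend e x θ) ∂(cube (Fin N)) ∂(cube (Fin q)) := by
    rw [integral_prod]
    refine Integrable.of_bound (hGm.comp (G9_ext_meas e)).aestronglyMeasurable (K * 2 ^ (N * N))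
      (Filter.Eventually.of_forall fun p => hGb _)
  have h3 : ∀ x : Fin q → ℝ, ∫ θ, G (Function.extend e x θ) ∂(cube (Fin N))
      = (2 * Real.pi) ^ q * (F x * Iw x (Function.partialInv e)) := by
    intro x
    have h4 : ∀ θ : Fin N → ℝ, G (Function.extend e x θ) = F x * wt (Function.extend e x θ) := by
      intro θ
      rw [hG]
      simp only
      congr 2
      funext a
      exact e.injective.extend_apply _ _ _
    rw [integral_congr_ae (Filter.Eventually.of_forall h4), integral_const_mul, ← Iw_ext]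
    ring
  rw [h2, integral_congr_ae (Filter.Eventually.of_forall h3), integral_const_mul] at h1
  exact mul_left_cancel₀ hpi.ne' h1

end COE
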