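import Pool.Agent.LibCOE.Def2
import Pool.Agent.LibCOE.CO_P10

/-! Row V4. Proof sketch:
rq_per: all kernels change sign under r ↦ r ± 2π (hp k is a half-integer: cos (hp (r + 2π)) = -cos, likewise sin; sin (r/2 + π) =
-sin (r/2), Real.sign_neg), so the new matrix is E K E, E diagonal with -1 at (j,0), (j,1): det E ^ 2 = 1 (`Matrix.det_mul`). rq_shift:
differences. rq_neg: KM (-x) = -(E KM(x) E), E = diag (1 on (a,0), -1 on (a,1)) by parity; det (-M) = (-1)^(2q) det M. Measurability: det
is a finite sum of products of measurable entries (`Matrix.det_apply`, Real.sign measurable, kS, kD, kI, gS continuous, deriv gS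
measurable (`measurable_deriv`), r ↦ ∫_0^r gS continuous). rq_bdd: entries bounded (finite sums), det bounded by Leibniz or `Matrix.det_le`. -/

open MeasureTheory Set Filter Topology

namespace COE

open QGr


theorem V4_det_conj {ι : Type} [Fintype ι] [DecidableEq ι] (s : ι → ℝ) (hs : ∀ a, s a * s a = 1)
    (M M' : Matrix ι ι ℝ) (h : ∀ a b, M' a b = s a * (s b * M a b)) : M'.det = M.det := by
  have h1 : M' = Matrix.of fun a b => s a * (Matrix.of fun a b => s b * M a b) a b := by
    ext a b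
    simp [h]
  rw [h1, Matrix.det_mul_column, Matrix.det_mul_row, ← mul_assoc, ← Finset.prod_mul_distrib]
  simp [hs]

theorem V4_cos {n : ℕ} (k : Ix n) (r : ℝ) :
    Real.cos (hp k * (r + 2 * Real.pi)) = -Real.cos (hp k * r) := by
  have h : hp k * (r + 2 * Real.pi) = hp k * r + Real.pi + ((od k : ℤ) - n : ℤ) * (2 * Real.pi) := by
    unfold hp; push_cast; ring
  rw [h, Real.cos_add_int_mul_two_pi, Real.cos_add_pi]

theorem V4_sin {n : ℕ} (k : Ix n) (r : ℝ) :
    Real.sin (hp k * (r + 2 * Real.pi)) = -Real.sin (hp k * r) := by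
  have h : hp k * (r + 2 * Real.pi) = hp k * r + Real.pi + ((od k : ℤ) - n : ℤ) * (2 * Real.pi) := by
    unfold hp; push_cast; ring
  rw [h, Real.sin_add_int_mul_two_pi, Real.sin_add_pi]

theorem V4_anti (n : ℕ) (r : ℝ) : kS n (r + 2 * Real.pi) = -kS n r ∧
    kD n (r + 2 * Real.pi) = -kD n r ∧ kJ n (r + 2 * Real.pi) = -kJ n r := by
  refine ⟨?_, ?_, ?_⟩
  · unfold kS
    simp_rw [V4_cos, Finset.sum_neg_distrib]; ring
  · unfold kD
    simp_rw [V4_sin, mul_neg, Finset.sum_neg_distrib]; ring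
  · unfold kJ kI
    have h : (r + 2 * Real.pi) / 2 = r / 2 + Real.pi := by ring
    rw [h, Real.sin_add_pi, Real.sign_neg]
    simp_rw [V4_sin, mul_neg, Finset.sum_neg_distrib]; ring

theorem V4_anti' (n : ℕ) (r : ℝ) : kS n (r - 2 * Real.pi) = -kS n r ∧
    kD n (r - 2 * Real.pi) = -kD n r ∧ kJ n (r - 2 * Real.pi) = -kJ n r := by
  have h := V4_anti n (r - 2 * Real.pi)
  rw [sub_add_cancel] at h
  exact ⟨by rw [h.1, neg_neg], by rw [h.2.1, neg_neg], by rw [h.2.2, neg_neg]⟩

theorem V4_par (n : ℕ) (r : ℝ) : kS n (-r) = kS n r ∧ kD n (-r) = -kD n r ∧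
    kJ n (-r) = -kJ n r := by
  refine ⟨?_, ?_, ?_⟩
  · unfold kS
    simp_rw [mul_neg, Real.cos_neg]
  · unfold kD
    simp_rw [mul_neg, Real.sin_neg, mul_neg, Finset.sum_neg_distrib]; ring
  · unfold kJ kI
    have h : -r / 2 = -(r / 2) := by ring
    rw [h, Real.sin_neg, Real.sign_neg]
    simp_rw [mul_neg, Real.sin_neg, mul_neg, Finset.sum_neg_distrib]; ring

theorem rq_per {q : ℕ} (n : ℕ) (x : Fin q → ℝ) (j : Fin q) :
    rq n (Function.update x j (x j + 2 * Real.pi)) = rq n x := by
  unfold rq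
  congr 1
  refine V4_det_conj (fun a : Ix q => if a.1 = j then -1 else 1) (fun a => by split_ifs <;> norm_num)
    _ _ ?_
  rintro ⟨a, i⟩ ⟨b, i'⟩
  simp only [KM]
  rcases eq_or_ne a j with ha | ha <;> rcases eq_or_ne b j with hb | hb
  · subst ha; subst hb
    simp
  · subst ha
    have h1 : Function.update x a (x a + 2 * Real.pi) a - Function.update x a (x a + 2 * Real.pi) b =
        (x a - x b) + 2 * Real.pi := by
      rw [Function.update_self, Function.update_of_ne hb]; ring
    obtain ⟨h2, h3, h4⟩ := V4_anti n (x a - x b)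
    rw [h1, h2, h3, h4]
    fin_cases i <;> fin_cases i' <;> simp [hb]
  · subst hb
    have h1 : Function.update x b (x b + 2 * Real.pi) a - Function.update x b (x b + 2 * Real.pi) b =
        (x a - x b) - 2 * Real.pi := by
      rw [Function.update_self, Function.update_of_ne ha]; ring
    obtain ⟨h2, h3, h4⟩ := V4_anti' n (x a - x b)
    rw [h1, h2, h3, h4]
    fin_cases i <;> fin_cases i' <;> simp [ha]
  · rw [Function.update_of_ne ha, Function.update_of_ne hb]
    simp [ha, hb]

theorem rq_shift {q : ℕ} (n : ℕ) (x : Fin q → ℝ) (c : ℝ) : rq n (fun j => x j + c) = rq n x := by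
  unfold rq KM
  simp only [add_sub_add_right_eq_sub]

theorem rq_neg {q : ℕ} (n : ℕ) (x : Fin q → ℝ) : rq n (fun j => -x j) = rq n x := by
  unfold rq
  congr 1
  have h1 : (KM (kD n) (kS n) (kJ n) fun j => -x j).det =
      (-(KM (kD n) (kS n) (kJ n) x)).det := by
    refine V4_det_conj (fun a : Ix q => if a.2 = 0 then 1 else -1)
      (fun a => by split_ifs <;> norm_num) _ _ ?_
    rintro ⟨a, i⟩ ⟨b, i'⟩
    simp only [KM, Matrix.neg_apply]
    have e : -x a - -x b = -(x a - x b) := by ring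
    obtain ⟨h2, h3, h4⟩ := V4_par n (x a - x b)
    rw [e, h2, h3, h4]
    fin_cases i <;> fin_cases i' <;> simp
  rw [h1, Matrix.det_neg]
  have h2 : Fintype.card (Ix q) = 2 * q := by simp [Ix, mul_comm]
  rw [h2, pow_mul]
  simp

theorem V4_sign : Measurable Real.sign := by
  unfold Real.sign
  exact Measurable.ite measurableSet_Iio measurable_const
    (Measurable.ite measurableSet_Ioi measurable_const measurable_const)

theorem V4_meas {q : ℕ} {D S J : ℝ → ℝ} (hD : Measurable D) (hS : Measurable S)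
    (hJ : Measurable J) : Measurable fun x : Fin q → ℝ => √(KM D S J x).det := by
  have hent : ∀ a b : Ix q, Measurable fun x : Fin q → ℝ => KM D S J x a b := by
    rintro ⟨a, i⟩ ⟨b, j⟩
    have h0 : Measurable fun x : Fin q → ℝ => x a - x b :=
      (measurable_pi_apply a).sub (measurable_pi_apply b)
    have h1 := hD.comp h0
    have h2 := hS.comp h0
    have h3 := hJ.comp h0
    fin_cases i <;> fin_cases j
    · exact h1.neg
    · exact h2
    · exact h2.neg
    · exact h3.neg
  refine Measurable.sqrt ?_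
  simp_rw [Matrix.det_apply]
  refine Finset.measurable_sum _ (fun σ _ => ?_)
  refine Measurable.const_smul ?_ _
  exact Finset.measurable_prod _ (fun a _ => hent _ _)

theorem V4_kS (n : ℕ) : Continuous (kS n) := by
  unfold kS; fun_prop

theorem V4_kD (n : ℕ) : Continuous (kD n) := by
  unfold kD; fun_prop

theorem V4_kI (n : ℕ) : Continuous (kI n) := by
  unfold kI; fun_prop

theorem rq_meas {q : ℕ} (n : ℕ) : Measurable (rq n : (Fin q → ℝ) → ℝ) := by
  refine V4_meas (V4_kD n).measurable (V4_kS n).measurable ?_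
  unfold kJ
  exact ((V4_sign.comp (by fun_prop)).div_const 2).sub (V4_kI n).measurable

theorem rq_bdd {q : ℕ} (n : ℕ) : ∃ K, ∀ x : Fin q → ℝ, |rq n x| ≤ K := by
  have hS : ∃ K, ∀ r, |kS n r| ≤ K := by
    refine ⟨|1 / (2 * Real.pi)| * ∑ k : Ix n, 1, fun r => ?_⟩
    unfold kS
    rw [abs_mul]
    refine mul_le_mul_of_nonneg_left ((Finset.abs_sum_le_sum_abs _ _).trans ?_) (abs_nonneg _)
    exact Finset.sum_le_sum fun k _ => Real.abs_cos_le_one _
  have hD : ∃ K, ∀ r, |kD n r| ≤ K := by
    refine ⟨|-(1 / (2 * Real.pi))| * ∑ k : Ix n, |hp k|, fun r => ?_⟩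
    unfold kD
    rw [abs_mul]
    refine mul_le_mul_of_nonneg_left ((Finset.abs_sum_le_sum_abs _ _).trans ?_) (abs_nonneg _)
    refine Finset.sum_le_sum fun k _ => ?_
    rw [abs_mul]
    exact mul_le_of_le_one_right (abs_nonneg _) (Real.abs_sin_le_one _)
  have hI : ∃ K, ∀ r, |kI n r| ≤ K := by
    refine ⟨|1 / (2 * Real.pi)| * ∑ k : Ix n, |1 / hp k|, fun r => ?_⟩
    unfold kI
    rw [abs_mul]
    refine mul_le_mul_of_nonneg_left ((Finset.abs_sum_le_sum_abs _ _).trans ?_) (abs_nonneg _)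
    refine Finset.sum_le_sum fun k _ => ?_
    rw [abs_mul]
    exact mul_le_of_le_one_right (abs_nonneg _) (Real.abs_sin_le_one _)
  obtain ⟨K1, h1⟩ := hS
  obtain ⟨K2, h2⟩ := hD
  obtain ⟨K3, h3⟩ := hI
  set K := K1 + K2 + K3 + 1 with hK
  have h10 : 0 ≤ K1 := (abs_nonneg _).trans (h1 0)
  have h20 : 0 ≤ K2 := (abs_nonneg _).trans (h2 0)
  have h30 : 0 ≤ K3 := (abs_nonneg _).trans (h3 0)
  have hsg : ∀ r, |Real.sign r / 2| ≤ 1 := by
    intro r
    rcases Real.sign_apply_eq r with h | h | h <;> rw [h] <;> norm_num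
  have hJ : ∀ r, |kJ n r| ≤ K := by
    intro r
    unfold kJ
    have a1 := abs_sub (Real.sign (Real.sin (r / 2)) / 2) (kI n r)
    have a2 := hsg (Real.sin (r / 2))
    have a3 := h3 r
    linarith
  refine ⟨√((Nat.factorial (Fintype.card (Ix q))) • K ^ Fintype.card (Ix q)), fun x => ?_⟩
  unfold rq
  rw [abs_of_nonneg (Real.sqrt_nonneg _)]
  refine Real.sqrt_le_sqrt ((le_abs_self _).trans ?_)
  refine Matrix.det_le (abv := AbsoluteValue.abs) (x := K) ?_
  rintro ⟨a, i⟩ ⟨b, j⟩
  have b1 := h1 (x a - x b)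
  have b2 := h2 (x a - x b)
  have b3 := hJ (x a - x b)
  fin_cases i <;> fin_cases j <;> simp [KM, AbsoluteValue.abs_apply] <;> linarith

theorem V4_sin_sc (n : ℕ) (F : ℝ → ℝ) (hF : Continuous F) (c d : ℝ) :
    Continuous fun r => c * F (d * r / n) := by fun_prop

theorem rs_meas {q : ℕ} (n : ℕ) : Measurable (rs n : (Fin q → ℝ) → ℝ) := by
  have hS := V4_kS n
  have hD := V4_kD n
  have hI := V4_kI n
  refine V4_meas ?_ ?_ ?_
  · unfold sD
    exact (continuous_const.mul (hD.comp (by fun_prop))).measurable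
  · unfold sS
    exact (continuous_const.mul (hS.comp (by fun_prop))).measurable
  · unfold sJ
    exact (V4_sign.div_const 2).sub (hI.comp (by fun_prop)).measurable

theorem V4_gS : Continuous gS := by
  unfold gS
  exact Real.continuous_sinc.comp (by fun_prop)

theorem gR_meas {q : ℕ} : Measurable (gR : (Fin q → ℝ) → ℝ) := by
  refine V4_meas (measurable_deriv _) V4_gS.measurable ?_
  unfold gJ
  refine (V4_sign.div_const 2).sub (Continuous.measurable ?_)
  exact intervalIntegral.continuous_primitive (fun a b => V4_gS.intervalIntegrable a b) 0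

end COE
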