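import Pool.Agent.LibCOE.Def2
import Pool.Agent.LibCOE.CO_W1
import Pool.Agent.LibCOE.CO_W2
import Pool.Agent.LibCOE.CP_G7
import Pool.Agent.LibCOE.CP_G8
import Pool.Agent.LibCOE.CP_G9
import Pool.Agent.LibCOE.CP_V4

/-! Row G10. Proof sketch:
Sum Iw_fub over e: ∫ (∑_e F (θ ∘ e)) wt = ∑_e ∫ F Iw(e) = ∫ F(x) ∑_e Iw x (partialInv e) = ∫ F (∫ wt) rq, by dens for a.e. x
(cube is carried by (0, 2π]^q). Integrability: x ↦ Iw x (partialInv e) is bounded; measurable by Iw_ext (continuity in x of
∫ wt (extend e x θ) dθ, or `StronglyMeasurable.integral_prod_right'`). -/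

open MeasureTheory Set Filter Topology

namespace COE

open QGr


theorem G10_ext_meas {N q : ℕ} (e : Fin q ↪ Fin N) :
    Measurable fun p : (Fin q → ℝ) × (Fin N → ℝ) => Function.extend e p.1 p.2 := by
  rw [measurable_pi_iff]
  intro j
  by_cases h : ∃ a, e a = j
  · obtain ⟨a, rfl⟩ := h
    have h1 : (fun p : (Fin q → ℝ) × (Fin N → ℝ) => Function.extend e p.1 p.2 (e a))
        = fun p => p.1 a := by
      funext p
      exact e.injective.extend_apply _ _ _
    rw [h1]
    exact (measurable_pi_apply a).comp measurable_fst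
  · have h1 : (fun p : (Fin q → ℝ) × (Fin N → ℝ) => Function.extend e p.1 p.2 j)
        = fun p => p.2 j := by
      funext p
      exact Function.extend_apply' _ _ _ h
    rw [h1]
    exact (measurable_pi_apply j).comp measurable_snd

theorem G10_Iw {N q : ℕ} (e : Fin q ↪ Fin N) :
    Measurable (fun x : Fin q → ℝ => Iw x (Function.partialInv e)) ∧
    ∃ K, ∀ x : Fin q → ℝ, |Iw x (Function.partialInv e)| ≤ K := by
  have := cube_fin (Fin N)
  have hpi : (0 : ℝ) < (2 * Real.pi) ^ q := by positivity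
  have h1 : (fun x : Fin q → ℝ => Iw x (Function.partialInv e))
      = fun x => ((2 * Real.pi) ^ q)⁻¹ * ∫ θ, wt (Function.extend e x θ) ∂(cube (Fin N)) := by
    funext x
    rw [← Iw_ext, ← mul_assoc, inv_mul_cancel₀ hpi.ne', one_mul]
  constructor
  · rw [h1]
    refine Measurable.const_mul ?_ _
    have h2 : StronglyMeasurable fun p : (Fin q → ℝ) × (Fin N → ℝ) => wt (Function.extend e p.1 p.2) :=
      (wt_cont.measurable.comp (G10_ext_meas e)).stronglyMeasurable
    exact h2.integral_prod_right'.measurable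
  · refine ⟨((2 * Real.pi) ^ q)⁻¹ * (2 ^ (N * N) * (cube (Fin N)).real univ), fun x => ?_⟩
    have h3 := congrFun h1 x
    rw [h3, abs_mul, abs_of_pos (inv_pos.2 hpi)]
    refine mul_le_mul_of_nonneg_left ?_ (inv_pos.2 hpi).le
    have h4 := norm_integral_le_of_norm_le_const (μ := cube (Fin N)) (C := 2 ^ (N * N))
      (f := fun θ => wt (Function.extend e x θ)) (Filter.Eventually.of_forall fun θ => by
        rw [Real.norm_eq_abs, abs_of_nonneg (wt_nonneg _)]
        exact wt_le _)
    simpa [Real.norm_eq_abs] using h4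

theorem dens_int {q : ℕ} (n : ℕ) (F : (Fin q → ℝ) → ℝ) (hF : Measurable F) (K : ℝ)
    (hK : ∀ x, |F x| ≤ K) :
    ∫ θ, (∑ e : Fin q ↪ Fin (n * 2), F fun a => θ (e a)) * wt θ ∂(cube (Fin (n * 2)))
      = (∫ θ, wt θ ∂(cube (Fin (n * 2)))) * ∫ x, F x * rq n x ∂(cube (Fin q)) := by
  have := cube_fin (Fin q)
  have := cube_fin (Fin (n * 2))
  have h1 : ∫ θ, (∑ e : Fin q ↪ Fin (n * 2), F fun a => θ (e a)) * wt θ ∂(cube (Fin (n * 2)))
      = ∑ e : Fin q ↪ Fin (n * 2), ∫ θ, F (fun a => θ (e a)) * wt θ ∂(cube (Fin (n * 2))) := by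
    rw [← integral_finsetSum]
    · refine integral_congr_ae (Filter.Eventually.of_forall fun θ => ?_)
      simp only
      rw [Finset.sum_mul]
    · intro e _
      have hm : Measurable fun θ : Fin (n * 2) → ℝ => F (fun a => θ (e a)) * wt θ := by
        refine Measurable.mul (hF.comp ?_) wt_cont.measurable
        rw [measurable_pi_iff]
        exact fun a => measurable_pi_apply (e a)
      refine Integrable.of_bound hm.aestronglyMeasurable (K * 2 ^ (n * 2 * (n * 2)))
        (Filter.Eventually.of_forall fun θ => ?_)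
      rw [norm_mul, Real.norm_eq_abs, Real.norm_eq_abs, abs_of_nonneg (wt_nonneg θ)]
      exact mul_le_mul (hK _) (wt_le θ) (wt_nonneg θ) ((abs_nonneg _).trans (hK fun a => θ (e a)))
  have h2 : ∑ e : Fin q ↪ Fin (n * 2), ∫ θ, F (fun a => θ (e a)) * wt θ ∂(cube (Fin (n * 2)))
      = ∫ x, F x * ∑ e : Fin q ↪ Fin (n * 2), Iw x (Function.partialInv e) ∂(cube (Fin q)) := by
    rw [Finset.sum_congr rfl fun e _ => (Iw_fub e F hF K hK).symm, ← integral_finsetSum]
    · refine integral_congr_ae (Filter.Eventually.of_forall fun x => ?_)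
      simp only
      rw [Finset.mul_sum]
    · intro e _
      obtain ⟨hm, K', hK'⟩ := G10_Iw e
      refine Integrable.of_bound (hF.mul hm).aestronglyMeasurable (K * K')
        (Filter.Eventually.of_forall fun x => ?_)
      rw [norm_mul, Real.norm_eq_abs, Real.norm_eq_abs]
      exact mul_le_mul (hK _) (hK' x) (abs_nonneg _) ((abs_nonneg _).trans (hK x))
  have h3 : ∀ᵐ x ∂(cube (Fin q)), ∀ a, x a ∈ Ioc 0 (2 * Real.pi) := by
    rw [ae_all_iff]
    intro a
    have h4 : ∀ᵐ y ∂(volume.restrict (Ioc 0 (2 * Real.pi))), y ∈ Ioc 0 (2 * Real.pi) :=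
      ae_restrict_mem measurableSet_Ioc
    unfold cube
    exact (Measure.tendsto_eval_ae_ae (μ := fun _ : Fin q => volume.restrict (Ioc 0 (2 * Real.pi)))
      (i := a)) h4
  rw [h1, h2, ← integral_const_mul]
  refine integral_congr_ae ?_
  filter_upwards [h3] with x hx
  rw [dens n x hx]
  ring

end COE
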