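import Pool.Agent.LibCOE.Def2

/-! Row S1. Proof sketch:
Hadamard's inequality. `Orientation.abs_volumeForm_apply_le` (|volumeForm v| <= ∏ ‖v i‖) in EuclideanSpace ℝ (Fin d): volumeForm of the
standard orientation is the determinant in an orthonormal basis (`Orientation.volumeForm_robust`, `OrthonormalBasis.det`), rows v i of A
(reindex ι ≃ Fin d, d = card ι); ‖v i‖ <= K √d. d = 0 trivial. Alternative: AAᵀ is positive semidefinite with trace <= d·(K² d), AM-GM on
the eigenvalues: det (AAᵀ) <= (trace/d)^d. -/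

open MeasureTheory Set Filter Topology

namespace COE

open QGr

theorem S1_fin (d : ℕ) (A : Matrix (Fin d) (Fin d) ℝ) (K : ℝ) (hK : 0 ≤ K)
    (hA : ∀ i j, |A i j| ≤ K) : |A.det| ≤ (K * √(d : ℝ)) ^ d := by
  set b := EuclideanSpace.basisFun (Fin d) ℝ with hb
  have : Fact (Module.finrank ℝ (EuclideanSpace ℝ (Fin d)) = d) := ⟨finrank_euclideanSpace_fin⟩
  set v : Fin d → EuclideanSpace ℝ (Fin d) := fun i => WithLp.toLp 2 (A i) with hv
  have h1 := (b.toBasis.orientation).abs_volumeForm_apply_le v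
  rw [(b.toBasis.orientation).volumeForm_robust b rfl] at h1
  have h2 : b.toBasis.det v = A.det := by
    rw [Module.Basis.det_apply, ← Matrix.det_transpose A]
    congr 1
  rw [h2] at h1
  refine h1.trans ?_
  have h3 : ∀ i, ‖v i‖ ≤ K * √(d : ℝ) := by
    intro i
    rw [EuclideanSpace.norm_eq]
    have h4 : ∑ j, ‖(v i) j‖ ^ 2 ≤ K ^ 2 * d := by
      calc ∑ j, ‖(v i) j‖ ^ 2 ≤ ∑ _j : Fin d, K ^ 2 := by
            apply Finset.sum_le_sum
            intro j _
            have : ‖(v i) j‖ ≤ K := by simpa [hv] using hA i j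
            exact pow_le_pow_left₀ (norm_nonneg _) this 2
        _ = K ^ 2 * d := by simp [mul_comm]
    calc √(∑ j, ‖(v i) j‖ ^ 2) ≤ √(K ^ 2 * d) := Real.sqrt_le_sqrt h4
      _ = K * √(d : ℝ) := by
          rw [Real.sqrt_mul (by positivity), Real.sqrt_sq hK]
  calc ∏ i, ‖v i‖ ≤ ∏ _i : Fin d, (K * √(d : ℝ)) :=
        Finset.prod_le_prod (fun i _ => norm_nonneg _) (fun i _ => h3 i)
    _ = (K * √(d : ℝ)) ^ d := by simp

theorem hadamard {ι : Type} [Fintype ι] [DecidableEq ι] (A : Matrix ι ι ℝ) (K : ℝ)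
    (hA : ∀ i j, |A i j| ≤ K) : |A.det| ≤ (K * √(Fintype.card ι)) ^ Fintype.card ι := by
  rcases isEmpty_or_nonempty ι with h | ⟨⟨i0⟩⟩
  · simp
  · have hK : 0 ≤ K := (abs_nonneg _).trans (hA i0 i0)
    have h := S1_fin (Fintype.card ι) (Matrix.reindex (Fintype.equivFin ι) (Fintype.equivFin ι) A) K
      hK (fun i j => hA _ _)
    rw [Matrix.det_reindex_self] at h
    exact h

end COE
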