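import Pool.Agent.LibCOE.Def2
import Pool.Agent.LibQGr.R_DEX
import Pool.Agent.LibQGr.R_PHS
import Pool.Agent.LibQGr.R_SPA

/-! Row S4. Proof sketch:
dia_exists for W = dr θ: F with Dia W F; y p = -(N/2π) F(-p), pspac N f (phases W) = pspac N f y (dia_phases, pspac_lip) =
(1/N) ∑_{a<N} f ((N/2π)(F(-a) - F(-a-1))) = (1/N) ∑_{b} f ((N/2π)(F b - F (b-1))) over any period of b (b ∈ [0, N)). The numbers e^{iθ_j} are
distinct (Dist), and diag (e^{iF a}) is similar to diag (e^{iθ_j}): there is a bijection π with e^{iF a} = e^{iθ_{π a}} (same characteristic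
polynomial, roots; or ker dimensions via IsPhases.mult: every t has multiplicity <= 1 and the sets agree), so F is strictly monotone and
{F c : c ∈ ℤ} = ∪_j (θ_j + 2πℤ). For b with F b = θ_p + 2πm: F(b-1) is the largest element below F b; the largest element of
θ_j + 2πℤ below F b is F b - (2π/N) gm N (θ p - θ j) for j ≠ p (gm/N·2π is the representative of θ p - θ j in (0, 2π]) and F b - 2π for
j = p (not larger). So (N/2π)(F b - F(b-1)) = min_{j≠p} gm N (θ p - θ j) = gp θ p. Sum over b ↔ p. -/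

open MeasureTheory Set Filter Topology


namespace COE

open QGr

theorem S4_gm_eq (N : ℕ) (r : ℝ) :
    gm N r = N * (r / (2 * Real.pi)) + N * ((1 + ⌊-(r / (2 * Real.pi))⌋ : ℤ) : ℝ) := by
  unfold gm
  rw [Int.fract]
  push_cast
  ring

theorem S4_gm_pos {N : ℕ} (hN : 0 < N) (r : ℝ) : 0 < gm N r := by
  unfold gm
  have h1 := Int.fract_lt_one (-(r / (2 * Real.pi)))
  have h2 : (0 : ℝ) < N := by exact_mod_cast hN
  exact mul_pos h2 (by linarith)

theorem S4_gm_le {N : ℕ} (hN : 0 < N) (r : ℝ) (m : ℤ)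
    (h : 0 < (N : ℝ) * (r / (2 * Real.pi)) + N * (m : ℝ)) :
    gm N r ≤ N * (r / (2 * Real.pi)) + N * (m : ℝ) := by
  rw [S4_gm_eq]
  have h2 : (0 : ℝ) < N := by exact_mod_cast hN
  have h3 : -(r / (2 * Real.pi)) < m := by
    by_contra hcon
    rw [not_lt] at hcon
    nlinarith
  have h4 : ⌊-(r / (2 * Real.pi))⌋ < m := by
    rw [Int.floor_lt]
    exact h3
  have h5 : (1 + ⌊-(r / (2 * Real.pi))⌋ : ℤ) ≤ m := by omega
  have h6 : ((1 + ⌊-(r / (2 * Real.pi))⌋ : ℤ) : ℝ) ≤ m := by exact_mod_cast h5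
  have h7 := mul_le_mul_of_nonneg_left h6 h2.le
  linarith

/-- The entries of the diagonal matrix. -/
theorem S4_entry {N : ℕ} (θ : Fin N → ℝ) : (dr θ).1 =
    Matrix.diagonal fun j => Complex.exp ((θ j : ℝ) * Complex.I) := by
  unfold dr dg
  show Matrix.diagonal _ = Matrix.diagonal _
  congr 1
  funext j
  rw [AddCircle.toCircle_apply_mk, Circle.coe_exp]
  congr 2
  have hpi := Real.pi_ne_zero
  congr 1
  field_simp

theorem S4_zero {N : ℕ} (hN : 0 < N) (x t : ℝ) :
    (1 - Complex.exp (2 * Real.pi * t / N * Complex.I) * Complex.exp ((x : ℝ) * Complex.I) = 0) ↔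
      ∃ m : ℤ, t = N * (m : ℝ) - N * (x / (2 * Real.pi)) := by
  have h2 : (N : ℝ) ≠ 0 := by exact_mod_cast hN.ne'
  have hpi := Real.pi_ne_zero
  rw [← Complex.exp_add, sub_eq_zero, eq_comm, Complex.exp_eq_one_iff]
  refine exists_congr fun m => ?_
  have h3 : (2 * Real.pi * t / N * Complex.I + (x : ℝ) * Complex.I : ℂ) =
      ((2 * Real.pi * t / N + x : ℝ) : ℂ) * Complex.I := by
    push_cast
    ring
  have h4 : ((m : ℂ) * (2 * Real.pi * Complex.I)) = ((m * (2 * Real.pi) : ℝ) : ℂ) * Complex.I := by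
    push_cast
    ring
  rw [h3, h4]
  constructor
  · intro h
    have h5 := mul_right_cancel₀ Complex.I_ne_zero h
    have h6 : 2 * Real.pi * t / N + x = m * (2 * Real.pi) := by exact_mod_cast h5
    field_simp at h6 ⊢
    linarith
  · intro h
    have h6 : 2 * Real.pi * t / N + x = m * (2 * Real.pi) := by
      rw [h]
      field_simp
      ring
    rw [h6]

theorem S4_mult {N : ℕ} (hN : 0 < N) (θ : Fin N → ℝ) (y : ℤ → ℝ) (hy : IsPhases (dr θ).1 y)
    (t : ℝ) : {p | y p = t}.encard =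
      ({j | ∃ m : ℤ, t = N * (m : ℝ) - N * (θ j / (2 * Real.pi))} : Set (Fin N)).encard := by
  classical
  rw [hy.mult t]
  set d : Fin N → ℂ := fun j => 1 - Complex.exp (2 * Real.pi * t / N * Complex.I) *
    Complex.exp ((θ j : ℝ) * Complex.I) with hd
  have h1 : (1 - Complex.exp (2 * Real.pi * t / N * Complex.I) • (dr θ).1 :
      Matrix (Fin N) (Fin N) ℂ) = Matrix.diagonal d := by
    rw [S4_entry, ← Matrix.diagonal_one, ← Matrix.diagonal_smul, Matrix.diagonal_sub]
    rfl
  rw [h1]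
  have h2 := LinearMap.finrank_range_add_finrank_ker (Matrix.toLin' (Matrix.diagonal d))
  have h3 : Module.finrank ℂ (LinearMap.range (Matrix.toLin' (Matrix.diagonal d))) =
      Fintype.card {i // d i ≠ 0} := by
    rw [← Matrix.rank_diagonal]
    rfl
  rw [h3, Module.finrank_fin_fun] at h2
  have h4 := Fintype.card_subtype_compl (fun i => d i = 0)
  have h5 : Fintype.card {i // d i ≠ 0} = Fintype.card {i // ¬ d i = 0} := rfl
  have h6 : Fintype.card {i // d i = 0} ≤ Fintype.card (Fin N) := Fintype.card_subtype_le _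
  rw [Fintype.card_fin] at h4 h6
  have h7 : Module.finrank ℂ (LinearMap.ker (Matrix.toLin' (Matrix.diagonal d))) =
      Fintype.card {i // d i = 0} := by omega
  rw [h7]
  have h8 : ({j | ∃ m : ℤ, t = N * (m : ℝ) - N * (θ j / (2 * Real.pi))} : Set (Fin N)) =
      {j | d j = 0} := by
    ext j
    exact (S4_zero hN (θ j) t).symm
  rw [h8, Set.encard_eq_coe_toFinset_card, Set.toFinset_card]
  rfl

theorem S4_per {N : ℕ} {y : ℤ → ℝ} (h : ∀ p, y (p + N) = y p + N) (p m : ℤ) :
    y (p + N * m) = y p + N * (m : ℝ) := by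
  have h1 : ∀ (k : ℕ) (q : ℤ), y (q + N * (k : ℤ)) = y q + N * (k : ℝ) := by
    intro k
    induction k with
    | zero => intro q; simp
    | succ k ih =>
      intro q
      have h2 : q + N * ((k + 1 : ℕ) : ℤ) = (q + N * (k : ℤ)) + N := by push_cast; ring
      rw [h2, h, ih]
      push_cast
      ring
  rcases Int.eq_nat_or_neg m with ⟨k, hk | hk⟩
  · rw [hk, h1]
    push_cast
    ring
  · have h2 := h1 k (p + N * m)
    have h3 : p + N * m + N * (k : ℤ) = p := by rw [hk]; ring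
    rw [h3] at h2
    rw [h2, hk]
    push_cast
    ring

theorem ph_gap {N : ℕ} (hN : 2 ≤ N) (θ : Fin N → ℝ) (hθ : Dist θ) (f : ℝ → ℝ) (L : ℝ)
    (hL0 : 0 ≤ L) (hL : ∀ u v, |f u - f v| ≤ L * dist u v) :
    pspac N f (phases (dr θ).1) = 1 / N * ∑ p, f (gp θ p) := by
  classical
  have hN0 : 0 < N := by omega
  have hNr : (0 : ℝ) < N := by exact_mod_cast hN0
  have hpi := Real.pi_pos
  have hy := phases_spec hN0 (dr θ)
  set y := phases (dr θ).1 with hydef
  -- at most one class
  have hone : ∀ (t : ℝ) (j j' : Fin N) (m m' : ℤ), t = N * (m : ℝ) - N * (θ j / (2 * Real.pi)) →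
      t = N * (m' : ℝ) - N * (θ j' / (2 * Real.pi)) → j = j' := by
    intro t j j' m m' h1 h2
    by_contra hne
    refine hθ j j' hne ?_
    have h3 : (N : ℝ) * (m : ℝ) - N * (θ j / (2 * Real.pi)) =
        N * (m' : ℝ) - N * (θ j' / (2 * Real.pi)) := h1.symm.trans h2
    have h4 : (m : ℝ) - θ j / (2 * Real.pi) = m' - θ j' / (2 * Real.pi) := by
      have h5 : (N : ℝ) * ((m : ℝ) - θ j / (2 * Real.pi)) = N * (m' - θ j' / (2 * Real.pi)) := by
        linarith
      exact mul_left_cancel₀ hNr.ne' h5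
    have h6 : (θ j' - θ j) / 2 = ((m' - m : ℤ) : ℝ) * Real.pi := by
      push_cast
      field_simp at h4
      linarith
    rw [h6]
    exact Real.sin_int_mul_pi _
  have hinj : Function.Injective y := by
    intro p q hpq
    have h1 : {r | y r = y q}.encard ≤ 1 := by
      rw [S4_mult hN0 θ y hy]
      refine Set.encard_le_one_iff.2 ?_
      rintro j j' ⟨m, hm⟩ ⟨m', hm'⟩
      exact hone _ j j' m m' hm hm'
    exact Set.encard_le_one_iff.1 h1 p q hpq rfl
  have hmono : StrictMono y := hy.mono.strictMono_of_injective hinj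
  have hex : ∀ t, (∃ p, y p = t) ↔ ∃ (j : Fin N) (m : ℤ),
      t = N * (m : ℝ) - N * (θ j / (2 * Real.pi)) := by
    intro t
    have h1 := S4_mult hN0 θ y hy t
    have h2 : ({p | y p = t} : Set ℤ).Nonempty ↔
        ({j | ∃ m : ℤ, t = N * (m : ℝ) - N * (θ j / (2 * Real.pi))} : Set (Fin N)).Nonempty := by
      rw [← Set.encard_pos, ← Set.encard_pos, h1]
    exact h2
  choose ρ μ hρ using fun a : ℤ => (hex (y a)).1 ⟨a, rfl⟩
  have hper := S4_per hy.per
  have hgap : ∀ a : ℤ, y (a + 1) - y a = gp θ (ρ a) := by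
    intro a
    have hlt : y a < y (a + 1) := hmono (by omega)
    have hne : ρ (a + 1) ≠ ρ a := by
      intro heq
      have h1 : y (a + 1) = y a + N * ((μ (a + 1) - μ a : ℤ) : ℝ) := by
        rw [hρ (a + 1), hρ a, heq]
        push_cast
        ring
      rw [← hper] at h1
      have h2 := hinj h1
      have h3 : (N : ℤ) * (μ (a + 1) - μ a) = 1 := by linarith
      have h4 := Int.eq_one_or_neg_one_of_mul_eq_one h3
      omega
    have hub : ∀ j : Fin N, y (a + 1) - y a ≤ gm N (θ (ρ a) - θ j) := by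
      intro j
      have h1 : ∃ b, y b = y a + gm N (θ (ρ a) - θ j) := by
        rw [hex]
        refine ⟨j, μ a + (1 + ⌊-((θ (ρ a) - θ j) / (2 * Real.pi))⌋), ?_⟩
        rw [S4_gm_eq, hρ a]
        push_cast
        ring
      obtain ⟨b, hb⟩ := h1
      have h2 : y a < y b := by
        rw [hb]
        linarith [S4_gm_pos hN0 (θ (ρ a) - θ j)]
      have h3 : a < b := hmono.lt_iff_lt.1 h2
      have h4 : y (a + 1) ≤ y b := hmono.monotone (by omega)
      rw [hb] at h4
      linarith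
    have hlb : gm N (θ (ρ a) - θ (ρ (a + 1))) ≤ y (a + 1) - y a := by
      have h1 : y (a + 1) - y a = N * ((θ (ρ a) - θ (ρ (a + 1))) / (2 * Real.pi)) +
          N * ((μ (a + 1) - μ a : ℤ) : ℝ) := by
        rw [hρ (a + 1), hρ a]
        push_cast
        ring
      have h2 := S4_gm_le hN0 (θ (ρ a) - θ (ρ (a + 1))) (μ (a + 1) - μ a) (by
        rw [← h1]
        linarith)
      rw [← h1] at h2
      exact h2
    unfold gp
    have : Nonempty {j : Fin N // j ≠ ρ a} := ⟨⟨ρ (a + 1), hne⟩⟩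
    refine le_antisymm (le_ciInf fun j => hub j.1) ?_
    refine (ciInf_le (Set.finite_range _).bddBelow (⟨ρ (a + 1), hne⟩ : {j : Fin N // j ≠ ρ a})).trans
      hlb
  unfold pspac
  congr 1
  have h1 : ∑ a ∈ Finset.range N, f (y (a + 1) - y a) =
      ∑ a : Fin N, f (gp θ (ρ ((a : ℕ) : ℤ))) := by
    rw [Finset.sum_range fun a : ℕ => f (y ((a : ℤ) + 1) - y (a : ℤ))]
    refine Finset.sum_congr rfl fun a _ => ?_
    rw [hgap]
  rw [h1]
  have hbij : Function.Bijective fun a : Fin N => ρ ((a : ℕ) : ℤ) := by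
    rw [← Finite.injective_iff_bijective]
    intro a b hab
    have hab' : ρ ((a : ℕ) : ℤ) = ρ ((b : ℕ) : ℤ) := hab
    have h2 : y ((a : ℕ) : ℤ) = y ((b : ℕ) : ℤ) +
        N * ((μ ((a : ℕ) : ℤ) - μ ((b : ℕ) : ℤ) : ℤ) : ℝ) := by
      rw [hρ ((a : ℕ) : ℤ), hρ ((b : ℕ) : ℤ), hab']
      push_cast
      ring
    rw [← hper] at h2
    have h3 := hinj h2
    have h4 := a.2
    have h5 := b.2
    generalize μ ((a : ℕ) : ℤ) - μ ((b : ℕ) : ℤ) = k at h3
    have h6 : k = 0 := by
      rcases lt_trichotomy k 0 with hk | hk | hk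
      · have h7 : (N : ℤ) * k ≤ N * (-1) := mul_le_mul_of_nonneg_left (by omega) (by omega)
        omega
      · exact hk
      · have h7 : (N : ℤ) * 1 ≤ N * k := mul_le_mul_of_nonneg_left (by omega) (by omega)
        omega
    rw [h6, mul_zero, add_zero] at h3
    exact Fin.ext (by exact_mod_cast h3)
  exact hbij.sum_comp fun p => f (gp θ p)

end COE
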