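import Pool.Agent.LibCOE.Def2

/-! Row S5. Proof sketch:
gm is a composition with Int.fract (`measurable_fract`). gp: finite infimum (`Finite.bddBelow`..., `ciInf_le`, `exists_eq_ciInf_of_finite`),
measurable as a finite inf (`Finset.inf'`/`Measurable.iInf` or `measurable_of_Iio`). 1 - fract ∈ (0, 1]. -/

open MeasureTheory Set Filter Topology

namespace COE

open QGr

theorem gm_meas (N : ℕ) : Measurable (gm N) := by
  unfold gm
  exact ((measurable_const.sub (measurable_fract.comp ((measurable_id.div_const _).neg)))).const_mul _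

theorem gp_meas {N : ℕ} (p : Fin N) : Measurable fun θ : Fin N → ℝ => gp θ p := by
  unfold gp
  exact Measurable.iInf fun j => (gm_meas N).comp ((measurable_pi_apply p).sub (measurable_pi_apply _))

theorem S5_nonempty {N : ℕ} (hN : 2 ≤ N) (p : Fin N) : Nonempty {j : Fin N // j ≠ p} := by
  have : Nontrivial (Fin N) := Fin.nontrivial_iff_two_le.2 hN
  obtain ⟨j, hj⟩ := exists_ne p
  exact ⟨⟨j, hj⟩⟩

theorem gp_iff {N : ℕ} (hN : 2 ≤ N) (θ : Fin N → ℝ) (p : Fin N) (s : ℝ) :
    s < gp θ p ↔ ∀ j, j ≠ p → s < gm N (θ p - θ j) := by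
  have hne := S5_nonempty hN p
  unfold gp
  constructor
  · intro h j hj
    exact lt_of_lt_of_le h (ciInf_le (Set.finite_range _).bddBelow (⟨j, hj⟩ : {j : Fin N // j ≠ p}))
  · intro h
    obtain ⟨⟨j, hj⟩, hij⟩ := exists_eq_ciInf_of_finite (f := fun j : {j : Fin N // j ≠ p} => gm N (θ p - θ j))
    rw [← hij]
    exact h j hj

theorem gp_bdd {N : ℕ} (hN : 2 ≤ N) (θ : Fin N → ℝ) (p : Fin N) : 0 < gp θ p ∧ gp θ p ≤ N := by
  have hN0 : (0 : ℝ) < N := by exact_mod_cast (by omega : 0 < N)
  constructor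
  · rw [gp_iff hN]
    intro j _
    unfold gm
    have := Int.fract_lt_one (-((θ p - θ j) / (2 * Real.pi)))
    exact mul_pos hN0 (by linarith)
  · obtain ⟨j⟩ := S5_nonempty hN p
    unfold gp
    refine (ciInf_le (Set.finite_range _).bddBelow j).trans ?_
    unfold gm
    have := Int.fract_nonneg (-((θ p - θ j) / (2 * Real.pi)))
    nlinarith

end COE
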