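import Pool.Agent.LibCOE.Def2
import Pool.Agent.LibQGr.R_DEX
import Pool.Agent.LibQGr.R_PHS
import Pool.Agent.LibQGr.R_SPA

/-! Row S3. Proof sketch:
dg θ has diagonal entries toCircle (θ i) = e^{2πi θ i}, so dr θ = diag (e^{iθ_j}). ph_angles: det W = e^{iS} (|det| = 1), dia_exists gives F with
Dia W F, φ a = F a; Dia (dr φ) F too (V = 1), traces as in CO_R2.lean. dia_phases: y p = -(N/2π) F(-p) satisfies IsPhases for both
W and dr φ; pspac_lip (second part) gives pspac N f (phases ..) = pspac N f y for both. ph_perm: dia_exists for dr θ gives F, and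
Dia (dr (θ ∘ σ)) F with V' = P_σ V (permutation matrix). sp_cont: pspac_lip (continuity in W) composed with θ ↦ dr θ continuous; dr (update ..) = dr θ
since (x + 2π)/(2π) = x/(2π) + 1 in UnitAddCircle. -/

open MeasureTheory Set Filter Topology


namespace COE

open QGr

theorem S3_dr {N : ℕ} (θ : Fin N → ℝ) :
    (dr θ).1 = Matrix.diagonal fun a => Complex.exp (θ a * Complex.I) := by
  change (Matrix.diagonal fun i => ((AddCircle.toCircle
    ((θ i / (2 * Real.pi) : ℝ) : UnitAddCircle) : Circle) : ℂ)) = _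
  apply congrArg Matrix.diagonal
  funext a
  rw [AddCircle.toCircle_apply_mk, Circle.coe_exp]
  have hpi : (2 * Real.pi : ℝ) ≠ 0 := by positivity
  have h1 : 2 * Real.pi / 1 * (θ a / (2 * Real.pi)) = θ a := by field_simp
  rw [h1]

theorem S3_det {N : ℕ} (W : Uni N) :
    W.1.det = Complex.exp ((Complex.arg W.1.det : ℝ) * Complex.I) := by
  have h1 := Matrix.det_of_mem_unitary W.2
  have h2 : ‖W.1.det‖ = 1 := by
    rw [Unitary.mem_iff] at h1
    have h3 : ‖W.1.det‖ * ‖W.1.det‖ = 1 := by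
      have h4 := congrArg (fun z : ℂ => ‖z‖) h1.2
      simpa using h4
    nlinarith [norm_nonneg W.1.det]
  have h5 := Complex.norm_mul_exp_arg_mul_I W.1.det
  rw [h2] at h5
  simpa using h5.symm

theorem S3_one {N : ℕ} (φ : Fin N → ℝ) (k : ℤ) :
    (Matrix.diagonal fun a => Complex.exp ((k * φ a : ℝ) * Complex.I) : Matrix (Fin N) (Fin N) ℂ)
      ∈ Matrix.unitaryGroup (Fin N) ℂ := by
  rw [Matrix.mem_unitaryGroup_iff, Matrix.star_eq_conjTranspose,
    Matrix.diagonal_conjTranspose, Matrix.diagonal_mul_diagonal]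
  ext i j
  by_cases h : i = j
  · subst h
    rw [Matrix.diagonal_apply_eq, Matrix.one_apply_eq]
    simp only [Pi.star_apply, Complex.star_def]
    rw [Complex.mul_conj, Complex.normSq_eq_norm_sq, Complex.norm_exp_ofReal_mul_I]
    simp
  · rw [Matrix.diagonal_apply_ne _ h, Matrix.one_apply_ne h]

theorem S3_pow {N : ℕ} (φ : Fin N → ℝ) (k : ℤ) :
    (⟨Matrix.diagonal fun a => Complex.exp (((1 : ℤ) * φ a : ℝ) * Complex.I), S3_one φ 1⟩ : Uni N) ^ k
      = ⟨Matrix.diagonal fun a => Complex.exp ((k * φ a : ℝ) * Complex.I), S3_one φ k⟩ := by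
  induction k using Int.induction_on with
  | zero =>
    rw [zpow_zero]
    apply Subtype.ext
    ext i j
    by_cases h : i = j
    · subst h
      simp
    · simp [h]
  | succ i ih =>
    rw [zpow_add_one, ih]
    apply Subtype.ext
    rw [Submonoid.coe_mul, Matrix.diagonal_mul_diagonal]
    congr 1
    funext a
    rw [← Complex.exp_add]
    congr 1
    push_cast
    ring
  | pred i ih =>
    rw [zpow_sub_one, ih, mul_inv_eq_iff_eq_mul]
    apply Subtype.ext
    rw [Submonoid.coe_mul, Matrix.diagonal_mul_diagonal]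
    have e : ∀ a, Complex.exp (((-(i : ℤ) : ℤ) * φ a : ℝ) * Complex.I)
        = Complex.exp (((-(i : ℤ) - 1 : ℤ) * φ a : ℝ) * Complex.I)
          * Complex.exp (((1 : ℤ) * φ a : ℝ) * Complex.I) := by
      intro a
      rw [← Complex.exp_add]
      congr 1
      push_cast
      ring
    exact congrArg Matrix.diagonal (funext e)

theorem S3_trace {N : ℕ} (W V : Uni N) (φ : Fin N → ℝ)
    (h : W.1 = V.1 * (Matrix.diagonal fun a => Complex.exp (φ a * Complex.I)) * V.1.conjTranspose)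
    (k : ℤ) : Matrix.trace ((W ^ k : Uni N).1) = ps k φ := by
  have h1 : W = V * ⟨Matrix.diagonal fun a => Complex.exp (((1 : ℤ) * φ a : ℝ) * Complex.I),
      S3_one φ 1⟩ * V⁻¹ := by
    apply Subtype.ext
    rw [h]
    simp only [Int.cast_one, one_mul]
    rfl
  rw [h1, conj_zpow, S3_pow]
  have h2 : ∀ X : Uni N, Matrix.trace ((V * X * V⁻¹ : Uni N).1) = Matrix.trace X.1 := by
    intro X
    have h3 : ((V * X * V⁻¹ : Uni N).1 : Matrix (Fin N) (Fin N) ℂ) = (V * X : Uni N).1 * (V⁻¹ : Uni N).1 :=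
      rfl
    rw [h3, Matrix.trace_mul_comm]
    have h4 : (V⁻¹ : Uni N).1 * (V * X : Uni N).1 = (V⁻¹ * (V * X) : Uni N).1 := rfl
    rw [h4, inv_mul_cancel_left]
  rw [h2, Matrix.trace_diagonal]
  rfl

theorem S3_same {N : ℕ} (hN : 0 < N) (W W' : Uni N) (F : ℤ → ℝ) (h : Dia W F) (h' : Dia W' F)
    (f : ℝ → ℝ) (L : ℝ) (hL0 : 0 ≤ L) (hL : ∀ u v, |f u - f v| ≤ L * dist u v) :
    pspac N f (phases W.1) = pspac N f (phases W'.1) := by
  have h1 := (pspac_lip hN f L hL0 hL).2.1
  rw [← h1 W.1 _ (dia_phases hN W F h), ← h1 W'.1 _ (dia_phases hN W' F h')]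

theorem ph_angles {N : ℕ} (hN : 0 < N) (W : Uni N) : ∃ φ : Fin N → ℝ,
    (∀ k : ℤ, Matrix.trace ((W ^ k : Uni N).1) = ps k φ) ∧
    ∀ (f : ℝ → ℝ) (L : ℝ), 0 ≤ L → (∀ u v, |f u - f v| ≤ L * dist u v) →
      pspac N f (phases W.1) = pspac N f (phases (dr φ).1) := by
  obtain ⟨F, hF, -⟩ := dia_exists hN W _ (S3_det W)
  obtain ⟨V, hV⟩ := hF.dia
  refine ⟨fun a => F (a : ℕ), S3_trace W V _ hV, fun f L hL0 hL => ?_⟩
  refine S3_same hN W _ F hF ⟨hF.mono, hF.per, 1, ?_⟩ f L hL0 hL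
  rw [S3_dr]
  simp

theorem ph_perm {N : ℕ} (hN : 0 < N) (θ : Fin N → ℝ) (σ : Equiv.Perm (Fin N)) (f : ℝ → ℝ) (L : ℝ)
    (hL0 : 0 ≤ L) (hL : ∀ u v, |f u - f v| ≤ L * dist u v) :
    pspac N f (phases (dr fun j => θ (σ j)).1) = pspac N f (phases (dr θ).1) := by
  obtain ⟨F, hF, -⟩ := dia_exists hN (dr θ) _ (S3_det (dr θ))
  obtain ⟨V, hV⟩ := hF.dia
  refine S3_same hN _ _ F ⟨hF.mono, hF.per, ?_⟩ hF f L hL0 hL
  have hVu : V.1 * V.1.conjTranspose = 1 := by
    have := V.2
    rw [Matrix.mem_unitaryGroup_iff] at this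
    exact this
  have hmem : V.1.submatrix σ id ∈ Matrix.unitaryGroup (Fin N) ℂ := by
    rw [Matrix.mem_unitaryGroup_iff, Matrix.star_eq_conjTranspose, Matrix.conjTranspose_submatrix,
      ← Matrix.submatrix_mul _ _ _ _ _ Function.bijective_id, hVu, Matrix.submatrix_one_equiv]
  refine ⟨⟨V.1.submatrix σ id, hmem⟩, ?_⟩
  have h1 : (dr fun j => θ (σ j)).1 = (dr θ).1.submatrix σ σ := by
    rw [S3_dr, S3_dr]
    ext i j
    rw [Matrix.submatrix_apply, Matrix.diagonal_apply, Matrix.diagonal_apply]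
    simp only [EmbeddingLike.apply_eq_iff_eq]
  rw [h1, hV, Matrix.submatrix_mul _ _ σ id σ Function.bijective_id,
    Matrix.submatrix_mul _ _ σ id id Function.bijective_id, Matrix.submatrix_id_id,
    Matrix.conjTranspose_submatrix]

theorem sp_cont {N : ℕ} (hN : 0 < N) (f : ℝ → ℝ) (L : ℝ)
    (hL0 : 0 ≤ L) (hL : ∀ u v, |f u - f v| ≤ L * dist u v) :
    (Continuous fun θ : Fin N → ℝ => pspac N f (phases (dr θ).1)) ∧
    ∀ (θ : Fin N → ℝ) j, pspac N f (phases (dr (Function.update θ j (θ j + 2 * Real.pi))).1)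
      = pspac N f (phases (dr θ).1) := by
  constructor
  · have h1 : Continuous fun θ : Fin N → ℝ => dr θ := by
      apply continuous_induced_rng.2
      have h2 : (Subtype.val ∘ fun θ : Fin N → ℝ => dr θ) = fun θ : Fin N → ℝ =>
          Matrix.diagonal fun a => Complex.exp (θ a * Complex.I) := by
        funext θ
        exact S3_dr θ
      rw [h2]
      apply Continuous.matrix_diagonal
      fun_prop
    exact (pspac_lip hN f L hL0 hL).1.comp h1
  · intro θ j
    have h1 : (dr (Function.update θ j (θ j + 2 * Real.pi))).1 = (dr θ).1 := by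
      rw [S3_dr, S3_dr]
      congr 1
      funext a
      by_cases h : a = j
      · subst h
        rw [Function.update_self]
        push_cast
        rw [add_mul, Complex.exp_add, Complex.exp_two_pi_mul_I, mul_one]
      · rw [Function.update_of_ne h]
    rw [h1]

end COE
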