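import Pool.Agent.LibCOE.Def2
import Pool.Agent.LibCOE.CO_C2

/-! Row W1. Proof sketch:
Induction on q, all m at once. q = 0: the constant 1 (empty product). Step: embeddings Fin (q+1) ↪ Fin N ≃ Σ e : Fin q ↪ Fin N, {j // j ∉ range e}
(`Equiv.embeddingFinSucc` or Fin.consEmbedding-like; mind which index is new, 0 or last), so the sum is ∑_e ∏_a (..)(ps m₀ θ - ∑_a e^{i m₀ θ_{e a}}) =
(sum for m') * ps m₀ θ - ∑_a (sum for m' with m'_a replaced by m'_a + m₀). First term: mul_Vd with ps m₀ ∈ Vd N |m₀| (mem_Vd with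
one factor), the others: induction hypothesis and monotonicity of Vd in d (`Submodule.span_mono`), |m'_a + m₀| <= |m'_a| + |m₀|. -/

open MeasureTheory Set Filter Topology

namespace COE

open QGr


/-- the sum over the injective functions -/
noncomputable def W1_T {N q : ℕ} (m : Fin q → ℤ) (θ : Fin N → ℝ) : ℂ := by
  classical
  exact ∑ f : Fin q → Fin N, if Function.Injective f then
    ∏ a, Complex.exp ((m a * θ (f a) : ℝ) * Complex.I) else 0

theorem W1_emb {N q : ℕ} (m : Fin q → ℤ) (θ : Fin N → ℝ) :
    ∑ e : Fin q ↪ Fin N, ∏ a, Complex.exp ((m a * θ (e a) : ℝ) * Complex.I) = W1_T m θ := by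
  classical
  unfold W1_T
  set G : (Fin q → Fin N) → ℂ := fun f => ∏ a, Complex.exp ((m a * θ (f a) : ℝ) * Complex.I)
    with hG
  have h1 : ∑ e : Fin q ↪ Fin N, G (e : Fin q → Fin N) =
      ∑ f : {f : Fin q → Fin N // Function.Injective f}, G f.1 :=
    (Equiv.sum_comp (Equiv.subtypeInjectiveEquivEmbedding (Fin q) (Fin N))
      (fun e : Fin q ↪ Fin N => G (e : Fin q → Fin N))).symm
  have h2 : ∑ f ∈ Finset.univ.filter (fun f : Fin q → Fin N => Function.Injective f), G f =
      ∑ f : {f : Fin q → Fin N // Function.Injective f}, G f.1 :=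
    Finset.sum_subtype _ (fun f => by simp) G
  calc ∑ e : Fin q ↪ Fin N, G (e : Fin q → Fin N)
      = ∑ f ∈ Finset.univ.filter (fun f : Fin q → Fin N => Function.Injective f), G f := by
        rw [h1, h2]
    _ = _ := by rw [Finset.sum_filter]

theorem W1_range {N q : ℕ} (f : Fin q → Fin N) (hf : Function.Injective f) (g : Fin N → ℂ)
    [DecidablePred fun j => j ∈ Set.range f] :
    ∑ j, (if j ∈ Set.range f then 0 else g j) = ∑ j, g j - ∑ b, g (f b) := by
  classical
  have h1 : ∑ b, g (f b) = ∑ j, if j ∈ Set.range f then g j else 0 := by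
    rw [← Finset.sum_filter]
    have h2 : Finset.univ.filter (fun j => j ∈ Set.range f) = Finset.univ.image f := by
      ext j
      simp
    rw [h2, Finset.sum_image (fun x _ y _ h => hf h)]
  rw [h1, ← Finset.sum_sub_distrib]
  refine Finset.sum_congr rfl fun j _ => ?_
  by_cases h : j ∈ Set.range f
  · rw [if_pos h, if_pos h, sub_self]
  · rw [if_neg h, if_neg h, sub_zero]

theorem W1_step {N q : ℕ} (m : Fin (q + 1) → ℤ) (θ : Fin N → ℝ) :
    W1_T m θ = W1_T (fun a => m a.succ) θ * ps (m 0) θ -
      ∑ b : Fin q, W1_T (Function.update (fun a => m a.succ) b (m b.succ + m 0)) θ := by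
  classical
  have hL : W1_T m θ = ∑ f : Fin q → Fin N, if Function.Injective f then
      (ps (m 0) θ - ∑ b, Complex.exp ((m 0 * θ (f b) : ℝ) * Complex.I)) *
        ∏ a, Complex.exp ((m a.succ * θ (f a) : ℝ) * Complex.I) else 0 := by
    unfold W1_T
    rw [← Equiv.sum_comp (Fin.consEquiv (fun _ : Fin (q + 1) => Fin N))]
    rw [Fintype.sum_prod_type_right]
    refine Finset.sum_congr rfl fun f _ => ?_
    by_cases hf : Function.Injective f
    · rw [if_pos hf]
      have h3 := W1_range f hf (fun j => Complex.exp ((m 0 * θ j : ℝ) * Complex.I))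
      have h4 : ps (m 0) θ - ∑ b, Complex.exp ((m 0 * θ (f b) : ℝ) * Complex.I) =
          ∑ j, (if j ∈ Set.range f then 0 else Complex.exp ((m 0 * θ j : ℝ) * Complex.I)) := by
        rw [h3]; rfl
      rw [h4, Finset.sum_mul]
      refine Finset.sum_congr rfl fun j _ => ?_
      have h5 : Function.Injective ((Fin.consEquiv (fun _ : Fin (q + 1) => Fin N)) (j, f)) ↔
          j ∉ Set.range f := by
        show Function.Injective (Fin.cons j f : Fin (q + 1) → Fin N) ↔ _
        rw [Fin.cons_injective_iff]
        exact ⟨fun h => h.1, fun h => ⟨h, hf⟩⟩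
      by_cases hj : j ∈ Set.range f
      · rw [if_neg (fun h => (h5.1 h) hj), if_pos hj, zero_mul]
      · rw [if_pos (h5.2 hj), if_neg hj, Fin.prod_univ_succ]
        rfl
    · rw [if_neg hf]
      refine Finset.sum_eq_zero fun j _ => ?_
      rw [if_neg]
      intro h
      have h6 : Function.Injective (Fin.cons j f : Fin (q + 1) → Fin N) := h
      rw [Fin.cons_injective_iff] at h6
      exact hf h6.2
  rw [hL]
  unfold W1_T
  rw [Finset.sum_mul, Finset.sum_comm, ← Finset.sum_sub_distrib]
  refine Finset.sum_congr rfl fun f _ => ?_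
  by_cases hf : Function.Injective f
  · simp only [if_pos hf]
    rw [sub_mul, Finset.sum_mul, mul_comm]
    congr 1
    refine Finset.sum_congr rfl fun b _ => ?_
    rw [← Finset.mul_prod_erase Finset.univ _ (Finset.mem_univ b),
      ← Finset.mul_prod_erase Finset.univ (fun a => Complex.exp
        (((Function.update (fun a => m a.succ) b (m b.succ + m 0) a : ℤ) * θ (f a) : ℝ) *
          Complex.I)) (Finset.mem_univ b), ← mul_assoc]
    congr 1
    · rw [← Complex.exp_add]
      congr 1
      simp only [Function.update_self]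
      push_cast
      ring
    · refine Finset.prod_congr rfl fun a ha => ?_
      rw [Function.update_of_ne (Finset.ne_of_mem_erase ha)]
  · simp [if_neg hf]

theorem W1_mono {N d e : ℕ} (h : d ≤ e) : Vd N d ≤ Vd N e :=
  Submodule.span_mono fun _ ⟨r, m, h1, h2⟩ => ⟨r, m, h1.trans h, h2⟩

theorem W1_main {N q : ℕ} (m : Fin q → ℤ) :
    (fun θ : Fin N → ℝ => W1_T m θ) ∈ Vd N (∑ a, (m a).natAbs) := by
  classical
  induction q with
  | zero =>
    have h1 : (fun θ : Fin N → ℝ => W1_T m θ) =
        fun θ : Fin N → ℝ => ∏ i ∈ (∅ : Finset ℕ), ps ((fun _ => 0 : ℕ → ℤ) i) θ := by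
      funext θ
      unfold W1_T
      have hinj : ∀ f : Fin 0 → Fin N, Function.Injective f := fun f a => a.elim0
      simp [hinj]
    rw [h1]
    exact mem_Vd _ _ (by simp)
  | succ q ih =>
    have h1 : (fun θ : Fin N → ℝ => W1_T m θ) =
        (fun θ : Fin N → ℝ => W1_T (fun a => m a.succ) θ * ps (m 0) θ) -
          ∑ b : Fin q, (fun θ : Fin N → ℝ =>
            W1_T (Function.update (fun a => m a.succ) b (m b.succ + m 0)) θ) := by
      funext θ
      rw [Pi.sub_apply, Finset.sum_apply]
      exact W1_step m θ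
    rw [h1, Fin.sum_univ_succ]
    refine Submodule.sub_mem _ ?_ (Submodule.sum_mem _ fun b _ => ?_)
    · rw [add_comm]
      refine mul_Vd (ih _) ?_
      have h2 := mem_Vd (N := N) (d := (m 0).natAbs) ({0} : Finset ℕ) (fun _ => m 0) (by simp)
      simpa using h2
    · refine W1_mono ?_ (ih _)
      have h3 : ∀ a : Fin q, (Function.update (fun a => m a.succ) b (m b.succ + m 0) a).natAbs ≤
          (m a.succ).natAbs + if a = b then (m 0).natAbs else 0 := by
        intro a
        by_cases hab : a = b
        · subst hab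
          rw [Function.update_self, if_pos rfl]
          exact Int.natAbs_add_le _ _
        · rw [Function.update_of_ne hab, if_neg hab]
          simp
      calc ∑ a, (Function.update (fun a => m a.succ) b (m b.succ + m 0) a).natAbs
          ≤ ∑ a : Fin q, ((m a.succ).natAbs + if a = b then (m 0).natAbs else 0) :=
            Finset.sum_le_sum fun a _ => h3 a
        _ = (m 0).natAbs + ∑ a : Fin q, (m a.succ).natAbs := by
            rw [Finset.sum_add_distrib]
            simp
            ring

theorem inj_Vd {N q : ℕ} (m : Fin q → ℤ) :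
    (fun θ : Fin N → ℝ => ∑ e : Fin q ↪ Fin N, ∏ a, Complex.exp ((m a * θ (e a) : ℝ) * Complex.I))
      ∈ Vd N (∑ a, (m a).natAbs) := by
  have h : (fun θ : Fin N → ℝ => ∑ e : Fin q ↪ Fin N,
      ∏ a, Complex.exp ((m a * θ (e a) : ℝ) * Complex.I)) = fun θ : Fin N → ℝ => W1_T m θ := by
    funext θ
    exact W1_emb m θ
  rw [h]
  exact W1_main m

end COE
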