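import Pool.Agent.LibCOE.Def2
import Pool.Agent.LibCOE.CO_B3
import Pool.Agent.LibCOE.CO_B8
import Pool.Agent.LibCOE.CO_W1
import Pool.Agent.LibCOE.CO_W2
import Pool.Agent.LibQGr.R_HRT

/-! Row W2. Proof sketch:
`Submodule.span_induction` on hg: for the generators ∏ ps (m i) (φ A) = ∏ tW A (m i), continuous (tW_cont) and weyl. Sums and scalar
multiples: integrals are linear; Continuous functions on the compact group with the finite Haar measure are integrable
(haar_prob), on the cube: the functions of Vd are continuous (carry continuity of g in the induction; int_bdd). -/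

open MeasureTheory Set Filter Topology


namespace COE

open QGr


theorem W2_ps_cont {N : ℕ} (k : ℤ) : Continuous (ps k : (Fin N → ℝ) → ℂ) := by
  unfold ps
  fun_prop

theorem W2_int {N : ℕ} {F : Uni N → ℂ} (hF : Continuous F) : Integrable F (haarU N) := by
  have := haar_prob N
  exact hF.integrable_of_hasCompactSupport (HasCompactSupport.of_compactSpace F)

theorem W2_aux {N d : ℕ} {g : (Fin N → ℝ) → ℂ} (hg : g ∈ Vd N d) (φ : Uni N → Fin N → ℝ)
    (hφ : ∀ A (k : ℤ), tW A k = ps k (φ A)) : Continuous g ∧ Continuous (fun A => g (φ A)) ∧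
    (∫ A, g (φ A) ∂(haarU N)) * ((∫ θ, wt θ ∂(cube (Fin N)) : ℝ) : ℂ)
      = ∫ θ, (wt θ : ℂ) * g θ ∂(cube (Fin N)) := by
  unfold Vd at hg
  induction hg using Submodule.span_induction with
  | mem g hg =>
    obtain ⟨r, m, -, rfl⟩ := hg
    have h1 : (fun A : Uni N => ∏ i, ps (m i) (φ A)) = fun A => ∏ i, tW A (m i) := by
      funext A
      exact Finset.prod_congr rfl fun i _ => (hφ A (m i)).symm
    refine ⟨continuous_finsetProd _ fun i _ => W2_ps_cont _, ?_, ?_⟩
    · change Continuous (fun A : Uni N => ∏ i, ps (m i) (φ A))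
      rw [h1]
      exact continuous_finsetProd _ fun i _ => tW_cont _
    · change (∫ A, (fun A : Uni N => ∏ i, ps (m i) (φ A)) A ∂(haarU N)) * _ = _
      rw [h1]
      exact weyl m
  | zero =>
    refine ⟨continuous_const, continuous_const, ?_⟩
    simp
  | add f g _ _ hf hg =>
    refine ⟨hf.1.add hg.1, hf.2.1.add hg.2.1, ?_⟩
    have h1 : ∫ A, (f + g) (φ A) ∂(haarU N) = ∫ A, f (φ A) ∂(haarU N) + ∫ A, g (φ A) ∂(haarU N) :=
      integral_add (W2_int hf.2.1) (W2_int hg.2.1)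
    have hw : Continuous fun θ : Fin N → ℝ => (wt θ : ℂ) := Complex.continuous_ofReal.comp wt_cont
    have h2 : ∫ θ, (wt θ : ℂ) * (f + g) θ ∂(cube (Fin N)) =
        ∫ θ, (wt θ : ℂ) * f θ ∂(cube (Fin N)) + ∫ θ, (wt θ : ℂ) * g θ ∂(cube (Fin N)) := by
      have i1 : Integrable (fun θ => (wt θ : ℂ) * f θ) (cube (Fin N)) := int_bdd _ (hw.mul hf.1)
      have i2 : Integrable (fun θ => (wt θ : ℂ) * g θ) (cube (Fin N)) := int_bdd _ (hw.mul hg.1)
      rw [← integral_add i1 i2]
      congr 1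
      funext θ
      rw [Pi.add_apply, mul_add]
    rw [h1, h2, add_mul, hf.2.2, hg.2.2]
  | smul c g _ hg =>
    refine ⟨hg.1.const_smul c, hg.2.1.const_smul c, ?_⟩
    have h1 : ∫ A, (c • g) (φ A) ∂(haarU N) = c * ∫ A, g (φ A) ∂(haarU N) := by
      rw [← integral_const_mul]
      rfl
    have h2 : ∫ θ, (wt θ : ℂ) * (c • g) θ ∂(cube (Fin N)) =
        c * ∫ θ, (wt θ : ℂ) * g θ ∂(cube (Fin N)) := by
      rw [← integral_const_mul]
      congr 1
      funext θ
      rw [Pi.smul_apply, smul_eq_mul]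
      ring
    rw [h1, h2, mul_assoc, hg.2.2]

theorem weyl_Vd {N d : ℕ} {g : (Fin N → ℝ) → ℂ} (hg : g ∈ Vd N d) (φ : Uni N → Fin N → ℝ)
    (hφ : ∀ A (k : ℤ), tW A k = ps k (φ A)) : Continuous (fun A => g (φ A)) ∧
    (∫ A, g (φ A) ∂(haarU N)) * ((∫ θ, wt θ ∂(cube (Fin N)) : ℝ) : ℂ)
      = ∫ θ, (wt θ : ℂ) * g θ ∂(cube (Fin N)) := (W2_aux hg φ hφ).2

end COE
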