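import Pool.Agent.LibCOE.Def2

/-! Row W3. Proof sketch:
`UnitAddTorus.span_mFourier_closure_eq_top` (Mathlib.Analysis.Fourier.AddCircleMulti): F descends to a continuous function on
UnitAddTorus (Fin q) = Fin q → AddCircle 1: G(u) = F(2π u) (lift coordinatewise; e.g. G = F ∘ (2π • toIcoMod-section), continuity via the
quotient map: the map (Fin q → ℝ) → UnitAddTorus is an open quotient map (`IsOpenQuotientMap.piMap`-like, or `QuotientAddGroup` of pi), or
define G by `Quotient.lift` through the open map); density gives a combination of mFourier n within δ in sup norm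
(`Metric.mem_closure_iff`, `Submodule.mem_span_finset` / `Finsupp.mem_span_range_iff_exists_finsupp`), and mFourier n (x/2π) = ∏ e^{i n_a x_a}.
Periodicity in each variable by 2π gives F (x + 2π m) = F x for all integer vectors m (induction). -/

open MeasureTheory Set Filter Topology

namespace COE

open QGr

theorem W3_int {q : ℕ} (F : (Fin q → ℝ) → ℝ)
    (hp : ∀ x j, F (Function.update x j (x j + 2 * Real.pi)) = F x) (k : ℕ) :
    ∀ x j, F (Function.update x j (x j + k * (2 * Real.pi))) = F x := by
  induction k with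
  | zero =>
    intro x j
    simp
  | succ k ih =>
    intro x j
    have h1 := hp (Function.update x j (x j + k * (2 * Real.pi))) j
    rw [Function.update_self, Function.update_idem, ih x j] at h1
    rw [← h1]
    congr 2
    push_cast
    ring

theorem W3_int' {q : ℕ} (F : (Fin q → ℝ) → ℝ)
    (hp : ∀ x j, F (Function.update x j (x j + 2 * Real.pi)) = F x) (k : ℤ) (x : Fin q → ℝ)
    (j : Fin q) : F (Function.update x j (x j + k * (2 * Real.pi))) = F x := by
  obtain ⟨n, rfl | rfl⟩ := k.eq_nat_or_neg
  · have := W3_int F hp n x j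
    simpa using this
  · have h1 := W3_int F hp n (Function.update x j (x j + ((-(n : ℤ) : ℤ) : ℝ) * (2 * Real.pi))) j
    rw [Function.update_self, Function.update_idem] at h1
    rw [← h1]
    have h2 : x j + ((-(n : ℤ) : ℤ) : ℝ) * (2 * Real.pi) + n * (2 * Real.pi) = x j := by
      push_cast
      ring
    rw [h2, Function.update_eq_self]

theorem W3_fin {q : ℕ} (F : (Fin q → ℝ) → ℝ)
    (hp : ∀ x j, F (Function.update x j (x j + 2 * Real.pi)) = F x) (x : Fin q → ℝ)
    (m : Fin q → ℤ) (S : Finset (Fin q)) :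
    F (fun i => if i ∈ S then x i + m i * (2 * Real.pi) else x i) = F x := by
  classical
  induction S using Finset.induction_on with
  | empty => simp
  | insert a S ha ih =>
    have h1 := W3_int' F hp (m a) (fun i => if i ∈ S then x i + m i * (2 * Real.pi) else x i) a
    rw [ih] at h1
    rw [← h1]
    congr 1
    funext i
    by_cases hi : i = a
    · subst hi
      simp [ha]
    · simp [hi, Finset.mem_insert]

theorem W3_all {q : ℕ} (F : (Fin q → ℝ) → ℝ)
    (hp : ∀ x j, F (Function.update x j (x j + 2 * Real.pi)) = F x) (x y : Fin q → ℝ)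
    (h : ∀ i, ∃ m : ℤ, y i = x i + m * (2 * Real.pi)) : F y = F x := by
  choose m hm using h
  have h1 := W3_fin F hp x m Finset.univ
  rw [← h1]
  congr 1
  funext i
  simp [hm i]

/-- the projection onto the torus -/
def W3_pr (q : ℕ) : C(Fin q → ℝ, UnitAddTorus (Fin q)) :=
  ⟨Pi.map fun _ => ((↑) : ℝ → UnitAddCircle), by
    refine continuous_pi fun i => ?_
    exact (AddCircle.continuous_mk' 1).comp (continuous_apply i)⟩

theorem W3_quot (q : ℕ) : Topology.IsQuotientMap (W3_pr q) :=
  (IsOpenQuotientMap.piMap (f := fun _ : Fin q => ((↑) : ℝ → UnitAddCircle))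
    fun _ => QuotientAddGroup.isOpenQuotientMap_mk).isQuotientMap

theorem trig_q {q : ℕ} (F : (Fin q → ℝ) → ℝ) (hF : Continuous F)
    (hp : ∀ x j, F (Function.update x j (x j + 2 * Real.pi)) = F x) (δ : ℝ) (hδ : 0 < δ) :
    ∃ (s : Finset (Fin q → ℤ)) (c : (Fin q → ℤ) → ℂ), ∀ x,
      ‖((F x : ℝ) : ℂ) - ∑ m ∈ s, c m * ∏ a, Complex.exp ((m a * x a : ℝ) * Complex.I)‖ ≤ δ := by
  have hpi : (0 : ℝ) < 2 * Real.pi := by positivity
  set g : C(Fin q → ℝ, ℂ) := ⟨fun x => ((F fun a => 2 * Real.pi * x a : ℝ) : ℂ), by fun_prop⟩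
    with hg
  have hfac : Function.FactorsThrough g (W3_pr q) := by
    intro x y hxy
    rw [hg]
    simp only [ContinuousMap.coe_mk]
    congr 1
    refine W3_all F hp _ _ fun i => ?_
    have h1 : ((x i : ℝ) : UnitAddCircle) = (y i : ℝ) := congrFun hxy i
    have h2 : (((x i - y i : ℝ)) : UnitAddCircle) = 0 := by
      rw [AddCircle.coe_sub, h1, sub_self]
    obtain ⟨n, hn⟩ := AddCircle.coe_eq_zero_iff (1 : ℝ) |>.1 h2
    refine ⟨n, ?_⟩
    have h3 : x i = y i + n := by
      simp at hn
      linarith
    rw [h3]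
    ring
  set G := (W3_quot q).lift g hfac with hG
  have hGv : ∀ x, G (W3_pr q x) = g x := fun x => by
    have := (W3_quot q).lift_comp g hfac
    rw [← hG] at this
    exact congrArg (fun f : C(Fin q → ℝ, ℂ) => f x) this
  have hmem : G ∈ (Submodule.span ℂ (Set.range <|
      UnitAddTorus.mFourier (d := Fin q))).topologicalClosure := by
    rw [UnitAddTorus.span_mFourier_closure_eq_top]
    exact Submodule.mem_top
  have hmem' : G ∈ closure ((Submodule.span ℂ (Set.range <|
      UnitAddTorus.mFourier (d := Fin q)) : Submodule ℂ C(UnitAddTorus (Fin q), ℂ)) :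
        Set C(UnitAddTorus (Fin q), ℂ)) := hmem
  obtain ⟨P, hP, hGP⟩ := Metric.mem_closure_iff.1 hmem' δ hδ
  obtain ⟨c, hc⟩ := Finsupp.mem_span_range_iff_exists_finsupp.1 hP
  refine ⟨c.support, c, fun x => ?_⟩
  have h1 : G (W3_pr q fun a => x a / (2 * Real.pi)) = ((F x : ℝ) : ℂ) := by
    rw [hGv, hg]
    simp only [ContinuousMap.coe_mk]
    congr 2
    funext a
    field_simp
  have h2 : P (W3_pr q fun a => x a / (2 * Real.pi)) =
      ∑ m ∈ c.support, c m * ∏ a, Complex.exp ((m a * x a : ℝ) * Complex.I) := by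
    rw [← hc, Finsupp.sum, ContinuousMap.sum_apply]
    refine Finset.sum_congr rfl fun m _ => ?_
    rw [ContinuousMap.smul_apply, smul_eq_mul]
    congr 1
    unfold UnitAddTorus.mFourier
    simp only [ContinuousMap.coe_mk]
    refine Finset.prod_congr rfl fun a _ => ?_
    have h3 : (W3_pr q fun a => x a / (2 * Real.pi)) a = ((x a / (2 * Real.pi) : ℝ) :
        UnitAddCircle) := rfl
    rw [h3, fourier_coe_apply]
    congr 1
    have h4 : (Real.pi : ℂ) ≠ 0 := by exact_mod_cast Real.pi_ne_zero
    push_cast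
    field_simp
  rw [← h1, ← h2, ← dist_eq_norm]
  exact (ContinuousMap.dist_apply_le_dist _).trans hGP.le

end COE
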