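import Pool.Agent.LibCOE.Def2
import Pool.Agent.LibCOE.CO_W1
import Pool.Agent.LibCOE.CO_W2
import Pool.Agent.LibCOE.CP_W1
import Pool.Agent.LibCOE.CP_W2
import Pool.Agent.LibCOE.CP_W3
import Pool.Agent.LibQGr.R_HRT

/-! Row W4. Proof sketch:
For trigonometric polynomials T = ∑_{m ∈ s} c m ∏ exp: ∑_e T(θ ∘ e) is in the span of the inj_Vd functions, so A ↦ ∑_e T(φ A ∘ e) is
continuous and the identity holds (weyl_Vd, linearity; in ℂ). For F take T with ‖F - T‖ <= δ (trig_q): A ↦ ∑_e F(φ A ∘ e) is a uniform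
limit of continuous functions (|difference| <= card * δ), so continuous, and both sides of the identity differ from those of T
by at most card * δ * ∫ wt; let δ → 0. -/

open MeasureTheory Set Filter Topology


namespace COE

open QGr


/-- the sum of a trigonometric polynomial over the injections. -/
noncomputable def W4_S (N : ℕ) {q : ℕ} (s : Finset (Fin q → ℤ)) (c : (Fin q → ℤ) → ℂ)
    (θ : Fin N → ℝ) : ℂ :=
  ∑ m ∈ s, c m * ∑ e : Fin q ↪ Fin N, ∏ a, Complex.exp ((m a * θ (e a) : ℝ) * Complex.I)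

theorem W4_S_cont (N : ℕ) {q : ℕ} (s : Finset (Fin q → ℤ)) (c : (Fin q → ℤ) → ℂ) :
    Continuous (W4_S N s c) := by
  unfold W4_S
  fun_prop

theorem W4_S_A {N q : ℕ} (s : Finset (Fin q → ℤ)) (c : (Fin q → ℤ) → ℂ)
    (φ : Uni N → Fin N → ℝ) (hφ : ∀ A (k : ℤ), tW A k = ps k (φ A)) :
    Continuous (fun A => W4_S N s c (φ A)) := by
  unfold W4_S
  refine continuous_finset_sum _ fun m _ => continuous_const.mul ?_
  exact (weyl_Vd (inj_Vd (N := N) m) φ hφ).1

theorem W4_S_int {N q : ℕ} (s : Finset (Fin q → ℤ)) (c : (Fin q → ℤ) → ℂ)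
    (φ : Uni N → Fin N → ℝ) (hφ : ∀ A (k : ℤ), tW A k = ps k (φ A)) :
    (∫ A, W4_S N s c (φ A) ∂(haarU N)) * ((∫ θ, wt θ ∂(cube (Fin N)) : ℝ) : ℂ)
      = ∫ θ, (wt θ : ℂ) * W4_S N s c θ ∂(cube (Fin N)) := by
  haveI := haar_prob N
  haveI := cube_fin (Fin N)
  unfold W4_S
  have hc : ∀ m : Fin q → ℤ, Continuous (fun θ : Fin N → ℝ =>
      (wt θ : ℂ) * (c m * ∑ e : Fin q ↪ Fin N,
        ∏ a, Complex.exp ((m a * θ (e a) : ℝ) * Complex.I))) := by
    intro m
    refine (Complex.continuous_ofReal.comp wt_cont).mul (continuous_const.mul ?_)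
    fun_prop
  rw [integral_finset_sum]
  · have h2 : (fun θ : Fin N → ℝ => (wt θ : ℂ) * ∑ m ∈ s, c m * ∑ e : Fin q ↪ Fin N,
        ∏ a, Complex.exp ((m a * θ (e a) : ℝ) * Complex.I)) = fun θ => ∑ m ∈ s, (wt θ : ℂ) *
          (c m * ∑ e : Fin q ↪ Fin N, ∏ a, Complex.exp ((m a * θ (e a) : ℝ) * Complex.I)) := by
      ext θ
      rw [Finset.mul_sum]
    rw [h2, integral_finset_sum _ (fun m _ => int_bdd _ (hc m)), Finset.sum_mul]
    refine Finset.sum_congr rfl fun m _ => ?_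
    have h3 := (weyl_Vd (inj_Vd (N := N) m) φ hφ).2
    rw [integral_const_mul, mul_assoc, h3, ← integral_const_mul]
    congr 1
    ext θ
    ring
  · intro m _
    refine Continuous.integrable_of_hasCompactSupport (continuous_const.mul ?_)
      (HasCompactSupport.of_compactSpace _)
    exact (weyl_Vd (inj_Vd (N := N) m) φ hφ).1

theorem W4_close {N q : ℕ} (F : (Fin q → ℝ) → ℝ) (s : Finset (Fin q → ℤ))
    (c : (Fin q → ℤ) → ℂ) (δ : ℝ) (h : ∀ x,
      ‖((F x : ℝ) : ℂ) - ∑ m ∈ s, c m * ∏ a, Complex.exp ((m a * x a : ℝ) * Complex.I)‖ ≤ δ)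
    (θ : Fin N → ℝ) :
    ‖((∑ e : Fin q ↪ Fin N, F fun a => θ (e a) : ℝ) : ℂ) - W4_S N s c θ‖
      ≤ Fintype.card (Fin q ↪ Fin N) * δ := by
  have h1 : ((∑ e : Fin q ↪ Fin N, F fun a => θ (e a) : ℝ) : ℂ) - W4_S N s c θ =
      ∑ e : Fin q ↪ Fin N, (((F fun a => θ (e a) : ℝ) : ℂ) -
        ∑ m ∈ s, c m * ∏ a, Complex.exp ((m a * θ (e a) : ℝ) * Complex.I)) := by
    unfold W4_S
    rw [Finset.sum_sub_distrib, Complex.ofReal_sum]
    congr 1
    rw [Finset.sum_comm]
    refine Finset.sum_congr rfl fun m _ => ?_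
    rw [Finset.mul_sum]
  rw [h1]
  refine (norm_sum_le _ _).trans ?_
  refine (Finset.sum_le_sum (fun e _ => h (fun a => θ (e a)))).trans ?_
  rw [Finset.sum_const, Finset.card_univ, nsmul_eq_mul]

theorem coe_Fq {N q : ℕ} (F : (Fin q → ℝ) → ℝ) (hF : Continuous F)
    (hp : ∀ x j, F (Function.update x j (x j + 2 * Real.pi)) = F x) (φ : Uni N → Fin N → ℝ)
    (hφ : ∀ A (k : ℤ), tW A k = ps k (φ A)) :
    Continuous (fun A => ∑ e : Fin q ↪ Fin N, F fun a => φ A (e a)) ∧
    (∫ A, ∑ e : Fin q ↪ Fin N, F (fun a => φ A (e a)) ∂(haarU N)) * ∫ θ, wt θ ∂(cube (Fin N))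
      = ∫ θ, (∑ e : Fin q ↪ Fin N, F fun a => θ (e a)) * wt θ ∂(cube (Fin N)) := by
  haveI := haar_prob N
  haveI := cube_fin (Fin N)
  set n : ℝ := ((Fintype.card (Fin q ↪ Fin N) : ℕ) : ℝ) with hn
  have hn0 : 0 ≤ n := by positivity
  have hcont : Continuous (fun A => ∑ e : Fin q ↪ Fin N, F fun a => φ A (e a)) := by
    have hC : Continuous (fun A => ((∑ e : Fin q ↪ Fin N, F fun a => φ A (e a) : ℝ) : ℂ)) := by
      refine continuous_of_uniform_approx_of_continuous fun u hu => ?_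
      obtain ⟨ε, hε, hu⟩ := Metric.mem_uniformity_dist.mp hu
      obtain ⟨s, c, hsc⟩ := trig_q F hF hp (ε / (2 * (n + 1))) (by positivity)
      refine ⟨fun A => W4_S N s c (φ A), W4_S_A s c φ hφ, fun A => hu ?_⟩
      rw [dist_eq_norm]
      refine (W4_close F s c _ hsc (φ A)).trans_lt ?_
      rw [← hn, mul_div_assoc', div_lt_iff₀ (by positivity)]
      nlinarith
    have := Complex.continuous_re.comp hC
    refine this.congr fun A => ?_
    simp
  refine ⟨hcont, ?_⟩
  set I := ∫ A, ∑ e : Fin q ↪ Fin N, F (fun a => φ A (e a)) ∂(haarU N) with hI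
  set W := ∫ θ, wt θ ∂(cube (Fin N)) with hW
  set J := ∫ θ, (∑ e : Fin q ↪ Fin N, F fun a => θ (e a)) * wt θ ∂(cube (Fin N)) with hJ
  have hW0 : 0 < W := wt_int_pos N
  have hSF : Continuous fun θ : Fin N → ℝ => ∑ e : Fin q ↪ Fin N, F fun a => θ (e a) := by
    fun_prop
  have key : ∀ δ : ℝ, 0 < δ → |I * W - J| ≤ δ * (2 * n * W) := by
    intro δ hδ
    obtain ⟨s, c, hsc⟩ := trig_q F hF hp δ hδ
    have e1 : ‖(I : ℂ) - ∫ A, W4_S N s c (φ A) ∂(haarU N)‖ ≤ n * δ := by
      have h1 : (I : ℂ) = ∫ A, ((∑ e : Fin q ↪ Fin N, F (fun a => φ A (e a)) : ℝ) : ℂ)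
          ∂(haarU N) := by
        rw [hI, ← integral_complex_ofReal]
      rw [h1, ← integral_sub]
      · have h2 := norm_integral_le_of_norm_le_const (μ := haarU N)
          (f := fun A => ((∑ e : Fin q ↪ Fin N, F (fun a => φ A (e a)) : ℝ) : ℂ) -
            W4_S N s c (φ A)) (C := n * δ)
          (Filter.Eventually.of_forall fun A => W4_close F s c δ hsc (φ A))
        simpa using h2
      · exact Continuous.integrable_of_hasCompactSupport (Complex.continuous_ofReal.comp hcont)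
          (HasCompactSupport.of_compactSpace _)
      · exact Continuous.integrable_of_hasCompactSupport (W4_S_A s c φ hφ)
          (HasCompactSupport.of_compactSpace _)
    have e2 : ‖(J : ℂ) - ∫ θ, (wt θ : ℂ) * W4_S N s c θ ∂(cube (Fin N))‖ ≤ n * δ * W := by
      have h1 : (J : ℂ) = ∫ θ, (wt θ : ℂ) * ((∑ e : Fin q ↪ Fin N, F (fun a => θ (e a)) : ℝ) : ℂ)
          ∂(cube (Fin N)) := by
        rw [hJ, ← integral_complex_ofReal]
        congr 1
        ext θ
        push_cast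
        ring
      have hi1 : Integrable (fun θ : Fin N → ℝ => (wt θ : ℂ) *
          ((∑ e : Fin q ↪ Fin N, F (fun a => θ (e a)) : ℝ) : ℂ)) (cube (Fin N)) :=
        int_bdd _ ((Complex.continuous_ofReal.comp wt_cont).mul
          (Complex.continuous_ofReal.comp hSF))
      have hi2 : Integrable (fun θ : Fin N → ℝ => (wt θ : ℂ) * W4_S N s c θ) (cube (Fin N)) :=
        int_bdd _ ((Complex.continuous_ofReal.comp wt_cont).mul (W4_S_cont N s c))
      rw [h1, ← integral_sub hi1 hi2]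
      have hi3 : Integrable (fun θ : Fin N → ℝ => n * δ * wt θ) (cube (Fin N)) := by
        have h3 := int_bdd (fun θ : Fin N → ℝ => (wt θ : ℂ)) (Complex.continuous_ofReal.comp wt_cont)
        have h4 : Integrable (fun θ : Fin N → ℝ => wt θ) (cube (Fin N)) := by
          have := h3.re
          simpa using this
        exact h4.const_mul _
      have h5 := norm_integral_le_of_norm_le (μ := cube (Fin N)) hi3
        (f := fun θ : Fin N → ℝ => (wt θ : ℂ) *
          ((∑ e : Fin q ↪ Fin N, F (fun a => θ (e a)) : ℝ) : ℂ) - (wt θ : ℂ) * W4_S N s c θ)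
        (Filter.Eventually.of_forall fun θ => ?_)
      · rw [integral_const_mul] at h5
        exact h5
      · rw [← mul_sub, norm_mul, Complex.norm_real, Real.norm_eq_abs, abs_of_nonneg (wt_nonneg θ),
          mul_comm]
        exact mul_le_mul_of_nonneg_right (W4_close F s c δ hsc θ) (wt_nonneg θ)
    have e3 := W4_S_int s c φ hφ
    rw [← hW] at e3
    have e4 : ((I * W - J : ℝ) : ℂ) = ((I : ℂ) - ∫ A, W4_S N s c (φ A) ∂(haarU N)) * (W : ℂ) -
        ((J : ℂ) - ∫ θ, (wt θ : ℂ) * W4_S N s c θ ∂(cube (Fin N))) := by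
      rw [← e3]
      push_cast
      ring
    have e5 : ‖((I * W - J : ℝ) : ℂ)‖ ≤ n * δ * W + n * δ * W := by
      rw [e4]
      refine (norm_sub_le _ _).trans (add_le_add ?_ e2)
      rw [norm_mul, Complex.norm_real, Real.norm_eq_abs, abs_of_pos hW0]
      exact mul_le_mul_of_nonneg_right e1 hW0.le
    rw [Complex.norm_real, Real.norm_eq_abs] at e5
    linarith
  have hfin : |I * W - J| ≤ 0 := by
    refine le_of_forall_pos_le_add fun ε hε => ?_
    have hK : 0 < 2 * n * W + 1 := by positivity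
    have h1 := key (ε / (2 * n * W + 1)) (by positivity)
    refine h1.trans ?_
    rw [zero_add, div_mul_eq_mul_div, div_le_iff₀ hK]
    nlinarith
  have := abs_nonpos_iff.mp hfin
  linarith

end COE
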