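import Pool.Agent.LibCOE.Def2
import Pool.Agent.LibCOE.CO_W1
import Pool.Agent.LibCOE.CO_W2
import Pool.Agent.LibCOE.CP_S3
import Pool.Agent.LibCOE.CP_S4
import Pool.Agent.LibCOE.CP_S5
import Pool.Agent.LibCOE.CP_W4

/-! Row S6. Proof sketch:
Choose φ(A) by ph_angles for sy A. F(x) = pspac N f (phases (dr x).1), x : Fin N → ℝ, is continuous and periodic (sp_cont); coe_Fq with
q = N: ∑_{e : Fin N ↪ Fin N} F(φ A ∘ e) = N! F(φ A) (embeddings are permutations, `Function.Embedding.equivOfFiniteSelfEmbedding`,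
ph_perm; count `Fintype.card` ≠ 0), so N! coeSpac ∫ wt = N! ∫ F wt (coeSpac = ∫ pspac N f (phases (sy A).1), definition), and F θ =
1/N ∑ f (gp θ p) for a.e. θ (ph_gap, ae_dist). -/

open MeasureTheory Set Filter Topology

namespace COE

open QGr


theorem S6_sum {N : ℕ} (hN : 0 < N) (f : ℝ → ℝ) (L : ℝ)
    (hL0 : 0 ≤ L) (hL : ∀ u v, |f u - f v| ≤ L * dist u v) (θ : Fin N → ℝ) :
    ∑ e : Fin N ↪ Fin N, pspac N f (phases (dr fun a => θ (e a)).1)
      = (Fintype.card (Fin N ↪ Fin N) : ℝ) * pspac N f (phases (dr θ).1) := by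
  have h1 : ∀ e : Fin N ↪ Fin N, pspac N f (phases (dr fun a => θ (e a)).1)
      = pspac N f (phases (dr θ).1) := by
    intro e
    have h2 := ph_perm hN θ (Equiv.ofBijective e (Finite.injective_iff_bijective.mp e.injective))
      f L hL0 hL
    exact h2
  rw [Finset.sum_congr rfl fun e _ => h1 e, Finset.sum_const, Finset.card_univ, nsmul_eq_mul]

theorem coe_spac_w {N : ℕ} (hN : 2 ≤ N) (f : ℝ → ℝ) (L : ℝ)
    (hL0 : 0 ≤ L) (hL : ∀ u v, |f u - f v| ≤ L * dist u v) :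
    coeSpac N f * ∫ θ, wt θ ∂(cube (Fin N))
      = ∫ θ, (1 / N * ∑ p, f (gp θ p)) * wt θ ∂(cube (Fin N)) := by
  have hN0 : 0 < N := by omega
  choose φ hφ1 hφ2 using fun A : Uni N => ph_angles hN0 (sy A)
  obtain ⟨hc, hp⟩ := sp_cont hN0 f L hL0 hL
  have h1 := (coe_Fq (q := N) (fun θ : Fin N → ℝ => pspac N f (phases (dr θ).1)) hc
    (fun x j => hp x j) φ (fun A k => hφ1 A k)).2
  have hcard : (Fintype.card (Fin N ↪ Fin N) : ℝ) ≠ 0 := by
    rw [Nat.cast_ne_zero]
    have : Nonempty (Fin N ↪ Fin N) := ⟨Function.Embedding.refl _⟩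
    exact Fintype.card_ne_zero
  simp only [S6_sum hN0 f L hL0 hL] at h1
  rw [integral_const_mul] at h1
  simp only [mul_assoc] at h1
  rw [integral_const_mul] at h1
  have h2 := mul_left_cancel₀ hcard h1
  have h3 : coeSpac N f = ∫ A, pspac N f (phases (dr (φ A)).1) ∂(haarU N) := by
    unfold coeSpac
    apply integral_congr_ae
    exact Eventually.of_forall fun A => hφ2 A f L hL0 hL
  rw [h3, h2]
  apply integral_congr_ae
  filter_upwards [ae_dist N] with θ hθ
  rw [ph_gap hN θ hθ f L hL0 hL]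

end COE
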