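import Pool.Agent.LibCOE.Def2
import Pool.Agent.LibCOE.CO_W1
import Pool.Agent.LibCOE.CO_W2
import Pool.Agent.LibCOE.CP_S4
import Pool.Agent.LibCOE.CP_S5
import Pool.Agent.LibCOE.CP_S6
import Pool.Agent.LibQGr.R_PHS

/-! Row S10. Proof sketch:
cg s θ = ∑_p 1[s < gp θ p] (gp_iff). SN_mono: 0 <= cg <= N, cg 0 = N (gp > 0), antitone in s; ∫ wt > 0. SN_le: s 1[s < g] <= g, and
1/N ∑_p gp θ p = 1 for Dist θ: ph_gap with f = id (L = 1) and pspac N id y = (y N - y 0)/N = 1 (telescoping, IsPhases.per; phases_spec). -/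

open MeasureTheory Set Filter Topology


namespace COE

open QGr


theorem S10_cg {N : ℕ} (hN : 2 ≤ N) (s : ℝ) (θ : Fin N → ℝ) :
    cg s θ = ∑ p, {θ' : Fin N → ℝ | s < gp θ' p}.indicator (fun _ => (1 : ℝ)) θ := by
  unfold cg
  refine Finset.sum_congr rfl fun p _ => ?_
  by_cases h : s < gp θ p
  · rw [if_pos ((gp_iff hN θ p s).1 h),
      Set.indicator_of_mem (show θ ∈ {θ' : Fin N → ℝ | s < gp θ' p} from h)]
  · rw [if_neg (fun h' => h ((gp_iff hN θ p s).2 h')),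
      Set.indicator_of_notMem (show θ ∉ {θ' : Fin N → ℝ | s < gp θ' p} from h)]

theorem S10_meas {N : ℕ} (hN : 2 ≤ N) (s : ℝ) : Measurable (fun θ : Fin N → ℝ => cg s θ) := by
  have : (fun θ : Fin N → ℝ => cg s θ) = fun θ => ∑ p,
      {θ' : Fin N → ℝ | s < gp θ' p}.indicator (fun _ => (1 : ℝ)) θ := funext (S10_cg hN s)
  rw [this]
  exact Finset.measurable_sum _ fun p _ =>
    measurable_const.indicator (measurableSet_lt measurable_const (gp_meas p))

theorem S10_bd {N : ℕ} (hN : 2 ≤ N) (s : ℝ) (θ : Fin N → ℝ) : 0 ≤ cg s θ ∧ cg s θ ≤ N := by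
  rw [S10_cg hN]
  constructor
  · exact Finset.sum_nonneg fun p _ => Set.indicator_nonneg (fun _ _ => zero_le_one) _
  · calc ∑ p, {θ' : Fin N → ℝ | s < gp θ' p}.indicator (fun _ => (1 : ℝ)) θ ≤ ∑ _p : Fin N, (1 : ℝ) :=
        Finset.sum_le_sum fun p _ => Set.indicator_le_self' (fun _ _ => zero_le_one) θ
      _ = N := by simp

theorem S10_anti {N : ℕ} (hN : 2 ≤ N) {s t : ℝ} (hst : s ≤ t) (θ : Fin N → ℝ) : cg t θ ≤ cg s θ := by
  rw [S10_cg hN, S10_cg hN]
  refine Finset.sum_le_sum fun p _ => ?_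
  by_cases h : t < gp θ p
  · rw [Set.indicator_of_mem (show θ ∈ {θ' : Fin N → ℝ | t < gp θ' p} from h),
      Set.indicator_of_mem (show θ ∈ {θ' : Fin N → ℝ | s < gp θ' p} from lt_of_le_of_lt hst h)]
  · rw [Set.indicator_of_notMem (show θ ∉ {θ' : Fin N → ℝ | t < gp θ' p} from h)]
    exact Set.indicator_nonneg (fun _ _ => zero_le_one) _

theorem S10_zero {N : ℕ} (hN : 2 ≤ N) (θ : Fin N → ℝ) : cg 0 θ = N := by
  rw [S10_cg hN, Finset.sum_congr rfl (g := fun _ => (1 : ℝ)) fun p _ =>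
    Set.indicator_of_mem (show θ ∈ {θ' : Fin N → ℝ | 0 < gp θ' p} from (gp_bdd hN θ p).1) _]
  simp

theorem S10_wt (N : ℕ) : Integrable (fun θ : Fin N → ℝ => wt θ) (cube (Fin N)) := by
  by_contra h
  have h1 := wt_int_pos N
  rw [integral_undef h] at h1
  exact lt_irrefl _ h1

theorem S10_int {N : ℕ} (hN : 2 ≤ N) (s : ℝ) :
    Integrable (fun θ : Fin N → ℝ => (1 / N * cg s θ) * wt θ) (cube (Fin N)) := by
  refine (S10_wt N).bdd_mul (c := 1) ((S10_meas hN s).const_mul _).aestronglyMeasurable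
    (Filter.Eventually.of_forall fun θ => ?_)
  have h := S10_bd hN s θ
  have hN0 : (0 : ℝ) < N := by exact_mod_cast (by omega : 0 < N)
  rw [Real.norm_of_nonneg (mul_nonneg (by positivity) h.1), one_div, inv_mul_le_iff₀ hN0, mul_one]
  exact h.2

theorem S10_sum {N : ℕ} (hN : 2 ≤ N) (θ : Fin N → ℝ) (hθ : Dist θ) : ∑ p, gp θ p = N := by
  have hN0 : (0 : ℝ) < N := by exact_mod_cast (by omega : 0 < N)
  have h1 := ph_gap hN θ hθ (fun u => u) 1 zero_le_one (fun u v => by rw [one_mul, Real.dist_eq])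
  have h2 := (phases_spec (by omega : 0 < N) (dr θ)).per 0
  rw [zero_add] at h2
  unfold pspac at h1
  have h3 : ∑ a ∈ Finset.range N, (phases (dr θ).1 ((a : ℤ) + 1) - phases (dr θ).1 (a : ℤ)) = N := by
    have h4 := Finset.sum_range_sub (fun a : ℕ => phases (dr θ).1 (a : ℤ)) N
    simp only [Nat.cast_add, Nat.cast_one, Nat.cast_zero] at h4
    rw [h4, h2]
    ring
  rw [h3] at h1
  have h5 : (1 : ℝ) / N * N = 1 := by field_simp
  rw [h5] at h1
  field_simp at h1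
  linarith

theorem SN_le {N : ℕ} (hN : 2 ≤ N) (s : ℝ) (hs : 0 < s) : SN N s ≤ 1 / s := by
  have hN0 : (0 : ℝ) < N := by exact_mod_cast (by omega : 0 < N)
  unfold SN
  rw [div_le_div_iff₀ (wt_int_pos N) hs, one_mul, ← integral_mul_const]
  refine integral_mono_ae ((S10_int hN s).mul_const s) (S10_wt N) ?_
  filter_upwards [ae_dist N] with θ hθ
  have h1 : s * cg s θ ≤ N := by
    rw [← S10_sum hN θ hθ, S10_cg hN, Finset.mul_sum]
    refine Finset.sum_le_sum fun p _ => ?_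
    by_cases h : s < gp θ p
    · rw [Set.indicator_of_mem (show θ ∈ {θ' : Fin N → ℝ | s < gp θ' p} from h), mul_one]
      exact h.le
    · rw [Set.indicator_of_notMem (show θ ∉ {θ' : Fin N → ℝ | s < gp θ' p} from h), mul_zero]
      exact (gp_bdd hN θ p).1.le
  have h2 : 1 / (N : ℝ) * (s * cg s θ) ≤ 1 := by
    rw [one_div, inv_mul_le_iff₀ hN0, mul_one]
    exact h1
  calc 1 / (N : ℝ) * cg s θ * wt θ * s = (1 / (N : ℝ) * (s * cg s θ)) * wt θ := by ring
    _ ≤ 1 * wt θ := mul_le_mul_of_nonneg_right h2 (wt_nonneg θ)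
    _ = wt θ := one_mul _

theorem SN_mono {N : ℕ} (hN : 2 ≤ N) : SN N 0 = 1 ∧ (∀ s, 0 ≤ SN N s ∧ SN N s ≤ 1) ∧
    ∀ s t, s ≤ t → SN N t ≤ SN N s := by
  have hN0 : (0 : ℝ) < N := by exact_mod_cast (by omega : 0 < N)
  have hI := wt_int_pos N
  refine ⟨?_, fun s => ⟨?_, ?_⟩, fun s t hst => ?_⟩
  · unfold SN
    have : (∫ θ, (1 / N * cg 0 θ) * wt θ ∂(cube (Fin N))) = ∫ θ, wt θ ∂(cube (Fin N)) := by
      refine integral_congr_ae (Filter.Eventually.of_forall fun θ => ?_)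
      change 1 / (N : ℝ) * cg 0 θ * wt θ = wt θ
      rw [S10_zero hN]
      field_simp
    rw [this, div_self hI.ne']
  · unfold SN
    refine div_nonneg (integral_nonneg fun θ => ?_) hI.le
    exact mul_nonneg (mul_nonneg (by positivity) (S10_bd hN s θ).1) (wt_nonneg θ)
  · unfold SN
    rw [div_le_one hI]
    refine integral_mono (S10_int hN s) (S10_wt N) fun θ => ?_
    have h2 : 1 / (N : ℝ) * cg s θ ≤ 1 := by
      rw [one_div, inv_mul_le_iff₀ hN0, mul_one]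
      exact (S10_bd hN s θ).2
    calc 1 / (N : ℝ) * cg s θ * wt θ ≤ 1 * wt θ := mul_le_mul_of_nonneg_right h2 (wt_nonneg θ)
      _ = wt θ := one_mul _
  · unfold SN
    refine div_le_div_of_nonneg_right ?_ hI.le
    refine integral_mono (S10_int hN t) (S10_int hN s) fun θ => ?_
    exact mul_le_mul_of_nonneg_right (mul_le_mul_of_nonneg_left (S10_anti hN hst θ) (by positivity))
      (wt_nonneg θ)

end COE
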