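import Pool.Agent.LibCOE.Def2
import Pool.Agent.LibCOE.CO_P10
import Pool.Agent.LibCOE.CO_R6

/-! Row V7. Proof sketch:
s_lim is in the proof of yN_lim: Pool/Agent/LibCOE/CO_R7.lean (in the tar). s_bdd: sS n r = 1/(2n) ∑_k cos (..) ; sD: |hp k| <= n; sJ: |sin y / hp| <= |y/hp|
with y = hp π r/n; card (Ix n) = 2n. g_bdd: `Real.abs_sinc_le_one`-like, gS_deriv, or the limits n → ∞ of s_bdd by s_lim. -/

open MeasureTheory Set Filter Topology

namespace COE

open QGr


theorem V7_kS {n : ℕ} (hn : 0 < n) {r B : ℝ} (hr : |r| ≤ B) :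
    |Real.pi / n * kS n (Real.pi * r / n) - gS r| ≤ (2 * Real.pi * B) / n := by
  have hn' : (n : ℝ) ≠ 0 := by positivity
  have hB : 0 ≤ B := (abs_nonneg r).trans hr
  have h := riemann hn (fun x => Real.cos (2 * Real.pi * x * r)) (by fun_prop) (2 * Real.pi * B) ?_
  · rw [gS_int]
    have e : Real.pi / n * kS n (Real.pi * r / n) =
        1 / (2 * n) * ∑ k : Ix n, Real.cos (2 * Real.pi * (hp k / (2 * n)) * r) := by
      unfold kS
      rw [← mul_assoc]
      congr 1
      · field_simp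
      · refine Finset.sum_congr rfl fun k _ => ?_
        congr 1
        field_simp
    rw [e]
    exact h
  · intro x y _ _
    refine (Real.abs_cos_sub_cos_le _ _).trans ?_
    have e : 2 * Real.pi * x * r - 2 * Real.pi * y * r = 2 * Real.pi * r * (x - y) := by ring
    rw [e, abs_mul, abs_mul, abs_of_pos (by positivity : (0 : ℝ) < 2 * Real.pi)]
    gcongr

theorem V7_kD {n : ℕ} (hn : 0 < n) {r B : ℝ} (hr : |r| ≤ B) :
    |(Real.pi / n) ^ 2 * kD n (Real.pi * r / n) - deriv gS r| ≤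
      (2 * Real.pi * (1 + 2 * Real.pi * B)) / n := by
  have hn' : (n : ℝ) ≠ 0 := by positivity
  have hB : 0 ≤ B := (abs_nonneg r).trans hr
  have h := riemann hn (fun x => -(2 * Real.pi * x * Real.sin (2 * Real.pi * x * r)))
    (by fun_prop) (2 * Real.pi * (1 + 2 * Real.pi * B)) ?_
  · rw [gS_deriv]
    have e : (Real.pi / n) ^ 2 * kD n (Real.pi * r / n) =
        1 / (2 * n) * ∑ k : Ix n, -(2 * Real.pi * (hp k / (2 * n)) *
          Real.sin (2 * Real.pi * (hp k / (2 * n)) * r)) := by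
      unfold kD
      rw [← mul_assoc, Finset.mul_sum, Finset.mul_sum]
      refine Finset.sum_congr rfl fun k _ => ?_
      have e2 : hp k * (Real.pi * r / n) = 2 * Real.pi * (hp k / (2 * n)) * r := by
        field_simp
      rw [e2]
      field_simp
    rw [e]
    exact h
  · intro x y hx hy
    have e : -(2 * Real.pi * x * Real.sin (2 * Real.pi * x * r)) -
        -(2 * Real.pi * y * Real.sin (2 * Real.pi * y * r)) =
        -(2 * Real.pi * ((x - y) * Real.sin (2 * Real.pi * x * r) +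
          y * (Real.sin (2 * Real.pi * x * r) - Real.sin (2 * Real.pi * y * r)))) := by ring
    rw [e, abs_neg, abs_mul, abs_of_pos (by positivity : (0 : ℝ) < 2 * Real.pi),
      show 2 * Real.pi * (1 + 2 * Real.pi * B) * |x - y| =
        2 * Real.pi * ((1 + 2 * Real.pi * B) * |x - y|) by ring]
    refine mul_le_mul_of_nonneg_left ?_ (by positivity)
    have h1 : |(x - y) * Real.sin (2 * Real.pi * x * r)| ≤ |x - y| := by
      rw [abs_mul]
      exact mul_le_of_le_one_right (abs_nonneg _) (Real.abs_sin_le_one _)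
    have h2 : |y * (Real.sin (2 * Real.pi * x * r) - Real.sin (2 * Real.pi * y * r))| ≤
        2 * Real.pi * B * |x - y| := by
      rw [abs_mul]
      have h3 : |Real.sin (2 * Real.pi * x * r) - Real.sin (2 * Real.pi * y * r)| ≤
          2 * Real.pi * B * |x - y| := by
        refine (Real.abs_sin_sub_sin_le _ _).trans ?_
        have e : 2 * Real.pi * x * r - 2 * Real.pi * y * r = 2 * Real.pi * r * (x - y) := by ring
        rw [e, abs_mul, abs_mul, abs_of_pos (by positivity : (0 : ℝ) < 2 * Real.pi)]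
        gcongr
      calc |y| * |Real.sin (2 * Real.pi * x * r) - Real.sin (2 * Real.pi * y * r)| ≤
          1 * (2 * Real.pi * B * |x - y|) := by gcongr
        _ = _ := one_mul _
    calc _ ≤ _ := abs_add_le _ _
      _ ≤ |x - y| + 2 * Real.pi * B * |x - y| := add_le_add h1 h2
      _ = _ := by ring

theorem V7_g (x r : ℝ) (hx : x ≠ 0) :
    ∫ t in (0 : ℝ)..r, Real.cos (2 * Real.pi * x * t) =
      Real.sin (2 * Real.pi * x * r) / (2 * Real.pi * x) := by
  have hc : 2 * Real.pi * x ≠ 0 := by positivity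
  rw [intervalIntegral.integral_comp_mul_left (fun u => Real.cos u) hc, integral_cos]
  simp only [mul_zero, Real.sin_zero, sub_zero, smul_eq_mul]
  rw [div_eq_inv_mul]

theorem V7_lip (r x y : ℝ) : |(∫ t in (0 : ℝ)..r, Real.cos (2 * Real.pi * x * t)) -
    ∫ t in (0 : ℝ)..r, Real.cos (2 * Real.pi * y * t)| ≤ 2 * Real.pi * |r| * |r| * |x - y| := by
  rw [← intervalIntegral.integral_sub
    ((by fun_prop : Continuous fun t => Real.cos (2 * Real.pi * x * t)).intervalIntegrable _ _)
    ((by fun_prop : Continuous fun t => Real.cos (2 * Real.pi * y * t)).intervalIntegrable _ _)]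
  have h := intervalIntegral.norm_integral_le_of_norm_le_const (a := (0 : ℝ)) (b := r)
    (f := fun t => Real.cos (2 * Real.pi * x * t) - Real.cos (2 * Real.pi * y * t))
    (C := 2 * Real.pi * |r| * |x - y|) ?_
  · rw [Real.norm_eq_abs] at h
    refine h.trans (le_of_eq ?_)
    rw [sub_zero]
    ring
  · intro t ht
    have ht2 : |t| ≤ |r| := by
      rw [Set.mem_uIoc] at ht
      rcases ht with ⟨h1, h2⟩ | ⟨h1, h2⟩
      · rw [abs_of_pos h1]
        exact h2.trans (le_abs_self r)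
      · rw [abs_of_nonpos h2, abs_of_nonpos (h1.le.trans h2)]
        linarith
    rw [Real.norm_eq_abs]
    refine (Real.abs_cos_sub_cos_le _ _).trans ?_
    have e : 2 * Real.pi * x * t - 2 * Real.pi * y * t = 2 * Real.pi * t * (x - y) := by ring
    rw [e, abs_mul, abs_mul, abs_of_pos (by positivity : (0 : ℝ) < 2 * Real.pi)]
    gcongr

theorem V7_kI {n : ℕ} (hn : 0 < n) {r B : ℝ} (hr : |r| ≤ B) :
    |kI n (Real.pi * r / n) - ∫ t in (0 : ℝ)..r, gS t| ≤ (2 * Real.pi * B * B) / n := by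
  have hn' : (n : ℝ) ≠ 0 := by positivity
  have hB : 0 ≤ B := (abs_nonneg r).trans hr
  have hcont : Continuous fun x => ∫ t in (0 : ℝ)..r, Real.cos (2 * Real.pi * x * t) := by
    have hL : LipschitzWith (Real.toNNReal (2 * Real.pi * |r| * |r|))
        fun x => ∫ t in (0 : ℝ)..r, Real.cos (2 * Real.pi * x * t) := by
      refine LipschitzWith.of_dist_le_mul fun x y => ?_
      rw [Real.dist_eq, Real.dist_eq, Real.coe_toNNReal _ (by positivity)]
      exact V7_lip r x y
    exact hL.continuous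
  have h := riemann hn (fun x => ∫ t in (0 : ℝ)..r, Real.cos (2 * Real.pi * x * t)) hcont
    (2 * Real.pi * B * B) ?_
  · have e : kI n (Real.pi * r / n) = 1 / (2 * n) * ∑ k : Ix n,
        ∫ t in (0 : ℝ)..r, Real.cos (2 * Real.pi * (hp k / (2 * n)) * t) := by
      unfold kI
      rw [Finset.mul_sum, Finset.mul_sum]
      refine Finset.sum_congr rfl fun k _ => ?_
      have hk := hp_ne k
      have hk2 : hp k / (2 * n) ≠ 0 := by positivity
      rw [V7_g _ _ hk2]
      have e2 : hp k * (Real.pi * r / n) = 2 * Real.pi * (hp k / (2 * n)) * r := by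
        field_simp
      rw [e2]
      field_simp
    have e3 : ∫ x in (-(1 / 2) : ℝ)..(1 / 2), ∫ t in (0 : ℝ)..r, Real.cos (2 * Real.pi * x * t) =
        ∫ t in (0 : ℝ)..r, gS t := by
      rw [MeasureTheory.intervalIntegral_intervalIntegral_swap]
      · simp_rw [gS_int]
      · refine IntegrableOn.mono_set (t := (Set.uIcc (-(1 / 2) : ℝ) (1 / 2)) ×ˢ (Set.uIcc 0 r)) ?_
          (Set.prod_mono Set.uIoc_subset_uIcc Set.uIoc_subset_uIcc)
        refine ContinuousOn.integrableOn_compact ?_ ?_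
        · exact isCompact_uIcc.prod isCompact_uIcc
        · refine Continuous.continuousOn ?_
          show Continuous fun p : ℝ × ℝ => Real.cos (2 * Real.pi * p.1 * p.2)
          fun_prop
    rw [e, ← e3]
    exact h
  · intro x y _ _
    refine (V7_lip r x y).trans ?_
    gcongr

theorem V7_sign (x : ℝ) : |Real.sign x| ≤ 1 := by
  rcases Real.sign_apply_eq x with h | h | h <;> rw [h] <;> norm_num

theorem V7_hp {n : ℕ} (k : Ix n) : |hp k| ≤ n := by
  unfold hp od
  have h1 : (k.1 : ℕ) + 1 ≤ n := k.1.2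
  have h2 : (k.2 : ℕ) + 1 ≤ 2 := k.2.2
  have h3 : ((k.1 : ℕ) : ℝ) + 1 ≤ n := by exact_mod_cast h1
  have h4 : ((k.2 : ℕ) : ℝ) + 1 ≤ 2 := by exact_mod_cast h2
  have h5 : (0 : ℝ) ≤ ((k.1 : ℕ) : ℝ) := Nat.cast_nonneg _
  have h6 : (0 : ℝ) ≤ ((k.2 : ℕ) : ℝ) := Nat.cast_nonneg _
  push_cast
  rw [abs_le]
  constructor <;> linarith

theorem V7_card (n : ℕ) : (Finset.univ : Finset (Ix n)).card = n * 2 := by
  rw [Finset.card_univ, Fintype.card_prod, Fintype.card_fin, Fintype.card_fin]

theorem V7_avg {n : ℕ} (hn : 0 < n) (g : Ix n → ℝ) (K : ℝ) (h : ∀ k, |g k| ≤ K) :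
    |1 / (2 * (n : ℝ)) * ∑ k, g k| ≤ K := by
  have hn0 : (0 : ℝ) < n := by exact_mod_cast hn
  rw [abs_mul, abs_of_pos (by positivity : (0 : ℝ) < 1 / (2 * n))]
  have h1 : |∑ k, g k| ≤ (2 * n) * K := by
    refine (Finset.abs_sum_le_sum_abs _ _).trans ((Finset.sum_le_sum fun k _ => h k).trans ?_)
    rw [Finset.sum_const, V7_card, nsmul_eq_mul]
    push_cast
    exact le_of_eq (by ring)
  calc 1 / (2 * (n : ℝ)) * |∑ k, g k| ≤ 1 / (2 * (n : ℝ)) * ((2 * n) * K) := by gcongr
    _ = K := by field_simp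

theorem V7_kI_le {n : ℕ} (hn : 0 < n) (r : ℝ) : |kI n (Real.pi * r / n)| ≤ |r| := by
  have hn0 : (0 : ℝ) < n := by exact_mod_cast hn
  have e : kI n (Real.pi * r / n) = 1 / (2 * n) * ∑ k : Ix n,
      (n / Real.pi) * (1 / hp k * Real.sin (hp k * (Real.pi * r / n))) := by
    unfold kI
    rw [← Finset.mul_sum, ← mul_assoc]
    congr 1
    field_simp
  rw [e]
  refine V7_avg hn _ _ fun k => ?_
  have hk := hp_ne k
  rw [abs_mul, abs_mul, abs_of_pos (by positivity : (0 : ℝ) < n / Real.pi)]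
  have h1 : |Real.sin (hp k * (Real.pi * r / n))| ≤ |hp k * (Real.pi * r / n)| := Real.abs_sin_le_abs
  have h2 : |1 / hp k| * |hp k * (Real.pi * r / n)| = Real.pi / n * |r| := by
    rw [← abs_mul]
    have h3 : 1 / hp k * (hp k * (Real.pi * r / n)) = Real.pi / n * r := by
      field_simp
    rw [h3, abs_mul, abs_of_pos (by positivity : (0 : ℝ) < Real.pi / n)]
  calc (n : ℝ) / Real.pi * (|1 / hp k| * |Real.sin (hp k * (Real.pi * r / n))|) ≤
      n / Real.pi * (|1 / hp k| * |hp k * (Real.pi * r / n)|) := by gcongr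
    _ = |r| := by
      rw [h2]
      field_simp

theorem V7_half (s K : ℝ) (r : ℝ) (hs : |s| ≤ 1) (hK : |K| ≤ |r|) : |s / 2 - K| ≤ 1 / 2 + |r| := by
  calc |s / 2 - K| ≤ |s / 2| + |K| := abs_sub _ _
    _ ≤ 1 / 2 + |r| := by
      rw [abs_div, abs_two]
      linarith

theorem s_bdd {n : ℕ} (hn : 0 < n) (r : ℝ) :
    |sS n r| ≤ 1 ∧ |sD n r| ≤ Real.pi ∧ |sJ n r| ≤ 1 / 2 + |r| := by
  have hn0 : (0 : ℝ) < n := by exact_mod_cast hn
  have hn' : (n : ℝ) ≠ 0 := hn0.ne'
  refine ⟨?_, ?_, ?_⟩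
  · have e : sS n r = 1 / (2 * n) * ∑ k : Ix n, Real.cos (hp k * (Real.pi * r / n)) := by
      unfold sS kS
      rw [← mul_assoc]
      congr 1
      field_simp
    rw [e]
    exact V7_avg hn _ _ fun k => Real.abs_cos_le_one _
  · have e : sD n r = 1 / (2 * n) * ∑ k : Ix n,
        -(Real.pi * (hp k / n) * Real.sin (hp k * (Real.pi * r / n))) := by
      unfold sD kD
      rw [← mul_assoc, Finset.mul_sum, Finset.mul_sum]
      refine Finset.sum_congr rfl fun k _ => ?_
      field_simp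
    rw [e]
    refine V7_avg hn _ _ fun k => ?_
    rw [abs_neg, abs_mul, abs_mul, abs_of_pos Real.pi_pos, abs_div, Nat.abs_cast]
    have h1 : |hp k| / n ≤ 1 := by
      rw [div_le_one hn0]
      exact V7_hp k
    have h2 := Real.abs_sin_le_one (hp k * (Real.pi * r / n))
    calc Real.pi * (|hp k| / n) * |Real.sin (hp k * (Real.pi * r / n))| ≤ Real.pi * 1 * 1 := by
          gcongr
      _ = Real.pi := by ring
  · unfold sJ
    exact V7_half _ _ _ (V7_sign r) (V7_kI_le hn r)

theorem s_lim (B : ℝ) : ∃ C, ∀ n : ℕ, 0 < n → ∀ r, |r| ≤ B → |sS n r - gS r| ≤ C / n ∧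
    |sD n r - deriv gS r| ≤ C / n ∧ |sJ n r - gJ r| ≤ C / n := by
  set K1 : ℝ := 2 * Real.pi * B with hK1
  set K2 : ℝ := 2 * Real.pi * (1 + 2 * Real.pi * B) with hK2
  set K3 : ℝ := 2 * Real.pi * B * B with hK3
  refine ⟨K1 + K2 + K3, ?_⟩
  intro n hn r hr
  have hn0 : (0 : ℝ) < n := by exact_mod_cast hn
  have hB : 0 ≤ B := (abs_nonneg r).trans hr
  have hK1' : 0 ≤ K1 := by positivity
  have hK2' : 0 ≤ K2 := by positivity
  have hK3' : 0 ≤ K3 := by positivity
  have h1 := V7_kS hn hr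
  have h2 := V7_kD hn hr
  have h3 := V7_kI hn hr
  rw [← hK1] at h1
  rw [← hK2] at h2
  rw [← hK3] at h3
  refine ⟨?_, ?_, ?_⟩
  · unfold sS
    refine h1.trans ?_
    gcongr
    linarith
  · unfold sD
    refine h2.trans ?_
    gcongr
    linarith
  · unfold sJ gJ
    have e : Real.sign r / 2 - kI n (Real.pi * r / n) - (Real.sign r / 2 - ∫ t in (0 : ℝ)..r, gS t) =
        -(kI n (Real.pi * r / n) - ∫ t in (0 : ℝ)..r, gS t) := by ring
    rw [e, abs_neg]
    refine h3.trans ?_
    gcongr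
    linarith

theorem g_bdd (r : ℝ) : |gS r| ≤ 1 ∧ |deriv gS r| ≤ Real.pi ∧ |gJ r| ≤ 1 / 2 + |r| := by
  have hS : ∀ r, |gS r| ≤ 1 := fun r => Real.abs_sinc_le_one _
  refine ⟨hS r, ?_, ?_⟩
  · rw [gS_deriv]
    have h := intervalIntegral.norm_integral_le_of_norm_le_const (a := (-(1 / 2) : ℝ)) (b := 1 / 2)
      (f := fun x => -(2 * Real.pi * x * Real.sin (2 * Real.pi * x * r)))
      (C := Real.pi) ?_
    · rw [Real.norm_eq_abs] at h
      refine h.trans (le_of_eq ?_)
      norm_num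
    · intro x hx
      have hx2 : |x| ≤ 1 / 2 := by
        rw [Set.uIoc_of_le (by norm_num)] at hx
        rw [abs_le]
        constructor <;> linarith [hx.1, hx.2]
      rw [Real.norm_eq_abs, abs_neg, abs_mul, abs_mul,
        abs_of_pos (by positivity : (0 : ℝ) < 2 * Real.pi)]
      calc 2 * Real.pi * |x| * |Real.sin (2 * Real.pi * x * r)| ≤ 2 * Real.pi * (1 / 2) * 1 := by
            gcongr
            exact Real.abs_sin_le_one _
        _ = _ := by ring
  · unfold gJ
    refine V7_half _ _ _ (V7_sign r) ?_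
    have h := intervalIntegral.norm_integral_le_of_norm_le_const (a := (0 : ℝ)) (b := r)
      (f := gS) (C := 1) (fun t _ => hS t)
    rw [Real.norm_eq_abs, one_mul, sub_zero] at h
    exact h

end COE
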