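import Pool.Agent.LibCOE.Def2
import Pool.Agent.LibCOE.CP_S1
import Pool.Agent.LibCOE.CP_V7

/-! Row S2. Proof sketch:
All entries of the matrices are bounded by 4 + B (s_bdd, g_bdd; π < 4, 1/2 + B <= 4 + B), card (Ix q) = 2q, so |det| <= ((4+B) √(2q))^(2q)
and √det <= ((4+B) √(2q))^q (`Real.sqrt_le_sqrt`, √(a^(2q)) = a^q). -/

open MeasureTheory Set Filter Topology

namespace COE

open QGr


theorem S2_gen {q : ℕ} (D S J : ℝ → ℝ) (B : ℝ) (x : Fin q → ℝ) (hx : ∀ a b, |x a - x b| ≤ B)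
    (hB : 0 ≤ B) (h : ∀ r, |S r| ≤ 1 ∧ |D r| ≤ Real.pi ∧ |J r| ≤ 1 / 2 + |r|) :
    |√(KM D S J x).det| ≤ ((4 + B) * √(2 * q)) ^ q := by
  have hK : 0 ≤ 4 + B := by linarith
  have hpi : Real.pi ≤ 4 := Real.pi_le_four
  have hent : ∀ a b, |KM D S J x a b| ≤ 4 + B := by
    rintro ⟨a, i⟩ ⟨b, j⟩
    obtain ⟨h1, h2, h3⟩ := h (x a - x b)
    have h4 := hx a b
    fin_cases i <;> fin_cases j <;> simp only [KM] <;> simp <;> linarith
  have hdet := hadamard (KM D S J x) (4 + B) hent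
  have hcard : Fintype.card (Ix q) = 2 * q := by
    simp [Ix, mul_comm]
  rw [hcard] at hdet
  rw [abs_of_nonneg (Real.sqrt_nonneg _)]
  have h5 : (KM D S J x).det ≤ (((4 + B) * √(2 * q)) ^ q) ^ 2 := by
    calc (KM D S J x).det ≤ |(KM D S J x).det| := le_abs_self _
      _ ≤ _ := hdet
      _ = _ := by push_cast; rw [← pow_mul, mul_comm q 2]
  calc √(KM D S J x).det ≤ √((((4 + B) * √(2 * q)) ^ q) ^ 2) := Real.sqrt_le_sqrt h5
    _ = _ := Real.sqrt_sq (by positivity)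

theorem rs_had {q n : ℕ} (hn : 0 < n) (B : ℝ) (x : Fin q → ℝ) (hx : ∀ a b, |x a - x b| ≤ B)
    (hB : 0 ≤ B) : |rs n x| ≤ ((4 + B) * √(2 * q)) ^ q ∧ |gR x| ≤ ((4 + B) * √(2 * q)) ^ q :=
  ⟨S2_gen _ _ _ B x hx hB (fun r => s_bdd hn r), S2_gen _ _ _ B x hx hB (fun r => g_bdd r)⟩

end COE
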