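import Pool.Agent.LibCOE.Def2
import Pool.Agent.LibCOE.CP_S2
import Pool.Agent.LibCOE.CP_V4

/-! Row S11. Proof sketch:
tn_bdd: on (0, s]^k the points cons 0 v have differences at most s: rs_had with B = s, q = k+1; the volume of the box is s^k
(`Real.volume_pi_Ioc`-like, `norm_setIntegral_le_of_norm_le_const`). bd_sum: ratio test (`summable_of_ratio_test_tendsto_lt_one`): the
ratio is s (4+s) √2 √(k+2) (1 + 1/(k+1))^((k+1)/2) / (k+1) → 0; or compare: (2(k+1))^((k+1)/2) / k! <= C ρ^k for every ρ > 0. s = 0 separately. -/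

open MeasureTheory Set Filter Topology

namespace COE

open QGr


theorem S11_diff {k : ℕ} {s : ℝ} (hs : 0 ≤ s) {v : Fin k → ℝ} (hv : v ∈ univ.pi fun _ : Fin k => Ioc 0 s) :
    ∀ a b, |(Fin.cons 0 v : Fin (k + 1) → ℝ) a - (Fin.cons 0 v : Fin (k + 1) → ℝ) b| ≤ s := by
  have h1 : ∀ a, 0 ≤ (Fin.cons 0 v : Fin (k + 1) → ℝ) a ∧ (Fin.cons 0 v : Fin (k + 1) → ℝ) a ≤ s := by
    intro a
    refine Fin.cases ?_ (fun i => ?_) a
    · simp [hs]
    · have := hv i (mem_univ i)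
      rw [Fin.cons_succ]
      exact ⟨this.1.le, this.2⟩
  intro a b
  rw [abs_le]
  constructor <;> linarith [(h1 a).1, (h1 a).2, (h1 b).1, (h1 b).2]

theorem S11_vol (k : ℕ) {s : ℝ} (hs : 0 ≤ s) :
    volume.real (univ.pi fun _ : Fin k => Ioc 0 s) = s ^ k ∧ volume (univ.pi fun _ : Fin k => Ioc 0 s) < ⊤ := by
  have h1 : volume (univ.pi fun _ : Fin k => Ioc 0 s) = ENNReal.ofReal s ^ k := by
    rw [Real.volume_pi_Ioc]
    simp
  rw [measureReal_def, h1]
  refine ⟨?_, ENNReal.pow_lt_top ENNReal.ofReal_lt_top⟩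
  rw [ENNReal.toReal_pow, ENNReal.toReal_ofReal hs]

theorem S11_aux {k : ℕ} {s C : ℝ} (hs : 0 ≤ s) {h : (Fin (k + 1) → ℝ) → ℝ}
    (hh : ∀ x : Fin (k + 1) → ℝ, (∀ a b, |x a - x b| ≤ s) → |h x| ≤ C) :
    |(-1) ^ k / (k.factorial : ℝ) * ∫ v in univ.pi fun _ : Fin k => Ioc 0 s, h (Fin.cons 0 v : Fin (k + 1) → ℝ)|
      ≤ s ^ k / k.factorial * C := by
  have h1 := norm_setIntegral_le_of_norm_le_const (S11_vol k hs).2
    (f := fun v => h (Fin.cons 0 v : Fin (k + 1) → ℝ)) (C := C) (fun v hv => hh _ (S11_diff hs hv))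
  rw [(S11_vol k hs).1, Real.norm_eq_abs] at h1
  rw [abs_mul, abs_div, abs_pow, abs_neg, abs_one, one_pow, Nat.abs_cast]
  calc 1 / (k.factorial : ℝ) * |∫ v in univ.pi fun _ : Fin k => Ioc 0 s, h (Fin.cons 0 v : Fin (k + 1) → ℝ)|
      ≤ 1 / (k.factorial : ℝ) * (C * s ^ k) := mul_le_mul_of_nonneg_left h1 (by positivity)
    _ = s ^ k / k.factorial * C := by ring

theorem tn_bdd {n k : ℕ} (hn : 0 < n) (s : ℝ) (hs : 0 ≤ s) :
    |tn n k s| ≤ s ^ k / k.factorial * ((4 + s) * √(2 * (k + 1))) ^ (k + 1) ∧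
    |tg k s| ≤ s ^ k / k.factorial * ((4 + s) * √(2 * (k + 1))) ^ (k + 1) := by
  constructor
  · refine S11_aux hs fun x hx => ?_
    have := (rs_had hn s x hx hs).1
    rw [Nat.cast_add, Nat.cast_one] at this
    exact this
  · refine S11_aux hs fun x hx => ?_
    have := (rs_had hn s x hx hs).2
    rw [Nat.cast_add, Nat.cast_one] at this
    exact this

theorem bd_sum (s : ℝ) (hs : 0 ≤ s) :
    Summable fun k : ℕ => s ^ k / k.factorial * ((4 + s) * √(2 * (k + 1))) ^ (k + 1) := by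
  obtain ⟨c, hc⟩ : ∃ c : ℝ, c = 2 * (4 + s) ^ 2 := ⟨_, rfl⟩
  have hc0 : 0 ≤ c := by rw [hc]; positivity
  obtain ⟨Z, hZ⟩ : ∃ Z : ℝ, Z = 2 * s ^ 2 * (c * Real.exp 1) := ⟨_, rfl⟩
  have hZ0 : 0 ≤ Z := by rw [hZ]; positivity
  obtain ⟨M, hM⟩ : ∃ M : ℝ, M = c * Real.exp 1 * Real.exp (4 * Z) := ⟨_, rfl⟩
  have hM0 : 0 ≤ M := by rw [hM]; positivity
  have key : ∀ k : ℕ, (s ^ k / k.factorial * ((4 + s) * √(2 * (k + 1))) ^ (k + 1)) ^ 2 ≤ M * (1 / 4) ^ k := by
    intro k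
    have hf : (0 : ℝ) < k.factorial := by exact_mod_cast k.factorial_pos
    have e1 : (s ^ k / k.factorial * ((4 + s) * √(2 * (k + 1))) ^ (k + 1)) ^ 2 =
        (s ^ 2) ^ k / (k.factorial : ℝ) ^ 2 * (c ^ (k + 1) * ((k : ℝ) + 1) ^ (k + 1)) := by
      have e2 : ((4 + s) * √(2 * ((k : ℝ) + 1))) ^ 2 = c * ((k : ℝ) + 1) := by
        rw [mul_pow, Real.sq_sqrt (by positivity), hc]
        ring
      rw [mul_pow, ← pow_mul, mul_comm (k + 1) 2, pow_mul, e2, mul_pow, div_pow, ← pow_mul, mul_comm k 2,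
        pow_mul]
    have e3 : ((k : ℝ) + 1) ^ (k + 1) ≤ Real.exp 1 ^ (k + 1) * (2 ^ k * k.factorial) := by
      have e4 := Real.pow_div_factorial_le_exp ((k : ℝ) + 1) (by positivity) (k + 1)
      have hf1 : (0 : ℝ) < (k + 1).factorial := by exact_mod_cast (k + 1).factorial_pos
      rw [div_le_iff₀ hf1] at e4
      have e5 : Real.exp ((k : ℝ) + 1) = Real.exp 1 ^ (k + 1) := by
        rw [← Real.exp_nat_mul]
        push_cast
        ring_nf
      rw [e5] at e4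
      refine e4.trans (mul_le_mul_of_nonneg_left ?_ (by positivity))
      rw [Nat.factorial_succ]
      push_cast
      refine mul_le_mul_of_nonneg_right ?_ hf.le
      exact_mod_cast Nat.lt_two_pow_self (n := k)
    rw [e1]
    have e6 : (s ^ 2) ^ k / (k.factorial : ℝ) ^ 2 * (c ^ (k + 1) * ((k : ℝ) + 1) ^ (k + 1)) ≤
        (s ^ 2) ^ k / (k.factorial : ℝ) ^ 2 * (c ^ (k + 1) * (Real.exp 1 ^ (k + 1) * (2 ^ k * k.factorial))) :=
      mul_le_mul_of_nonneg_left (mul_le_mul_of_nonneg_left e3 (by positivity)) (by positivity)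
    refine e6.trans ?_
    have e7 : (s ^ 2) ^ k / (k.factorial : ℝ) ^ 2 * (c ^ (k + 1) * (Real.exp 1 ^ (k + 1) * (2 ^ k * k.factorial)))
        = c * Real.exp 1 * (Z ^ k / k.factorial) := by
      rw [hZ]
      rw [mul_pow, mul_pow, mul_pow]
      field_simp
      ring
    rw [e7]
    have e8 : Z ^ k / (k.factorial : ℝ) ≤ Real.exp (4 * Z) * (1 / 4) ^ k := by
      have e9 := Real.pow_div_factorial_le_exp (4 * Z) (by positivity) k
      have e10 : Z ^ k / (k.factorial : ℝ) = (4 * Z) ^ k / k.factorial * (1 / 4) ^ k := by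
        rw [mul_pow]
        have : (4 : ℝ) ^ k * (1 / 4) ^ k = 1 := by rw [← mul_pow]; norm_num
        linear_combination (-(Z ^ k / (k.factorial : ℝ))) * this
      rw [e10]
      exact mul_le_mul_of_nonneg_right e9 (by positivity)
    calc c * Real.exp 1 * (Z ^ k / k.factorial) ≤ c * Real.exp 1 * (Real.exp (4 * Z) * (1 / 4) ^ k) :=
          mul_le_mul_of_nonneg_left e8 (by positivity)
      _ = M * (1 / 4) ^ k := by rw [hM]; ring
  refine Summable.of_nonneg_of_le (fun k => by positivity) (fun k => ?_)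
    ((summable_geometric_of_lt_one (by norm_num : (0:ℝ) ≤ 1 / 2) (by norm_num)).mul_left (√M))
  refine le_of_pow_le_pow_left₀ (n := 2) two_ne_zero (by positivity) ?_
  refine (key k).trans (le_of_eq ?_)
  rw [mul_pow, Real.sq_sqrt hM0, ← pow_mul, mul_comm k 2, pow_mul]
  norm_num

end COE
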