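import Pool.Agent.LibCOE.Def2

/-! Row S7. Proof sketch:
Fix p. E = {j ≠ p : gm N (θ p - θ j) <= s}, m = card E <= N - 1. The embeddings e : Fin (k+1) ↪ Fin N with e 0 = p and all e i.succ ∈ E
correspond to embeddings Fin k ↪ E: m.descFactorial k of them (`Fintype.card_embedding_eq`; `Equiv.embeddingFinSucc`-like), so the inner sum is
∑_p m_p.descFactorial k, divided by k!: choose (`Nat.descFactorial_eq_factorial_mul_choose`); ∑_{k<N} (-1)^k choose m k = if m = 0
then 1 else 0 (`Int.alternating_sum_range_choose`, m < N, choose m k = 0 for k > m). And m = 0 iff ∀ j ≠ p, s < gm. -/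

open MeasureTheory Set Filter Topology

namespace COE

open QGr

theorem S7_alt (N m : ℕ) (hm : m < N) :
    ∑ k ∈ Finset.range N, ((-1) ^ k / k.factorial : ℝ) * (m.descFactorial k : ℝ)
      = if m = 0 then 1 else 0 := by
  have h1 : ∀ k, ((-1) ^ k / k.factorial : ℝ) * (m.descFactorial k : ℝ) = (-1) ^ k * (m.choose k : ℝ) := by
    intro k
    rw [Nat.descFactorial_eq_factorial_mul_choose]
    have h0 : (k.factorial : ℝ) ≠ 0 := by exact_mod_cast Nat.factorial_ne_zero k
    push_cast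
    field_simp
  rw [Finset.sum_congr rfl fun k _ => h1 k]
  have h2 : ∑ k ∈ Finset.range N, (-1 : ℝ) ^ k * (m.choose k : ℝ)
      = ∑ k ∈ Finset.range (m + 1), (-1 : ℝ) ^ k * (m.choose k : ℝ) := by
    symm
    refine Finset.sum_subset (fun k hk => ?_) fun k _ hk => ?_
    · rw [Finset.mem_range] at hk ⊢
      omega
    · rw [Finset.mem_range, not_lt] at hk
      rw [Nat.choose_eq_zero_of_lt (by omega)]
      simp
  rw [h2]
  have h3 := Int.alternating_sum_range_choose (n := m)
  have h4 : ((∑ k ∈ Finset.range (m + 1), ((-1) ^ k * (m.choose k : ℤ)) : ℤ) : ℝ)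
      = ((if m = 0 then 1 else 0 : ℤ) : ℝ) := by rw [h3]
  push_cast at h4
  rw [h4]

open Classical in
theorem S7_card {N : ℕ} (s : ℝ) (θ : Fin N → ℝ) (k : ℕ) (p : Fin N) :
    (Finset.univ.filter fun e : Fin (k + 1) ↪ Fin N =>
      e 0 = p ∧ ∀ i : Fin k, gm N (θ (e 0) - θ (e i.succ)) ≤ s).card
      = (Finset.univ.filter fun j => j ≠ p ∧ gm N (θ p - θ j) ≤ s).card.descFactorial k := by
  set E : Finset (Fin N) := Finset.univ.filter fun j => j ≠ p ∧ gm N (θ p - θ j) ≤ s with hE
  have hmem : ∀ j, j ∈ E ↔ j ≠ p ∧ gm N (θ p - θ j) ≤ s := by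
    intro j
    rw [hE, Finset.mem_filter]
    simp
  have h1 : Fintype.card (Fin k ↪ E) = E.card.descFactorial k := by
    rw [Fintype.card_embedding_eq, Fintype.card_coe, Fintype.card_fin]
  rw [← h1, ← Fintype.card_subtype]
  refine Fintype.card_congr ⟨fun e => ⟨fun i => ⟨e.1 i.succ, ?_⟩, ?_⟩, fun f => ⟨⟨Fin.cons p fun i => (f i).1, ?_⟩, ?_, ?_⟩, ?_, ?_⟩
  · refine (hmem _).2 ⟨?_, ?_⟩
    · intro h
      exact absurd (e.1.injective (h.trans e.2.1.symm)) (Fin.succ_ne_zero i)
    · have h2 := e.2.2 i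
      rwa [e.2.1] at h2
  · intro i j hij
    have h2 : e.1 i.succ = e.1 j.succ := congrArg Subtype.val hij
    exact Fin.succ_injective _ (e.1.injective h2)
  · rw [Fin.cons_injective_iff]
    constructor
    · rintro ⟨i, hi⟩
      exact ((hmem _).1 (f i).2).1 hi
    · intro i j hij
      exact f.injective (Subtype.ext hij)
  · rfl
  · intro i
    exact ((hmem _).1 (f i).2).2
  · rintro ⟨e, he1, he2⟩
    apply Subtype.ext
    ext i
    refine Fin.cases ?_ (fun j => ?_) i
    · exact congrArg Fin.val he1.symm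
    · rfl
  · intro f
    ext i
    rfl

theorem gap_count {N : ℕ} (s : ℝ) (θ : Fin N → ℝ) : cg s θ = ∑ k ∈ Finset.range N,
    ((-1) ^ k / k.factorial : ℝ) * ∑ e : Fin (k + 1) ↪ Fin N,
      ∏ i : Fin k, if gm N (θ (e 0) - θ (e i.succ)) ≤ s then (1 : ℝ) else 0 := by
  classical
  have h1 : ∀ k, ∑ e : Fin (k + 1) ↪ Fin N,
      (∏ i : Fin k, if gm N (θ (e 0) - θ (e i.succ)) ≤ s then (1 : ℝ) else 0)
      = ∑ p, (((Finset.univ.filter fun j => j ≠ p ∧ gm N (θ p - θ j) ≤ s).card.descFactorial k : ℕ) : ℝ) := by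
    intro k
    have h2 : ∀ e : Fin (k + 1) ↪ Fin N,
        (∏ i : Fin k, if gm N (θ (e 0) - θ (e i.succ)) ≤ s then (1 : ℝ) else 0)
        = ∑ p, if (e 0 = p ∧ ∀ i : Fin k, gm N (θ (e 0) - θ (e i.succ)) ≤ s) then (1 : ℝ) else 0 := by
      intro e
      rw [Finset.sum_eq_single (e 0)]
      · rw [Finset.prod_ite_zero]
        simp
      · intro p _ hp
        rw [if_neg]
        rintro ⟨h3, -⟩
        exact hp h3.symm
      · intro h3
        exact absurd (Finset.mem_univ _) h3
    rw [Finset.sum_congr rfl fun e _ => h2 e, Finset.sum_comm]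
    refine Finset.sum_congr rfl fun p _ => ?_
    rw [Finset.sum_boole, S7_card]
  rw [Finset.sum_congr rfl fun k _ => by rw [h1 k]]
  have h3 : ∑ k ∈ Finset.range N, ((-1) ^ k / k.factorial : ℝ) *
      ∑ p, (((Finset.univ.filter fun j => j ≠ p ∧ gm N (θ p - θ j) ≤ s).card.descFactorial k : ℕ) : ℝ)
      = ∑ p, ∑ k ∈ Finset.range N, ((-1) ^ k / k.factorial : ℝ) *
        (((Finset.univ.filter fun j => j ≠ p ∧ gm N (θ p - θ j) ≤ s).card.descFactorial k : ℕ) : ℝ) := by
    rw [Finset.sum_comm]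
    exact Finset.sum_congr rfl fun k _ => by rw [Finset.mul_sum]
  rw [h3]
  unfold cg
  refine Finset.sum_congr rfl fun p _ => ?_
  have hlt : (Finset.univ.filter fun j => j ≠ p ∧ gm N (θ p - θ j) ≤ s).card < N := by
    have h4 : (Finset.univ.filter fun j => j ≠ p ∧ gm N (θ p - θ j) ≤ s).card
        < (Finset.univ : Finset (Fin N)).card := by
      refine Finset.card_lt_card ?_
      rw [Finset.ssubset_univ_iff]
      intro h5
      have h6 : p ∈ (Finset.univ.filter fun j => j ≠ p ∧ gm N (θ p - θ j) ≤ s) := by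
        rw [h5]; exact Finset.mem_univ _
      rw [Finset.mem_filter] at h6
      exact h6.2.1 rfl
    rwa [Finset.card_univ, Fintype.card_fin] at h4
  rw [S7_alt N _ hlt]
  congr 1
  rw [Finset.card_eq_zero, Finset.filter_eq_empty_iff]
  simp only [eq_iff_iff]
  constructor
  · intro h j _ hj
    exact absurd (h j hj.1) (not_lt.2 hj.2)
  · intro h j hj
    by_contra h4
    exact h (Finset.mem_univ j) ⟨hj, not_lt.1 h4⟩

end COE
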