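import Pool.Agent.LibCOE.Def2
import Pool.Agent.LibCOE.CO_W2

/-! Row V3. Proof sketch:
Let T = AddCircle (2π). G(0, v) for v ∈ ℝ^k descends to H : (Fin k → T) → ℝ, and `AddCircle.measurePreserving_mk` (period 2π, base
point a) with `measurePreserving_pi` gives ∫ v, G (cons 0 v) ∂(cubc c k) = ∫ H for every c. By Fubini
(`measurePreserving_piFinSuccAbove` at 0) the left side is ∫_{x₀ ∈ (0,2π]} ∫_{x' ∈ (0,2π]^k} G (cons x₀ x'), and ht (shift by -x₀) turns the
inner integral into ∫ G (cons 0 (x' - x₀)) = ∫ over cubc (-x₀) k of G (cons 0 v) = the constant. Multiply by 2π. -/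

open MeasureTheory Set Filter Topology

namespace COE

open QGr


theorem V3_per_int {k : ℕ} (H : (Fin k → ℝ) → ℝ)
    (hp : ∀ v j, H (Function.update v j (v j + 2 * Real.pi)) = H v) (n : Fin k → ℤ)
    (v : Fin k → ℝ) : H (fun i => v i + n i * (2 * Real.pi)) = H v := by
  classical
  have h1 : ∀ (m : ℕ) (v : Fin k → ℝ) (j : Fin k),
      H (Function.update v j (v j + m * (2 * Real.pi))) = H v := by
    intro m
    induction m with
    | zero => intro v j; simp
    | succ m ih =>
      intro v j
      have h := hp (Function.update v j (v j + m * (2 * Real.pi))) j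
      rw [ih, Function.update_idem, Function.update_self] at h
      rw [← h]
      congr 2
      push_cast
      ring
  have h2 : ∀ (m : ℤ) (v : Fin k → ℝ) (j : Fin k),
      H (Function.update v j (v j + m * (2 * Real.pi))) = H v := by
    intro m v j
    obtain ⟨a, rfl | rfl⟩ := m.eq_nat_or_neg
    · simpa using h1 a v j
    · have h := h1 a (Function.update v j (v j + ((-(a : ℤ) : ℤ) : ℝ) * (2 * Real.pi))) j
      rw [Function.update_idem, Function.update_self] at h
      rw [← h]
      have h' : v j + ((-(a : ℤ) : ℤ) : ℝ) * (2 * Real.pi) + (a : ℝ) * (2 * Real.pi) = v j := by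
        push_cast
        ring
      rw [h', Function.update_eq_self]
  have h3 : ∀ s : Finset (Fin k),
      H (fun i => if i ∈ s then v i + n i * (2 * Real.pi) else v i) = H v := by
    intro s
    induction s using Finset.induction_on with
    | empty => simp
    | insert a s ha ih =>
      rw [← ih, ← h2 (n a) (fun i => if i ∈ s then v i + n i * (2 * Real.pi) else v i) a]
      congr 1
      ext i
      by_cases h : i = a
      · subst h
        simp [ha]
      · simp [Function.update_of_ne h, h]
  simpa using h3 Finset.univ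

theorem V3_indep {k : ℕ} (H : (Fin k → ℝ) → ℝ) (hH : Measurable H)
    (hp : ∀ v j, H (Function.update v j (v j + 2 * Real.pi)) = H v) (a b : ℝ) :
    ∫ v, H v ∂(cubc a k) = ∫ v, H v ∂(cubc b k) := by
  haveI : Fact (0 < 2 * Real.pi) := ⟨Real.two_pi_pos⟩
  have hmp : ∀ c : ℝ, MeasurePreserving
      (fun (v : Fin k → ℝ) (i : Fin k) => ((v i : ℝ) : AddCircle (2 * Real.pi))) (cubc c k)
      (Measure.pi fun _ => (volume : Measure (AddCircle (2 * Real.pi)))) := by
    intro c
    exact measurePreserving_pi _ _ (fun i => AddCircle.measurePreserving_mk (2 * Real.pi) c)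
  set H' : (Fin k → AddCircle (2 * Real.pi)) → ℝ := fun y =>
    H (fun i => ((AddCircle.measurableEquivIoc (2 * Real.pi) 0 (y i) : _) : ℝ)) with hH'
  have hH'm : Measurable H' := by
    apply hH.comp
    refine measurable_pi_lambda _ fun i => ?_
    exact measurable_subtype_coe.comp
      ((AddCircle.measurableEquivIoc (2 * Real.pi) 0).measurable.comp (measurable_pi_apply i))
  have hcomp : ∀ v : Fin k → ℝ, H' (fun i => ((v i : ℝ) : AddCircle (2 * Real.pi))) = H v := by
    intro v
    have h := V3_per_int H hp (fun i => -toIocDiv Real.two_pi_pos 0 (v i)) v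
    rw [← h]
    show H _ = H _
    congr 1
    ext i
    change toIocMod Real.two_pi_pos 0 (v i) = _
    rw [toIocMod]
    simp [zsmul_eq_mul, sub_eq_add_neg]
  have key : ∀ c : ℝ, ∫ v, H v ∂(cubc c k) =
      ∫ y, H' y ∂(Measure.pi fun _ => (volume : Measure (AddCircle (2 * Real.pi)))) := by
    intro c
    rw [← (hmp c).map_eq, integral_map (hmp c).measurable.aemeasurable
      hH'm.aestronglyMeasurable]
    exact integral_congr_ae (Filter.Eventually.of_forall fun v => (hcomp v).symm)
  rw [key a, key b]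

theorem V3_trans (k : ℕ) (t : ℝ) : MeasurePreserving
    (fun (v : Fin k → ℝ) (i : Fin k) => v i - t) (cubc 0 k) (cubc (-t) k) := by
  refine measurePreserving_pi (fun _ : Fin k => (volume.restrict (Ioc 0 (0 + 2 * Real.pi)) : Measure ℝ))
    (fun _ : Fin k => (volume.restrict (Ioc (-t) (-t + 2 * Real.pi)) : Measure ℝ))
    (f := fun _ x => x - t) (fun i => ?_)
  have h := (measurePreserving_sub_right (volume : Measure ℝ) t).restrict_preimage
    (measurableSet_Ioc (a := -t) (b := -t + 2 * Real.pi))
  have h' : (fun x : ℝ => x - t) ⁻¹' (Ioc (-t) (-t + 2 * Real.pi)) = Ioc 0 (0 + 2 * Real.pi) := by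
    ext x
    simp only [mem_preimage, mem_Ioc]
    constructor
    · rintro ⟨h1, h2⟩
      constructor <;> linarith
    · rintro ⟨h1, h2⟩
      constructor <;> linarith
  rw [h'] at h
  exact h

theorem torus {k : ℕ} (c : ℝ) (G : (Fin (k + 1) → ℝ) → ℝ) (hG : Measurable G) (K : ℝ)
    (hK : ∀ x, |G x| ≤ K) (hp : ∀ x j, G (Function.update x j (x j + 2 * Real.pi)) = G x)
    (ht : ∀ x (c : ℝ), G (fun j => x j + c) = G x) :
    ∫ x, G x ∂(cube (Fin (k + 1))) = 2 * Real.pi * ∫ v, G (Fin.cons 0 v) ∂(cubc c k) := by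
  haveI hfin : IsFiniteMeasure (volume.restrict (Ioc 0 (2 * Real.pi)) : Measure ℝ) := by
    infer_instance
  have hmp := measurePreserving_piFinSuccAbove
    (fun _ : Fin (k + 1) => (volume.restrict (Ioc 0 (2 * Real.pi)) : Measure ℝ)) 0
  set e := MeasurableEquiv.piFinSuccAbove (fun _ : Fin (k + 1) => ℝ) 0 with he
  have hsymm : ∀ p : ℝ × (Fin k → ℝ), e.symm p = Fin.cons p.1 p.2 := by
    intro p
    rw [he]
    change Fin.insertNth (α := fun _ => ℝ) 0 p.1 p.2 = _
    rw [Fin.insertNth_zero']
  have hcube : cube (Fin k) = cubc 0 k := by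
    unfold cube cubc
    simp
  have h1 : ∫ x, G x ∂(cube (Fin (k + 1))) =
      ∫ p, G (Fin.cons p.1 p.2) ∂((volume.restrict (Ioc 0 (2 * Real.pi))).prod (cubc 0 k)) := by
    have := hmp.integral_comp' (g := fun p => G (e.symm p))
    simp only [MeasurableEquiv.symm_apply_apply] at this
    unfold cube
    rw [this]
    have h2 : (Measure.pi fun _ : Fin k => (volume.restrict (Ioc 0 (2 * Real.pi)) : Measure ℝ)) =
        cubc 0 k := by rw [← hcube]; rfl
    rw [h2]
    exact integral_congr_ae (Filter.Eventually.of_forall fun p => by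
      show G (e.symm p) = G (Fin.cons p.1 p.2)
      rw [hsymm])
  haveI : IsFiniteMeasure (cubc 0 k) := by rw [← hcube]; exact cube_fin _
  have hmeas : Measurable fun p : ℝ × (Fin k → ℝ) => G (Fin.cons p.1 p.2) := by
    have : (fun p : ℝ × (Fin k → ℝ) => G (Fin.cons p.1 p.2)) = fun p => G (e.symm p) := by
      ext p
      rw [hsymm]
    rw [this]
    exact hG.comp e.symm.measurable
  have hint : Integrable (fun p : ℝ × (Fin k → ℝ) => G (Fin.cons p.1 p.2))
      ((volume.restrict (Ioc 0 (2 * Real.pi))).prod (cubc 0 k)) := by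
    refine Integrable.of_bound hmeas.aestronglyMeasurable K ?_
    exact Filter.Eventually.of_forall fun p => by rw [Real.norm_eq_abs]; exact hK _
  rw [h1, integral_prod _ hint]
  have h3 : ∀ x₀ : ℝ, ∫ v, G (Fin.cons x₀ v) ∂(cubc 0 k) = ∫ v, G (Fin.cons 0 v) ∂(cubc c k) := by
    intro x₀
    have hm0 : Measurable fun v : Fin k → ℝ => G (Fin.cons 0 v) :=
      hmeas.comp (measurable_const.prodMk measurable_id)
    have h4 : ∫ v, G (Fin.cons 0 v) ∂(cubc c k) = ∫ v, G (Fin.cons 0 v) ∂(cubc (-x₀) k) := by
      refine V3_indep (fun v => G (Fin.cons 0 v)) hm0 ?_ c (-x₀)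
      intro v j
      have := hp (Fin.cons 0 v) j.succ
      rw [Fin.cons_succ] at this
      rw [← this]
      congr 1
      exact Fin.cons_update _ _ _ _
    rw [h4, ← (V3_trans k x₀).map_eq, integral_map (V3_trans k x₀).measurable.aemeasurable
      hm0.aestronglyMeasurable]
    refine integral_congr_ae (Filter.Eventually.of_forall fun v => ?_)
    show G (Fin.cons x₀ v) = G (Fin.cons 0 fun i => v i - x₀)
    rw [← ht (Fin.cons x₀ v) (-x₀)]
    congr 1
    ext i
    refine Fin.cases ?_ (fun i => ?_) i
    · simp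
    · simp [sub_eq_add_neg]
  simp only [h3]
  rw [integral_const]
  simp [Measure.real, Real.volume_Ioc, ENNReal.toReal_ofReal, Real.pi_pos.le]

end COE
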