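import Pool.Agent.LibCOE.Def2

/-! Row V5. Proof sketch:
With D = (π/n) r, |r| < 2n: sign (sin (D/2)) = sign r (|D/2| < π, `Real.sin_pos_of_pos_of_lt_pi`). KM (sD n) (sS n) (sJ n) x = E KM(π x/n) E
with E diagonal, π/n on (a,0), 1 on (a,1): det = (π/n)^(2q) det, √ = (π/n)^q √ (`Real.sqrt_mul_self`, `Matrix.det_diagonal`,
`Finset.prod_product`). -/

open MeasureTheory Set Filter Topology

namespace COE

open QGr

theorem V5_sign {n : ℕ} (hn : 0 < n) (r : ℝ) (hr : |r| < 2 * n) :
    Real.sign (Real.sin (Real.pi / n * r / 2)) = Real.sign r := by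
  have hn0 : (0 : ℝ) < n := by exact_mod_cast hn
  have hpi := Real.pi_pos
  obtain ⟨h1, h2⟩ := abs_lt.1 hr
  rcases lt_trichotomy r 0 with h | h | h
  · rw [Real.sign_of_neg h, Real.sign_of_neg]
    refine Real.sin_neg_of_neg_of_neg_pi_lt ?_ ?_
    · have : Real.pi / n * r < 0 := mul_neg_of_pos_of_neg (by positivity) h
      linarith
    · have h3 : Real.pi / n * r / 2 = Real.pi * (r / (2 * n)) := by field_simp
      rw [h3]
      have h4 : -1 < r / (2 * n) := by
        rw [lt_div_iff₀ (by positivity)]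
        linarith
      nlinarith
  · rw [h]; simp
  · rw [Real.sign_of_pos h, Real.sign_of_pos]
    refine Real.sin_pos_of_pos_of_lt_pi ?_ ?_
    · positivity
    · have h3 : Real.pi / n * r / 2 = Real.pi * (r / (2 * n)) := by field_simp
      rw [h3]
      have h4 : r / (2 * n) < 1 := by
        rw [div_lt_iff₀ (by positivity)]
        linarith
      nlinarith

theorem rq_scale {q n : ℕ} (hn : 0 < n) (x : Fin q → ℝ) (hx : ∀ a b, |x a - x b| < 2 * n) :
    (Real.pi / n) ^ q * rq n (fun a => Real.pi / n * x a) = rs n x := by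
  have hn0 : (0 : ℝ) < n := by exact_mod_cast hn
  have hc : (0 : ℝ) < Real.pi / n := by positivity
  set E : Matrix (Ix q) (Ix q) ℝ := Matrix.diagonal fun a => if a.2 = 0 then Real.pi / n else 1 with hE
  have h1 : KM (sD n) (sS n) (sJ n) x
      = E * KM (kD n) (kS n) (kJ n) (fun a => Real.pi / n * x a) * E := by
    ext ⟨a, i⟩ ⟨b, j⟩
    rw [hE, Matrix.mul_diagonal, Matrix.diagonal_mul]
    have e1 : Real.pi / n * x a - Real.pi / n * x b = Real.pi * (x a - x b) / n := by
      field_simp
    have e2 := V5_sign hn (x a - x b) (hx a b)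
    have e3 : Real.pi / n * (x a - x b) / 2 = Real.pi * (x a - x b) / n / 2 := by
      field_simp
    rw [e3] at e2
    fin_cases i <;> fin_cases j <;> simp [KM, sD, sS, sJ, kJ, e1, e2] <;> ring
  have h2 : E.det = (Real.pi / n) ^ q := by
    rw [hE, Matrix.det_diagonal, Fintype.prod_prod_type]
    simp [div_pow]
  have h3 : (KM (sD n) (sS n) (sJ n) x).det = ((Real.pi / n) ^ q) ^ 2
      * (KM (kD n) (kS n) (kJ n) (fun a => Real.pi / n * x a)).det := by
    rw [h1, Matrix.det_mul, Matrix.det_mul, h2]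
    ring
  unfold rs rq
  rw [h3, Real.sqrt_mul (sq_nonneg _), Real.sqrt_sq (by positivity)]

end COE
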