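import Pool.Agent.LibCOE.Def2
import Pool.Agent.LibCOE.CP_S5
import Pool.Agent.LibCOE.CP_V3
import Pool.Agent.LibCOE.CP_V4
import Pool.Agent.LibCOE.CP_V5

/-! Row S8. Proof sketch:
N = 2n. G(x) = (∏ 1[gm N (x 0 - x i.succ) <= s]) rq n x is periodic (fract), shift invariant, bounded, measurable: torus with c = -2π:
2π ∫ over v ∈ (-2π, 0]^k of G (cons 0 v). For v i < 0: gm N (-v i) = N (-v i)/(2π) = -n v i/π (fract of v/(2π) ∈ [-1, 0) is
v/(2π) + 1); for v i = 0 gm = N > s. So the domain is v i ∈ [-πs/n, 0). Substitute v = -(π/n) w, w ∈ (0, s]^k: factor (π/n)^k, rq_neg, and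
rq n (cons 0 ((π/n) w)) = (n/π)^(k+1) rs n (cons 0 w) (rq_scale: |w_i - w_j| <= s < 2n). Total 2π (π/n)^k (n/π)^(k+1) = 2n.
Set integrals of indicator products: `setIntegral`, `MeasureTheory.integral_indicator`, `Measure.setIntegral_comp_smul`. -/

open MeasureTheory Set Filter Topology

namespace COE

open QGr


theorem S8_gm (N : ℕ) (r : ℝ) (m : ℤ) : gm N (r + 2 * Real.pi * m) = gm N r := by
  unfold gm
  have h : -((r + 2 * Real.pi * m) / (2 * Real.pi)) = -(r / (2 * Real.pi)) - m := by
    have := Real.pi_pos.ne'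
    field_simp
    ring
  rw [h, Int.fract_sub_intCast]

theorem S8_iff {n : ℕ} (hn : 0 < n) (s v : ℝ) (hs : s < 2 * n) (h1 : -(2 * Real.pi) < v)
    (h2 : v ≤ 0) : gm (n * 2) (0 - v) ≤ s ↔ v ∈ Ico (-(Real.pi / n * s)) 0 := by
  have hn' : (0:ℝ) < n := by exact_mod_cast hn
  have hpi := Real.pi_pos
  unfold gm
  have e : -((0 - v) / (2 * Real.pi)) = v / (2 * Real.pi) := by ring
  rw [e]
  rcases h2.eq_or_lt with h | h
  · subst h
    simp only [zero_div, Int.fract_zero, sub_zero, mul_one, mem_Ico, lt_self_iff_false, and_false,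
      iff_false, not_le]
    push_cast
    linarith
  · have hfl : ⌊v / (2 * Real.pi)⌋ = -1 := by
      rw [Int.floor_eq_iff]
      constructor
      · push_cast
        rw [le_div_iff₀ (by positivity)]
        linarith
      · push_cast
        rw [div_lt_iff₀ (by positivity)]
        linarith
    have hfr : Int.fract (v / (2 * Real.pi)) = v / (2 * Real.pi) + 1 := by
      rw [Int.fract, hfl]
      push_cast
      ring
    rw [hfr]
    have e2 : ((n * 2 : ℕ) : ℝ) * (1 - (v / (2 * Real.pi) + 1)) = -(n / Real.pi * v) := by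
      push_cast
      field_simp
      ring
    rw [e2, mem_Ico]
    constructor
    · intro h3
      refine ⟨?_, h⟩
      have : Real.pi / n * (-(n / Real.pi * v)) ≤ Real.pi / n * s :=
        mul_le_mul_of_nonneg_left h3 (by positivity)
      have e3 : Real.pi / n * (-(n / Real.pi * v)) = -v := by field_simp
      linarith
    · rintro ⟨h3, -⟩
      have : n / Real.pi * (-v) ≤ n / Real.pi * (Real.pi / n * s) :=
        mul_le_mul_of_nonneg_left (by linarith) (by positivity)
      have e3 : n / Real.pi * (Real.pi / n * s) = s := by field_simp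
      linarith

open scoped Pointwise in
theorem gap_int {n k : ℕ} (hn : 0 < n) (s : ℝ) (h0 : 0 ≤ s) (hs : s < 2 * n) :
    ∫ x : Fin (k + 1) → ℝ, (∏ i : Fin k, if gm (n * 2) (x 0 - x i.succ) ≤ s then (1 : ℝ) else 0)
        * rq n x ∂(cube (Fin (k + 1)))
      = 2 * n * ∫ v in univ.pi fun _ : Fin k => Ioc 0 s, rs n (Fin.cons 0 v : Fin (k + 1) → ℝ) := by
  have hn' : (0:ℝ) < n := by exact_mod_cast hn
  have hpi := Real.pi_pos
  obtain ⟨K, hK⟩ := rq_bdd (q := k + 1) n
  rw [torus (-(2 * Real.pi)) (fun x : Fin (k + 1) → ℝ =>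
    (∏ i : Fin k, if gm (n * 2) (x 0 - x i.succ) ≤ s then (1 : ℝ) else 0) * rq n x) ?_ K ?_ ?_ ?_]
  · -- main computation
    have hcub : cubc (-(2 * Real.pi)) k
        = (volume : Measure (Fin k → ℝ)).restrict (univ.pi fun _ => Ioc (-(2 * Real.pi)) 0) := by
      rw [cubc, volume_pi, Measure.restrict_pi_pi]
      simp
    rw [hcub]
    have hmeas : MeasurableSet (univ.pi fun _ : Fin k => Ioc (-(2 * Real.pi)) (0:ℝ)) :=
      MeasurableSet.univ_pi fun _ => measurableSet_Ioc
    have hmeas' : MeasurableSet (univ.pi fun _ : Fin k => Ico (-(Real.pi / n * s)) (0:ℝ)) :=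
      MeasurableSet.univ_pi fun _ => measurableSet_Ico
    have hcongr : ∀ v ∈ (univ.pi fun _ : Fin k => Ioc (-(2 * Real.pi)) (0:ℝ)),
        (∏ i : Fin k, if gm (n * 2) ((Fin.cons 0 v : Fin (k + 1) → ℝ) 0
          - (Fin.cons 0 v : Fin (k + 1) → ℝ) i.succ) ≤ s then (1 : ℝ) else 0)
            * rq n (Fin.cons 0 v : Fin (k + 1) → ℝ)
        = (univ.pi fun _ : Fin k => Ico (-(Real.pi / n * s)) (0:ℝ)).indicator
          (fun v => rq n (Fin.cons 0 v : Fin (k + 1) → ℝ)) v := by
      intro v hv
      have hv' : ∀ i, -(2 * Real.pi) < v i ∧ v i ≤ 0 := fun i => hv i (mem_univ i)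
      simp only [Fin.cons_zero, Fin.cons_succ]
      by_cases hmem : v ∈ (univ.pi fun _ : Fin k => Ico (-(Real.pi / n * s)) (0:ℝ))
      · rw [indicator_of_mem hmem]
        have : (∏ i : Fin k, if gm (n * 2) (0 - v i) ≤ s then (1 : ℝ) else 0) = 1 := by
          apply Finset.prod_eq_one
          intro i _
          rw [if_pos ((S8_iff hn s (v i) hs (hv' i).1 (hv' i).2).2 (hmem i (mem_univ i)))]
        rw [this, one_mul]
      · rw [indicator_of_notMem hmem]
        have hex : ∃ i, v i ∉ Ico (-(Real.pi / n * s)) (0:ℝ) := by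
          by_contra hcon
          push Not at hcon
          exact hmem fun i _ => hcon i
        obtain ⟨i, hi⟩ := hex
        have : (∏ i : Fin k, if gm (n * 2) (0 - v i) ≤ s then (1 : ℝ) else 0) = 0 := by
          apply Finset.prod_eq_zero (Finset.mem_univ i)
          rw [if_neg fun h => hi ((S8_iff hn s (v i) hs (hv' i).1 (hv' i).2).1 h)]
        rw [this, zero_mul]
    rw [setIntegral_congr_fun hmeas hcongr, setIntegral_indicator hmeas']
    have hinter : (univ.pi fun _ : Fin k => Ioc (-(2 * Real.pi)) (0:ℝ)) ∩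
        (univ.pi fun _ : Fin k => Ico (-(Real.pi / n * s)) (0:ℝ))
        = univ.pi fun _ : Fin k => Ico (-(Real.pi / n * s)) (0:ℝ) := by
      rw [inter_eq_right]
      intro v hv i hi
      have := hv i hi
      refine ⟨?_, this.2.le⟩
      have h1 : Real.pi / n * s < Real.pi / n * (2 * n) :=
        mul_lt_mul_of_pos_left hs (by positivity)
      have e1 : Real.pi / n * (2 * n) = 2 * Real.pi := by field_simp
      linarith [this.1]
    rw [hinter]
    have hR : (-(Real.pi / n) : ℝ) ≠ 0 := by
      have hp0 : 0 < Real.pi / n := by positivity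
      exact neg_ne_zero.2 hp0.ne'
    have hsc := Measure.setIntegral_comp_smul (volume : Measure (Fin k → ℝ))
      (fun v => rq n (Fin.cons 0 v : Fin (k + 1) → ℝ)) (univ.pi fun _ : Fin k => Ioc (0:ℝ) s) hR
    have himg : (-(Real.pi / n) : ℝ) • (univ.pi fun _ : Fin k => Ioc (0:ℝ) s)
        = univ.pi fun _ : Fin k => Ico (-(Real.pi / n * s)) (0:ℝ) := by
      have hp : 0 < Real.pi / n := by positivity
      ext v
      rw [mem_smul_set]
      constructor
      · rintro ⟨w, hw, rfl⟩ i hi
        have := hw i hi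
        simp only [Pi.smul_apply, smul_eq_mul]
        constructor
        · nlinarith [this.2]
        · nlinarith [this.1]
      · intro hv
        refine ⟨(-(Real.pi / n) : ℝ)⁻¹ • v, ?_, by rw [smul_inv_smul₀ hR]⟩
        intro i hi
        have := hv i hi
        simp only [Pi.smul_apply, smul_eq_mul]
        have e : (-(Real.pi / n) : ℝ)⁻¹ * v i = (Real.pi / n)⁻¹ * (-v i) := by
          rw [inv_neg]; ring
        rw [e]
        constructor
        · have := this.2
          have h3 : 0 < (Real.pi / n)⁻¹ := inv_pos.2 hp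
          exact mul_pos h3 (by linarith)
        · rw [inv_mul_le_iff₀ hp]
          linarith [this.1]
    rw [himg] at hsc
    have hfr : Module.finrank ℝ (Fin k → ℝ) = k := by simp
    rw [hfr] at hsc
    have hrs : ∀ w ∈ (univ.pi fun _ : Fin k => Ioc (0:ℝ) s),
        rq n (Fin.cons 0 ((-(Real.pi / n) : ℝ) • w) : Fin (k + 1) → ℝ)
          = (n / Real.pi) ^ (k + 1) * rs n (Fin.cons 0 w : Fin (k + 1) → ℝ) := by
      intro w hw
      have hw' : ∀ i, 0 < w i ∧ w i ≤ s := fun i => hw i (mem_univ i)
      have e1 : (Fin.cons 0 ((-(Real.pi / n) : ℝ) • w) : Fin (k + 1) → ℝ)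
          = fun a => -(Real.pi / n * (Fin.cons 0 w : Fin (k + 1) → ℝ) a) := by
        funext a
        refine Fin.cases ?_ (fun i => ?_) a
        · simp
        · simp
      rw [e1, rq_neg n (fun a => Real.pi / n * (Fin.cons 0 w : Fin (k + 1) → ℝ) a)]
      rw [← rq_scale hn (Fin.cons 0 w : Fin (k + 1) → ℝ) ?_, ← mul_assoc, ← mul_pow]
      · have : (n:ℝ) / Real.pi * (Real.pi / n) = 1 := by field_simp
        rw [this, one_pow, one_mul]
      · intro a b
        have hrange : ∀ a, 0 ≤ (Fin.cons 0 w : Fin (k + 1) → ℝ) a ∧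
            (Fin.cons 0 w : Fin (k + 1) → ℝ) a ≤ s := by
          intro a
          refine Fin.cases ?_ (fun i => ?_) a
          · simp [h0]
          · simp only [Fin.cons_succ]
            exact ⟨(hw' i).1.le, (hw' i).2⟩
        have ha := hrange a
        have hb := hrange b
        rw [abs_lt]
        constructor <;> linarith [ha.1, ha.2, hb.1, hb.2]
    have hmeas'' : MeasurableSet (univ.pi fun _ : Fin k => Ioc (0:ℝ) s) :=
      MeasurableSet.univ_pi fun _ => measurableSet_Ioc
    rw [setIntegral_congr_fun hmeas'' hrs, integral_const_mul] at hsc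
    have habs : |((-(Real.pi / n) : ℝ) ^ k)⁻¹| = (n / Real.pi) ^ k := by
      rw [abs_inv, abs_pow, abs_neg, abs_of_pos (by positivity), ← inv_pow, inv_div]
    rw [habs, smul_eq_mul, pow_succ, mul_assoc] at hsc
    have hne : ((n:ℝ) / Real.pi) ^ k ≠ 0 := by positivity
    have hfin := mul_left_cancel₀ hne hsc
    rw [← hfin]
    field_simp
  · -- measurability
    apply Measurable.mul
    · apply Finset.measurable_fun_prod
      intro i _
      apply Measurable.ite _ measurable_const measurable_const
      apply measurableSet_le _ measurable_const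
      exact (gm_meas _).comp ((measurable_pi_apply _).sub (measurable_pi_apply _))
    · exact rq_meas n
  · intro x
    have hK0 : 0 ≤ K := (abs_nonneg _).trans (hK x)
    rw [abs_mul, Finset.abs_prod]
    have h1 : ∏ i : Fin k, |if gm (n * 2) (x 0 - x i.succ) ≤ s then (1 : ℝ) else 0| ≤ 1 := by
      apply Finset.prod_le_one
      · intro i _
        exact abs_nonneg _
      · intro i _
        split_ifs <;> simp
    have h2 : 0 ≤ ∏ i : Fin k, |if gm (n * 2) (x 0 - x i.succ) ≤ s then (1 : ℝ) else 0| :=
      Finset.prod_nonneg fun i _ => abs_nonneg _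
    calc _ ≤ 1 * K := mul_le_mul h1 (hK x) (abs_nonneg _) (by norm_num)
      _ = K := one_mul K
  · intro x j
    rw [rq_per]
    congr 1
    apply Finset.prod_congr rfl
    intro i _
    have : ∃ m : ℤ, Function.update x j (x j + 2 * Real.pi) 0
        - Function.update x j (x j + 2 * Real.pi) i.succ = (x 0 - x i.succ) + 2 * Real.pi * m := by
      by_cases hj0 : j = 0
      · subst hj0
        refine ⟨1, ?_⟩
        rw [Function.update_self, Function.update_of_ne (Fin.succ_ne_zero i)]
        push_cast
        ring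
      · by_cases hji : j = i.succ
        · subst hji
          refine ⟨-1, ?_⟩
          rw [Function.update_self, Function.update_of_ne (Ne.symm (Fin.succ_ne_zero i))]
          push_cast
          ring
        · refine ⟨0, ?_⟩
          rw [Function.update_of_ne (Ne.symm hj0), Function.update_of_ne (Ne.symm hji)]
          push_cast
          ring
    obtain ⟨m, hm⟩ := this
    rw [hm, S8_gm]
  · intro x c
    rw [rq_shift]
    congr 1
    apply Finset.prod_congr rfl
    intro i _
    rw [add_sub_add_right_eq_sub]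

end COE
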