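import Pool.Agent.LibCOE.Def2
import Pool.Agent.LibCOE.CO_W1
import Pool.Agent.LibCOE.CO_W2
import Pool.Agent.LibCOE.CP_G10
import Pool.Agent.LibCOE.CP_S5
import Pool.Agent.LibCOE.CP_S7
import Pool.Agent.LibCOE.CP_S8

/-! Row S9. Proof sketch:
SN = (1/N) ∫ cg s wt / ∫ wt; gap_count, linearity, dens_int with F x = ∏_i 1[gm N (x 0 - x i.succ) <= s] (measurable, bounded by 1), q = k+1,
then gap_int; N = n*2. -/

open MeasureTheory Set Filter Topology

namespace COE

open QGr


/-- the indicator that the point `x 0` is followed closely by the others. -/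
noncomputable def S9_F (N k : ℕ) (s : ℝ) (x : Fin (k + 1) → ℝ) : ℝ :=
  ∏ i : Fin k, if gm N (x 0 - x i.succ) ≤ s then (1 : ℝ) else 0

theorem S9_meas (N k : ℕ) (s : ℝ) : Measurable (S9_F N k s) := by
  unfold S9_F
  apply Finset.measurable_fun_prod
  intro i _
  apply Measurable.ite _ measurable_const measurable_const
  apply measurableSet_le _ measurable_const
  exact (gm_meas N).comp ((measurable_pi_apply 0).sub (measurable_pi_apply i.succ))

theorem S9_bdd (N k : ℕ) (s : ℝ) (x : Fin (k + 1) → ℝ) : |S9_F N k s x| ≤ 1 := by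
  unfold S9_F
  rw [Finset.abs_prod]
  apply Finset.prod_le_one
  · intro i _
    exact abs_nonneg _
  · intro i _
    split_ifs <;> simp

theorem S9_wt_int (N : ℕ) : Integrable (wt : (Fin N → ℝ) → ℝ) (cube (Fin N)) := by
  by_contra h
  have h1 := wt_int_pos N
  rw [integral_undef h] at h1
  exact lt_irrefl _ h1

theorem S9_meas' (N k : ℕ) (s : ℝ) (e : Fin (k + 1) ↪ Fin N) :
    Measurable fun θ : Fin N → ℝ => S9_F N k s (fun a => θ (e a)) := by
  apply (S9_meas N k s).comp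
  apply measurable_pi_lambda
  intro a
  exact measurable_pi_apply _

theorem S9_int (N k : ℕ) (s : ℝ) : Integrable (fun θ : Fin N → ℝ =>
    (∑ e : Fin (k + 1) ↪ Fin N, S9_F N k s (fun a => θ (e a))) * wt θ) (cube (Fin N)) := by
  have hm : Measurable fun θ : Fin N → ℝ => ∑ e : Fin (k + 1) ↪ Fin N,
      S9_F N k s (fun a => θ (e a)) :=
    Finset.measurable_fun_sum _ fun e _ => S9_meas' N k s e
  refine (S9_wt_int N).bdd_mul (c := Fintype.card (Fin (k + 1) ↪ Fin N)) hm.aestronglyMeasurable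
    (Eventually.of_forall fun θ => ?_)
  rw [Real.norm_eq_abs]
  refine (Finset.abs_sum_le_sum_abs _ _).trans ?_
  calc ∑ e : Fin (k + 1) ↪ Fin N, |S9_F N k s (fun a => θ (e a))|
      ≤ ∑ e : Fin (k + 1) ↪ Fin N, (1 : ℝ) :=
        Finset.sum_le_sum fun e _ => S9_bdd N k s _
    _ = _ := by simp

theorem SN_series {n : ℕ} (hn : 0 < n) (s : ℝ) (h0 : 0 ≤ s) (hs : s < 2 * n) :
    SN (n * 2) s = ∑ k ∈ Finset.range (n * 2), tn n k s := by
  have hW := wt_int_pos (n * 2)
  have hn0 : (0 : ℝ) < n := by exact_mod_cast hn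
  unfold SN
  rw [div_eq_iff hW.ne', Finset.sum_mul]
  have h1 : ∀ θ : Fin (n * 2) → ℝ, (1 / ((n * 2 : ℕ) : ℝ) * cg s θ) * wt θ =
      ∑ k ∈ Finset.range (n * 2), (1 / ((n * 2 : ℕ) : ℝ) * ((-1) ^ k / k.factorial : ℝ)) *
        ((∑ e : Fin (k + 1) ↪ Fin (n * 2), S9_F (n * 2) k s (fun a => θ (e a))) * wt θ) := by
    intro θ
    rw [gap_count, Finset.mul_sum, Finset.sum_mul]
    refine Finset.sum_congr rfl fun k _ => ?_
    unfold S9_F
    ring
  simp only [h1]
  rw [integral_finsetSum _ fun k _ => (S9_int (n * 2) k s).const_mul _]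
  refine Finset.sum_congr rfl fun k _ => ?_
  rw [integral_const_mul]
  have h2 := dens_int n (S9_F (n * 2) k s) (S9_meas (n * 2) k s) 1 (S9_bdd (n * 2) k s)
  have h3 : ∫ x, S9_F (n * 2) k s x * rq n x ∂(cube (Fin (k + 1)))
      = 2 * n * ∫ v in univ.pi fun _ : Fin k => Ioc 0 s, rs n (Fin.cons 0 v : Fin (k + 1) → ℝ) := by
    unfold S9_F
    exact gap_int hn s h0 hs
  rw [h3] at h2
  rw [h2]
  unfold tn
  push_cast
  field_simp

end COE
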