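import Pool.Agent.LibCOE.Def2
import Pool.Agent.LibCOE.CO_P2
import Pool.Agent.LibCOE.CP_A7
import Pool.Agent.LibCOE.CP_A8
import Pool.Agent.LibCOE.CP_V7

/-! Row V8. Proof sketch:
rs n x = |pf (KM sD sS sJ x)| / ‖pf (Jm q)‖ (sqrt_det, KM_skew, par_s), same for gR. For |x a| <= B all entries are bounded by
M = 4 + 2B and differ by at most C/n (s_lim with 2B). A product of q factors bounded by M that differ by C/n differs by q M^(q-1) C/n
(induction over the Finset, or `Finset.prod` telescoping), sum over the (2q)! permutations; ||a| - |b|| <= |a - b|. -/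

open MeasureTheory Set Filter Topology

namespace COE

open QGr


theorem V8_prod {ι : Type} (s : Finset ι) (f g : ι → ℝ) (M δ : ℝ) (hM : 1 ≤ M) (hδ : 0 ≤ δ)
    (hf : ∀ i, |f i| ≤ M) (hg : ∀ i, |g i| ≤ M) (h : ∀ i, |f i - g i| ≤ δ) :
    |∏ i ∈ s, f i - ∏ i ∈ s, g i| ≤ s.card * M ^ s.card * δ := by
  classical
  induction s using Finset.induction_on with
  | empty => simp
  | insert a s ha ih =>
    rw [Finset.prod_insert ha, Finset.prod_insert ha, Finset.card_insert_of_notMem ha]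
    have hG : |∏ i ∈ s, g i| ≤ M ^ s.card := by
      rw [Finset.abs_prod]
      exact (Finset.prod_le_prod (fun i _ => abs_nonneg _) fun i _ => hg i).trans
        (by rw [Finset.prod_const])
    have e : f a * ∏ i ∈ s, f i - g a * ∏ i ∈ s, g i =
        f a * (∏ i ∈ s, f i - ∏ i ∈ s, g i) + (f a - g a) * ∏ i ∈ s, g i := by ring
    rw [e]
    have hM0 : (0 : ℝ) ≤ M := by linarith
    have hMp : (1 : ℝ) ≤ M ^ s.card := one_le_pow₀ hM
    have h1 : |f a * (∏ i ∈ s, f i - ∏ i ∈ s, g i)| ≤ M * (s.card * M ^ s.card * δ) := by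
      rw [abs_mul]
      exact mul_le_mul (hf a) ih (abs_nonneg _) hM0
    have h2 : |(f a - g a) * ∏ i ∈ s, g i| ≤ δ * M ^ s.card := by
      rw [abs_mul]
      exact mul_le_mul (h a) hG (abs_nonneg _) hδ
    have h3 : δ * M ^ s.card ≤ δ * M ^ (s.card + 1) := by
      apply mul_le_mul_of_nonneg_left _ hδ
      rw [pow_succ]
      nlinarith
    refine (abs_add_le _ _).trans ((add_le_add h1 (h2.trans h3)).trans (le_of_eq ?_))
    push_cast
    ring

theorem V8_pf {q : ℕ} (A A' : Matrix (Ix q) (Ix q) ℝ) (M δ : ℝ) (hM : 1 ≤ M) (hδ : 0 ≤ δ)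
    (hA : ∀ a b, |A a b| ≤ M) (hA' : ∀ a b, |A' a b| ≤ M) (h : ∀ a b, |A a b - A' a b| ≤ δ) :
    |pf A - pf A'| ≤ (Fintype.card (Equiv.Perm (Ix q)) : ℝ) * (q * M ^ q) * δ := by
  unfold pf
  rw [← Finset.sum_sub_distrib]
  refine (Finset.abs_sum_le_sum_abs _ _).trans ?_
  have h1 : ∀ σ : Equiv.Perm (Ix q), σ ∈ Finset.univ →
      |(Equiv.Perm.sign σ : ℤ) • ∏ i, A (σ (i, 0)) (σ (i, 1)) -
        (Equiv.Perm.sign σ : ℤ) • ∏ i, A' (σ (i, 0)) (σ (i, 1))| ≤ q * M ^ q * δ := by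
    intro σ _
    rw [← smul_sub, zsmul_eq_mul, abs_mul]
    have hs : |(((Equiv.Perm.sign σ : ℤˣ) : ℤ) : ℝ)| = 1 := by
      rcases Int.units_eq_one_or (Equiv.Perm.sign σ) with h | h <;> rw [h] <;> simp
    rw [hs, one_mul]
    have := V8_prod (Finset.univ : Finset (Fin q)) (fun i => A (σ (i, 0)) (σ (i, 1)))
      (fun i => A' (σ (i, 0)) (σ (i, 1))) M δ hM hδ (fun i => hA _ _) (fun i => hA' _ _)
      (fun i => h _ _)
    simpa using this
  refine (Finset.sum_le_sum h1).trans (le_of_eq ?_)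
  rw [Finset.sum_const, Finset.card_univ, nsmul_eq_mul]
  ring

theorem V8_KM {q : ℕ} (D S J : ℝ → ℝ) (x : Fin q → ℝ) (M : ℝ)
    (hD : ∀ a b, |D (x a - x b)| ≤ M) (hS : ∀ a b, |S (x a - x b)| ≤ M)
    (hJ : ∀ a b, |J (x a - x b)| ≤ M) (a b : Ix q) : |KM D S J x a b| ≤ M := by
  obtain ⟨a, i⟩ := a
  obtain ⟨b, j⟩ := b
  fin_cases i <;> fin_cases j <;> simp [KM, hD, hS, hJ]

theorem V8_KM_sub {q : ℕ} (D S J D' S' J' : ℝ → ℝ) (x : Fin q → ℝ) (δ : ℝ)
    (hD : ∀ a b, |D (x a - x b) - D' (x a - x b)| ≤ δ)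
    (hS : ∀ a b, |S (x a - x b) - S' (x a - x b)| ≤ δ)
    (hJ : ∀ a b, |J (x a - x b) - J' (x a - x b)| ≤ δ) (a b : Ix q) :
    |KM D S J x a b - KM D' S' J' x a b| ≤ δ := by
  obtain ⟨a, i⟩ := a
  obtain ⟨b, j⟩ := b
  have h1 := hD a b
  have h2 := hS a b
  have h3 := hJ a b
  fin_cases i <;> fin_cases j
  · show |-D (x a - x b) - -D' (x a - x b)| ≤ δ
    rw [neg_sub_neg, abs_sub_comm]
    exact h1
  · exact h2
  · show |-S (x a - x b) - -S' (x a - x b)| ≤ δ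
    rw [neg_sub_neg, abs_sub_comm]
    exact h2
  · show |-J (x a - x b) - -J' (x a - x b)| ≤ δ
    rw [neg_sub_neg, abs_sub_comm]
    exact h3

theorem rs_lim (q : ℕ) (B : ℝ) : ∃ C, ∀ n : ℕ, 0 < n → ∀ x : Fin q → ℝ, (∀ a, |x a| ≤ B) →
    |rs n x - gR x| ≤ C / n := by
  obtain ⟨C₀, hC₀⟩ := s_lim (2 * B)
  refine ⟨(Fintype.card (Equiv.Perm (Ix q)) : ℝ) * (q * (4 + 2 * |B|) ^ q) * |C₀| /
    ‖pf (Jm q)‖, fun n hn x hx => ?_⟩
  have hn' : (0 : ℝ) < n := by exact_mod_cast hn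
  have hJ0 : 0 < ‖pf (Jm q)‖ := norm_pos_iff.2 (pf_Jm q)
  have e1 : rs n x = |pf (KM (sD n) (sS n) (sJ n) x)| / ‖pf (Jm q)‖ :=
    sqrt_det _ (KM_skew (fun r => (par_s n r).1) (fun r => (par_s n r).2.1)
      (fun r => (par_s n r).2.2) x)
  have e2 : gR x = |pf (KM (deriv gS) gS gJ x)| / ‖pf (Jm q)‖ :=
    sqrt_det _ (KM_skew (fun r => (par_g r).1) (fun r => (par_g r).2.1)
      (fun r => (par_g r).2.2) x)
  have hr : ∀ a b, |x a - x b| ≤ 2 * B := by
    intro a b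
    have h1 := abs_sub (x a) (x b)
    have h2 := hx a
    have h3 := hx b
    linarith
  have hr' : ∀ a b, |x a - x b| ≤ 2 * |B| := fun a b =>
    (hr a b).trans (by nlinarith [le_abs_self B])
  have hpi : Real.pi ≤ 4 := Real.pi_le_four
  have hB0 := abs_nonneg B
  have h4 : |pf (KM (sD n) (sS n) (sJ n) x) - pf (KM (deriv gS) gS gJ x)| ≤
      (Fintype.card (Equiv.Perm (Ix q)) : ℝ) * (q * (4 + 2 * |B|) ^ q) * (|C₀| / n) := by
    refine V8_pf _ _ (4 + 2 * |B|) (|C₀| / n) (by linarith) (by positivity) ?_ ?_ ?_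
    · refine V8_KM _ _ _ x _ (fun a b => ?_) (fun a b => ?_) (fun a b => ?_)
      · exact (s_bdd hn _).2.1.trans (by linarith)
      · exact (s_bdd hn _).1.trans (by linarith)
      · exact (s_bdd hn _).2.2.trans (by have := hr' a b; linarith)
    · refine V8_KM _ _ _ x _ (fun a b => ?_) (fun a b => ?_) (fun a b => ?_)
      · exact (g_bdd _).2.1.trans (by linarith)
      · exact (g_bdd _).1.trans (by linarith)
      · exact (g_bdd _).2.2.trans (by have := hr' a b; linarith)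
    · have h5 : C₀ / n ≤ |C₀| / n := div_le_div_of_nonneg_right (le_abs_self _) hn'.le
      refine V8_KM_sub _ _ _ _ _ _ x _ (fun a b => ?_) (fun a b => ?_) (fun a b => ?_)
      · exact (hC₀ n hn _ (hr a b)).2.1.trans h5
      · exact (hC₀ n hn _ (hr a b)).1.trans h5
      · exact (hC₀ n hn _ (hr a b)).2.2.trans h5
  rw [e1, e2, ← sub_div, abs_div, abs_of_pos hJ0]
  have h6 := (abs_abs_sub_abs_le _ _).trans h4
  have h7 : (Fintype.card (Equiv.Perm (Ix q)) : ℝ) * (q * (4 + 2 * |B|) ^ q) * |C₀| /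
      ‖pf (Jm q)‖ / n = (Fintype.card (Equiv.Perm (Ix q)) : ℝ) * (q * (4 + 2 * |B|) ^ q) *
        (|C₀| / n) / ‖pf (Jm q)‖ := by
    field_simp
  rw [h7]
  exact div_le_div_of_nonneg_right h6 hJ0.le

end COE
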