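import Pool.Agent.LibCOE.Def2
import Pool.Agent.LibCOE.CP_S11
import Pool.Agent.LibCOE.CP_S2
import Pool.Agent.LibCOE.CP_S9
import Pool.Agent.LibCOE.CP_V4
import Pool.Agent.LibCOE.CP_V8

/-! Row S12. Proof sketch:
tn_lim: rs_lim with B = s on the box (0, s]^k (cons 0 v has coordinates in [0, s]): the integrals differ by s^k C/n. SN_lim: for
n > s: SN (n*2) s = ∑_{k<2n} tn n k s = ∑' k, if k < 2n then tn n k s else 0; `tendsto_tsum_of_dominated_convergence` with the bound
bd_sum (tn_bdd). gE_sum: Summable by tn_bdd, bd_sum (`Summable.hasSum`). -/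

open MeasureTheory Set Filter Topology

namespace COE

open QGr


theorem tn_lim (k : ℕ) (s : ℝ) (hs : 0 ≤ s) :
    Tendsto (fun n : ℕ => tn n k s) atTop (𝓝 (tg k s)) := by
  unfold tn tg
  refine Tendsto.const_mul _ ?_
  obtain ⟨C, hC⟩ := rs_lim (k + 1) s
  have hcons : Measurable fun v : Fin k → ℝ => (Fin.cons 0 v : Fin (k + 1) → ℝ) := by
    refine measurable_pi_lambda _ fun i => ?_
    refine Fin.cases ?_ (fun i => ?_) i
    · simp
    · simpa using measurable_pi_apply i
  have hbox : ∀ v ∈ univ.pi fun _ : Fin k => Ioc 0 s, ∀ a, 0 ≤ (Fin.cons 0 v : Fin (k + 1) → ℝ) a ∧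
      (Fin.cons 0 v : Fin (k + 1) → ℝ) a ≤ s := by
    intro v hv a
    refine Fin.cases ?_ (fun i => ?_) a
    · simpa using hs
    · have := hv i (mem_univ i)
      simpa using ⟨this.1.le, this.2⟩
  have hms : MeasurableSet (univ.pi fun _ : Fin k => Ioc 0 s) :=
    MeasurableSet.univ_pi fun _ => measurableSet_Ioc
  refine tendsto_integral_filter_of_dominated_convergence
    (fun _ => ((4 + s) * √(2 * ((k + 1 : ℕ) : ℝ))) ^ (k + 1)) ?_ ?_ ?_ ?_
  · exact Filter.Eventually.of_forall fun n => ((rs_meas n).comp hcons).aestronglyMeasurable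
  · filter_upwards [eventually_gt_atTop 0] with n hn
    refine (ae_restrict_iff' hms).mpr (Filter.Eventually.of_forall fun v hv => ?_)
    rw [Real.norm_eq_abs]
    refine (rs_had (q := k + 1) hn s _ (fun a b => ?_) hs).1
    have h1 := hbox v hv a
    have h2 := hbox v hv b
    rw [abs_le]
    constructor <;> linarith
  · haveI : IsFiniteMeasure (volume.restrict (univ.pi fun _ : Fin k => Ioc 0 s) :
        Measure (Fin k → ℝ)) := by
      refine ⟨?_⟩
      rw [Measure.restrict_apply_univ, Real.volume_pi_Ioc]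
      exact ENNReal.prod_lt_top fun i _ => ENNReal.ofReal_lt_top
    exact integrable_const _
  · refine (ae_restrict_iff' hms).mpr (Filter.Eventually.of_forall fun v hv => ?_)
    rw [tendsto_iff_norm_sub_tendsto_zero]
    have h1 : Tendsto (fun n : ℕ => C / (n : ℝ)) atTop (𝓝 0) :=
      tendsto_const_nhds.div_atTop tendsto_natCast_atTop_atTop
    refine squeeze_zero' (Filter.Eventually.of_forall fun n => norm_nonneg _) ?_ h1
    filter_upwards [eventually_gt_atTop 0] with n hn
    rw [Real.norm_eq_abs]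
    refine hC n hn _ fun a => ?_
    have h2 := hbox v hv a
    rw [abs_le]
    constructor <;> linarith

theorem SN_lim (s : ℝ) (hs : 0 ≤ s) : Tendsto (fun n : ℕ => SN (n * 2) s) atTop (𝓝 (gE s)) := by
  have h1 : Tendsto (fun n : ℕ => ∑' k, if k < n * 2 then tn n k s else 0) atTop
      (𝓝 (∑' k, tg k s)) := by
    refine tendsto_tsum_of_dominated_convergence (bd_sum s hs) (fun k => ?_) ?_
    · refine (tn_lim k s hs).congr' ?_
      filter_upwards [eventually_gt_atTop k] with n hn
      rw [if_pos (by omega)]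
    · filter_upwards [eventually_gt_atTop 0] with n hn k
      split_ifs
      · rw [Real.norm_eq_abs]
        exact (tn_bdd hn s hs).1
      · rw [norm_zero]
        exact (abs_nonneg _).trans (tn_bdd hn s hs).1
  refine h1.congr' ?_
  filter_upwards [eventually_gt_atTop 0, eventually_gt_atTop ⌈s⌉₊] with n hn hn2
  have h2 : s < 2 * n := by
    have := Nat.lt_of_ceil_lt hn2
    have h3 : (0 : ℝ) < n := by exact_mod_cast hn
    linarith
  rw [SN_series hn s hs h2, tsum_eq_sum (s := Finset.range (n * 2))]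
  · refine Finset.sum_congr rfl fun k hk => ?_
    rw [if_pos (Finset.mem_range.mp hk)]
  · intro k hk
    rw [if_neg (fun h => hk (Finset.mem_range.mpr h))]

theorem gE_sum (s : ℝ) (hs : 0 ≤ s) : HasSum (fun k => tg k s) (gE s) := by
  unfold gE
  refine Summable.hasSum ?_
  refine Summable.of_norm_bounded (bd_sum s hs) fun k => ?_
  rw [Real.norm_eq_abs]
  exact (tn_bdd (n := 1) one_pos s hs).2

end COE
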