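import Pool.Agent.LibCOE.Def2
import Pool.Agent.LibCOE.CP_S10
import Pool.Agent.LibCOE.CP_S11
import Pool.Agent.LibCOE.CP_S12
import Pool.Agent.LibCOE.CP_S2
import Pool.Agent.LibCOE.CP_V4

/-! Row S13. Proof sketch:
gE_cont: on [0, S] the terms are continuous in s (|∫_{(0,t]^k} h - ∫_{(0,s]^k} h| <= M (t^k - s^k), or dominated convergence with
indicators: the boundary of the box is null) and bounded by the summable bound at S (monotone in s): `continuousOn_tsum`. gE_mono: limits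
of SN (n*2) (SN_lim, SN_mono, SN_le with N = n*2, n >= 1; `le_of_tendsto`). -/

open MeasureTheory Set Filter Topology

namespace COE

open QGr


theorem S13_cons (k : ℕ) : Measurable (fun v : Fin k → ℝ => (Fin.cons 0 v : Fin (k + 1) → ℝ)) := by
  refine measurable_pi_lambda _ fun a => ?_
  refine Fin.cases ?_ (fun i => ?_) a
  · simp only [Fin.cons_zero]
    exact measurable_const
  · simp only [Fin.cons_succ]
    exact measurable_pi_apply i

theorem S13_vol (k : ℕ) {s : ℝ} (hs : 0 ≤ s) :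
    volume.real (univ.pi fun _ : Fin k => Ioc 0 s) = s ^ k ∧ volume (univ.pi fun _ : Fin k => Ioc 0 s) < ⊤ := by
  have h1 : volume (univ.pi fun _ : Fin k => Ioc 0 s) = ENNReal.ofReal s ^ k := by
    rw [Real.volume_pi_Ioc]
    simp
  rw [measureReal_def, h1]
  refine ⟨?_, ENNReal.pow_lt_top ENNReal.ofReal_lt_top⟩
  rw [ENNReal.toReal_pow, ENNReal.toReal_ofReal hs]

theorem S13_bd {k : ℕ} {S : ℝ} (hS : 0 ≤ S) {v : Fin k → ℝ} (hv : v ∈ univ.pi fun _ : Fin k => Ioc 0 S) :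
    |gR (Fin.cons 0 v : Fin (k + 1) → ℝ)| ≤ ((4 + S) * √(2 * (k + 1))) ^ (k + 1) := by
  have h1 : ∀ a, 0 ≤ (Fin.cons 0 v : Fin (k + 1) → ℝ) a ∧ (Fin.cons 0 v : Fin (k + 1) → ℝ) a ≤ S := by
    intro a
    refine Fin.cases ?_ (fun i => ?_) a
    · simp [hS]
    · have := hv i (mem_univ i)
      rw [Fin.cons_succ]
      exact ⟨this.1.le, this.2⟩
  have := (rs_had one_pos S (Fin.cons 0 v : Fin (k + 1) → ℝ) (fun a b => by
    rw [abs_le]
    constructor <;> linarith [(h1 a).1, (h1 a).2, (h1 b).1, (h1 b).2]) hS).2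
  rw [Nat.cast_add, Nat.cast_one] at this
  exact this

theorem S13_diff {k : ℕ} {S s t : ℝ} (hs : 0 ≤ s) (hst : s ≤ t) (htS : t ≤ S) :
    |(∫ v in univ.pi fun _ : Fin k => Ioc 0 t, gR (Fin.cons 0 v : Fin (k + 1) → ℝ)) -
      ∫ v in univ.pi fun _ : Fin k => Ioc 0 s, gR (Fin.cons 0 v : Fin (k + 1) → ℝ)|
      ≤ ((4 + S) * √(2 * (k + 1))) ^ (k + 1) * (t ^ k - s ^ k) := by
  have ht : 0 ≤ t := hs.trans hst
  have hS : 0 ≤ S := ht.trans htS
  have hsub : (univ.pi fun _ : Fin k => Ioc 0 s) ⊆ univ.pi fun _ : Fin k => Ioc 0 t :=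
    Set.pi_mono fun _ _ => Ioc_subset_Ioc le_rfl hst
  have hsubS : (univ.pi fun _ : Fin k => Ioc 0 t) ⊆ univ.pi fun _ : Fin k => Ioc 0 S :=
    Set.pi_mono fun _ _ => Ioc_subset_Ioc le_rfl htS
  have hms : ∀ r : ℝ, MeasurableSet (univ.pi fun _ : Fin k => Ioc 0 r) := fun r =>
    MeasurableSet.univ_pi fun _ => measurableSet_Ioc
  have hint : IntegrableOn (fun v => gR (Fin.cons 0 v : Fin (k + 1) → ℝ)) (univ.pi fun _ : Fin k => Ioc 0 t) := by
    refine Measure.integrableOn_of_bounded (M := ((4 + S) * √(2 * (k + 1))) ^ (k + 1)) (S13_vol k ht).2.ne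
      (gR_meas.comp (S13_cons k)).aestronglyMeasurable ?_
    refine (ae_restrict_iff' (hms t)).2 (Filter.Eventually.of_forall fun v hv => ?_)
    exact S13_bd hS (hsubS hv)
  rw [← setIntegral_sdiff (hms s) hint hsub, ← (S13_vol k ht).1, ← (S13_vol k hs).1,
    ← measureReal_sdiff hsub (hms s) (S13_vol k ht).2.ne, ← Real.norm_eq_abs]
  refine norm_setIntegral_le_of_norm_le_const ?_ fun v hv => ?_
  · exact lt_of_le_of_lt (measure_mono sdiff_subset) (S13_vol k ht).2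
  · exact S13_bd hS (hsubS hv.1)

theorem S13_tg_cont (k : ℕ) (S : ℝ) : ContinuousOn (tg k) (Icc 0 S) := by
  unfold tg
  refine ContinuousOn.mul continuousOn_const ?_
  intro s hs
  unfold ContinuousWithinAt
  rw [tendsto_iff_dist_tendsto_zero]
  have hlim : Tendsto (fun t : ℝ => ((4 + S) * √(2 * (k + 1))) ^ (k + 1) * |t ^ k - s ^ k|)
      (𝓝[Icc 0 S] s) (𝓝 0) := by
    have h1 : Continuous (fun t : ℝ => ((4 + S) * √(2 * (k + 1))) ^ (k + 1) * |t ^ k - s ^ k|) := by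
      fun_prop
    have h2 := (h1.tendsto s).mono_left (nhdsWithin_le_nhds (s := Icc 0 S))
    simpa using h2
  refine squeeze_zero' (Filter.Eventually.of_forall fun t => dist_nonneg) ?_ hlim
  filter_upwards [self_mem_nhdsWithin] with t ht
  rw [Real.dist_eq]
  rcases le_total s t with h | h
  · refine (S13_diff hs.1 h ht.2).trans (le_of_eq ?_)
    rw [abs_of_nonneg]
    exact sub_nonneg.2 (pow_le_pow_left₀ hs.1 h k)
  · rw [abs_sub_comm]
    refine (S13_diff ht.1 h hs.2).trans (le_of_eq ?_)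
    rw [abs_sub_comm, abs_of_nonneg]
    exact sub_nonneg.2 (pow_le_pow_left₀ ht.1 h k)

theorem gE_cont : ContinuousOn gE (Ici 0) := by
  have h1 : ∀ S : ℝ, 0 ≤ S → ContinuousOn gE (Icc 0 S) := by
    intro S hS
    unfold gE
    refine continuousOn_tsum (fun k => S13_tg_cont k S) (bd_sum S hS) fun k s hs => ?_
    refine (tn_bdd (k := k) one_pos s hs.1).2.trans ?_
    have h2 := hs.1
    have h3 := hs.2
    gcongr
  intro s hs
  have hs0 : (0 : ℝ) ≤ s := hs
  have h2 : Icc 0 (s + 1) ∈ 𝓝[Ici 0] s := by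
    have h3 : Iic (s + 1) ∈ 𝓝 s := Iic_mem_nhds (by linarith)
    have h4 := inter_mem_nhdsWithin (Ici (0 : ℝ)) h3
    rwa [Ici_inter_Iic] at h4
  exact (h1 (s + 1) (by linarith) s ⟨hs0, by linarith⟩).mono_of_mem_nhdsWithin h2

theorem gE_mono : gE 0 = 1 ∧ (∀ s, 0 ≤ s → 0 ≤ gE s ∧ gE s ≤ 1) ∧
    (∀ s t, 0 ≤ s → s ≤ t → gE t ≤ gE s) ∧ ∀ s, 0 < s → gE s ≤ 1 / s := by
  have hev : ∀ᶠ n : ℕ in atTop, 2 ≤ n * 2 := by
    filter_upwards [eventually_ge_atTop 1] with n hn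
    omega
  refine ⟨?_, fun s hs => ⟨?_, ?_⟩, fun s t hs hst => ?_, fun s hs => ?_⟩
  · refine tendsto_nhds_unique (SN_lim 0 le_rfl) ?_
    refine tendsto_const_nhds.congr' ?_
    filter_upwards [hev] with n hn
    exact (SN_mono hn).1.symm
  · refine ge_of_tendsto (SN_lim s hs) ?_
    filter_upwards [hev] with n hn
    exact ((SN_mono hn).2.1 s).1
  · refine le_of_tendsto (SN_lim s hs) ?_
    filter_upwards [hev] with n hn
    exact ((SN_mono hn).2.1 s).2
  · refine le_of_tendsto_of_tendsto (SN_lim t (hs.trans hst)) (SN_lim s hs) ?_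
    filter_upwards [hev] with n hn
    exact (SN_mono hn).2.2 s t hst
  · refine le_of_tendsto (SN_lim s hs.le) ?_
    filter_upwards [hev] with n hn
    exact SN_le hn s hs

end COE
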