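import Pool.Agent.LibCOE.Def2
import Pool.Agent.LibCOE.CP_S13

/-! Row S14. Proof sketch:
StieltjesFunction F(s) = if s < 0 then 0 else 1 - gE s: monotone (gE_mono; gE <= 1, gE 0 = 1), right continuous (gE_cont; F(0) = 0), limits 0 at
-∞ and 1 at +∞ (gE s <= 1/s): μ = F.measure; `StieltjesFunction.measure_univ` with the limits, `StieltjesFunction.measure_Iic`/`measure_Ioi`:
μ (Ioi s) = ofReal (1 - F s) = ofReal (gE s) for s >= 0. -/

open MeasureTheory Set Filter Topology

namespace COE

open QGr


theorem goe_law : ∃ μ : Measure ℝ, IsProbabilityMeasure μ ∧ ∀ s, 0 ≤ s →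
    μ.real (Ioi s) = gE s := by
  obtain ⟨h0, hbd, hmono, hdec⟩ := gE_mono
  have hmon : Monotone fun s : ℝ => if s < 0 then (0 : ℝ) else 1 - gE s := by
    intro s t hst
    dsimp only
    by_cases hs : s < 0
    · rw [if_pos hs]
      by_cases ht : t < 0
      · rw [if_pos ht]
      · rw [if_neg ht]
        have := (hbd t (not_lt.1 ht)).2
        linarith
    · have ht : ¬ t < 0 := by
        rw [not_lt] at hs ⊢
        exact hs.trans hst
      rw [if_neg hs, if_neg ht]
      have := hmono s t (not_lt.1 hs) hst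
      linarith
  have hrc : ∀ x : ℝ, ContinuousWithinAt (fun s : ℝ => if s < 0 then (0 : ℝ) else 1 - gE s)
      (Ici x) x := by
    intro x
    rcases lt_or_ge x 0 with hx | hx
    · refine ContinuousAt.continuousWithinAt ?_
      have h1 : (fun s : ℝ => if s < 0 then (0 : ℝ) else 1 - gE s) =ᶠ[𝓝 x] fun _ => 0 := by
        filter_upwards [Iio_mem_nhds hx] with s hs
        exact if_pos (Set.mem_Iio.1 hs)
      exact continuousAt_const.congr h1.symm
    · have h1 : ContinuousWithinAt (fun s : ℝ => 1 - gE s) (Ici x) x := by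
        have h2 : ContinuousWithinAt gE (Ici x) x :=
          (gE_cont x hx).mono (Ici_subset_Ici.2 hx)
        exact continuousWithinAt_const.sub h2
      refine h1.congr (fun s hs => ?_) ?_
      · rw [if_neg (not_lt.2 (hx.trans hs))]
      · rw [if_neg (not_lt.2 hx)]
  set F : StieltjesFunction ℝ := ⟨fun s : ℝ => if s < 0 then (0 : ℝ) else 1 - gE s, hmon, hrc⟩
    with hF
  have hFv : ∀ s, F s = if s < 0 then (0 : ℝ) else 1 - gE s := fun s => rfl
  have hbot : Tendsto F atBot (𝓝 0) := by
    refine tendsto_const_nhds.congr' ?_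
    filter_upwards [eventually_lt_atBot (0 : ℝ)] with s hs
    rw [hFv, if_pos hs]
  have htop : Tendsto F atTop (𝓝 1) := by
    have h1 : Tendsto (fun s : ℝ => 1 - 1 / s) atTop (𝓝 1) := by
      have h2 : Tendsto (fun s : ℝ => 1 / s) atTop (𝓝 0) := by
        simpa using tendsto_inv_atTop_zero
      simpa using h2.const_sub 1
    refine tendsto_of_tendsto_of_tendsto_of_le_of_le' h1 tendsto_const_nhds ?_ ?_
    · filter_upwards [eventually_gt_atTop (0 : ℝ)] with s hs
      rw [hFv, if_neg (not_lt.2 hs.le)]
      have := hdec s hs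
      linarith
    · filter_upwards [eventually_gt_atTop (0 : ℝ)] with s hs
      rw [hFv, if_neg (not_lt.2 hs.le)]
      have := (hbd s hs.le).1
      linarith
  refine ⟨F.measure, ⟨?_⟩, ?_⟩
  · rw [F.measure_univ hbot htop]
    simp
  · intro s hs
    rw [measureReal_def, F.measure_Ioi htop, hFv, if_neg (not_lt.2 hs)]
    rw [ENNReal.toReal_ofReal]
    · ring
    · have := (hbd s hs).1
      linarith

end COE
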