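import Pool.Agent.LibCOE.Def2
import Pool.Agent.LibCOE.CO_W1
import Pool.Agent.LibCOE.CO_W2
import Pool.Agent.LibCOE.CP_S13
import Pool.Agent.LibCOE.CP_S5
import Pool.Agent.LibCOE.CP_S6

/-! Row S15. Proof sketch:
step_f: if g <= M h let m be the number of i < M with i h < g: the sum telescopes to f (m h) - f 0 and (m-1) h < g <= m h (g = 0: m = 0), so
the error is <= L h; if g > M h the sum is f (M h) - f 0, error <= 2K. spac_step: average step_f for g = gp θ p over p and
wt / ∫ wt: 1/N ∑_p 1[i h < gp θ p] = 1/N cg (i h) θ (gp_iff), SN. law_step: integrate step_f against μ: μ (Ioi (i h)) = gE (i h), and μ-a.e. g > 0 since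
μ.real (Ioi 0) = gE 0 = 1. -/

open MeasureTheory Set Filter Topology

namespace COE

open QGr


theorem S15_iff {h g : ℝ} (hh : 0 < h) (i : ℕ) : (i : ℝ) * h < g ↔ i < ⌈g / h⌉₊ := by
  rw [Nat.lt_ceil, lt_div_iff₀ hh]

theorem step_f (f : ℝ → ℝ) (L K h : ℝ) (hh : 0 < h) (hL0 : 0 ≤ L)
    (hL : ∀ u v, |f u - f v| ≤ L * dist u v) (hK : ∀ v, |f v| ≤ K) (M : ℕ) (g : ℝ) (hg : 0 ≤ g) :
    |f g - (f 0 + ∑ i ∈ Finset.range M, (f ((i + 1) * h) - f (i * h)) *
      if i * h < g then 1 else 0)| ≤ L * h + 2 * K * if M * h < g then 1 else 0 := by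
  set m := ⌈g / h⌉₊ with hm
  have hsum : ∑ i ∈ Finset.range M, (f ((i + 1) * h) - f (i * h)) *
      (if (i : ℝ) * h < g then 1 else 0) = f ((min M m : ℕ) * h) - f 0 := by
    have h1 : ∀ i ∈ Finset.range M, (f ((i + 1) * h) - f (i * h)) *
        (if (i : ℝ) * h < g then 1 else 0) =
        if i < m then (f (((i + 1 : ℕ) : ℝ) * h) - f ((i : ℝ) * h)) else 0 := by
      intro i _
      by_cases hi : (i : ℝ) * h < g
      · rw [if_pos hi, if_pos ((S15_iff hh i).1 hi), mul_one]
        push_cast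
        rfl
      · rw [if_neg hi, if_neg (fun h' => hi ((S15_iff hh i).2 h')), mul_zero]
    rw [Finset.sum_congr rfl h1, ← Finset.sum_filter]
    have h2 : (Finset.range M).filter (fun i => i < m) = Finset.range (min M m) := by
      ext i
      simp only [Finset.mem_filter, Finset.mem_range, lt_min_iff]
    rw [h2, Finset.sum_range_sub (fun i : ℕ => f ((i : ℝ) * h))]
    simp
  rw [hsum]
  have hrw : f g - (f 0 + (f ((min M m : ℕ) * h) - f 0)) = f g - f ((min M m : ℕ) * h) := by ring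
  rw [hrw]
  by_cases hc : (M : ℝ) * h < g
  · rw [if_pos hc, mul_one]
    have h1 := abs_sub (f g) (f ((min M m : ℕ) * h))
    have h2 := hK g
    have h3 := hK ((min M m : ℕ) * h)
    have h4 : 0 ≤ L * h := by positivity
    have h5 : |f g - f ((min M m : ℕ) * h)| ≤ |f g| + |f ((min M m : ℕ) * h)| := h1
    linarith
  · rw [if_neg hc, mul_zero, add_zero]
    have hmM : m ≤ M := by
      rw [hm, Nat.ceil_le, div_le_iff₀ hh]
      exact not_lt.1 hc
    rw [min_eq_right hmM]
    refine (hL _ _).trans (mul_le_mul_of_nonneg_left ?_ hL0)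
    rw [Real.dist_eq, abs_sub_comm, abs_le]
    have h1 : g / h ≤ m := Nat.le_ceil _
    have h2 : (m : ℝ) < g / h + 1 := Nat.ceil_lt_add_one (by positivity)
    rw [div_le_iff₀ hh] at h1
    have h3 : (m : ℝ) * h < g + h := by
      have h4 : (m : ℝ) * h < (g / h + 1) * h := mul_lt_mul_of_pos_right h2 hh
      have h5 : (g / h + 1) * h = g + h := by field_simp
      linarith
    constructor <;> linarith

theorem S15_fcont (f : ℝ → ℝ) (L : ℝ) (hL0 : 0 ≤ L) (hL : ∀ u v, |f u - f v| ≤ L * dist u v) :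
    Continuous f := by
  refine (LipschitzWith.of_dist_le_mul (K := ⟨L, hL0⟩) fun u v => ?_).continuous
  rw [Real.dist_eq]
  exact hL u v

theorem S15_wt_int (N : ℕ) : Integrable (wt : (Fin N → ℝ) → ℝ) (cube (Fin N)) := by
  by_contra h
  have h1 := wt_int_pos N
  rw [integral_undef h] at h1
  exact lt_irrefl _ h1

theorem S15_int {N : ℕ} (φ : (Fin N → ℝ) → ℝ) (hφ : Measurable φ) (C : ℝ)
    (hC : ∀ θ, |φ θ| ≤ C) : Integrable (fun θ => φ θ * wt θ) (cube (Fin N)) := by
  refine ((S15_wt_int N).const_mul C).mono' (hφ.mul wt_cont.measurable).aestronglyMeasurable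
    (Eventually.of_forall fun θ => ?_)
  rw [Real.norm_eq_abs, abs_mul, abs_of_nonneg (wt_nonneg θ)]
  exact mul_le_mul_of_nonneg_right (hC θ) (wt_nonneg θ)

theorem S15_cg {N : ℕ} (hN : 2 ≤ N) (s : ℝ) (θ : Fin N → ℝ) :
    cg s θ = ∑ p, if s < gp θ p then 1 else 0 := by
  unfold cg
  refine Finset.sum_congr rfl fun p _ => ?_
  by_cases h : s < gp θ p
  · rw [if_pos h, if_pos ((gp_iff hN θ p s).1 h)]
  · rw [if_neg h, if_neg (fun h' => h ((gp_iff hN θ p s).2 h'))]

theorem S15_cg_meas {N : ℕ} (hN : 2 ≤ N) (s : ℝ) :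
    Measurable fun θ : Fin N → ℝ => 1 / (N : ℝ) * cg s θ := by
  have h1 : (fun θ : Fin N → ℝ => 1 / (N : ℝ) * cg s θ) =
      fun θ => 1 / (N : ℝ) * ∑ p, if s < gp θ p then (1 : ℝ) else 0 := by
    funext θ
    rw [S15_cg hN]
  rw [h1]
  refine measurable_const.mul (Finset.measurable_sum _ fun p _ => ?_)
  exact Measurable.ite (measurableSet_lt measurable_const (gp_meas p)) measurable_const
    measurable_const

theorem S15_cg_bd {N : ℕ} (hN : 2 ≤ N) (s : ℝ) (θ : Fin N → ℝ) :
    |1 / (N : ℝ) * cg s θ| ≤ 1 := by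
  have hN0 : (0 : ℝ) < N := by exact_mod_cast (by omega : 0 < N)
  have h0 : 0 ≤ cg s θ := by
    rw [S15_cg hN]
    exact Finset.sum_nonneg fun p _ => by split_ifs <;> norm_num
  have h1 : cg s θ ≤ N := by
    rw [S15_cg hN]
    calc ∑ p, (if s < gp θ p then (1 : ℝ) else 0) ≤ ∑ _p : Fin N, (1 : ℝ) :=
          Finset.sum_le_sum fun p _ => by split_ifs <;> norm_num
      _ = N := by simp
  rw [abs_of_nonneg (by positivity), one_div, ← div_eq_inv_mul, div_le_one hN0]
  exact h1

theorem spac_step {N : ℕ} (hN : 2 ≤ N) (f : ℝ → ℝ) (L K h : ℝ) (hh : 0 < h) (hL0 : 0 ≤ L)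
    (hL : ∀ u v, |f u - f v| ≤ L * dist u v) (hK : ∀ v, |f v| ≤ K) (M : ℕ) :
    |coeSpac N f - (f 0 + ∑ i ∈ Finset.range M, (f ((i + 1) * h) - f (i * h)) * SN N (i * h))|
      ≤ L * h + 2 * K * SN N (M * h) := by
  have hN0 : (0 : ℝ) < N := by exact_mod_cast (by omega : 0 < N)
  have hW := wt_int_pos N
  set W := ∫ θ, wt θ ∂(cube (Fin N)) with hWd
  have hSN : ∀ s, SN N s * W = ∫ θ, (1 / N * cg s θ) * wt θ ∂(cube (Fin N)) := by
    intro s
    unfold SN
    rw [← hWd, div_mul_cancel₀ _ hW.ne']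
  have hA := coe_spac_w hN f L hL0 hL
  rw [← hWd] at hA
  have hfc := S15_fcont f L hL0 hL
  -- integrability
  have hIA : Integrable (fun θ : Fin N → ℝ => (1 / N * ∑ p, f (gp θ p)) * wt θ) (cube (Fin N)) := by
    refine S15_int _ (measurable_const.mul (Finset.measurable_sum _ fun p _ =>
      hfc.measurable.comp (gp_meas p))) K fun θ => ?_
    rw [abs_mul, abs_of_pos (by positivity : 0 < 1 / (N : ℝ))]
    have h1 : |∑ p, f (gp θ p)| ≤ N * K := by
      refine (Finset.abs_sum_le_sum_abs _ _).trans ?_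
      calc ∑ p, |f (gp θ p)| ≤ ∑ _p : Fin N, K := Finset.sum_le_sum fun p _ => hK _
        _ = N * K := by simp
    calc 1 / (N : ℝ) * |∑ p, f (gp θ p)| ≤ 1 / (N : ℝ) * (N * K) := by gcongr
      _ = K := by field_simp
  have hIB : ∀ s, Integrable (fun θ : Fin N → ℝ => (1 / N * cg s θ) * wt θ) (cube (Fin N)) :=
    fun s => S15_int _ (S15_cg_meas hN s) 1 fun θ => S15_cg_bd hN s θ
  have hIW := S15_wt_int N
  -- the pointwise bound
  have hpt : ∀ θ : Fin N → ℝ, |(1 / N * ∑ p, f (gp θ p)) - (f 0 + ∑ i ∈ Finset.range M,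
      (f ((i + 1) * h) - f (i * h)) * (1 / N * cg (i * h) θ))| ≤
      L * h + 2 * K * (1 / N * cg (M * h) θ) := by
    intro θ
    have h1 : (1 / N * ∑ p, f (gp θ p)) - (f 0 + ∑ i ∈ Finset.range M,
        (f ((i + 1) * h) - f (i * h)) * (1 / N * cg (i * h) θ)) =
        1 / N * ∑ p, (f (gp θ p) - (f 0 + ∑ i ∈ Finset.range M, (f ((i + 1) * h) - f (i * h)) *
          if i * h < gp θ p then 1 else 0)) := by
      rw [Finset.sum_sub_distrib, Finset.sum_add_distrib, Finset.sum_comm, mul_sub, mul_add]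
      congr 1
      congr 1
      · rw [Finset.sum_const, Finset.card_univ, Fintype.card_fin, nsmul_eq_mul]
        field_simp
      · rw [Finset.mul_sum]
        refine Finset.sum_congr rfl fun i _ => ?_
        rw [S15_cg hN, ← Finset.mul_sum]
        ring
    rw [h1, abs_mul, abs_of_pos (by positivity : 0 < 1 / (N : ℝ))]
    have h2 : |∑ p, (f (gp θ p) - (f 0 + ∑ i ∈ Finset.range M, (f ((i + 1) * h) - f (i * h)) *
          if i * h < gp θ p then 1 else 0))| ≤
        ∑ p, (L * h + 2 * K * if M * h < gp θ p then 1 else 0) := by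
      refine (Finset.abs_sum_le_sum_abs _ _).trans (Finset.sum_le_sum fun p _ => ?_)
      exact step_f f L K h hh hL0 hL hK M (gp θ p) (gp_bdd hN θ p).1.le
    have h3 : 1 / (N : ℝ) * ∑ p, (L * h + 2 * K * if M * h < gp θ p then 1 else 0) =
        L * h + 2 * K * (1 / N * cg (M * h) θ) := by
      have e3 : ∑ p : Fin N, (2 * K * if M * h < gp θ p then (1 : ℝ) else 0) =
          2 * K * ∑ p : Fin N, if M * h < gp θ p then (1 : ℝ) else 0 := by
        rw [Finset.mul_sum]
      rw [Finset.sum_add_distrib, e3, S15_cg hN, Finset.sum_const,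
        Finset.card_univ, Fintype.card_fin, nsmul_eq_mul]
      field_simp
    rw [← h3]
    exact mul_le_mul_of_nonneg_left h2 (by positivity)
  -- integrate
  have hI1 : ∫ θ, ((1 / N * ∑ p, f (gp θ p)) - (f 0 + ∑ i ∈ Finset.range M,
      (f ((i + 1) * h) - f (i * h)) * (1 / N * cg (i * h) θ))) * wt θ ∂(cube (Fin N)) =
      W * (coeSpac N f - (f 0 + ∑ i ∈ Finset.range M, (f ((i + 1) * h) - f (i * h)) *
        SN N (i * h))) := by
    have e1 : ∀ θ : Fin N → ℝ, ((1 / N * ∑ p, f (gp θ p)) - (f 0 + ∑ i ∈ Finset.range M,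
        (f ((i + 1) * h) - f (i * h)) * (1 / N * cg (i * h) θ))) * wt θ =
        (1 / N * ∑ p, f (gp θ p)) * wt θ - (f 0 * wt θ + ∑ i ∈ Finset.range M,
        (f ((i + 1) * h) - f (i * h)) * ((1 / N * cg (i * h) θ) * wt θ)) := by
      intro θ
      rw [sub_mul, add_mul, Finset.sum_mul]
      congr 2
      refine Finset.sum_congr rfl fun i _ => ?_
      ring
    simp only [e1]
    have hIS : Integrable (fun θ : Fin N → ℝ => ∑ i ∈ Finset.range M,
        (f ((i + 1) * h) - f (i * h)) * ((1 / N * cg (i * h) θ) * wt θ)) (cube (Fin N)) :=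
      integrable_finsetSum _ fun i _ => (hIB _).const_mul _
    have hI3 : Integrable (fun θ : Fin N → ℝ => f 0 * wt θ + ∑ i ∈ Finset.range M,
        (f ((i + 1) * h) - f (i * h)) * ((1 / N * cg (i * h) θ) * wt θ)) (cube (Fin N)) :=
      (hIW.const_mul _).add hIS
    rw [integral_sub hIA hI3, integral_add (hIW.const_mul _) hIS,
      integral_const_mul, integral_finsetSum _ fun i _ => (hIB _).const_mul _, ← hA, ← hWd]
    have e2 : ∀ i ∈ Finset.range M, ∫ θ, (f ((i + 1) * h) - f (i * h)) *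
        ((1 / N * cg (i * h) θ) * wt θ) ∂(cube (Fin N)) =
        (f ((i + 1) * h) - f (i * h)) * (SN N (i * h) * W) := by
      intro i _
      rw [integral_const_mul, hSN]
    rw [Finset.sum_congr rfl e2]
    have e3 : ∑ i ∈ Finset.range M, (f ((i + 1) * h) - f (i * h)) * (SN N (i * h) * W) =
        (∑ i ∈ Finset.range M, (f ((i + 1) * h) - f (i * h)) * SN N (i * h)) * W := by
      rw [Finset.sum_mul]
      refine Finset.sum_congr rfl fun i _ => ?_
      ring
    rw [e3]
    ring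
  have hI2 : ∫ θ, (L * h + 2 * K * (1 / N * cg (M * h) θ)) * wt θ ∂(cube (Fin N)) =
      W * (L * h + 2 * K * SN N (M * h)) := by
    have e1 : ∀ θ : Fin N → ℝ, (L * h + 2 * K * (1 / N * cg (M * h) θ)) * wt θ =
        L * h * wt θ + 2 * K * ((1 / N * cg (M * h) θ) * wt θ) := by
      intro θ
      ring
    simp only [e1]
    rw [integral_add (hIW.const_mul _) ((hIB _).const_mul _), integral_const_mul,
      integral_const_mul, ← hWd, ← hSN]
    ring
  have hfin : |W * (coeSpac N f - (f 0 + ∑ i ∈ Finset.range M, (f ((i + 1) * h) - f (i * h)) *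
        SN N (i * h)))| ≤ W * (L * h + 2 * K * SN N (M * h)) := by
    rw [← hI1, ← hI2, ← Real.norm_eq_abs]
    refine norm_integral_le_of_norm_le ?_ (Eventually.of_forall fun θ => ?_)
    · have e1 : ∀ θ : Fin N → ℝ, (L * h + 2 * K * (1 / N * cg (M * h) θ)) * wt θ =
          L * h * wt θ + 2 * K * ((1 / N * cg (M * h) θ) * wt θ) := by
        intro θ
        ring
      simp only [e1]
      exact (hIW.const_mul _).add ((hIB _).const_mul _)
    · rw [Real.norm_eq_abs, abs_mul, abs_of_nonneg (wt_nonneg θ)]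
      exact mul_le_mul_of_nonneg_right (hpt θ) (wt_nonneg θ)
  rw [abs_mul, abs_of_pos hW] at hfin
  exact le_of_mul_le_mul_left hfin hW

theorem law_step (μ : Measure ℝ) (h1 : IsProbabilityMeasure μ)
    (hμ : ∀ s, 0 ≤ s → μ.real (Ioi s) = gE s) (f : ℝ → ℝ) (L K h : ℝ) (hh : 0 < h) (hL0 : 0 ≤ L)
    (hL : ∀ u v, |f u - f v| ≤ L * dist u v) (hK : ∀ v, |f v| ≤ K) (M : ℕ) :
    |∫ x, f x ∂μ - (f 0 + ∑ i ∈ Finset.range M, (f ((i + 1) * h) - f (i * h)) * gE (i * h))|
      ≤ L * h + 2 * K * gE (M * h) := by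
  have hfc := S15_fcont f L hL0 hL
  have hpos : ∀ᵐ g ∂μ, 0 ≤ g := by
    have h2 : μ.real (Ioi 0) = 1 := by rw [hμ 0 le_rfl, gE_mono.1]
    have h3 : μ (Ioi 0) = 1 := by
      rw [measureReal_def] at h2
      rw [← ENNReal.ofReal_toReal (measure_ne_top μ (Ioi 0)), h2, ENNReal.ofReal_one]
    have h4 : ∀ᵐ g ∂μ, g ∈ Ioi (0 : ℝ) :=
      (prob_compl_eq_zero_iff measurableSet_Ioi).2 h3
    filter_upwards [h4] with g hg
    exact le_of_lt hg
  have hI : ∀ s, 0 ≤ s → Integrable (fun g : ℝ => if s < g then (1 : ℝ) else 0) μ ∧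
      ∫ g, (if s < g then (1 : ℝ) else 0) ∂μ = gE s := by
    intro s hs
    have e1 : (fun g : ℝ => if s < g then (1 : ℝ) else 0) = (Ioi s).indicator 1 := by
      funext g
      by_cases hg : s < g
      · rw [if_pos hg, Set.indicator_of_mem (Set.mem_Ioi.2 hg), Pi.one_apply]
      · rw [if_neg hg, Set.indicator_of_notMem (fun h' => hg (Set.mem_Ioi.1 h'))]
    rw [e1]
    refine ⟨(integrable_const (1 : ℝ)).indicator measurableSet_Ioi, ?_⟩
    rw [integral_indicator_one measurableSet_Ioi, hμ s hs]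
  have hIf : Integrable f μ := by
    refine Integrable.mono' (integrable_const K) hfc.aestronglyMeasurable
      (Eventually.of_forall fun x => ?_)
    rw [Real.norm_eq_abs]
    exact hK x
  have hih : ∀ i : ℕ, 0 ≤ (i : ℝ) * h := fun i => by positivity
  have hIS : Integrable (fun g : ℝ => ∑ i ∈ Finset.range M, (f ((i + 1) * h) - f (i * h)) *
      if i * h < g then (1 : ℝ) else 0) μ :=
    integrable_finsetSum _ fun i _ => ((hI _ (hih i)).1).const_mul _
  have hI1 : ∫ g, (f g - (f 0 + ∑ i ∈ Finset.range M, (f ((i + 1) * h) - f (i * h)) *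
      if i * h < g then (1 : ℝ) else 0)) ∂μ =
      ∫ x, f x ∂μ - (f 0 + ∑ i ∈ Finset.range M, (f ((i + 1) * h) - f (i * h)) * gE (i * h)) := by
    have hI3 : Integrable (fun g : ℝ => f 0 + ∑ i ∈ Finset.range M,
        (f ((i + 1) * h) - f (i * h)) * if i * h < g then (1 : ℝ) else 0) μ :=
      (integrable_const _).add hIS
    rw [integral_sub hIf hI3, integral_add (integrable_const _) hIS,
      integral_const, integral_finsetSum _ fun i _ => ((hI _ (hih i)).1).const_mul _]
    have e2 : ∀ i ∈ Finset.range M, ∫ g, (f ((i + 1) * h) - f (i * h)) *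
        (if i * h < g then (1 : ℝ) else 0) ∂μ = (f ((i + 1) * h) - f (i * h)) * gE (i * h) := by
      intro i _
      rw [integral_const_mul, (hI _ (hih i)).2]
    rw [Finset.sum_congr rfl e2]
    simp
  have hI2 : ∫ g, (L * h + 2 * K * if (M : ℝ) * h < g then (1 : ℝ) else 0) ∂μ =
      L * h + 2 * K * gE (M * h) := by
    rw [integral_add (integrable_const _) (((hI _ (hih M)).1).const_mul _), integral_const,
      integral_const_mul, (hI _ (hih M)).2]
    simp
  rw [← hI1, ← hI2, ← Real.norm_eq_abs]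
  refine norm_integral_le_of_norm_le
    ((integrable_const _).add (((hI _ (hih M)).1).const_mul _)) ?_
  filter_upwards [hpos] with g hg
  rw [Real.norm_eq_abs]
  exact step_f f L K h hh hL0 hL hK M g hg

end COE
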