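import Pool.Agent.LibCOE.Def2
import Pool.Agent.LibCOE.CP_S10
import Pool.Agent.LibCOE.CP_S12
import Pool.Agent.LibCOE.CP_S13
import Pool.Agent.LibCOE.CP_S15

/-! Row S16. Proof sketch:
For h > 0 and M: |coeSpac (n*2) f - ∫ f ∂μ| <= 2 L h + 2K (SN (M h) + gE (M h)) + ∑_{i<M} |f ((i+1) h) - f (i h)| |SN (i h) - gE (i h)|; the last sum → 0
as n → ∞ (SN_lim), SN, gE (M h) <= 1/(M h). Given ε choose h with 2 L h < ε/4, then M with 4K/(M h) < ε/4. -/

open MeasureTheory Set Filter Topology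

namespace COE

open QGr


theorem goe_spac (μ : Measure ℝ) (h1 : IsProbabilityMeasure μ)
    (hμ : ∀ s, 0 ≤ s → μ.real (Ioi s) = gE s) (f : ℝ → ℝ) (L K : ℝ) (hL0 : 0 ≤ L)
    (hL : ∀ u v, |f u - f v| ≤ L * dist u v) (hK : ∀ v, |f v| ≤ K) :
    Tendsto (fun n : ℕ => coeSpac (n * 2) f) atTop (𝓝 (∫ x, f x ∂μ)) := by
  have hprob := h1
  have hK0 : 0 ≤ K := (abs_nonneg _).trans (hK 0)
  rw [Metric.tendsto_nhds]
  intro ε hε
  set h : ℝ := ε / (8 * (L + 1)) with hh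
  have hhp : 0 < h := by positivity
  have hLh : 2 * (L * h) ≤ ε / 4 := by
    have h1 : (L + 1) * h = ε / 8 := by
      rw [hh]; field_simp
    nlinarith
  set M : ℕ := ⌈16 * K / (ε * h)⌉₊ + 1 with hM
  have hM1 : 16 * K / (ε * h) ≤ M := by
    rw [hM]
    push_cast
    linarith [Nat.le_ceil (16 * K / (ε * h))]
  have hMp : (0:ℝ) < M := by
    rw [hM]; positivity
  have hMh : 0 < M * h := by positivity
  have hKM : 4 * K * (1 / (M * h)) ≤ ε / 4 := by
    rw [div_le_iff₀ (by positivity)] at hM1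
    rw [mul_one_div, div_le_iff₀ hMh]
    nlinarith
  have hT : Tendsto (fun n : ℕ => f 0 + ∑ i ∈ Finset.range M, (f ((i + 1) * h) - f (i * h)) * SN (n * 2) (i * h))
      atTop (𝓝 (f 0 + ∑ i ∈ Finset.range M, (f ((i + 1) * h) - f (i * h)) * gE (i * h))) := by
    refine tendsto_const_nhds.add (tendsto_finsetSum _ fun i _ => ?_)
    exact (SN_lim (i * h) (by positivity)).const_mul _
  rw [Metric.tendsto_nhds] at hT
  filter_upwards [hT (ε / 4) (by linarith), eventually_ge_atTop 1] with n hn hn1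
  have hN : 2 ≤ n * 2 := by omega
  have h1 := spac_step hN f L K h hhp hL0 hL hK M
  have h2 := law_step μ hprob hμ f L K h hhp hL0 hL hK M
  have h3 := SN_le hN (M * h) hMh
  have h4 := gE_mono.2.2.2 (M * h) hMh
  rw [Real.dist_eq] at hn ⊢
  have h5 : 2 * K * SN (n * 2) (M * h) ≤ 2 * K * (1 / (M * h)) := mul_le_mul_of_nonneg_left h3 (by positivity)
  have h6 : 2 * K * gE (M * h) ≤ 2 * K * (1 / (M * h)) := mul_le_mul_of_nonneg_left h4 (by positivity)
  rw [abs_le] at h1 h2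
  rw [abs_lt] at hn ⊢
  constructor <;> linarith [h1.1, h1.2, h2.1, h2.2, hn.1, hn.2]

end COE
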