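import Pool.Agent.LibCOE.Def2
import Pool.Agent.LibCOE.CO_R2

/-! Row V1: the correlation sum of the phases as a sum over tuples of distinct eigenvalues. -/

open MeasureTheory Set Filter Topology

namespace COE

open QGr

open Classical in
/-- The inner correlation sum. -/
noncomputable def V1G {p : ℕ} (f : (Fin (p + 1) → ℝ) → ℝ) (y : ℤ → ℝ) (a : ℤ) : ℝ :=
  ∑ᶠ j : Fin (p + 1) → ℤ, if Function.Injective (Fin.cons a j : Fin (p + 2) → ℤ) then
    f (fun i => y (j i) - y a) else 0

theorem V1_bd {N p : ℕ} (hN : 0 < N) (y : ℤ → ℝ) (hm : Monotone y)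
    (hy : ∀ p, y (p + N) = y p + N) (f : (Fin (p + 1) → ℝ) → ℝ) (B : ℝ)
    (hf : ∀ v, (∃ i, B < |v i|) → f v = 0) :
    ∃ K : ℤ, ∀ (a : ℤ) (j : Fin (p + 1) → ℤ), f (fun i => y (j i) - y a) ≠ 0 →
      ∀ i, a - K ≤ j i ∧ j i ≤ a + K := by
  obtain ⟨K, hK⟩ := R2_bd hN y hm hy (fun x => if |x| ≤ B then 1 else 0) B
    (fun x hx => if_neg (not_le.2 hx))
  refine ⟨K, fun a j hj i => ?_⟩
  apply hK a (j i)
  have h1 : |y (j i) - y a| ≤ B := by
    by_contra hlt
    push Not at hlt
    exact hj (hf _ ⟨i, hlt⟩)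
  simp [h1]

theorem V1_fs {N p : ℕ} (hN : 0 < N) (y : ℤ → ℝ) (hm : Monotone y)
    (hy : ∀ p, y (p + N) = y p + N) (f : (Fin (p + 1) → ℝ) → ℝ) (B : ℝ)
    (hf : ∀ v, (∃ i, B < |v i|) → f v = 0) (a : ℤ) :
    (Function.support fun j : Fin (p + 1) → ℤ => f (fun i => y (j i) - y a)).Finite := by
  obtain ⟨K, hK⟩ := V1_bd hN y hm hy f B hf
  apply (Set.finite_Icc (fun _ : Fin (p + 1) => a - K) (fun _ : Fin (p + 1) => a + K)).subset
  intro j hj
  exact ⟨fun i => (hK a j hj i).1, fun i => (hK a j hj i).2⟩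

theorem V1_corr {N p : ℕ} (hN : 0 < N) (y : ℤ → ℝ) (hm : Monotone y)
    (hy : ∀ p, y (p + N) = y p + N) (f : (Fin (p + 1) → ℝ) → ℝ) (B : ℝ)
    (hf : ∀ v, (∃ i, B < |v i|) → f v = 0) :
    pcorr N p f y = (1 / N) * ∑ a ∈ Finset.range N, V1G f y a := by
  classical
  obtain ⟨K, hK⟩ := V1_bd hN y hm hy f B hf
  have h7 : ∑ᶠ j : {j : Fin (p + 2) → ℤ // Function.Injective j ∧ 0 ≤ j 0 ∧ j 0 < N},
      f (fun i => y (j.1 i.succ) - y (j.1 0))
      = ∑ᶠ ab : ℤ × (Fin (p + 1) → ℤ), (if 0 ≤ ab.1 ∧ ab.1 < N then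
          (if Function.Injective (Fin.cons ab.1 ab.2 : Fin (p + 2) → ℤ) then
            f (fun i => y (ab.2 i) - y ab.1) else 0) else 0) := by
    have h8 := finsum_set_coe_eq_finsum_mem
      {j : Fin (p + 2) → ℤ | Function.Injective j ∧ 0 ≤ j 0 ∧ j 0 < N}
      (f := fun j : Fin (p + 2) → ℤ => f (fun i => y (j i.succ) - y (j 0)))
    refine Eq.trans h8 ?_
    rw [finsum_mem_def, ← finsum_comp_equiv (Fin.consEquiv (fun _ : Fin (p + 2) => ℤ))]
    apply finsum_congr
    rintro ⟨a, j⟩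
    rw [Set.indicator_apply]
    have h10 : (Fin.consEquiv (fun _ : Fin (p + 2) => ℤ)) (a, j)
        = (Fin.cons a j : Fin (p + 2) → ℤ) := rfl
    rw [h10]
    simp only [Set.mem_ofPred_eq, Fin.cons_zero, Fin.cons_succ]
    by_cases c1 : Function.Injective (Fin.cons a j : Fin (p + 2) → ℤ)
    · by_cases c2 : 0 ≤ a ∧ a < (N : ℤ)
      · rw [if_pos ⟨c1, c2⟩, if_pos c2, if_pos c1]
      · rw [if_neg (fun h => c2 h.2), if_neg c2]
    · rw [if_neg (fun h => c1 h.1), if_neg c1]
      simp
  unfold pcorr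
  rw [h7, finsum_curry]
  · congr 1
    have h12 : ∀ a : ℤ, ∑ᶠ j : Fin (p + 1) → ℤ, (if 0 ≤ (a, j).1 ∧ (a, j).1 < (N : ℤ) then
        (if Function.Injective (Fin.cons (a, j).1 (a, j).2 : Fin (p + 2) → ℤ) then
            f (fun i => y ((a, j).2 i) - y (a, j).1) else 0) else 0)
        = if 0 ≤ a ∧ a < (N : ℤ) then V1G f y a else 0 := by
      intro a
      by_cases c : 0 ≤ a ∧ a < (N : ℤ)
      · simp only [c, and_self, if_true]
        rfl
      · simp only [c, if_false]
        exact finsum_zero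
    rw [finsum_congr h12]
    have h13 : (Function.support fun a : ℤ => if 0 ≤ a ∧ a < (N : ℤ) then V1G f y a else 0) ⊆
        ((Finset.range N).map Nat.castEmbedding : Finset ℤ) := by
      intro a ha
      simp only [Function.mem_support] at ha
      have c : 0 ≤ a ∧ a < (N : ℤ) := by
        by_contra hc
        apply ha
        rw [if_neg hc]
      simp only [Finset.coe_map, Set.mem_image, Finset.coe_range, Set.mem_Iio]
      refine ⟨a.toNat, by omega, ?_⟩
      change ((a.toNat : ℕ) : ℤ) = a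
      exact Int.toNat_of_nonneg c.1
    rw [finsum_eq_sum_of_support_subset _ h13, Finset.sum_map]
    apply Finset.sum_congr rfl
    intro a ha
    rw [Finset.mem_range] at ha
    have c : 0 ≤ ((Nat.castEmbedding a : ℤ)) ∧ ((Nat.castEmbedding a : ℤ)) < (N : ℤ) := by
      change 0 ≤ (a : ℤ) ∧ (a : ℤ) < (N : ℤ)
      omega
    rw [if_pos c]
    rfl
  · apply ((Set.finite_Icc (0 : ℤ) N).prod (Set.finite_Icc (fun _ : Fin (p + 1) => 0 - K)
      (fun _ : Fin (p + 1) => N + K))).subset
    rintro ⟨a, j⟩ hab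
    simp only [Function.mem_support] at hab
    have c : 0 ≤ a ∧ a < (N : ℤ) := by
      by_contra hc
      apply hab
      rw [if_neg hc]
    rw [if_pos c] at hab
    have c2 : Function.Injective (Fin.cons a j : Fin (p + 2) → ℤ) := by
      by_contra hc
      apply hab
      rw [if_neg hc]
    rw [if_pos c2] at hab
    have h14 := hK a j hab
    refine ⟨⟨c.1, c.2.le⟩, fun i => ?_, fun i => ?_⟩
    · have := (h14 i).1
      simp only
      omega
    · have := (h14 i).2
      simp only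
      omega

theorem V1_inj_comp {p : ℕ} (a : ℤ) (j : Fin (p + 1) → ℤ) (g : ℤ → ℤ) (hg : Function.Injective g) :
    Function.Injective (Fin.cons (g a) (fun i => g (j i)) : Fin (p + 2) → ℤ) ↔
      Function.Injective (Fin.cons a j : Fin (p + 2) → ℤ) := by
  have h : (Fin.cons (g a) (fun i => g (j i)) : Fin (p + 2) → ℤ)
      = g ∘ (Fin.cons a j : Fin (p + 2) → ℤ) := by
    funext i
    refine Fin.cases ?_ (fun i => ?_) i
    · simp
    · simp
  rw [h]
  exact hg.of_comp_iff _

theorem V1_shift {p : ℕ} (f : (Fin (p + 1) → ℝ) → ℝ) (y y' : ℤ → ℝ) (s : ℤ) (c : ℝ)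
    (h : ∀ q, y' q = y (q + s) + c) (a : ℤ) : V1G f y' a = V1G f y (a + s) := by
  classical
  unfold V1G
  rw [← finsum_comp_equiv (Equiv.arrowCongr (Equiv.refl (Fin (p + 1))) (Equiv.addRight s))
    (f := fun j : Fin (p + 1) → ℤ =>
      if Function.Injective (Fin.cons (a + s) j : Fin (p + 2) → ℤ) then
        f (fun i => y (j i) - y (a + s)) else 0)]
  apply finsum_congr
  intro j
  have h1 : (Equiv.arrowCongr (Equiv.refl (Fin (p + 1))) (Equiv.addRight s)) j
      = fun i => j i + s := rfl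
  rw [h1]
  have h2 := V1_inj_comp a j (fun z => z + s) (fun x y h => by simpa using h)
  simp only [h2]
  congr 2
  funext i
  rw [h, h]
  ring

/-- The injectivity of the shifted tuple when the points are close. -/
theorem V1_inj {N p : ℕ} (B : ℝ) (hB : 2 * B < N) (a : Fin N) (b : Fin (p + 1) → Fin N)
    (m : Fin (p + 1) → ℤ) (u : Fin (p + 1) → ℝ) (φ : Fin N → ℝ)
    (hu : ∀ i, u i = N / (2 * Real.pi) * (φ a - φ (b i)) + m i * N)
    (hle : ∀ i, |u i| ≤ B) :
    Function.Injective (Fin.cons ((a : ℕ) : ℤ) (fun i => ((b i : ℕ) : ℤ) - m i * N)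
      : Fin (p + 2) → ℤ) ↔ Function.Injective (Fin.cons a b : Fin (p + 2) → Fin N) := by
  have hN : (0 : ℝ) < N := by
    have := a.pos
    exact_mod_cast this
  have hNz : (0 : ℤ) < N := by exact_mod_cast a.pos
  constructor
  · intro h
    by_contra hn
    -- integer tuple and reduction
    have key : ∀ i l : Fin (p + 2), (Fin.cons a b : Fin (p + 2) → Fin N) i
        = (Fin.cons a b : Fin (p + 2) → Fin N) l → i = l := by
      intro i l hil
      by_contra hne
      have hne' : (Fin.cons (0 : ℤ) m : Fin (p + 2) → ℤ) i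
          ≠ (Fin.cons (0 : ℤ) m : Fin (p + 2) → ℤ) l := by
        intro hm
        apply hne
        apply h
        have e : ∀ i : Fin (p + 2), (Fin.cons ((a : ℕ) : ℤ) (fun i => ((b i : ℕ) : ℤ) - m i * N)
            : Fin (p + 2) → ℤ) i = (((Fin.cons a b : Fin (p + 2) → Fin N) i : ℕ) : ℤ)
              - (Fin.cons (0 : ℤ) m : Fin (p + 2) → ℤ) i * N := by
          intro i
          refine Fin.cases ?_ (fun i => ?_) i
          · simp
          · simp
        rw [e, e, hil, hm]
      have hv : ∀ i : Fin (p + 2), (Fin.cons (0 : ℝ) u : Fin (p + 2) → ℝ) i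
          = N / (2 * Real.pi) * (φ a - φ ((Fin.cons a b : Fin (p + 2) → Fin N) i))
            + ((Fin.cons (0 : ℤ) m : Fin (p + 2) → ℤ) i : ℤ) * N := by
        intro i
        refine Fin.cases ?_ (fun i => ?_) i
        · simp
        · simp [hu i]
      have hb : ∀ i : Fin (p + 2), |(Fin.cons (0 : ℝ) u : Fin (p + 2) → ℝ) i| ≤ B := by
        intro i
        refine Fin.cases ?_ (fun i => ?_) i
        · simp only [Fin.cons_zero, abs_zero]
          exact (abs_nonneg _).trans (hle 0)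
        · simp only [Fin.cons_succ]
          exact hle i
      have h1 := abs_le.1 (hb i)
      have h2 := abs_le.1 (hb l)
      rw [hv i] at h1
      rw [hv l, ← hil] at h2
      rcases lt_or_gt_of_ne hne' with h3 | h3
      · have h4 : ((Fin.cons (0 : ℤ) m : Fin (p + 2) → ℤ) i : ℝ) + 1
            ≤ ((Fin.cons (0 : ℤ) m : Fin (p + 2) → ℤ) l : ℝ) := by exact_mod_cast h3
        nlinarith
      · have h4 : ((Fin.cons (0 : ℤ) m : Fin (p + 2) → ℤ) l : ℝ) + 1
            ≤ ((Fin.cons (0 : ℤ) m : Fin (p + 2) → ℤ) i : ℝ) := by exact_mod_cast h3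
        nlinarith
    exact hn fun i l hil => key i l hil
  · intro h i l hil
    apply h
    have e : ∀ i : Fin (p + 2), (((Fin.cons a b : Fin (p + 2) → Fin N) i : ℕ) : ℤ)
        = (Fin.cons ((a : ℕ) : ℤ) (fun i => ((b i : ℕ) : ℤ) - m i * N)
            : Fin (p + 2) → ℤ) i % N := by
      intro i
      refine Fin.cases ?_ (fun i => ?_) i
      · simp only [Fin.cons_zero]
        rw [Int.emod_eq_of_lt (by positivity) (by exact_mod_cast a.2)]
      · simp only [Fin.cons_succ]
        rw [Int.sub_mul_emod_self_right, Int.emod_eq_of_lt (by positivity)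
          (by exact_mod_cast (b i).2)]
    apply Fin.ext
    have h1 : (((Fin.cons a b : Fin (p + 2) → Fin N) i : ℕ) : ℤ)
        = (((Fin.cons a b : Fin (p + 2) → Fin N) l : ℕ) : ℤ) := by rw [e, e, hil]
    exact_mod_cast h1

theorem V1_pz {N p : ℕ} (hN : 0 < N) (F : ℤ → ℝ) (hm : Monotone F)
    (hF : ∀ p, F (p + N) = F p + 2 * Real.pi)
    (f : (Fin (p + 1) → ℝ) → ℝ) (B : ℝ) (hf : ∀ v, (∃ i, B < |v i|) → f v = 0)
    (hB : 2 * B < N) (a : Fin N) :
    V1G f (fun q => -(N / (2 * Real.pi)) * F (-q)) (-((a : ℕ) : ℤ))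
      = ∑ b : Fin (p + 1) → Fin N, open Classical in
          if Function.Injective (Fin.cons a b : Fin (p + 2) → Fin N) then
          pzq N f (fun i => N / (2 * Real.pi) * (F (a : ℕ) - F (b i : ℕ))) else 0 := by
  classical
  have hNr : (0 : ℝ) < N := by exact_mod_cast hN
  have hpi : (0 : ℝ) < 2 * Real.pi := by positivity
  have : NeZero N := ⟨hN.ne'⟩
  set y : ℤ → ℝ := fun q => -(N / (2 * Real.pi)) * F (-q) with hyd
  have hmy : Monotone y := by
    intro q r h
    have h1 := hm (neg_le_neg h)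
    have h2 : (0 : ℝ) ≤ N / (2 * Real.pi) := by positivity
    simp only [hyd]
    nlinarith
  have hpy : ∀ q, y (q + N) = y q + N := by
    intro q
    have h1 := hF (-(q + N))
    have h2 : -(q + (N : ℤ)) + N = -q := by ring
    rw [h2] at h1
    simp only [hyd]
    rw [h1]
    field_simp
    ring
  have hfin := V1_fs hN y hmy hpy f B hf (-((a : ℕ) : ℤ))
  let e0 : Fin N × ℤ ≃ ℤ := ((Equiv.prodComm _ _).trans (Int.divModEquiv N).symm).trans
    (Equiv.neg ℤ)
  have he0 : ∀ x : Fin N × ℤ, e0 x = -(((x.1 : ℕ) : ℤ) + x.2 * N) := by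
    intro x
    change -(x.2 * (N : ℤ) + ((x.1 : ℕ) : ℤ)) = _
    ring
  let e : (Fin (p + 1) → Fin N) × (Fin (p + 1) → ℤ) ≃ (Fin (p + 1) → ℤ) :=
    (Equiv.arrowProdEquivProdArrow (Fin (p + 1)) (fun _ => Fin N) (fun _ => ℤ)).symm.trans
      (Equiv.arrowCongr (Equiv.refl _) e0)
  have he : ∀ x : (Fin (p + 1) → Fin N) × (Fin (p + 1) → ℤ), e x
      = fun i => -(((x.1 i : ℕ) : ℤ) + x.2 i * N) := by
    intro x
    funext i
    exact he0 (x.1 i, x.2 i)
  unfold V1G
  rw [← finsum_comp_equiv e, finsum_curry, finsum_eq_sum_of_fintype]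
  · apply Finset.sum_congr rfl
    intro b _
    have hv : ∀ m : Fin (p + 1) → ℤ, (fun i => y (e (b, m) i) - y (-((a : ℕ) : ℤ)))
        = fun i => N / (2 * Real.pi) * (F (a : ℕ) - F (b i : ℕ)) + ((-m i : ℤ) : ℝ) * N := by
      intro m
      funext i
      rw [he]
      simp only [hyd]
      rw [neg_neg, neg_neg, R2_per F (2 * Real.pi) hF]
      push_cast
      field_simp
      ring
    have hi : ∀ m : Fin (p + 1) → ℤ, (if Function.Injective
        (Fin.cons (-((a : ℕ) : ℤ)) (e (b, m)) : Fin (p + 2) → ℤ) then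
        f (fun i => y (e (b, m) i) - y (-((a : ℕ) : ℤ))) else 0)
        = if Function.Injective (Fin.cons a b : Fin (p + 2) → Fin N) then
          f (fun i => N / (2 * Real.pi) * (F (a : ℕ) - F (b i : ℕ)) + ((-m i : ℤ) : ℝ) * N)
          else 0 := by
      intro m
      rw [hv]
      by_cases h0 : f (fun i => N / (2 * Real.pi) * (F (a : ℕ) - F (b i : ℕ))
          + ((-m i : ℤ) : ℝ) * N) = 0
      · rw [h0]
        simp
      · have h1 := V1_inj B hB a b (fun i => -m i) (fun i => N / (2 * Real.pi)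
          * (F (a : ℕ) - F (b i : ℕ)) + ((-m i : ℤ) : ℝ) * N) (fun a => F (a : ℕ))
          (fun i => rfl) (fun i => by
            by_contra hlt
            push Not at hlt
            exact h0 (hf _ ⟨i, hlt⟩))
        have h2 := V1_inj_comp ((a : ℕ) : ℤ) (fun i => ((b i : ℕ) : ℤ) - (-m i) * N)
          (fun z => -z) neg_injective
        have h3 : (e (b, m)) = fun i => -(((b i : ℕ) : ℤ) - (-m i) * N) := by
          rw [he]
          funext i
          simp only
          ring
        rw [h3]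
        simp only [h2, h1]
    rw [finsum_congr hi]
    by_cases hinj : Function.Injective (Fin.cons a b : Fin (p + 2) → Fin N)
    · simp only [hinj, if_true]
      unfold pzq
      rw [← finsum_comp_equiv (Equiv.neg (Fin (p + 1) → ℤ))
        (f := fun m : Fin (p + 1) → ℤ => f fun i =>
          N / (2 * Real.pi) * (F (a : ℕ) - F (b i : ℕ)) + m i * N)]
      rfl
    · simp only [hinj, if_false]
      exact finsum_zero
  · apply (hfin.preimage e.injective.injOn).subset
    intro x hx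
    simp only [Function.mem_support] at hx
    simp only [Set.mem_preimage, Function.mem_support]
    intro h0
    apply hx
    rw [h0]
    simp

theorem V1_emb {N p : ℕ} (G : (Fin (p + 2) → Fin N) → ℝ) :
    ∑ a : Fin N, ∑ b : Fin (p + 1) → Fin N, (open Classical in
        if Function.Injective (Fin.cons a b : Fin (p + 2) → Fin N) then
          G (Fin.cons a b) else 0)
      = ∑ e : Fin (p + 2) ↪ Fin N, G e := by
  classical
  rw [← Fintype.sum_prod_type' (f := fun a b =>
    if Function.Injective (Fin.cons a b : Fin (p + 2) → Fin N) then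
          G (Fin.cons a b) else 0)]
  have h1 : ∑ x : Fin N × (Fin (p + 1) → Fin N),
      (if Function.Injective (Fin.cons x.1 x.2 : Fin (p + 2) → Fin N) then
          G (Fin.cons x.1 x.2) else 0)
      = ∑ c : Fin (p + 2) → Fin N, if Function.Injective c then G c else 0 :=
    Fintype.sum_equiv (Fin.consEquiv (fun _ : Fin (p + 2) => Fin N)) _ _ (fun x => rfl)
  rw [h1, ← Finset.sum_filter]
  rw [Finset.sum_subtype (p := fun c : Fin (p + 2) → Fin N => Function.Injective c)
    (Finset.univ.filter fun c : Fin (p + 2) → Fin N => Function.Injective c)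
    (fun c => by simp) G]
  exact Fintype.sum_equiv (Equiv.subtypeInjectiveEquivEmbedding (Fin (p + 2)) (Fin N)) _ _
    (fun x => rfl)

theorem link_q {N : ℕ} (hN : 0 < N) (W : Uni N) : ∃ φ : Fin N → ℝ,
    (∀ k : ℤ, Matrix.trace ((W ^ k : Uni N).1) = ps k φ) ∧
    ∀ (p : ℕ) (f : (Fin (p + 1) → ℝ) → ℝ) (B : ℝ), (∀ v, (∃ i, B < |v i|) → f v = 0) →
      2 * B < N → pcorr N p f (phases W.1) = (1 / N) * ∑ e : Fin (p + 2) ↪ Fin N,
        Fz N f fun a => φ (e a) := by
  have hNr : (0 : ℝ) < N := by exact_mod_cast hN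
  have hdet : W.1.det = Complex.exp ((Complex.arg W.1.det : ℝ) * Complex.I) := by
    have h1 := Matrix.det_of_mem_unitary W.2
    have h2 : ‖W.1.det‖ = 1 := by
      rw [Unitary.mem_iff] at h1
      have h3 : ‖W.1.det‖ * ‖W.1.det‖ = 1 := by
        have h4 := congrArg (fun z : ℂ => ‖z‖) h1.2
        simpa using h4
      nlinarith [norm_nonneg W.1.det]
    have h5 := Complex.norm_mul_exp_arg_mul_I W.1.det
    rw [h2] at h5
    simpa using h5.symm
  obtain ⟨F, hF, -⟩ := dia_exists hN W _ hdet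
  obtain ⟨V, hV⟩ := hF.dia
  refine ⟨fun a => F (a : ℕ), R2_trace W V _ hV, ?_⟩
  intro p f B hf hB
  obtain ⟨s, hs⟩ := phases_unique hN W.1 _ _ (dia_phases hN W F hF) (phases_spec hN W)
  have hP := phases_spec hN W
  have hY := dia_phases hN W F hF
  rw [V1_corr hN (phases W.1) hP.mono hP.per f B hf]
  congr 1
  set y : ℤ → ℝ := fun p => -(N / (2 * Real.pi)) * F (-p) with hyd
  have hG : ∀ q, V1G f y (q + N) = V1G f y q := by
    intro q
    rw [← V1_shift f y y N (-N) (fun r => by rw [hY.per r]; ring) q]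
  have h1 : ∀ a : ℤ, V1G f (phases W.1) a = V1G f y (a + s) := by
    intro a
    exact V1_shift f y (phases W.1) s 0 (fun r => by rw [hs r, add_zero]) a
  rw [Finset.sum_congr rfl fun (a : ℕ) _ => h1 (a : ℤ), R2_shift (V1G f y) hG s,
    ← R2_refl (V1G f y) hG, Finset.sum_range]
  rw [← V1_emb (fun e => Fz N f fun a => F ((e a : Fin N) : ℕ))]
  apply Finset.sum_congr rfl
  intro a _
  rw [hyd, V1_pz hN F hF.mono hF.per f B hf hB a]
  apply Finset.sum_congr rfl
  intro b _
  rfl

end COE
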