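import Pool.Agent.LibCOE.Def2

/-! Row V2. Proof sketch:
Fz_cont: locally (|x| <= R) only the finitely many m with |m_i| N <= B + N R/π matter, so Fz is locally a finite sum of continuous
functions (as pz_cont, Pool/Agent/LibCOE/CO_R3.lean). Fz_per: shifting x j by 2π shifts the arguments by ±N e_i (j = i.succ) or by N for all
i (j = 0); reindex m (`finsum_comp_equiv`, Equiv.addRight). Fz_shift: differences. Fz_bdd: periodic and continuous: bounded on the box
[0, 2π]^(p+1) (compact), reduce mod 2π coordinatewise (induction / toIcoMod). Fz_val: x 0 - x i.succ = -v i; for m ≠ 0 some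
|N/(2π)(-v i) + m_i N| >= N/2 > B, so only m = 0 contributes (`finsum_eq_single`). -/

open MeasureTheory Set Filter Topology

namespace COE

open QGr

theorem Fz_cont {N p : ℕ} (hN : 0 < N) (f : (Fin p → ℝ) → ℝ) (hf : Continuous f) (B : ℝ)
    (hB : ∀ v, (∃ i, B < |v i|) → f v = 0) : Continuous (Fz N f) := by
  have hN0 : (0 : ℝ) < N := by exact_mod_cast hN
  have hpi := Real.pi_pos
  have hc : (0:ℝ) < N / (2 * Real.pi) := by positivity
  unfold Fz pzq
  refine continuous_finsum (fun m => hf.comp (by fun_prop)) ?_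
  intro x
  refine ⟨Metric.ball x 1, Metric.ball_mem_nhds x one_pos, ?_⟩
  refine (Set.finite_Icc
    (fun i : Fin p => -⌈(B + N / (2 * Real.pi) * (|x 0| + |x i.succ| + 2)) / N⌉)
    (fun i : Fin p => ⌈(B + N / (2 * Real.pi) * (|x 0| + |x i.succ| + 2)) / N⌉)).subset ?_
  rintro m ⟨y, hy1, hy2⟩
  have key : ∀ i : Fin p, |(m i : ℝ)| ≤
      (⌈(B + N / (2 * Real.pi) * (|x 0| + |x i.succ| + 2)) / N⌉ : ℝ) := by
    intro i
    have h1 : |N / (2 * Real.pi) * (y 0 - y i.succ) + m i * N| ≤ B := by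
      by_contra h
      exact hy1 (hB _ ⟨i, not_le.1 h⟩)
    have h2 : ∀ j, |y j - x j| < 1 := by
      intro j
      have := (dist_pi_lt_iff one_pos).mp (Metric.mem_ball.mp hy2) j
      rwa [Real.dist_eq] at this
    have h20 := h2 0
    have h2i := h2 i.succ
    have h3 : |y 0 - y i.succ| ≤ |x 0| + |x i.succ| + 2 := by
      have e : y 0 - y i.succ = (y 0 - x 0) + x 0 - (y i.succ - x i.succ) - x i.succ := by ring
      rw [e]
      have a1 := abs_sub ((y 0 - x 0) + x 0 - (y i.succ - x i.succ)) (x i.succ)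
      have a2 := abs_sub ((y 0 - x 0) + x 0) (y i.succ - x i.succ)
      have a3 := abs_add_le (y 0 - x 0) (x 0)
      linarith
    have h4 : |(m i : ℝ)| * N ≤ B + N / (2 * Real.pi) * (|x 0| + |x i.succ| + 2) := by
      have e : |(m i : ℝ)| * N = |(m i : ℝ) * N| := by rw [abs_mul, abs_of_pos hN0]
      rw [e]
      have e2 : (m i : ℝ) * N = (N / (2 * Real.pi) * (y 0 - y i.succ) + m i * N) -
          N / (2 * Real.pi) * (y 0 - y i.succ) := by ring
      rw [e2]
      have a1 := abs_sub (N / (2 * Real.pi) * (y 0 - y i.succ) + m i * N)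
        (N / (2 * Real.pi) * (y 0 - y i.succ))
      have a2 : |N / (2 * Real.pi) * (y 0 - y i.succ)| =
          N / (2 * Real.pi) * |y 0 - y i.succ| := by
        rw [abs_mul, abs_of_pos hc]
      have a3 := mul_le_mul_of_nonneg_left h3 hc.le
      linarith
    have h5 : |(m i : ℝ)| ≤ (B + N / (2 * Real.pi) * (|x 0| + |x i.succ| + 2)) / N := by
      rwa [le_div_iff₀ hN0]
    exact h5.trans (Int.le_ceil _)
  constructor
  · intro i
    have := (abs_le.mp (key i)).1
    exact_mod_cast this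
  · intro i
    have := (abs_le.mp (key i)).2
    exact_mod_cast this

theorem V2_shift {N p : ℕ} (f : (Fin p → ℝ) → ℝ) (v : Fin p → ℝ) (e : Fin p → ℤ) :
    pzq N f (fun i => v i + e i * N) = pzq N f v := by
  unfold pzq
  rw [← finsum_comp_equiv (Equiv.addRight e) (f := fun m : Fin p → ℤ => f fun i => v i + m i * N)]
  refine finsum_congr fun m => ?_
  congr 1
  funext i
  simp only [Equiv.coe_addRight, Pi.add_apply]
  push_cast
  ring

theorem V2_per {N p : ℕ} (f : (Fin p → ℝ) → ℝ) (x : Fin (p + 1) → ℝ) (n : Fin (p + 1) → ℤ) :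
    Fz N f (fun j => x j + n j * (2 * Real.pi)) = Fz N f x := by
  unfold Fz
  rw [← V2_shift f (fun i => N / (2 * Real.pi) * (x 0 - x i.succ)) (fun i => n 0 - n i.succ)]
  congr 1
  funext i
  have := Real.pi_pos
  push_cast
  field_simp
  ring

theorem Fz_per {N p : ℕ} (hN : 0 < N) (f : (Fin p → ℝ) → ℝ) (x : Fin (p + 1) → ℝ)
    (j : Fin (p + 1)) : Fz N f (Function.update x j (x j + 2 * Real.pi)) = Fz N f x := by
  rw [← V2_per f x (Pi.single j 1)]
  congr 1
  funext i
  rcases eq_or_ne i j with h | h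
  · subst h; simp
  · simp [Function.update_of_ne h, Pi.single_eq_of_ne h]

theorem Fz_shift {N p : ℕ} (f : (Fin p → ℝ) → ℝ) (x : Fin (p + 1) → ℝ) (c : ℝ) :
    Fz N f (fun j => x j + c) = Fz N f x := by
  unfold Fz
  congr 1
  funext i
  ring

theorem Fz_bdd {N p : ℕ} (hN : 0 < N) (f : (Fin p → ℝ) → ℝ) (hf : Continuous f) (B : ℝ)
    (hB : ∀ v, (∃ i, B < |v i|) → f v = 0) : ∃ K, ∀ x, |Fz N f x| ≤ K := by
  have hc := Fz_cont hN f hf B hB
  have hpi := Real.pi_pos
  obtain ⟨K, hK⟩ := (isCompact_univ_pi (fun _ : Fin (p + 1) =>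
    (isCompact_Icc : IsCompact (Icc (0:ℝ) (2 * Real.pi))))).exists_bound_of_continuousOn
    hc.continuousOn
  refine ⟨K, fun x => ?_⟩
  rw [← V2_per f x (fun j => -⌊x j / (2 * Real.pi)⌋)]
  refine hK _ ?_
  intro j _
  have h1 := Int.floor_le (x j / (2 * Real.pi))
  have h2 := Int.lt_floor_add_one (x j / (2 * Real.pi))
  have h3 : x j = x j / (2 * Real.pi) * (2 * Real.pi) := by field_simp
  have h4 := mul_le_mul_of_nonneg_right h1 (by positivity : (0:ℝ) ≤ 2 * Real.pi)
  have h5 := mul_le_mul_of_nonneg_right h2.le (by positivity : (0:ℝ) ≤ 2 * Real.pi)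
  push_cast
  constructor
  · linarith
  · linarith

theorem Fz_val {N p : ℕ} (hN : 0 < N) (f : (Fin p → ℝ) → ℝ) (B : ℝ)
    (hB : ∀ v, (∃ i, B < |v i|) → f v = 0) (hBN : 2 * B < N) (v : Fin p → ℝ)
    (hv : ∀ i, v i ∈ Ioc (-Real.pi) Real.pi) :
    Fz N f (Fin.cons 0 v) = f fun i => -(N / (2 * Real.pi) * v i) := by
  have hN0 : (0 : ℝ) < N := by exact_mod_cast hN
  have hpi := Real.pi_pos
  have hc : (0:ℝ) < N / (2 * Real.pi) := by positivity
  unfold Fz pzq
  rw [finsum_eq_single _ (0 : Fin p → ℤ)]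
  · congr 1
    funext i
    simp
  · intro m hm
    obtain ⟨i, hi⟩ := Function.ne_iff.mp hm
    refine hB _ ⟨i, ?_⟩
    simp only [Fin.cons_zero, Fin.cons_succ, zero_sub]
    have h1 : (1:ℝ) ≤ |(m i : ℝ)| := by
      have : (1:ℤ) ≤ |m i| := Int.one_le_abs hi
      exact_mod_cast this
    have h2 : |v i| ≤ Real.pi := abs_le.mpr ⟨(hv i).1.le, (hv i).2⟩
    have h3 : |N / (2 * Real.pi) * -v i| ≤ N / 2 := by
      rw [abs_mul, abs_neg, abs_of_pos hc]
      calc N / (2 * Real.pi) * |v i| ≤ N / (2 * Real.pi) * Real.pi :=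
            mul_le_mul_of_nonneg_left h2 hc.le
        _ = N / 2 := by field_simp
    have h4 : (N:ℝ) ≤ |(m i : ℝ) * N| := by
      rw [abs_mul, abs_of_pos hN0]
      nlinarith
    have h5 := abs_sub (N / (2 * Real.pi) * -v i + m i * N) (N / (2 * Real.pi) * -v i)
    have h6 : N / (2 * Real.pi) * -v i + m i * N - N / (2 * Real.pi) * -v i = m i * N := by ring
    rw [h6] at h5
    linarith

end COE
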