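import Pool.Agent.LibCOE.Def2
import Pool.Agent.LibCOE.CO_W2
import Pool.Agent.LibCOE.CP_G10
import Pool.Agent.LibCOE.CP_V1
import Pool.Agent.LibCOE.CP_V2
import Pool.Agent.LibCOE.CP_V3
import Pool.Agent.LibCOE.CP_V4
import Pool.Agent.LibCOE.CP_V5
import Pool.Agent.LibCOE.CP_W4

/-! Row V6. Proof sketch:
N = n*2. Choose φ(A) by link_q for sy A (tW A k = trace ((sy A)^k)). coeCorr = ∫ (1/N) ∑_e Fz N f (φ A ∘ e) (definition; (sy A).1 =
A.1.transpose * A.1), by coe_Fq and dens_int (∫ wt > 0) = (1/N) ∫ Fz rq n ∂cube(Fin (p+2)) = (1/N) 2π ∫ Fz (cons 0 v) rq n (cons 0 v) ∂(cubc (-π) (p+1))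
(torus with G = Fz * rq) = (2π/N) ∫_{(-π,π]^(p+1)} f (-(N/2π) v) rq n (cons 0 v) (Fz_val); substitute v = -(π/n) w
(`integral_comp_smul`, `Measure.setIntegral_comp_smul`, factor (π/n)^(p+1); (N/2π)(π/n) = 1): = (π/n)^(p+2) ∫_{|w| <= n} f w rq n (cons 0 (-(π/n) w)), rq_neg,
rq_scale on the support of f (|w_i| <= B < n, so |w_i - w_j| < 2n), and f = 0 outside, so the integral is over ℝ^(p+1). -/

open MeasureTheory Set Filter Topology

namespace COE

open QGr


theorem V6_abs {n p : ℕ} (hn : 0 < n) {B : ℝ} (hBn : B < n) (w : Fin (p + 1) → ℝ)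
    (hw : ∀ i, |w i| ≤ B) (a : Fin (p + 2)) : |(Fin.cons 0 w : Fin (p + 2) → ℝ) a| < n := by
  refine Fin.cases ?_ (fun i => ?_) a
  · rw [Fin.cons_zero, abs_zero]
    exact_mod_cast hn
  · rw [Fin.cons_succ]
    exact lt_of_le_of_lt (hw i) hBn

theorem V6_point {n p : ℕ} (hn : 0 < n) (f : (Fin (p + 1) → ℝ) → ℝ) (B : ℝ)
    (hB : ∀ v, (∃ i, B < |v i|) → f v = 0) (hBn : B < n) (w : Fin (p + 1) → ℝ) :
    (Real.pi / n) ^ (p + 2) * (f w * rq n (Fin.cons 0 (-(Real.pi / n) • w) : Fin (p + 2) → ℝ)) =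
      f w * rs n (Fin.cons 0 w : Fin (p + 2) → ℝ) := by
  by_cases hf : f w = 0
  · rw [hf]
    simp
  have hw : ∀ i, |w i| ≤ B := by
    intro i
    by_contra h
    exact hf (hB w ⟨i, not_le.1 h⟩)
  have h1 : (Fin.cons 0 (-(Real.pi / n) • w) : Fin (p + 2) → ℝ) =
      fun j => -(fun a => Real.pi / n * (Fin.cons 0 w : Fin (p + 2) → ℝ) a) j := by
    funext j
    refine Fin.cases ?_ (fun i => ?_) j
    · simp
    · simp only [Fin.cons_succ, Pi.smul_apply, smul_eq_mul]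
      ring
  rw [h1, rq_neg, ← rq_scale hn (Fin.cons 0 w : Fin (p + 2) → ℝ) (fun a b => ?_)]
  · ring
  · have h2 := V6_abs hn hBn w hw a
    have h3 := V6_abs hn hBn w hw b
    have h4 := abs_sub ((Fin.cons 0 w : Fin (p + 2) → ℝ) a) ((Fin.cons 0 w : Fin (p + 2) → ℝ) b)
    linarith

theorem coe_corr {n p : ℕ} (hn : 0 < n) (f : (Fin (p + 1) → ℝ) → ℝ) (hf : Continuous f) (B : ℝ)
    (hB : ∀ v, (∃ i, B < |v i|) → f v = 0) (hBn : B < n) :
    coeCorr (n * 2) p f = ∫ v, f v * rs n (Fin.cons 0 v : Fin (p + 2) → ℝ) := by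
  have hN : 0 < n * 2 := by omega
  have hn0 : (0 : ℝ) < n := by exact_mod_cast hn
  have hNR : ((n * 2 : ℕ) : ℝ) = n * 2 := by push_cast; ring
  have hBN : 2 * B < ((n * 2 : ℕ) : ℝ) := by rw [hNR]; linarith
  choose φ hφ1 hφ2 using fun A : Uni (n * 2) => link_q hN (sy A)
  -- the mean over the group
  have h1 : coeCorr (n * 2) p f = 1 / ((n * 2 : ℕ) : ℝ) * ∫ A, ∑ e : Fin (p + 2) ↪ Fin (n * 2),
      Fz (n * 2) f (fun a => φ A (e a)) ∂(haarU (n * 2)) := by
    unfold coeCorr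
    rw [← integral_const_mul]
    refine integral_congr_ae (Eventually.of_forall fun A => ?_)
    exact hφ2 A p f B hB hBN
  have hFc := Fz_cont hN f hf B hB
  obtain ⟨K, hK⟩ := Fz_bdd hN f hf B hB
  have h2 := (coe_Fq (Fz (n * 2) f) hFc (Fz_per hN f) φ fun A k => hφ1 A k).2
  have h3 := dens_int n (Fz (n * 2) f : (Fin (p + 2) → ℝ) → ℝ) hFc.measurable K hK
  rw [h3, mul_comm] at h2
  have h4 := mul_left_cancel₀ (wt_int_pos (n * 2)).ne' h2
  rw [h1, h4]
  -- the torus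
  obtain ⟨K', hK'⟩ := rq_bdd (q := p + 2) n
  have h5 := torus (k := p + 1) (-Real.pi) (fun x : Fin (p + 1 + 1) → ℝ => Fz (n * 2) f x * rq n x)
    (hFc.measurable.mul (rq_meas n)) (K * K') (fun x => by
      rw [abs_mul]
      exact mul_le_mul (hK x) (hK' x) (abs_nonneg _) ((abs_nonneg _).trans (hK x)))
    (fun x j => by
      rw [Fz_per hN f x j, rq_per n x j])
    (fun x c => by
      rw [Fz_shift f x c, rq_shift n x c])
  rw [h5]
  -- the cube
  have h6 : ∫ v, Fz (n * 2) f (Fin.cons 0 v : Fin (p + 1 + 1) → ℝ) *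
      rq n (Fin.cons 0 v : Fin (p + 1 + 1) → ℝ) ∂(cubc (-Real.pi) (p + 1)) =
      ∫ v : Fin (p + 1) → ℝ, (univ.pi fun _ : Fin (p + 1) => Ioc (-Real.pi) Real.pi).indicator
        (fun v => f (fun i => -(((n * 2 : ℕ) : ℝ) / (2 * Real.pi) * v i)) *
          rq n (Fin.cons 0 v : Fin (p + 1 + 1) → ℝ)) v := by
    have e1 : cubc (-Real.pi) (p + 1) = (volume : Measure (Fin (p + 1) → ℝ)).restrict
        (univ.pi fun _ : Fin (p + 1) => Ioc (-Real.pi) Real.pi) := by
      unfold cubc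
      have e2 : -Real.pi + 2 * Real.pi = Real.pi := by ring
      rw [e2, volume_pi, Measure.restrict_pi_pi]
    rw [e1, integral_indicator (MeasurableSet.univ_pi fun _ => measurableSet_Ioc)]
    refine setIntegral_congr_fun (MeasurableSet.univ_pi fun _ => measurableSet_Ioc) ?_
    intro v hv
    dsimp only
    rw [Fz_val hN f B hB hBN v fun i => hv i (mem_univ i)]
  rw [h6]
  -- the substitution
  set H : (Fin (p + 1) → ℝ) → ℝ := (univ.pi fun _ : Fin (p + 1) =>
    Ioc (-Real.pi) Real.pi).indicator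
        (fun v => f (fun i => -(((n * 2 : ℕ) : ℝ) / (2 * Real.pi) * v i)) *
          rq n (Fin.cons 0 v : Fin (p + 1 + 1) → ℝ)) with hH
  have hpi := Real.pi_pos
  have h7 := Measure.integral_comp_smul (volume : Measure (Fin (p + 1) → ℝ)) H (-(Real.pi / n))
  have h8 : ∀ w : Fin (p + 1) → ℝ, H (-(Real.pi / n) • w) =
      f w * rq n (Fin.cons 0 (-(Real.pi / n) • w) : Fin (p + 2) → ℝ) := by
    intro w
    have e1 : (fun i => -(((n * 2 : ℕ) : ℝ) / (2 * Real.pi) * (-(Real.pi / n) • w) i)) = w := by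
      funext i
      rw [hNR, Pi.smul_apply, smul_eq_mul]
      field_simp
    by_cases hw : (-(Real.pi / n) • w) ∈ (univ.pi fun _ : Fin (p + 1) => Ioc (-Real.pi) Real.pi)
    · rw [hH, Set.indicator_of_mem hw, e1]
    · rw [hH, Set.indicator_of_notMem hw]
      have e2 : f w = 0 := by
        by_contra hfw
        apply hw
        intro i _
        have e3 : |w i| ≤ B := by
          by_contra h
          exact hfw (hB w ⟨i, not_le.1 h⟩)
        have e4 : |w i| < n := lt_of_le_of_lt e3 hBn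
        have e5 : |Real.pi / n * w i| < Real.pi := by
          rw [abs_mul, abs_of_pos (by positivity), div_mul_eq_mul_div, div_lt_iff₀ hn0]
          exact mul_lt_mul_of_pos_left e4 hpi
        rw [abs_lt] at e5
        rw [Pi.smul_apply, smul_eq_mul, Set.mem_Ioc]
        constructor <;> linarith [e5.1, e5.2, neg_mul (Real.pi / n) (w i)]
      rw [e2, zero_mul]
  have h9 : ∫ v, f v * rs n (Fin.cons 0 v : Fin (p + 2) → ℝ) =
      (Real.pi / n) ^ (p + 2) * ∫ w, H (-(Real.pi / n) • w) := by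
    rw [← integral_const_mul]
    refine integral_congr_ae (Eventually.of_forall fun w => ?_)
    dsimp only
    rw [h8 w]
    exact (V6_point hn f B hB hBn w).symm
  rw [h9, h7]
  have h10 : |((-(Real.pi / n)) ^ Module.finrank ℝ (Fin (p + 1) → ℝ))⁻¹| =
      ((Real.pi / n) ^ (p + 1))⁻¹ := by
    rw [Module.finrank_fintype_fun_eq_card, Fintype.card_fin, abs_inv, abs_pow, abs_neg,
      abs_of_pos (by positivity : 0 < Real.pi / (n : ℝ))]
  rw [h10, smul_eq_mul, hNR]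
  have h11 : (Real.pi / (n : ℝ)) ^ (p + 2) * (((Real.pi / n) ^ (p + 1))⁻¹ * ∫ x, H x) =
      Real.pi / n * ∫ x, H x := by
    have e1 : (Real.pi / (n : ℝ)) ^ (p + 1) ≠ 0 := by positivity
    rw [show p + 2 = (p + 1) + 1 from rfl, pow_succ]
    field_simp
  rw [h11]
  have h12 : 1 / ((n : ℝ) * 2) * (2 * Real.pi * ∫ x, H x) = Real.pi / n * ∫ x, H x := by
    field_simp
  exact h12

end COE
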