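import Pool.Agent.LibCOE.Def2
import Pool.Agent.LibCOE.CP_S2
import Pool.Agent.LibCOE.CP_V4
import Pool.Agent.LibCOE.CP_V6
import Pool.Agent.LibCOE.CP_V8

/-! Row V9. Proof sketch:
For n > B: coe_corr, and |∫ f (rs - gR)| <= sup |f| * (2B)^(p+1) * C/n (f vanishes off the box [-B,B]^(p+1), f is bounded there by
compactness; integrability: bounded (rs_had) measurable on the box). For the finitely many 0 < n <= B enlarge the constant (as in
Pool/Agent/LibCOE/CO_R8.lean). -/

open MeasureTheory Set Filter Topology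

namespace COE

open QGr


theorem V9_main (p : ℕ) (f : (Fin (p + 1) → ℝ) → ℝ) (hf : Continuous f) (B : ℝ)
    (hB : ∀ v, (∃ i, B < |v i|) → f v = 0) : ∃ C, 0 ≤ C ∧ ∀ n : ℕ, 0 < n → B < n →
      |coeCorr (n * 2) p f - ∫ v, f v * gR (Fin.cons 0 v : Fin (p + 2) → ℝ)| ≤ C / n := by
  set R : ℝ := |B| with hR
  have hR0 : 0 ≤ R := abs_nonneg B
  set Q : Set (Fin (p + 1) → ℝ) := univ.pi fun _ => Icc (-R) R with hQ
  have hQc : IsCompact Q := isCompact_univ_pi fun _ => isCompact_Icc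
  have hQm : MeasurableSet Q := hQc.isClosed.measurableSet
  have hQf : volume Q ≠ ⊤ := hQc.measure_lt_top.ne
  have hout : ∀ v, v ∉ Q → f v = 0 := by
    intro v hv
    apply hB
    by_contra hcon
    push Not at hcon
    apply hv
    intro i _
    have h1 := (hcon i).trans (le_abs_self B)
    exact abs_le.1 h1
  obtain ⟨K, hK⟩ := hQc.exists_bound_of_continuousOn hf.continuousOn
  have hK0 : ∀ v, |f v| ≤ |K| := by
    intro v
    by_cases hv : v ∈ Q
    · exact (hK v hv).trans (le_abs_self K)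
    · rw [hout v hv, abs_zero]
      exact abs_nonneg K
  obtain ⟨C, hC⟩ := rs_lim (p + 2) R
  have hcons : Measurable fun v : Fin (p + 1) → ℝ => (Fin.cons 0 v : Fin (p + 2) → ℝ) := by
    refine measurable_pi_iff.2 fun j => ?_
    refine Fin.cases ?_ (fun i => ?_) j
    · simp only [Fin.cons_zero]
      exact measurable_const
    · simp only [Fin.cons_succ]
      exact measurable_pi_apply i
  have hbd : ∀ v ∈ Q, ∀ a, |(Fin.cons 0 v : Fin (p + 2) → ℝ) a| ≤ R := by
    intro v hv a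
    refine Fin.cases ?_ (fun i => ?_) a
    · simp only [Fin.cons_zero, abs_zero]
      exact hR0
    · simp only [Fin.cons_succ]
      exact abs_le.2 (hv i (mem_univ i))
  have hbd2 : ∀ v ∈ Q, ∀ a b, |(Fin.cons 0 v : Fin (p + 2) → ℝ) a -
      (Fin.cons 0 v : Fin (p + 2) → ℝ) b| ≤ 2 * R := by
    intro v hv a b
    have h1 := abs_sub ((Fin.cons 0 v : Fin (p + 2) → ℝ) a) ((Fin.cons 0 v : Fin (p + 2) → ℝ) b)
    have h2 := hbd v hv a
    have h3 := hbd v hv b
    linarith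
  -- integrability
  have hint : ∀ h : (Fin (p + 2) → ℝ) → ℝ, Measurable h → ∀ M : ℝ,
      (∀ v ∈ Q, |h (Fin.cons 0 v : Fin (p + 2) → ℝ)| ≤ M) →
      Integrable fun v : Fin (p + 1) → ℝ => f v * h (Fin.cons 0 v : Fin (p + 2) → ℝ) := by
    intro h hm M hM
    have h1 : IntegrableOn (fun v : Fin (p + 1) → ℝ =>
        f v * h (Fin.cons 0 v : Fin (p + 2) → ℝ)) Q := by
      refine Measure.integrableOn_of_bounded (M := |K| * |M|) hQf
        ((hf.measurable.mul (hm.comp hcons)).aestronglyMeasurable) ?_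
      refine (ae_restrict_iff' hQm).2 (ae_of_all _ fun v hv => ?_)
      rw [Real.norm_eq_abs, abs_mul]
      exact mul_le_mul (hK0 v) ((hM v hv).trans (le_abs_self M)) (abs_nonneg _) (abs_nonneg _)
    refine (integrableOn_iff_integrable_of_support_subset ?_).1 h1
    intro v hv
    by_contra hvQ
    apply hv
    show f v * _ = 0
    rw [hout v hvQ, zero_mul]
  refine ⟨|K| * |C| * (volume Q).toReal, by positivity, fun n hn hBn => ?_⟩
  have hn' : (0 : ℝ) < n := by exact_mod_cast hn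
  rw [coe_corr hn f hf B hB hBn, ← integral_sub
    (hint _ (rs_meas n) _ fun v hv => (rs_had hn (2 * R) _ (hbd2 v hv) (by positivity)).1)
    (hint _ gR_meas _ fun v hv => (rs_had hn (2 * R) _ (hbd2 v hv) (by positivity)).2)]
  have hset : ∫ v, (f v * rs n (Fin.cons 0 v : Fin (p + 2) → ℝ) -
      f v * gR (Fin.cons 0 v : Fin (p + 2) → ℝ)) =
      ∫ v in Q, (f v * rs n (Fin.cons 0 v : Fin (p + 2) → ℝ) -
      f v * gR (Fin.cons 0 v : Fin (p + 2) → ℝ)) := by
    symm
    apply setIntegral_eq_integral_of_forall_compl_eq_zero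
    intro v hv
    rw [hout v hv]
    ring
  rw [hset]
  have h1 : ‖∫ v in Q, (f v * rs n (Fin.cons 0 v : Fin (p + 2) → ℝ) -
      f v * gR (Fin.cons 0 v : Fin (p + 2) → ℝ))‖ ≤ (|K| * (|C| / n)) * volume.real Q := by
    refine norm_setIntegral_le_of_norm_le_const hQc.measure_lt_top fun v hv => ?_
    rw [← mul_sub, Real.norm_eq_abs, abs_mul]
    refine mul_le_mul (hK0 v) ((hC n hn _ (hbd v hv)).trans ?_) (abs_nonneg _) (abs_nonneg _)
    exact div_le_div_of_nonneg_right (le_abs_self _) hn'.le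
  rw [Real.norm_eq_abs] at h1
  refine h1.trans (le_of_eq ?_)
  show (|K| * (|C| / n)) * (volume Q).toReal = _
  ring

theorem goe_corr (p : ℕ) (f : (Fin (p + 1) → ℝ) → ℝ) (hf : Continuous f) (B : ℝ)
    (hB : ∀ v, (∃ i, B < |v i|) → f v = 0) : ∃ C, ∀ n : ℕ, 0 < n →
      |coeCorr (n * 2) p f - ∫ v, f v * gR (Fin.cons 0 v : Fin (p + 2) → ℝ)| ≤ C / n := by
  obtain ⟨C, hC0, hC⟩ := V9_main p f hf B hB
  set D : ℕ → ℝ := fun n => n *
    |coeCorr (n * 2) p f - ∫ v, f v * gR (Fin.cons 0 v : Fin (p + 2) → ℝ)| with hD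
  have hD0 : ∀ n, 0 ≤ D n := fun n => mul_nonneg (Nat.cast_nonneg n) (abs_nonneg _)
  refine ⟨C + ∑ n ∈ Finset.range (⌈B⌉₊ + 1), D n, fun n hn => ?_⟩
  have hn' : (0 : ℝ) < n := by exact_mod_cast hn
  by_cases hBn : B < n
  · refine (hC n hn hBn).trans (div_le_div_of_nonneg_right ?_ hn'.le)
    have := Finset.sum_nonneg fun i (_ : i ∈ Finset.range (⌈B⌉₊ + 1)) => hD0 i
    linarith
  · rw [not_lt] at hBn
    have h1 : n ∈ Finset.range (⌈B⌉₊ + 1) := by
      rw [Finset.mem_range]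
      have h2 : (n : ℝ) ≤ ⌈B⌉₊ := hBn.trans (Nat.le_ceil B)
      have h3 : n ≤ ⌈B⌉₊ := by exact_mod_cast h2
      omega
    have h4 := Finset.single_le_sum (fun i _ => hD0 i) h1
    rw [le_div_iff₀ hn']
    have h5 : |coeCorr (n * 2) p f - ∫ v, f v * gR (Fin.cons 0 v : Fin (p + 2) → ℝ)| * n
        = D n := by rw [hD]; ring
    rw [h5]
    linarith

end COE
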