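import Pool.Agent.LibCOE.Defs

/-! The circular orthogonal ensemble: objects for the `q`-point functions and the spacings. -/

open MeasureTheory Set Filter Topology

namespace COE

open QGr

/-- The skew form of two functions for a measure. -/
noncomputable def skm (μ : Measure ℝ) (f g : ℝ → ℂ) : ℂ :=
  ∫ x, ∫ y, ((Real.sign (y - x) : ℝ) : ℂ) * (f x * g y) ∂μ ∂μ

/-- Lebesgue measure on the circle, or a point mass. -/
noncomputable def nu {q : ℕ} (x : Fin q → ℝ) : Option (Fin q) → Measure ℝ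
  | none => volume.restrict (Ioc 0 (2 * Real.pi))
  | some a => Measure.dirac (x a)

/-- Lebesgue measure on the circle with additional point masses `t`. -/
noncomputable def mt {q : ℕ} (t : ℝ) (x : Fin q → ℝ) : Measure ℝ :=
  volume.restrict (Ioc 0 (2 * Real.pi)) + ∑ a, ENNReal.ofReal t • Measure.dirac (x a)

/-- The integral of the density with some of the variables fixed. -/
noncomputable def Iw {N q : ℕ} (x : Fin q → ℝ) (s : Fin N → Option (Fin q)) : ℝ :=
  ∫ θ, wt θ ∂(Measure.pi fun j => nu x (s j))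

/-- The signs of the differences. -/
noncomputable def sg {q : ℕ} (x : Fin q → ℝ) : Matrix (Fin q) (Fin q) ℂ := fun a b =>
  ((Real.sign (x b - x a) : ℝ) : ℂ)

/-- The values of the exponentials and of their images under the sign operator. -/
noncomputable def Wx {q : ℕ} (n : ℕ) (x : Fin q → ℝ) : Matrix (Ix q) (Ix n) ℂ := fun a k =>
  if a.2 = 0 then ep k (x a.1) else 2 / (Complex.I * hp k) * ep k (x a.1)

/-- The blocks `[t² s, -t; t, 0]`. -/
def Tm {q : ℕ} (t : ℂ) (s : Matrix (Fin q) (Fin q) ℂ) : Matrix (Ix q) (Ix q) ℂ := fun a b =>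
  if a.2 = 0 then (if b.2 = 0 then t ^ 2 * s a.1 b.1 else if a.1 = b.1 then -t else 0)
  else (if b.2 = 0 then (if a.1 = b.1 then t else 0) else 0)

/-- The blocks `[0, u; -u, s]`. -/
def Cm {q : ℕ} (u : ℂ) (s : Matrix (Fin q) (Fin q) ℂ) : Matrix (Ix q) (Ix q) ℂ := fun a b =>
  if a.2 = 0 then (if b.2 = 0 then 0 else if a.1 = b.1 then u else 0)
  else (if b.2 = 0 then (if a.1 = b.1 then -u else 0) else s a.1 b.1)

/-- The matrix of the `2 × 2` kernels. -/
def KM {q : ℕ} (D S J : ℝ → ℝ) (x : Fin q → ℝ) : Matrix (Ix q) (Ix q) ℝ := fun a b =>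
  !![-D (x a.1 - x b.1), S (x a.1 - x b.1); -S (x a.1 - x b.1), -J (x a.1 - x b.1)] a.2 b.2

/-- The third kernel (antiperiodic). -/
noncomputable def kJ (n : ℕ) (r : ℝ) : ℝ := Real.sign (Real.sin (r / 2)) / 2 - kI n r

/-- The `q`-point function of `COE(2n)`. -/
noncomputable def rq {q : ℕ} (n : ℕ) (x : Fin q → ℝ) : ℝ := √(KM (kD n) (kS n) (kJ n) x).det

/-- The scaled kernels. -/
noncomputable def sS (n : ℕ) (r : ℝ) : ℝ := Real.pi / n * kS n (Real.pi * r / n)

noncomputable def sD (n : ℕ) (r : ℝ) : ℝ := (Real.pi / n) ^ 2 * kD n (Real.pi * r / n)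

noncomputable def sJ (n : ℕ) (r : ℝ) : ℝ := Real.sign r / 2 - kI n (Real.pi * r / n)

/-- The scaled `q`-point function of `COE(2n)`. -/
noncomputable def rs {q : ℕ} (n : ℕ) (x : Fin q → ℝ) : ℝ := √(KM (sD n) (sS n) (sJ n) x).det

noncomputable def gJ (r : ℝ) : ℝ := Real.sign r / 2 - ∫ t in (0 : ℝ)..r, gS t

/-- The `q`-point function of the GOE. -/
noncomputable def gR {q : ℕ} (x : Fin q → ℝ) : ℝ := √(KM (deriv gS) gS gJ x).det

/-- The periodisation of a function of several variables. -/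
noncomputable def pzq (N : ℕ) {p : ℕ} (f : (Fin p → ℝ) → ℝ) (v : Fin p → ℝ) : ℝ :=
  ∑ᶠ m : Fin p → ℤ, f fun i => v i + m i * N

/-- The periodic function of the angles given by a function of the scaled differences. -/
noncomputable def Fz (N : ℕ) {p : ℕ} (f : (Fin p → ℝ) → ℝ) (x : Fin (p + 1) → ℝ) : ℝ :=
  pzq N f fun i => N / (2 * Real.pi) * (x 0 - x i.succ)

/-- The cube `(c, c + 2π]^k`. -/
noncomputable def cubc (c : ℝ) (k : ℕ) : Measure (Fin k → ℝ) :=
  Measure.pi fun _ => volume.restrict (Ioc c (c + 2 * Real.pi))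

/-- The diagonal unitary matrix with the eigenangles `θ`. -/
noncomputable def dr {N : ℕ} (θ : Fin N → ℝ) : Uni N :=
  dg fun j => ((θ j / (2 * Real.pi) : ℝ) : UnitAddCircle)

/-- The representative in `(0, N]` of `N r / (2π)`. -/
noncomputable def gm (N : ℕ) (r : ℝ) : ℝ := N * (1 - Int.fract (-(r / (2 * Real.pi))))

/-- The gap next to the point `θ p`. -/
noncomputable def gp {N : ℕ} (θ : Fin N → ℝ) (p : Fin N) : ℝ :=
  ⨅ j : {j : Fin N // j ≠ p}, gm N (θ p - θ j)

/-- The number of gaps longer than `s`. -/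
noncomputable def cg {N : ℕ} (s : ℝ) (θ : Fin N → ℝ) : ℝ :=
  ∑ p, if ∀ j, j ≠ p → s < gm N (θ p - θ j) then 1 else 0

/-- The mean proportion of the gaps longer than `s`. -/
noncomputable def SN (N : ℕ) (s : ℝ) : ℝ :=
  (∫ θ, (1 / N * cg s θ) * wt θ ∂(cube (Fin N))) / ∫ θ, wt θ ∂(cube (Fin N))

/-- The terms of the series of the gap probabilities. -/
noncomputable def tn (n k : ℕ) (s : ℝ) : ℝ :=
  (-1) ^ k / k.factorial * ∫ v in univ.pi fun _ : Fin k => Ioc 0 s, rs n (Fin.cons 0 v : Fin (k + 1) → ℝ)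

noncomputable def tg (k : ℕ) (s : ℝ) : ℝ :=
  (-1) ^ k / k.factorial * ∫ v in univ.pi fun _ : Fin k => Ioc 0 s, gR (Fin.cons 0 v : Fin (k + 1) → ℝ)

/-- The gap probability of the GOE. -/
noncomputable def gE (s : ℝ) : ℝ := ∑' k, tg k s

end COE
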