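import Pool.Agent.LibQGr.Def2

/-! The circular orthogonal ensemble: objects. -/

open MeasureTheory Set Filter Topology

namespace COE

open QGr

/-- The cube `(0, 2π]^ι`. -/
noncomputable def cube (ι : Type) [Fintype ι] : Measure (ι → ℝ) :=
  Measure.pi fun _ => volume.restrict (Ioc 0 (2 * Real.pi))

/-- The power sums of the `e^{iθ_j}`. -/
noncomputable def ps {N : ℕ} (k : ℤ) (θ : Fin N → ℝ) : ℂ :=
  ∑ j, Complex.exp ((k * θ j : ℝ) * Complex.I)

/-- The density `∏_{i<j} |e^{iθ_i} - e^{iθ_j}|`. -/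
noncomputable def wt {N : ℕ} (θ : Fin N → ℝ) : ℝ :=
  ∏ i, ∏ j ∈ Finset.Ioi i, |2 * Real.sin ((θ j - θ i) / 2)|

/-- `½ cot (x / 2)`. -/
noncomputable def ct (x : ℝ) : ℝ := Real.cos (x / 2) / (2 * Real.sin (x / 2))

/-- The logarithmic derivative of the density. -/
noncomputable def lw {N : ℕ} (θ : Fin N → ℝ) (j : Fin N) : ℝ :=
  ∑ l ∈ Finset.univ.erase j, ct (θ j - θ l)

/-- No two points of the circle coincide. -/
def Dist {N : ℕ} (θ : Fin N → ℝ) : Prop := ∀ i j, i ≠ j → Real.sin ((θ j - θ i) / 2) ≠ 0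

/-- A periodic differentiable function with its partial derivatives. -/
structure Per {N : ℕ} (G : (Fin N → ℝ) → ℂ) (G' : Fin N → (Fin N → ℝ) → ℂ) : Prop where
  cont : Continuous G
  cont' : ∀ j, Continuous (G' j)
  per : ∀ θ j, G (Function.update θ j (θ j + 2 * Real.pi)) = G θ
  der : ∀ θ j, HasDerivAt (fun t => G (Function.update θ j t)) (G' j θ) (θ j)

/-- The loop polynomial `|k| ((N + |k|) q_k + ∑_{0<a<|k|} q_{±a} q_{k∓a})`. -/
noncomputable def spl (N : ℕ) (k : ℤ) (q : ℤ → ℂ) : ℂ :=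
  (k.natAbs : ℂ) * (((N : ℂ) + k.natAbs) * q k
    + ∑ a ∈ Finset.Ico 1 k.natAbs, q (k.sign * a) * q (k - k.sign * a))

/-- The second order operator on products of power sums. -/
noncomputable def Qf (N : ℕ) {r : ℕ} (m : Fin r → ℤ) (q : ℤ → ℂ) : ℂ :=
  ∑ i, spl N (m i) q * ∏ j ∈ Finset.univ.erase i, q (m j)
    + 2 * ∑ i, ∑ j ∈ Finset.univ.erase i, ((m i : ℂ) * (m j : ℂ)) * q (m i + m j)
        * ∏ l ∈ (Finset.univ.erase i).erase j, q (m l)

/-- The traces of the powers of `Aᵀ A`. -/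
noncomputable def tW {N : ℕ} (A : Uni N) (k : ℤ) : ℂ := Matrix.trace ((sy A ^ k : Uni N).1)

/-- The matrix `v vᵀ`. -/
noncomputable def vv {N : ℕ} (v : Fin N → ℝ) : Matrix (Fin N) (Fin N) ℂ :=
  Matrix.of fun i j => ((v i * v j : ℝ) : ℂ)

theorem vv_sq {N : ℕ} (v : Fin N → ℝ) (hv : ∑ i, v i ^ 2 = 1) : vv v * vv v = vv v := by
  ext i j
  unfold vv
  simp only [Matrix.mul_apply, Matrix.of_apply]
  have h : ∀ l, ((v i * v l : ℝ) : ℂ) * ((v l * v j : ℝ) : ℂ)
      = ((v i * v j : ℝ) : ℂ) * ((v l ^ 2 : ℝ) : ℂ) := by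
    intro l
    push_cast
    ring
  rw [Finset.sum_congr rfl fun l _ => h l, ← Finset.mul_sum, ← Complex.ofReal_sum, hv]
  simp

theorem vv_star {N : ℕ} (v : Fin N → ℝ) : star (vv v) = vv v := by
  ext i j
  unfold vv
  simp only [Matrix.star_apply, Matrix.of_apply, Complex.star_def, Complex.conj_ofReal]
  rw [mul_comm]

/-- The unitary matrix `1 + (e^{it} - 1) v vᵀ`. -/
noncomputable def up {N : ℕ} (v : Fin N → ℝ) (hv : ∑ i, v i ^ 2 = 1) (t : ℝ) : Uni N :=
  ⟨1 + (Complex.exp (t * Complex.I) - 1) • vv v, by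
    rw [Matrix.mem_unitaryGroup_iff, star_add, star_one, star_smul, vv_star]
    have h1 : star (Complex.exp (t * Complex.I) - 1) = Complex.exp (-(t * Complex.I)) - 1 := by
      rw [Complex.star_def, map_sub, map_one, ← Complex.exp_conj]
      simp
    rw [h1, add_mul, mul_add, mul_add, one_mul, one_mul, mul_one, smul_mul_smul_comm,
      vv_sq v hv]
    have h2 : (Complex.exp (t * Complex.I) - 1) * (Complex.exp (-(t * Complex.I)) - 1)
        = -(Complex.exp (t * Complex.I) - 1) - (Complex.exp (-(t * Complex.I)) - 1) := by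
      have h3 : Complex.exp (t * Complex.I) * Complex.exp (-(t * Complex.I)) = 1 := by
        rw [← Complex.exp_add, add_neg_cancel, Complex.exp_zero]
      linear_combination h3
    rw [h2]
    module⟩

/-- Index set of `2 n` elements in pairs. -/
abbrev Ix (n : ℕ) : Type := Fin n × Fin 2

/-- The position of an index. -/
def od {n : ℕ} (a : Ix n) : ℕ := 2 * a.1 + a.2

/-- The (unnormalised) Pfaffian. -/
noncomputable def pf {R : Type} [CommRing R] {n : ℕ} (A : Matrix (Ix n) (Ix n) R) : R :=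
  ∑ σ : Equiv.Perm (Ix n), (Equiv.Perm.sign σ : ℤ) • ∏ i, A (σ (i, 0)) (σ (i, 1))

/-- The standard symplectic matrix. -/
def Jm (n : ℕ) : Matrix (Ix n) (Ix n) ℂ := fun a b =>
  if a.1 = b.1 then (if a.2 = 0 ∧ b.2 = 1 then 1 else if a.2 = 1 ∧ b.2 = 0 then -1 else 0) else 0

/-- The half-integers `-(2n-1)/2, ..., (2n-1)/2`. -/
noncomputable def hp {n : ℕ} (k : Ix n) : ℝ := od k - (2 * n - 1) / 2

/-- The reflection of the indices. -/
def rv {n : ℕ} (k : Ix n) : Ix n := (k.1.rev, k.2.rev)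

/-- The exponential with a half-integer. -/
noncomputable def ep {n : ℕ} (k : Ix n) (x : ℝ) : ℂ := Complex.exp ((hp k * x : ℝ) * Complex.I)

/-- The skew form of two functions. -/
noncomputable def sk (f g : ℝ → ℂ) : ℂ :=
  ∫ x in (0 : ℝ)..(2 * Real.pi), ∫ y in (0 : ℝ)..(2 * Real.pi), (Real.sign (y - x) : ℂ) * (f x * g y)

/-- The matrices of the skew form. -/
noncomputable def M0 (n : ℕ) : Matrix (Ix n) (Ix n) ℂ := fun k l => sk (ep k) (ep l)

noncomputable def M1 (n : ℕ) (u : ℝ → ℝ) : Matrix (Ix n) (Ix n) ℂ := fun k l =>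
  sk (fun x => u x * ep k x) (ep l) + sk (ep k) (fun x => u x * ep l x)

noncomputable def M2 (n : ℕ) (u : ℝ → ℝ) : Matrix (Ix n) (Ix n) ℂ := fun k l =>
  sk (fun x => u x * ep k x) (fun x => u x * ep l x)

/-- The inverse of `M0 n`. -/
noncomputable def Rm (n : ℕ) : Matrix (Ix n) (Ix n) ℂ := fun k l =>
  if l = rv k then Complex.I * hp l / (4 * Real.pi) else 0

/-- The partial derivatives of a product of power sums over a finite set. -/
noncomputable def dF {N : ℕ} {ι : Type} [DecidableEq ι] (s : Finset ι) (m : ι → ℤ) (j : Fin N)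
    (θ : Fin N → ℝ) : ℂ :=
  ∑ i ∈ s, Complex.I * m i * Complex.exp ((m i * θ j : ℝ) * Complex.I) *
    ∏ l ∈ s.erase i, ps (m l) θ

/-- The span of the products of power sums of total degree at most `d`. -/
def Vd (N d : ℕ) : Submodule ℂ ((Fin N → ℝ) → ℂ) :=
  Submodule.span ℂ {f | ∃ (r : ℕ) (m : Fin r → ℤ), ∑ i, (m i).natAbs ≤ d ∧
    f = fun θ => ∏ i, ps (m i) θ}

/-- The span of the constants and the images of the products under the second order operator. -/
noncomputable def Wd (N d : ℕ) : Submodule ℂ ((Fin N → ℝ) → ℂ) :=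
  Submodule.span ℂ ({fun _ => 1} ∪ {f | ∃ (r : ℕ) (m : Fin r → ℤ), ∑ i, (m i).natAbs ≤ d ∧
    f = fun θ => Qf N m (fun a => ps a θ)})

/-- The derivative of `tr (S W^k)` in the direction `V`. -/
noncomputable def dS {N : ℕ} (k : ℕ) (S V : Matrix (Fin N) (Fin N) ℂ) (A : Uni N) : ℂ :=
  Complex.I * ∑ a ∈ Finset.range k, (Matrix.trace (S * (sy A).1 ^ a * V * (sy A).1 ^ (k - a))
    + Matrix.trace (S * (sy A).1 ^ (a + 1) * V * (sy A).1 ^ (k - 1 - a)))

/-- The full derivative of `tr (S W^k) ∏ tr W^(m i)` in the direction `V`. -/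
noncomputable def dT {N : ℕ} {ι : Type} [DecidableEq ι] (k : ℕ) (s : Finset ι) (m : ι → ℤ)
    (S V : Matrix (Fin N) (Fin N) ℂ) (A : Uni N) : ℂ :=
  dS k S V A * ∏ i ∈ s, tW A (m i) + Matrix.trace (S * (sy A).1 ^ k) *
    ∑ i ∈ s, 2 * Complex.I * m i * Matrix.trace ((sy A ^ m i : Uni N).1 * V) *
      ∏ l ∈ s.erase i, tW A (m l)

/-- The matrix `E_jl + E_lj`. -/
noncomputable def Es {N : ℕ} (j l : Fin N) : Matrix (Fin N) (Fin N) ℂ :=
  Matrix.single j l 1 + Matrix.single l j 1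

/-- The kernels. -/
noncomputable def kS (n : ℕ) (r : ℝ) : ℝ := 1 / (2 * Real.pi) * ∑ k : Ix n, Real.cos (hp k * r)

noncomputable def kD (n : ℕ) (r : ℝ) : ℝ :=
  -(1 / (2 * Real.pi)) * ∑ k : Ix n, hp k * Real.sin (hp k * r)

noncomputable def kI (n : ℕ) (r : ℝ) : ℝ :=
  1 / (2 * Real.pi) * ∑ k : Ix n, 1 / hp k * Real.sin (hp k * r)

/-- The cluster function of `COE(2n)`. -/
noncomputable def kT (n : ℕ) (r : ℝ) : ℝ :=
  kS n r ^ 2 + kD n r * (Real.sign r / 2 - kI n r)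

/-- The scaled cluster function. -/
noncomputable def yN (n : ℕ) (r : ℝ) : ℝ := (Real.pi / n) ^ 2 * kT n (Real.pi * r / n)

/-- The sine kernel `sin (πr) / (πr)`. -/
noncomputable def gS (r : ℝ) : ℝ := Real.sinc (Real.pi * r)

/-- The two-level cluster function of the GOE. -/
noncomputable def gY (r : ℝ) : ℝ :=
  gS r ^ 2 + deriv gS r * (Real.sign r / 2 - ∫ t in (0 : ℝ)..r, gS t)

/-- The periodisation. -/
noncomputable def pz (N : ℕ) (f : ℝ → ℝ) (x : ℝ) : ℝ := ∑ᶠ n : ℤ, f (x + n * N)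

end COE
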